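import Mathlib

set_option autoImplicit false

namespace Pool.Agent.H9.Anti

/-- `n` is representable with respect to `p, q`: it is the sum of a finite set of numbers
`p^k q^l` none of which divides a different one. -/
def Representable (p q n : ℕ) : Prop :=
  ∃ S : Finset ℕ, (∀ s ∈ S, ∃ k l : ℕ, s = p^k * q^l) ∧
    (∀ s ∈ S, ∀ t ∈ S, s ∣ t → s = t) ∧ ∑ s ∈ S, s = n

end Pool.Agent.H9.Anti
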