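import Mathlib
import Pool.Agent.H9.AntiDefs

set_option autoImplicit false

open Finset

namespace Pool.Agent.H9.Anti

/-- antichains in the exponent plane -/
def IsAC (A : Finset (ℕ × ℕ)) : Prop := ∀ x ∈ A, ∀ y ∈ A, x.1 ≤ y.1 → x.2 ≤ y.2 → x = y

lemma ac_lt {A : Finset (ℕ × ℕ)} (h : IsAC A) {x y : ℕ × ℕ} (hx : x ∈ A) (hy : y ∈ A) :
    x.1 < y.1 ↔ y.2 < x.2 := by
  constructor
  · intro h1
    by_contra h2
    push Not at h2
    have := h x hx y hy h1.le h2
    subst this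
    exact lt_irrefl _ h1
  · intro h1
    by_contra h2
    push Not at h2
    have := h y hy x hx h2 h1.le
    subst this
    exact lt_irrefl _ h1

lemma ac_inj1 {A : Finset (ℕ × ℕ)} (h : IsAC A) {x y : ℕ × ℕ} (hx : x ∈ A) (hy : y ∈ A)
    (h1 : x.1 = y.1) : x = y := by
  rcases le_total x.2 y.2 with h2 | h2
  · exact h x hx y hy h1.le h2
  · exact (h y hy x hx h1.ge h2).symm

lemma ac_inj2 {A : Finset (ℕ × ℕ)} (h : IsAC A) {x y : ℕ × ℕ} (hx : x ∈ A) (hy : y ∈ A)
    (h1 : x.2 = y.2) : x = y := by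
  rcases le_total x.1 y.1 with h2 | h2
  · exact h x hx y hy h2 h1.le
  · exact (h y hy x hx h2 h1.ge).symm

/-- counting identity -/
lemma ac_count {A : Finset (ℕ × ℕ)} (h : IsAC A) {x : ℕ × ℕ} (hx : x ∈ A) :
    #{k ∈ A.image Prod.fst | k < x.1} = #{l ∈ A.image Prod.snd | x.2 < l} := by
  have h1 : {k ∈ A.image Prod.fst | k < x.1} = {y ∈ A | y.1 < x.1}.image Prod.fst := by
    ext k; simp only [mem_filter, mem_image]
    constructor
    · rintro ⟨⟨y, hy, rfl⟩, hk⟩; exact ⟨y, ⟨hy, hk⟩, rfl⟩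
    · rintro ⟨y, ⟨hy, hk⟩, rfl⟩; exact ⟨⟨y, hy, rfl⟩, hk⟩
  have h2 : {l ∈ A.image Prod.snd | x.2 < l} = {y ∈ A | y.1 < x.1}.image Prod.snd := by
    ext k; simp only [mem_filter, mem_image]
    constructor
    · rintro ⟨⟨y, hy, rfl⟩, hk⟩; exact ⟨y, ⟨hy, (ac_lt h hy hx).2 hk⟩, rfl⟩
    · rintro ⟨y, ⟨hy, hk⟩, rfl⟩; exact ⟨⟨y, hy, rfl⟩, (ac_lt h hy hx).1 hk⟩
  rw [h1, h2, card_image_of_injOn, card_image_of_injOn]
  · intro a ha b hb hab
    exact ac_inj2 h (mem_filter.1 ha).1 (mem_filter.1 hb).1 hab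
  · intro a ha b hb hab
    exact ac_inj1 h (mem_filter.1 ha).1 (mem_filter.1 hb).1 hab

lemma count_inj (L : Finset ℕ) (a b : ℕ) (ha : a ∈ L) (hb : b ∈ L)
    (h : #{l ∈ L | a < l} = #{l ∈ L | b < l}) : a = b := by
  by_contra hne
  rcases lt_or_gt_of_ne hne with h1 | h1
  · have : #{l ∈ L | b < l} < #{l ∈ L | a < l} := by
      apply card_lt_card
      rw [Finset.ssubset_iff_of_subset]
      · exact ⟨b, mem_filter.2 ⟨hb, h1⟩, fun h2 => lt_irrefl _ (mem_filter.1 h2).2⟩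
      · intro l hl; rw [mem_filter] at hl ⊢; exact ⟨hl.1, h1.trans hl.2⟩
    omega
  · have : #{l ∈ L | a < l} < #{l ∈ L | b < l} := by
      apply card_lt_card
      rw [Finset.ssubset_iff_of_subset]
      · exact ⟨a, mem_filter.2 ⟨ha, h1⟩, fun h2 => lt_irrefl _ (mem_filter.1 h2).2⟩
      · intro l hl; rw [mem_filter] at hl ⊢; exact ⟨hl.1, lt_trans h1 hl.2⟩
    omega

lemma ac_sub {A B : Finset (ℕ × ℕ)} (hA : IsAC A) (hB : IsAC B)
    (h1 : A.image Prod.fst = B.image Prod.fst) (h2 : A.image Prod.snd = B.image Prod.snd) :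
    A ⊆ B := by
  intro x hx
  have hx1 : x.1 ∈ B.image Prod.fst := h1 ▸ mem_image_of_mem _ hx
  obtain ⟨y, hy, hyx⟩ := mem_image.1 hx1
  have c1 := ac_count hA hx
  have c2 := ac_count hB hy
  rw [h1, h2, ← hyx] at c1
  have h3 : x.2 = y.2 := by
    apply count_inj (B.image Prod.snd)
    · rw [← h2]; exact mem_image_of_mem _ hx
    · exact mem_image_of_mem _ hy
    · rw [← c1, c2]
  have : x = y := Prod.ext hyx.symm h3
  rw [this]; exact hy

/-- the encoding by a subset of `range (X + Y + 2)` -/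
def enc (X Y : ℕ) (A : Finset (ℕ × ℕ)) : Finset ℕ :=
  A.image Prod.fst ∪ ((range (Y+1)) \ A.image Prod.snd).image (fun l => X + 1 + l)

lemma enc_spec (X Y : ℕ) {A : Finset (ℕ × ℕ)} (hA : IsAC A) (hb : ∀ x ∈ A, x.1 ≤ X ∧ x.2 ≤ Y) :
    enc X Y A ∈ powersetCard (Y+1) (range (X + Y + 2)) := by
  rw [mem_powersetCard]
  constructor
  · intro k hk
    unfold enc at hk
    rw [mem_union, mem_image, mem_image] at hk
    rw [mem_range]
    rcases hk with ⟨x, hx, rfl⟩ | ⟨l, hl, rfl⟩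
    · have := (hb x hx).1; omega
    · rw [mem_sdiff, mem_range] at hl; omega
  · unfold enc
    have hsub : A.image Prod.snd ⊆ range (Y+1) := by
      intro l hl
      rw [mem_image] at hl
      obtain ⟨x, hx, rfl⟩ := hl
      rw [mem_range]; have := (hb x hx).2; omega
    have c1 : #(A.image Prod.fst) = #A :=
      card_image_of_injOn (fun a ha b hb' hab => ac_inj1 hA ha hb' hab)
    have c2 : #(A.image Prod.snd) = #A :=
      card_image_of_injOn (fun a ha b hb' hab => ac_inj2 hA ha hb' hab)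
    have c3 : #(((range (Y+1)) \ A.image Prod.snd).image (fun l => X + 1 + l)) = Y + 1 - #A := by
      rw [card_image_of_injective _ (fun a b h => by simpa using h), card_sdiff_of_subset hsub,
        card_range, c2]
    have c4 : #A ≤ Y + 1 := by
      have h1 := card_le_card hsub
      rwa [card_range, c2] at h1
    rw [card_union_of_disjoint, c1, c3]
    · omega
    · rw [disjoint_left]
      intro k hk hk'
      rw [mem_image] at hk hk'
      obtain ⟨x, hx, rfl⟩ := hk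
      obtain ⟨l, _, hl⟩ := hk'
      have := (hb x hx).1
      omega

lemma enc_inj (X Y : ℕ) {A B : Finset (ℕ × ℕ)} (hA : IsAC A) (hB : IsAC B)
    (hbA : ∀ x ∈ A, x.1 ≤ X ∧ x.2 ≤ Y) (hbB : ∀ x ∈ B, x.1 ≤ X ∧ x.2 ≤ Y)
    (h : enc X Y A = enc X Y B) : A = B := by
  have key : ∀ A B : Finset (ℕ × ℕ), (∀ x ∈ A, x.1 ≤ X ∧ x.2 ≤ Y) → (∀ x ∈ B, x.1 ≤ X ∧ x.2 ≤ Y) →
      enc X Y A = enc X Y B → A.image Prod.fst ⊆ B.image Prod.fst ∧
      B.image Prod.snd ⊆ A.image Prod.snd := by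
    intro A B hbA hbB h
    constructor
    · intro k hk
      have h1 : k ∈ enc X Y B := by
        rw [← h]; unfold enc; exact mem_union_left _ hk
      unfold enc at h1
      rw [mem_union] at h1
      rcases h1 with h1 | h1
      · exact h1
      · exfalso
        rw [mem_image] at h1 hk
        obtain ⟨l, _, hl⟩ := h1
        obtain ⟨x, hx, rfl⟩ := hk
        have := (hbA x hx).1
        omega
    · intro l hl
      by_contra hcon
      have hl' : l ≤ Y := by
        rw [mem_image] at hl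
        obtain ⟨x, hx, rfl⟩ := hl
        exact (hbB x hx).2
      have h1 : X + 1 + l ∈ enc X Y A := by
        unfold enc
        apply mem_union_right
        rw [mem_image]
        exact ⟨l, mem_sdiff.2 ⟨mem_range.2 (by omega), hcon⟩, rfl⟩
      rw [h] at h1
      unfold enc at h1
      rw [mem_union, mem_image, mem_image] at h1
      rcases h1 with ⟨x, hx, h1⟩ | ⟨l', h1, h2⟩
      · have := (hbB x hx).1; omega
      · have : l' = l := by omega
        subst this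
        exact (mem_sdiff.1 h1).2 hl
  obtain ⟨a1, a2⟩ := key A B hbA hbB h
  obtain ⟨b1, b2⟩ := key B A hbB hbA h.symm
  have e1 : A.image Prod.fst = B.image Prod.fst := Subset.antisymm a1 b1
  have e2 : A.image Prod.snd = B.image Prod.snd := Subset.antisymm b2 a2
  exact Subset.antisymm (ac_sub hA hB e1 e2) (ac_sub hB hA e1.symm e2.symm)

/-- exponents of a representation -/
lemma rep_exps (p q : ℕ) (hp : 2 ≤ p) (hq : 2 ≤ q) (n N X Y : ℕ) (hn : n ≤ N)
    (hX : N < p^(X+1)) (hY : N < q^(Y+1)) (h : Representable p q n) :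
    ∃ A : Finset (ℕ × ℕ), IsAC A ∧ (∀ x ∈ A, x.1 ≤ X ∧ x.2 ≤ Y) ∧
      ∑ x ∈ A, p^x.1 * q^x.2 = n := by
  classical
  obtain ⟨S, h1, h2, h3⟩ := h
  choose! k l hkl using h1
  set A := S.image (fun s => (k s, l s)) with hA
  have hinj : Set.InjOn (fun s => (k s, l s)) S := by
    intro s hs t ht hst
    simp only [Prod.mk.injEq] at hst
    rw [hkl s hs, hkl t ht, hst.1, hst.2]
  refine ⟨A, ?_, ?_, ?_⟩
  · intro x hx y hy hxy1 hxy2
    rw [hA, mem_image] at hx hy
    obtain ⟨s, hs, rfl⟩ := hx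
    obtain ⟨t, ht, rfl⟩ := hy
    have hdvd : s ∣ t := by
      rw [hkl s hs, hkl t ht]
      exact Nat.mul_dvd_mul (pow_dvd_pow _ hxy1) (pow_dvd_pow _ hxy2)
    rw [h2 s hs t ht hdvd]
  · intro x hx
    rw [hA, mem_image] at hx
    obtain ⟨s, hs, rfl⟩ := hx
    have hs1 : s ≤ N := by
      have : s ≤ ∑ s ∈ S, s := Finset.single_le_sum (f := fun s => s) (fun _ _ => Nat.zero_le _) hs
      omega
    have hs2 := hkl s hs
    have hpk : 0 < p^(k s) := by positivity
    have hql : 0 < q^(l s) := by positivity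
    constructor
    · by_contra hcon
      push Not at hcon
      have : p^(X+1) ≤ p^(k s) := Nat.pow_le_pow_right (by omega) hcon
      have : p^(k s) ≤ s := by
        conv_rhs => rw [hs2]
        exact Nat.le_mul_of_pos_right _ hql
      omega
    · by_contra hcon
      push Not at hcon
      have : q^(Y+1) ≤ q^(l s) := Nat.pow_le_pow_right (by omega) hcon
      have : q^(l s) ≤ s := by
        conv_rhs => rw [hs2]
        exact Nat.le_mul_of_pos_left _ hpk
      omega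
  · rw [hA, sum_image hinj, ← h3]
    exact sum_congr rfl (fun s hs => (hkl s hs).symm)

/-- the number of representable numbers up to `N` -/
lemma rep_count (p q : ℕ) (hp : 2 ≤ p) (hq : 2 ≤ q) (N X Y : ℕ)
    (hX : N < p^(X+1)) (hY : N < q^(Y+1)) (R : Finset ℕ) (hR : ∀ n ∈ R, n ≤ N ∧ Representable p q n) :
    #R ≤ (X + Y + 2).choose (Y + 1) := by
  have hc : ∀ n ∈ R, ∃ A : Finset (ℕ × ℕ), IsAC A ∧ (∀ x ∈ A, x.1 ≤ X ∧ x.2 ≤ Y) ∧
      ∑ x ∈ A, p^x.1 * q^x.2 = n :=
    fun n hn => rep_exps p q hp hq n N X Y (hR n hn).1 hX hY (hR n hn).2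
  choose! A hA1 hA2 hA3 using hc
  have : #R ≤ #(powersetCard (Y+1) (range (X + Y + 2))) := by
    apply Finset.card_le_card_of_injOn (fun n => enc X Y (A n))
    · intro n hn; exact enc_spec X Y (hA1 n hn) (hA2 n hn)
    · intro n hn m hm h
      have := enc_inj X Y (hA1 n hn) (hA1 m hm) (hA2 n hn) (hA2 m hm) h
      rw [← hA3 n hn, ← hA3 m hm, this]
  rwa [card_powersetCard, card_range] at this

/-- binomial bound -/
lemma choose_bound (a b : ℝ) (ha : 0 < a) (hb : 0 < b) (hab : a + b ≤ 1) (m n : ℕ) :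
    ((m + n).choose n : ℝ) * (a^m * b^n) ≤ 1 := by
  have h1 : ((m + n).choose n : ℝ) * (a^m * b^n) ≤ (a + b)^(m+n) := by
    rw [add_pow]
    have h2 := Finset.single_le_sum (f := fun k => a^k * b^(m + n - k) * ((m+n).choose k : ℝ))
      (s := range (m + n + 1)) (fun k _ => by positivity) (mem_range.2 (show m < m + n + 1 by omega))
    refine le_trans (le_of_eq ?_) h2
    rw [Nat.add_sub_cancel_left, Nat.choose_symm_add]
    ring
  refine h1.trans (pow_le_one₀ (by positivity) hab)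

/-- main counting theorem -/
theorem inf_of_bound (p q : ℕ) (hp : 2 ≤ p) (hq : 2 ≤ q) (a b : ℝ) (ha : 0 < a) (hb : 0 < b)
    (hab : a + b ≤ 1) (D U V : ℕ) (hUV : U + V < D) (h1 : 1 ≤ a^D * (p:ℝ)^U)
    (h2 : 1 ≤ b^D * (q:ℝ)^V) :
    {n : ℕ | 0 < n ∧ Nat.Coprime n (p*q) ∧ ¬ Representable p q n}.Infinite := by
  classical
  intro hfin
  set E := hfin.toFinset with hE
  have hp0 : (0:ℝ) < p := by positivity
  have hq0 : (0:ℝ) < q := by positivity
  -- for every m: m ≤ #E + count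
  have key : ∀ m : ℕ, 1 ≤ m → ((m:ℝ) - #E)^D ≤ (p:ℝ)^U * (q:ℝ)^V * ((p*q*m : ℕ):ℝ)^(D-1) ∨
      (m:ℝ) ≤ #E := by
    intro m hm
    by_cases hmE : (m:ℝ) ≤ #E
    · right; exact hmE
    left
    push Not at hmE
    set N := p*q*m with hN
    have hN1 : 1 ≤ N := by
      have : 0 < p*q*m := by positivity
      omega
    set X := Nat.log p N with hXd
    set Y := Nat.log q N with hYd
    have hX : N < p^(X+1) := Nat.lt_pow_succ_log_self (by omega) N
    have hY : N < q^(Y+1) := Nat.lt_pow_succ_log_self (by omega) N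
    have hX2 : p^X ≤ N := Nat.pow_log_le_self p (by omega)
    have hY2 : q^Y ≤ N := Nat.pow_log_le_self q (by omega)
    set R := ((range m).image (fun j => 1 + p*q*j)) \ E with hR
    have hpq : 0 < p*q := by positivity
    have hRspec : ∀ n ∈ R, n ≤ N ∧ Representable p q n := by
      intro n hn
      rw [hR, mem_sdiff, mem_image] at hn
      obtain ⟨⟨j, hj, rfl⟩, hnE⟩ := hn
      rw [mem_range] at hj
      constructor
      · have : p*q*(j+1) ≤ p*q*m := Nat.mul_le_mul_left _ (by omega)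
        have h3 : 1 ≤ p*q := hpq
        calc 1 + p*q*j ≤ p*q + p*q*j := by omega
          _ = p*q*(j+1) := by ring
          _ ≤ N := this
      · by_contra hcon
        apply hnE
        rw [hE, Set.Finite.mem_toFinset]
        refine ⟨by omega, ?_, hcon⟩
        rw [Nat.coprime_add_mul_left_left]
        exact Nat.coprime_one_left _
    have hcnt := rep_count p q hp hq N X Y hX hY R hRspec
    have hRc : m ≤ #R + #E := by
      have h3 : #((range m).image (fun j => 1 + p*q*j)) = m := by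
        rw [card_image_of_injective, card_range]
        intro i j hij
        have hij' : 1 + p*q*i = 1 + p*q*j := hij
        have : p*q*i = p*q*j := by omega
        exact Nat.eq_of_mul_eq_mul_left hpq this
      have h4 := Finset.card_sdiff_add_card ((range m).image (fun j => 1 + p*q*j)) E
      have h5 := Finset.card_le_card (Finset.subset_union_left (s₁ := (range m).image (fun j => 1 + p*q*j)) (s₂ := E))
      rw [← hR] at h4
      omega
    have hRr : (m:ℝ) - #E ≤ ((X + Y + 2).choose (Y+1) : ℝ) := by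
      have h6 : (m:ℝ) ≤ (#R:ℝ) + #E := by exact_mod_cast hRc
      have h7 : (#R:ℝ) ≤ ((X + Y + 2).choose (Y+1) : ℝ) := by exact_mod_cast hcnt
      linarith
    have hch := choose_bound a b ha hb hab (X+1) (Y+1)
    rw [show X + 1 + (Y + 1) = X + Y + 2 by ring] at hch
    have hD : (((X + Y + 2).choose (Y+1) : ℝ))^D ≤ ((p:ℝ)^U)^(X+1) * ((q:ℝ)^V)^(Y+1) := by
      have h8 : (((X + Y + 2).choose (Y+1) : ℝ))^D * ((a^D)^(X+1) * (b^D)^(Y+1)) ≤ 1 := by
        have h9 : (((X + Y + 2).choose (Y+1) : ℝ))^D * ((a^D)^(X+1) * (b^D)^(Y+1)) =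
            (((X + Y + 2).choose (Y+1) : ℝ) * (a^(X+1) * b^(Y+1)))^D := by
          rw [mul_pow, mul_pow, ← pow_mul, ← pow_mul, ← pow_mul, ← pow_mul, mul_comm D (X+1),
            mul_comm D (Y+1)]
        rw [h9]
        exact pow_le_one₀ (by positivity) hch
      have h10 : (1:ℝ) ≤ ((a^D)^(X+1) * (b^D)^(Y+1)) * (((p:ℝ)^U)^(X+1) * ((q:ℝ)^V)^(Y+1)) := by
        have e : ((a^D)^(X+1) * (b^D)^(Y+1)) * (((p:ℝ)^U)^(X+1) * ((q:ℝ)^V)^(Y+1)) =
            (a^D * (p:ℝ)^U)^(X+1) * (b^D * (q:ℝ)^V)^(Y+1) := by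
          rw [mul_pow, mul_pow]; ring
        rw [e]
        exact one_le_mul_of_one_le_of_one_le (one_le_pow₀ h1) (one_le_pow₀ h2)
      have hC0 : (0:ℝ) ≤ (((X + Y + 2).choose (Y+1) : ℝ))^D := by positivity
      have hT0 : (0:ℝ) ≤ ((p:ℝ)^U)^(X+1) * ((q:ℝ)^V)^(Y+1) := by positivity
      calc (((X + Y + 2).choose (Y+1) : ℝ))^D
          = (((X + Y + 2).choose (Y+1) : ℝ))^D * 1 := by ring
        _ ≤ (((X + Y + 2).choose (Y+1) : ℝ))^D * (((a^D)^(X+1) * (b^D)^(Y+1)) *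
            (((p:ℝ)^U)^(X+1) * ((q:ℝ)^V)^(Y+1))) := mul_le_mul_of_nonneg_left h10 hC0
        _ = ((((X + Y + 2).choose (Y+1) : ℝ))^D * ((a^D)^(X+1) * (b^D)^(Y+1))) *
            (((p:ℝ)^U)^(X+1) * ((q:ℝ)^V)^(Y+1)) := by ring
        _ ≤ 1 * (((p:ℝ)^U)^(X+1) * ((q:ℝ)^V)^(Y+1)) := mul_le_mul_of_nonneg_right h8 hT0
        _ = _ := one_mul _
    have hNr : (1:ℝ) ≤ N := by exact_mod_cast hN1
    calc ((m:ℝ) - #E)^D ≤ (((X + Y + 2).choose (Y+1) : ℝ))^D :=
          pow_le_pow_left₀ (by linarith) hRr D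
      _ ≤ ((p:ℝ)^U)^(X+1) * ((q:ℝ)^V)^(Y+1) := hD
      _ = (p:ℝ)^U * (q:ℝ)^V * (((p:ℝ)^X)^U * ((q:ℝ)^Y)^V) := by
          rw [pow_succ, pow_succ, ← pow_mul, ← pow_mul, ← pow_mul, ← pow_mul, mul_comm U X,
            mul_comm V Y]
          ring
      _ ≤ (p:ℝ)^U * (q:ℝ)^V * ((N:ℝ)^U * (N:ℝ)^V) := by
          have g1 : (p:ℝ)^X ≤ N := by exact_mod_cast hX2
          have g2 : (q:ℝ)^Y ≤ N := by exact_mod_cast hY2
          gcongr
      _ = (p:ℝ)^U * (q:ℝ)^V * (N:ℝ)^(U+V) := by rw [pow_add]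
      _ ≤ (p:ℝ)^U * (q:ℝ)^V * (N:ℝ)^(D-1) := by
          apply mul_le_mul_of_nonneg_left _ (by positivity)
          exact pow_le_pow_right₀ hNr (by omega)
  -- choose m large
  set c : ℝ := (p:ℝ)^U * (q:ℝ)^V * ((p:ℝ)*q)^(D-1) with hc
  obtain ⟨m, hm⟩ := exists_nat_gt (2^D * c + 2 * #E + 2)
  have hc0 : 0 ≤ c := by positivity
  have hE0 : (0:ℝ) ≤ #E := by positivity
  have hmpos : (0:ℝ) < m := by
    have : 0 ≤ 2^D * c := by positivity
    linarith
  have hm1 : 1 ≤ m := by exact_mod_cast hmpos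
  rcases key m hm1 with h3 | h3
  · have h4 : (m:ℝ)/2 ≤ m - #E := by
      have : 0 ≤ 2^D * c := by positivity
      linarith
    have h5 : ((m:ℝ)/2)^D ≤ ((m:ℝ) - #E)^D := pow_le_pow_left₀ (by positivity) h4 D
    have h6 : (p:ℝ)^U * (q:ℝ)^V * ((p*q*m : ℕ):ℝ)^(D-1) = c * (m:ℝ)^(D-1) := by
      push_cast
      rw [mul_pow ((p:ℝ)*q) (m:ℝ), hc]; ring
    rw [h6] at h3
    have h7 : ((m:ℝ)/2)^D = (m:ℝ) * (m:ℝ)^(D-1) / 2^D := by
      rw [div_pow]
      congr 1
      conv_lhs => rw [show D = (D - 1) + 1 by omega]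
      rw [pow_succ]; ring
    have h8 : (m:ℝ) * (m:ℝ)^(D-1) / 2^D ≤ c * (m:ℝ)^(D-1) := by linarith
    rw [div_le_iff₀ (by positivity)] at h8
    have h9 : (0:ℝ) < (m:ℝ)^(D-1) := by positivity
    have h10 : (m:ℝ) ≤ c * 2^D := by
      by_contra hcon
      push Not at hcon
      have := mul_lt_mul_of_pos_right hcon h9
      nlinarith
    linarith
  · have : 0 ≤ 2^D * c := by positivity
    linarith

end Pool.Agent.H9.Anti
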