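import Mathlib
import Pool.Agent.H9.AntiDefs
import Pool.Agent.H9.AntiCount

set_option autoImplicit false

open Finset

namespace Pool.Agent.H9.Anti

lemma rep_mod (p q n : ℕ) (h : Representable p q n) :
    n % q = 0 ∨ ∃ k, n % q = p^k % q := by
  classical
  obtain ⟨S, h1, h2, h3⟩ := h
  have hpow : ∀ s ∈ S, ¬ q ∣ s → ∃ k, s = p^k := by
    intro s hs hq
    obtain ⟨k, l, rfl⟩ := h1 s hs
    rcases Nat.eq_zero_or_pos l with hl | hl
    · exact ⟨k, by rw [hl, pow_zero, mul_one]⟩
    · exact absurd (dvd_mul_of_dvd_right (dvd_pow_self q (by omega)) _) hq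
  by_cases hex : ∃ s ∈ S, ¬ q ∣ s
  · right
    obtain ⟨s, hs, hqs⟩ := hex
    obtain ⟨k, hk⟩ := hpow s hs hqs
    refine ⟨k, ?_⟩
    have huniq : ∀ t ∈ S, t ≠ s → q ∣ t := by
      intro t ht hts
      by_contra hqt
      obtain ⟨k', hk'⟩ := hpow t ht hqt
      rcases le_total k k' with hkk | hkk
      · apply hts
        refine (h2 s hs t ht ?_).symm
        rw [hk, hk']; exact pow_dvd_pow _ hkk
      · apply hts
        refine h2 t ht s hs ?_
        rw [hk, hk']; exact pow_dvd_pow _ hkk
    rw [← h3, ← Finset.add_sum_erase S (fun s => s) hs]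
    have hd : q ∣ ∑ x ∈ S.erase s, x := by
      apply Finset.dvd_sum
      intro t ht
      exact huniq t (mem_of_mem_erase ht) (ne_of_mem_erase ht)
    obtain ⟨c, hc⟩ := hd
    show (s + ∑ x ∈ S.erase s, x) % q = _
    rw [hc, Nat.add_mul_mod_self_left, hk]
  · left
    push Not at hex
    rw [← h3]
    exact Nat.mod_eq_zero_of_dvd (Finset.dvd_sum hex)

lemma rep_symm (p q n : ℕ) (h : Representable p q n) : Representable q p n := by
  obtain ⟨S, h1, h2, h3⟩ := h
  refine ⟨S, fun s hs => ?_, h2, h3⟩
  obtain ⟨k, l, rfl⟩ := h1 s hs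
  exact ⟨l, k, mul_comm _ _⟩

lemma case72 : {n : ℕ | 0 < n ∧ Nat.Coprime n (7*2) ∧ ¬ Representable 7 2 n}.Infinite := by
  apply Set.infinite_of_injective_forall_mem (f := fun j : ℕ => 3 + 7*2*j)
  · intro i j hij
    have : 3 + 7*2*i = 3 + 7*2*j := hij
    omega
  · intro j
    refine ⟨by omega, ?_, ?_⟩
    · show Nat.Coprime (3 + 7*2*j) (7*2)
      rw [Nat.coprime_add_mul_left_left]; norm_num
    · intro h
      have hp : ∀ k, 2^k % 7 = 1 ∨ 2^k % 7 = 2 ∨ 2^k % 7 = 4 := by
        intro k
        induction k with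
        | zero => left; norm_num
        | succ k ih => rw [pow_succ]; omega
      rcases rep_mod 2 7 _ (rep_symm _ _ _ h) with h1 | ⟨k, h1⟩
      · omega
      · have := hp k
        omega

lemma case43 : {n : ℕ | 0 < n ∧ Nat.Coprime n (4*3) ∧ ¬ Representable 4 3 n}.Infinite := by
  apply Set.infinite_of_injective_forall_mem (f := fun j : ℕ => 5 + 4*3*j)
  · intro i j hij
    have : 5 + 4*3*i = 5 + 4*3*j := hij
    omega
  · intro j
    refine ⟨by omega, ?_, ?_⟩
    · show Nat.Coprime (5 + 4*3*j) (4*3)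
      rw [Nat.coprime_add_mul_left_left]; norm_num
    · intro h
      have hp : ∀ k, 4^k % 3 = 1 := by
        intro k
        induction k with
        | zero => norm_num
        | succ k ih => rw [pow_succ]; omega
      rcases rep_mod 4 3 _ h with h1 | ⟨k, h1⟩
      · omega
      · have := hp k
        omega

lemma pow_le_cast (a : ℝ) (ha : 0 < a) (D U p p0 : ℕ) (hp : p0 ≤ p) (h : 1 ≤ a^D * (p0:ℝ)^U) :
    1 ≤ a^D * (p:ℝ)^U := by
  refine h.trans ?_
  have : (p0:ℝ) ≤ p := by exact_mod_cast hp
  gcongr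

theorem main (p q : ℕ) (hq : 2 ≤ q) (hqp : q < p) (hco : Nat.Coprime p q)
    (h32 : (p, q) ≠ (3, 2)) (h52 : (p, q) ≠ (5, 2)) (h92 : (p, q) ≠ (9, 2)) (h53 : (p, q) ≠ (5, 3)) :
    {n : ℕ | 0 < n ∧ Nat.Coprime n (p*q) ∧ ¬ Representable p q n}.Infinite := by
  have hp2 : 2 ≤ p := by omega
  rcases Nat.lt_or_ge q 4 with hq4 | hq4
  · have hq' : q = 2 ∨ q = 3 := by omega
    rcases hq' with rfl | rfl
    · -- q = 2
      rcases Nat.lt_or_ge p 11 with hp | hp
      · have hodd : p % 2 = 1 := by
          rcases Nat.mod_two_eq_zero_or_one p with h | h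
          · exfalso
            have h2 : 2 ∣ p := Nat.dvd_of_mod_eq_zero h
            have := Nat.Coprime.eq_one_of_dvd (Nat.Coprime.symm hco) h2
            omega
          · exact h
        have : p = 3 ∨ p = 5 ∨ p = 7 ∨ p = 9 := by omega
        rcases this with rfl | rfl | rfl | rfl
        · exact absurd rfl h32
        · exact absurd rfl h52
        · exact case72
        · exact absurd rfl h92
      · refine inf_of_bound p 2 hp2 le_rfl (2262/10000) (7738/10000) (by norm_num) (by norm_num)
          (by norm_num) 100 62 37 (by norm_num) ?_ ?_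
        · apply pow_le_cast _ (by norm_num) _ _ p 11 hp
          norm_num
        · norm_num
    · -- q = 3
      rcases Nat.lt_or_ge p 7 with hp | hp
      · have h6 : p ≠ 6 := by
          rintro rfl
          revert hco; decide
        have : p = 4 ∨ p = 5 := by omega
        rcases this with rfl | rfl
        · exact case43
        · exact absurd rfl h53
      · refine inf_of_bound p 3 hp2 (by norm_num) (35/100) (65/100) (by norm_num) (by norm_num)
          (by norm_num) 20 11 8 (by norm_num) ?_ ?_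
        · apply pow_le_cast _ (by norm_num) _ _ p 7 hp
          norm_num
        · norm_num
  · refine inf_of_bound p q hp2 hq (455/1000) (545/1000) (by norm_num) (by norm_num)
      (by norm_num) 20 10 9 (by norm_num) ?_ ?_
    · apply pow_le_cast _ (by norm_num) _ _ p 5 (by omega)
      norm_num
    · apply pow_le_cast _ (by norm_num) _ _ q 4 hq4
      norm_num

end Pool.Agent.H9.Anti
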