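import Mathlib

/-! Definitions for MP_16a663_co: distinct distances and distinct perpendicular bisectors. -/

namespace Bisec

/-- The Euclidean plane. -/
abbrev Plane : Type := EuclideanSpace ℝ (Fin 2)

/-- The perpendicular bisector of the pair `{a, b}`: the set of points equidistant from `a`
and `b` (a line when `a ≠ b`). -/
def bisector (a b : Plane) : Set Plane := {x | dist x a = dist x b}

/-- `P` has distinct bisectors: no two different unordered pairs of (distinct) points of `P`
have the same perpendicular bisector. -/
def DistinctBisectors (P : Finset Plane) : Prop :=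
  ∀ a ∈ P, ∀ b ∈ P, ∀ c ∈ P, ∀ d ∈ P, a ≠ b → c ≠ d →
    bisector a b = bisector c d → ({a, b} : Set Plane) = {c, d}

/-- The number `D(P)` of distinct distances determined by the finite set `P`. -/
noncomputable def numDist (P : Finset Plane) : ℕ :=
  {r : ℝ | ∃ a ∈ P, ∃ b ∈ P, a ≠ b ∧ r = dist a b}.ncard

end Bisec
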