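import Mathlib
import Pool.Agent.H9.BisecDefs

namespace Bisec

open MvPolynomial

variable {d : ℕ}

/-- linear form -/
noncomputable def LF (e : Fin d → Fin d ⊕ Fin d) (u : Fin d → ℝ) :
    MvPolynomial (Fin d ⊕ Fin d) ℝ := ∑ i, C (u i) * X (e i)

theorem eval_LF (x : Fin d ⊕ Fin d → ℝ) (e : Fin d → Fin d ⊕ Fin d) (u : Fin d → ℝ) :
    eval x (LF e u) = ∑ i, u i * x (e i) := by
  simp [LF]

noncomputable def Dpol (u v : Fin d → ℝ) : MvPolynomial (Fin d ⊕ Fin d) ℝ :=
  LF Sum.inl u * LF Sum.inr v - LF Sum.inl v * LF Sum.inr u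

noncomputable def Qpol (u v : Fin d → ℝ) : MvPolynomial (Fin d ⊕ Fin d) ℝ :=
  LF Sum.inl u * LF Sum.inl v + LF Sum.inr u * LF Sum.inr v

theorem Dpol_ne {u v : Fin d → ℝ} {i j : Fin d} (h : u i * v j ≠ v i * u j) :
    Dpol u v ≠ 0 := by
  classical
  intro h0
  have := congrArg (eval (Sum.elim (Pi.single i (1:ℝ)) (Pi.single j (1:ℝ)))) h0
  simp only [Dpol, map_sub, map_mul, eval_LF, Sum.elim_inl, Sum.elim_inr, map_zero] at this
  simp only [Pi.single_apply, mul_ite, mul_one, mul_zero, Finset.sum_ite_eq', Finset.mem_univ,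
    if_true] at this
  exact h (by linarith)

theorem Qpol_ne {u v : Fin d → ℝ} (hu : u ≠ 0) (hv : v ≠ 0) : Qpol u v ≠ 0 := by
  classical
  intro h0
  obtain ⟨i, hi⟩ := Function.ne_iff.mp hu
  obtain ⟨j, hj⟩ := Function.ne_iff.mp hv
  simp only [Pi.zero_apply] at hi hj
  have key : ∀ α : Fin d → ℝ, (∑ l, u l * α l) * (∑ l, v l * α l) = 0 := by
    intro α
    have := congrArg (eval (Sum.elim α (0 : Fin d → ℝ))) h0
    simpa [Qpol, eval_LF] using this
  have k1 := key (Pi.single i 1)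
  have k2 := key (Pi.single j 1)
  have k3 := key (Pi.single i 1 + Pi.single j 1)
  simp only [Pi.add_apply, mul_add, Finset.sum_add_distrib] at k3
  simp only [Pi.single_apply, mul_ite, mul_one, mul_zero, Finset.sum_ite_eq', Finset.mem_univ,
    if_true] at k1 k2 k3
  have hvi : v i = 0 := by
    rcases mul_eq_zero.mp k1 with h | h
    · exact absurd h hi
    · exact h
  have huj : u j = 0 := by
    rcases mul_eq_zero.mp k2 with h | h
    · exact h
    · exact absurd h hj
  have k4 : u i * v j = 0 := by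
    rw [hvi, huj] at k3
    linarith
  rcases mul_eq_zero.mp k4 with h | h
  · exact hi h
  · exact hj h

/-- A generic pair of linear forms for a finite set of vectors. -/
theorem exists_generic (V : Finset (Fin d → ℝ)) :
    ∃ α β : Fin d → ℝ,
      (∀ u ∈ V, ∀ v ∈ V,
        (∑ i, u i * α i) * (∑ i, v i * β i) = (∑ i, v i * α i) * (∑ i, u i * β i) →
        ∀ i j, u i * v j = v i * u j) ∧
      (∀ u ∈ V, ∀ v ∈ V,
        (∑ i, u i * α i) * (∑ i, v i * α i) + (∑ i, u i * β i) * (∑ i, v i * β i) = 0 →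
        u = 0 ∨ v = 0) := by
  classical
  set F : MvPolynomial (Fin d ⊕ Fin d) ℝ :=
    (∏ p ∈ (V ×ˢ V).filter (fun p => ¬ ∀ i j, p.1 i * p.2 j = p.2 i * p.1 j), Dpol p.1 p.2) *
    (∏ p ∈ (V ×ˢ V).filter (fun p => ¬ (p.1 = 0 ∨ p.2 = 0)), Qpol p.1 p.2) with hF
  have hne : F ≠ 0 := by
    apply mul_ne_zero
    · rw [Finset.prod_ne_zero_iff]
      intro p hp
      rw [Finset.mem_filter] at hp
      obtain ⟨_, hp⟩ := hp
      push Not at hp
      obtain ⟨i, j, hij⟩ := hp
      exact Dpol_ne hij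
    · rw [Finset.prod_ne_zero_iff]
      intro p hp
      rw [Finset.mem_filter] at hp
      obtain ⟨_, hp⟩ := hp
      push Not at hp
      exact Qpol_ne hp.1 hp.2
  obtain ⟨x, hx⟩ : ∃ x, eval x F ≠ 0 := by
    by_contra hcon
    push Not at hcon
    apply hne
    apply MvPolynomial.funext
    intro x
    rw [hcon x, map_zero]
  refine ⟨fun i => x (Sum.inl i), fun i => x (Sum.inr i), ?_, ?_⟩
  · intro u hu v hv huv
    by_contra hcon
    rw [hF, map_mul, map_prod, map_prod] at hx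
    have h1 := left_ne_zero_of_mul hx
    rw [Finset.prod_ne_zero_iff] at h1
    have h2 := h1 (u, v) (by
      rw [Finset.mem_filter]
      exact ⟨Finset.mk_mem_product hu hv, hcon⟩)
    apply h2
    simp only [Dpol, map_sub, map_mul, eval_LF]
    linarith
  · intro u hu v hv huv
    by_contra hcon
    rw [hF, map_mul, map_prod, map_prod] at hx
    have h1 := right_ne_zero_of_mul hx
    rw [Finset.prod_ne_zero_iff] at h1
    have h2 := h1 (u, v) (by
      rw [Finset.mem_filter]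
      exact ⟨Finset.mk_mem_product hu hv, hcon⟩)
    apply h2
    simp only [Qpol, map_add, map_mul, eval_LF]
    linarith

/-- equality of bisectors in coordinates -/
theorem bisector_eq {p q r s : Plane} (h : bisector p q = bisector r s) :
    (q 0 - p 0) * (s 1 - r 1) = (s 0 - r 0) * (q 1 - p 1) ∧
    (p 0 + q 0 - r 0 - s 0) * (s 0 - r 0) + (p 1 + q 1 - r 1 - s 1) * (s 1 - r 1) = 0 := by
  have hmem : ∀ (x a b : Plane), x ∈ bisector a b ↔
      (x 0 - a 0)^2 + (x 1 - a 1)^2 = (x 0 - b 0)^2 + (x 1 - b 1)^2 := by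
    intro x a b
    unfold bisector
    rw [Set.mem_ofPred_eq, EuclideanSpace.dist_eq, EuclideanSpace.dist_eq, Real.sqrt_inj
      (by positivity) (by positivity)]
    simp [Fin.sum_univ_two, Real.dist_eq, sq_abs]
  set m : Plane := !₂[(p 0 + q 0)/2, (p 1 + q 1)/2] with hm
  set m' : Plane := !₂[(p 0 + q 0)/2 - (q 1 - p 1), (p 1 + q 1)/2 + (q 0 - p 0)] with hm'
  have m0 : m 0 = (p 0 + q 0)/2 := by simp [hm]
  have m1 : m 1 = (p 1 + q 1)/2 := by simp [hm]
  have m'0 : m' 0 = (p 0 + q 0)/2 - (q 1 - p 1) := by simp [hm']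
  have m'1 : m' 1 = (p 1 + q 1)/2 + (q 0 - p 0) := by simp [hm']
  have h1 : m ∈ bisector p q := by
    rw [hmem, m0, m1]; ring
  have h2 : m' ∈ bisector p q := by
    rw [hmem, m'0, m'1]; ring
  rw [h, hmem, m0, m1] at h1
  rw [h, hmem, m'0, m'1] at h2
  constructor
  · nlinarith
  · nlinarith

/-- Two chords of a sphere with the same midpoint and the same direction coincide. -/
theorem chord_eq {a b c e : Fin d → ℝ} {m : ℝ}
    (ha : ∑ i, a i ^ 2 = m) (hb : ∑ i, b i ^ 2 = m) (hc : ∑ i, c i ^ 2 = m)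
    (he : ∑ i, e i ^ 2 = m) (hce : c ≠ e)
    (hmid : ∀ i, a i + b i - c i - e i = 0)
    (hpar : ∀ i j, (b i - a i) * (e j - c j) = (e i - c i) * (b j - a j)) :
    (a = c ∧ b = e) ∨ (a = e ∧ b = c) := by
  obtain ⟨j, hj⟩ := Function.ne_iff.mp hce
  have hj' : e j - c j ≠ 0 := sub_ne_zero.mpr (Ne.symm hj)
  set t : ℝ := (b j - a j) / (e j - c j) with ht
  have hba : ∀ i, b i - a i = t * (e i - c i) := by
    intro i
    have := hpar i j
    rw [ht]
    field_simp
    linarith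
  have hb' : ∀ i, b i = (c i + e i)/2 + t/2 * (e i - c i) := by
    intro i
    have h1 := hba i
    have h2 := hmid i
    linarith
  have ha' : ∀ i, a i = (c i + e i)/2 - t/2 * (e i - c i) := by
    intro i
    have h1 := hba i
    have h2 := hmid i
    linarith
  -- sums
  have s1 : ∑ i, (a i ^ 2 + b i ^ 2 - c i ^ 2 - e i ^ 2) = 0 := by
    rw [Finset.sum_sub_distrib, Finset.sum_sub_distrib, Finset.sum_add_distrib, ha, hb, hc, he]
    ring
  have s2 : ∑ i, (a i ^ 2 + b i ^ 2 - c i ^ 2 - e i ^ 2) =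
      ((t^2 - 1)/2) * ∑ i, (e i - c i)^2 := by
    rw [Finset.mul_sum]
    apply Finset.sum_congr rfl
    intro i _
    rw [ha' i, hb' i]
    ring
  rw [s2] at s1
  have s3 : 0 < ∑ i, (e i - c i)^2 := by
    apply Finset.sum_pos'
    · intro i _; positivity
    · exact ⟨j, Finset.mem_univ j, by positivity⟩
  have ht2 : t^2 = 1 := by
    rcases mul_eq_zero.mp s1 with h | h
    · linarith
    · exact absurd h s3.ne'
  have ht3 : t = 1 ∨ t = -1 := by
    have : (t - 1) * (t + 1) = 0 := by linarith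
    rcases mul_eq_zero.mp this with h | h
    · left; linarith
    · right; linarith
  rcases ht3 with h | h
  · left
    constructor
    · funext i; rw [ha' i, h]; ring
    · funext i; rw [hb' i, h]; ring
  · right
    constructor
    · funext i; rw [ha' i, h]; ring
    · funext i; rw [hb' i, h]; ring

/-- the plane point attached to a vector -/
noncomputable def proj (α β : Fin d → ℝ) (x : Fin d → ℝ) : Plane :=
  !₂[∑ i, x i * α i, ∑ i, x i * β i]

theorem proj_zero' (α β x : Fin d → ℝ) : proj α β x 0 = ∑ i, x i * α i := by simp [proj]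
theorem proj_one' (α β x : Fin d → ℝ) : proj α β x 1 = ∑ i, x i * β i := by simp [proj]

theorem dist_proj (α β x y : Fin d → ℝ) :
    dist (proj α β x) (proj α β y) =
      Real.sqrt ((∑ i, (x i - y i) * α i)^2 + (∑ i, (x i - y i) * β i)^2) := by
  rw [EuclideanSpace.dist_eq]
  congr 1
  rw [Fin.sum_univ_two, proj_zero', proj_zero', proj_one', proj_one', Real.dist_eq,
    Real.dist_eq, sq_abs, sq_abs]
  simp only [sub_mul, Finset.sum_sub_distrib]

/-- Main construction: a set `S` of vectors on a sphere can be projected. -/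
theorem exists_proj (S : Finset (Fin d → ℝ)) (m : ℝ) (hS : ∀ a ∈ S, ∑ i, a i ^ 2 = m) :
    ∃ P : Finset Plane, P.card = S.card ∧ DistinctBisectors P ∧
      ∀ W : Finset (Fin d → ℝ), (∀ a ∈ S, ∀ b ∈ S, a - b ∈ W) → numDist P ≤ W.card := by
  classical
  set V : Finset (Fin d → ℝ) :=
    ((S ×ˢ S).image (fun p => p.2 - p.1)) ∪
    (((S ×ˢ S) ×ˢ (S ×ˢ S)).image (fun p => p.1.1 + p.1.2 - p.2.1 - p.2.2)) with hV
  obtain ⟨α, β, h1, h2⟩ := exists_generic V
  have hsub : ∀ a ∈ S, ∀ b ∈ S, b - a ∈ V := by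
    intro a ha b hb
    rw [hV, Finset.mem_union]
    left
    rw [Finset.mem_image]
    exact ⟨(a, b), Finset.mk_mem_product ha hb, rfl⟩
  have hsub2 : ∀ a ∈ S, ∀ b ∈ S, ∀ c ∈ S, ∀ e ∈ S, a + b - c - e ∈ V := by
    intro a ha b hb c hc e he
    rw [hV, Finset.mem_union]
    right
    rw [Finset.mem_image]
    exact ⟨((a, b), (c, e)), Finset.mk_mem_product (Finset.mk_mem_product ha hb)
      (Finset.mk_mem_product hc he), rfl⟩
  have hinj : Set.InjOn (proj α β) (S : Set (Fin d → ℝ)) := by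
    intro a ha b hb hab
    have e0 := congrArg (fun p : Plane => p 0) hab
    have e1 := congrArg (fun p : Plane => p 1) hab
    simp only [proj_zero', proj_one'] at e0 e1
    have := h2 (b - a) (hsub a ha b hb) (b - a) (hsub a ha b hb) (by
      simp only [Pi.sub_apply, sub_mul, Finset.sum_sub_distrib, e0, e1]
      ring)
    rw [or_self, sub_eq_zero] at this
    exact this.symm
  refine ⟨S.image (proj α β), Finset.card_image_of_injOn hinj, ?_, ?_⟩
  · intro p hp q hq r hr s hs hpq hrs hbis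
    rw [Finset.mem_image] at hp hq hr hs
    obtain ⟨a, ha, rfl⟩ := hp
    obtain ⟨b, hb, rfl⟩ := hq
    obtain ⟨c, hc, rfl⟩ := hr
    obtain ⟨e, he, rfl⟩ := hs
    obtain ⟨k1, k2⟩ := bisector_eq hbis
    simp only [proj_zero', proj_one'] at k1 k2
    have hce : c ≠ e := fun h => hrs (by rw [h])
    have hpar := h1 (b - a) (hsub a ha b hb) (e - c) (hsub c hc e he) (by
      simp only [Pi.sub_apply, sub_mul, Finset.sum_sub_distrib]
      linarith)
    have hperp := h2 (a + b - c - e) (hsub2 a ha b hb c hc e he) (e - c) (hsub c hc e he) (by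
      simp only [Pi.sub_apply, Pi.add_apply, sub_mul, add_mul, Finset.sum_sub_distrib,
        Finset.sum_add_distrib]
      linarith)
    have hmid : a + b - c - e = 0 := by
      rcases hperp with h | h
      · exact h
      · exact absurd (sub_eq_zero.mp h).symm hce
    rcases chord_eq (hS a ha) (hS b hb) (hS c hc) (hS e he) hce
      (fun i => by simpa using congrFun hmid i) (fun i j => by simpa using hpar i j) with h | h
    · rw [h.1, h.2]
    · rw [h.1, h.2, Set.pair_comm]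
  · intro W hW
    unfold numDist
    have hsubset : {r : ℝ | ∃ a ∈ S.image (proj α β), ∃ b ∈ S.image (proj α β), a ≠ b ∧
        r = dist a b} ⊆ ((W.image (fun w : Fin d → ℝ => Real.sqrt ((∑ i, w i * α i)^2 +
          (∑ i, w i * β i)^2)) : Finset ℝ) : Set ℝ) := by
      rintro r ⟨p, hp, q, hq, _, rfl⟩
      rw [Finset.mem_image] at hp hq
      obtain ⟨a, ha, rfl⟩ := hp
      obtain ⟨b, hb, rfl⟩ := hq
      rw [Finset.mem_coe, Finset.mem_image]
      refine ⟨a - b, hW a ha b hb, ?_⟩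
      rw [dist_proj]
      simp only [Pi.sub_apply]
    calc _ ≤ ((W.image (fun w : Fin d → ℝ => Real.sqrt ((∑ i, w i * α i)^2 +
          (∑ i, w i * β i)^2)) : Finset ℝ) : Set ℝ).ncard :=
          Set.ncard_le_ncard hsubset (Finset.finite_toSet _)
      _ = (W.image _).card := Set.ncard_coe_finset _
      _ ≤ W.card := Finset.card_image_le

/-- Pigeonhole: many lattice points on a sphere. -/
theorem exists_sphere (d k : ℕ) (hd : 1 ≤ d) (hk : 1 ≤ k) :
    ∃ (S : Finset (Fin d → ℝ)) (m : ℝ), (∀ a ∈ S, ∑ i, a i ^ 2 = m) ∧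
      (k : ℝ)^d ≤ (d * k^2 : ℝ) * S.card ∧
      ∃ W : Finset (Fin d → ℝ), (∀ a ∈ S, ∀ b ∈ S, a - b ∈ W) ∧ (W.card : ℝ) ≤ (3 * k : ℝ)^d := by
  classical
  set B : Finset (Fin d → ℕ) := Fintype.piFinset (fun _ => Finset.range k) with hB
  have hBc : B.card = k^d := by
    rw [hB, Fintype.card_piFinset]
    simp
  set T : Finset ℕ := Finset.range (d * k^2) with hT
  have hmaps : ∀ x ∈ B, (∑ i, x i ^ 2) ∈ T := by
    intro x hx
    rw [hB, Fintype.mem_piFinset] at hx
    rw [hT, Finset.mem_range]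
    have : ∑ i, x i ^ 2 < ∑ _i : Fin d, k^2 := by
      have : Nonempty (Fin d) := ⟨⟨0, hd⟩⟩
      apply Finset.sum_lt_sum_of_nonempty Finset.univ_nonempty
      intro i _
      have := Finset.mem_range.mp (hx i)
      exact Nat.pow_lt_pow_left this (by norm_num)
    simpa using this
  have hTne : T.Nonempty := by
    rw [hT]
    exact Finset.nonempty_range_iff.mpr (by positivity)
  have hTpos : (0:ℝ) < T.card := by exact_mod_cast hTne.card_pos
  obtain ⟨m, hm, hcard⟩ := Finset.exists_le_card_fiber_of_nsmul_le_card_of_maps_to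
    (s := B) (t := T) (f := fun x => ∑ i, x i ^ 2) (b := (B.card : ℝ) / T.card) hmaps hTne (by
      rw [nsmul_eq_mul, mul_div_cancel₀ _ hTpos.ne'])
  set S0 : Finset (Fin d → ℕ) := B.filter (fun x => ∑ i, x i ^ 2 = m) with hS0
  have hcast : Function.Injective (fun (x : Fin d → ℕ) (i : Fin d) => (x i : ℝ)) := by
    intro x y hxy
    funext i
    have h := congrFun hxy i
    simp only at h
    exact_mod_cast h
  refine ⟨S0.image (fun x i => (x i : ℝ)), m, ?_, ?_, ?_⟩
  · intro a ha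
    rw [Finset.mem_image] at ha
    obtain ⟨x, hx, rfl⟩ := ha
    rw [hS0, Finset.mem_filter] at hx
    rw [← hx.2]
    push_cast
    rfl
  · rw [Finset.card_image_of_injective _ hcast]
    have hTc : (T.card : ℝ) = d * k^2 := by rw [hT, Finset.card_range]; push_cast; ring
    rw [hBc, hTc] at hcard
    rw [div_le_iff₀ (by positivity)] at hcard
    push_cast at hcard
    linarith
  · refine ⟨(Fintype.piFinset (fun _ : Fin d => Finset.Icc (-(k:ℤ)) k)).image
      (fun x i => (x i : ℝ)), ?_, ?_⟩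
    · intro a ha b hb
      rw [Finset.mem_image] at ha hb
      obtain ⟨x, hx, rfl⟩ := ha
      obtain ⟨y, hy, rfl⟩ := hb
      rw [hS0, Finset.mem_filter, hB, Fintype.mem_piFinset] at hx hy
      rw [Finset.mem_image]
      refine ⟨fun i => (x i : ℤ) - y i, ?_, ?_⟩
      · rw [Fintype.mem_piFinset]
        intro i
        have h1 := Finset.mem_range.mp (hx.1 i)
        have h2 := Finset.mem_range.mp (hy.1 i)
        rw [Finset.mem_Icc]
        constructor <;> omega
      · funext i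
        simp
    · have h1 : ((Fintype.piFinset (fun _ : Fin d => Finset.Icc (-(k:ℤ)) k)).image
        (fun (x : Fin d → ℤ) (i : Fin d) => (x i : ℝ))).card ≤ (2 * k + 1)^d := by
        refine Finset.card_image_le.trans ?_
        rw [Fintype.card_piFinset]
        simp only [Int.card_Icc, Finset.prod_const, Finset.card_univ, Fintype.card_fin]
        apply Nat.pow_le_pow_left
        omega
      calc (_ : ℝ) ≤ ((2 * k + 1)^d : ℕ) := by exact_mod_cast h1
        _ = (2 * k + 1 : ℝ)^d := by push_cast; ring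
        _ ≤ (3 * k : ℝ)^d := by
            apply pow_le_pow_left₀ (by positivity)
            have : (1:ℝ) ≤ k := by exact_mod_cast hk
            linarith

/-- Final estimate. -/
theorem main (δ : ℝ) (hδ : 0 < δ) (N : ℕ) :
    ∃ P : Finset Plane, N ≤ P.card ∧ DistinctBisectors P ∧
      (numDist P : ℝ) ≤ (P.card : ℝ)^(1+δ) := by
  obtain ⟨q, hq⟩ := exists_nat_ge (3/δ)
  set d : ℕ := q + 3 with hd
  have hqd : 3 ≤ (q + 1 : ℝ) * δ := by
    have h1 : 3 ≤ (q:ℝ) * δ := by
      rwa [div_le_iff₀ hδ] at hq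
    nlinarith
  obtain ⟨k, hk⟩ := exists_nat_ge (max (1:ℝ) (max ((3:ℝ)^d * (d:ℝ)^(1+δ)) (N * d)))
  have hk1 : (1:ℝ) ≤ k := le_trans (le_max_left _ _) hk
  have hk2 : (3:ℝ)^d * (d:ℝ)^(1+δ) ≤ k :=
    le_trans (le_trans (le_max_left _ _) (le_max_right _ _)) hk
  have hk3 : (N * d : ℝ) ≤ k :=
    le_trans (le_trans (le_max_right _ _) (le_max_right _ _)) hk
  have hk0 : (0:ℝ) < k := by linarith
  have hd0 : (0:ℝ) < d := by rw [hd]; positivity
  obtain ⟨S, m, hS, hcard, W, hW, hWc⟩ := exists_sphere d k (by omega) (by exact_mod_cast hk1)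
  obtain ⟨P, hPc, hPb, hPD⟩ := exists_proj S m hS
  -- card bound: k^(q+1) ≤ d * card
  have hlow : (k:ℝ)^(q+1) ≤ d * P.card := by
    rw [hPc]
    have e : (k:ℝ)^d = (k:ℝ)^(q+1) * k^2 := by rw [hd]; ring
    rw [e] at hcard
    have h2 : (0:ℝ) < (k:ℝ)^2 := by positivity
    have : (k:ℝ)^(q+1) * k^2 ≤ (d * S.card) * k^2 := by linarith
    exact le_of_mul_le_mul_right this h2
  refine ⟨P, ?_, hPb, ?_⟩
  · have h1 : (k:ℝ) ≤ (k:ℝ)^(q+1) := le_self_pow₀ hk1 (by omega)
    have h2 : (d:ℝ) * N ≤ d * P.card := by linarith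
    have h3 : (N:ℝ) ≤ P.card := le_of_mul_le_mul_left h2 hd0
    exact_mod_cast h3
  · have h1 : (numDist P : ℝ) ≤ (3 * k : ℝ)^d := by
      refine le_trans ?_ hWc
      exact_mod_cast hPD W hW
    refine h1.trans ?_
    have h2 : ((k:ℝ)^(q+1) / d) ≤ P.card := by
      rw [div_le_iff₀ hd0]
      linarith
    have h3 : ((k:ℝ)^(q+1) / d)^(1+δ) ≤ (P.card:ℝ)^(1+δ) :=
      Real.rpow_le_rpow (by positivity) h2 (by linarith)
    refine le_trans ?_ h3
    rw [Real.div_rpow (by positivity) hd0.le, le_div_iff₀ (Real.rpow_pos_of_pos hd0 _),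
      ← Real.rpow_natCast (k:ℝ) (q+1), ← Real.rpow_mul hk0.le]
    have h4 : (k:ℝ)^((d:ℝ)+1) ≤ (k:ℝ)^(((q+1:ℕ):ℝ) * (1+δ)) := by
      apply Real.rpow_le_rpow_of_exponent_le hk1
      rw [hd]
      push_cast
      nlinarith
    refine le_trans ?_ h4
    rw [Real.rpow_add hk0, Real.rpow_one, Real.rpow_natCast, mul_pow]
    have h5 : (0:ℝ) < (k:ℝ)^d := by positivity
    calc (3:ℝ)^d * (k:ℝ)^d * (d:ℝ)^(1+δ) = (k:ℝ)^d * ((3:ℝ)^d * (d:ℝ)^(1+δ)) := by ring
      _ ≤ (k:ℝ)^d * k := by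
          apply mul_le_mul_of_nonneg_left hk2 h5.le

theorem main2 : ¬ (∀ ε : ℝ, 0 < ε → ∃ c : ℝ, 0 < c ∧ ∀ P : Finset Plane, 2 ≤ P.card →
    DistinctBisectors P → c * (P.card : ℝ)^(2-ε) ≤ numDist P) := by
  intro h
  obtain ⟨c, hc, hP⟩ := h (1/2) (by norm_num)
  obtain ⟨M, hM⟩ := exists_nat_gt ((1/c)^4)
  obtain ⟨P, hN, hB, hD⟩ := main (1/4) (by norm_num) (max 2 M)
  have h1 := hP P (le_trans (le_max_left _ _) hN) hB
  have h2 : c * (P.card : ℝ)^(2-1/2:ℝ) ≤ (P.card : ℝ)^(1+1/4:ℝ) := h1.trans hD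
  have hn2 : (2:ℝ) ≤ P.card := by exact_mod_cast le_trans (le_max_left _ _) hN
  have hnM : (M:ℝ) ≤ P.card := by exact_mod_cast le_trans (le_max_right _ _) hN
  have hn0 : (0:ℝ) < P.card := by linarith
  have e : (P.card : ℝ)^(2-1/2:ℝ) = (P.card : ℝ)^(1+1/4:ℝ) * (P.card : ℝ)^(1/4:ℝ) := by
    rw [← Real.rpow_add hn0]
    norm_num
  rw [e] at h2
  have h3 : (0:ℝ) < (P.card : ℝ)^(1+1/4:ℝ) := Real.rpow_pos_of_pos hn0 _
  have h4 : c * (P.card : ℝ)^(1/4:ℝ) ≤ 1 := by
    have : (P.card : ℝ)^(1+1/4:ℝ) * (c * (P.card : ℝ)^(1/4:ℝ)) ≤ (P.card : ℝ)^(1+1/4:ℝ) * 1 := by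
      linarith
    exact le_of_mul_le_mul_left this h3
  have h5 : (1/c) < (P.card : ℝ)^(1/4:ℝ) := by
    have h6 : (1/c)^4 < (P.card:ℝ) := lt_of_lt_of_le hM hnM
    have h7 : ((1/c)^4)^(1/4:ℝ) < (P.card:ℝ)^(1/4:ℝ) :=
      Real.rpow_lt_rpow (by positivity) h6 (by norm_num)
    have h8 : ((1/c)^4)^(1/4:ℝ) = 1/c := by
      rw [← Real.rpow_natCast, ← Real.rpow_mul (by positivity)]
      norm_num
    rwa [h8] at h7
  rw [div_lt_iff₀ hc] at h5
  linarith

end Bisec
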