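import Mathlib

set_option autoImplicit false

open MeasureTheory Set
open scoped RealInnerProductSpace Pointwise ENNReal

namespace Pool.Agent.H9.Blaschke

/-- Euclidean space `𝔼ⁿ` -/
abbrev E (n : ℕ) := EuclideanSpace ℝ (Fin n)

/-- a convex body: a compact convex set with nonempty interior -/
structure IsConvexBody {n : ℕ} (K : Set (E n)) : Prop where
  convex : Convex ℝ K
  compact : IsCompact K
  interior_nonempty : (interior K).Nonempty

/-- The surface area measure `S(K, ω)`: the `(n-1)`-dimensional Hausdorff measure of the set of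
boundary points of `K` at which some `u ∈ ω` is an outer unit normal vector of `K`. -/
noncomputable def surfaceArea {n : ℕ} (K ω : Set (E n)) : ℝ≥0∞ :=
  μH[(n : ℝ) - 1] {x ∈ frontier K | ∃ u ∈ ω, ‖u‖ = 1 ∧ ∀ y ∈ K, ⟪u, y⟫ ≤ ⟪u, x⟫}

/-- the central symmetral `△K = ½(K + (-K))` -/
def centralSymmetral {n : ℕ} (K : Set (E n)) : Set (E n) := (1/2 : ℝ) • (K + (-K))

/-- `N` is the Blaschke body `∇K` of `K`: an origin-symmetric convex body with surface area
measure `½(S(K,·) + S(-K,·))` on the Borel subsets of the unit sphere. -/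
structure IsBlaschkeBody {n : ℕ} (K N : Set (E n)) : Prop where
  body : IsConvexBody N
  symm : -N = N
  area : ∀ ω ⊆ Metric.sphere (0 : E n) 1, MeasurableSet ω →
    surfaceArea N ω = (surfaceArea K ω + surfaceArea (-K) ω) / 2

/-- `L = λ M + x` for some `λ > 0` and some `x` -/
def Homothetic {n : ℕ} (L M : Set (E n)) : Prop :=
  ∃ c : ℝ, 0 < c ∧ ∃ x : E n, L = (fun y => c • y + x) '' M

/-- some translate of `K` equals its reflection in the origin -/
def CentrallySymmetric {n : ℕ} (K : Set (E n)) : Prop := ∃ x : E n, (fun y => y + x) '' K = -K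

end Pool.Agent.H9.Blaschke
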