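import Mathlib
import Pool.Agent.H9.BlaschkeDefs

set_option autoImplicit false

open MeasureTheory Set
open scoped RealInnerProductSpace Pointwise ENNReal NNReal

namespace Pool.Agent.H9.Blaschke

variable {ι : Type} [Fintype ι]

/-- polytope -/
def poly (a : ι → E 4) (b : ι → ℝ) : Set (E 4) := {x | ∀ i, ⟪a i, x⟫ ≤ b i}

/-- facet -/
def facet (a : ι → E 4) (b : ι → ℝ) (i : ι) : Set (E 4) := {x ∈ poly a b | ⟪a i, x⟫ = b i}

lemma poly_closed (a : ι → E 4) (b : ι → ℝ) : IsClosed (poly a b) := by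
  have : poly a b = ⋂ i, {x | ⟪a i, x⟫ ≤ b i} := by
    ext x; simp [poly]
  rw [this]
  exact isClosed_iInter (fun i => isClosed_le (by fun_prop) (by fun_prop))

lemma facet_closed (a : ι → E 4) (b : ι → ℝ) (i : ι) : IsClosed (facet a b i) := by
  have : facet a b i = poly a b ∩ {x | ⟪a i, x⟫ = b i} := rfl
  rw [this]
  exact (poly_closed a b).inter (isClosed_eq (by fun_prop) (by fun_prop))

lemma poly_convex (a : ι → E 4) (b : ι → ℝ) : Convex ℝ (poly a b) := by
  have : poly a b = ⋂ i, {x | ⟪a i, x⟫ ≤ b i} := by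
    ext x; simp [poly]
  rw [this]
  refine convex_iInter (fun i => ?_)
  exact convex_halfSpace_le (IsLinearMap.mk (fun x y => inner_add_right _ _ _)
    (fun c x => by rw [inner_smul_right]; rfl)) _

lemma strict_open (a : ι → E 4) (b : ι → ℝ) : IsOpen {x | ∀ i, ⟪a i, x⟫ < b i} := by
  have : {x | ∀ i, ⟪a i, x⟫ < b i} = ⋂ i, {x | ⟪a i, x⟫ < b i} := by
    ext x; simp
  rw [this]
  exact isOpen_iInter_of_finite (fun i => isOpen_lt (by fun_prop) (by fun_prop))

lemma strict_interior (a : ι → E 4) (b : ι → ℝ) (x : E 4) (hx : ∀ i, ⟪a i, x⟫ < b i) :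
    x ∈ interior (poly a b) := by
  rw [mem_interior]
  exact ⟨_, fun y hy i => (hy i).le, strict_open a b, hx⟩

lemma mem_frontier_iff (a : ι → E 4) (b : ι → ℝ) (ha : ∀ i, ‖a i‖ = 1) (x : E 4) :
    x ∈ frontier (poly a b) ↔ ∃ i, x ∈ facet a b i := by
  rw [(poly_closed a b).frontier_eq]
  constructor
  · rintro ⟨h1, h2⟩
    by_contra hcon
    push Not at hcon
    apply h2
    apply strict_interior
    intro i
    refine lt_of_le_of_ne (h1 i) (fun h => hcon i ⟨h1, h⟩)
  · rintro ⟨i, h1, h2⟩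
    refine ⟨h1, fun h3 => ?_⟩
    rw [mem_interior_iff_mem_nhds, Metric.mem_nhds_iff] at h3
    obtain ⟨ε, hε, h4⟩ := h3
    have h5 : x + (ε/2) • a i ∈ poly a b := by
      apply h4
      rw [Metric.mem_ball, dist_eq_norm, add_sub_cancel_left, norm_smul, ha, mul_one,
        Real.norm_of_nonneg (by positivity)]
      linarith
    have h6 := h5 i
    rw [inner_add_right, inner_smul_right, real_inner_self_eq_norm_sq, ha, h2] at h6
    linarith

/-- at a point with exactly one active constraint the only outer unit normal is `a i` -/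
lemma normal_unique (a : ι → E 4) (b : ι → ℝ) (ha : ∀ i, ‖a i‖ = 1) (x : E 4) (i : ι)
    (hx : x ∈ facet a b i) (hj : ∀ j, j ≠ i → x ∉ facet a b j) (u : E 4) (hu : ‖u‖ = 1)
    (hn : ∀ y ∈ poly a b, ⟪u, y⟫ ≤ ⟪u, x⟫) : u = a i := by
  have hstr : ∀ j, j ≠ i → ⟪a j, x⟫ < b j := fun j hji =>
    lt_of_le_of_ne (hx.1 j) (fun h => hj j hji ⟨hx.1, h⟩)
  -- feasible directions
  have key : ∀ d : E 4, ⟪a i, d⟫ ≤ 0 → ⟪u, d⟫ ≤ 0 := by
    intro d hd
    have hev : ∀ᶠ t in nhdsWithin (0:ℝ) (Ioi 0), x + t • d ∈ poly a b := by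
      have hall : ∀ j, ∀ᶠ t in nhdsWithin (0:ℝ) (Ioi 0), ⟪a j, x + t • d⟫ ≤ b j := by
        intro j
        by_cases hji : j = i
        · subst hji
          filter_upwards [self_mem_nhdsWithin] with t ht
          rw [inner_add_right, inner_smul_right, hx.2]
          have : (0:ℝ) < t := ht
          nlinarith
        · have hc : Filter.Tendsto (fun t : ℝ => ⟪a j, x + t • d⟫) (nhdsWithin 0 (Ioi 0))
              (nhds ⟪a j, x⟫) := by
            have : Continuous (fun t : ℝ => ⟪a j, x + t • d⟫) := by fun_prop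
            have h2 := this.tendsto 0
            simp only [zero_smul, add_zero] at h2
            exact h2.mono_left nhdsWithin_le_nhds
          exact (hc.eventually (gt_mem_nhds (hstr j hji))).mono (fun t ht => ht.le)
      exact (Filter.eventually_all.2 hall)
    obtain ⟨t, ht, ht0⟩ := (hev.and self_mem_nhdsWithin).exists
    have h1 := hn _ ht
    rw [inner_add_right, inner_smul_right] at h1
    have : (0:ℝ) < t := ht0
    nlinarith
  set c := ⟪a i, u⟫ with hc
  have h1 : u - c • a i = 0 := by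
    have h2 := key (u - c • a i) (by
      rw [inner_sub_right, inner_smul_right, real_inner_self_eq_norm_sq, ha, ← hc]; linarith)
    have h3 : ‖u - c • a i‖^2 ≤ 0 := by
      have h4 : ⟪u, u - c • a i⟫ = ‖u - c • a i‖^2 := by
        rw [← real_inner_self_eq_norm_sq (u - c • a i), inner_sub_left (x := u), inner_smul_left]
        have : ⟪a i, u - c • a i⟫ = 0 := by
          rw [inner_sub_right, inner_smul_right, real_inner_self_eq_norm_sq, ha, ← hc]; ring
        rw [this]; simp
      rw [← h4]; exact h2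
    have h5 : ‖u - c • a i‖ = 0 := by
      have := norm_nonneg (u - c • a i)
      nlinarith
    exact norm_eq_zero.1 h5
  have h2 : u = c • a i := sub_eq_zero.1 h1
  have h3 : |c| = 1 := by
    have := congrArg norm h2
    rw [norm_smul, hu, ha, mul_one, Real.norm_eq_abs] at this
    exact this.symm
  have h4 : 0 ≤ c := by
    have h5 := key (-a i) (by rw [inner_neg_right, real_inner_self_eq_norm_sq, ha]; norm_num)
    rw [inner_neg_right, real_inner_comm] at h5
    linarith
  rw [abs_of_nonneg h4] at h3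
  rw [h2, h3, one_smul]

/-- surface area measure of a polytope -/
lemma surf_poly [DecidableEq ι] (a : ι → E 4) (b : ι → ℝ) (ha : ∀ i, ‖a i‖ = 1)
    (hnull : ∀ i j, i ≠ j → μH[3] (facet a b i ∩ facet a b j) = 0) (ω : Set (E 4)) :
    surfaceArea (poly a b) ω =
      ∑ i ∈ (Finset.univ : Finset ι), (open Classical in if a i ∈ ω then μH[3] (facet a b i) else 0) := by
  classical
  unfold surfaceArea
  have h3 : ((4:ℕ):ℝ) - 1 = 3 := by norm_num
  rw [h3]
  set s := Finset.univ.filter (fun i => a i ∈ ω) with hs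
  have hU : μH[3] (⋃ i ∈ s, facet a b i) = ∑ i ∈ s, μH[3] (facet a b i) := by
    apply measure_biUnion_finset₀
    · intro i _ j _ hij
      exact hnull i j hij
    · intro i _
      exact (facet_closed a b i).measurableSet.nullMeasurableSet
  rw [← Finset.sum_filter, ← hs, ← hU]
  apply le_antisymm
  · have hsub : {x ∈ frontier (poly a b) | ∃ u ∈ ω, ‖u‖ = 1 ∧ ∀ y ∈ poly a b, ⟪u, y⟫ ≤ ⟪u, x⟫} ⊆
        (⋃ i ∈ s, facet a b i) ∪ ⋃ i, ⋃ j, ⋃ (_ : i ≠ j), facet a b i ∩ facet a b j := by
      rintro x ⟨hx, u, hu, hu1, hn⟩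
      rw [mem_frontier_iff a b ha] at hx
      obtain ⟨i, hi⟩ := hx
      by_cases h : ∃ j, j ≠ i ∧ x ∈ facet a b j
      · obtain ⟨j, hji, hj⟩ := h
        right
        simp only [mem_iUnion]
        exact ⟨i, j, hji.symm, hi, hj⟩
      · push Not at h
        left
        have := normal_unique a b ha x i hi h u hu1 hn
        simp only [mem_iUnion]
        refine ⟨i, ?_, hi⟩
        rw [hs, Finset.mem_filter]
        exact ⟨Finset.mem_univ _, this ▸ hu⟩
    refine (measure_mono hsub).trans ((measure_union_le _ _).trans ?_)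
    have h0 : μH[3] (⋃ i, ⋃ j, ⋃ (_ : i ≠ j), facet a b i ∩ facet a b j) = 0 := by
      rw [measure_iUnion_null_iff]
      intro i
      rw [measure_iUnion_null_iff]
      intro j
      rw [measure_iUnion_null_iff]
      intro hij
      exact hnull i j hij
    rw [h0, add_zero]
  · apply measure_mono
    intro x hx
    simp only [mem_iUnion] at hx
    obtain ⟨i, hi, hx⟩ := hx
    rw [hs, Finset.mem_filter] at hi
    refine ⟨(mem_frontier_iff a b ha x).2 ⟨i, hx⟩, a i, hi.2, ha i, fun y hy => ?_⟩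
    rw [hx.2]; exact hy i

/-- codimension two flats are null -/
lemma null_pair (u v : E 4) (hu : ‖u‖ = 1) (hv : ‖v‖ = 1) (h1 : u ≠ v) (h2 : u ≠ -v) (α β : ℝ) :
    μH[3] {x : E 4 | ⟪u, x⟫ = α ∧ ⟪v, x⟫ = β} = 0 := by
  by_cases hne : ({x : E 4 | ⟪u, x⟫ = α ∧ ⟪v, x⟫ = β}).Nonempty
  swap
  · rw [Set.not_nonempty_iff_eq_empty] at hne
    rw [hne, measure_empty]
  obtain ⟨x0, hx0⟩ := hne
  have hLI : LinearIndependent ℝ ![u, v] := by
    rw [LinearIndependent.pair_iff]
    intro s t hst
    have hst' : s • u = -(t • v) := eq_neg_of_add_eq_zero_left hst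
    have hn := congrArg norm hst'
    rw [norm_neg, norm_smul, norm_smul, hu, hv, mul_one, mul_one, Real.norm_eq_abs,
      Real.norm_eq_abs] at hn
    by_cases hs : s = 0
    · subst hs
      simp at hn
      exact ⟨rfl, abs_eq_zero.1 hn.symm⟩
    · exfalso
      rcases abs_eq_abs.1 hn with h | h
      · apply h2
        rw [← h, ← smul_neg] at hst'
        exact smul_right_injective _ hs hst'
      · apply h1
        have : t = -s := by linarith
        rw [this, neg_smul, neg_neg] at hst'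
        exact smul_right_injective _ hs hst'
  set W : Submodule ℝ (E 4) := Submodule.span ℝ (Set.range ![u, v]) with hW
  have hfr : Module.finrank ℝ W = 2 := by
    rw [hW, finrank_span_eq_card hLI]; simp
  have hfr2 : Module.finrank ℝ (Wᗮ : Submodule ℝ (E 4)) = 2 := by
    have := Submodule.finrank_add_finrank_orthogonal W
    rw [hfr, finrank_euclideanSpace, Fintype.card_fin] at this
    omega
  have hsub : {x : E 4 | ⟪u, x⟫ = α ∧ ⟪v, x⟫ = β} ⊆
      (fun y => y + x0) '' ((fun w : (Wᗮ : Submodule ℝ (E 4)) => (w : E 4)) '' univ) := by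
    intro x hx
    refine ⟨x - x0, ?_, by simp⟩
    have hmem : x - x0 ∈ Wᗮ := by
      rw [hW, Submodule.mem_orthogonal]
      intro w hw
      induction hw using Submodule.span_induction with
      | mem w hw =>
        obtain ⟨i, rfl⟩ := hw
        fin_cases i
        · simp only [Fin.zero_eta, Matrix.cons_val_zero]
          rw [inner_sub_right, hx.1, hx0.1, sub_self]
        · simp only [Fin.mk_one, Matrix.cons_val_one]
          rw [inner_sub_right]
          show ⟪v, x⟫ - ⟪v, x0⟫ = 0
          rw [hx.2, hx0.2, sub_self]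
      | zero => simp
      | add a b _ _ ha hb => rw [inner_add_left, ha, hb, add_zero]
      | smul c a _ ha => rw [inner_smul_left, ha]; simp
    exact ⟨⟨x - x0, hmem⟩, mem_univ _, rfl⟩
  have hdim : dimH {x : E 4 | ⟪u, x⟫ = α ∧ ⟪v, x⟫ = β} < ((3:ℝ≥0) : ℝ≥0∞) := by
    calc dimH {x : E 4 | ⟪u, x⟫ = α ∧ ⟪v, x⟫ = β}
        ≤ dimH ((fun y => y + x0) '' ((fun w : (Wᗮ : Submodule ℝ (E 4)) => (w : E 4)) '' univ)) :=
          dimH_mono hsub
      _ = dimH ((fun w : (Wᗮ : Submodule ℝ (E 4)) => (w : E 4)) '' univ) :=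
          (IsometryEquiv.addRight x0).isometry.dimH_image _
      _ = dimH (univ : Set (Wᗮ : Submodule ℝ (E 4))) :=
          (Submodule.subtypeₗᵢ _).isometry.dimH_image _
      _ = Module.finrank ℝ (Wᗮ : Submodule ℝ (E 4)) := Real.dimH_univ_eq_finrank _
      _ < ((3:ℝ≥0) : ℝ≥0∞) := by rw [hfr2]; norm_num
  have := hausdorffMeasure_of_dimH_lt hdim
  simpa using this

end Pool.Agent.H9.Blaschke
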