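import Mathlib
import Pool.Agent.H9.BlaschkePoly

set_option autoImplicit false

open MeasureTheory Set
open scoped RealInnerProductSpace Pointwise ENNReal NNReal

namespace Pool.Agent.H9.Blaschke

noncomputable def r : ℝ := (√2)⁻¹

lemma r_pos : 0 < r := by unfold r; positivity

lemma r_sq : r * r = 1/2 := by
  unfold r
  rw [← mul_inv, Real.mul_self_sqrt (by norm_num)]; norm_num

/-- index: factor, edge -/
abbrev I0 := Fin 2 × Fin 3

/-- the normals -/
noncomputable def nv : I0 → E 4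
  | (0, 0) => !₂[-1, 0, 0, 0]
  | (0, 1) => !₂[0, -1, 0, 0]
  | (0, 2) => !₂[r, r, 0, 0]
  | (1, 0) => !₂[0, 0, -1, 0]
  | (1, 1) => !₂[0, 0, 0, -1]
  | (1, 2) => !₂[0, 0, r, r]

/-- linear forms in the plane -/
noncomputable def L (i : Fin 3) (x y : ℝ) : ℝ := ![-x, -y, r * (x + y)] i

noncomputable def bT (i : Fin 3) : ℝ := ![0, 0, r] i
noncomputable def bH (i : Fin 3) : ℝ := ![1/2, 1/2, r/2] i

lemma bH_pos (i : Fin 3) : 0 < bH i := by
  have := r_pos
  fin_cases i <;> simp [bH] <;> linarith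

lemma inner0 (i : Fin 3) (x : E 4) : ⟪nv (0, i), x⟫ = L i (x 0) (x 1) := by
  fin_cases i <;> (simp [nv, L, PiLp.inner_apply, Fin.sum_univ_four]; try ring)

lemma inner1 (i : Fin 3) (x : E 4) : ⟪nv (1, i), x⟫ = L i (x 2) (x 3) := by
  fin_cases i <;> (simp [nv, L, PiLp.inner_apply, Fin.sum_univ_four]; try ring)

lemma nv_norm (i : I0) : ‖nv i‖ = 1 := by
  have h : ‖nv i‖^2 = 1 := by
    rw [← real_inner_self_eq_norm_sq]
    obtain ⟨s, i⟩ := i
    have hr := r_sq
    fin_cases s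
    · simp only [Fin.zero_eta]
      rw [inner0]
      fin_cases i <;> simp [nv, L] <;> linarith
    · simp only [Fin.mk_one]
      rw [inner1]
      fin_cases i <;> simp [nv, L] <;> linarith
  have h0 := norm_nonneg (nv i)
  nlinarith

lemma nv_ne_neg (i : I0) : nv i ≠ - nv i := by
  intro h
  have h1 : ⟪nv i, nv i⟫ = ⟪- nv i, nv i⟫ := by rw [← h]
  rw [inner_neg_left, real_inner_self_eq_norm_sq, nv_norm] at h1
  norm_num at h1

/-- different normals are not parallel -/
lemma nv_inner_lt (i j : I0) (h : i ≠ j) : |⟪nv i, nv j⟫| < 1 := by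
  obtain ⟨s, i⟩ := i
  obtain ⟨s', j⟩ := j
  have hr := r_sq
  have hr0 := r_pos
  have hr1 : r < 1 := by nlinarith
  rw [abs_lt]
  fin_cases s
  · simp only [Fin.zero_eta]
    rw [inner0]
    fin_cases s'
    · fin_cases i <;> fin_cases j <;> simp [nv, L] at h ⊢ <;> constructor <;> linarith
    · fin_cases i <;> fin_cases j <;> simp [nv, L]
  · simp only [Fin.mk_one]
    rw [inner1]
    fin_cases s'
    · fin_cases i <;> fin_cases j <;> simp [nv, L]
    · fin_cases i <;> fin_cases j <;> simp [nv, L] at h ⊢ <;> constructor <;> linarith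

lemma nv_ne (i j : I0) (h : i ≠ j) : nv i ≠ nv j ∧ nv i ≠ - nv j := by
  have h1 := nv_inner_lt i j h
  constructor
  · intro h2
    rw [h2, real_inner_self_eq_norm_sq, nv_norm] at h1
    norm_num at h1
  · intro h2
    rw [h2, inner_neg_left, real_inner_self_eq_norm_sq, nv_norm] at h1
    norm_num at h1

/-! ### the triangle and the hexagon -/

def T (x y : ℝ) : Prop := 0 ≤ x ∧ 0 ≤ y ∧ x + y ≤ 1

def Hx (x y : ℝ) : Prop := -(1/2) ≤ x ∧ x ≤ 1/2 ∧ -(1/2) ≤ y ∧ y ≤ 1/2 ∧ -(1/2) ≤ x + y ∧ x + y ≤ 1/2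

lemma T_iff (x y : ℝ) : (∀ i, L i x y ≤ bT i) ↔ T x y := by
  have hr := r_pos
  simp only [Fin.forall_fin_succ, L, bT, T]
  simp
  intro _ _
  constructor
  · intro h; by_contra h2; push Not at h2; nlinarith
  · intro h; nlinarith

lemma H_iff (x y : ℝ) : ((∀ i, L i x y ≤ bH i) ∧ (∀ i, - L i x y ≤ bH i)) ↔ Hx x y := by
  have hr := r_pos
  have h1 : r * (x + y) ≤ r / 2 ↔ x + y ≤ 1/2 := by
    constructor
    · intro h; by_contra h2; push Not at h2; nlinarith
    · intro h; nlinarith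
  have h2 : -(r * (x + y)) ≤ r / 2 ↔ -(1/2) ≤ x + y := by
    constructor
    · intro h; by_contra h2; push Not at h2; nlinarith
    · intro h; nlinarith
  simp only [Fin.forall_fin_succ, L, bH, Hx]
  simp
  rw [h1, h2]
  constructor
  · rintro ⟨⟨a, b, c⟩, d, e, f⟩
    refine ⟨?_, ?_, ?_, ?_, ?_, ?_⟩ <;> linarith
  · rintro ⟨a, b, c, d, e, f⟩
    refine ⟨⟨?_, ?_, ?_⟩, ?_, ?_, ?_⟩ <;> linarith

/-- `K = T × T` -/
def KK : Set (E 4) := poly nv (fun i => bT i.2)

lemma mem_KK (x : E 4) : x ∈ KK ↔ T (x 0) (x 1) ∧ T (x 2) (x 3) := by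
  unfold KK poly
  rw [mem_ofPred_eq, Prod.forall, Fin.forall_fin_two]
  simp only [inner0, inner1]
  rw [T_iff, T_iff]

/-- twelve normals -/
noncomputable def nv2 : I0 ⊕ I0 → E 4 := Sum.elim nv (fun i => - nv i)

noncomputable def bH2 (c : ℝ) : I0 ⊕ I0 → ℝ := Sum.elim (fun i => c * bH i.2) (fun i => c * bH i.2)

/-- `c • (H × H)` -/
noncomputable def HH (c : ℝ) : Set (E 4) := poly nv2 (bH2 c)

lemma mem_HH1 (x : E 4) : x ∈ HH 1 ↔ Hx (x 0) (x 1) ∧ Hx (x 2) (x 3) := by
  unfold HH poly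
  rw [mem_ofPred_eq, Sum.forall]
  simp only [nv2, bH2, Sum.elim_inl, Sum.elim_inr, one_mul, inner_neg_left]
  rw [Prod.forall, Prod.forall, Fin.forall_fin_two, Fin.forall_fin_two]
  simp only [inner0, inner1]
  rw [← H_iff, ← H_iff]
  tauto

lemma nv2_norm (i : I0 ⊕ I0) : ‖nv2 i‖ = 1 := by
  rcases i with i | i
  · exact nv_norm i
  · simp only [nv2, Sum.elim_inr, norm_neg]; exact nv_norm i

lemma null_KK (b : I0 → ℝ) (i j : I0) (h : i ≠ j) : μH[3] (facet nv b i ∩ facet nv b j) = 0 := by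
  obtain ⟨h1, h2⟩ := nv_ne i j h
  refine measure_mono_null ?_ (null_pair (nv i) (nv j) (nv_norm i) (nv_norm j) h1 h2 (b i) (b j))
  rintro x ⟨hi, hj⟩
  exact ⟨hi.2, hj.2⟩

lemma null_HH (c : ℝ) (hc : 0 < c) (i j : I0 ⊕ I0) (h : i ≠ j) :
    μH[3] (facet nv2 (bH2 c) i ∩ facet nv2 (bH2 c) j) = 0 := by
  by_cases hanti : nv2 i = - nv2 j
  · have : facet nv2 (bH2 c) i ∩ facet nv2 (bH2 c) j = ∅ := by
      rw [Set.eq_empty_iff_forall_notMem]
      rintro x ⟨hi, hj⟩
      have h1 := hi.2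
      have h2 := hj.2
      rw [hanti, inner_neg_left, h2] at h1
      have hpos : ∀ k, 0 < bH2 c k := by
        intro k
        rcases k with k | k <;> simp only [bH2, Sum.elim_inl, Sum.elim_inr] <;>
          exact mul_pos hc (bH_pos _)
      have := hpos i
      have := hpos j
      linarith
    rw [this, measure_empty]
  · have hne : nv2 i ≠ nv2 j := by
      rcases i with i | i <;> rcases j with j | j
      · exact (nv_ne i j (fun hh => h (by rw [hh]))).1
      · intro hh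
        by_cases hij : i = j
        · subst hij
          simp only [nv2, Sum.elim_inl, Sum.elim_inr] at hh
          exact nv_ne_neg i hh
        · exact (nv_ne i j hij).2 hh
      · intro hh
        by_cases hij : i = j
        · subst hij
          simp only [nv2, Sum.elim_inl, Sum.elim_inr] at hh
          exact nv_ne_neg i hh.symm
        · exact (nv_ne j i (Ne.symm hij)).2 hh.symm
      · intro hh
        simp only [nv2, Sum.elim_inr] at hh
        exact (nv_ne i j (fun hh => h (by rw [hh]))).1 (neg_injective hh)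
    refine measure_mono_null ?_ (null_pair (nv2 i) (nv2 j) (nv2_norm i) (nv2_norm j) hne hanti
      (bH2 c i) (bH2 c j))
    rintro x ⟨hi, hj⟩
    exact ⟨hi.2, hj.2⟩

end Pool.Agent.H9.Blaschke
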