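import Mathlib
import Pool.Agent.H9.BlaschkeFacet

set_option autoImplicit false

open MeasureTheory Set
open scoped RealInnerProductSpace Pointwise ENNReal NNReal

namespace Pool.Agent.H9.Blaschke

noncomputable def sg (j : Fin 6) : ℝ := ![1, -1, 1, -1, 1, -1] j
noncomputable def wx (j : Fin 6) : ℝ := ![0, 0, -1/2, 0, 0, 1/2] j
noncomputable def wy (j : Fin 6) : ℝ := ![0, 1/2, 0, 0, -1/2, 0] j
noncomputable def vx (i : Fin 3) (j : Fin 6) : ℝ := ![-1/2, (1 - sg j)/4, (1 - sg j)/4] i
noncomputable def vy (i : Fin 3) (j : Fin 6) : ℝ := ![(1 - sg j)/4, -1/2, (1 - sg j)/4] i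

lemma sg_cases (j : Fin 6) : sg j = 1 ∨ sg j = -1 := by
  fin_cases j <;> simp [sg]

lemma Hx_union (x y : ℝ) :
    Hx x y ↔ ∃ j, T (2 * sg j * (x - wx j)) (2 * sg j * (y - wy j)) := by
  constructor
  · rintro ⟨h1, h2, h3, h4, h5, h6⟩
    rcases le_total 0 x with hx | hx <;> rcases le_total 0 y with hy | hy <;>
      rcases le_total 0 (x + y) with hxy | hxy
    · refine ⟨0, ?_⟩
      simp only [T, sg, wx, wy]; simp
      exact ⟨by linarith, by linarith, by linarith⟩
    · refine ⟨0, ?_⟩
      simp only [T, sg, wx, wy]; simp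
      exact ⟨by linarith, by linarith, by linarith⟩
    · refine ⟨5, ?_⟩
      simp only [T, sg, wx, wy]; simp
      exact ⟨by linarith, by linarith, by linarith⟩
    · refine ⟨4, ?_⟩
      simp only [T, sg, wx, wy]; simp
      exact ⟨by linarith, by linarith, by linarith⟩
    · refine ⟨1, ?_⟩
      simp only [T, sg, wx, wy]; simp
      exact ⟨by linarith, by linarith, by linarith⟩
    · refine ⟨2, ?_⟩
      simp only [T, sg, wx, wy]; simp
      exact ⟨by linarith, by linarith, by linarith⟩
    · refine ⟨3, ?_⟩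
      simp only [T, sg, wx, wy]; simp
      exact ⟨by linarith, by linarith, by linarith⟩
    · refine ⟨3, ?_⟩
      simp only [T, sg, wx, wy]; simp
      exact ⟨by linarith, by linarith, by linarith⟩
  · rintro ⟨j, hj⟩
    fin_cases j <;> simp only [T, sg, wx, wy] at hj <;> simp at hj <;>
      obtain ⟨h1, h2, h3⟩ := hj <;>
      refine ⟨by linarith, by linarith, by linarith, by linarith, by linarith, by linarith⟩

lemma edge_iff (i : Fin 3) (j : Fin 6) (x y : ℝ) :
    (Hx x y ∧ L i x y = bH i) ↔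
    (T (2 * sg j * (x - vx i j)) (2 * sg j * (y - vy i j)) ∧
      L i (2 * sg j * (x - vx i j)) (2 * sg j * (y - vy i j)) = bT i) := by
  have hr := r_pos
  have e1 : ∀ a b : ℝ, r * a = r * b ↔ a = b := fun a b => mul_right_inj' hr.ne'
  have e2 : ∀ a : ℝ, r * a = r / 2 ↔ a = 1/2 := by
    intro a
    rw [show r / 2 = r * (1/2) by ring, e1]
  have e3 : ∀ a : ℝ, r * a = r ↔ a = 1 := by
    intro a
    conv_lhs => rw [show r * a = r ↔ r * a = r * 1 by rw [mul_one]]
    rw [e1]
  rcases sg_cases j with h | h <;> fin_cases i <;>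
    simp only [Hx, T, L, bH, bT, vx, vy, h] <;> simp <;> (try rw [e2]) <;> (try rw [e3]) <;>
    constructor <;> rintro ⟨⟨h1, h2, h3⟩, h4⟩ <;> refine ⟨?_, ?_⟩ <;> (try constructor) <;>
    (try constructor) <;> (try constructor) <;> (try constructor) <;> (try constructor) <;> linarith

end Pool.Agent.H9.Blaschke
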