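import Mathlib
import Pool.Agent.H9.BlaschkeMeas

set_option autoImplicit false

open MeasureTheory Set
open scoped RealInnerProductSpace Pointwise ENNReal NNReal

namespace Pool.Agent.H9.Blaschke

lemma overlap (j j' : Fin 6) (hj : j ≠ j') (x y : ℝ)
    (h : T (2 * sg j * (x - wx j)) (2 * sg j * (y - wy j)))
    (h' : T (2 * sg j' * (x - wx j')) (2 * sg j' * (y - wy j'))) : ∃ k, L k x y = 0 := by
  have hcase : x = 0 ∨ y = 0 ∨ x + y = 0 := by
    fin_cases j <;> fin_cases j' <;> simp only [T, sg, wx, wy] at h h' <;>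
      simp at h h' hj <;> obtain ⟨h1, h2, h3⟩ := h <;> obtain ⟨h4, h5, h6⟩ := h' <;>
      first
      | (left; linarith)
      | (right; left; linarith)
      | (right; right; linarith)
  rcases hcase with h | h | h
  · exact ⟨0, by simp [L, h]⟩
  · exact ⟨1, by simp [L, h]⟩
  · exact ⟨2, by simp [L, h]⟩

/-- translation vectors -/
noncomputable def Wv (s : Fin 2) (i : Fin 3) (j : Fin 6) : E 4 :=
  if s = 0 then !₂[vx i j, vy i j, wx j, wy j] else !₂[wx j, wy j, vx i j, vy i j]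

lemma mem_fK0 (i : Fin 3) (x : E 4) : x ∈ facet nv (fun i => bT i.2) (0, i) ↔
    (T (x 0) (x 1) ∧ T (x 2) (x 3)) ∧ L i (x 0) (x 1) = bT i := by
  rw [← mem_KK, ← inner0]; rfl

lemma mem_fK1 (i : Fin 3) (x : E 4) : x ∈ facet nv (fun i => bT i.2) (1, i) ↔
    (T (x 0) (x 1) ∧ T (x 2) (x 3)) ∧ L i (x 2) (x 3) = bT i := by
  rw [← mem_KK, ← inner1]; rfl

lemma mem_fH0 (i : Fin 3) (x : E 4) : x ∈ facet nv2 (bH2 1) (Sum.inl (0, i)) ↔
    (Hx (x 0) (x 1) ∧ Hx (x 2) (x 3)) ∧ L i (x 0) (x 1) = bH i := by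
  rw [← mem_HH1, ← inner0]
  show (_ ∧ _ = 1 * bH i) ↔ _
  rw [one_mul]; rfl

lemma mem_fH1 (i : Fin 3) (x : E 4) : x ∈ facet nv2 (bH2 1) (Sum.inl (1, i)) ↔
    (Hx (x 0) (x 1) ∧ Hx (x 2) (x 3)) ∧ L i (x 2) (x 3) = bH i := by
  rw [← mem_HH1, ← inner1]
  show (_ ∧ _ = 1 * bH i) ↔ _
  rw [one_mul]; rfl

/-- the pieces -/
def pc (s : Fin 2) (i : Fin 3) (j : Fin 6) : Set (E 4) :=
  {x | (2 * sg j) • (x - Wv s i j) ∈ facet nv (fun i => bT i.2) (s, i)}

lemma mem_pc0 (i : Fin 3) (j : Fin 6) (x : E 4) : x ∈ pc 0 i j ↔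
    (T (2 * sg j * (x 0 - vx i j)) (2 * sg j * (x 1 - vy i j)) ∧
      T (2 * sg j * (x 2 - wx j)) (2 * sg j * (x 3 - wy j))) ∧
      L i (2 * sg j * (x 0 - vx i j)) (2 * sg j * (x 1 - vy i j)) = bT i := by
  unfold pc
  rw [mem_ofPred_eq, mem_fK0]
  simp [Wv]

lemma mem_pc1 (i : Fin 3) (j : Fin 6) (x : E 4) : x ∈ pc 1 i j ↔
    (T (2 * sg j * (x 0 - wx j)) (2 * sg j * (x 1 - wy j)) ∧
      T (2 * sg j * (x 2 - vx i j)) (2 * sg j * (x 3 - vy i j))) ∧
      L i (2 * sg j * (x 2 - vx i j)) (2 * sg j * (x 3 - vy i j)) = bT i := by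
  unfold pc
  rw [mem_ofPred_eq, mem_fK1]
  simp [Wv]

lemma facet_union (s : Fin 2) (i : Fin 3) :
    facet nv2 (bH2 1) (Sum.inl (s, i)) = ⋃ j ∈ (Finset.univ : Finset (Fin 6)), pc s i j := by
  ext x
  simp only [mem_iUnion, Finset.mem_univ, exists_prop, true_and]
  fin_cases s
  · simp only [Fin.zero_eta]
    rw [mem_fH0]
    simp only [mem_pc0]
    constructor
    · rintro ⟨⟨h1, h2⟩, h3⟩
      obtain ⟨j, hj⟩ := (Hx_union _ _).1 h2
      have := (edge_iff i j _ _).1 ⟨h1, h3⟩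
      exact ⟨j, ⟨this.1, hj⟩, this.2⟩
    · rintro ⟨j, ⟨h1, h2⟩, h3⟩
      have := (edge_iff i j _ _).2 ⟨h1, h3⟩
      exact ⟨⟨this.1, (Hx_union _ _).2 ⟨j, h2⟩⟩, this.2⟩
  · simp only [Fin.mk_one]
    rw [mem_fH1]
    simp only [mem_pc1]
    constructor
    · rintro ⟨⟨h1, h2⟩, h3⟩
      obtain ⟨j, hj⟩ := (Hx_union _ _).1 h1
      have := (edge_iff i j _ _).1 ⟨h2, h3⟩
      exact ⟨j, ⟨hj, this.1⟩, this.2⟩
    · rintro ⟨j, ⟨h1, h2⟩, h3⟩
      have := (edge_iff i j _ _).2 ⟨h2, h3⟩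
      exact ⟨⟨(Hx_union _ _).2 ⟨j, h1⟩, this.1⟩, this.2⟩

lemma pc_null (s : Fin 2) (i : Fin 3) (j j' : Fin 6) (hj : j ≠ j') :
    μH[3] (pc s i j ∩ pc s i j') = 0 := by
  have hsub : pc s i j ∩ pc s i j' ⊆
      ⋃ k : Fin 3, {x : E 4 | ⟪nv (s, i), x⟫ = bH i ∧ ⟪nv (s + 1, k), x⟫ = 0} := by
    rintro x ⟨h, h'⟩
    simp only [mem_iUnion]
    fin_cases s
    · simp only [Fin.zero_eta] at *
      rw [mem_pc0] at h h'
      obtain ⟨k, hk⟩ := overlap j j' hj _ _ h.1.2 h'.1.2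
      refine ⟨k, ?_, ?_⟩
      · rw [inner0]; exact ((edge_iff i j _ _).2 ⟨h.1.1, h.2⟩).2
      · show ⟪nv (1, k), x⟫ = 0
        rw [inner1]; exact hk
    · simp only [Fin.mk_one] at *
      rw [mem_pc1] at h h'
      obtain ⟨k, hk⟩ := overlap j j' hj _ _ h.1.1 h'.1.1
      refine ⟨k, ?_, ?_⟩
      · rw [inner1]; exact ((edge_iff i j _ _).2 ⟨h.1.2, h.2⟩).2
      · show ⟪nv (0, k), x⟫ = 0
        rw [inner0]; exact hk
  refine measure_mono_null hsub ?_
  rw [measure_iUnion_null_iff]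
  intro k
  have hne : ((s, i) : I0) ≠ (s + 1, k) := by
    intro h
    have := congrArg Prod.fst h
    simp only at this
    fin_cases s <;> simp at this
  obtain ⟨h1, h2⟩ := nv_ne _ _ hne
  exact null_pair _ _ (nv_norm _) (nv_norm _) h1 h2 _ _

lemma pc_closed (s : Fin 2) (i : Fin 3) (j : Fin 6) : IsClosed (pc s i j) := by
  unfold pc
  exact (facet_closed _ _ _).preimage (by fun_prop)

lemma pc_measure (s : Fin 2) (i : Fin 3) (j : Fin 6) :
    μH[3] (pc s i j) = (1/8 : ℝ≥0) • μH[3] (facet nv (fun i => bT i.2) (s, i)) := by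
  have hs : sg j ≠ 0 := by
    rcases sg_cases j with h | h <;> rw [h] <;> norm_num
  have h2s : 2 * sg j ≠ 0 := by positivity
  have himg : pc s i j = (IsometryEquiv.addRight (Wv s i j)) ''
      (((2 * sg j)⁻¹ : ℝ) • facet nv (fun i => bT i.2) (s, i)) := by
    ext x
    constructor
    · intro hx
      refine ⟨x - Wv s i j, ?_, by simp⟩
      rw [Set.mem_smul_set]
      refine ⟨_, hx, ?_⟩
      rw [smul_smul, inv_mul_cancel₀ h2s, one_smul]
    · rintro ⟨y, hy, rfl⟩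
      rw [Set.mem_smul_set] at hy
      obtain ⟨z, hz, rfl⟩ := hy
      show (2 * sg j) • ((2 * sg j)⁻¹ • z + Wv s i j - Wv s i j) ∈
        facet nv (fun i => bT i.2) (s, i)
      rw [add_sub_cancel_right, smul_smul, mul_inv_cancel₀ h2s, one_smul]
      exact hz
  rw [himg, IsometryEquiv.hausdorffMeasure_image, Measure.hausdorffMeasure_smul₀ (by norm_num)
    (inv_ne_zero h2s)]
  congr 1
  have : ‖(2 * sg j)⁻¹‖₊ = 1/2 := by
    rcases sg_cases j with h | h <;> rw [h] <;> ext <;> simp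
  rw [this]
  have h3 : (3:ℝ) = ((3:ℕ):ℝ) := by norm_num
  rw [h3, NNReal.rpow_natCast]
  norm_num

lemma facet_measure1 (s : Fin 2) (i : Fin 3) :
    μH[3] (facet nv2 (bH2 1) (Sum.inl (s, i))) =
      (3/4 : ℝ≥0) • μH[3] (facet nv (fun i => bT i.2) (s, i)) := by
  rw [facet_union, measure_biUnion_finset₀]
  · simp only [pc_measure, Finset.sum_const, Finset.card_univ, Fintype.card_fin]
    rw [← Nat.cast_smul_eq_nsmul ℝ≥0, smul_smul]
    congr 1
    norm_num
  · intro j _ j' _ hjj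
    exact pc_null s i j j' hjj
  · intro j _
    exact (pc_closed s i j).measurableSet.nullMeasurableSet

lemma facet_scale (c : ℝ) (hc : 0 < c) (i : I0 ⊕ I0) :
    facet nv2 (bH2 c) i = c • facet nv2 (bH2 1) i := by
  have hb : ∀ k, bH2 c k = c * bH2 1 k := by
    intro k
    rcases k with k | k <;> simp [bH2]
  ext x
  rw [Set.mem_smul_set_iff_inv_smul_mem₀ hc.ne']
  have hk : ∀ k, (⟪nv2 k, c⁻¹ • x⟫ ≤ bH2 1 k ↔ ⟪nv2 k, x⟫ ≤ bH2 c k) := by
    intro k
    rw [inner_smul_right, hb, inv_mul_le_iff₀ hc]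
  have hk' : (⟪nv2 i, c⁻¹ • x⟫ = bH2 1 i ↔ ⟪nv2 i, x⟫ = bH2 c i) := by
    rw [inner_smul_right, hb, inv_mul_eq_iff_eq_mul₀ hc.ne']
  show ((∀ k, _) ∧ _) ↔ ((∀ k, _) ∧ _)
  simp only [hk, hk']

lemma facet_neg (c : ℝ) (i : I0) :
    facet nv2 (bH2 c) (Sum.inr i) = (IsometryEquiv.neg (E 4)) '' facet nv2 (bH2 c) (Sum.inl i) := by
  ext x
  constructor
  · rintro ⟨h1, h2⟩
    refine ⟨-x, ⟨?_, ?_⟩, by simp⟩
    · intro k
      rcases k with k | k
      · have := h1 (Sum.inr k)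
        simp only [nv2, bH2, Sum.elim_inl, Sum.elim_inr, inner_neg_left, inner_neg_right] at this ⊢
        exact this
      · have := h1 (Sum.inl k)
        simp only [nv2, bH2, Sum.elim_inl, Sum.elim_inr, inner_neg_left, inner_neg_right, neg_neg] at this ⊢
        exact this
    · simp only [nv2, bH2, Sum.elim_inl, Sum.elim_inr, inner_neg_left, inner_neg_right] at h2 ⊢
      exact h2
  · rintro ⟨y, ⟨h1, h2⟩, rfl⟩
    refine ⟨?_, ?_⟩
    · intro k
      rcases k with k | k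
      · have := h1 (Sum.inr k)
        simp only [nv2, bH2, Sum.elim_inl, Sum.elim_inr, inner_neg_left, inner_neg_right,
          IsometryEquiv.neg_apply] at this ⊢
        exact this
      · have := h1 (Sum.inl k)
        simp only [nv2, bH2, Sum.elim_inl, Sum.elim_inr, inner_neg_left, inner_neg_right, neg_neg,
          IsometryEquiv.neg_apply] at this ⊢
        exact this
    · simp only [nv2, bH2, Sum.elim_inl, Sum.elim_inr, inner_neg_left, inner_neg_right, neg_neg,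
        IsometryEquiv.neg_apply] at h2 ⊢
      exact h2

/-- the scaling factor of the Blaschke body -/
noncomputable def cc : ℝ := (2/3 : ℝ)^((1:ℝ)/3)

lemma cc_pos : 0 < cc := by unfold cc; positivity

lemma cc_cube : cc^3 = 2/3 := by
  unfold cc
  rw [← Real.rpow_natCast, ← Real.rpow_mul (by norm_num)]
  norm_num

lemma facet_measure_inl (i : I0) :
    μH[3] (facet nv2 (bH2 cc) (Sum.inl i)) =
      (1/2 : ℝ≥0) • μH[3] (facet nv (fun i => bT i.2) i) := by
  obtain ⟨s, i⟩ := i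
  rw [facet_scale cc cc_pos, Measure.hausdorffMeasure_smul₀ (by norm_num) cc_pos.ne',
    facet_measure1, smul_smul]
  congr 1
  have h3 : (3:ℝ) = ((3:ℕ):ℝ) := by norm_num
  rw [h3, NNReal.rpow_natCast]
  ext
  push_cast
  rw [Real.norm_of_nonneg cc_pos.le, cc_cube]
  norm_num

lemma facet_measure_inr (i : I0) :
    μH[3] (facet nv2 (bH2 cc) (Sum.inr i)) =
      (1/2 : ℝ≥0) • μH[3] (facet nv (fun i => bT i.2) i) := by
  rw [facet_neg, IsometryEquiv.hausdorffMeasure_image, facet_measure_inl]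

/-- `-K` -/
lemma neg_KK : -KK = poly (fun i => - nv i) (fun i => bT i.2) := by
  ext x
  rw [Set.mem_neg]
  show (∀ i, _) ↔ (∀ i, _)
  simp only [inner_neg_left, inner_neg_right]

lemma facet_negK (i : I0) : facet (fun i => - nv i) (fun i : I0 => bT i.2) i =
    (IsometryEquiv.neg (E 4)) '' facet nv (fun i => bT i.2) i := by
  ext x
  constructor
  · rintro ⟨h1, h2⟩
    refine ⟨-x, ⟨?_, ?_⟩, by simp⟩
    · intro k
      have := h1 k
      simp only [inner_neg_left, inner_neg_right] at this ⊢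
      exact this
    · simp only [inner_neg_left, inner_neg_right] at h2 ⊢
      exact h2
  · rintro ⟨y, ⟨h1, h2⟩, rfl⟩
    refine ⟨?_, ?_⟩
    · intro k
      have := h1 k
      simp only [inner_neg_left, inner_neg_right, neg_neg, IsometryEquiv.neg_apply] at this ⊢
      exact this
    · simp only [inner_neg_left, inner_neg_right, neg_neg, IsometryEquiv.neg_apply] at h2 ⊢
      exact h2

theorem area_identity (ω : Set (E 4)) :
    surfaceArea (HH cc) ω = (surfaceArea KK ω + surfaceArea (-KK) ω) / 2 := by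
  classical
  have h1 : surfaceArea KK ω = _ := surf_poly nv (fun i => bT i.2) nv_norm
    (null_KK (fun i => bT i.2)) ω
  have h2 : surfaceArea (-KK) ω = ∑ i ∈ (Finset.univ : Finset I0),
      (if - nv i ∈ ω then μH[3] (facet (fun i => - nv i) (fun i : I0 => bT i.2) i) else 0) := by
    rw [neg_KK]
    refine surf_poly (fun i => - nv i) (fun i => bT i.2) (fun i => by rw [norm_neg, nv_norm]) ?_ ω
    intro i j hij
    rw [facet_negK, facet_negK, ← Set.image_inter (IsometryEquiv.neg (E 4)).injective,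
      IsometryEquiv.hausdorffMeasure_image]
    exact null_KK _ i j hij
  have h3 : surfaceArea (HH cc) ω = _ := surf_poly nv2 (bH2 cc) nv2_norm
    (fun i j hij => null_HH cc cc_pos i j hij) ω
  rw [h1, h2, h3, Fintype.sum_sum_type]
  rw [ENNReal.div_eq_inv_mul, mul_add, Finset.mul_sum, Finset.mul_sum]
  have half : ∀ m : ℝ≥0∞, (1/2 : ℝ≥0) • m = 2⁻¹ * m := by
    intro m
    rw [ENNReal.smul_def, smul_eq_mul]
    congr 1
    simp
  congr 1
  · refine Finset.sum_congr rfl (fun i _ => ?_)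
    have : nv2 (Sum.inl i) = nv i := rfl
    rw [this]
    split_ifs with h
    · rw [facet_measure_inl, half]
    · simp
  · refine Finset.sum_congr rfl (fun i _ => ?_)
    have : nv2 (Sum.inr i) = - nv i := rfl
    rw [this]
    split_ifs with h
    · rw [facet_measure_inr, half, facet_negK, IsometryEquiv.hausdorffMeasure_image]
    · simp

end Pool.Agent.H9.Blaschke
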