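import Mathlib
import Pool.Agent.H9.BlaschkeDefs
import Pool.Agent.H9.BlaschkeArea

set_option autoImplicit false

open MeasureTheory Set
open scoped RealInnerProductSpace Pointwise ENNReal NNReal

namespace Pool.Agent.H9.Blaschke

lemma bounded_of (S : Set (E 4)) (h : ∀ x ∈ S, ∀ i, |x i| ≤ 1) : Bornology.IsBounded S := by
  rw [isBounded_iff_forall_norm_le]
  refine ⟨2, fun x hx => ?_⟩
  have h1 : ‖x‖^2 ≤ 4 := by
    rw [EuclideanSpace.norm_sq_eq, Fin.sum_univ_four]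
    have : ∀ i, ‖x i‖^2 ≤ 1 := by
      intro i
      rw [Real.norm_eq_abs]
      have := h x hx i
      have h0 := abs_nonneg (x i)
      nlinarith
    linarith [this 0, this 1, this 2, this 3]
  have h0 := norm_nonneg x
  nlinarith

lemma HH_scale (c : ℝ) (hc : 0 < c) : HH c = c • HH 1 := by
  have hb : ∀ k, bH2 c k = c * bH2 1 k := by
    intro k
    rcases k with k | k <;> simp [bH2]
  ext x
  rw [Set.mem_smul_set_iff_inv_smul_mem₀ hc.ne']
  have hk : ∀ k, (⟪nv2 k, c⁻¹ • x⟫ ≤ bH2 1 k ↔ ⟪nv2 k, x⟫ ≤ bH2 c k) := by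
    intro k
    rw [inner_smul_right, hb, inv_mul_le_iff₀ hc]
  show (∀ k, _) ↔ (∀ k, _)
  simp only [hk]

lemma KK_body : IsConvexBody KK := by
  refine ⟨poly_convex _ _, ?_, ?_⟩
  · apply Metric.isCompact_of_isClosed_isBounded (poly_closed _ _)
    apply bounded_of
    intro x hx i
    have hx' := (mem_KK x).1 hx
    obtain ⟨⟨h1, h2, h3⟩, h4, h5, h6⟩ := hx'
    rw [abs_le]
    fin_cases i
    · show -1 ≤ x 0 ∧ x 0 ≤ 1
      constructor <;> linarith
    · show -1 ≤ x 1 ∧ x 1 ≤ 1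
      constructor <;> linarith
    · show -1 ≤ x 2 ∧ x 2 ≤ 1
      constructor <;> linarith
    · show -1 ≤ x 3 ∧ x 3 ≤ 1
      constructor <;> linarith
  · refine ⟨!₂[1/4, 1/4, 1/4, 1/4], strict_interior _ _ _ ?_⟩
    have hr := r_pos
    rintro ⟨s, i⟩
    fin_cases s
    · simp only [Fin.zero_eta]
      rw [inner0]
      fin_cases i <;> simp [L, bT] <;> linarith
    · simp only [Fin.mk_one]
      rw [inner1]
      fin_cases i <;> simp [L, bT] <;> linarith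

lemma HH_body (c : ℝ) (hc : 0 < c) : IsConvexBody (HH c) := by
  refine ⟨poly_convex _ _, ?_, ?_⟩
  · rw [HH_scale c hc]
    apply IsCompact.smul
    apply Metric.isCompact_of_isClosed_isBounded (poly_closed _ _)
    apply bounded_of
    intro x hx i
    have hx' := (mem_HH1 x).1 hx
    obtain ⟨⟨h1, h2, h3, h4, h5, h6⟩, g1, g2, g3, g4, g5, g6⟩ := hx'
    rw [abs_le]
    fin_cases i
    · show -1 ≤ x 0 ∧ x 0 ≤ 1
      constructor <;> linarith
    · show -1 ≤ x 1 ∧ x 1 ≤ 1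
      constructor <;> linarith
    · show -1 ≤ x 2 ∧ x 2 ≤ 1
      constructor <;> linarith
    · show -1 ≤ x 3 ∧ x 3 ≤ 1
      constructor <;> linarith
  · refine ⟨0, strict_interior _ _ _ ?_⟩
    intro k
    rw [inner_zero_right]
    rcases k with k | k <;> simp only [bH2, Sum.elim_inl, Sum.elim_inr] <;>
      exact mul_pos hc (bH_pos _)

lemma HH_symm (c : ℝ) : -(HH c) = HH c := by
  ext x
  rw [Set.mem_neg]
  show (∀ k, _) ↔ (∀ k, _)
  rw [Sum.forall, Sum.forall]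
  simp only [nv2, bH2, Sum.elim_inl, Sum.elim_inr, inner_neg_left, inner_neg_right, neg_neg]
  exact and_comm

/-- planar difference -/
lemma Hx_diff (x y : ℝ) (h : Hx x y) : ∃ a b a' b' : ℝ, T a b ∧ T a' b' ∧ 2 * x = a - a' ∧
    2 * y = b - b' := by
  obtain ⟨h1, h2, h3, h4, h5, h6⟩ := h
  rcases le_total 0 x with hx | hx <;> rcases le_total 0 y with hy | hy
  · exact ⟨2*x, 2*y, 0, 0, ⟨by linarith, by linarith, by linarith⟩,
      ⟨by linarith, by linarith, by linarith⟩, by ring, by ring⟩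
  · exact ⟨2*x, 0, 0, -2*y, ⟨by linarith, by linarith, by linarith⟩,
      ⟨by linarith, by linarith, by linarith⟩, by ring, by ring⟩
  · exact ⟨0, 2*y, -2*x, 0, ⟨by linarith, by linarith, by linarith⟩,
      ⟨by linarith, by linarith, by linarith⟩, by ring, by ring⟩
  · exact ⟨0, 0, -2*x, -2*y, ⟨by linarith, by linarith, by linarith⟩,
      ⟨by linarith, by linarith, by linarith⟩, by ring, by ring⟩

lemma symmetral : centralSymmetral KK = HH 1 := by
  unfold centralSymmetral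
  ext x
  constructor
  · rw [Set.mem_smul_set]
    rintro ⟨y, hy, rfl⟩
    rw [Set.mem_add] at hy
    obtain ⟨p, hp, q, hq, rfl⟩ := hy
    rw [Set.mem_neg, mem_KK] at hq
    rw [mem_KK] at hp
    rw [mem_HH1]
    obtain ⟨⟨p1, p2, p3⟩, p4, p5, p6⟩ := hp
    obtain ⟨⟨q1, q2, q3⟩, q4, q5, q6⟩ := hq
    simp only [PiLp.neg_apply] at q1 q2 q3 q4 q5 q6
    simp only [PiLp.smul_apply, PiLp.add_apply, smul_eq_mul]
    refine ⟨⟨?_, ?_, ?_, ?_, ?_, ?_⟩, ?_, ?_, ?_, ?_, ?_, ?_⟩ <;> linarith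
  · intro hx
    rw [mem_HH1] at hx
    obtain ⟨a, b, a', b', h1, h2, h3, h4⟩ := Hx_diff _ _ hx.1
    obtain ⟨c, d, c', d', g1, g2, g3, g4⟩ := Hx_diff _ _ hx.2
    rw [Set.mem_smul_set]
    refine ⟨!₂[a, b, c, d] + -!₂[a', b', c', d'], ?_, ?_⟩
    · rw [Set.mem_add]
      refine ⟨_, ?_, _, ?_, rfl⟩
      · rw [mem_KK]; exact ⟨h1, g1⟩
      · rw [Set.mem_neg, neg_neg, mem_KK]; exact ⟨h2, g2⟩
    · ext i
      fin_cases i
      · simp; linarith
      · simp; linarith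
      · simp; linarith
      · simp; linarith

lemma not_cs : ¬ CentrallySymmetric KK := by
  rintro ⟨v, hv⟩
  have h0 : (0 : E 4) + v ∈ -KK := by
    rw [← hv]
    refine ⟨0, ?_, rfl⟩
    rw [mem_KK]; simp [T]
  have h1 : !₂[(1:ℝ), 0, 0, 0] + v ∈ -KK := by
    rw [← hv]
    refine ⟨!₂[(1:ℝ), 0, 0, 0], ?_, rfl⟩
    rw [mem_KK]; simp [T]
  have h2 : !₂[(0:ℝ), 1, 0, 0] + v ∈ -KK := by
    rw [← hv]
    refine ⟨!₂[(0:ℝ), 1, 0, 0], ?_, rfl⟩
    rw [mem_KK]; simp [T]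
  rw [Set.mem_neg, mem_KK] at h0 h1 h2
  have a0 := h0.1.2.2
  have a1 := h1.1.1
  have a2 := h2.1.2.1
  simp only [PiLp.neg_apply, PiLp.add_apply, PiLp.zero_apply] at a0 a1 a2
  simp at a0 a1 a2
  linarith

theorem main : ∃ K N : Set (E 4), IsConvexBody K ∧ IsBlaschkeBody K N ∧
    Homothetic N (centralSymmetral K) ∧ ¬ CentrallySymmetric K := by
  refine ⟨KK, HH cc, KK_body, ⟨HH_body cc cc_pos, HH_symm cc, fun ω _ _ => area_identity ω⟩,
    ⟨cc, cc_pos, 0, ?_⟩, not_cs⟩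
  rw [symmetral, HH_scale cc cc_pos]
  ext x
  simp [Set.mem_smul_set]

end Pool.Agent.H9.Blaschke
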