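import Mathlib

/-! Definitions for MP_eb4cdf_pr: speed allocation in tandem flow lines. -/

namespace Bowl

open MeasureTheory

/-- Buffer size and blocking regime: unlimited buffers (`b = ∞`), or common finite buffer size `b`
with manufacturing or communications blocking. -/
inductive Regime
  | unlimited
  | manufacturing (b : ℕ)
  | communications (b : ℕ)

/-- Row `i+1` of the departure times, `depRow r m T D i j = D_{i+1,j}`, computed from the previous
rows `D` (jobs `≥ 1`, stations `1 ≤ j ≤ m`, processing times `T i j`). Terms with index `0` (or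
negative) are `0`, and station `m` is never blocked. In row `i+1` the blocking term
`D_{(i+1)-b-1, (j+1)+1}` is `D_{i-b, j+2}`. -/
noncomputable def depRow (r : Regime) (m : ℕ) (T D : ℕ → ℕ → ℝ) (i : ℕ) : ℕ → ℝ
  | 0 => 0
  | j + 1 =>
    match r with
    | .unlimited =>
        max (depRow r m T D i j) (D i (j + 1)) + T (i + 1) (j + 1)
    | .manufacturing b =>
        max (max (depRow r m T D i j + T (i + 1) (j + 1)) (D i (j + 1) + T (i + 1) (j + 1)))
          (if j + 1 < m then D (i - b) (j + 2) else 0)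
    | .communications b =>
        max (max (depRow r m T D i j) (D i (j + 1)))
          (if j + 1 < m then D (i - b) (j + 2) else 0) + T (i + 1) (j + 1)

/-- The table of the departure times of the first `k` jobs: `depTable r m T k i j = D_{i,j}` for
`i ≤ k`. Row `0` is `0`. -/
noncomputable def depTable (r : Regime) (m : ℕ) (T : ℕ → ℕ → ℝ) : ℕ → ℕ → ℕ → ℝ
  | 0 => fun _ _ => 0
  | k + 1 => fun i j =>
      if i = k + 1 then depRow r m T (depTable r m T k) k j else depTable r m T k i j

/-- Departure times `D_{i,j}`. -/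
noncomputable def dep (r : Regime) (m : ℕ) (T : ℕ → ℕ → ℝ) (i j : ℕ) : ℝ :=
  depTable r m T i i j

/-- Processing times `X_{i,j} / s_j` in 1-based indexing. -/
noncomputable def procTime {n m : ℕ} (X : Fin n × Fin m → ℝ) (s : Fin m → ℝ) (i j : ℕ) : ℝ :=
  if h : 1 ≤ i ∧ i ≤ n ∧ 1 ≤ j ∧ j ≤ m then
    X (⟨i - 1, by omega⟩, ⟨j - 1, by omega⟩) / s ⟨j - 1, by omega⟩
  else 0

/-- The makespan `D_{n,m}`. -/
noncomputable def makespan (r : Regime) {n m : ℕ} (X : Fin n × Fin m → ℝ) (s : Fin m → ℝ) : ℝ :=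
  dep r m (procTime X s) n m

/-- The expected makespan `F(s)`, when the works `X_{i,j}` are i.i.d. with law `ν`. -/
noncomputable def expMakespan (r : Regime) (ν : Measure ℝ) (n m : ℕ) (s : Fin m → ℝ) : ℝ :=
  ∫ X : Fin n × Fin m → ℝ, makespan r X s ∂(Measure.pi fun _ => ν)

/-- A speed allocation: positive speeds with sum one. -/
def IsAlloc {m : ℕ} (s : Fin m → ℝ) : Prop := (∀ j, 0 < s j) ∧ ∑ j, s j = 1

/-- Bowl-shaped: symmetric, and `s_1 ≤ s_2 ≤ ... ≤ s_{⌈m/2⌉}`. -/
def BowlShaped {m : ℕ} (s : Fin m → ℝ) : Prop :=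
  (∀ j, s j.rev = s j) ∧ ∀ j k : Fin m, j ≤ k → (k : ℕ) + 1 ≤ (m + 1) / 2 → s j ≤ s k

/-- An optimal allocation: a minimiser of the expected makespan. -/
def IsOptimal (r : Regime) (ν : Measure ℝ) (n m : ℕ) (s : Fin m → ℝ) : Prop :=
  IsAlloc s ∧ ∀ s' : Fin m → ℝ, IsAlloc s' → expMakespan r ν n m s ≤ expMakespan r ν n m s'

/-- The statement of Q1: for all `n, m`, every distribution of the i.i.d. nonnegative processing
times with finite mean, and every buffer size and blocking regime, some optimal allocation is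
bowl-shaped. -/
def Q1 : Prop :=
  ∀ n m : ℕ, 1 ≤ n → 1 ≤ m → ∀ ν : Measure ℝ, IsProbabilityMeasure ν → (∀ᵐ x ∂ν, 0 ≤ x) →
    Integrable (fun x : ℝ => x) ν → ∀ r : Regime, ∃ s : Fin m → ℝ,
      IsOptimal r ν n m s ∧ BowlShaped s

end Bowl
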