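import Mathlib
import Pool.Agent.H9.BowlDefs

namespace Bowl

open MeasureTheory

/-! ### The recursion for two jobs and three stations -/

theorem depTable_le (r : Regime) (m : ℕ) (T : ℕ → ℕ → ℝ) (k i : ℕ) (h : i ≤ k) (j : ℕ) :
    depTable r m T k i j = dep r m T i j := by
  unfold dep
  induction k with
  | zero =>
    have : i = 0 := by omega
    rw [this]
  | succ k ih =>
    rcases Nat.lt_or_ge i (k+1) with h1 | h1
    · have e : depTable r m T (k+1) i j = depTable r m T k i j := by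
        show (if i = k + 1 then _ else _) = _
        rw [if_neg (by omega)]
      rw [e]
      exact ih (by omega)
    · have : i = k + 1 := by omega
      rw [this]

theorem dep_zero (r : Regime) (m : ℕ) (T : ℕ → ℕ → ℝ) (j : ℕ) : dep r m T 0 j = 0 := rfl

theorem dep_succ (r : Regime) (m : ℕ) (T : ℕ → ℕ → ℝ) (i j : ℕ) :
    dep r m T (i+1) j = depRow r m T (depTable r m T i) i j := by
  unfold dep
  show (if i + 1 = i + 1 then _ else _) = _
  rw [if_pos rfl]

theorem dep_zero' (r : Regime) (m : ℕ) (T : ℕ → ℕ → ℝ) (i : ℕ) : dep r m T i 0 = 0 := by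
  cases i with
  | zero => rfl
  | succ i => rw [dep_succ]; rfl

theorem dep_unl (m : ℕ) (T : ℕ → ℕ → ℝ) (i j : ℕ) :
    dep .unlimited m T (i+1) (j+1) =
      max (dep .unlimited m T (i + 1) j) (dep .unlimited m T i (j + 1)) + T (i + 1) (j + 1) := by
  rw [dep_succ, dep_succ]
  rfl

theorem dep_man (b m : ℕ) (T : ℕ → ℕ → ℝ) (i j : ℕ) :
    dep (.manufacturing b) m T (i+1) (j+1) =
      max (max (dep (.manufacturing b) m T (i + 1) j + T (i + 1) (j + 1))
        (dep (.manufacturing b) m T i (j + 1) + T (i + 1) (j + 1)))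
          (if j + 1 < m then dep (.manufacturing b) m T (i - b) (j + 2) else 0) := by
  rw [dep_succ, dep_succ, ← depTable_le _ _ _ i (i - b) (Nat.sub_le i b)]
  rfl

theorem dep_com (b m : ℕ) (T : ℕ → ℕ → ℝ) (i j : ℕ) :
    dep (.communications b) m T (i+1) (j+1) =
      max (max (dep (.communications b) m T (i + 1) j) (dep (.communications b) m T i (j + 1)))
          (if j + 1 < m then dep (.communications b) m T (i - b) (j + 2) else 0)
          + T (i + 1) (j + 1) := by
  rw [dep_succ, dep_succ, ← depTable_le _ _ _ i (i - b) (Nat.sub_le i b)]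
  rfl

/-- explicit value -/
noncomputable def mk (T : ℕ → ℕ → ℝ) : ℝ :=
  T 1 1 + max (max (T 2 1 + T 2 2) (T 1 2 + T 2 2)) (T 1 2 + T 1 3) + T 2 3

theorem key0 (A b c d : ℝ) : max (A + b) (A + c) + d = A + max (b + d) (c + d) := by
  rw [max_add_add_left, add_assoc, max_add_add_right]

theorem key1 (A X c e f : ℝ) : max (A + X) (A + c + e) + f = A + max X (c + e) + f := by
  rw [add_assoc A c e, max_add_add_left]

theorem dep_eq (r : Regime) (hr : r ≠ .communications 0) (T : ℕ → ℕ → ℝ)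
    (hT : ∀ i j, 0 ≤ T i j) : dep r 3 T 2 3 = mk T := by
  have t11 := hT 1 1
  have t12 := hT 1 2
  have t13 := hT 1 3
  have t21 := hT 2 1
  have t22 := hT 2 2
  have t23 := hT 2 3
  have m1 : 0 ≤ max (T 2 1 + T 2 2) (T 1 2 + T 2 2) := le_max_of_le_left (by linarith)
  have m2 : 0 ≤ max (max (T 2 1 + T 2 2) (T 1 2 + T 2 2)) (T 1 2 + T 1 3) :=
    le_max_of_le_left m1
  unfold mk
  cases r with
  | unlimited =>
    have d11 : dep .unlimited 3 T 1 1 = T 1 1 := by
      rw [dep_unl _ _ 0 0, dep_zero, dep_zero']; simp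
    have d12 : dep .unlimited 3 T 1 2 = T 1 1 + T 1 2 := by
      rw [dep_unl _ _ 0 1, dep_zero, d11, max_eq_left t11]
    have d13 : dep .unlimited 3 T 1 3 = T 1 1 + T 1 2 + T 1 3 := by
      rw [dep_unl _ _ 0 2, dep_zero, d12, max_eq_left (by linarith)]
    have d21 : dep .unlimited 3 T 2 1 = T 1 1 + T 2 1 := by
      rw [dep_unl _ _ 1 0, dep_zero', d11, max_eq_right t11]
    have d22 : dep .unlimited 3 T 2 2 = T 1 1 + max (T 2 1 + T 2 2) (T 1 2 + T 2 2) := by
      rw [dep_unl _ _ 1 1, d21, d12, key0]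
    rw [dep_unl _ _ 1 2, d22, d13, key1]
  | manufacturing b =>
    have d11 : dep (.manufacturing b) 3 T 1 1 = T 1 1 := by
      rw [dep_man b _ _ 0 0, dep_zero, dep_zero', Nat.zero_sub, dep_zero]
      simp [t11]
    have d12 : dep (.manufacturing b) 3 T 1 2 = T 1 1 + T 1 2 := by
      rw [dep_man b _ _ 0 1, dep_zero, d11, Nat.zero_sub, dep_zero, ite_self,
        max_eq_left (show 0 + T 1 2 ≤ T 1 1 + T 1 2 by linarith),
        max_eq_left (by linarith)]
    have d13 : dep (.manufacturing b) 3 T 1 3 = T 1 1 + T 1 2 + T 1 3 := by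
      rw [dep_man b _ _ 0 2, dep_zero, d12, if_neg (by norm_num),
        max_eq_left (show 0 + T 1 3 ≤ T 1 1 + T 1 2 + T 1 3 by linarith),
        max_eq_left (by linarith)]
    rcases b with _ | b
    · have d21 : dep (.manufacturing 0) 3 T 2 1 = T 1 1 + max (T 2 1) (T 1 2) := by
        rw [dep_man 0 _ _ 1 0, dep_zero', d11, if_pos (by norm_num), Nat.sub_zero, d12,
          max_eq_right (show 0 + T 2 1 ≤ T 1 1 + T 2 1 by linarith), max_add_add_left]
      have d22 : dep (.manufacturing 0) 3 T 2 2 = T 1 1 +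
          max (max (T 2 1 + T 2 2) (T 1 2 + T 2 2)) (T 1 2 + T 1 3) := by
        have h1 : T 1 2 ≤ max (T 2 1) (T 1 2) := le_max_right _ _
        rw [dep_man 0 _ _ 1 1, d21, d12, if_pos (by norm_num), Nat.sub_zero, d13,
          max_eq_left (show T 1 1 + T 1 2 + T 2 2 ≤ T 1 1 + max (T 2 1) (T 1 2) + T 2 2 by
            linarith), add_assoc, add_assoc (T 1 1) (T 1 2) (T 1 3), max_add_add_left,
          ← max_add_add_right]
      rw [dep_man 0 _ _ 1 2, d22, d13, if_neg (by norm_num)]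
      have h2 : T 1 2 + T 1 3 ≤ max (max (T 2 1 + T 2 2) (T 1 2 + T 2 2)) (T 1 2 + T 1 3) :=
        le_max_right _ _
      rw [max_eq_left (show T 1 1 + T 1 2 + T 1 3 + T 2 3 ≤ T 1 1 +
        max (max (T 2 1 + T 2 2) (T 1 2 + T 2 2)) (T 1 2 + T 1 3) + T 2 3 by linarith),
        max_eq_left (by linarith)]
    · have hb : 1 - (b + 1) = 0 := by omega
      have d21 : dep (.manufacturing (b+1)) 3 T 2 1 = T 1 1 + T 2 1 := by
        rw [dep_man (b+1) _ _ 1 0, dep_zero', d11, hb, dep_zero, ite_self,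
          max_eq_right (show 0 + T 2 1 ≤ T 1 1 + T 2 1 by linarith), max_eq_left (by linarith)]
      have d22 : dep (.manufacturing (b+1)) 3 T 2 2 = T 1 1 +
          max (T 2 1 + T 2 2) (T 1 2 + T 2 2) := by
        rw [dep_man (b+1) _ _ 1 1, d21, d12, hb, dep_zero, ite_self,
          max_add_add_right, key0, max_eq_left (by linarith)]
      rw [dep_man (b+1) _ _ 1 2, d22, d13, if_neg (by norm_num), max_add_add_right, key1,
        max_eq_left (by linarith)]
  | communications b =>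
    have hb : ∃ c, b = c + 1 := by
      rcases b with _ | c
      · exact absurd rfl hr
      · exact ⟨c, rfl⟩
    obtain ⟨c, rfl⟩ := hb
    have hb : 1 - (c + 1) = 0 := by omega
    have d11 : dep (.communications (c+1)) 3 T 1 1 = T 1 1 := by
      rw [dep_com _ _ _ 0 0, dep_zero, dep_zero', Nat.zero_sub, dep_zero]
      simp
    have d12 : dep (.communications (c+1)) 3 T 1 2 = T 1 1 + T 1 2 := by
      rw [dep_com _ _ _ 0 1, dep_zero, d11, Nat.zero_sub, dep_zero, ite_self,
        max_eq_left t11, max_eq_left t11]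
    have d13 : dep (.communications (c+1)) 3 T 1 3 = T 1 1 + T 1 2 + T 1 3 := by
      rw [dep_com _ _ _ 0 2, dep_zero, d12, if_neg (by norm_num),
        max_eq_left (le_max_right _ _), max_eq_left (by linarith)]
    have d21 : dep (.communications (c+1)) 3 T 2 1 = T 1 1 + T 2 1 := by
      rw [dep_com _ _ _ 1 0, dep_zero', d11, hb, dep_zero, ite_self,
        max_eq_right t11, max_eq_left t11]
    have d22 : dep (.communications (c+1)) 3 T 2 2 = T 1 1 +
          max (T 2 1 + T 2 2) (T 1 2 + T 2 2) := by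
      rw [dep_com _ _ _ 1 1, d21, d12, hb, dep_zero, ite_self,
        max_eq_left (le_max_of_le_left (by linarith)), key0]
    rw [dep_com _ _ _ 1 2, d22, d13, if_neg (by norm_num),
        max_eq_left (le_max_of_le_left (by linarith)), key1]

/-! ### The law of the processing times: uniform on `{100, ..., 107}` -/

noncomputable def κ : Measure (Fin 8) := (PMF.uniformOfFintype (Fin 8)).toMeasure

instance : IsProbabilityMeasure κ := by unfold κ; infer_instance

noncomputable def vl (k : Fin 8) : ℝ := 100 + ((k : ℕ) : ℝ)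

noncomputable def law : Measure ℝ := κ.map vl

theorem vl_meas : Measurable vl := Measurable.of_discrete

instance : IsProbabilityMeasure law := Measure.isProbabilityMeasure_map vl_meas.aemeasurable

theorem κ_singleton (k : Fin 8) : κ {k} = 8⁻¹ := by
  unfold κ
  rw [PMF.toMeasure_apply_singleton _ _ (measurableSet_singleton k), PMF.uniformOfFintype_apply]
  simp

theorem vl_inj : Function.Injective vl := by
  intro a b h
  unfold vl at h
  have : ((a : ℕ) : ℝ) = ((b : ℕ) : ℝ) := by linarith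
  exact Fin.ext (by exact_mod_cast this)

abbrev Om : Type := Fin 2 × Fin 3 → Fin 8

noncomputable def emb (ω : Om) : Fin 2 × Fin 3 → ℝ := fun p => vl (ω p)

theorem emb_me : MeasurableEmbedding emb := by
  refine ⟨?_, Measurable.of_discrete, ?_⟩
  · intro a b h
    funext p
    exact vl_inj (congrFun h p)
  · intro s _
    exact (Set.toFinite (emb '' s)).measurableSet

theorem pi_law : (Measure.pi fun _ : Fin 2 × Fin 3 => law) =
    (Measure.pi fun _ : Fin 2 × Fin 3 => κ).map emb := by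
  have : IsProbabilityMeasure (κ.map vl) := Measure.isProbabilityMeasure_map vl_meas.aemeasurable
  unfold law
  rw [← Measure.pi_map_pi (μ := fun _ => κ) (f := fun _ => vl) (fun _ => vl_meas.aemeasurable)]
  rfl

theorem expMk_eq (r : Regime) (s : Fin 3 → ℝ) :
    expMakespan r law 2 3 s = (8:ℝ)⁻¹ ^ 6 * ∑ ω : Om, makespan r (emb ω) s := by
  unfold expMakespan
  rw [pi_law, emb_me.integral_map, integral_fintype Integrable.of_finite, Finset.mul_sum]
  apply Finset.sum_congr rfl
  intro ω _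
  rw [smul_eq_mul]
  congr 1
  rw [measureReal_def, Measure.pi_singleton]
  simp only [κ_singleton, Finset.prod_const, Finset.card_univ, Fintype.card_prod, Fintype.card_fin]
  rw [ENNReal.toReal_pow, ENNReal.toReal_inv]
  norm_num

theorem law_nonneg : ∀ᵐ x ∂law, 0 ≤ x := by
  unfold law
  rw [ae_map_iff vl_meas.aemeasurable measurableSet_Ici]
  exact Filter.Eventually.of_forall fun k => by unfold vl; positivity

theorem law_int : Integrable (fun x : ℝ => x) law := by
  unfold law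
  rw [integrable_map_measure (by fun_prop) vl_meas.aemeasurable]
  exact Integrable.of_finite

/-! ### Sums -/

/-- coordinates -/
def eqv : Om ≃ Fin 8 × Fin 8 × Fin 8 × Fin 8 × Fin 8 × Fin 8 where
  toFun ω := (ω (0, 0), ω (1, 2), ω (1, 0), ω (1, 1), ω (0, 1), ω (0, 2))
  invFun q p := if p = (0, 0) then q.1 else if p = (1, 2) then q.2.1 else if p = (1, 0) then q.2.2.1
    else if p = (1, 1) then q.2.2.2.1 else if p = (0, 1) then q.2.2.2.2.1 else q.2.2.2.2.2
  left_inv ω := by
    funext ⟨i, j⟩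
    fin_cases i <;> fin_cases j <;> rfl
  right_inv q := rfl

/-- the `R` part -/
noncomputable def Rp (x t : ℝ) (v1 v2 u2 u3 : Fin 8) : ℝ :=
  max (max (vl v1 / x + vl v2 / t) (vl u2 / t + vl v2 / t)) (vl u2 / t + vl u3 / x)

theorem makespan_eq (r : Regime) (hr : r ≠ .communications 0) (ω : Om) (s : Fin 3 → ℝ)
    (hs : ∀ j, 0 < s j) (hsym : s 2 = s 0) :
    makespan r (emb ω) s = vl (ω (0, 0)) / s 0 +
      Rp (s 0) (s 1) (ω (1, 0)) (ω (1, 1)) (ω (0, 1)) (ω (0, 2)) + vl (ω (1, 2)) / s 0 := by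
  unfold makespan
  rw [dep_eq r hr]
  · unfold mk Rp
    have e11 : procTime (emb ω) s 1 1 = vl (ω (0, 0)) / s 0 := rfl
    have e12 : procTime (emb ω) s 1 2 = vl (ω (0, 1)) / s 1 := rfl
    have e13 : procTime (emb ω) s 1 3 = vl (ω (0, 2)) / s 2 := rfl
    have e21 : procTime (emb ω) s 2 1 = vl (ω (1, 0)) / s 0 := rfl
    have e22 : procTime (emb ω) s 2 2 = vl (ω (1, 1)) / s 1 := rfl
    have e23 : procTime (emb ω) s 2 3 = vl (ω (1, 2)) / s 2 := rfl
    rw [e11, e12, e13, e21, e22, e23, hsym]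
  · intro i j
    unfold procTime
    split_ifs with h
    · unfold emb vl
      exact div_nonneg (by positivity) (hs _).le
    · exact le_rfl

theorem sum_vl : ∑ k : Fin 8, vl k = 828 := by
  simp only [vl, Fin.sum_univ_eight]
  norm_num

noncomputable def SR (x t : ℝ) : ℝ :=
  ∑ v1 : Fin 8, ∑ v2 : Fin 8, ∑ u2 : Fin 8, ∑ u3 : Fin 8, Rp x t v1 v2 u2 u3

theorem sum_makespan (r : Regime) (hr : r ≠ .communications 0) (s : Fin 3 → ℝ)
    (hs : ∀ j, 0 < s j) (hsym : s 2 = s 0) :
    ∑ ω : Om, makespan r (emb ω) s = 2 * 8^5 * 828 / s 0 + 64 * SR (s 0) (s 1) := by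
  have h1 : ∑ ω : Om, makespan r (emb ω) s =
      ∑ q : Fin 8 × Fin 8 × Fin 8 × Fin 8 × Fin 8 × Fin 8,
        (vl q.1 / s 0 + Rp (s 0) (s 1) q.2.2.1 q.2.2.2.1 q.2.2.2.2.1 q.2.2.2.2.2 +
          vl q.2.1 / s 0) := by
    apply Fintype.sum_equiv eqv
    intro ω
    rw [makespan_eq r hr ω s hs hsym]
    rfl
  rw [h1]
  simp only [Fintype.sum_prod_type]
  have h2 : ∀ A B : ℝ, ∑ v1 : Fin 8, ∑ v2 : Fin 8, ∑ u2 : Fin 8, ∑ u3 : Fin 8,
      (A + Rp (s 0) (s 1) v1 v2 u2 u3 + B) = 8^4 * A + SR (s 0) (s 1) + 8^4 * B := by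
    intro A B
    simp only [Finset.sum_add_distrib, Finset.sum_const, Finset.card_univ, Fintype.card_fin,
      nsmul_eq_mul, SR]
    push_cast
    ring
  simp only [h2]
  simp only [Finset.sum_add_distrib, Finset.sum_const, Finset.card_univ, Fintype.card_fin,
      nsmul_eq_mul, ← Finset.mul_sum, ← Finset.sum_div, sum_vl]
  push_cast
  ring

theorem F_eq (r : Regime) (hr : r ≠ .communications 0) (s : Fin 3 → ℝ)
    (hs : ∀ j, 0 < s j) (hsym : s 2 = s 0) :
    expMakespan r law 2 3 s = 207 / s 0 + SR (s 0) (s 1) / 4096 := by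
  rw [expMk_eq, sum_makespan r hr s hs hsym]
  ring

/-! selection of a critical path at equal speeds -/

def αn (v1 v2 u2 u3 : Fin 8) : ℕ :=
  if (u2 : ℕ) + v2 ≤ v1 + v2 ∧ (u2 : ℕ) + u3 ≤ v1 + v2 then 100 + v1
  else if (u2 : ℕ) + v2 ≤ u2 + u3 then 100 + u3 else 0

def βn (v1 v2 u2 u3 : Fin 8) : ℕ :=
  if (u2 : ℕ) + v2 ≤ v1 + v2 ∧ (u2 : ℕ) + u3 ≤ v1 + v2 then 100 + v2
  else if (u2 : ℕ) + v2 ≤ u2 + u3 then 100 + u2 else 200 + u2 + v2

theorem sum_α : ∑ v1 : Fin 8, ∑ v2 : Fin 8, ∑ u2 : Fin 8, ∑ u3 : Fin 8, αn v1 v2 u2 u3 = 347370 := by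
  decide +kernel

theorem sum_β : ∑ v1 : Fin 8, ∑ v2 : Fin 8, ∑ u2 : Fin 8, ∑ u3 : Fin 8, βn v1 v2 u2 u3 = 509658 := by
  decide +kernel

theorem Rp_ge (x t : ℝ) (v1 v2 u2 u3 : Fin 8) :
    (αn v1 v2 u2 u3 : ℝ) / x + (βn v1 v2 u2 u3 : ℝ) / t ≤ Rp x t v1 v2 u2 u3 := by
  unfold αn βn Rp
  split_ifs with h1 h2
  · refine le_max_of_le_left (le_max_of_le_left (le_of_eq ?_))
    unfold vl; push_cast; ring
  · refine le_max_of_le_right (le_of_eq ?_)
    unfold vl; push_cast; ring
  · refine le_max_of_le_left (le_max_of_le_right (le_of_eq ?_))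
    unfold vl; push_cast; ring

theorem SR_ge (x t : ℝ) : 347370 / x + 509658 / t ≤ SR x t := by
  have h1 : (347370 : ℝ) = ∑ v1 : Fin 8, ∑ v2 : Fin 8, ∑ u2 : Fin 8, ∑ u3 : Fin 8,
      (αn v1 v2 u2 u3 : ℝ) := by
    have := congrArg (fun n : ℕ => (n : ℝ)) sum_α
    push_cast at this
    exact this.symm
  have h2 : (509658 : ℝ) = ∑ v1 : Fin 8, ∑ v2 : Fin 8, ∑ u2 : Fin 8, ∑ u3 : Fin 8,
      (βn v1 v2 u2 u3 : ℝ) := by
    have := congrArg (fun n : ℕ => (n : ℝ)) sum_β
    push_cast at this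
    exact this.symm
  rw [h1, h2]
  simp only [Finset.sum_div, ← Finset.sum_add_distrib]
  unfold SR
  refine Finset.sum_le_sum fun v1 _ => Finset.sum_le_sum fun v2 _ => Finset.sum_le_sum
    fun u2 _ => Finset.sum_le_sum fun u3 _ => Rp_ge x t v1 v2 u2 u3

/-- value at the better allocation -/
def γn (v1 v2 u2 u3 : Fin 8) : ℕ :=
  max (max (150 * (100 + v1) + 151 * (100 + v2)) (151 * (100 + u2) + 151 * (100 + v2)))
    (151 * (100 + u2) + 150 * (100 + u3))

theorem sum_γ : ∑ v1 : Fin 8, ∑ v2 : Fin 8, ∑ u2 : Fin 8, ∑ u3 : Fin 8, γn v1 v2 u2 u3 =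
    129116976 := by
  decide +kernel

theorem Rp_star (v1 v2 u2 u3 : Fin 8) :
    Rp (151/452) (150/452) v1 v2 u2 u3 = 452/22650 * (γn v1 v2 u2 u3 : ℝ) := by
  unfold Rp γn vl
  rw [Nat.cast_max, Nat.cast_max, mul_max_of_nonneg _ _ (by norm_num),
    mul_max_of_nonneg _ _ (by norm_num)]
  push_cast
  congr 1
  · congr 1 <;> ring
  · ring

theorem SR_star : SR (151/452) (150/452) = 452/22650 * 129116976 := by
  have h := congrArg (fun n : ℕ => (n : ℝ)) sum_γ
  push_cast at h
  rw [← h]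
  unfold SR
  simp only [Rp_star, ← Finset.mul_sum]

/-- the better allocation -/
noncomputable def sStar : Fin 3 → ℝ := ![151/452, 150/452, 151/452]

theorem sStar_alloc : IsAlloc sStar := by
  constructor
  · intro j
    fin_cases j <;> simp [sStar]
  · simp [sStar, Fin.sum_univ_three]
    norm_num

theorem main (r : Regime) (hr : r ≠ .communications 0) (s : Fin 3 → ℝ) (hs : IsAlloc s)
    (hb : BowlShaped s) : expMakespan r law 2 3 sStar < expMakespan r law 2 3 s := by
  obtain ⟨hpos, hsum⟩ := hs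
  have hsym : s 2 = s 0 := hb.1 0
  have h01 : s 0 ≤ s 1 := hb.2 0 1 (by decide) (by decide)
  rw [Fin.sum_univ_three, hsym] at hsum
  rw [F_eq r hr s hpos hsym, F_eq r hr sStar sStar_alloc.1 rfl]
  have e0 : sStar 0 = 151/452 := rfl
  have e1 : sStar 1 = 150/452 := rfl
  rw [e0, e1, SR_star]
  have hx : 0 < s 0 := hpos 0
  have ht : 0 < s 1 := hpos 1
  have hSR := SR_ge (s 0) (s 1)
  set x := s 0 with hxdef
  set t := s 1 with htdef
  -- A/x + B/t ≥ 3 (A + B)
  have key : 3 * (207 * 4096 + 347370 + 509658) ≤ (207 * 4096 + 347370) / x + 509658 / t := by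
    have k1 : (207 * 4096 + 347370) / x - 3 * (207 * 4096 + 347370) =
        (207 * 4096 + 347370) * (1 - 3 * x) / x := by field_simp
    have k2 : 3 * 509658 - 509658 / t = 2 * 509658 * (1 - 3 * x) / t := by
      have : t = 1 - 2 * x := by linarith
      rw [this] at ht ⊢
      field_simp
      ring
    have k3 : 0 ≤ 1 - 3 * x := by linarith
    have k4 : 2 * 509658 * (1 - 3 * x) / t ≤ (207 * 4096 + 347370) * (1 - 3 * x) / x := by
      rw [div_le_div_iff₀ ht hx]
      nlinarith [mul_nonneg k3 hx.le, mul_nonneg k3 (sub_nonneg.mpr h01)]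
    linarith
  have k5 : 207 / x + 347370 / x / 4096 + 509658 / t / 4096 =
      ((207 * 4096 + 347370) / x + 509658 / t) / 4096 := by
    field_simp
  have k6 : 207 / x + SR x t / 4096 ≥ 207 / x + 347370 / x / 4096 + 509658 / t / 4096 := by
    linarith
  have k7 : 207 / (151/452 : ℝ) + 452/22650 * 129116976 / 4096 <
      3 * (207 * 4096 + 347370 + 509658) / 4096 := by norm_num
  linarith

end Bowl
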