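import Pool.Agent.H9.EyeDefs

/-! Part D for MP_794bd6_an: the fixed points of the example and their Lyapunov sums. -/

set_option autoImplicit false

namespace Pool.Agent.H9.Eye

open MeasureTheory Filter Topology

theorem den_posD (s c : ℝ) (h1 : -1 ≤ c) (h2 : c ≤ 1) :
    0 < Real.cosh s - Real.sinh s * c := by
  have e1 : 0 < Real.cosh s - Real.sinh s := by
    rw [Real.cosh_sub_sinh]; positivity
  have e2 : 0 < Real.cosh s + Real.sinh s := by
    rw [Real.cosh_add_sinh]; positivity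
  rcases le_total 0 c with h | h
  · nlinarith [mul_nonneg h e1.le, mul_nonneg (sub_nonneg.2 h2) e2.le]
  · nlinarith [mul_nonneg (neg_nonneg.2 h) e2.le, mul_nonneg (by linarith : (0:ℝ) ≤ 1 + c) e1.le]

theorem hasFDerivAt_A {E : Type*} [NormedAddCommGroup E] [NormedSpace ℝ E] {s x : E → ℝ}
    {s' x' : E →L[ℝ] ℝ} {w : E} (hs : HasFDerivAt s s' w) (hx : HasFDerivAt x x' w)
    (hN : Real.sinh (s w / 2) * Real.sin (x w) = 0) :
    HasFDerivAt (fun v => A (s v) (x v))
      (x' + (2 * (Real.cosh (s w / 2) - Real.sinh (s w / 2) * Real.cos (x w))⁻¹) •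
        ((Real.cosh (s w / 2) * Real.sin (x w) / 2) • s' +
          (Real.sinh (s w / 2) * Real.cos (x w)) • x')) w := by
  have hs2 : HasFDerivAt (fun v => s v / 2) ((2:ℝ)⁻¹ • s') w := by
    have := hs.const_mul ((2:ℝ)⁻¹)
    refine this.congr_of_eventuallyEq ?_
    refine Eventually.of_forall fun v => ?_
    simp only []; ring
  have hden : HasFDerivAt (fun v => Real.cosh (s v / 2) - Real.sinh (s v / 2) * Real.cos (x v)) _ w :=
    hs2.cosh.sub (hs2.sinh.mul hx.cos)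
  have hpos := den_posD (s w / 2) (Real.cos (x w)) (Real.neg_one_le_cos _) (Real.cos_le_one _)
  have hinv : DifferentiableAt ℝ
      (fun v => (Real.cosh (s v / 2) - Real.sinh (s v / 2) * Real.cos (x v))⁻¹) w :=
    hden.differentiableAt.fun_inv hpos.ne'
  have hq := (hs2.sinh.mul hx.sin).mul hinv.hasFDerivAt
  have ha := hq.arctan
  have hfin := hx.add (ha.const_mul 2)
  refine (hfin.congr_of_eventuallyEq ?_).congr_fderiv ?_
  · refine Eventually.of_forall fun v => ?_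
    simp only [A, Pi.mul_apply, Pi.add_apply, div_eq_mul_inv]
  · ext v
    simp [hN]
    ring


/-- the linear map of the plane with matrix `a b; c d` -/
noncomputable def LM (a b c d : ℝ) : ℝ × ℝ →L[ℝ] ℝ × ℝ :=
  (a • ContinuousLinearMap.fst ℝ ℝ ℝ + b • ContinuousLinearMap.snd ℝ ℝ ℝ).prod
    (c • ContinuousLinearMap.fst ℝ ℝ ℝ + d • ContinuousLinearMap.snd ℝ ℝ ℝ)

theorem LM_apply (a b c d : ℝ) (v : ℝ × ℝ) :
    LM a b c d v = (a * v.1 + b * v.2, c * v.1 + d * v.2) := by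
  simp [LM]

theorem LM_det (a b c d : ℝ) :
    LinearMap.det (LM a b c d : ℝ × ℝ →ₗ[ℝ] ℝ × ℝ) = a * d - b * c := by
  have h : (LM a b c d : ℝ × ℝ →ₗ[ℝ] ℝ × ℝ) =
      Matrix.toLin (Module.Basis.finTwoProd ℝ) (Module.Basis.finTwoProd ℝ) !![a, b; c, d] := by
    rw [Matrix.toLin_finTwoProd]
    ext <;> simp [LM_apply]
  rw [h, LinearMap.det_toLin, Matrix.det_fin_two_of]

theorem LM_norm_le (a b c d M : ℝ) (hM : 0 ≤ M) (h1 : |a| + |b| ≤ M) (h2 : |c| + |d| ≤ M) :
    ‖LM a b c d‖ ≤ M := by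
  refine ContinuousLinearMap.opNorm_le_bound _ hM fun v => ?_
  rw [LM_apply]
  have e1 : |v.1| ≤ ‖v‖ := by simpa using norm_fst_le v
  have e2 : |v.2| ≤ ‖v‖ := by simpa using norm_snd_le v
  have key : ∀ p q : ℝ, |p| + |q| ≤ M → |p * v.1 + q * v.2| ≤ M * ‖v‖ := by
    intro p q h
    calc |p * v.1 + q * v.2| ≤ |p * v.1| + |q * v.2| := abs_add_le _ _
      _ = |p| * |v.1| + |q| * |v.2| := by rw [abs_mul, abs_mul]
      _ ≤ |p| * ‖v‖ + |q| * ‖v‖ := by gcongr
      _ = (|p| + |q|) * ‖v‖ := by ring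
      _ ≤ M * ‖v‖ := by gcongr
  rw [Prod.norm_def]
  exact max_le (by simpa using key a b h1) (by simpa using key c d h2)

theorem det_pow_clm (T : ℝ × ℝ →L[ℝ] ℝ × ℝ) (n : ℕ) :
    LinearMap.det ((T ^ n : ℝ × ℝ →L[ℝ] ℝ × ℝ) : ℝ × ℝ →ₗ[ℝ] ℝ × ℝ) =
      LinearMap.det (T : ℝ × ℝ →ₗ[ℝ] ℝ × ℝ) ^ n := by
  induction n with
  | zero => simp
  | succ n ih =>
    rw [pow_succ, pow_succ, ← ih, ← map_mul]
    rfl

theorem tend (w : ℝ × ℝ) (T : ℝ × ℝ →L[ℝ] ℝ × ℝ) (L : ℝ) (h0 : FF w = w)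
    (hT : HasFDerivAt FF T w) (hL0 : 0 ≤ L) (hn : ‖T‖ ≤ Real.exp L)
    (hd : |LinearMap.det (T : ℝ × ℝ →ₗ[ℝ] ℝ × ℝ)| ≤ Real.exp L)
    (hlow : ∀ n : ℕ, Real.exp L ^ n ≤
      max ‖T ^ n‖ |LinearMap.det ((T ^ n : ℝ × ℝ →L[ℝ] ℝ × ℝ) : ℝ × ℝ →ₗ[ℝ] ℝ × ℝ)|) :
    Tendsto (fun n : ℕ => Real.log (normExt (fderiv ℝ (FF^[n]) w)) / n) atTop (𝓝 L) := by
  have hnE : ∀ n : ℕ, normExt (fderiv ℝ (FF^[n]) w) = Real.exp L ^ n := by
    intro n
    rw [(hT.iterate h0 n).fderiv]
    have h1 : (1:ℝ) ≤ Real.exp L ^ n := one_le_pow₀ (Real.one_le_exp hL0)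
    refine le_antisymm ?_ ?_
    · refine max_le h1 (max_le ?_ ?_)
      · rcases Nat.eq_zero_or_pos n with rfl | hpos
        · simp
        · exact (norm_pow_le' T hpos).trans (pow_le_pow_left₀ (norm_nonneg _) hn n)
      · rw [det_pow_clm, abs_pow]
        exact pow_le_pow_left₀ (abs_nonneg _) hd n
    · exact (hlow n).trans (le_max_right _ _)
  refine tendsto_const_nhds.congr' ?_
  filter_upwards [eventually_ge_atTop 1] with n hn1
  rw [hnE, Real.log_pow, Real.log_exp]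
  have : (n : ℝ) ≠ 0 := by positivity
  field_simp


theorem A_of_sin (s x : ℝ) (h : Real.sin x = 0) : A s x = x := by
  simp [A, h]

theorem A_zero_left (x : ℝ) : A 0 x = x := by
  simp [A]

theorem hasFDerivAt_A_sin {E : Type*} [NormedAddCommGroup E] [NormedSpace ℝ E] {s x : E → ℝ}
    {s' x' : E →L[ℝ] ℝ} {w : E} (hs : HasFDerivAt s s' w) (hx : HasFDerivAt x x' w)
    (h : Real.sin (x w) = 0) :
    HasFDerivAt (fun v => A (s v) (x v)) (Real.exp (Real.cos (x w) * s w) • x') w := by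
  have h0 := hasFDerivAt_A hs hx (by rw [h, mul_zero])
  refine h0.congr_fderiv ?_
  have hc : Real.cos (x w) = 1 ∨ Real.cos (x w) = -1 := by
    have := Real.sin_sq_add_cos_sq (x w)
    rw [h] at this
    have h2 : (Real.cos (x w) - 1) * (Real.cos (x w) + 1) = 0 := by nlinarith
    rcases mul_eq_zero.1 h2 with h3 | h3
    · left; linarith
    · right; linarith
  have key : 1 + 2 * (Real.cosh (s w / 2) - Real.sinh (s w / 2) * Real.cos (x w))⁻¹ *
      (Real.sinh (s w / 2) * Real.cos (x w)) = Real.exp (Real.cos (x w) * s w) := by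
    have hpos := den_posD (s w / 2) (Real.cos (x w)) (Real.neg_one_le_cos _) (Real.cos_le_one _)
    rcases hc with hc | hc
    · rw [hc] at hpos ⊢
      have e1 : Real.cosh (s w / 2) - Real.sinh (s w / 2) * 1 = Real.exp (-(s w / 2)) := by
        rw [mul_one, Real.cosh_sub_sinh]
      have e2 : Real.cosh (s w / 2) + Real.sinh (s w / 2) = Real.exp (s w / 2) :=
        Real.cosh_add_sinh _
      have e3 : Real.exp (1 * s w) = Real.exp (s w / 2) * (Real.exp (-(s w / 2)))⁻¹ := by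
        rw [← Real.exp_neg, ← Real.exp_add]; congr 1; ring
      rw [e3, ← e1, ← e2]
      field_simp
      ring
    · rw [hc] at hpos ⊢
      have e1 : Real.cosh (s w / 2) - Real.sinh (s w / 2) * (-1) = Real.exp (s w / 2) := by
        rw [← Real.cosh_add_sinh]; ring
      have e2 : Real.cosh (s w / 2) - Real.sinh (s w / 2) = Real.exp (-(s w / 2)) :=
        Real.cosh_sub_sinh _
      have e3 : Real.exp (-1 * s w) = Real.exp (-(s w / 2)) * (Real.exp (s w / 2))⁻¹ := by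
        rw [← Real.exp_neg, ← Real.exp_add]; congr 1; ring
      rw [e3, ← e1, ← e2]
      field_simp
      ring
  ext v
  rw [← key]
  simp [h]
  ring

theorem hasFDerivAt_A_zero {E : Type*} [NormedAddCommGroup E] [NormedSpace ℝ E] {s x : E → ℝ}
    {s' x' : E →L[ℝ] ℝ} {w : E} (hs : HasFDerivAt s s' w) (hx : HasFDerivAt x x' w)
    (h : s w = 0) :
    HasFDerivAt (fun v => A (s v) (x v)) (x' + Real.sin (x w) • s') w := by
  have h0 := hasFDerivAt_A hs hx (by rw [h]; simp)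
  refine h0.congr_fderiv ?_
  ext v
  simp [h]
  ring

theorem cos_of_sin {x : ℝ} (h : Real.sin x = 0) : Real.cos x = 1 ∨ Real.cos x = -1 := by
  have := Real.sin_sq_add_cos_sq x
  rw [h] at this
  have h2 : (Real.cos x - 1) * (Real.cos x + 1) = 0 := by nlinarith
  rcases mul_eq_zero.1 h2 with h3 | h3
  · left; linarith
  · right; linarith

theorem sin_of_cos {x : ℝ} (h : Real.cos x = 0) : Real.sin x = 1 ∨ Real.sin x = -1 := by
  have := Real.sin_sq_add_cos_sq x
  rw [h] at this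
  have h2 : (Real.sin x - 1) * (Real.sin x + 1) = 0 := by nlinarith
  rcases mul_eq_zero.1 h2 with h3 | h3
  · left; linarith
  · right; linarith

theorem FF_eq (v : ℝ × ℝ) : FF v =
    (A (-el) (2 * A (al * Real.cos v.2) v.1) / 2,
      A (-el) (2 * A (-(al * Real.cos (A (al * Real.cos v.2) v.1))) v.2) / 2) := rfl

/-- derivative at the corners -/
theorem deriv_corner (w : ℝ × ℝ) (h1 : Real.sin w.1 = 0) (h2 : Real.sin w.2 = 0) :
    FF w = w ∧ HasFDerivAt FF
      (LM (Real.exp (al * (Real.cos w.1 * Real.cos w.2) - el)) 0 0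
        (Real.exp (-(al * (Real.cos w.1 * Real.cos w.2)) - el))) w := by
  have d1 : HasFDerivAt (fun v : ℝ × ℝ => v.1) (ContinuousLinearMap.fst ℝ ℝ ℝ) w := hasFDerivAt_fst
  have d2 : HasFDerivAt (fun v : ℝ × ℝ => v.2) (ContinuousLinearMap.snd ℝ ℝ ℝ) w := hasFDerivAt_snd
  have x1 := hasFDerivAt_A_sin (d2.cos.const_mul al) d1 h1
  have v1 : A (al * Real.cos w.2) w.1 = w.1 := A_of_sin _ _ h1
  have y2 := hasFDerivAt_A_sin ((x1.cos.const_mul al).fun_neg) d2 h2
  have v2 : A (-(al * Real.cos (A (al * Real.cos w.2) w.1))) w.2 = w.2 := A_of_sin _ _ h2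
  have v3 : A (-(al * Real.cos w.1)) w.2 = w.2 := A_of_sin _ _ h2
  have s1 : Real.sin (2 * w.1) = 0 := by rw [Real.sin_two_mul, h1]; ring
  have s2 : Real.sin (2 * w.2) = 0 := by rw [Real.sin_two_mul, h2]; ring
  have c1 : Real.cos (2 * w.1) = 1 := by
    rw [Real.cos_two_mul]
    rcases cos_of_sin h1 with h | h <;> rw [h] <;> norm_num
  have c2 : Real.cos (2 * w.2) = 1 := by
    rw [Real.cos_two_mul]
    rcases cos_of_sin h2 with h | h <;> rw [h] <;> norm_num
  have x3 := hasFDerivAt_A_sin (hasFDerivAt_const (-el) w) (x1.const_mul 2)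
    (by simp only [v1]; exact s1)
  have y3 := hasFDerivAt_A_sin (hasFDerivAt_const (-el) w) (y2.const_mul 2)
    (by simp only [v2]; exact s2)
  refine ⟨?_, ?_⟩
  · rw [FF_eq, v2, v1, A_of_sin _ _ s1, A_of_sin _ _ s2]
    ext <;> simp
  · have hp := (x3.const_mul (2:ℝ)⁻¹).prodMk (y3.const_mul (2:ℝ)⁻¹)
    refine (hp.congr_of_eventuallyEq ?_).congr_fderiv ?_
    · refine Eventually.of_forall fun v => ?_
      rw [FF_eq]
      simp only [div_eq_inv_mul]
    · have e1 : Real.exp (al * (Real.cos w.1 * Real.cos w.2) - el) =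
          Real.exp (-el) * Real.exp (Real.cos w.1 * (al * Real.cos w.2)) := by
        rw [← Real.exp_add]; congr 1; ring
      have e2 : Real.exp (-(al * (Real.cos w.1 * Real.cos w.2)) - el) =
          Real.exp (-el) * Real.exp (Real.cos w.2 * -(al * Real.cos w.1)) := by
        rw [← Real.exp_add]; congr 1; ring
      rw [e1, e2]
      refine ContinuousLinearMap.ext fun v => ?_
      rw [LM_apply]
      simp only [v1, v3, c1, c2]
      ext <;> simp <;> ring

/-- derivative at the centers -/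
theorem deriv_center (w : ℝ × ℝ) (h1 : Real.cos w.1 = 0) (h2 : Real.cos w.2 = 0) :
    FF w = w ∧ ∃ k : ℝ, |k| = al ∧ HasFDerivAt FF
      (LM (Real.exp el) (-(k * Real.exp el)) (k * Real.exp el)
        ((1 - k ^ 2) * Real.exp el)) w := by
  have d1 : HasFDerivAt (fun v : ℝ × ℝ => v.1) (ContinuousLinearMap.fst ℝ ℝ ℝ) w := hasFDerivAt_fst
  have d2 : HasFDerivAt (fun v : ℝ × ℝ => v.2) (ContinuousLinearMap.snd ℝ ℝ ℝ) w := hasFDerivAt_snd
  have x1 := hasFDerivAt_A_zero (d2.cos.const_mul al) d1 (by rw [h2]; ring)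
  have v1 : A (al * Real.cos w.2) w.1 = w.1 := by rw [h2, mul_zero, A_zero_left]
  have y2 := hasFDerivAt_A_zero ((x1.cos.const_mul al).fun_neg) d2 (by
    simp only [v1]; rw [h1]; ring)
  have v2 : A (-(al * Real.cos (A (al * Real.cos w.2) w.1))) w.2 = w.2 := by
    rw [v1, h1, mul_zero, neg_zero, A_zero_left]
  have v3 : A (-(al * Real.cos w.1)) w.2 = w.2 := by
    rw [h1, mul_zero, neg_zero, A_zero_left]
  have s1 : Real.sin (2 * w.1) = 0 := by rw [Real.sin_two_mul, h1]; ring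
  have s2 : Real.sin (2 * w.2) = 0 := by rw [Real.sin_two_mul, h2]; ring
  have c1 : Real.cos (2 * w.1) = -1 := by
    rw [Real.cos_two_mul, h1]; norm_num
  have c2 : Real.cos (2 * w.2) = -1 := by
    rw [Real.cos_two_mul, h2]; norm_num
  have x3 := hasFDerivAt_A_sin (hasFDerivAt_const (-el) w) (x1.const_mul 2)
    (by simp only [v1]; exact s1)
  have y3 := hasFDerivAt_A_sin (hasFDerivAt_const (-el) w) (y2.const_mul 2)
    (by simp only [v2]; exact s2)
  refine ⟨?_, al * (Real.sin w.1 * Real.sin w.2), ?_, ?_⟩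
  · rw [FF_eq, v2, v1, A_of_sin _ _ s1, A_of_sin _ _ s2]
    ext <;> simp
  · have hal : (0:ℝ) ≤ al := by unfold al; norm_num
    rcases sin_of_cos h1 with h | h <;> rcases sin_of_cos h2 with h' | h' <;>
      simp [h, h', abs_of_nonneg hal]
  · have hp := (x3.const_mul (2:ℝ)⁻¹).prodMk (y3.const_mul (2:ℝ)⁻¹)
    refine (hp.congr_of_eventuallyEq ?_).congr_fderiv ?_
    · refine Eventually.of_forall fun v => ?_
      rw [FF_eq]
      simp only [div_eq_inv_mul]
    · refine ContinuousLinearMap.ext fun v => ?_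
      rw [LM_apply]
      simp only [v1, v3, c1, c2]
      ext <;> simp <;> ring

theorem pow_le_norm_of_eigen (T : ℝ × ℝ →L[ℝ] ℝ × ℝ) (e : ℝ × ℝ) (c : ℝ) (hc : 0 ≤ c)
    (he : e ≠ 0) (h : T e = c • e) (n : ℕ) : c ^ n ≤ ‖T ^ n‖ := by
  have h1 : (T ^ n) e = c ^ n • e := by
    induction n with
    | zero => simp
    | succ n ih =>
      rw [pow_succ, ContinuousLinearMap.mul_apply, h, map_smul, ih, smul_smul]
      congr 1
      ring
  have h2 := (T ^ n).le_opNorm e
  rw [h1, norm_smul, Real.norm_of_nonneg (pow_nonneg hc n)] at h2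
  exact le_of_mul_le_mul_right h2 (norm_pos_iff.2 he)

theorem chi_corner (w : ℝ × ℝ) (h1 : Real.sin w.1 = 0) (h2 : Real.sin w.2 = 0) :
    FF w = w ∧ Tendsto (fun n : ℕ => Real.log (normExt (fderiv ℝ (FF^[n]) w)) / n) atTop
      (𝓝 (al - el)) := by
  obtain ⟨h0, hT⟩ := deriv_corner w h1 h2
  have hal : al = 1 / 5 := rfl
  have hel : el = 19 / 100 := rfl
  set q : ℝ := Real.cos w.1 * Real.cos w.2 with hq
  have hq1 : q = 1 ∨ q = -1 := by
    rcases cos_of_sin h1 with h | h <;> rcases cos_of_sin h2 with h' | h' <;>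
      rw [hq, h, h'] <;> norm_num
  have hqle : q ≤ 1 := by rcases hq1 with h | h <;> rw [h]; norm_num
  have hqge : -1 ≤ q := by rcases hq1 with h | h <;> rw [h]; norm_num
  refine ⟨h0, tend w _ (al - el) h0 hT (by rw [hal, hel]; norm_num) ?_ ?_ ?_⟩
  · refine LM_norm_le _ _ _ _ _ (Real.exp_pos _).le ?_ ?_
    · rw [abs_zero, add_zero, abs_of_pos (Real.exp_pos _)]
      refine Real.exp_le_exp.2 ?_
      rw [hal, hel]; linarith
    · rw [abs_zero, zero_add, abs_of_pos (Real.exp_pos _)]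
      refine Real.exp_le_exp.2 ?_
      rw [hal, hel]; linarith
  · rw [LM_det, mul_zero, sub_zero, ← Real.exp_add, abs_of_pos (Real.exp_pos _)]
    refine Real.exp_le_exp.2 ?_
    rw [hal, hel]; linarith
  · intro n
    refine le_trans ?_ (le_max_left _ _)
    rcases hq1 with h | h
    · refine pow_le_norm_of_eigen _ ((1 : ℝ), (0 : ℝ)) _ (Real.exp_pos _).le ?_ ?_ n
      · intro hh
        have := congrArg Prod.fst hh
        simp at this
      · rw [LM_apply, h]
        ext <;> simp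
    · refine pow_le_norm_of_eigen _ ((0 : ℝ), (1 : ℝ)) _ (Real.exp_pos _).le ?_ ?_ n
      · intro hh
        have := congrArg Prod.snd hh
        simp at this
      · rw [LM_apply, h]
        ext <;> simp

theorem chi_center (w : ℝ × ℝ) (h1 : Real.cos w.1 = 0) (h2 : Real.cos w.2 = 0) :
    FF w = w ∧ Tendsto (fun n : ℕ => Real.log (normExt (fderiv ℝ (FF^[n]) w)) / n) atTop
      (𝓝 (2 * el)) := by
  obtain ⟨h0, k, hk, hT⟩ := deriv_center w h1 h2
  have hal : al = 1 / 5 := rfl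
  have hel : el = 19 / 100 := rfl
  have hk2 : k ^ 2 = 1 / 25 := by
    rw [← sq_abs, hk, hal]; norm_num
  have hE : (6 / 5 : ℝ) ≤ Real.exp el := by
    have := Real.quadratic_le_exp_of_nonneg (x := el) (by rw [hel]; norm_num)
    refine le_trans ?_ this
    rw [hel]; norm_num
  have hpos := Real.exp_pos el
  have hE2 : Real.exp (2 * el) = Real.exp el * Real.exp el := by
    rw [← Real.exp_add]; congr 1; ring
  have hdet : LinearMap.det ((LM (Real.exp el) (-(k * Real.exp el)) (k * Real.exp el)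
        ((1 - k ^ 2) * Real.exp el) : ℝ × ℝ →L[ℝ] ℝ × ℝ) : ℝ × ℝ →ₗ[ℝ] ℝ × ℝ) =
        Real.exp (2 * el) := by
    rw [LM_det, hE2]; ring
  refine ⟨h0, tend w _ (2 * el) h0 hT (by rw [hel]; norm_num) ?_ ?_ ?_⟩
  · refine LM_norm_le _ _ _ _ _ (Real.exp_pos _).le ?_ ?_
    · rw [abs_neg, abs_mul, abs_of_pos hpos, hk, hE2, hal]
      nlinarith
    · rw [abs_mul, abs_mul, abs_of_pos hpos, hk, hE2, hal, hk2,
        abs_of_pos (by norm_num : (0:ℝ) < 1 - 1 / 25)]
      nlinarith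
  · rw [hdet, abs_of_pos (Real.exp_pos _)]
  · intro n
    refine le_trans ?_ (le_max_right _ _)
    rw [det_pow_clm, hdet, abs_pow, abs_of_pos (Real.exp_pos _)]

end Pool.Agent.H9.Eye
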