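import Mathlib

/-! Definitions for MP_794bd6_an: entropy, the sum of the positive Lyapunov exponents for a
diffeomorphism of the two-torus, and the example. -/

set_option autoImplicit false

namespace Pool.Agent.H9.Eye

open MeasureTheory Filter Topology
open scoped ContDiff

/-! ### Kolmogorov-Sinai entropy -/

section Entropy
variable {M : Type*} [MeasurableSpace M]

/-- the itinerary of length `n` of `z` with respect to the finite partition `ξ` -/
def itin (f : M → M) {k : ℕ} (ξ : M → Fin k) (n : ℕ) (z : M) : Fin n → Fin k :=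
  fun i => ξ (f^[i] z)

/-- Shannon entropy `H(ξ ∨ f⁻¹ ξ ∨ ⋯ ∨ f^{-(n-1)} ξ)` -/
noncomputable def blockEntropy (f : M → M) (ρ : Measure M) {k : ℕ} (ξ : M → Fin k) (n : ℕ) : ℝ :=
  ∑ w : Fin n → Fin k, Real.negMulLog (ρ.real {z | itin f ξ n z = w})

/-- Kolmogorov-Sinai entropy: the supremum over all finite measurable partitions of
`lim (1/n) H(ξ ∨ ⋯ ∨ f^{-(n-1)} ξ)`. -/
noncomputable def entropy (f : M → M) (ρ : Measure M) : EReal :=
  ⨆ (k : ℕ) (ξ : M → Fin k) (_ : Measurable ξ),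
    limsup (fun n : ℕ => ((blockEntropy f ρ ξ n / n : ℝ) : EReal)) atTop

end Entropy

/-! ### The two-torus -/

/-- the circle `ℝ / 2πℤ` -/
abbrev T1 : Type := AddCircle (2 * Real.pi)

/-- the two-torus `(ℝ / 2πℤ)²` -/
abbrev T2 : Type := T1 × T1

/-- the covering map `ℝ² → (ℝ / 2πℤ)²` -/
noncomputable def proj (w : ℝ × ℝ) : T2 := ((w.1 : T1), (w.2 : T1))

/-- `(f, F)` is a diffeomorphism of class `C^ω` (real analytic) of the two-torus together with a lift: `f` is a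
homeomorphism of the torus and `F` is a real analytic diffeomorphism of the plane covering `f`. -/
structure IsTorusDiffeo (f : T2 ≃ₜ T2) (F : ℝ × ℝ ≃ ℝ × ℝ) : Prop where
  smooth : ContDiff ℝ ω (F : ℝ × ℝ → ℝ × ℝ)
  smooth_symm : ContDiff ℝ ω (F.symm : ℝ × ℝ → ℝ × ℝ)
  lift : ∀ w, proj (F w) = f (proj w)

/-- `‖Λ T‖` for a linear map `T` of the plane: the exterior algebra is `ℝ ⊕ ℝ² ⊕ ℝ` and `Λ T` acts
by `1`, `T` and `det T`. -/
noncomputable def normExt (T : ℝ × ℝ →L[ℝ] ℝ × ℝ) : ℝ :=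
  max 1 (max ‖T‖ |LinearMap.det (T : ℝ × ℝ →ₗ[ℝ] ℝ × ℝ)|)

/-- `χ` is (a version with respect to `ρ` of) the function
`χ₊(z) = lim (1/n) log ‖Λ T_z fⁿ‖`, the sum of the positive Lyapunov exponents. The derivative of
`fⁿ` at `z` is the derivative of the lift `Fⁿ` at any point over `z`. -/
def IsChiPlus (F : ℝ × ℝ → ℝ × ℝ) (ρ : Measure T2) (χ : T2 → ℝ) : Prop :=
  ∀ᵐ z ∂ρ, ∀ w : ℝ × ℝ, proj w = z →
    Tendsto (fun n : ℕ => Real.log (normExt (fderiv ℝ (F^[n]) w)) / n) atTop (𝓝 (χ z))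

/-! ### The example -/

/-- the hyperbolic Mobius flow `tan (X/2) = e^s tan (x/2)` on the circle, lifted to the line -/
noncomputable def A (s x : ℝ) : ℝ :=
  x + 2 * Real.arctan (Real.sinh (s / 2) * Real.sin x /
    (Real.cosh (s / 2) - Real.sinh (s / 2) * Real.cos x))

/-- the parameters -/
noncomputable def al : ℝ := 1 / 5
noncomputable def el : ℝ := 19 / 100

/-- `tan (G x) = e^{-el} tan x` -/
noncomputable def G (x : ℝ) : ℝ := A (-el) (2 * x) / 2

/-- the inverse of `G` -/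
noncomputable def Gi (x : ℝ) : ℝ := A el (2 * x) / 2

noncomputable def S1 (w : ℝ × ℝ) : ℝ × ℝ := (A (al * Real.cos w.2) w.1, w.2)
noncomputable def S2 (w : ℝ × ℝ) : ℝ × ℝ := (w.1, A (-(al * Real.cos w.1)) w.2)
noncomputable def S3 (w : ℝ × ℝ) : ℝ × ℝ := (G w.1, G w.2)

/-- the lift of the example -/
noncomputable def FF (w : ℝ × ℝ) : ℝ × ℝ := S3 (S2 (S1 w))

/-- its inverse -/
noncomputable def FFi (w : ℝ × ℝ) : ℝ × ℝ :=
  let u : ℝ × ℝ := (Gi w.1, Gi w.2)
  let v : ℝ × ℝ := (u.1, A (al * Real.cos u.1) u.2)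
  (A (-(al * Real.cos v.2)) v.1, v.2)

end Pool.Agent.H9.Eye
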