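import Mathlib
import Pool.Agent.H9.EyeDefs

/-! Part E for MP_794bd6_an: a measure carried by fixed points has entropy at most zero. -/

set_option autoImplicit false

namespace Pool.Agent.H9.Eye

open MeasureTheory Filter Topology

theorem blockEntropy_of_fixed {M : Type*} [MeasurableSpace M] (f : M → M) (ρ : Measure M)
    (h : ∀ᵐ z ∂ρ, f z = z) {k : ℕ} (ξ : M → Fin k) (n : ℕ) (hn : 1 ≤ n) :
    blockEntropy f ρ ξ n = ∑ c : Fin k, Real.negMulLog (ρ.real {z | ξ z = c}) := by
  classical
  unfold blockEntropy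
  have h1 : ∀ w : Fin n → Fin k, ρ.real {z | itin f ξ n z = w} =
      ρ.real {z | (fun _ : Fin n => ξ z) = w} := by
    intro w
    unfold Measure.real
    congr 1
    apply measure_congr
    filter_upwards [h] with z hz
    have h2 : itin f ξ n z = fun _ => ξ z := by
      funext i
      unfold itin
      rw [Function.iterate_fixed hz]
    show (itin f ξ n z = w) = ((fun _ : Fin n => ξ z) = w)
    rw [h2]
  symm
  refine Fintype.sum_of_injective (fun c : Fin k => (fun _ : Fin n => c)) ?_ _ _ ?_ ?_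
  · intro c d hcd
    exact congrFun hcd (⟨0, hn⟩ : Fin n)
  · intro w hw
    rw [h1 w]
    have h3 : {z | (fun _ : Fin n => ξ z) = w} = (∅ : Set M) := by
      apply Set.eq_empty_of_forall_notMem
      intro z hz
      exact hw ⟨ξ z, hz⟩
    rw [h3]
    simp
  · intro c
    show Real.negMulLog _ = Real.negMulLog _
    rw [h1]
    congr 2
    ext z
    constructor
    · intro hz
      funext i
      exact hz
    · intro hz
      exact congrFun hz (⟨0, hn⟩ : Fin n)

theorem entropy_nonpos {M : Type*} [MeasurableSpace M] (f : M → M) (ρ : Measure M)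
    [IsProbabilityMeasure ρ] (h : ∀ᵐ z ∂ρ, f z = z) : entropy f ρ ≤ 0 := by
  unfold entropy
  refine iSup_le fun k => iSup_le fun ξ => iSup_le fun _ => ?_
  set C : ℝ := ∑ c : Fin k, Real.negMulLog (ρ.real {z | ξ z = c}) with hC
  have h1 : Tendsto (fun n : ℕ => C / (n : ℝ)) atTop (𝓝 0) :=
    tendsto_const_div_atTop_nhds_zero_nat C
  have h2 : Tendsto (fun n : ℕ => ((C / (n : ℝ) : ℝ) : EReal)) atTop (𝓝 ((0 : ℝ) : EReal)) :=
    (continuous_coe_real_ereal.tendsto 0).comp h1
  have h3 : Tendsto (fun n : ℕ => ((blockEntropy f ρ ξ n / n : ℝ) : EReal)) atTop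
      (𝓝 ((0 : ℝ) : EReal)) := by
    refine h2.congr' ?_
    filter_upwards [eventually_ge_atTop 1] with n hn
    rw [blockEntropy_of_fixed f ρ h ξ n hn]
  rw [h3.limsup_eq]
  simp

end Pool.Agent.H9.Eye
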