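import Pool.Agent.H9.EyeM
import Pool.Agent.H9.EyeE
import Pool.Agent.H9.EyeD

set_option autoImplicit false

namespace Pool.Agent.H9.Eye

open Real MeasureTheory Filter Topology
open scoped ContDiff

theorem ae_fix (ρ : Measure T2) [IsProbabilityMeasure ρ] (hf : MeasurePreserving fH ρ ρ) :
    ∀ᵐ z ∂ρ, fH z = z := by
  filter_upwards [ae_fixed ρ hf] with z hz
  obtain ⟨w, rfl⟩ := proj_open.surjective z
  rw [s1T_proj, s2T_proj, c1T_proj, c2T_proj] at hz
  rw [fH_proj]
  rcases hz with ⟨h1, h2⟩ | ⟨h1, h2⟩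
  · rw [(chi_corner w h1 h2).1]
  · rw [(chi_center w h1 h2).1]

open Classical in
/-- the sum of the positive exponents at the fixed points -/
noncomputable def chi0 (z : T2) : ℝ := if c1T z = 0 ∧ c2T z = 0 then 2 * el else al - el

theorem chi0_meas : Measurable chi0 := by
  classical
  unfold chi0
  refine Measurable.ite ?_ measurable_const measurable_const
  exact (measurableSet_eq_fun c1T_cont.measurable measurable_const).inter
    (measurableSet_eq_fun c2T_cont.measurable measurable_const)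

theorem chi0_ge (z : T2) : 1 / 100 ≤ chi0 z := by
  unfold chi0 al el
  split_ifs <;> norm_num

theorem chi0_int (ρ : Measure T2) [IsProbabilityMeasure ρ] : Integrable chi0 ρ := by
  refine Integrable.of_bound chi0_meas.aestronglyMeasurable 1 (Eventually.of_forall fun z => ?_)
  unfold chi0 al el
  split_ifs <;> norm_num [abs_le]

theorem chi0_chi (ρ : Measure T2) [IsProbabilityMeasure ρ] (hf : MeasurePreserving fH ρ ρ) :
    IsChiPlus FF ρ chi0 := by
  unfold IsChiPlus
  filter_upwards [ae_fixed ρ hf] with z hz w hw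
  subst hw
  have hc : chi0 (proj w) = if cos w.1 = 0 ∧ cos w.2 = 0 then 2 * el else al - el := by
    unfold chi0
    rw [c1T_proj, c2T_proj]
  rw [hc]
  rw [s1T_proj, s2T_proj, c1T_proj, c2T_proj] at hz
  rcases hz with ⟨h1, h2⟩ | ⟨h1, h2⟩
  · have h3 : ¬ (cos w.1 = 0 ∧ cos w.2 = 0) := by
      rintro ⟨h3, -⟩
      have := Real.sin_sq_add_cos_sq w.1
      rw [h1, h3] at this
      norm_num at this
    rw [if_neg h3]
    exact (chi_corner w h1 h2).2
  · rw [if_pos ⟨h1, h2⟩]
    exact (chi_center w h1 h2).2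

theorem chi_unique (ρ : Measure T2) {F : ℝ × ℝ → ℝ × ℝ} {χ χ' : T2 → ℝ} (h : IsChiPlus F ρ χ)
    (h' : IsChiPlus F ρ χ') : χ =ᵐ[ρ] χ' := by
  unfold IsChiPlus at h h'
  filter_upwards [h, h'] with z hz hz'
  obtain ⟨w, hw⟩ := proj_open.surjective z
  exact tendsto_nhds_unique (hz w hw) (hz' w hw)

theorem final (ρ : Measure T2) [IsProbabilityMeasure ρ] (hf : MeasurePreserving fH ρ ρ) :
    (∃ χ : T2 → ℝ, Measurable χ ∧ Integrable χ ρ ∧ IsChiPlus FE ρ χ) ∧
    ∀ χ : T2 → ℝ, IsChiPlus FE ρ χ → entropy fH ρ < ((∫ z, χ z ∂ρ : ℝ) : EReal) := by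
  refine ⟨⟨chi0, chi0_meas, chi0_int ρ, chi0_chi ρ hf⟩, fun χ hχ => ?_⟩
  have h1 : χ =ᵐ[ρ] chi0 := chi_unique ρ hχ (chi0_chi ρ hf)
  rw [integral_congr_ae h1]
  refine lt_of_le_of_lt (entropy_nonpos fH ρ (ae_fix ρ hf)) ?_
  have h2 : (1 / 100 : ℝ) ≤ ∫ z, chi0 z ∂ρ := by
    have := integral_mono (μ := ρ) (integrable_const (1 / 100 : ℝ)) (chi0_int ρ) chi0_ge
    simpa using this
  have : (0 : ℝ) < ∫ z, chi0 z ∂ρ := by linarith
  exact_mod_cast this

/-- there are invariant probability measures -/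
theorem exists_inv : ∃ ρ : Measure T2, IsProbabilityMeasure ρ ∧ MeasurePreserving fH ρ ρ := by
  refine ⟨Measure.dirac (proj (0, 0)), inferInstance, ?_⟩
  refine ⟨fH.continuous.measurable, ?_⟩
  have h := Measure.map_dirac' (f := fH) fH.continuous.measurable (proj (0, 0))
  rw [h, fH_proj, (chi_corner (0, 0) (by simp) (by simp)).1]

end Pool.Agent.H9.Eye
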