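import Pool.Agent.H9.EyeDefs

set_option autoImplicit false

namespace Pool.Agent.H9.Eye

open Real

lemma cosh_sub_ge (a s : ℝ) (ha : |a| ≤ 1) : exp (-a * s) ≤ cosh s - a * sinh s := by
  have h1 := abs_le.1 ha
  have hconv := convexOn_exp.2 (Set.mem_univ s) (Set.mem_univ (-s))
    (show (0:ℝ) ≤ (1 - a) / 2 by linarith [h1.2]) (show (0:ℝ) ≤ (1 + a) / 2 by linarith [h1.1])
    (by ring)
  simp only [smul_eq_mul] at hconv
  have e1 : (1 - a) / 2 * s + (1 + a) / 2 * -s = -a * s := by ring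
  rw [e1] at hconv
  rw [cosh_eq, sinh_eq]
  linarith

lemma exp_fifth : exp (1 / 5) ≤ 5 / 4 := by
  have h1 := add_one_le_exp (-(1 / 5 : ℝ))
  have h2 : exp (-(1 / 5 : ℝ)) = (exp (1 / 5))⁻¹ := exp_neg _
  rw [h2] at h1
  have h3 : 0 < exp (1 / 5 : ℝ) := exp_pos _
  have h4 : (4 / 5 : ℝ) ≤ (exp (1 / 5))⁻¹ := by linarith
  rw [le_inv_comm₀ (by norm_num) h3] at h4
  norm_num at h4
  exact h4

lemma sinh_le_of (s : ℝ) (h0 : 0 ≤ s) (hs : s ≤ 1 / 5) : sinh s ≤ 9 / 8 * s := by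
  have h1 := add_one_le_exp (-s)
  have h2 : exp (-s) * exp s = 1 := by rw [← exp_add]; simp
  have h3 : exp s ≤ 5 / 4 := (exp_le_exp.2 hs).trans exp_fifth
  have h4 : 0 < exp s := exp_pos s
  have h5 : exp s - 1 ≤ s * exp s := by nlinarith
  rw [sinh_eq]
  nlinarith

lemma abs_sinh_le (s : ℝ) (hs : |s| ≤ 1 / 5) : |sinh s| ≤ 9 / 8 * |s| := by
  rcases le_total 0 s with h | h
  · rw [abs_of_nonneg h] at hs ⊢
    rw [abs_of_nonneg (sinh_nonneg_iff.2 h)]
    exact sinh_le_of s h hs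
  · rw [abs_of_nonpos h] at hs ⊢
    rw [abs_of_nonpos (sinh_nonpos_iff.2 h), ← sinh_neg]
    exact sinh_le_of (-s) (by linarith) hs

/-- one step -/
lemma step_bd (a s a' : ℝ) (ha : |a| ≤ 1) (hs : |s| ≤ 1 / 5)
    (ha' : a' = (a * cosh s - sinh s) / (cosh s - a * sinh s)) :
    0 < cosh s - a * sinh s ∧ a' ^ 2 ≤ 1 ∧ |a' - a| ≤ 45 / 32 * |s| := by
  have hc := cosh_sub_ge a s ha
  have hcpos : 0 < cosh s - a * sinh s := (exp_pos _).trans_le hc
  have h45 : (4 / 5 : ℝ) ≤ cosh s - a * sinh s := by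
    refine le_trans ?_ hc
    have h1 : -(1 / 5 : ℝ) ≤ -a * s := by
      have h2 : |a * s| ≤ 1 / 5 := by
        rw [abs_mul]
        calc |a| * |s| ≤ 1 * |s| := mul_le_mul_of_nonneg_right ha (abs_nonneg _)
          _ ≤ 1 / 5 := by linarith
      have := (abs_le.1 h2).2
      linarith
    have h3 := add_one_le_exp (-(1 / 5 : ℝ))
    have h4 := exp_le_exp.2 h1
    linarith
  have ha2 : a ^ 2 ≤ 1 := by
    have := abs_le.1 ha
    nlinarith
  have hid : cosh s ^ 2 - sinh s ^ 2 = 1 := cosh_sq_sub_sinh_sq s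
  refine ⟨hcpos, ?_, ?_⟩
  · rw [ha', div_pow, div_le_one (by positivity)]
    nlinarith
  · have e1 : a' - a = -((1 - a ^ 2) * sinh s / (cosh s - a * sinh s)) := by
      rw [ha']
      field_simp
      ring
    rw [e1, abs_neg, abs_div, abs_mul, abs_of_pos hcpos, div_le_iff₀ hcpos]
    have h5 := abs_sinh_le s hs
    have h6 : |1 - a ^ 2| ≤ 1 := by
      rw [abs_of_nonneg (by linarith)]
      nlinarith [sq_nonneg a]
    have h7 : |1 - a ^ 2| * |sinh s| ≤ 1 * (9 / 8 * |s|) :=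
      mul_le_mul h6 h5 (abs_nonneg _) (by norm_num)
    have h8 : 0 ≤ |s| := abs_nonneg s
    nlinarith

lemma exp_convex_le (t : ℝ) (h0 : 0 ≤ t) (h1 : t ≤ 1) (x : ℝ) :
    exp (x * t) ≤ 1 + (exp x - 1) * t := by
  have hconv := convexOn_exp.2 (Set.mem_univ x) (Set.mem_univ (0:ℝ)) h0
    (show (0:ℝ) ≤ 1 - t by linarith) (by ring)
  simp only [smul_eq_mul, mul_zero, add_zero, exp_zero, mul_one] at hconv
  rw [mul_comm x t]
  linarith

theorem key (a b s1 s2 a' b' : ℝ) (ha : |a| ≤ 1) (hb : |b| ≤ 1) (hs1 : s1 = al * b)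
    (ha' : a' = (a * cosh s1 - sinh s1) / (cosh s1 - a * sinh s1)) (hs2 : s2 = al * a')
    (hb' : b' = (b * cosh s2 + sinh s2) / (cosh s2 + b * sinh s2)) :
    1 ≤ (cosh s1 - a * sinh s1)^2 * (cosh s2 + b * sinh s2)^2 * (1 + (exp (2*el) - 1) * a'^2) *
      (1 + (exp (2*el) - 1) * b'^2) ∧
    ((cosh s1 - a * sinh s1)^2 * (cosh s2 + b * sinh s2)^2 * (1 + (exp (2*el) - 1) * a'^2) *
      (1 + (exp (2*el) - 1) * b'^2) = 1 → a = 0 ∧ b = 0) := by
  have hal : al = 1 / 5 := rfl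
  have hel : el = 19 / 100 := rfl
  have hs1' : |s1| ≤ 1 / 5 := by
    rw [hs1, hal, abs_mul, abs_of_pos (by norm_num : (0:ℝ) < 1 / 5)]
    linarith
  obtain ⟨hc1, ha1, had⟩ := step_bd a s1 a' ha hs1' ha'
  have ha'abs : |a'| ≤ 1 := abs_le_one_iff_mul_self_le_one.2 (by nlinarith)
  have hs2' : |s2| ≤ 1 / 5 := by
    rw [hs2, hal, abs_mul, abs_of_pos (by norm_num : (0:ℝ) < 1 / 5)]
    linarith
  have hb'' : b' = (b * cosh (-s2) - sinh (-s2)) / (cosh (-s2) - b * sinh (-s2)) := by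
    rw [hb', cosh_neg, sinh_neg]
    congr 1 <;> ring
  obtain ⟨hc2, hb1, hbd⟩ := step_bd b (-s2) b' hb (by rwa [abs_neg]) hb''
  have hc1e := cosh_sub_ge a s1 ha
  have hc2e := cosh_sub_ge b (-s2) hb
  rw [cosh_neg, sinh_neg] at hc2 hc2e
  have e2 : cosh s2 - b * -sinh s2 = cosh s2 + b * sinh s2 := by ring
  rw [e2] at hc2 hc2e
  have ea := exp_convex_le (a' ^ 2) (sq_nonneg _) ha1 (2 * el)
  have eb := exp_convex_le (b' ^ 2) (sq_nonneg _) hb1 (2 * el)
  -- the exponent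
  set T : ℝ := 2 * (-a * s1) + 2 * (-b * -s2) + 2 * el * a' ^ 2 + 2 * el * b' ^ 2 with hT
  have hprod : exp T ≤ (cosh s1 - a * sinh s1)^2 * (cosh s2 + b * sinh s2)^2 *
      (1 + (exp (2*el) - 1) * a'^2) * (1 + (exp (2*el) - 1) * b'^2) := by
    have e3 : exp T = exp (-a * s1) ^ 2 * exp (-b * -s2) ^ 2 * exp (2 * el * a' ^ 2) *
        exp (2 * el * b' ^ 2) := by
      rw [hT, exp_add, exp_add, exp_add]
      congr 3
      · rw [← exp_nat_mul]; push_cast; ring_nf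
      · rw [← exp_nat_mul]; push_cast; ring_nf
    rw [e3]
    have q1 : exp (-a * s1) ^ 2 ≤ (cosh s1 - a * sinh s1) ^ 2 :=
      pow_le_pow_left₀ (exp_pos _).le hc1e 2
    have q2 : exp (-b * -s2) ^ 2 ≤ (cosh s2 + b * sinh s2) ^ 2 :=
      pow_le_pow_left₀ (exp_pos _).le hc2e 2
    have q3 := mul_le_mul q1 q2 (by positivity) (by positivity)
    have q4 := mul_le_mul q3 ea (exp_pos _).le (by positivity)
    have q5 : 0 ≤ (cosh s1 - a * sinh s1) ^ 2 * (cosh s2 + b * sinh s2) ^ 2 *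
        (1 + (exp (2 * el) - 1) * a' ^ 2) :=
      mul_nonneg (by positivity) ((exp_pos _).le.trans ea)
    exact mul_le_mul q4 eb (exp_pos _).le q5
  have hTb : 9 / 100 * (a' ^ 2 + b' ^ 2) ≤ T := by
    have h1 : -a * s1 + -b * -s2 = al * (b * (a' - a)) := by rw [hs1, hs2]; ring
    have h2 : |b * (a' - a)| ≤ 45 / 32 * (1 / 5) * b ^ 2 := by
      rw [abs_mul]
      have h3 : |s1| = 1 / 5 * |b| := by
        rw [hs1, hal, abs_mul, abs_of_pos (by norm_num : (0:ℝ) < 1 / 5)]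
      rw [h3] at had
      calc |b| * |a' - a| ≤ |b| * (45 / 32 * (1 / 5 * |b|)) :=
            mul_le_mul_of_nonneg_left had (abs_nonneg _)
        _ = 45 / 32 * (1 / 5) * |b| ^ 2 := by ring
        _ = 45 / 32 * (1 / 5) * b ^ 2 := by rw [sq_abs]
    have h4 : (b' - b) ^ 2 ≤ (45 / 32 * (1 / 5)) ^ 2 * a' ^ 2 := by
      have h5 : |s2| = 1 / 5 * |a'| := by
        rw [hs2, hal, abs_mul, abs_of_pos (by norm_num : (0:ℝ) < 1 / 5)]
      rw [abs_neg, h5] at hbd
      rw [← sq_abs (b' - b), ← sq_abs a', ← mul_pow]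
      apply pow_le_pow_left₀ (abs_nonneg _)
      linarith
    have h6 : b ^ 2 ≤ 2 * b' ^ 2 + 2 * (b' - b) ^ 2 := by nlinarith [sq_nonneg (b' + (b' - b))]
    have h7 := (abs_le.1 h2).1
    have h8 : T = 2 * (al * (b * (a' - a))) + 2 * el * a' ^ 2 + 2 * el * b' ^ 2 := by
      rw [hT, ← h1]; ring
    rw [h8, hal, hel]
    nlinarith [sq_nonneg a', sq_nonneg b']
  have hT0 : 0 ≤ T := le_trans (by positivity) hTb
  refine ⟨(one_le_exp hT0).trans hprod, fun heq => ?_⟩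
  rw [heq] at hprod
  have hTz : T ≤ 0 := by
    rw [← exp_le_one_iff]; exact hprod
  have h9 : a' ^ 2 + b' ^ 2 ≤ 0 := by linarith
  have ha0 : a' = 0 := by nlinarith [sq_nonneg a', sq_nonneg b']
  have hb0 : b' = 0 := by nlinarith [sq_nonneg a', sq_nonneg b']
  have hs20 : s2 = 0 := by rw [hs2, ha0, mul_zero]
  have hbz : b = 0 := by
    rw [hs20, cosh_zero, sinh_zero] at hb'
    rw [hb0] at hb'
    simpa using hb'.symm
  have hs10 : s1 = 0 := by rw [hs1, hbz, mul_zero]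
  have haz : a = 0 := by
    rw [hs10, cosh_zero, sinh_zero, ha0] at ha'
    simpa using ha'.symm
  exact ⟨haz, hbz⟩

theorem mono (γ γ' : ℝ) (h : |γ| < 1)
    (h' : γ' = (γ * cosh al + sinh al) / (cosh al + γ * sinh al)) :
    γ < exp el * γ' / sqrt (1 + (exp (2*el) - 1) * γ'^2) := by
  have hal : al = 1 / 5 := rfl
  have hel : el = 19 / 100 := rfl
  have halpos : 0 < al := by rw [hal]; norm_num
  have hs : 0 < sinh al := sinh_pos_iff.2 halpos
  have hc : 0 < cosh al := cosh_pos al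
  have hg := abs_lt.1 h
  have hid : cosh al ^ 2 - sinh al ^ 2 = 1 := cosh_sq_sub_sinh_sq al
  have hcs : cosh al + sinh al = exp al := by rw [cosh_eq, sinh_eq]; ring
  have hcms : cosh al - sinh al = exp (-al) := by rw [cosh_eq, sinh_eq]; ring
  have hV0 : 0 < cosh al + γ * sinh al := by
    have : 0 < exp (-al) := exp_pos _
    nlinarith
  have hg2 : 0 < 1 - γ ^ 2 := by nlinarith
  have h1 : 1 - γ' ^ 2 = (1 - γ ^ 2) / (cosh al + γ * sinh al) ^ 2 := by
    rw [h', div_pow, eq_div_iff (by positivity), sub_mul, one_mul,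
      div_mul_cancel₀ _ (by positivity)]
    linear_combination (1 - γ ^ 2) * hid
  have h2 : 0 < 1 - γ' ^ 2 := by rw [h1]; positivity
  have h3 : γ < γ' := by
    rw [h', lt_div_iff₀ hV0]
    nlinarith
  set q : ℝ := exp el with hq
  have hq2 : exp (2 * el) = q ^ 2 := by rw [hq, ← exp_nat_mul]; push_cast; ring_nf
  have hq1 : 1 < q := by rw [hq, one_lt_exp_iff, hel]; norm_num
  rw [hq2]
  have hQpos : 0 < 1 + (q ^ 2 - 1) * γ' ^ 2 := by
    have : 0 ≤ (q ^ 2 - 1) * γ' ^ 2 := mul_nonneg (by nlinarith) (sq_nonneg _)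
    linarith
  have hsq : 0 < sqrt (1 + (q ^ 2 - 1) * γ' ^ 2) := sqrt_pos.2 hQpos
  rw [lt_div_iff₀ hsq]
  rcases le_or_gt 0 γ' with h4 | h4
  · have h5 : sqrt (1 + (q ^ 2 - 1) * γ' ^ 2) ≤ q := by
      rw [sqrt_le_left (by linarith)]
      nlinarith [mul_nonneg (show (0:ℝ) ≤ q ^ 2 - 1 by nlinarith) h2.le]
    rcases le_or_gt 0 γ with h6 | h6
    · calc γ * sqrt (1 + (q ^ 2 - 1) * γ' ^ 2) ≤ γ * q := mul_le_mul_of_nonneg_left h5 h6
        _ < γ' * q := mul_lt_mul_of_pos_right h3 (by linarith)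
        _ = q * γ' := mul_comm _ _
    · calc γ * sqrt (1 + (q ^ 2 - 1) * γ' ^ 2) < 0 := mul_neg_of_neg_of_pos h6 hsq
        _ ≤ q * γ' := mul_nonneg (by linarith) h4
  · -- negative case
    have hgneg : γ < 0 := h3.trans h4
    -- squares
    have hU : q * (-γ') * (cosh al + γ * sinh al) < -γ := by
      -- -γ = B c + s over c + B s ; use γ = (γ' c - s)/(c - γ' s)
      have hqe : q < exp al := by
        rw [hq, exp_lt_exp, hal, hel]; norm_num
      have e1 : -γ' * (cosh al + γ * sinh al) = -(γ * cosh al + sinh al) := by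
        rw [h']; field_simp
      have e2 : q * (-γ') * (cosh al + γ * sinh al) = q * -(γ * cosh al + sinh al) := by
        rw [mul_assoc, e1]
      rw [e2]
      have e3 : 0 < -(γ * cosh al + sinh al) := by
        rw [← e1]
        exact mul_pos (by linarith) hV0
      have e4 : q * -(γ * cosh al + sinh al) < exp al * -(γ * cosh al + sinh al) :=
        mul_lt_mul_of_pos_right hqe e3
      have e5 : exp al * -(γ * cosh al + sinh al) ≤ -γ := by
        rw [← hcs]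
        have : (cosh al + sinh al) * -(γ * cosh al + sinh al) - (-γ)
            = -(sinh al * (1 + γ) * (cosh al + sinh al)) := by
          linear_combination (-γ) * hid
        have h7 : 0 ≤ sinh al * (1 + γ) * (cosh al + sinh al) := by
          have : 0 < 1 + γ := by linarith
          positivity
        linarith
      linarith
    have key2 : (q * γ') ^ 2 < (γ * sqrt (1 + (q ^ 2 - 1) * γ' ^ 2)) ^ 2 := by
      rw [mul_pow, mul_pow, sq_sqrt hQpos.le]
      -- q^2 γ'^2 (1 - γ^2) < γ^2 (1 - γ'^2)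
      have h8 : (1 - γ' ^ 2) * (cosh al + γ * sinh al) ^ 2 = 1 - γ ^ 2 := by
        rw [h1]; field_simp
      have h9 : (q * (-γ') * (cosh al + γ * sinh al)) ^ 2 < (-γ) ^ 2 := by
        apply pow_lt_pow_left₀ hU _ (by norm_num)
        exact mul_nonneg (mul_nonneg (by linarith) (by linarith)) hV0.le
      have h10 : q ^ 2 * γ' ^ 2 * (1 - γ ^ 2) < γ ^ 2 * (1 - γ' ^ 2) := by
        rw [← h8]
        have : q ^ 2 * γ' ^ 2 * ((1 - γ' ^ 2) * (cosh al + γ * sinh al) ^ 2)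
            = (1 - γ' ^ 2) * (q * (-γ') * (cosh al + γ * sinh al)) ^ 2 := by ring
        rw [this]
        have := mul_lt_mul_of_pos_left h9 h2
        linarith
      linarith
    have h11 : γ * sqrt (1 + (q ^ 2 - 1) * γ' ^ 2) < 0 := mul_neg_of_neg_of_pos hgneg hsq
    have h12 : q * γ' < 0 := mul_neg_of_pos_of_neg (by linarith) h4
    have h13 := sq_lt_sq.1 key2
    rw [abs_of_neg h12, abs_of_neg h11] at h13
    linarith

end Pool.Agent.H9.Eye
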