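import Pool.Agent.H9.EyeT
import Pool.Agent.H9.EyeK

set_option autoImplicit false

namespace Pool.Agent.H9.Eye

open Real

theorem el_pos : 0 < el := by unfold el; norm_num
theorem al_pos : 0 < al := by unfold al; norm_num

theorem Rpos (c : ℝ) : 0 < 1 + (exp (2 * el) - 1) * c ^ 2 := by
  have h1 : 1 < exp (2 * el) := Real.one_lt_exp_iff.2 (by have := el_pos; linarith)
  have h2 : 0 ≤ c ^ 2 := sq_nonneg c
  nlinarith [mul_nonneg (sub_nonneg.2 h1.le) h2]

theorem cos_G (x : ℝ) :
    cos (G x) = exp el * cos x / sqrt (1 + (exp (2 * el) - 1) * cos x ^ 2) := by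
  set P := exp (el / 2) with hP
  set Q := exp (-(el / 2)) with hQ
  have hPQ : P * Q = 1 := by rw [hP, hQ, ← Real.exp_add]; simp
  have hP0 : 0 < P := Real.exp_pos _
  have hQ0 : 0 < Q := Real.exp_pos _
  have hsh : sinh (-el / 2) = -(P - Q) / 2 := by
    rw [neg_div, Real.sinh_neg, Real.sinh_eq, hP, hQ]; ring
  have hch : cosh (-el / 2) = (P + Q) / 2 := by
    rw [neg_div, Real.cosh_neg, Real.cosh_eq, hP, hQ]
  have hl : exp el = P ^ 2 := by rw [hP, ← Real.exp_nat_mul]; congr 1; push_cast; ring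
  have hl2 : exp (2 * el) = P ^ 4 := by rw [hP, ← Real.exp_nat_mul]; congr 1; push_cast; ring
  set c := cos x with hc
  set S := sin x with hS
  have hSc : S ^ 2 + c ^ 2 = 1 := by rw [hS, hc]; exact Real.sin_sq_add_cos_sq x
  have h2c : cos (2 * x) = 2 * c ^ 2 - 1 := Real.cos_two_mul x
  have h2s : sin (2 * x) = 2 * S * c := Real.sin_two_mul x
  have hPgeQ : Q < P := by
    rw [hP, hQ]; exact Real.exp_lt_exp.2 (by have := el_pos; linarith)
  set D := Q + (P - Q) * c ^ 2 with hD
  have hD0 : 0 < D := by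
    have : 0 ≤ (P - Q) * c ^ 2 := mul_nonneg (by linarith) (sq_nonneg _)
    linarith
  set t := sinh (-el / 2) * sin (2 * x) / (cosh (-el / 2) - sinh (-el / 2) * cos (2 * x)) with ht
  have htD : t = -(P - Q) * S * c / D := by
    rw [ht, hsh, hch, h2c, h2s]
    have e : (P + Q) / 2 - -(P - Q) / 2 * (2 * c ^ 2 - 1) = D := by rw [hD]; ring
    rw [e]
    congr 1
    ring
  have hG : G x = x + arctan t := by
    have : A (-el) (2 * x) = 2 * x + 2 * arctan t := rfl
    unfold G
    rw [this]; ring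
  set K := Q ^ 2 + (P ^ 2 - Q ^ 2) * c ^ 2 with hK
  have hK0 : 0 < K := by
    have : 0 ≤ (P ^ 2 - Q ^ 2) * c ^ 2 := mul_nonneg (by nlinarith) (sq_nonneg _)
    have : 0 < Q ^ 2 := by positivity
    linarith
  have h1t : 1 + t ^ 2 = K / D ^ 2 := by
    rw [htD, eq_div_iff (by positivity)]
    have : (-(P - Q) * S * c / D) ^ 2 * D ^ 2 = ((P - Q) * S * c) ^ 2 := by
      field_simp
    rw [add_mul, this, one_mul, hK, hD]
    linear_combination ((P - Q) ^ 2 * c ^ 2) * hSc
  have hct : cos (arctan t) = D / sqrt K := by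
    rw [Real.cos_arctan, h1t, Real.sqrt_div hK0.le, Real.sqrt_sq hD0.le, one_div_div]
  have hst : sin (arctan t) = t * cos (arctan t) := by
    have h0 : cos (arctan t) ≠ 0 := (Real.cos_arctan_pos t).ne'
    have h1 : tan (arctan t) = t := Real.tan_arctan t
    rw [Real.tan_eq_sin_div_cos] at h1
    field_simp at h1
    linarith
  have hmain : cos (G x) = c * P / sqrt K := by
    rw [hG, Real.cos_add, hst, hct, ← hc, ← hS, htD]
    have hsK : sqrt K ≠ 0 := (Real.sqrt_pos.2 hK0).ne'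
    field_simp
    rw [hD]
    linear_combination (c * (P - Q)) * hSc
  have hR : 1 + (exp (2 * el) - 1) * c ^ 2 = P ^ 2 * K := by
    rw [hl2, hK]
    linear_combination (-(P * Q + 1) * (1 - c ^ 2)) * hPQ
  rw [hmain, hR, Real.sqrt_mul (by positivity), Real.sqrt_sq hP0.le, hl]
  have hsK : sqrt K ≠ 0 := (Real.sqrt_pos.2 hK0).ne'
  field_simp

theorem sin_G_sq (x : ℝ) :
    sin (G x) ^ 2 * (1 + (exp (2 * el) - 1) * cos x ^ 2) = sin x ^ 2 := by
  have h1 := cos_G x
  have hR := Rpos (cos x)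
  have h2 : cos (G x) ^ 2 * (1 + (exp (2 * el) - 1) * cos x ^ 2) = exp (2 * el) * cos x ^ 2 := by
    rw [h1, div_pow, Real.sq_sqrt hR.le, div_mul_cancel₀ _ hR.ne', mul_pow, ← Real.exp_nat_mul]
    norm_num
  have h3 := Real.sin_sq_add_cos_sq (G x)
  have h4 := Real.sin_sq_add_cos_sq x
  linear_combination (1 + (exp (2 * el) - 1) * cos x ^ 2) * h3 - h2 - h4

theorem cos_G_pm {x : ℝ} (h : cos x ^ 2 = 1) : cos (G x) = cos x := by
  rw [cos_G, h, mul_one, add_sub_cancel]
  have : sqrt (exp (2 * el)) = exp el := by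
    rw [two_mul, Real.exp_add]; exact Real.sqrt_mul_self (Real.exp_pos _).le
  rw [this]
  field_simp

section
variable (w : ℝ × ℝ)

theorem cosx' : cos (S1 w).1 = (cos w.1 * cosh (al * cos w.2) - sinh (al * cos w.2)) /
    (cosh (al * cos w.2) - cos w.1 * sinh (al * cos w.2)) := (A_trig _ _).2

theorem sinx' : sin (S1 w).1 * (cosh (al * cos w.2) - cos w.1 * sinh (al * cos w.2))
    = sin w.1 := by
  have h := (A_trig (al * cos w.2) w.1).1
  have h0 := den_pos (al * cos w.2) (cos w.1) (abs_cos_le_one _)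
  have : sin (S1 w).1 = sin w.1 / (cosh (al * cos w.2) - cos w.1 * sinh (al * cos w.2)) := h
  rw [this, div_mul_cancel₀ _ h0.ne']

theorem cosy' (v : ℝ × ℝ) : cos (S2 v).2 = (cos v.2 * cosh (al * cos v.1) + sinh (al * cos v.1)) /
    (cosh (al * cos v.1) + cos v.2 * sinh (al * cos v.1)) := by
  have h := (A_trig (-(al * cos v.1)) v.2).2
  rw [Real.cosh_neg, Real.sinh_neg] at h
  have e : cos (S2 v).2 = cos (A (-(al * cos v.1)) v.2) := rfl
  rw [e, h]
  ring_nf

theorem den_pos' (s c : ℝ) (hc : |c| ≤ 1) : 0 < cosh s + c * sinh s := by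
  have := den_pos (-s) c hc
  rw [Real.cosh_neg, Real.sinh_neg] at this
  linarith

theorem siny' (v : ℝ × ℝ) : sin (S2 v).2 * (cosh (al * cos v.1) + cos v.2 * sinh (al * cos v.1))
    = sin v.2 := by
  have h := (A_trig (-(al * cos v.1)) v.2).1
  have h0 := den_pos' (al * cos v.1) (cos v.2) (abs_cos_le_one _)
  rw [Real.cosh_neg, Real.sinh_neg] at h
  have e : sin (S2 v).2 = sin (A (-(al * cos v.1)) v.2) := rfl
  rw [e, h]
  have e2 : cosh (al * cos v.1) - cos v.2 * -sinh (al * cos v.1)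
      = cosh (al * cos v.1) + cos v.2 * sinh (al * cos v.1) := by ring
  rw [e2, div_mul_cancel₀ _ h0.ne']

/-- the main Lyapunov inequality -/
theorem lyap1 : |sin (FF w).1 * sin (FF w).2| ≤ |sin w.1 * sin w.2| ∧
    (|sin (FF w).1 * sin (FF w).2| = |sin w.1 * sin w.2| →
      sin w.1 * sin w.2 = 0 ∨ (cos w.1 = 0 ∧ cos w.2 = 0)) := by
  set u := S1 w with hu
  set v := S2 u with hv
  have hu2 : u.2 = w.2 := rfl
  have hv1 : v.1 = u.1 := rfl
  have hF1 : (FF w).1 = G v.1 := rfl
  have hF2 : (FF w).2 = G v.2 := rfl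
  have hx := sin_G_sq v.1
  have hy := sin_G_sq v.2
  have hsx := sinx' w
  have hsy := siny' u
  obtain ⟨k1, k2⟩ := key (cos w.1) (cos w.2) (al * cos w.2) (al * cos u.1) (cos u.1) (cos v.2)
    (abs_cos_le_one _) (abs_cos_le_one _) rfl (cosx' w) rfl (by rw [hv, cosy' u, hu2])
  rw [← hu] at hsx
  rw [← hv, hu2] at hsy
  rw [hv1] at hx
  set X := cosh (al * cos w.2) - cos w.1 * sinh (al * cos w.2)
  set Y := cosh (al * cos u.1) + cos w.2 * sinh (al * cos u.1)
  set R1 := 1 + (exp (2 * el) - 1) * cos u.1 ^ 2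
  set R2 := 1 + (exp (2 * el) - 1) * cos v.2 ^ 2
  have hprod : (sin (FF w).1 * sin (FF w).2) ^ 2 * (X ^ 2 * Y ^ 2 * R1 * R2)
      = (sin w.1 * sin w.2) ^ 2 := by
    rw [hF1, hF2, hv1, ← hsx, ← hsy]
    calc _ = (sin (G u.1) ^ 2 * R1) * (sin (G v.2) ^ 2 * R2) * X ^ 2 * Y ^ 2 := by ring
      _ = _ := by rw [hx, hy]; ring
  have hle : (sin (FF w).1 * sin (FF w).2) ^ 2 ≤ (sin w.1 * sin w.2) ^ 2 := by
    rw [← hprod]
    exact le_mul_of_one_le_right (sq_nonneg _) k1
  refine ⟨sq_le_sq.1 hle, fun he => ?_⟩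
  have he2 : (sin (FF w).1 * sin (FF w).2) ^ 2 = (sin w.1 * sin w.2) ^ 2 := by
    rw [← sq_abs, he, sq_abs]
  rcases eq_or_ne (sin w.1 * sin w.2) 0 with h0 | h0
  · exact Or.inl h0
  · right
    apply k2
    have h1 : (sin w.1 * sin w.2) ^ 2 * (X ^ 2 * Y ^ 2 * R1 * R2) = (sin w.1 * sin w.2) ^ 2 * 1 := by
      rw [mul_one]
      conv_lhs => rw [← he2]
      exact hprod
    exact mul_left_cancel₀ (pow_ne_zero 2 h0) h1

theorem sinx_zero_iff : sin (FF w).1 = 0 ↔ sin w.1 = 0 := by
  have hx := sin_G_sq (S1 w).1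
  have hR := Rpos (cos (S1 w).1)
  have hsx := sinx' w
  have h0 := den_pos (al * cos w.2) (cos w.1) (abs_cos_le_one _)
  have hF1 : (FF w).1 = G (S1 w).1 := rfl
  rw [hF1]
  constructor
  · intro h
    rw [h] at hx
    have : sin (S1 w).1 = 0 := by
      have : sin (S1 w).1 ^ 2 = 0 := by rw [← hx]; ring
      exact pow_eq_zero_iff (two_ne_zero) |>.1 this
    rw [this, zero_mul] at hsx
    exact hsx.symm
  · intro h
    rw [h] at hsx
    have h1 : sin (S1 w).1 = 0 := by
      rcases mul_eq_zero.1 hsx with h | h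
      · exact h
      · exact absurd h h0.ne'
    rw [h1] at hx
    have h2 : sin (G (S1 w).1) ^ 2 = 0 := by
      rcases mul_eq_zero.1 (hx.trans (by ring : (0:ℝ) ^ 2 = 0)) with h | h
      · exact h
      · exact absurd h hR.ne'
    exact pow_eq_zero_iff (two_ne_zero) |>.1 h2

theorem siny_zero_iff : sin (FF w).2 = 0 ↔ sin w.2 = 0 := by
  have hx := sin_G_sq (S2 (S1 w)).2
  have hR := Rpos (cos (S2 (S1 w)).2)
  have hsx := siny' (S1 w)
  have h0 := den_pos' (al * cos (S1 w).1) (cos (S1 w).2) (abs_cos_le_one _)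
  have hF1 : (FF w).2 = G (S2 (S1 w)).2 := rfl
  have hw : (S1 w).2 = w.2 := rfl
  rw [hw] at hsx h0
  rw [hF1]
  constructor
  · intro h
    rw [h] at hx
    have : sin (S2 (S1 w)).2 = 0 := by
      have : sin (S2 (S1 w)).2 ^ 2 = 0 := by rw [← hx]; ring
      exact pow_eq_zero_iff (two_ne_zero) |>.1 this
    rw [this, zero_mul] at hsx
    exact hsx.symm
  · intro h
    rw [h] at hsx
    have h1 : sin (S2 (S1 w)).2 = 0 := by
      rcases mul_eq_zero.1 hsx with h | h
      · exact h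
      · exact absurd h h0.ne'
    rw [h1] at hx
    have h2 : sin (G (S2 (S1 w)).2) ^ 2 = 0 := by
      rcases mul_eq_zero.1 (hx.trans (by ring : (0:ℝ) ^ 2 = 0)) with h | h
      · exact h
      · exact absurd h hR.ne'
    exact pow_eq_zero_iff (two_ne_zero) |>.1 h2


theorem sin_zero_cos {x : ℝ} (h : sin x = 0) : cos x = 1 ∨ cos x = -1 := by
  have h1 := Real.sin_sq_add_cos_sq x
  rw [h] at h1
  have h2 : (cos x - 1) * (cos x + 1) = 0 := by linarith [h1, sq (cos x)]
  rcases mul_eq_zero.1 h2 with h | h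
  · left; linarith
  · right; linarith

theorem abs_cos_lt {x : ℝ} (h : sin x ≠ 0) : |cos x| < 1 := by
  rw [← sq_lt_one_iff_abs_lt_one]
  have h1 := Real.sin_sq_add_cos_sq x
  have h2 : 0 < sin x ^ 2 := by positivity
  linarith

/-- on the vertical lines -/
theorem lyap2 (h : sin w.1 = 0) : (sin w.2 ≠ 0 →
    cos w.1 * cos w.2 < cos (FF w).1 * cos (FF w).2) ∧
    (sin w.2 = 0 → cos (FF w).1 * cos (FF w).2 = cos w.1 * cos w.2) := by
  set u := S1 w with hu
  set v := S2 u with hv
  have hu2 : u.2 = w.2 := rfl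
  have hv1 : v.1 = u.1 := rfl
  have hF1 : (FF w).1 = G v.1 := rfl
  have hF2 : (FF w).2 = G v.2 := rfl
  set a := cos w.1 with ha
  set b := cos w.2 with hb
  have ha1 : a = 1 ∨ a = -1 := sin_zero_cos h
  have hau : cos u.1 = a := by
    rw [hu, cosx' w, ← ha, ← hb]
    have h0 := den_pos (al * b) a (by rcases ha1 with h | h <;> rw [h] <;> norm_num)
    rw [div_eq_iff h0.ne']
    rcases ha1 with h | h <;> rw [h] <;> ring
  have hW1 : cos (FF w).1 = a := by
    rw [hF1, hv1, cos_G_pm, hau]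
    rw [hau]
    rcases ha1 with h | h <;> rw [h] <;> norm_num
  have hb' : cos v.2 = (b * cosh (al * a) + sinh (al * a)) /
      (cosh (al * a) + b * sinh (al * a)) := by
    rw [hv, cosy' u, hau, hu2]
  have hsh : sinh (al * a) = a * sinh al := by
    rcases ha1 with h | h <;> rw [h]
    · simp
    · rw [mul_neg_one, Real.sinh_neg]; ring
  have hch : cosh (al * a) = cosh al := by
    rcases ha1 with h | h <;> rw [h]
    · simp
    · rw [mul_neg_one, Real.cosh_neg]
  have haa : a * a = 1 := by rcases ha1 with h | h <;> rw [h] <;> norm_num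
  constructor
  · intro h2
    have hbl : |b| < 1 := abs_cos_lt h2
    have hab : |a * b| < 1 := by
      rw [abs_mul]
      rcases ha1 with h | h <;> rw [h] <;> simpa using hbl
    have hγ : a * cos v.2 = ((a * b) * cosh al + sinh al) / (cosh al + (a * b) * sinh al) := by
      rw [hb', hsh, hch]
      have h0 := den_pos' al (a * b) hab.le
      have h0' : cosh al + b * (a * sinh al) ≠ 0 := by
        have : cosh al + b * (a * sinh al) = cosh al + a * b * sinh al := by ring
        rw [this]; exact h0.ne'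
      rw [← mul_div_assoc, div_eq_div_iff h0' h0.ne']
      linear_combination (sinh al * (cosh al + a * b * sinh al)) * haa
    have hm := mono (a * b) (a * cos v.2) hab hγ
    have e : exp el * (a * cos v.2) / sqrt (1 + (exp (2 * el) - 1) * (a * cos v.2) ^ 2)
        = cos (FF w).1 * cos (FF w).2 := by
      rw [hW1, hF2, cos_G]
      have : (a * cos v.2) ^ 2 = cos v.2 ^ 2 := by
        linear_combination (cos v.2 ^ 2) * haa
      rw [this]
      ring
    rwa [e] at hm
  · intro h2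
    have hb1 : b = 1 ∨ b = -1 := sin_zero_cos h2
    have hbv : cos v.2 = b := by
      have h0 := den_pos' (al * a) b (by rcases hb1 with h | h <;> rw [h] <;> norm_num)
      rw [hb', div_eq_iff h0.ne']
      rcases hb1 with h | h <;> rw [h] <;> ring
    rw [hW1, hF2, cos_G_pm, hbv]
    rw [hbv]
    rcases hb1 with h | h <;> rw [h] <;> norm_num

/-- on the horizontal lines -/
theorem lyap3 (h : sin w.2 = 0) : (sin w.1 ≠ 0 →
    cos (FF w).1 * cos (FF w).2 < cos w.1 * cos w.2) ∧
    (sin w.1 = 0 → cos (FF w).1 * cos (FF w).2 = cos w.1 * cos w.2) := by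
  refine ⟨?_, fun h1 => (lyap2 w h1).2 h⟩
  intro h2
  set u := S1 w with hu
  set v := S2 u with hv
  have hu2 : u.2 = w.2 := rfl
  have hv1 : v.1 = u.1 := rfl
  have hF1 : (FF w).1 = G v.1 := rfl
  have hF2 : (FF w).2 = G v.2 := rfl
  set a := cos w.1 with ha
  set b := cos w.2 with hb
  have hb1 : b = 1 ∨ b = -1 := sin_zero_cos h
  have hal : |a| < 1 := abs_cos_lt h2
  have hbb : b * b = 1 := by rcases hb1 with h | h <;> rw [h] <;> norm_num
  have hsh : sinh (al * b) = b * sinh al := by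
    rcases hb1 with h | h <;> rw [h]
    · simp
    · rw [mul_neg_one, Real.sinh_neg]; ring
  have hch : cosh (al * b) = cosh al := by
    rcases hb1 with h | h <;> rw [h]
    · simp
    · rw [mul_neg_one, Real.cosh_neg]
  have hbv : cos v.2 = b := by
    have h0 := den_pos' (al * cos u.1) b (by rcases hb1 with h | h <;> rw [h] <;> norm_num)
    rw [hv, cosy' u, hu2, ← hb, div_eq_iff h0.ne']
    rcases hb1 with h | h <;> rw [h] <;> ring
  have hW2 : cos (FF w).2 = b := by
    rw [hF2, cos_G_pm, hbv]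
    rw [hbv]
    rcases hb1 with h | h <;> rw [h] <;> norm_num
  have hab : |(-(a * b))| < 1 := by
    rw [abs_neg, abs_mul]
    rcases hb1 with h | h <;> rw [h] <;> simpa using hal
  have hγ : -(b * cos u.1) = ((-(a * b)) * cosh al + sinh al) / (cosh al + (-(a * b)) * sinh al) := by
    rw [hu, cosx' w, ← ha, ← hb, hsh, hch]
    have h0 := den_pos' al (-(a * b)) hab.le
    have h0' : cosh al - a * (b * sinh al) ≠ 0 := by
      have : cosh al - a * (b * sinh al) = cosh al + -(a * b) * sinh al := by ring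
      rw [this]; exact h0.ne'
    rw [← mul_div_assoc, ← neg_div, div_eq_div_iff h0' h0.ne']
    linear_combination (sinh al * (cosh al + -(a * b) * sinh al)) * hbb
  have hm := mono (-(a * b)) (-(b * cos u.1)) hab hγ
  have e : exp el * (-(b * cos u.1)) / sqrt (1 + (exp (2 * el) - 1) * (-(b * cos u.1)) ^ 2)
      = -(cos (FF w).1 * cos (FF w).2) := by
    rw [hW2, hF1, hv1, cos_G]
    have : (-(b * cos u.1)) ^ 2 = cos u.1 ^ 2 := by
      linear_combination (cos u.1 ^ 2) * hbb
    rw [this]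
    ring
  rw [e] at hm
  linarith

end

end Pool.Agent.H9.Eye
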