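import Pool.Agent.H9.EyeL

set_option autoImplicit false

namespace Pool.Agent.H9.Eye

open Real MeasureTheory Filter Topology
open scoped ContDiff

theorem coe_per (x : ℝ) (m : ℤ) : ((x + m * (2 * π) : ℝ) : T1) = (x : T1) := by
  refine (QuotientAddGroup.eq).2 ?_
  refine AddSubgroup.mem_zmultiples_iff.2 ⟨-m, ?_⟩
  simp

theorem proj_open : IsOpenQuotientMap proj := by
  have : proj = Prod.map (QuotientAddGroup.mk : ℝ → T1) (QuotientAddGroup.mk : ℝ → T1) := rfl
  rw [this]
  exact QuotientAddGroup.isOpenQuotientMap_mk.prodMap QuotientAddGroup.isOpenQuotientMap_mk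

theorem proj_per (w : ℝ × ℝ) (m n : ℤ) : proj (w.1 + m * (2 * π), w.2 + n * (2 * π)) = proj w := by
  unfold proj
  rw [coe_per, coe_per]

theorem coe_eq {x y : ℝ} (h : (x : T1) = (y : T1)) : ∃ m : ℤ, y = x + m * (2 * π) := by
  have h1 := (QuotientAddGroup.eq).1 h
  obtain ⟨m, hm⟩ := AddSubgroup.mem_zmultiples_iff.1 h1
  refine ⟨m, ?_⟩
  rw [zsmul_eq_mul] at hm
  linarith

theorem proj_eq {w w' : ℝ × ℝ} (h : proj w = proj w') :
    ∃ m n : ℤ, w' = (w.1 + m * (2 * π), w.2 + n * (2 * π)) := by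
  obtain ⟨h1, h2⟩ := Prod.ext_iff.1 h
  obtain ⟨m, hm⟩ := coe_eq h1
  obtain ⟨n, hn⟩ := coe_eq h2
  exact ⟨m, n, Prod.ext hm hn⟩

/-- a section of the covering -/
noncomputable def sec (z : T2) : ℝ × ℝ := Function.surjInv proj_open.surjective z

theorem proj_sec (z : T2) : proj (sec z) = z := Function.surjInv_eq _ z

/-- descend a periodic function -/
theorem desc {β : Type*} {u : ℝ × ℝ → β}
    (hu : ∀ w (m n : ℤ), u (w.1 + m * (2 * π), w.2 + n * (2 * π)) = u w) (w : ℝ × ℝ) :
    u (sec (proj w)) = u w := by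
  obtain ⟨m, n, h⟩ := proj_eq (proj_sec (proj w))
  conv_rhs => rw [h]
  exact (hu _ m n).symm

theorem desc_cont {β : Type*} [TopologicalSpace β] {u : ℝ × ℝ → β}
    (hu : ∀ w (m n : ℤ), u (w.1 + m * (2 * π), w.2 + n * (2 * π)) = u w) (hc : Continuous u) :
    Continuous (fun z => u (sec z)) := by
  rw [← proj_open.continuous_comp_iff]
  have : (fun z => u (sec z)) ∘ proj = u := by
    funext w
    exact desc hu w
  rwa [this]

theorem FFi_per (w : ℝ × ℝ) (m n : ℤ) : FFi (w.1 + m * (2 * π), w.2 + n * (2 * π))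
    = ((FFi w).1 + m * (2 * π), (FFi w).2 + n * (2 * π)) := by
  have h := FF_per (FFi w) m n
  rw [FF_FFi] at h
  rw [← h, FFi_FF]

theorem pF (w : ℝ × ℝ) (m n : ℤ) :
    proj (FF (w.1 + m * (2 * π), w.2 + n * (2 * π))) = proj (FF w) := by
  rw [FF_per, proj_per]

theorem pFi (w : ℝ × ℝ) (m n : ℤ) :
    proj (FFi (w.1 + m * (2 * π), w.2 + n * (2 * π))) = proj (FFi w) := by
  rw [FFi_per, proj_per]

/-- the plane diffeomorphism -/
noncomputable def FE : ℝ × ℝ ≃ ℝ × ℝ := ⟨FF, FFi, FFi_FF, FF_FFi⟩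

/-- the homeomorphism of the torus -/
noncomputable def fH : T2 ≃ₜ T2 where
  toFun z := proj (FF (sec z))
  invFun z := proj (FFi (sec z))
  left_inv z := by
    have h : proj (FFi (sec (proj (FF (sec z))))) = proj (FFi (FF (sec z))) :=
      desc (u := fun w => proj (FFi w)) pFi (FF (sec z))
    show proj (FFi (sec (proj (FF (sec z))))) = z
    rw [h, FFi_FF, proj_sec]
  right_inv z := by
    have h : proj (FF (sec (proj (FFi (sec z))))) = proj (FF (FFi (sec z))) :=
      desc (u := fun w => proj (FF w)) pF (FFi (sec z))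
    show proj (FF (sec (proj (FFi (sec z))))) = z
    rw [h, FF_FFi, proj_sec]
  continuous_toFun := desc_cont (u := fun w => proj (FF w)) pF
    (proj_open.continuous.comp FF_smooth.continuous)
  continuous_invFun := desc_cont (u := fun w => proj (FFi w)) pFi
    (proj_open.continuous.comp FFi_smooth.continuous)

theorem fH_proj (w : ℝ × ℝ) : fH (proj w) = proj (FF w) :=
  desc (u := fun w => proj (FF w)) pF w

theorem isTorusDiffeo : IsTorusDiffeo fH FE where
  smooth := FF_smooth
  smooth_symm := FFi_smooth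
  lift w := (fH_proj w).symm

/-! ### trigonometric functions on the torus -/

noncomputable def s1T (z : T2) : ℝ := sin (sec z).1
noncomputable def s2T (z : T2) : ℝ := sin (sec z).2
noncomputable def c1T (z : T2) : ℝ := cos (sec z).1
noncomputable def c2T (z : T2) : ℝ := cos (sec z).2

theorem s1T_proj (w : ℝ × ℝ) : s1T (proj w) = sin w.1 :=
  desc (u := fun w => sin w.1) (fun w m n => Real.sin_add_int_mul_two_pi _ _) w
theorem s2T_proj (w : ℝ × ℝ) : s2T (proj w) = sin w.2 :=
  desc (u := fun w => sin w.2) (fun w m n => Real.sin_add_int_mul_two_pi _ _) w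
theorem c1T_proj (w : ℝ × ℝ) : c1T (proj w) = cos w.1 :=
  desc (u := fun w => cos w.1) (fun w m n => Real.cos_add_int_mul_two_pi _ _) w
theorem c2T_proj (w : ℝ × ℝ) : c2T (proj w) = cos w.2 :=
  desc (u := fun w => cos w.2) (fun w m n => Real.cos_add_int_mul_two_pi _ _) w

theorem s1T_cont : Continuous s1T :=
  desc_cont (u := fun w => sin w.1) (fun w m n => Real.sin_add_int_mul_two_pi _ _) (by fun_prop)
theorem s2T_cont : Continuous s2T :=
  desc_cont (u := fun w => sin w.2) (fun w m n => Real.sin_add_int_mul_two_pi _ _) (by fun_prop)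
theorem c1T_cont : Continuous c1T :=
  desc_cont (u := fun w => cos w.1) (fun w m n => Real.cos_add_int_mul_two_pi _ _) (by fun_prop)
theorem c2T_cont : Continuous c2T :=
  desc_cont (u := fun w => cos w.2) (fun w m n => Real.cos_add_int_mul_two_pi _ _) (by fun_prop)

/-! ### invariant measures -/

theorem inv_ae {M : Type*} [MeasurableSpace M] (ρ : Measure M) [IsProbabilityMeasure ρ]
    (f : M → M) (hf : MeasurePreserving f ρ ρ) (u : M → ℝ) (hu : Measurable u)
    (hb : ∀ z, |u z| ≤ 1) (hm : ∀ z, u (f z) ≤ u z) : ∀ᵐ z ∂ρ, u (f z) = u z := by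
  have hi : Integrable u ρ := by
    refine Integrable.of_bound hu.aestronglyMeasurable 1 (Eventually.of_forall hb)
  have hi2 : Integrable (fun z => u (f z)) ρ :=
    Integrable.of_bound (hu.comp hf.measurable).aestronglyMeasurable 1
      (Eventually.of_forall fun z => hb (f z))
  have h1 : ∫ z, u (f z) ∂ρ = ∫ z, u z ∂ρ := by
    have h := MeasureTheory.integral_map hf.measurable.aemeasurable
      (f := u) (μ := ρ) (by rw [hf.map_eq]; exact hu.aestronglyMeasurable)
    rw [hf.map_eq] at h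
    exact h.symm
  have h2 : ∫ z, (u z - u (f z)) ∂ρ = 0 := by
    rw [integral_sub hi hi2, h1, sub_self]
  have h3 := (integral_eq_zero_iff_of_nonneg (μ := ρ) (f := fun z => u z - u (f z))
    (fun z => sub_nonneg.2 (hm z)) (hi.sub hi2)).1 h2
  filter_upwards [h3] with z hz
  have : u z - u (f z) = 0 := hz
  linarith

theorem ae_fixed (ρ : Measure T2) [IsProbabilityMeasure ρ] (hf : MeasurePreserving fH ρ ρ) :
    ∀ᵐ z ∂ρ, (s1T z = 0 ∧ s2T z = 0) ∨ (c1T z = 0 ∧ c2T z = 0) := by
  -- first Lyapunov function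
  have h1 : ∀ᵐ z ∂ρ, |s1T (fH z) * s2T (fH z)| = |s1T z * s2T z| := by
    refine inv_ae ρ fH hf (fun z => |s1T z * s2T z|)
      (s1T_cont.mul s2T_cont).abs.measurable (fun z => ?_) (fun z => ?_)
    · rw [abs_abs, abs_mul]
      exact mul_le_one₀ (abs_sin_le_one _) (abs_nonneg _) (abs_sin_le_one _)
    · obtain ⟨w, rfl⟩ := proj_open.surjective z
      simp only [fH_proj, s1T_proj, s2T_proj]
      exact (lyap1 w).1
  -- second
  have hm1 : MeasurableSet {z : T2 | s1T z = 0} := measurableSet_eq_fun s1T_cont.measurable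
    measurable_const
  have hm2 : MeasurableSet {z : T2 | s2T z = 0} := measurableSet_eq_fun s2T_cont.measurable
    measurable_const
  have hcc : Measurable (fun z : T2 => c1T z * c2T z) := (c1T_cont.mul c2T_cont).measurable
  classical
  have hbd : ∀ z : T2, |c1T z * c2T z| ≤ 1 := fun z => by
    rw [abs_mul]
    exact mul_le_one₀ (abs_cos_le_one _) (abs_nonneg _) (abs_cos_le_one _)
  have h2 : ∀ᵐ z ∂ρ, (if s1T (fH z) = 0 then -(c1T (fH z) * c2T (fH z)) else 0)
      = if s1T z = 0 then -(c1T z * c2T z) else 0 := by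
    refine inv_ae ρ fH hf (fun z => if s1T z = 0 then -(c1T z * c2T z) else 0)
      (Measurable.ite hm1 hcc.neg measurable_const) (fun z => ?_) (fun z => ?_)
    · split_ifs
      · rw [abs_neg]; exact hbd z
      · simp
    · obtain ⟨w, rfl⟩ := proj_open.surjective z
      simp only [fH_proj, s1T_proj, c1T_proj, c2T_proj, sinx_zero_iff]
      split_ifs with h
      · obtain ⟨ha, hb⟩ := lyap2 w h
        rcases eq_or_ne (sin w.2) 0 with h0 | h0
        · linarith [hb h0]
        · linarith [ha h0]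
      · exact le_rfl
  have h3 : ∀ᵐ z ∂ρ, (if s2T (fH z) = 0 then (c1T (fH z) * c2T (fH z)) else 0)
      = if s2T z = 0 then (c1T z * c2T z) else 0 := by
    refine inv_ae ρ fH hf (fun z => if s2T z = 0 then (c1T z * c2T z) else 0)
      (Measurable.ite hm2 hcc measurable_const) (fun z => ?_) (fun z => ?_)
    · split_ifs
      · exact hbd z
      · simp
    · obtain ⟨w, rfl⟩ := proj_open.surjective z
      simp only [fH_proj, s2T_proj, c1T_proj, c2T_proj, siny_zero_iff]
      split_ifs with h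
      · obtain ⟨ha, hb⟩ := lyap3 w h
        rcases eq_or_ne (sin w.1) 0 with h0 | h0
        · linarith [hb h0]
        · linarith [ha h0]
      · exact le_rfl
  filter_upwards [h1, h2, h3] with z z1 z2 z3
  obtain ⟨w, rfl⟩ := proj_open.surjective z
  simp only [fH_proj, s1T_proj, s2T_proj, c1T_proj, c2T_proj, sinx_zero_iff, siny_zero_iff]
    at z1 z2 z3 ⊢
  rcases (lyap1 w).2 z1 with h | h
  · left
    rcases mul_eq_zero.1 h with h | h
    · refine ⟨h, ?_⟩
      by_contra h0
      rw [if_pos h, if_pos h] at z2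
      linarith [(lyap2 w h).1 h0]
    · refine ⟨?_, h⟩
      by_contra h0
      rw [if_pos h, if_pos h] at z3
      linarith [(lyap3 w h).1 h0]
  · exact Or.inr h

end Pool.Agent.H9.Eye
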