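import Pool.Agent.H9.EyeDefs

set_option autoImplicit false

namespace Pool.Agent.H9.Eye

open Real
open scoped ContDiff

theorem den_pos (s c : ℝ) (hc : |c| ≤ 1) : 0 < cosh s - c * sinh s := by
  obtain ⟨h1, h2⟩ := abs_le.1 hc
  have h3 : sinh s < cosh s := Real.sinh_lt_cosh s
  have h4 : -sinh s < cosh s := by
    have := Real.sinh_lt_cosh (-s)
    rwa [Real.sinh_neg, Real.cosh_neg] at this
  have h5 : 0 ≤ (1 + c) * (cosh s - sinh s) := mul_nonneg (by linarith) (by linarith)
  have h6 : 0 ≤ (1 - c) * (cosh s + sinh s) := mul_nonneg (by linarith) (by linarith)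
  rcases le_total 0 c with h | h
  · have h7 : 0 ≤ c * (cosh s - sinh s) := mul_nonneg h (by linarith)
    nlinarith
  · have h7 : 0 ≤ (-c) * (cosh s + sinh s) := mul_nonneg (by linarith) (by linarith)
    nlinarith

theorem den2_pos (s x : ℝ) : 0 < cosh (s / 2) - sinh (s / 2) * cos x := by
  have := den_pos (s / 2) (cos x) (abs_cos_le_one x)
  linarith

/-- basic algebraic data -/
theorem A_trig (s x : ℝ) :
    sin (A s x) = sin x / (cosh s - cos x * sinh s) ∧
    cos (A s x) = (cos x * cosh s - sinh s) / (cosh s - cos x * sinh s) := by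
  set h := sinh (s / 2) with hh
  set k := cosh (s / 2) with hk
  set c := cos x with hc
  set S := sin x with hS
  have hkh : k ^ 2 - h ^ 2 = 1 := by rw [hk, hh]; exact Real.cosh_sq_sub_sinh_sq _
  have hSc : S ^ 2 + c ^ 2 = 1 := by rw [hS, hc]; exact Real.sin_sq_add_cos_sq x
  have e1 : sinh s = 2 * h * k := by
    rw [hh, hk, ← Real.sinh_two_mul]; ring_nf
  have e2 : cosh s = k ^ 2 + h ^ 2 := by
    rw [hh, hk, ← Real.cosh_two_mul]; ring_nf
  have hD : 0 < k - h * c := den2_pos s x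
  have hK : 0 < cosh s - c * sinh s := den_pos s c (abs_cos_le_one x)
  set t := h * S / (k - h * c) with ht
  have h1t : 1 + t ^ 2 = (cosh s - c * sinh s) / (k - h * c) ^ 2 := by
    rw [ht, e1, e2]
    field_simp
    linear_combination (h ^ 2) * hSc
  have hcos2 : cos (arctan t) ^ 2 = (k - h * c) ^ 2 / (cosh s - c * sinh s) := by
    rw [Real.cos_sq_arctan, h1t, one_div_div]
  have hsin : sin (arctan t) = t * cos (arctan t) := by
    have h0 : cos (arctan t) ≠ 0 := (Real.cos_arctan_pos t).ne'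
    have h1 : tan (arctan t) = t := Real.tan_arctan t
    rw [Real.tan_eq_sin_div_cos] at h1
    field_simp at h1
    linarith
  have hs2 : sin (2 * arctan t) = 2 * t * ((k - h * c) ^ 2 / (cosh s - c * sinh s)) := by
    rw [Real.sin_two_mul, hsin, ← hcos2]; ring
  have hc2 : cos (2 * arctan t) = (1 - t ^ 2) * ((k - h * c) ^ 2 / (cosh s - c * sinh s)) := by
    rw [Real.cos_two_mul', hsin, ← hcos2]; ring
  have hA : A s x = x + 2 * arctan t := rfl
  rw [hA, Real.sin_add, Real.cos_add, hs2, hc2, ← hc, ← hS, ht]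
  constructor
  · field_simp
    linear_combination (-(S * h ^ 2)) * hSc + S * hkh
  · have hr : (k - h * c) ^ 2 / (cosh s - c * sinh s) * (cosh s - c * sinh s)
        = (k - h * c) ^ 2 := div_mul_cancel₀ _ hK.ne'
    have ht' : t * (k - h * c) = h * S := by rw [ht]; exact div_mul_cancel₀ _ hD.ne'
    rw [← ht, eq_div_iff hK.ne']
    linear_combination (c * (1 - t ^ 2) - S * 2 * t) * hr
      + (-c * (t * (k - h * c) + h * S) - 2 * S * (k - h * c)) * ht'
      + (-c * h ^ 2 - 2 * h * (k - h * c)) * hSc - c * e2 + e1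

theorem A_inv (s x : ℝ) : A (-s) (A s x) = x := by
  obtain ⟨h1, h2⟩ := A_trig s x
  set h := sinh (s / 2) with hh
  set k := cosh (s / 2) with hk
  set c := cos x with hc
  set S := sin x with hS
  have hkh : k ^ 2 - h ^ 2 = 1 := by rw [hk, hh]; exact Real.cosh_sq_sub_sinh_sq _
  have e1 : sinh s = 2 * h * k := by
    rw [hh, hk, ← Real.sinh_two_mul]; ring_nf
  have e2 : cosh s = k ^ 2 + h ^ 2 := by
    rw [hh, hk, ← Real.cosh_two_mul]; ring_nf
  have hD : 0 < k - h * c := den2_pos s x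
  have hK : 0 < cosh s - c * sinh s := den_pos s c (abs_cos_le_one x)
  have hy : A (-s) (A s x) = A s x + 2 * arctan (-(h * S / (k - h * c))) := by
    have hAd : ∀ s' y : ℝ, A s' y = y + 2 * arctan (sinh (s' / 2) * sin y /
        (cosh (s' / 2) - sinh (s' / 2) * cos y)) := fun _ _ => rfl
    rw [hAd (-s) (A s x), h1, h2, neg_div, Real.sinh_neg, Real.cosh_neg, ← hh, ← hk]
    congr 3
    rw [neg_mul, neg_mul, sub_neg_eq_add, neg_div]
    congr 1
    have h3 : k + h * ((c * cosh s - sinh s) / (cosh s - c * sinh s))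
        = (k - h * c) / (cosh s - c * sinh s) := by
      rw [eq_div_iff hK.ne', add_mul, mul_assoc h, div_mul_cancel₀ _ hK.ne', e1, e2]
      linear_combination (k - h * c) * hkh
    rw [h3]
    field_simp
  rw [hy, Real.arctan_neg]
  have hA : A s x = x + 2 * arctan (h * S / (k - h * c)) := rfl
  rw [hA]
  ring

theorem A_inv' (s x : ℝ) : A s (A (-s) x) = x := by
  have := A_inv (-s) x
  rwa [neg_neg] at this

theorem A_per (s x : ℝ) (n : ℤ) : A s (x + n * (2 * π)) = A s x + n * (2 * π) := by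
  unfold A
  rw [Real.cos_add_int_mul_two_pi, Real.sin_add_int_mul_two_pi]
  ring

theorem G_per (x : ℝ) (n : ℤ) : G (x + n * (2 * π)) = G x + n * (2 * π) := by
  unfold G
  have : 2 * (x + n * (2 * π)) = 2 * x + ((2 * n : ℤ) : ℝ) * (2 * π) := by push_cast; ring
  rw [this, A_per]
  push_cast
  ring

theorem Gi_G (x : ℝ) : Gi (G x) = x := by
  unfold Gi G
  rw [mul_div_cancel₀ _ (two_ne_zero), A_inv']
  ring

theorem G_Gi (x : ℝ) : G (Gi x) = x := by
  unfold Gi G
  rw [mul_div_cancel₀ _ (two_ne_zero), A_inv]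
  ring

theorem FFi_FF (w : ℝ × ℝ) : FFi (FF w) = w := by
  unfold FF FFi S3 S2 S1
  simp only [Gi_G]
  ext
  · simp only [A_inv']
    rw [A_inv]
  · simp only [A_inv']

theorem FF_FFi (w : ℝ × ℝ) : FF (FFi w) = w := by
  unfold FF FFi S3 S2 S1
  ext
  · simp only [A_inv']
    rw [G_Gi]
  · simp only [A_inv', A_inv]
    rw [G_Gi]

theorem FF_per (w : ℝ × ℝ) (m n : ℤ) :
    FF (w.1 + m * (2 * π), w.2 + n * (2 * π)) = ((FF w).1 + m * (2 * π), (FF w).2 + n * (2 * π)) := by
  unfold FF S3 S2 S1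
  simp only [Real.cos_add_int_mul_two_pi, A_per, G_per]

theorem A_smooth : ContDiff ℝ ω (fun p : ℝ × ℝ => A p.1 p.2) := by
  unfold A
  have h1 : ContDiff ℝ ω (fun p : ℝ × ℝ => sinh (p.1 / 2)) :=
    (contDiff_fst.div_const 2).sinh
  have h2 : ContDiff ℝ ω (fun p : ℝ × ℝ => cosh (p.1 / 2)) :=
    (contDiff_fst.div_const 2).cosh
  have h3 : ContDiff ℝ ω (fun p : ℝ × ℝ => sin p.2) := contDiff_snd.sin
  have h4 : ContDiff ℝ ω (fun p : ℝ × ℝ => cos p.2) := contDiff_snd.cos
  refine contDiff_snd.add (contDiff_const.mul ?_)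
  have h5 : ContDiff ℝ ω (fun p : ℝ × ℝ => sinh (p.1 / 2) * sin p.2 /
      (cosh (p.1 / 2) - sinh (p.1 / 2) * cos p.2)) :=
    (h1.mul h3).div (h2.sub (h1.mul h4)) (fun p => (den2_pos p.1 p.2).ne')
  exact Real.contDiff_arctan.comp h5

theorem A_smooth' {f g : ℝ × ℝ → ℝ} (hf : ContDiff ℝ ω f) (hg : ContDiff ℝ ω g) :
    ContDiff ℝ ω (fun w => A (f w) (g w)) :=
  A_smooth.comp (hf.prodMk hg)

theorem FF_smooth : ContDiff ℝ ω FF := by
  unfold FF S3 S2 S1 G
  have h1 : ContDiff ℝ ω (fun w : ℝ × ℝ => A (al * cos w.2) w.1) :=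
    A_smooth' (contDiff_const.mul contDiff_snd.cos) contDiff_fst
  have h2 : ContDiff ℝ ω (fun w : ℝ × ℝ => A (-(al * cos (A (al * cos w.2) w.1))) w.2) :=
    A_smooth' (contDiff_const.mul h1.cos).neg contDiff_snd
  refine ContDiff.prodMk ?_ ?_
  · exact (A_smooth' contDiff_const (contDiff_const.mul h1)).div_const 2
  · exact (A_smooth' contDiff_const (contDiff_const.mul h2)).div_const 2

theorem FFi_smooth : ContDiff ℝ ω FFi := by
  unfold FFi Gi
  have h1 : ContDiff ℝ ω (fun w : ℝ × ℝ => A el (2 * w.1) / 2) :=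
    (A_smooth' contDiff_const (contDiff_const.mul contDiff_fst)).div_const 2
  have h2 : ContDiff ℝ ω (fun w : ℝ × ℝ => A el (2 * w.2) / 2) :=
    (A_smooth' contDiff_const (contDiff_const.mul contDiff_snd)).div_const 2
  have h3 : ContDiff ℝ ω (fun w : ℝ × ℝ =>
      A (al * cos (A el (2 * w.1) / 2)) (A el (2 * w.2) / 2)) :=
    A_smooth' (contDiff_const.mul h1.cos) h2
  refine ContDiff.prodMk ?_ h3
  exact A_smooth' (contDiff_const.mul h3.cos).neg h1

end Pool.Agent.H9.Eye
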