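import Mathlib

set_option autoImplicit false

open MeasureTheory

namespace Pool.Agent.H9.Friedrichs

/-- the square -/
def Sq : Set ℂ := {z : ℂ | |z.re| < 1 ∧ |z.im| < 1}

lemma Sq_eq : Sq = Complex.measurableEquivRealProd ⁻¹' (Set.Ioo (-1:ℝ) 1 ×ˢ Set.Ioo (-1:ℝ) 1) := by
  ext z
  simp [Sq, Complex.measurableEquivRealProd, abs_lt, Set.mem_prod]

lemma Sq_bdd_cont (F : ℝ → ℝ → ℝ) (hF : Continuous (Function.uncurry F)) :
    IntegrableOn (Function.uncurry F) (Set.Ioo (-1:ℝ) 1 ×ˢ Set.Ioo (-1:ℝ) 1) := by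
  have hc : IsCompact (Set.Icc (-1:ℝ) 1 ×ˢ Set.Icc (-1:ℝ) 1) := isCompact_Icc.prod isCompact_Icc
  exact (hF.continuousOn.integrableOn_compact hc).mono_set
    (Set.prod_mono Set.Ioo_subset_Icc_self Set.Ioo_subset_Icc_self)

lemma integ_Sq (F : ℝ → ℝ → ℝ) : ∫ z in Sq, F z.re z.im =
    ∫ p in Set.Ioo (-1:ℝ) 1 ×ˢ Set.Ioo (-1:ℝ) 1, F p.1 p.2 := by
  rw [Sq_eq]
  have := (Complex.volume_preserving_equiv_real_prod).setIntegral_preimage_emb
    (Complex.measurableEquivRealProd.measurableEmbedding) (fun p => F p.1 p.2)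
    (Set.Ioo (-1:ℝ) 1 ×ˢ Set.Ioo (-1:ℝ) 1)
  rw [← this]
  rfl

lemma integrable_Sq (F : ℝ → ℝ → ℝ) (hF : Continuous (Function.uncurry F)) :
    IntegrableOn (fun z : ℂ => F z.re z.im) Sq := by
  rw [Sq_eq]
  have := (Complex.volume_preserving_equiv_real_prod).integrableOn_comp_preimage
    (Complex.measurableEquivRealProd.measurableEmbedding) (f := Function.uncurry F)
    (s := Set.Ioo (-1:ℝ) 1 ×ˢ Set.Ioo (-1:ℝ) 1)
  exact this.2 (Sq_bdd_cont F hF)

noncomputable def m (a : ℕ) : ℝ := (1 - (-1)^(a+1)) / (a+1)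

lemma integ_mono (a b : ℕ) : ∫ z in Sq, z.re^a * z.im^b = m a * m b := by
  rw [integ_Sq (fun x y => x^a * y^b)]
  have h := setIntegral_prod_mul (μ := (volume : Measure ℝ)) (ν := (volume : Measure ℝ))
    (fun x : ℝ => x^a) (fun y : ℝ => y^b) (Set.Ioo (-1:ℝ) 1) (Set.Ioo (-1:ℝ) 1)
  have hm : ∀ c : ℕ, ∫ x in Set.Ioo (-1:ℝ) 1, x^c = m c := by
    intro c
    rw [← integral_Ioc_eq_integral_Ioo, ← intervalIntegral.integral_of_le (by norm_num), integral_pow]
    simp [m]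
  rw [hm, hm] at h
  exact h

/-- evaluation of a list of monomials -/
def ev (L : List (ℝ × ℕ × ℕ)) (x y : ℝ) : ℝ := (L.map (fun t => t.1 * (x^t.2.1 * y^t.2.2))).sum

noncomputable def iv (L : List (ℝ × ℕ × ℕ)) : ℝ := (L.map (fun t => t.1 * (m t.2.1 * m t.2.2))).sum

lemma ev_cont (L : List (ℝ × ℕ × ℕ)) : Continuous (Function.uncurry (ev L)) := by
  induction L with
  | nil => simp [ev, Function.uncurry_def]; exact continuous_const
  | cons t L ih =>
    have : Function.uncurry (ev (t :: L)) = fun p : ℝ × ℝ =>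
        t.1 * (p.1^t.2.1 * p.2^t.2.2) + Function.uncurry (ev L) p := by
      ext p; simp [ev, Function.uncurry_def]
    rw [this]
    fun_prop

lemma integ_ev (L : List (ℝ × ℕ × ℕ)) : ∫ z in Sq, ev L z.re z.im = iv L := by
  induction L with
  | nil => simp [ev, iv]
  | cons t L ih =>
    have h1 : (fun z : ℂ => ev (t :: L) z.re z.im) = fun z : ℂ =>
        t.1 * (z.re^t.2.1 * z.im^t.2.2) + ev L z.re z.im := by
      ext z; simp [ev]
    rw [h1, integral_add, integral_const_mul, integ_mono, ih]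
    · simp [iv]
    · exact (integrable_Sq (fun x y => t.1 * (x^t.2.1 * y^t.2.2)) (by
        show Continuous (fun p : ℝ × ℝ => t.1 * (p.1^t.2.1 * p.2^t.2.2))
        fun_prop))
    · exact integrable_Sq _ (ev_cont L)

end Pool.Agent.H9.Friedrichs
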