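import Mathlib

set_option autoImplicit false

open Set

namespace Pool.Agent.H9.Klarner

/-- the multiplier attached to a real number -/
noncomputable def mul (v : ℝ) : ℕ :=
  if Int.fract v < 1/2 then 2 else if Int.fract v < 2/3 then 6 else 3

/-- the expanding map -/
noncomputable def T (v : ℝ) : ℝ := (mul v : ℝ) * v

lemma two_le_mul (v : ℝ) : 2 ≤ mul v := by
  unfold mul; split_ifs <;> norm_num

lemma fract_of (w : ℝ) (a : ℤ) (h1 : (a:ℝ) ≤ w) (h2 : w < a + 1) : Int.fract w = w - a := by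
  have : ⌊w⌋ = a := Int.floor_eq_iff.2 ⟨h1, h2⟩
  rw [Int.fract, this]

lemma mul_congr (w w' : ℝ) (h : ⌊(mul w:ℝ)*w'⌋ = ⌊(mul w:ℝ)*w⌋) : mul w' = mul w := by
  have e : w = ⌊w⌋ + Int.fract w := (Int.floor_add_fract w).symm
  have f0 := Int.fract_nonneg w
  have f1 := Int.fract_lt_one w
  set a := ⌊w⌋
  set f := Int.fract w with hf
  by_cases h1 : f < 1/2
  · have hm : mul w = 2 := by unfold mul; rw [if_pos h1]
    rw [hm] at h ⊢
    have h2 : ⌊((2:ℕ):ℝ)*w⌋ = 2*a := by
      rw [Int.floor_eq_iff]; push_cast; constructor <;> rw [e] <;> linarith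
    rw [h2, Int.floor_eq_iff] at h
    push_cast at h
    have : Int.fract w' = w' - a := fract_of w' a (by linarith [h.1]) (by linarith [h.2])
    unfold mul
    rw [if_pos (by rw [this]; linarith [h.2])]
  · by_cases h3 : f < 2/3
    · have hm : mul w = 6 := by unfold mul; rw [if_neg h1, if_pos h3]
      rw [hm] at h ⊢
      have h2 : ⌊((6:ℕ):ℝ)*w⌋ = 6*a+3 := by
        rw [Int.floor_eq_iff]; push_cast; constructor <;> rw [e] <;> linarith
      rw [h2, Int.floor_eq_iff] at h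
      push_cast at h
      have : Int.fract w' = w' - a := fract_of w' a (by linarith [h.1]) (by linarith [h.2])
      unfold mul
      rw [if_neg (by rw [this]; linarith [h.1]), if_pos (by rw [this]; linarith [h.2])]
    · have hm : mul w = 3 := by unfold mul; rw [if_neg h1, if_neg h3]
      rw [hm] at h ⊢
      have h2 : ⌊((3:ℕ):ℝ)*w⌋ = 3*a+2 := by
        rw [Int.floor_eq_iff]; push_cast; constructor <;> rw [e] <;> linarith
      rw [h2, Int.floor_eq_iff] at h
      push_cast at h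
      have : Int.fract w' = w' - a := fract_of w' a (by linarith [h.1]) (by linarith [h.2])
      unfold mul
      rw [if_neg (by rw [this]; linarith [h.1]), if_neg (by rw [this]; linarith [h.1])]

lemma iter_form (k : ℕ) (v : ℝ) : ∃ n : ℕ, 0 < n ∧ T^[k] v = n * v := by
  induction k with
  | zero => exact ⟨1, one_pos, by simp⟩
  | succ k ih =>
    obtain ⟨n, hn, h⟩ := ih
    refine ⟨mul (n * v) * n, Nat.mul_pos (by have := two_le_mul (n*v); omega) hn, ?_⟩
    rw [Function.iterate_succ_apply', h, T]; push_cast; ring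

lemma floor_nat_mul_congr (m : ℕ) (hm : 0 < m) (x y : ℝ) (h : ⌊(m:ℝ)*x⌋ = ⌊(m:ℝ)*y⌋) :
    ⌊x⌋ = ⌊y⌋ := by
  have hx : ⌊((m:ℝ)*x) / (m:ℕ)⌋ = ⌊(m:ℝ)*x⌋ / (m:ℕ) := Int.floor_div_natCast _ _
  have hy : ⌊((m:ℝ)*y) / (m:ℕ)⌋ = ⌊(m:ℝ)*y⌋ / (m:ℕ) := Int.floor_div_natCast _ _
  have hm' : (m:ℝ) ≠ 0 := by positivity
  rw [mul_div_cancel_left₀ _ hm'] at hx hy
  rw [hx, hy, h]

/-- cylinder property -/
lemma cyl (k : ℕ) : ∀ (z z' : ℝ) (M : ℕ), z ≠ 0 → T^[k] z = M * z →
    ⌊(M:ℝ) * z'⌋ = ⌊(M:ℝ) * z⌋ → T^[k] z' = M * z' := by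
  induction k with
  | zero =>
    intro z z' M hz h _
    simp only [Function.iterate_zero, id] at h ⊢
    have : (M:ℝ) = 1 := by
      have : ((M:ℝ) - 1) * z = 0 := by linarith
      rcases mul_eq_zero.1 this with h | h
      · linarith
      · exact absurd h hz
    rw [this, one_mul]
  | succ k ih =>
    intro z z' M hz h hf
    obtain ⟨n, hn, hk⟩ := iter_form k z
    rw [Function.iterate_succ_apply', hk, T] at h
    have hM : M = mul (n*z) * n := by
      have : (M:ℝ) = (mul (n*z) * n : ℕ) := by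
        push_cast
        have h0 : ((M:ℝ) - mul (n*z) * n) * z = 0 := by linarith
        rcases mul_eq_zero.1 h0 with h | h
        · linarith
        · exact absurd h hz
      exact_mod_cast this
    have hmp : 0 < mul (n*z) := by have := two_le_mul (n*z); omega
    have hf' : ⌊(mul (n*z):ℝ) * (n * z')⌋ = ⌊(mul (n*z):ℝ) * (n * z)⌋ := by
      rw [hM] at hf; push_cast at hf; rw [← mul_assoc, ← mul_assoc]; exact hf
    have h1 : ⌊(n:ℝ)*z'⌋ = ⌊(n:ℝ)*z⌋ := floor_nat_mul_congr _ hmp _ _ hf'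
    have h2 := ih z z' n hz hk h1
    rw [Function.iterate_succ_apply', h2, T, mul_congr _ _ hf', hM]; push_cast; ring

lemma iter_double (x : ℝ) (n : ℤ) (i : ℕ) (h1 : (n:ℝ) ≤ x) (h2 : (2:ℝ)^i * (x - n) < 1) :
    T^[i] x = 2^i * x := by
  induction i with
  | zero => simp
  | succ i ih =>
    have h3 : (2:ℝ)^i * (x - n) < 1/2 := by rw [pow_succ] at h2; linarith
    rw [Function.iterate_succ_apply', ih (by linarith), T]
    have h4 : Int.fract ((2:ℝ)^i * x) = 2^i * x - ((2^i * n : ℤ) : ℝ) := by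
      apply fract_of
      · push_cast
        have : (0:ℝ) < 2^i := by positivity
        nlinarith
      · push_cast; nlinarith
    have h5 : mul ((2:ℝ)^i * x) = 2 := by
      unfold mul
      rw [if_pos]
      rw [h4]; push_cast; nlinarith
    rw [h5, pow_succ]; push_cast; ring

/-- orbits meet -/
def Meet (v w : ℝ) : Prop := ∃ k l : ℕ, T^[k] v = T^[l] w

lemma Meet.refl (v : ℝ) : Meet v v := ⟨0, 0, rfl⟩
lemma Meet.symm {v w : ℝ} (h : Meet v w) : Meet w v := by
  obtain ⟨k, l, h⟩ := h; exact ⟨l, k, h.symm⟩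
lemma Meet.trans {u v w : ℝ} (h1 : Meet u v) (h2 : Meet v w) : Meet u w := by
  obtain ⟨k, l, h1⟩ := h1
  obtain ⟨i, j, h2⟩ := h2
  refine ⟨i + k, l + j, ?_⟩
  rw [Function.iterate_add_apply, h1, ← Function.iterate_add_apply, add_comm i l,
    Function.iterate_add_apply, h2, ← Function.iterate_add_apply]
lemma Meet.of_iter (v : ℝ) (k : ℕ) : Meet v (T^[k] v) := ⟨k, 0, rfl⟩

/-! ### zeta -/

def zp (v : ℝ) (N : ℕ) : Prop :=
  (1/2 : ℝ) ≤ Int.fract ((2:ℝ)^N * v) ∨ ∀ M : ℕ, Int.fract ((2:ℝ)^M * v) < 1/2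

noncomputable instance (v : ℝ) : DecidablePred (zp v) := fun _ => Classical.propDecidable _

lemma zp_ex (v : ℝ) : ∃ N, zp v N := by
  by_cases h : ∀ M : ℕ, Int.fract ((2:ℝ)^M * v) < 1/2
  · exact ⟨0, Or.inr h⟩
  · push Not at h
    obtain ⟨N, hN⟩ := h
    exact ⟨N, Or.inl hN⟩

noncomputable def zeta (v : ℝ) : ℕ := Nat.find (zp_ex v)

lemma fract_double (v : ℝ) (i : ℕ) (h : ∀ j < i, Int.fract ((2:ℝ)^j * v) < 1/2) :
    Int.fract ((2:ℝ)^i * v) = 2^i * Int.fract v := by
  induction i with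
  | zero => simp
  | succ i ih =>
    have ih' := ih (fun j hj => h j (by omega))
    have h2 := h i (by omega)
    have e : (2:ℝ)^i * v = ⌊(2:ℝ)^i*v⌋ + Int.fract ((2:ℝ)^i*v) := (Int.floor_add_fract _).symm
    have f0 := Int.fract_nonneg ((2:ℝ)^i*v)
    rw [fract_of ((2:ℝ)^(i+1)*v) (2*⌊(2:ℝ)^i*v⌋)]
    · rw [pow_succ]; push_cast
      rw [show (2:ℝ)^i * 2 * v - 2 * ⌊(2:ℝ)^i*v⌋ = 2 * ((2:ℝ)^i*v - ⌊(2:ℝ)^i*v⌋) by ring]
      have : (2:ℝ)^i*v - ⌊(2:ℝ)^i*v⌋ = Int.fract ((2:ℝ)^i*v) := rfl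
      rw [this, ih']; ring
    · rw [pow_succ]; push_cast
      linarith
    · rw [pow_succ]; push_cast
      linarith

lemma zeta_ex (v : ℝ) (h : 0 < Int.fract v) : ∃ N : ℕ, (1/2:ℝ) ≤ Int.fract ((2:ℝ)^N * v) := by
  by_contra hc
  push Not at hc
  obtain ⟨n, hn⟩ := pow_unbounded_of_one_lt (1 / Int.fract v) (by norm_num : (1:ℝ) < 2)
  have h1 := fract_double v n (fun j _ => hc j)
  have h2 := Int.fract_lt_one ((2:ℝ)^n*v)
  rw [h1] at h2
  rw [div_lt_iff₀ h] at hn
  linarith

lemma zeta_spec (v : ℝ) (h : 0 < Int.fract v) :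
    (1/2:ℝ) ≤ Int.fract ((2:ℝ)^(zeta v) * v) ∧ ∀ i < zeta v, Int.fract ((2:ℝ)^i * v) < 1/2 := by
  obtain ⟨N, hN⟩ := zeta_ex v h
  constructor
  · rcases Nat.find_spec (zp_ex v) with h1 | h1
    · exact h1
    · exact absurd (h1 N) (not_lt.2 hN)
  · intro i hi
    have := Nat.find_min (zp_ex v) hi
    unfold zp at this
    push Not at this
    exact this.1

lemma zeta_eq (v : ℝ) (N : ℕ) (h1 : (1/2:ℝ) ≤ Int.fract ((2:ℝ)^N * v))
    (h2 : ∀ i < N, Int.fract ((2:ℝ)^i * v) < 1/2) : zeta v = N := by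
  unfold zeta
  rw [Nat.find_eq_iff]
  refine ⟨Or.inl h1, fun i hi => ?_⟩
  unfold zp
  push Not
  exact ⟨h2 i hi, N, h1⟩

open Classical in
noncomputable def delta (v : ℝ) : ℕ :=
  zeta v + if Int.fract ((2:ℝ)^(zeta v) * v) < 2/3 then 1 else 0

noncomputable def R (v : ℝ) : ℝ := 3 * 2^(delta v) * v

lemma two_pow_zeta (v : ℝ) (h : 0 < Int.fract v) : (2:ℝ)^(zeta v) * Int.fract v < 1 := by
  rw [← fract_double v _ (zeta_spec v h).2]
  exact Int.fract_lt_one _

lemma R_reach (v : ℝ) (h : 0 < Int.fract v) : ∃ k, T^[k] v = R v := by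
  refine ⟨zeta v + 1, ?_⟩
  rw [Function.iterate_succ_apply', iter_double v ⌊v⌋ (zeta v) (Int.floor_le v)
    (by have := two_pow_zeta v h; rwa [Int.fract] at this), T, R, delta]
  have hs := (zeta_spec v h).1
  unfold mul
  rw [if_neg (not_lt.2 hs)]
  by_cases h3 : Int.fract ((2:ℝ)^(zeta v) * v) < 2/3
  · rw [if_pos h3, if_pos h3, pow_succ]; push_cast; ring
  · rw [if_neg h3, if_neg h3]; push_cast; ring

noncomputable def s : ℕ → ℝ → ℕ
  | 0, _ => 0
  | (b+1), v => delta v + s b (R v)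

lemma R_iter (b : ℕ) : ∀ v : ℝ, R^[b] v = 3^b * 2^(s b v) * v := by
  induction b with
  | zero => intro v; simp [s]
  | succ b ih =>
    intro v
    rw [Function.iterate_succ_apply, ih, R]
    simp only [s, R]
    rw [pow_succ, pow_add]; ring

lemma irr_fract (v : ℝ) (h : Irrational v) : 0 < Int.fract v := by
  rcases (Int.fract_nonneg v).lt_or_eq with h1 | h1
  · exact h1
  · exfalso
    apply h
    rw [eq_comm, Int.fract_eq_iff] at h1
    obtain ⟨_, _, z, hz⟩ := h1
    exact ⟨z, by rw [sub_zero] at hz; rw [hz]; simp⟩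

lemma irr_R (v : ℝ) (h : Irrational v) : Irrational (R v) := by
  unfold R
  have : ((3 * 2^(delta v) : ℕ) : ℝ) = 3 * 2^(delta v) := by push_cast; ring
  rw [← this]
  exact h.natCast_mul (by positivity)

lemma irr_Riter (b : ℕ) (v : ℝ) (h : Irrational v) : Irrational (R^[b] v) := by
  induction b with
  | zero => simpa
  | succ b ih => rw [Function.iterate_succ_apply']; exact irr_R _ ih

lemma R_iter_reach (b : ℕ) (v : ℝ) (h : Irrational v) : ∃ k, T^[k] v = R^[b] v := by
  induction b with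
  | zero => exact ⟨0, rfl⟩
  | succ b ih =>
    obtain ⟨k, hk⟩ := ih
    obtain ⟨j, hj⟩ := R_reach (R^[b] v) (irr_fract _ (irr_Riter b v h))
    refine ⟨j + k, ?_⟩
    rw [Function.iterate_add_apply, hk, hj, Function.iterate_succ_apply']

lemma irr_two_pow (v : ℝ) (h : Irrational v) (g : ℕ) : Irrational ((2:ℝ)^g * v) := by
  have : ((2^g : ℕ) : ℝ) = 2^g := by push_cast; ring
  rw [← this]
  exact h.natCast_mul (by positivity)

lemma delta_le (v : ℝ) (g : ℕ) (hv : Irrational v) : delta v ≤ g + delta ((2:ℝ)^g * v) := by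
  have h1 := zeta_spec v (irr_fract v hv)
  by_cases hc : g ≤ zeta v
  · have hz : zeta ((2:ℝ)^g * v) = zeta v - g := by
      apply zeta_eq
      · rw [← mul_assoc, ← pow_add, Nat.sub_add_cancel hc]; exact h1.1
      · intro i hi
        rw [← mul_assoc, ← pow_add]; exact h1.2 _ (by omega)
    unfold delta
    rw [hz, ← mul_assoc, ← pow_add, Nat.sub_add_cancel hc]
    omega
  · unfold delta
    split_ifs <;> omega

lemma s_le (b : ℕ) : ∀ (v : ℝ) (g : ℕ), Irrational v → s b v ≤ g + s b ((2:ℝ)^g * v) := by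
  induction b with
  | zero => intro v g _; simp [s]
  | succ b ih =>
    intro v g hv
    have h1 := delta_le v g hv
    obtain ⟨g', hg'⟩ := Nat.exists_eq_add_of_le h1
    have h2 : R ((2:ℝ)^g * v) = 2^g' * R v := by
      unfold R
      have : (2:ℝ)^(delta ((2:ℝ)^g*v)) * 2^g = 2^(delta v) * 2^g' := by
        rw [← pow_add, ← pow_add]; congr 1; omega
      calc 3 * 2^(delta ((2:ℝ)^g*v)) * ((2:ℝ)^g*v)
          = 3 * ((2:ℝ)^(delta ((2:ℝ)^g*v)) * 2^g) * v := by ring
        _ = _ := by rw [this]; ring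
    simp only [s]
    rw [h2]
    have := ih (R v) g' (irr_R v hv)
    omega

/-! ### periodicity -/

lemma zeta_add_one (v : ℝ) : zeta (v + 1) = zeta v := by
  have h : ∀ M : ℕ, Int.fract ((2:ℝ)^M * (v+1)) = Int.fract ((2:ℝ)^M * v) := by
    intro M
    have : (2:ℝ)^M * (v+1) = (2:ℝ)^M*v + ((2^M : ℕ):ℝ) := by push_cast; ring
    rw [this, Int.fract_add_natCast]
  unfold zeta
  rw [Nat.find_eq_iff]
  have h3 : ∀ n, zp (v+1) n ↔ zp v n := by
    intro n; unfold zp; simp only [h]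
  refine ⟨(h3 _).2 (Nat.find_spec (zp_ex v)), fun n hn => ?_⟩
  rw [h3]; exact Nat.find_min _ hn

lemma delta_add_one (v : ℝ) : delta (v + 1) = delta v := by
  unfold delta
  rw [zeta_add_one]
  have : (2:ℝ)^(zeta v) * (v+1) = (2:ℝ)^(zeta v)*v + ((2^(zeta v) : ℕ):ℝ) := by push_cast; ring
  rw [this, Int.fract_add_natCast]

lemma s_add_nat (b : ℕ) : ∀ (v : ℝ) (n : ℕ), s b (v + n) = s b v := by
  induction b with
  | zero => intro v n; simp [s]
  | succ b ih =>
    have key : ∀ v : ℝ, s (b+1) (v + 1) = s (b+1) v := by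
      intro v
      simp only [s, delta_add_one]
      have : R (v + 1) = R v + ((3 * 2^(delta v) : ℕ) : ℝ) := by
        unfold R; rw [delta_add_one]; push_cast; ring
      rw [this, ih]
    intro v n
    induction n with
    | zero => simp
    | succ n ihn =>
      rw [Nat.cast_succ, ← add_assoc, key, ihn]

/-! ### measurability -/

lemma measurable_zeta : Measurable zeta := by
  unfold zeta
  apply measurable_find
  intro k
  have h1 : ∀ M : ℕ, Measurable (fun v : ℝ => Int.fract ((2:ℝ)^M * v)) := fun M =>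
    measurable_fract.comp (measurable_const_mul _)
  have : {x : ℝ | zp x k} = {x | (1/2:ℝ) ≤ Int.fract ((2:ℝ)^k * x)} ∪
      ⋂ M : ℕ, {x | Int.fract ((2:ℝ)^M * x) < 1/2} := by
    ext x; simp [zp]
  rw [this]
  refine MeasurableSet.union (measurableSet_le measurable_const (h1 k)) ?_
  exact MeasurableSet.iInter (fun M => measurableSet_lt (h1 M) measurable_const)

lemma measurable_delta : Measurable delta := by
  unfold delta
  refine measurable_zeta.add ?_
  refine Measurable.ite ?_ measurable_const measurable_const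
  have h2 : Measurable (fun v : ℝ => Int.fract ((2:ℝ)^(zeta v) * v)) := by
    refine measurable_fract.comp ?_
    refine Measurable.mul ?_ measurable_id
    exact (measurable_of_countable (fun n : ℕ => (2:ℝ)^n)).comp measurable_zeta
  exact measurableSet_lt h2 measurable_const

lemma measurable_R : Measurable R := by
  unfold R
  refine Measurable.mul (Measurable.mul measurable_const ?_) measurable_id
  exact (measurable_of_countable (fun n : ℕ => (2:ℝ)^n)).comp measurable_delta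

lemma measurable_s (b : ℕ) : Measurable (s b) := by
  induction b with
  | zero => exact measurable_const
  | succ b ih => exact measurable_delta.add (ih.comp measurable_R)

end Pool.Agent.H9.Klarner
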