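import Mathlib
import Pool.Agent.H9.KlarnerDyn

set_option autoImplicit false

open Set

namespace Pool.Agent.H9.Klarner

lemma fract_lower (q k : ℕ) (hq : ¬ 3 ∣ q) : 1 ≤ Int.fract ((q:ℝ)/3^(k+1)) * 3^(k+1) := by
  set n := ⌊(q:ℝ)/3^(k+1)⌋ with hn
  have h3 : (0:ℝ) < 3^(k+1) := by positivity
  have e : Int.fract ((q:ℝ)/3^(k+1)) * 3^(k+1) = (((q:ℤ) - n * 3^(k+1) : ℤ) : ℝ) := by
    rw [Int.fract, ← hn]; push_cast
    field_simp
  have h0 : 0 ≤ Int.fract ((q:ℝ)/3^(k+1)) * 3^(k+1) := by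
    have := Int.fract_nonneg ((q:ℝ)/3^(k+1)); positivity
  rw [e] at h0 ⊢
  have h1 : (0:ℤ) ≤ (q:ℤ) - n * 3^(k+1) := by exact_mod_cast h0
  have h2 : (q:ℤ) - n * 3^(k+1) ≠ 0 := by
    intro h
    apply hq
    have : (3:ℤ) ∣ (q:ℤ) := ⟨n * 3^k, by rw [pow_succ] at h; linarith⟩
    exact_mod_cast this
  have : (1:ℤ) ≤ (q:ℤ) - n * 3^(k+1) := by omega
  exact_mod_cast this

lemma anchor (K : ℕ) : ∀ (k : ℕ) (q : ℕ), k ≤ K → ¬ 3 ∣ q → ∃ (j s : ℕ),
    T^[j] ((q:ℝ)/3^k) = 2^s * 3^k * ((q:ℝ)/3^k) ∧ ((2:ℝ)^s*3^k) ≤ (6*3^K)^k := by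
  intro k
  induction k with
  | zero => intro q _ _; exact ⟨0, 0, by simp, by simp⟩
  | succ k ih =>
    intro q hk hq
    set α : ℝ := (q:ℝ)/3^(k+1) with hα
    have hlow := fract_lower q k hq
    rw [← hα] at hlow
    have h3 : (0:ℝ) < 3^(k+1) := by positivity
    have hf : 0 < Int.fract α := by
      by_contra h
      have : Int.fract α = 0 := le_antisymm (not_lt.1 h) (Int.fract_nonneg _)
      rw [this] at hlow; norm_num at hlow
    obtain ⟨j0, hj0⟩ := R_reach α hf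
    have hR : R α = ((2^(delta α) * q : ℕ) : ℝ)/3^k := by
      rw [R, hα, pow_succ]; push_cast; field_simp
    have hq' : ¬ 3 ∣ 2^(delta α) * q := by
      intro h
      rcases (Nat.Prime.dvd_mul Nat.prime_three).1 h with h | h
      · have := Nat.Prime.dvd_of_dvd_pow Nat.prime_three h
        norm_num at this
      · exact hq h
    obtain ⟨j, s', h1, h2⟩ := ih (2^(delta α) * q) (by omega) hq'
    rw [← hR] at h1
    refine ⟨j + j0, s' + delta α, ?_, ?_⟩
    · rw [Function.iterate_add_apply, hj0, h1, R, pow_add, pow_succ]; ring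
    · have hz := two_pow_zeta α hf
      have hz2 : (2:ℝ)^(zeta α) ≤ 3^(k+1) := by
        by_contra hc
        push Not at hc
        have : (3:ℝ)^(k+1) * Int.fract α < 1 := lt_of_le_of_lt
          (mul_le_mul_of_nonneg_right hc.le hf.le) hz
        linarith
      have hd : (2:ℝ)^(delta α) ≤ 2 * 2^(zeta α) := by
        unfold delta
        split_ifs
        · rw [pow_succ]; linarith
        · rw [add_zero]; have : (0:ℝ) < 2^(zeta α) := by positivity
          linarith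
      have hK : (3:ℝ)^(k+1) ≤ 3^K := pow_le_pow_right₀ (by norm_num) hk
      calc (2:ℝ)^(s' + delta α) * 3^(k+1) = (2^s' * 3^k) * (3 * 2^(delta α)) := by
            rw [pow_add, pow_succ]; ring
        _ ≤ (6*3^K)^k * (6 * 3^K) := by
            apply mul_le_mul h2 _ (by positivity) (by positivity)
            linarith
        _ = _ := by rw [pow_succ]

lemma exists_q (g k U : ℕ) (h : 3 * 2^g ≤ 3^k) :
    ∃ q : ℕ, ¬ 3 ∣ q ∧ 3^k * U ≤ 2^g * q ∧ 2^g * q < 3^k * (U+1) := by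
  set q0 := 3^k * U / 2^g + 1 with hq0
  have h2 : 0 < 2^g := by positivity
  have h3 : 3^k * U < 2^g * q0 := Nat.lt_mul_div_succ _ h2
  have h4 : 2^g * (3^k * U / 2^g) ≤ 3^k * U := Nat.mul_div_le _ _
  have h5 : 2^g * q0 = 2^g * (3^k * U / 2^g) + 2^g := by rw [hq0]; ring
  by_cases hd : 3 ∣ q0
  · refine ⟨q0 + 1, by omega, by nlinarith, by nlinarith⟩
  · exact ⟨q0, hd, by omega, by nlinarith⟩

lemma coal_interval (Rr : ℕ) : ∃ c : ℝ, 0 < c ∧ ∀ g ≤ Rr, ∀ U : ℕ, ∃ x : ℝ,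
    (U:ℝ) ≤ x ∧ x + c ≤ U + 1 ∧ ∀ w : ℝ, x ≤ w → w < x + c → Meet w (w/2^g) := by
  set k := Rr + 1 with hk
  set B : ℝ := (6*3^k)^k with hB
  have hBpos : 0 < B := by positivity
  refine ⟨1/B, by positivity, fun g hg U => ?_⟩
  have h0 : 3 * 2^g ≤ 3^k := by
    rw [hk, pow_succ, mul_comm]
    apply Nat.mul_le_mul_right
    calc 2^g ≤ 3^g := Nat.pow_le_pow_left (by norm_num) _
      _ ≤ 3^Rr := Nat.pow_le_pow_right (by norm_num) hg
  obtain ⟨q, hq, hq1, hq2⟩ := exists_q g k U h0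
  have hqpos : 0 < q := by
    rcases Nat.eq_zero_or_pos q with h | h
    · subst h; simp at hq
    · exact h
  obtain ⟨j1, s1, h1, hb1⟩ := anchor k k q le_rfl hq
  have hq' : ¬ 3 ∣ 2^g * q := by
    intro h
    rcases (Nat.Prime.dvd_mul Nat.prime_three).1 h with h | h
    · have := Nat.Prime.dvd_of_dvd_pow Nat.prime_three h
      norm_num at this
    · exact hq h
  obtain ⟨j2, s2, h2, hb2⟩ := anchor k k (2^g * q) le_rfl hq'
  have h3k : (0:ℝ) < 3^k := by positivity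
  set x : ℝ := ((2^g * q : ℕ) : ℝ)/3^k with hx
  have hxa : x / 2^g = (q:ℝ)/3^k := by rw [hx]; push_cast; field_simp
  have hxpos : 0 < x := by rw [hx]; positivity
  have hapos : 0 < (q:ℝ)/3^k := by positivity
  have hBk : (3:ℝ)^k ≤ B := by
    rw [hB]
    apply pow_le_pow_left₀ (by norm_num)
    have : (1:ℝ) ≤ 3^k := one_le_pow₀ (by norm_num)
    linarith
  refine ⟨x, ?_, ?_, ?_⟩
  · rw [hx, le_div_iff₀ h3k]
    have : (3^k * U : ℕ) ≤ (2^g * q : ℕ) := hq1
    have : ((3^k * U : ℕ):ℝ) ≤ ((2^g * q : ℕ):ℝ) := by exact_mod_cast this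
    push_cast at this ⊢; linarith
  · have h4 : x + 1/3^k ≤ U + 1 := by
      rw [hx, ← add_div, div_le_iff₀ h3k]
      have : (2^g * q : ℕ) + 1 ≤ 3^k * (U+1) := hq2
      have : ((2^g * q : ℕ):ℝ) + 1 ≤ ((3^k * (U+1) : ℕ):ℝ) := by exact_mod_cast this
      push_cast at this ⊢; linarith
    have h5 : 1/B ≤ 1/3^k := one_div_le_one_div_of_le h3k hBk
    linarith
  · intro w hw1 hw2
    set e := w - x with he
    have he0 : 0 ≤ e := by linarith
    have he1 : e * B < 1 := by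
      have : e < 1/B := by linarith
      rwa [lt_div_iff₀ hBpos] at this
    -- walker 2
    have M2e : (2:ℝ)^s2 * 3^k * e < 1 := by
      have := mul_le_mul_of_nonneg_right hb2 he0
      rw [← hB] at this; linarith
    have M1e : (2:ℝ)^s1 * 3^k * (e / 2^g) < 1 := by
      have h6 : e / 2^g ≤ e := div_le_self he0 (one_le_pow₀ (by norm_num))
      have h7 : 0 ≤ e / 2^g := by positivity
      have := mul_le_mul_of_nonneg_right hb1 h7
      rw [← hB] at this
      have h8 : B * (e / 2^g) ≤ B * e := mul_le_mul_of_nonneg_left h6 hBpos.le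
      linarith
    have n2 : (2:ℝ)^s2 * 3^k * x = ((2^s2 * (2^g * q) : ℤ) : ℝ) := by
      rw [hx]; push_cast; field_simp
    have n1 : (2:ℝ)^s1 * 3^k * ((q:ℝ)/3^k) = ((2^s1 * q : ℤ) : ℝ) := by
      push_cast; field_simp
    have c2 : T^[j2] w = ((2^s2 * 3^k : ℕ) : ℝ) * w := by
      apply cyl j2 x w _ hxpos.ne'
      · rw [h2]; push_cast; ring
      · push_cast
        rw [n2, Int.floor_intCast, Int.floor_eq_iff, ← n2]
        have : w = x + e := by rw [he]; ring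
        rw [this]
        constructor
        · have : 0 ≤ (2:ℝ)^s2 * 3^k * e := by positivity
          nlinarith
        · nlinarith
    have c1 : T^[j1] (w/2^g) = ((2^s1 * 3^k : ℕ) : ℝ) * (w/2^g) := by
      apply cyl j1 ((q:ℝ)/3^k) (w/2^g) _ hapos.ne'
      · rw [h1]; push_cast; ring
      · push_cast
        rw [n1, Int.floor_intCast, Int.floor_eq_iff, ← n1]
        have : w/2^g = (q:ℝ)/3^k + e/2^g := by rw [← hxa, he]; ring
        rw [this]
        constructor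
        · have : 0 ≤ (2:ℝ)^s1 * 3^k * (e/2^g) := by positivity
          nlinarith
        · nlinarith
    have hwx : w = x + e := by rw [he]; ring
    have hwx1 : w/2^g = (q:ℝ)/3^k + e/2^g := by rw [← hxa, he]; ring
    push_cast at c1 c2
    by_cases hs : s1 ≤ s2 + g
    · obtain ⟨i, hi⟩ := Nat.exists_eq_add_of_le hs
      have h2i : (2:ℝ)^i * (2^s1 * 3^k * (w/2^g)) = 2^s2 * 3^k * w := by
        have : (2:ℝ)^i * 2^s1 = 2^s2 * 2^g := by rw [← pow_add, ← pow_add]; congr 1; omega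
        calc (2:ℝ)^i * (2^s1 * 3^k * (w/2^g)) = ((2:ℝ)^i * 2^s1) * 3^k * (w/2^g) := by ring
          _ = _ := by rw [this]; field_simp
      have h6 : T^[i] (2^s1 * 3^k * (w/2^g)) = 2^i * (2^s1 * 3^k * (w/2^g)) := by
        apply iter_double _ (2^s1 * q : ℤ) i
        · rw [← n1, hwx1]
          have : 0 ≤ (2:ℝ)^s1 * 3^k * (e/2^g) := by positivity
          nlinarith
        · rw [← n1, hwx1]
          have h2e : (2:ℝ)^i * (2^s1 * 3^k * (e/2^g)) = 2^s2 * 3^k * e := by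
            have : (2:ℝ)^i * 2^s1 = 2^s2 * 2^g := by rw [← pow_add, ← pow_add]; congr 1; omega
            calc (2:ℝ)^i * (2^s1 * 3^k * (e/2^g)) = ((2:ℝ)^i * 2^s1) * 3^k * (e/2^g) := by ring
              _ = _ := by rw [this]; field_simp
          calc (2:ℝ)^i * (2^s1 * 3^k * ((q:ℝ)/3^k + e/2^g) - 2^s1 * 3^k * ((q:ℝ)/3^k))
              = (2:ℝ)^i * (2^s1 * 3^k * (e/2^g)) := by ring
            _ = 2^s2 * 3^k * e := h2e
            _ < 1 := M2e
      refine ⟨j2, i + j1, ?_⟩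
      rw [Function.iterate_add_apply, c1, c2, h6, h2i]
    · obtain ⟨i, hi⟩ := Nat.exists_eq_add_of_le (not_le.1 hs).le
      have h2i : (2:ℝ)^i * (2^s2 * 3^k * w) = 2^s1 * 3^k * (w/2^g) := by
        have : (2:ℝ)^s1 = 2^i * 2^s2 * 2^g := by rw [← pow_add, ← pow_add]; congr 1; omega
        rw [this]; field_simp
      have h2e : (2:ℝ)^i * (2^s2 * 3^k * e) = 2^s1 * 3^k * (e/2^g) := by
        have : (2:ℝ)^s1 = 2^i * 2^s2 * 2^g := by rw [← pow_add, ← pow_add]; congr 1; omega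
        rw [this]; field_simp
      have h6 : T^[i] (2^s2 * 3^k * w) = 2^i * (2^s2 * 3^k * w) := by
        apply iter_double _ (2^s2 * (2^g * q) : ℤ) i
        · rw [← n2, hwx]
          have : 0 ≤ (2:ℝ)^s2 * 3^k * e := by positivity
          nlinarith
        · rw [← n2, hwx]
          calc (2:ℝ)^i * (2^s2 * 3^k * (x + e) - 2^s2 * 3^k * x)
              = (2:ℝ)^i * (2^s2 * 3^k * e) := by ring
            _ = 2^s1 * 3^k * (e/2^g) := h2e
            _ < 1 := M1e
      refine ⟨i + j2, j1, ?_⟩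
      rw [Function.iterate_add_apply, c1, c2, h6, h2i]

end Pool.Agent.H9.Klarner
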