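import Mathlib
import Pool.Agent.H9.KlarnerPos

set_option autoImplicit false

open Set MeasureTheory Filter Topology

namespace Pool.Agent.H9.Klarner

noncomputable def gap (b : ℕ) (y : ℝ) : ℝ := 1 + (s b (2*y) : ℝ) - s b y

/-- truncated position -/
noncomputable def tr (b n : ℕ) (y : ℝ) : ℝ := ((min (s b y) n : ℕ) : ℝ)

lemma tr_periodic (b n : ℕ) : Function.Periodic (tr b n) 1 := by
  intro y
  unfold tr
  have := s_add_nat b y 1
  rw [Nat.cast_one] at this
  rw [this]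

lemma tr_nonneg (b n : ℕ) (y : ℝ) : 0 ≤ tr b n y := by unfold tr; positivity
lemma tr_le (b n : ℕ) (y : ℝ) : tr b n y ≤ n := by
  unfold tr; exact_mod_cast min_le_right _ _

lemma tr_meas (b n : ℕ) : Measurable (tr b n) :=
  (measurable_of_countable (fun m : ℕ => ((min m n : ℕ) : ℝ))).comp (measurable_s b)

lemma tr_ii (b n : ℕ) (a a' : ℝ) : IntervalIntegrable (tr b n) volume a a' := by
  refine (intervalIntegrable_const (c := (n:ℝ))).mono_fun' ?_ ?_
  · exact (tr_meas b n).aestronglyMeasurable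
  · refine Eventually.of_forall (fun y => ?_)
    simp only [Real.norm_eq_abs, abs_of_nonneg (tr_nonneg b n y)]
    exact tr_le b n y

noncomputable def hh (b n : ℕ) (y : ℝ) : ℝ := 1 + tr b n (2*y) - tr b n y

lemma int_hh (V b n : ℕ) : ∫ y in (V:ℝ)..(V+1), hh b n y = 1 := by
  have i1 : IntervalIntegrable (fun y => tr b n (2*y)) volume (V:ℝ) (V+1) := by
    have := (tr_ii b n (2*V) (2*(V+1))).comp_mul_left (c := 2)
    simpa using this
  have i2 := tr_ii b n V (V+1)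
  unfold hh
  rw [intervalIntegral.integral_sub (IntervalIntegrable.add (by simp) i1) i2,
    intervalIntegral.integral_add (by simp) i1]
  rw [intervalIntegral.integral_comp_mul_left (fun y => tr b n y) (by norm_num : (2:ℝ) ≠ 0)]
  have p1 := (tr_periodic b n).intervalIntegral_add_eq (2*V) 0
  have p2 := (tr_periodic b n).intervalIntegral_add_eq (2*V+1) 0
  have p3 := (tr_periodic b n).intervalIntegral_add_eq V 0
  have split : ∫ y in (2*V:ℝ)..(2*(V+1)), tr b n y =
      (∫ y in (2*V:ℝ)..(2*V+1), tr b n y) + ∫ y in (2*V+1:ℝ)..(2*V+1+1), tr b n y := by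
    rw [intervalIntegral.integral_add_adjacent_intervals (tr_ii _ _ _ _) (tr_ii _ _ _ _)]
    congr 1; ring
  rw [split, p1, p2, p3]
  simp
  ring

lemma hh_nonneg (b n : ℕ) (y : ℝ) (hy : Irrational y) : 0 ≤ hh b n y := by
  have := s_le b y 1 hy
  rw [pow_one] at this
  unfold hh tr
  have h2 : min (s b y) n ≤ 1 + min (s b (2*y)) n := by omega
  have : ((min (s b y) n : ℕ):ℝ) ≤ ((1 + min (s b (2*y)) n : ℕ) : ℝ) := by exact_mod_cast h2
  push_cast at this ⊢
  linarith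

lemma ae_irr : ∀ᵐ y : ℝ, Irrational y := by
  have : (Set.range ((↑) : ℚ → ℝ)).Countable := Set.countable_range _
  filter_upwards [this.ae_notMem volume] with y hy
  exact hy

lemma measure_gap (V b : ℕ) (r : ℝ) (hr : 0 < r) :
    volume {y : ℝ | y ∈ Ioc (V:ℝ) (V+1) ∧ r ≤ gap b y} ≤ ENNReal.ofReal (1/r) := by
  set E : ℕ → Set ℝ := fun n => {y : ℝ | y ∈ Ioc (V:ℝ) (V+1) ∧ r ≤ gap b y ∧ s b y ≤ n ∧
    s b (2*y) ≤ n} with hE
  have hmono : Monotone E := by
    intro m n hmn y hy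
    exact ⟨hy.1, hy.2.1, hy.2.2.1.trans hmn, hy.2.2.2.trans hmn⟩
  have hU : {y : ℝ | y ∈ Ioc (V:ℝ) (V+1) ∧ r ≤ gap b y} = ⋃ n, E n := by
    ext y
    simp only [mem_iUnion, hE, mem_ofPred_eq]
    constructor
    · intro h
      exact ⟨max (s b y) (s b (2*y)), h.1, h.2, le_max_left _ _, le_max_right _ _⟩
    · rintro ⟨n, h⟩; exact ⟨h.1, h.2.1⟩
  rw [hU, hmono.measure_iUnion]
  apply iSup_le
  intro n
  have hint : IntegrableOn (hh b n) (Ioc (V:ℝ) (V+1)) := by
    have i1 : IntervalIntegrable (fun y => tr b n (2*y)) volume (V:ℝ) (V+1) := by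
      have := (tr_ii b n (2*V) (2*(V+1))).comp_mul_left (c := 2)
      simpa using this
    have : IntervalIntegrable (hh b n) volume (V:ℝ) (V+1) := by
      unfold hh
      exact (IntervalIntegrable.add (by simp) i1).sub (tr_ii b n _ _)
    rwa [intervalIntegrable_iff_integrableOn_Ioc_of_le (by linarith)] at this
  have hnn : 0 ≤ᵐ[volume.restrict (Ioc (V:ℝ) (V+1))] hh b n := by
    filter_upwards [ae_restrict_of_ae ae_irr] with y hy
    exact hh_nonneg b n y hy
  have mk := mul_meas_ge_le_integral_of_nonneg hnn hint r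
  rw [← intervalIntegral.integral_of_le (by linarith : (V:ℝ) ≤ V+1), int_hh] at mk
  have hsub : E n ⊆ {y | r ≤ hh b n y} ∩ Ioc (V:ℝ) (V+1) := by
    intro y hy
    refine ⟨?_, hy.1⟩
    have h1 : hh b n y = gap b y := by
      unfold hh gap tr
      rw [min_eq_left hy.2.2.1, min_eq_left hy.2.2.2]
    simp only [mem_ofPred_eq, h1]
    exact hy.2.1
  have hmeas : MeasurableSet {y | r ≤ hh b n y} := by
    apply measurableSet_le measurable_const
    unfold hh
    exact (measurable_const.add ((tr_meas b n).comp (measurable_const_mul _))).sub (tr_meas b n)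
  calc volume (E n) ≤ volume ({y | r ≤ hh b n y} ∩ Ioc (V:ℝ) (V+1)) := measure_mono hsub
    _ = (volume.restrict (Ioc (V:ℝ) (V+1))) {y | r ≤ hh b n y} := by
        rw [Measure.restrict_apply hmeas]
    _ ≤ ENNReal.ofReal (1/r) := by
        rw [ENNReal.le_ofReal_iff_toReal_le (measure_ne_top _ _) (by positivity)]
        rw [le_div_iff₀ hr, mul_comm]
        exact mk

lemma ae_gap (V : ℕ) : ∀ᵐ y : ℝ, y ∈ Ioc (V:ℝ) (V+1) →
    ∃ Rr : ℕ, ∀ B : ℕ, ∃ b ≥ B, gap b y ≤ Rr := by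
  rw [ae_iff]
  have hD : ∀ Rr : ℕ, volume {y : ℝ | y ∈ Ioc (V:ℝ) (V+1) ∧ ∃ B, ∀ b ≥ B, ((Rr:ℝ)+1) < gap b y} ≤
      ENNReal.ofReal (1/((Rr:ℝ)+1)) := by
    intro Rr
    set E : ℕ → Set ℝ := fun B => {y : ℝ | y ∈ Ioc (V:ℝ) (V+1) ∧ ∀ b ≥ B, ((Rr:ℝ)+1) < gap b y}
      with hE
    have hmono : Monotone E := by
      intro m n hmn y hy
      exact ⟨hy.1, fun b hb => hy.2 b (le_trans hmn hb)⟩
    have hU : {y : ℝ | y ∈ Ioc (V:ℝ) (V+1) ∧ ∃ B, ∀ b ≥ B, ((Rr:ℝ)+1) < gap b y} = ⋃ n, E n := by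
      ext y
      simp only [mem_iUnion, hE, mem_ofPred_eq]
      constructor
      · rintro ⟨h1, B, h2⟩; exact ⟨B, h1, h2⟩
      · rintro ⟨B, h1, h2⟩; exact ⟨h1, B, h2⟩
    rw [hU, hmono.measure_iUnion]
    apply iSup_le
    intro B
    refine le_trans (measure_mono ?_) (measure_gap V B ((Rr:ℝ)+1) (by positivity))
    intro y hy
    exact ⟨hy.1, (hy.2 B le_rfl).le⟩
  have hlim : Tendsto (fun Rr : ℕ => ENNReal.ofReal (1/((Rr:ℝ)+1))) atTop (𝓝 0) := by
    rw [← ENNReal.ofReal_zero]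
    exact ENNReal.tendsto_ofReal tendsto_one_div_add_atTop_nhds_zero_nat
  refine le_antisymm ?_ (by positivity)
  refine ge_of_tendsto' hlim (fun Rr => le_trans (measure_mono ?_) (hD Rr))
  intro y hy
  simp only [mem_ofPred_eq] at hy
  push Not at hy
  refine ⟨hy.1, ?_⟩
  obtain ⟨B, hB⟩ := hy.2 (Rr+1)
  refine ⟨B, fun b hb => ?_⟩
  have := hB b hb
  push_cast at this
  exact this

end Pool.Agent.H9.Klarner
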