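import Mathlib
import Pool.Agent.H9.KlarnerAE

set_option autoImplicit false

open Set MeasureTheory Filter Topology

namespace Pool.Agent.H9.Klarner

def Abad : Set ℝ := {y : ℝ | 0 < y ∧ ¬ Meet y (2*y)}

lemma key_meet (x y : ℝ) (hx : 0 < x) (hirr : Irrational x) (b g : ℕ)
    (hg : 1 + s b (2*x) = g + s b x)
    (hfl : ⌊((3^b * 2^(s b (2*x)) * 2 : ℕ) : ℝ) * y⌋ = ⌊((3^b * 2^(s b (2*x)) * 2 : ℕ) : ℝ) * x⌋)
    (hm : Meet (((3^b * 2^(s b (2*x)) * 2 : ℕ) : ℝ) * y)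
      ((((3^b * 2^(s b (2*x)) * 2 : ℕ) : ℝ) * y) / 2^g)) : Meet y (2*y) := by
  have h2irr : Irrational (2*x) := by
    have := irr_two_pow x hirr 1
    rwa [pow_one] at this
  obtain ⟨k2, hk2⟩ := R_iter_reach b (2*x) h2irr
  obtain ⟨k1, hk1⟩ := R_iter_reach b x hirr
  rw [R_iter] at hk1 hk2
  have e2 : T^[k2] (2*y) = ((3^b * 2^(s b (2*x)) : ℕ) : ℝ) * (2*y) := by
    apply cyl k2 (2*x) (2*y) _ (by positivity)
    · rw [hk2]; push_cast; ring
    · have h1 : ((3^b * 2^(s b (2*x)) : ℕ) : ℝ) * (2*y) =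
          ((3^b * 2^(s b (2*x)) * 2 : ℕ) : ℝ) * y := by push_cast; ring
      have h2 : ((3^b * 2^(s b (2*x)) : ℕ) : ℝ) * (2*x) =
          ((3^b * 2^(s b (2*x)) * 2 : ℕ) : ℝ) * x := by push_cast; ring
      rw [h1, h2]; exact hfl
  have hM : ((3^b * 2^(s b (2*x)) * 2 : ℕ) : ℝ) = ((2^g : ℕ) : ℝ) * ((3^b * 2^(s b x) : ℕ) : ℝ) := by
    have : 3^b * 2^(s b (2*x)) * 2 = 2^g * (3^b * 2^(s b x)) := by
      have : 2^(s b (2*x)) * 2 = 2^g * 2^(s b x) := by
        rw [← pow_succ, ← pow_add]; congr 1; omega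
      calc 3^b * 2^(s b (2*x)) * 2 = 3^b * (2^(s b (2*x)) * 2) := by ring
        _ = _ := by rw [this]; ring
    rw [this]; push_cast; ring
  have e1 : T^[k1] y = ((3^b * 2^(s b x) : ℕ) : ℝ) * y := by
    apply cyl k1 x y _ hx.ne'
    · rw [hk1]; push_cast; ring
    · apply floor_nat_mul_congr (2^g) (by positivity)
      rw [← mul_assoc, ← mul_assoc, ← hM]; exact hfl
  have e3 : (((3^b * 2^(s b (2*x)) * 2 : ℕ) : ℝ) * y) / 2^g = ((3^b * 2^(s b x) : ℕ) : ℝ) * y := by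
    rw [hM]; push_cast; field_simp
  rw [e3] at hm
  have m1 : Meet y (((3^b * 2^(s b x) : ℕ) : ℝ) * y) := by rw [← e1]; exact Meet.of_iter _ _
  have m2 : Meet (2*y) (((3^b * 2^(s b (2*x)) * 2 : ℕ) : ℝ) * y) := by
    have : ((3^b * 2^(s b (2*x)) * 2 : ℕ) : ℝ) * y = T^[k2] (2*y) := by
      rw [e2]; push_cast; ring
    rw [this]; exact Meet.of_iter _ _
  exact m1.trans (hm.symm.trans m2.symm)

lemma key_measure (x : ℝ) (hx : 0 < x) (hirr : Irrational x) (b Rr : ℕ) (c : ℝ)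
    (hcc : ∀ g ≤ Rr, ∀ U : ℕ, ∃ x : ℝ,
      (U:ℝ) ≤ x ∧ x + c ≤ U + 1 ∧ ∀ w : ℝ, x ≤ w → w < x + c → Meet w (w/2^g))
    (hgap : gap b x ≤ Rr) (M : ℕ) (hM : M = 3^b * 2^(s b (2*x)) * 2) (U : ℕ)
    (hU : U = ⌊(M:ℝ) * x⌋₊) :
    volume (Abad ∩ Icc ((U:ℝ)/M) ((U+1)/M)) ≤ ENNReal.ofReal ((1-c)/M) := by
  have hMpos : 0 < (M:ℝ) := by rw [hM]; positivity
  have hsl := s_le b x 1 hirr
  rw [pow_one] at hsl
  obtain ⟨g, hg⟩ := Nat.exists_eq_add_of_le hsl
  have hg' : 1 + s b (2*x) = g + s b x := by omega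
  have hgR : g ≤ Rr := by
    unfold gap at hgap
    have : (1:ℝ) + s b (2*x) = g + s b x := by exact_mod_cast hg'
    have : (g:ℝ) ≤ Rr := by linarith
    exact_mod_cast this
  obtain ⟨x0, h1, h2, h3⟩ := hcc g hgR U
  have hsub : Abad ∩ Icc ((U:ℝ)/M) ((U+1)/M) ⊆ Icc ((U:ℝ)/M) (x0/M) ∪ Icc ((x0+c)/M) ((U+1)/M) := by
    rintro y ⟨hyA, hy1, hy2⟩
    by_contra hc
    simp only [mem_union, mem_Icc, not_or, not_and, not_le] at hc
    have hy3 := hc.1 hy1
    have hy4 : y < (x0+c)/M := by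
      by_contra h
      have := hc.2 (not_lt.1 h)
      linarith
    rw [div_lt_iff₀ hMpos] at hy3
    rw [lt_div_iff₀ hMpos] at hy4
    apply hyA.2
    have hMy : (M:ℝ) = ((3^b * 2^(s b (2*x)) * 2 : ℕ) : ℝ) := by rw [hM]
    apply key_meet x y hx hirr b g hg'
    · rw [← hMy]
      have hfx : ⌊(M:ℝ)*x⌋ = (U:ℤ) := by
        rw [hU]; exact (Int.natCast_floor_eq_floor (by positivity)).symm
      rw [hfx, Int.floor_eq_iff]
      push_cast
      constructor <;> linarith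
    · rw [← hMy]
      apply h3 <;> linarith
  calc volume (Abad ∩ Icc ((U:ℝ)/M) ((U+1)/M))
      ≤ volume (Icc ((U:ℝ)/M) (x0/M) ∪ Icc ((x0+c)/M) ((U+1)/M)) := measure_mono hsub
    _ ≤ volume (Icc ((U:ℝ)/M) (x0/M)) + volume (Icc ((x0+c)/M) ((U+1)/M)) := measure_union_le _ _
    _ = ENNReal.ofReal ((x0 - U)/M) + ENNReal.ofReal ((U+1-(x0+c))/M) := by
        rw [Real.volume_Icc, Real.volume_Icc, ← sub_div, ← sub_div]
    _ = ENNReal.ofReal ((1-c)/M) := by
        rw [← ENNReal.ofReal_add]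
        · congr 1; rw [← add_div]; congr 1; ring
        · apply div_nonneg _ hMpos.le; linarith
        · apply div_nonneg _ hMpos.le; linarith

lemma not_density (x : ℝ) (hx : 0 < x) (hirr : Irrational x)
    (hgap : ∃ Rr : ℕ, ∀ B : ℕ, ∃ b ≥ B, gap b x ≤ Rr)
    (hd : ∀ (w : ℕ → ℝ) (δ : ℕ → ℝ), Tendsto δ atTop (𝓝[>] 0) →
      (∀ᶠ j in atTop, x ∈ Metric.closedBall (w j) (1 * δ j)) →
      Tendsto (fun j => volume (Abad ∩ Metric.closedBall (w j) (δ j)) /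
        volume (Metric.closedBall (w j) (δ j))) atTop (𝓝 1)) : False := by
  obtain ⟨Rr, hR⟩ := hgap
  obtain ⟨c, hc, hcc⟩ := coal_interval Rr
  set M : ℕ → ℕ := fun b => 3^b * 2^(s b (2*x)) * 2 with hM
  set U : ℕ → ℕ := fun b => ⌊(M b:ℝ) * x⌋₊ with hU
  have hMpos : ∀ b, 0 < (M b:ℝ) := fun b => by rw [hM]; positivity
  have hball : ∀ b, Metric.closedBall (((U b:ℝ)+1/2)/M b) (1/(2*M b)) =
      Icc ((U b:ℝ)/M b) ((U b+1)/M b) := by
    intro b
    have := hMpos b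
    rw [Real.closedBall_eq_Icc]
    congr 1 <;> field_simp <;> ring
  have hcl : ∀ b, 3^b ≤ (M b : ℝ) := by
    intro b
    have h1 : (1:ℝ) ≤ 2^(s b (2*x)) := one_le_pow₀ (by norm_num)
    have h3 : (0:ℝ) < 3^b := by positivity
    simp only [hM]; push_cast
    nlinarith
  have hlim : Tendsto (fun b => 1/(2*(M b:ℝ))) atTop (𝓝[>] 0) := by
    rw [tendsto_nhdsWithin_iff]
    constructor
    · have h1 : Tendsto (fun b : ℕ => (1/3:ℝ)^b) atTop (𝓝 0) :=
        tendsto_pow_atTop_nhds_zero_of_lt_one (by norm_num) (by norm_num)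
      refine squeeze_zero (fun b => by have := hMpos b; positivity) (fun b => ?_) h1
      rw [div_pow, one_pow]
      apply one_div_le_one_div_of_le (by positivity)
      have := hcl b
      have := hMpos b
      linarith
    · exact Eventually.of_forall (fun b => by have := hMpos b; simp only [mem_Ioi]; positivity)
  have ht := hd (fun b => ((U b:ℝ)+1/2)/M b) (fun b => 1/(2*(M b:ℝ))) hlim
    (Eventually.of_forall (fun b => by
      rw [one_mul, hball b]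
      have h0 : 0 ≤ (M b:ℝ)*x := by have := hMpos b; positivity
      constructor
      · rw [div_le_iff₀ (hMpos b), mul_comm]; exact Nat.floor_le h0
      · rw [le_div_iff₀ (hMpos b), mul_comm]; exact (Nat.lt_floor_add_one _).le))
  simp only [hball] at ht
  have hlt : ENNReal.ofReal (1-c) < 1 := by
    rw [← ENNReal.ofReal_one]
    exact (ENNReal.ofReal_lt_ofReal_iff (by norm_num)).2 (by linarith)
  have hev := ht.eventually (lt_mem_nhds hlt)
  rw [eventually_atTop] at hev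
  obtain ⟨B, hB⟩ := hev
  obtain ⟨b, hb, hgb⟩ := hR B
  have h1 := hB b hb
  have h2 := key_measure x hx hirr b Rr c hcc hgb (M b) rfl (U b) rfl
  have hMb := hMpos b
  have h3 : volume (Icc ((U b:ℝ)/M b) ((U b+1)/M b)) = ENNReal.ofReal (1/M b) := by
    rw [Real.volume_Icc, ← sub_div]; congr 2; ring
  rw [h3] at h1
  have h4 : volume (Abad ∩ Icc ((U b:ℝ)/M b) ((U b+1)/M b)) / ENNReal.ofReal (1/M b) ≤
      ENNReal.ofReal (1-c) := by
    apply ENNReal.div_le_of_le_mul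
    refine h2.trans ?_
    have hc1 : 0 ≤ 1 - c := by
      obtain ⟨x0, h5, h6, _⟩ := hcc 0 (Nat.zero_le _) 0
      push_cast at h5 h6; linarith
    rw [← ENNReal.ofReal_mul hc1]
    apply ENNReal.ofReal_le_ofReal
    rw [div_eq_mul_one_div]
  exact absurd h1 (not_lt.2 h4)

lemma ae_meet : ∀ᵐ y : ℝ, 0 < y → Meet y (2*y) := by
  have hgap : ∀ᵐ y : ℝ, 0 < y → ∃ Rr : ℕ, ∀ B : ℕ, ∃ b ≥ B, gap b y ≤ Rr := by
    have := ae_all_iff.2 ae_gap
    filter_upwards [this] with y hy hpos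
    apply hy (⌈y⌉₊ - 1)
    have h1 : 1 ≤ ⌈y⌉₊ := Nat.one_le_iff_ne_zero.2 (by rw [Ne, Nat.ceil_eq_zero]; linarith)
    constructor
    · rw [Nat.cast_sub h1]; push_cast
      have := Nat.ceil_lt_add_one hpos.le
      linarith
    · rw [Nat.cast_sub h1]; push_cast
      have := Nat.le_ceil y
      linarith
  have hdens := IsUnifLocDoublingMeasure.ae_tendsto_measure_inter_div (volume : Measure ℝ) Abad 1
  have hpos : ∀ᵐ x ∂(volume.restrict Abad), 0 < x := by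
    have h1 : ∀ᵐ x ∂(volume.restrict (Ioi (0:ℝ))), x ∈ Ioi (0:ℝ) := ae_restrict_mem measurableSet_Ioi
    exact ae_mono (Measure.restrict_mono (fun y hy => hy.1) le_rfl) h1
  have hF : ∀ᵐ x ∂(volume.restrict Abad), False := by
    filter_upwards [hdens, hpos, ae_restrict_of_ae ae_irr, ae_restrict_of_ae hgap] with x h1 h2 h3 h4
    exact not_density x h2 h3 (h4 h2) (fun w δ a1 a2 => h1 w δ a1 a2)
  have h0 : volume.restrict Abad = 0 := by
    rw [← ae_eq_bot]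
    exact Filter.eventually_false_iff_eq_bot.1 hF
  rw [Measure.restrict_eq_zero] at h0
  rw [ae_iff]
  refine le_antisymm ?_ (by positivity)
  rw [← h0]
  apply measure_mono
  intro y hy
  simp only [mem_ofPred_eq, Classical.not_imp] at hy
  exact hy

end Pool.Agent.H9.Klarner
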