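import Mathlib
import Pool.Agent.H9.KlarnerMeet

set_option autoImplicit false

open Set MeasureTheory Filter Topology

namespace Pool.Agent.H9.Klarner

/-! ### all 3-smooth multiples meet -/

lemma ae_all : ∀ᵐ z : ℝ, 0 < z → Irrational z ∧ ∀ n : ℕ, 0 < n → Meet ((n:ℝ)*z) (2*((n:ℝ)*z)) := by
  have h : ∀ n : ℕ, ∀ᵐ z : ℝ, 0 < n → 0 < z → Meet ((n:ℝ)*z) (2*((n:ℝ)*z)) := by
    intro n
    rcases Nat.eq_zero_or_pos n with h0 | hn
    · subst h0; exact Eventually.of_forall (fun z h => absurd h (lt_irrefl _))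
    · have h1 := ae_meet
      rw [ae_iff] at h1 ⊢
      have hn' : (n:ℝ) ≠ 0 := by positivity
      have h2 := Real.volume_preimage_mul_left hn' {a : ℝ | ¬(0 < a → Meet a (2*a))}
      rw [h1, mul_zero] at h2
      refine le_antisymm ?_ (by positivity)
      rw [← h2]
      apply measure_mono
      intro z hz
      simp only [mem_ofPred_eq, Classical.not_imp, mem_preimage] at hz ⊢
      exact ⟨by have := hz.1; have := hz.2.1; positivity, hz.2.2⟩
  filter_upwards [ae_all_iff.2 h, ae_irr] with z hz hirr hpos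
  exact ⟨hirr, fun n hn => hz n hn hpos⟩

lemma meet_pow (z : ℝ) (h : ∀ n : ℕ, 0 < n → Meet ((n:ℝ)*z) (2*((n:ℝ)*z))) (i : ℕ) :
    ∀ n : ℕ, 0 < n → Meet ((n:ℝ)*z) (2^i*((n:ℝ)*z)) := by
  induction i with
  | zero => intro n _; rw [pow_zero, one_mul]; exact Meet.refl _
  | succ i ih =>
    intro n hn
    have h1 := h n hn
    have h2 := ih (2*n) (by omega)
    have e1 : ((2*n : ℕ):ℝ)*z = 2*((n:ℝ)*z) := by push_cast; ring
    rw [e1] at h2
    have e2 : (2:ℝ)^(i+1)*((n:ℝ)*z) = 2^i*(2*((n:ℝ)*z)) := by rw [pow_succ]; ring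
    rw [e2]
    exact h1.trans h2

lemma meet_three (z : ℝ) (hpos : 0 < z) (hirr : Irrational z)
    (h : ∀ n : ℕ, 0 < n → Meet ((n:ℝ)*z) (2*((n:ℝ)*z))) (n : ℕ) (hn : 0 < n) :
    Meet ((n:ℝ)*z) (3*((n:ℝ)*z)) := by
  set v := (n:ℝ)*z with hv
  have hvirr : Irrational v := hirr.natCast_mul (by omega)
  obtain ⟨k, hk⟩ := R_reach v (irr_fract v hvirr)
  have h1 : Meet v (R v) := by rw [← hk]; exact Meet.of_iter _ _
  have h2 := meet_pow z h (delta v) (3*n) (by omega)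
  have e : ((3*n : ℕ):ℝ)*z = 3*v := by rw [hv]; push_cast; ring
  rw [e] at h2
  have e2 : R v = 2^(delta v) * (3*v) := by rw [R]; ring
  rw [e2] at h1
  exact h1.trans h2.symm

lemma meet_three_pow (z : ℝ) (hpos : 0 < z) (hirr : Irrational z)
    (h : ∀ n : ℕ, 0 < n → Meet ((n:ℝ)*z) (2*((n:ℝ)*z))) (i : ℕ) :
    ∀ n : ℕ, 0 < n → Meet ((n:ℝ)*z) (3^i*((n:ℝ)*z)) := by
  induction i with
  | zero => intro n _; rw [pow_zero, one_mul]; exact Meet.refl _
  | succ i ih =>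
    intro n hn
    have h1 := meet_three z hpos hirr h n hn
    have h2 := ih (3*n) (by omega)
    have e1 : ((3*n : ℕ):ℝ)*z = 3*((n:ℝ)*z) := by push_cast; ring
    rw [e1] at h2
    have e2 : (3:ℝ)^(i+1)*((n:ℝ)*z) = 3^i*(3*((n:ℝ)*z)) := by rw [pow_succ]; ring
    rw [e2]
    exact h1.trans h2

lemma exists_pow_near (t : ℝ) (h0 : 0 < t) (h2 : t < 2) : ∃ a : ℕ, 1 ≤ 2^a * t ∧ 2^a * t < 2 := by
  have hex : ∃ a : ℕ, 1 ≤ 2^a * t := by
    obtain ⟨n, hn⟩ := pow_unbounded_of_one_lt (1/t) (by norm_num : (1:ℝ) < 2)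
    rw [div_lt_iff₀ h0] at hn
    exact ⟨n, hn.le⟩
  classical
  refine ⟨Nat.find hex, Nat.find_spec hex, ?_⟩
  rcases Nat.eq_zero_or_pos (Nat.find hex) with h | h
  · rw [h]; simpa
  · have := Nat.find_min hex (Nat.sub_lt h one_pos)
    push Not at this
    have e : (2:ℝ)^(Nat.find hex) = 2^(Nat.find hex - 1) * 2 := by
      rw [← pow_succ]; congr 1; omega
    rw [e]; linarith

/-! ### growth of orbits -/

lemma T_growth (y : ℝ) (hy : 0 < y) : 2 * y ≤ T y := by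
  unfold T
  have : (2:ℝ) ≤ mul y := by exact_mod_cast two_le_mul y
  nlinarith

lemma iter_pos (y : ℝ) (hy : 0 < y) (k : ℕ) : 0 < T^[k] y := by
  induction k with
  | zero => simpa
  | succ k ih => rw [Function.iterate_succ_apply']; have := T_growth _ ih; linarith

lemma iter_growth (y : ℝ) (hy : 0 < y) (k d : ℕ) : 2 * T^[k] y ≤ T^[k+1+d] y := by
  induction d with
  | zero => rw [add_zero, Function.iterate_succ_apply']; exact T_growth _ (iter_pos y hy k)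
  | succ d ih =>
    rw [← add_assoc, Function.iterate_succ_apply']
    have h1 := iter_pos y hy (k+1+d)
    have := T_growth _ h1
    linarith

/-! ### good points -/

def Good (K X : ℕ) (y : ℝ) : Prop := ∀ j < K, ∃ a : ℕ, 1 ≤ 2^a*(y/3^j) ∧ 2^a*(y/3^j) < 2 ∧
  ∀ i, (X:ℝ) ≤ T^[i] y → ∃ l, T^[l] (2^a*(y/3^j)) = T^[i] y

lemma good_mono (K X X' : ℕ) (h : X ≤ X') (y : ℝ) (hg : Good K X y) : Good K X' y := by
  intro j hj
  obtain ⟨a, h1, h2, h3⟩ := hg j hj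
  refine ⟨a, h1, h2, fun i hi => h3 i (le_trans ?_ hi)⟩
  exact_mod_cast h

lemma good_single (y y' : ℝ) (hy : 0 < y) (hm : Meet y y') :
    ∃ X : ℕ, ∀ i, (X:ℝ) ≤ T^[i] y → ∃ l, T^[l] y' = T^[i] y := by
  obtain ⟨k, l, h⟩ := hm
  obtain ⟨X, hX⟩ := exists_nat_ge (T^[k] y)
  refine ⟨X, fun i hi => ?_⟩
  have hki : k ≤ i := by
    by_contra hc
    push Not at hc
    obtain ⟨d, hd⟩ := Nat.exists_eq_add_of_lt hc
    have h1 := iter_growth y hy i d
    have h2 : T^[k] y = T^[i+1+d] y := by rw [hd]; congr 1; ring_nf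
    have h3 := iter_pos y hy i
    rw [← h2] at h1
    linarith
  obtain ⟨d, hd⟩ := Nat.exists_eq_add_of_le hki
  refine ⟨d + l, ?_⟩
  rw [Function.iterate_add_apply, ← h, ← Function.iterate_add_apply, hd, add_comm]

lemma ae_good (K : ℕ) : ∀ᵐ y : ℝ, y ∈ Ico (1:ℝ) 2 → ∃ X : ℕ, Good K X y := by
  have h1 := ae_all
  rw [ae_iff] at h1
  have h3K : ((3:ℝ)^K)⁻¹ ≠ 0 := by positivity
  have h2 := Real.volume_preimage_mul_left h3K _ |>.trans (by rw [h1, mul_zero])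
  rw [ae_iff]
  refine le_antisymm ?_ (by positivity)
  rw [← h2]
  apply measure_mono
  intro y hy
  simp only [mem_ofPred_eq, mem_preimage] at hy ⊢
  rw [Classical.not_imp] at hy
  intro hc
  apply hy.2
  have hy1 := hy.1
  have hypos : 0 < y := by have := hy1.1; linarith
  set z := ((3:ℝ)^K)⁻¹ * y with hz
  have hzpos : 0 < z := by positivity
  obtain ⟨hirr, hall⟩ := hc hzpos
  have hyz : y = 3^K * z := by rw [hz]; field_simp
  -- each j
  have hj : ∀ j < K, ∃ X : ℕ, ∃ a : ℕ, 1 ≤ 2^a*(y/3^j) ∧ 2^a*(y/3^j) < 2 ∧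
      ∀ i, (X:ℝ) ≤ T^[i] y → ∃ l, T^[l] (2^a*(y/3^j)) = T^[i] y := by
    intro j hjK
    have ht : y/3^j < 2 := by
      have h5 : y / 3^j ≤ y := div_le_self hypos.le (one_le_pow₀ (by norm_num))
      have := hy1.2; linarith
    obtain ⟨a, ha1, ha2⟩ := exists_pow_near (y/3^j) (by positivity) ht
    have hyj : y/3^j = ((3^(K-j) : ℕ):ℝ) * z := by
      rw [hyz]; push_cast
      rw [div_eq_iff (by positivity)]
      have : (3:ℝ)^K = 3^(K-j) * 3^j := by rw [← pow_add]; congr 1; omega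
      rw [this]; ring
    have m1 := meet_three_pow z hzpos hirr hall j (3^(K-j)) (by positivity)
    have e1 : (3:ℝ)^j * (((3^(K-j) : ℕ):ℝ) * z) = y := by
      rw [← hyj]; field_simp
    rw [e1] at m1
    have m2 := meet_pow z hall a (3^(K-j)) (by positivity)
    have m3 : Meet y (2^a*(y/3^j)) := by
      rw [hyj]; exact m1.symm.trans m2
    obtain ⟨X, hX⟩ := good_single y _ hypos m3
    exact ⟨X, a, ha1, ha2, hX⟩
  choose! X hX using hj
  refine ⟨(Finset.range K).sup X, fun j hjK => ?_⟩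
  obtain ⟨a, h1, h2, h3⟩ := hX j hjK
  refine ⟨a, h1, h2, fun i hi => h3 i (le_trans ?_ hi)⟩
  exact_mod_cast Finset.le_sup (f := X) (Finset.mem_range.2 hjK)

lemma good_measure (K : ℕ) (e : ℝ) (he : 0 < e) : ∃ X0 : ℕ, ∀ X ≥ X0,
    ENNReal.ofReal (1 - e) < volume {y : ℝ | y ∈ Ico (1:ℝ) 2 ∧ Good K X y} := by
  set G : ℕ → Set ℝ := fun X => {y : ℝ | y ∈ Ico (1:ℝ) 2 ∧ Good K X y} with hG
  have hmono : Monotone G := fun X X' h y hy => ⟨hy.1, good_mono K X X' h y hy.2⟩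
  have hU : volume (⋃ X, G X) = 1 := by
    have h1 : (⋃ X, G X) =ᵐ[volume] (Ico (1:ℝ) 2 : Set ℝ) := by
      have h3 : ∀ᵐ y : ℝ, (y ∈ ⋃ X, G X) = (y ∈ Ico (1:ℝ) 2) := by
        filter_upwards [ae_good K] with y hy
        apply propext
        simp only [mem_iUnion, hG, mem_ofPred_eq]
        constructor
        · rintro ⟨X, h, _⟩; exact h
        · intro h
          obtain ⟨X, hX⟩ := hy h
          exact ⟨X, h, hX⟩
      exact h3
    rw [measure_congr h1, Real.volume_Ico]; norm_num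
  rw [hmono.measure_iUnion] at hU
  have hlt : ENNReal.ofReal (1-e) < ⨆ X, volume (G X) := by
    rw [hU, ← ENNReal.ofReal_one]
    exact (ENNReal.ofReal_lt_ofReal_iff (by norm_num)).2 (by linarith)
  obtain ⟨X0, hX0⟩ := lt_iSup_iff.1 hlt
  exact ⟨X0, fun X hX => lt_of_lt_of_le hX0 (measure_mono (hmono hX))⟩

/-! ### cylinders and the set S -/

def Cyl (v m : ℕ) : Prop := 0 < m ∧ ∀ y : ℝ, (v:ℝ) ≤ m*y → m*y < v+1 →
  (1 ≤ y ∧ y < 2) ∧ ∃ k, T^[k] y = m*y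

lemma Cyl_one : Cyl 1 1 := by
  refine ⟨one_pos, fun y h1 h2 => ?_⟩
  push_cast at h1 h2
  exact ⟨⟨by linarith, by linarith⟩, 0, by simp⟩

lemma mul_eq_two (w : ℝ) (v : ℕ) (h1 : (v:ℝ) ≤ w) (h2 : w < v + 1/2) : mul w = 2 := by
  have : Int.fract w = w - (v:ℤ) := fract_of w v (by push_cast; linarith) (by push_cast; linarith)
  unfold mul
  rw [if_pos (by rw [this]; push_cast; linarith)]

lemma mul_eq_six (w : ℝ) (v : ℕ) (h1 : (v:ℝ) + 1/2 ≤ w) (h2 : w < v + 2/3) : mul w = 6 := by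
  have : Int.fract w = w - (v:ℤ) := fract_of w v (by push_cast; linarith) (by push_cast; linarith)
  unfold mul
  rw [if_neg (by rw [this]; push_cast; linarith), if_pos (by rw [this]; push_cast; linarith)]

lemma mul_eq_three (w : ℝ) (v : ℕ) (h1 : (v:ℝ) + 2/3 ≤ w) (h2 : w < v + 1) : mul w = 3 := by
  have : Int.fract w = w - (v:ℤ) := fract_of w v (by push_cast; linarith) (by push_cast; linarith)
  unfold mul
  rw [if_neg (by rw [this]; push_cast; linarith), if_neg (by rw [this]; push_cast; linarith)]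

lemma Cyl_two (v m : ℕ) (h : Cyl v m) : Cyl (2*v) (2*m) := by
  refine ⟨by have := h.1; omega, fun y h1 h2 => ?_⟩
  push_cast at h1 h2
  obtain ⟨h3, k, hk⟩ := h.2 y (by linarith) (by linarith)
  refine ⟨h3, k+1, ?_⟩
  rw [Function.iterate_succ_apply', hk, T, mul_eq_two _ v (by linarith) (by linarith)]
  push_cast; ring

lemma Cyl_three (v m : ℕ) (h : Cyl v m) : Cyl (3*v+2) (3*m) := by
  refine ⟨by have := h.1; omega, fun y h1 h2 => ?_⟩
  push_cast at h1 h2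
  obtain ⟨h3, k, hk⟩ := h.2 y (by linarith) (by linarith)
  refine ⟨h3, k+1, ?_⟩
  rw [Function.iterate_succ_apply', hk, T, mul_eq_three _ v (by linarith) (by linarith)]
  push_cast; ring

lemma Cyl_six (v m : ℕ) (h : Cyl v m) : Cyl (6*v+3) (6*m) := by
  refine ⟨by have := h.1; omega, fun y h1 h2 => ?_⟩
  push_cast at h1 h2
  obtain ⟨h3, k, hk⟩ := h.2 y (by linarith) (by linarith)
  refine ⟨h3, k+1, ?_⟩
  rw [Function.iterate_succ_apply', hk, T, mul_eq_six _ v (by linarith) (by linarith)]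
  push_cast; ring

def SS : Set ℕ := {x : ℕ | ∀ T : Set ℕ, 1 ∈ T →
              (∀ y ∈ T, 2 * y ∈ T ∧ 3 * y + 2 ∈ T ∧ 6 * y + 3 ∈ T) → x ∈ T}

lemma SS_cyl (v : ℕ) (h : v ∈ SS) : ∃ m, Cyl v m := by
  apply h {v | ∃ m, Cyl v m}
  · exact ⟨1, Cyl_one⟩
  · rintro y ⟨m, hm⟩
    exact ⟨⟨_, Cyl_two y m hm⟩, ⟨_, Cyl_three y m hm⟩, ⟨_, Cyl_six y m hm⟩⟩

lemma Cyl_le (v m : ℕ) (h : Cyl v m) : m ≤ v := by
  have hm : (0:ℝ) < m := by exact_mod_cast h.1
  have h1 := (h.2 ((v:ℝ)/m) (by field_simp; exact le_rfl) (by field_simp; linarith)).1.1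
  rw [le_div_iff₀ hm, one_mul] at h1
  exact_mod_cast h1

lemma Cyl_of_point (l : ℕ) (y0 : ℝ) (n v : ℕ) (hn : 0 < n) (h1 : 1 ≤ y0) (h2 : y0 < 2)
    (hT : T^[l] y0 = n * y0) (h3 : (v:ℝ) ≤ n*y0) (h4 : n*y0 < v+1) : Cyl v n := by
  refine ⟨hn, fun y h5 h6 => ?_⟩
  have f0 : ⌊(n:ℝ)*y0⌋ = (v:ℤ) := Int.floor_eq_iff.2 ⟨by push_cast; exact h3, by push_cast; exact h4⟩
  have f1 : ⌊(n:ℝ)*y⌋ = (v:ℤ) := Int.floor_eq_iff.2 ⟨by push_cast; exact h5, by push_cast; exact h6⟩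
  have f2 : ⌊(n:ℝ)*y⌋ = ⌊(n:ℝ)*y0⌋ := by rw [f0, f1]
  have f3 := floor_nat_mul_congr n hn _ _ f2
  have f4 : ⌊y0⌋ = 1 := Int.floor_eq_iff.2 ⟨by push_cast; exact h1, by push_cast; linarith⟩
  rw [f4, Int.floor_eq_iff] at f3
  push_cast at f3
  refine ⟨⟨f3.1, by linarith [f3.2]⟩, l, ?_⟩
  exact cyl l y0 y n (by linarith) hT f2

lemma Cyl_disj (X v m v' m' : ℕ) (h1 : X ≤ v) (h2 : v < 2*X) (h3 : X ≤ v') (h4 : v' < 2*X)
    (c1 : Cyl v m) (c2 : Cyl v' m') (y : ℝ) (a1 : (v:ℝ) ≤ m*y) (a2 : m*y < v+1)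
    (b1 : (v':ℝ) ≤ m'*y) (b2 : m'*y < v'+1) : v = v' ∧ m = m' := by
  obtain ⟨⟨hy1, _⟩, k, hk⟩ := c1.2 y a1 a2
  obtain ⟨_, k', hk'⟩ := c2.2 y b1 b2
  have hy : 0 < y := by linarith
  have e1 : (X:ℝ) ≤ v := by exact_mod_cast h1
  have e2 : (v:ℝ) + 1 ≤ 2*X := by exact_mod_cast h2
  have e3 : (X:ℝ) ≤ v' := by exact_mod_cast h3
  have e4 : (v':ℝ) + 1 ≤ 2*X := by exact_mod_cast h4
  have hkk : k = k' := by
    rcases lt_trichotomy k k' with h | h | h
    · obtain ⟨d, hd⟩ := Nat.exists_eq_add_of_lt h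
      have := iter_growth y hy k d
      rw [show k + 1 + d = k' by omega, hk, hk'] at this
      linarith
    · exact h
    · obtain ⟨d, hd⟩ := Nat.exists_eq_add_of_lt h
      have := iter_growth y hy k' d
      rw [show k' + 1 + d = k by omega, hk, hk'] at this
      linarith
  subst hkk
  have hmm : (m:ℝ) = m' := by
    have : (m:ℝ)*y = m'*y := by rw [← hk, ← hk']
    exact mul_right_cancel₀ hy.ne' this
  have hmm' : m = m' := by exact_mod_cast hmm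
  refine ⟨?_, hmm'⟩
  rw [← hmm] at b1 b2
  have l1 : (v:ℝ) < v' + 1 := by linarith
  have l2 : (v':ℝ) < v + 1 := by linarith
  have l1' : v < v' + 1 := by exact_mod_cast l1
  have l2' : v' < v + 1 := by exact_mod_cast l2
  omega

end Pool.Agent.H9.Klarner
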