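import Mathlib
import Pool.Agent.H9.KlarnerCount

set_option autoImplicit false

open Set MeasureTheory Filter Topology

namespace Pool.Agent.H9.Klarner

def J (v m : ℕ) : Set ℝ := Ico ((v:ℝ)/m) ((v+1)/m)

lemma mem_J (v m : ℕ) (hm : 0 < m) (y : ℝ) : y ∈ J v m ↔ (v:ℝ) ≤ m*y ∧ m*y < v+1 := by
  have hm' : (0:ℝ) < m := by exact_mod_cast hm
  unfold J
  rw [mem_Ico, div_le_iff₀ hm', lt_div_iff₀ hm', mul_comm y]

lemma J_subset (v m : ℕ) (h : Cyl v m) : J v m ⊆ Ico (1:ℝ) 2 := by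
  intro y hy
  rw [mem_J v m h.1] at hy
  exact (h.2 y hy.1 hy.2).1

lemma vol_J (v m : ℕ) : volume (J v m) = ENNReal.ofReal (1/m) := by
  unfold J
  rw [Real.volume_Ico, ← sub_div]; congr 2; ring

lemma card_bound (X : ℕ) (hX : 0 < X) (F : Finset ((_ : ℕ) × ℕ))
    (hF : ∀ p ∈ F, X ≤ p.1 ∧ p.1 < 2*X ∧ Cyl p.1 p.2) (G : Set ℝ) (hG : G ⊆ Ico (1:ℝ) 2)
    (hdis : ∀ p ∈ F, Disjoint G (J p.1 p.2)) (e : ℝ) (he0 : 0 ≤ e)
    (he : ENNReal.ofReal (1 - e) ≤ volume G) : (F.card : ℝ) ≤ e * (2*X) := by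
  set U : Set ℝ := ⋃ p ∈ F, J p.1 p.2 with hU
  have hUm : MeasurableSet U := F.measurableSet_biUnion (fun p _ => measurableSet_Ico)
  have hXr : (0:ℝ) < X := by exact_mod_cast hX
  have hvolU : volume U = ∑ p ∈ F, volume (J p.1 p.2) := by
    apply measure_biUnion_finset
    · intro p hp q hq hpq
      simp only [Function.onFun]
      rw [Set.disjoint_left]
      intro y hy1 hy2
      have hp' := hF p hp
      have hq' := hF q hq
      rw [mem_J _ _ hp'.2.2.1] at hy1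
      rw [mem_J _ _ hq'.2.2.1] at hy2
      have := Cyl_disj X p.1 p.2 q.1 q.2 hp'.1 hp'.2.1 hq'.1 hq'.2.1 hp'.2.2 hq'.2.2 y
        hy1.1 hy1.2 hy2.1 hy2.2
      apply hpq
      exact Sigma.ext this.1 (heq_of_eq this.2)
    · intro p _; exact measurableSet_Ico
  have hlow : (F.card : ENNReal) * ENNReal.ofReal (1/(2*X)) ≤ volume U := by
    rw [hvolU, ← nsmul_eq_mul]
    apply Finset.card_nsmul_le_sum
    intro p hp
    rw [vol_J]
    apply ENNReal.ofReal_le_ofReal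
    have h1 := hF p hp
    have h2 := Cyl_le _ _ h1.2.2
    have h3 : (0:ℝ) < p.2 := by exact_mod_cast h1.2.2.1
    apply one_div_le_one_div_of_le h3
    have : p.2 ≤ 2*X := by omega
    exact_mod_cast this
  have hsum : volume G + volume U ≤ 1 := by
    have h1 : volume (Ico (1:ℝ) 2 ∩ U) + volume (Ico (1:ℝ) 2 \ U) = volume (Ico (1:ℝ) 2) :=
      measure_inter_add_sdiff _ hUm
    have h2 : U ⊆ Ico (1:ℝ) 2 ∩ U := by
      intro y hy
      refine ⟨?_, hy⟩
      simp only [hU, mem_iUnion] at hy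
      obtain ⟨p, hp, hy⟩ := hy
      exact J_subset _ _ (hF p hp).2.2 hy
    have h3 : G ⊆ Ico (1:ℝ) 2 \ U := by
      intro y hy
      refine ⟨hG hy, fun hyU => ?_⟩
      simp only [hU, mem_iUnion] at hyU
      obtain ⟨p, hp, hyp⟩ := hyU
      exact Set.disjoint_left.1 (hdis p hp) hy hyp
    rw [Real.volume_Ico] at h1
    calc volume G + volume U ≤ volume (Ico (1:ℝ) 2 \ U) + volume (Ico (1:ℝ) 2 ∩ U) :=
          add_le_add (measure_mono h3) (measure_mono h2)
      _ = 1 := by rw [add_comm, h1]; norm_num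
  have h4 : ENNReal.ofReal (1-e) + ENNReal.ofReal (F.card * (1/(2*X))) ≤ ENNReal.ofReal 1 := by
    rw [ENNReal.ofReal_mul (by positivity), ENNReal.ofReal_natCast, ENNReal.ofReal_one]
    exact (add_le_add he hlow).trans hsum
  have h5 : (F.card:ℝ) * (1/(2*X)) ≤ e := by
    by_cases hc : 0 ≤ 1 - e
    · rw [← ENNReal.ofReal_add hc (by positivity)] at h4
      rw [ENNReal.ofReal_le_ofReal_iff (by norm_num)] at h4
      linarith
    · have h6 : ENNReal.ofReal (F.card * (1/(2*X))) ≤ ENNReal.ofReal 1 :=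
        le_trans (le_add_of_nonneg_left (by positivity)) h4
      rw [ENNReal.ofReal_le_ofReal_iff (by norm_num)] at h6
      linarith
  have h6 : (F.card:ℝ) = F.card * (1/(2*X)) * (2*X) := by field_simp
  rw [h6]
  exact mul_le_mul_of_nonneg_right h5 (by positivity)

lemma pow_inj_aux (a a' j j' : ℕ) (h : 2^a * 3^j' = 2^a' * 3^j) (hlt : j < j') : False := by
  obtain ⟨d, hd⟩ := Nat.exists_eq_add_of_lt hlt
  rw [hd] at h
  have h1 : 2^a * 3^(d+1) = 2^a' := by
    have h3 : 0 < 3^j := by positivity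
    apply Nat.eq_of_mul_eq_mul_right h3
    rw [← h]; ring
  have h2 : 3 ∣ 2^a' := ⟨2^a * 3^d, by rw [← h1]; ring⟩
  have := Nat.Prime.dvd_of_dvd_pow Nat.prime_three h2
  norm_num at this

open Classical in
lemma many (K X v m : ℕ) (hXv : X ≤ v) (hc : Cyl v m) (y : ℝ) (hy : Good K X y)
    (hyJ : y ∈ J v m) : K ≤ ((Finset.Icc 1 v).filter (fun n => Cyl v n)).card := by
  rw [mem_J v m hc.1] at hyJ
  obtain ⟨⟨hy1, hy2⟩, k, hk⟩ := hc.2 y hyJ.1 hyJ.2
  have hypos : 0 < y := by linarith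
  have hXk : (X:ℝ) ≤ T^[k] y := by
    rw [hk]
    have : (X:ℝ) ≤ v := by exact_mod_cast hXv
    linarith [hyJ.1]
  have key : ∀ j < K, ∃ n a : ℕ, 0 < n ∧ Cyl v n ∧ (n:ℝ) * (2^a*(y/3^j)) = m*y := by
    intro j hj
    obtain ⟨a, h1, h2, h3⟩ := hy j hj
    obtain ⟨l, hl⟩ := h3 k hXk
    obtain ⟨n, hn, hn2⟩ := iter_form l (2^a*(y/3^j))
    rw [hn2, hk] at hl
    refine ⟨n, a, hn, ?_, hl⟩
    apply Cyl_of_point l (2^a*(y/3^j)) n v hn h1 h2 hn2
    · rw [hl]; exact hyJ.1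
    · rw [hl]; exact hyJ.2
  choose! n a hn using key
  rw [← Finset.card_range K]
  apply Finset.card_le_card_of_injOn n
  · intro j hj
    have hj' : j < K := by simpa using hj
    obtain ⟨h1, h2, h3⟩ := hn j hj'
    simp only [Finset.coe_filter, Finset.mem_Icc, mem_ofPred_eq]
    exact ⟨⟨h1, Cyl_le _ _ h2⟩, h2⟩
  · intro j hj j' hj' hjj
    have hjK : j < K := by simpa using hj
    have hjK' : j' < K := by simpa using hj'
    obtain ⟨h1, h2, h3⟩ := hn j hjK
    obtain ⟨h1', h2', h3'⟩ := hn j' hjK'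
    have hnpos : (0:ℝ) < n j := by exact_mod_cast h1
    rw [← hjj, ← h3] at h3'
    have h4 := mul_left_cancel₀ hnpos.ne' h3'
    have h5 : (2:ℝ)^(a j') * 3^j = 2^(a j) * 3^j' := by
      have e1 : (2:ℝ)^(a j') * (y/3^j') = 2^(a j) * (y/3^j) := h4
      have p1 : (3:ℝ)^j ≠ 0 := by positivity
      have p2 : (3:ℝ)^j' ≠ 0 := by positivity
      have e2 : (2:ℝ)^(a j') * 3^j * y = 2^(a j) * 3^j' * y := by
        calc (2:ℝ)^(a j') * 3^j * y = (2^(a j') * (y/3^j')) * (3^j * 3^j') := by field_simp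
          _ = (2^(a j) * (y/3^j)) * (3^j * 3^j') := by rw [e1]
          _ = _ := by field_simp
      exact mul_right_cancel₀ hypos.ne' e2
    have h6 : 2^(a j') * 3^j = 2^(a j) * 3^j' := by exact_mod_cast h5
    by_contra hne
    rcases Nat.lt_or_gt_of_ne hne with hlt | hlt
    · exact pow_inj_aux _ _ _ _ h6.symm hlt
    · exact pow_inj_aux _ _ _ _ h6 hlt

open Classical in
lemma count_SS (K X : ℕ) (hK : 0 < K) (hX : 0 < X) (e : ℝ) (he0 : 0 ≤ e)
    (he : ENNReal.ofReal (1 - e) ≤ volume {y : ℝ | y ∈ Ico (1:ℝ) 2 ∧ Good K X y}) :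
    (((Finset.Ico X (2*X)).filter (fun v => v ∈ SS)).card : ℝ) ≤ 2*X/K + e*(2*X) := by
  set Ms : ℕ → Finset ℕ := fun v => (Finset.Icc 1 v).filter (fun n => Cyl v n) with hMs
  set P := (Finset.Ico X (2*X)).filter (fun v => v ∈ SS) with hP
  set Rich := P.filter (fun v => K ≤ (Ms v).card) with hRich
  set Poor := P.filter (fun v => ¬ K ≤ (Ms v).card) with hPoor
  have hsplit : Rich.card + Poor.card = P.card := Finset.card_filter_add_card_filter_not _
  have hPmem : ∀ v ∈ P, X ≤ v ∧ v < 2*X ∧ ∃ m, Cyl v m := by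
    intro v hv
    rw [hP, Finset.mem_filter, Finset.mem_Ico] at hv
    exact ⟨hv.1.1, hv.1.2, SS_cyl v hv.2⟩
  have hR : (Rich.card : ℝ) * K ≤ 2*X := by
    have h1 := card_bound X hX (Rich.sigma Ms) (by
      intro p hp
      rw [Finset.mem_sigma] at hp
      have hpP : p.1 ∈ P := (Finset.mem_filter.1 hp.1).1
      obtain ⟨a1, a2, _⟩ := hPmem _ hpP
      exact ⟨a1, a2, (Finset.mem_filter.1 hp.2).2⟩) ∅ (by simp) (by simp) 1 (by norm_num) (by simp)
    rw [one_mul] at h1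
    refine le_trans ?_ h1
    rw [Finset.card_sigma]
    have : Rich.card * K ≤ ∑ v ∈ Rich, (Ms v).card := by
      rw [← smul_eq_mul]
      exact Finset.card_nsmul_le_sum _ _ _ (fun v hv => (Finset.mem_filter.1 hv).2)
    exact_mod_cast this
  have hPo : (Poor.card : ℝ) ≤ e*(2*X) := by
    have hex : ∀ v ∈ Poor, ∃ m, Cyl v m := fun v hv => (hPmem v (Finset.mem_filter.1 hv).1).2.2
    choose! mm hmm using hex
    have h1 := card_bound X hX (Poor.sigma (fun v => {mm v})) (by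
      intro p hp
      rw [Finset.mem_sigma, Finset.mem_singleton] at hp
      have hpP : p.1 ∈ P := (Finset.mem_filter.1 hp.1).1
      obtain ⟨a1, a2, _⟩ := hPmem _ hpP
      refine ⟨a1, a2, ?_⟩
      rw [hp.2]; exact hmm _ hp.1) {y : ℝ | y ∈ Ico (1:ℝ) 2 ∧ Good K X y} (fun y hy => hy.1) (by
      intro p hp
      rw [Finset.mem_sigma, Finset.mem_singleton] at hp
      have hpP : p.1 ∈ P := (Finset.mem_filter.1 hp.1).1
      obtain ⟨a1, a2, _⟩ := hPmem _ hpP
      rw [Set.disjoint_left]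
      intro y hy hyJ
      rw [hp.2] at hyJ
      have := many K X p.1 (mm p.1) a1 (hmm _ hp.1) y hy.2 hyJ
      exact (Finset.mem_filter.1 hp.1).2 this) e he0 he
    rw [Finset.card_sigma] at h1
    simpa using h1
  have hKr : (0:ℝ) < K := by exact_mod_cast hK
  have h2 : (Rich.card:ℝ) ≤ 2*X/K := by rw [le_div_iff₀ hKr]; exact hR
  have h3 : (P.card:ℝ) = Rich.card + Poor.card := by exact_mod_cast hsplit.symm
  rw [h3]; linarith

open Classical in
lemma density_block (e : ℝ) (he : 0 < e) : ∃ X0 : ℕ, ∀ X ≥ X0, 0 < X →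
    (((Finset.Ico X (2*X)).filter (fun v => v ∈ SS)).card : ℝ) ≤ e * X := by
  obtain ⟨K, hK⟩ := exists_nat_gt (4/e)
  have hKpos : (0:ℝ) < K := lt_trans (by positivity) hK
  obtain ⟨X0, hX0⟩ := good_measure K (e/4) (by positivity)
  refine ⟨X0, fun X hX hXpos => ?_⟩
  have h1 := count_SS K X (by exact_mod_cast hKpos) hXpos (e/4) (by positivity) (hX0 X hX).le
  have hXr : (0:ℝ) < X := by exact_mod_cast hXpos
  have h2 : 2*(X:ℝ)/K ≤ e/2 * X := by
    rw [div_le_iff₀ hKpos]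
    rw [div_lt_iff₀ he] at hK
    nlinarith
  linarith

open Classical in
theorem not_positive_lower_density :
    ¬ (∃ c : ℝ, 0 < c ∧ ∃ N : ℕ, ∀ n : ℕ, N ≤ n → c * (n : ℝ) ≤
        (((SS ∩ Set.Icc 1 n).ncard : ℕ) : ℝ)) := by
  rintro ⟨c, hc, N, hN⟩
  obtain ⟨X0, hX0⟩ := density_block (c/2) (by positivity)
  set f : ℕ → ℕ := fun n => ((Finset.Ico 1 n).filter (fun v => v ∈ SS)).card with hf
  have hf_ncard : ∀ n, ((SS ∩ Set.Icc 1 n).ncard) ≤ f n + 1 := by
    intro n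
    have : SS ∩ Set.Icc 1 n ⊆ ((((Finset.Ico 1 n).filter (fun v => v ∈ SS)) ∪ {n} : Finset ℕ) : Set ℕ) := by
      intro x hx
      simp only [Finset.coe_union, Finset.coe_filter, Finset.mem_Ico, Finset.coe_singleton,
        mem_union, mem_ofPred_eq, mem_singleton_iff]
      have h1 := hx.2.1
      have h2 := hx.2.2
      by_cases h : x = n
      · right; exact h
      · left; exact ⟨⟨h1, by omega⟩, hx.1⟩
    have h2 := Set.ncard_le_ncard this (Finset.finite_toSet _)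
    rw [Set.ncard_coe_finset] at h2
    refine h2.trans ((Finset.card_union_le _ _).trans ?_)
    rw [Finset.card_singleton]
  have hstep : ∀ i, X0 ≤ i → (f (2^(i+1)) : ℝ) ≤ f (2^i) + c/2 * 2^i := by
    intro i hi
    have h1 : X0 ≤ 2^i := hi.trans (Nat.lt_two_pow_self).le
    have h2 := hX0 (2^i) h1 (by positivity)
    have h3 : f (2^(i+1)) ≤ f (2^i) + ((Finset.Ico (2^i) (2*2^i)).filter (fun v => v ∈ SS)).card := by
      simp only [hf]
      refine le_trans (Finset.card_le_card ?_) (Finset.card_union_le _ _)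
      intro x hx
      rw [Finset.mem_filter, Finset.mem_Ico] at hx
      rw [Finset.mem_union, Finset.mem_filter, Finset.mem_filter, Finset.mem_Ico, Finset.mem_Ico]
      by_cases h : x < 2^i
      · left; exact ⟨⟨hx.1.1, h⟩, hx.2⟩
      · right; exact ⟨⟨not_lt.1 h, by have := hx.1.2; rw [pow_succ] at this; omega⟩, hx.2⟩
    have h4 : (f (2^(i+1)) : ℝ) ≤ f (2^i) + ((Finset.Ico (2^i) (2*2^i)).filter (fun v => v ∈ SS)).card := by
      exact_mod_cast h3
    push_cast at h2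
    linarith
  have hind : ∀ d, (f (2^(X0+d)) : ℝ) ≤ f (2^X0) + c/2 * 2^(X0+d) := by
    intro d
    induction d with
    | zero =>
      rw [add_zero]
      have : (0:ℝ) < c/2 * 2^X0 := by positivity
      linarith
    | succ d ih =>
      have := hstep (X0+d) (by omega)
      rw [← add_assoc]
      have e3 : (2:ℝ)^(X0+d+1) = 2^(X0+d) * 2 := pow_succ _ _
      rw [e3]
      linarith
  -- choose d large
  obtain ⟨d, hd⟩ := pow_unbounded_of_one_lt (((f (2^X0) : ℝ) + 2) / (c/2)) (by norm_num : (1:ℝ) < 2)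
  set n := X0 + (d + N) with hn
  have hNn : N ≤ 2^n := by
    have : N ≤ n := by omega
    exact this.trans (Nat.lt_two_pow_self).le
  have h1 := hN (2^n) hNn
  have h2 : (((SS ∩ Set.Icc 1 (2^n)).ncard : ℕ) : ℝ) ≤ f (2^n) + 1 := by exact_mod_cast hf_ncard (2^n)
  have h3 := hind (d+N)
  rw [← hn] at h3
  have h4 : (2:ℝ)^d ≤ 2^n := pow_le_pow_right₀ (by norm_num) (by omega)
  rw [div_lt_iff₀ (by positivity)] at hd
  push_cast at h1
  nlinarith

end Pool.Agent.H9.Klarner
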