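import Mathlib
import Pool.Agent.H9.KlarnerFinal

set_option autoImplicit false

open Set MeasureTheory Filter Topology

namespace Pool.Agent.H9.Klarner

open Classical in
theorem density_zero :
    Tendsto (fun n : ℕ => (((SS ∩ Set.Icc 1 n).ncard : ℕ) : ℝ) / n) atTop (𝓝 0) := by
  set f : ℕ → ℕ := fun n => ((Finset.Ico 1 n).filter (fun v => v ∈ SS)).card with hf
  have hf_ncard : ∀ n, ((SS ∩ Set.Icc 1 n).ncard) ≤ f n + 1 := by
    intro n
    have : SS ∩ Set.Icc 1 n ⊆ ((((Finset.Ico 1 n).filter (fun v => v ∈ SS)) ∪ {n} : Finset ℕ) : Set ℕ) := by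
      intro x hx
      simp only [Finset.coe_union, Finset.coe_filter, Finset.mem_Ico, Finset.coe_singleton,
        mem_union, mem_ofPred_eq, mem_singleton_iff]
      have h1 := hx.2.1
      have h2 := hx.2.2
      by_cases h : x = n
      · right; exact h
      · left; exact ⟨⟨h1, by omega⟩, hx.1⟩
    have h2 := Set.ncard_le_ncard this (Finset.finite_toSet _)
    rw [Set.ncard_coe_finset] at h2
    refine h2.trans ((Finset.card_union_le _ _).trans ?_)
    rw [Finset.card_singleton]
  have hfmono : Monotone f := by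
    intro a b hab
    apply Finset.card_le_card
    apply Finset.filter_subset_filter
    exact Finset.Ico_subset_Ico_right hab
  have key : ∀ c : ℝ, 0 < c → ∃ C : ℝ, ∀ n : ℕ, 0 < n → (f n : ℝ) ≤ C + c * n := by
    intro c hc
    obtain ⟨X0, hX0⟩ := density_block (c/2) (by positivity)
    have hstep : ∀ i, X0 ≤ i → (f (2^(i+1)) : ℝ) ≤ f (2^i) + c/2 * 2^i := by
      intro i hi
      have h1 : X0 ≤ 2^i := hi.trans (Nat.lt_two_pow_self).le
      have h2 := hX0 (2^i) h1 (by positivity)
      have h3 : f (2^(i+1)) ≤ f (2^i) + ((Finset.Ico (2^i) (2*2^i)).filter (fun v => v ∈ SS)).card := by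
        simp only [hf]
        refine le_trans (Finset.card_le_card ?_) (Finset.card_union_le _ _)
        intro x hx
        rw [Finset.mem_filter, Finset.mem_Ico] at hx
        rw [Finset.mem_union, Finset.mem_filter, Finset.mem_filter, Finset.mem_Ico, Finset.mem_Ico]
        by_cases h : x < 2^i
        · left; exact ⟨⟨hx.1.1, h⟩, hx.2⟩
        · right; exact ⟨⟨not_lt.1 h, by have := hx.1.2; rw [pow_succ] at this; omega⟩, hx.2⟩
      have h4 : (f (2^(i+1)) : ℝ) ≤ f (2^i) + ((Finset.Ico (2^i) (2*2^i)).filter (fun v => v ∈ SS)).card := by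
        exact_mod_cast h3
      push_cast at h2
      linarith
    have hind : ∀ d, (f (2^(X0+d)) : ℝ) ≤ f (2^X0) + c/2 * 2^(X0+d) := by
      intro d
      induction d with
      | zero =>
        rw [add_zero]
        have : (0:ℝ) < c/2 * 2^X0 := by positivity
        linarith
      | succ d ih =>
        have := hstep (X0+d) (by omega)
        rw [← add_assoc]
        have e3 : (2:ℝ)^(X0+d+1) = 2^(X0+d) * 2 := pow_succ _ _
        rw [e3]
        linarith
    refine ⟨f (2^X0), fun n hn => ?_⟩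
    have hlog1 : 2^(Nat.log 2 n) ≤ n := Nat.pow_log_le_self 2 (by omega)
    have hlog2 : n < 2^(Nat.log 2 n + 1) := Nat.lt_pow_succ_log_self (by norm_num) n
    by_cases h : X0 ≤ Nat.log 2 n + 1
    · obtain ⟨d, hd⟩ := Nat.exists_eq_add_of_le h
      have h1 := hind d
      rw [← hd] at h1
      have h2 : (f n : ℝ) ≤ f (2^(Nat.log 2 n + 1)) := by exact_mod_cast hfmono hlog2.le
      have h3 : (2:ℝ)^(Nat.log 2 n + 1) ≤ 2 * n := by
        rw [pow_succ]
        have : ((2^(Nat.log 2 n) : ℕ) : ℝ) ≤ n := by exact_mod_cast hlog1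
        push_cast at this; linarith
      nlinarith
    · have h2 : n ≤ 2^X0 := hlog2.le.trans (Nat.pow_le_pow_right (by norm_num) (by omega))
      have h3 : (f n : ℝ) ≤ f (2^X0) := by exact_mod_cast hfmono h2
      have : 0 ≤ c * n := by positivity
      linarith
  rw [Metric.tendsto_atTop]
  intro e he
  obtain ⟨C, hC⟩ := key (e/4) (by positivity)
  obtain ⟨N, hN⟩ := exists_nat_gt ((|C| + 1) / (e/4))
  refine ⟨N + 1, fun n hn => ?_⟩
  have hnpos : (0:ℝ) < n := by exact_mod_cast (by omega : 0 < n)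
  rw [Real.dist_eq, sub_zero, abs_of_nonneg (by positivity), div_lt_iff₀ hnpos]
  have h1 := hC n (by omega)
  have h2 : (((SS ∩ Set.Icc 1 n).ncard : ℕ) : ℝ) ≤ f n + 1 := by exact_mod_cast hf_ncard n
  rw [div_lt_iff₀ (by positivity)] at hN
  have h3 : (N:ℝ) ≤ n := by exact_mod_cast (by omega : N ≤ n)
  have h4 : C ≤ |C| := le_abs_self C
  nlinarith

end Pool.Agent.H9.Klarner
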