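import Mathlib

set_option autoImplicit false

namespace Pool.Agent.H9.LcmBlocks

/-- `L(n; k) = lcm(n+1, n+2, ..., n+k)` -/
def Lc (n k : ℕ) : ℕ := (Finset.Icc (n+1) (n+k)).lcm id

/-- `k(n)`: the largest `k` with `1 ≤ k < n` and `L(n; k) < L(n-k; k)`, and `0` if there is none
(supremum of a finite set of natural numbers). -/
noncomputable def kk (n : ℕ) : ℕ := sSup {k : ℕ | 1 ≤ k ∧ k < n ∧ Lc n k < Lc (n - k) k}

end Pool.Agent.H9.LcmBlocks
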