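import Mathlib

set_option autoImplicit false

open Finset

namespace Pool.Agent.H9.LcmBlocks

/-- second difference of the floor function -/
def E (k q : ℕ) (n : ℤ) : ℤ := (n + k) / q - 2 * (n / q) + (n - k) / q

lemma ediv_bounds (q : ℕ) (hq : 0 < q) (x : ℤ) : (q:ℤ) * (x / q) ≤ x ∧ x < q * (x / q) + q := by
  have hq' : (0:ℤ) < q := by exact_mod_cast hq
  have h1 := Int.emod_nonneg x hq'.ne'
  have h2 := Int.emod_lt_of_pos x hq'
  have h3 := Int.emod_add_mul_ediv x q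
  constructor <;> linarith

lemma ediv_eq_of (q : ℕ) (hq : 0 < q) (x a : ℤ) (h1 : (q:ℤ) * a ≤ x) (h2 : x < q * a + q) :
    x / q = a := by
  obtain ⟨h3, h4⟩ := ediv_bounds q hq x
  have hq' : (0:ℤ) < q := by exact_mod_cast hq
  have h5 : (q:ℤ) * a < q * (x / q + 1) := by linarith
  have h6 : (q:ℤ) * (x/q) < q * (a + 1) := by linarith
  have h7 := lt_of_mul_lt_mul_left h5 hq'.le
  have h8 := lt_of_mul_lt_mul_left h6 hq'.le
  omega

lemma E_periodic (k q : ℕ) (hq : 0 < q) (n : ℤ) : E k q (n + q) = E k q n := by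
  have hq' : (q:ℤ) ≠ 0 := by exact_mod_cast hq.ne'
  unfold E
  have h1 : (n + q + k) / (q:ℤ) = (n + k)/q + 1 := by
    rw [show n + q + k = n + k + q by ring, Int.add_ediv_of_dvd_right (dvd_refl _), Int.ediv_self hq']
  have h2 : (n + q) / (q:ℤ) = n/q + 1 := by
    rw [Int.add_ediv_of_dvd_right (dvd_refl _), Int.ediv_self hq']
  have h3 : (n + q - k) / (q:ℤ) = (n - k)/q + 1 := by
    rw [show n + q - k = n - k + q by ring, Int.add_ediv_of_dvd_right (dvd_refl _), Int.ediv_self hq']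
  rw [h1, h2, h3]; ring

lemma E_periodic_k (k q : ℕ) (hq : 0 < q) (n : ℤ) : E (k + q) q n = E k q n := by
  have hq' : (q:ℤ) ≠ 0 := by exact_mod_cast hq.ne'
  unfold E
  push_cast
  have h1 : (n + (k + q)) / (q:ℤ) = (n + k)/q + 1 := by
    rw [show n + (k + q) = n + k + (q:ℤ) by ring, Int.add_ediv_of_dvd_right (dvd_refl _),
      Int.ediv_self hq']
  have h3 : (n - (k + q)) / (q:ℤ) = (n - k)/q - 1 := by
    rw [show n - (k + q) = n - k + -(q:ℤ) by ring, Int.add_ediv_of_dvd_right (by simp)]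
    rw [Int.neg_ediv_of_dvd (dvd_refl _), Int.ediv_self hq']; ring
  rw [h1, h3]; ring

lemma ediv_reflect (q : ℕ) (hq : 0 < q) (x : ℤ) : (-1 - x) / (q:ℤ) = -1 - x / q := by
  obtain ⟨h1, h2⟩ := ediv_bounds q hq x
  apply ediv_eq_of q hq
  · linarith
  · linarith

lemma E_odd (k q : ℕ) (hq : 0 < q) (n : ℤ) : E k q (-1 - n) = - E k q n := by
  unfold E
  rw [show -1 - n + (k:ℤ) = -1 - (n - k) by ring, show -1 - n - (k:ℤ) = -1 - (n + k) by ring,
    ediv_reflect q hq, ediv_reflect q hq, ediv_reflect q hq]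
  ring

lemma E_abs (k q : ℕ) (hq : 0 < q) (n : ℤ) : |E k q n| ≤ 1 := by
  have hq' : (0:ℤ) < q := by exact_mod_cast hq
  obtain ⟨a1, a2⟩ := ediv_bounds q hq (n + k)
  obtain ⟨b1, b2⟩ := ediv_bounds q hq n
  obtain ⟨c1, c2⟩ := ediv_bounds q hq (n - k)
  unfold E
  set a := (n + k) / (q:ℤ)
  set b := n / (q:ℤ)
  set c := (n - k) / (q:ℤ)
  have h1 : (q:ℤ) * (a + c) < q * (2 * b + 2) := by linarith
  have h2 : (q:ℤ) * (2 * b) < q * (a + c + 2) := by linarith
  have h3 := lt_of_mul_lt_mul_left h1 hq'.le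
  have h4 := lt_of_mul_lt_mul_left h2 hq'.le
  rw [abs_le]; constructor <;> linarith

/-! ### windows -/

lemma sum_window (Q : ℕ) (F : ℤ → ℝ) (hF : ∀ n, F (n + Q) = F n)
    (h0 : ∑ b ∈ range Q, F b = 0) (x : ℤ) : ∑ b ∈ range Q, F (x + b) = 0 := by
  have step : ∀ y : ℤ, ∑ b ∈ range Q, F (y + 1 + b) = ∑ b ∈ range Q, F (y + b) := by
    intro y
    have h1 : ∑ b ∈ range (Q+1), F (y + b) = ∑ b ∈ range Q, F (y + b) + F (y + Q) :=
      Finset.sum_range_succ _ _
    have h2 : ∑ b ∈ range (Q+1), F (y + b) = ∑ b ∈ range Q, F (y + (b+1 : ℕ)) + F (y + (0:ℕ)) :=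
      Finset.sum_range_succ' _ _
    have h3 : ∀ b : ℕ, F (y + (b+1 : ℕ)) = F (y + 1 + b) := by
      intro b; congr 1; push_cast; ring
    simp only [h3] at h2
    rw [hF] at h1
    simp only [Nat.cast_zero, add_zero] at h2
    linarith
  induction x using Int.induction_on with
  | zero => simpa using h0
  | succ i ih => rw [step]; exact ih
  | pred i ih =>
    have := step (-(i:ℤ) - 1)
    rw [← this]
    have e : -(i:ℤ) - 1 + 1 = -i := by ring
    rw [e]; exact ih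

lemma abs_sum_le (Q : ℕ) (hQ : 0 < Q) (F : ℤ → ℝ) (c : ℝ) (hF : ∀ n, F (n + Q) = F n)
    (hc : ∀ n, |F n| ≤ c) (h0 : ∑ b ∈ range Q, F b = 0) (H : ℕ) :
    ∀ x : ℤ, |∑ b ∈ range H, F (x + b)| ≤ c * Q := by
  have hc0 : 0 ≤ c := (abs_nonneg _).trans (hc 0)
  induction H using Nat.strong_induction_on with
  | _ H ih =>
    intro x
    by_cases h : H < Q
    · calc |∑ b ∈ range H, F (x + b)| ≤ ∑ b ∈ range H, |F (x + b)| := Finset.abs_sum_le_sum_abs _ _
        _ ≤ ∑ _b ∈ range H, c := Finset.sum_le_sum (fun b _ => hc _)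
        _ = H * c := by simp
        _ ≤ c * Q := by
          have : (H:ℝ) ≤ Q := by exact_mod_cast h.le
          nlinarith
    · obtain ⟨d, hd⟩ := Nat.exists_eq_add_of_le (not_lt.1 h)
      have h1 : ∑ b ∈ range H, F (x + b) = ∑ b ∈ range d, F (x + Q + b) := by
        rw [hd, Finset.sum_range_add, sum_window Q F hF h0 x, zero_add]
        refine Finset.sum_congr rfl (fun b _ => ?_)
        congr 1; push_cast; ring
      rw [h1]
      exact ih d (by omega) _

/-- double sum -/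
noncomputable def AA (N : ℤ) (H : ℕ) (F : ℤ → ℝ) : ℝ :=
  ∑ a ∈ range H, ∑ b ∈ range H, F (N + a + b)

lemma AA_bound (N : ℤ) (H Q : ℕ) (hQ : 0 < Q) (F : ℤ → ℝ) (c : ℝ) (hF : ∀ n, F (n + Q) = F n)
    (hc : ∀ n, |F n| ≤ c) (h0 : ∑ b ∈ range Q, F b = 0) : |AA N H F| ≤ c * Q ^ 2 := by
  have key := abs_sum_le Q hQ (fun x => ∑ b ∈ range H, F (x + b)) (c * Q) (fun n => by
      refine Finset.sum_congr rfl (fun b _ => ?_)
      rw [show n + Q + (b:ℤ) = n + b + Q by ring, hF]) (abs_sum_le Q hQ F c hF hc h0 H) (by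
      rw [Finset.sum_comm]
      apply Finset.sum_eq_zero
      intro b _
      have := sum_window Q F hF h0 b
      rw [← this]
      refine Finset.sum_congr rfl (fun a _ => ?_)
      congr 1; ring) H N
  unfold AA
  calc |∑ a ∈ range H, ∑ b ∈ range H, F (N + a + b)| ≤ c * Q * Q := key
    _ = c * Q ^ 2 := by ring

lemma AA_add (N : ℤ) (H : ℕ) (F G : ℤ → ℝ) : AA N H (fun n => F n + G n) = AA N H F + AA N H G := by
  simp [AA, Finset.sum_add_distrib]

lemma AA_mul (N : ℤ) (H : ℕ) (c : ℝ) (F : ℤ → ℝ) : AA N H (fun n => c * F n) = c * AA N H F := by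
  simp [AA, Finset.mul_sum]

lemma AA_const (N : ℤ) (H : ℕ) (c : ℝ) : AA N H (fun _ => c) = c * H^2 := by
  simp [AA]; ring

lemma AA_sum {ι : Type} (N : ℤ) (H : ℕ) (s : Finset ι) (F : ι → ℤ → ℝ) :
    AA N H (fun n => ∑ i ∈ s, F i n) = ∑ i ∈ s, AA N H (F i) := by
  classical
  induction s using Finset.induction_on with
  | empty => simp [AA]
  | insert a s ha ih =>
    rw [Finset.sum_insert ha, ← ih, ← AA_add]
    congr 1; ext n; rw [Finset.sum_insert ha]

lemma AA_mono (N : ℤ) (H : ℕ) (F G : ℤ → ℝ) (h : ∀ n : ℤ, N ≤ n → n < N + 2 * H → F n ≤ G n) :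
    AA N H F ≤ AA N H G := by
  unfold AA
  refine Finset.sum_le_sum (fun a ha => Finset.sum_le_sum (fun b hb => h _ (by omega) ?_))
  rw [mem_range] at ha hb
  omega

/-- odd functions have zero mean -/
lemma odd_sum (Q : ℕ) (F : ℤ → ℝ) (hF : ∀ n, F (n + Q) = F n)
    (ho : ∀ n, F (-1 - n) = - F n) : ∑ b ∈ range Q, F b = 0 := by
  have h1 : ∑ b ∈ range Q, F b = ∑ b ∈ range Q, F ((Q - 1 - b : ℕ) : ℤ) :=
    (Finset.sum_range_reflect (fun b : ℕ => F b) Q).symm
  have h2 : ∑ b ∈ range Q, F ((Q - 1 - b : ℕ) : ℤ) = ∑ b ∈ range Q, - F b := by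
    refine Finset.sum_congr rfl (fun b hb => ?_)
    rw [mem_range] at hb
    rw [← ho, ← hF (-1 - b)]
    congr 1
    omega
  rw [h2, Finset.sum_neg_distrib] at h1
  linarith

lemma sum_range_mul' (q m : ℕ) (F : ℤ → ℝ) :
    ∑ n ∈ range (q * m), F n = ∑ r ∈ range q, ∑ t ∈ range m, F ((r:ℤ) + q * t) := by
  rw [Finset.sum_comm]
  induction m with
  | zero => simp
  | succ m ih =>
    rw [Nat.mul_succ, Finset.sum_range_add, ih, Finset.sum_range_succ]
    congr 1
    refine Finset.sum_congr rfl (fun r _ => ?_)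
    congr 1; push_cast; ring

lemma periodic_mul (Q : ℕ) (F : ℤ → ℝ) (hF : ∀ n, F (n + Q) = F n) (n : ℤ) (m : ℤ) :
    F (n + Q * m) = F n := by
  induction m using Int.induction_on with
  | zero => simp
  | succ i ih =>
    rw [← ih, ← hF (n + Q * i)]; congr 1; ring
  | pred i ih =>
    rw [← ih, ← hF (n + Q * (-(i:ℤ) - 1))]; congr 1; ring

lemma coprime_shift (p q : ℕ) (hp : 0 < p) (hpq : Nat.Coprime q p) (F : ℤ → ℝ)
    (hF : ∀ n, F (n + p) = F n) (r : ℤ) :
    ∑ t ∈ range p, F (r + q * t) = ∑ t ∈ range p, F t := by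
  haveI : NeZero p := ⟨hp.ne'⟩
  have hval : ∀ n : ℤ, F n = F ((n : ZMod p).val : ℤ) := by
    intro n
    have h1 : (((n : ZMod p).val : ℤ) : ZMod p) = (n : ZMod p) := by simp
    have h2 : (p:ℤ) ∣ n - ((n : ZMod p).val : ℤ) := by
      rw [← ZMod.intCast_zmod_eq_zero_iff_dvd] at *
      push_cast
      simp
    obtain ⟨c, hc⟩ := h2
    have : n = ((n : ZMod p).val : ℤ) + p * c := by linarith
    conv_lhs => rw [this]
    exact periodic_mul p F hF _ c
  have hsum : ∀ g : ℤ → ℝ, ∑ t ∈ range p, g t = ∑ x : ZMod p, g (x.val : ℤ) := by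
    intro g
    symm
    apply Finset.sum_nbij (fun x : ZMod p => x.val)
    · intro x _; exact mem_range.2 (ZMod.val_lt x)
    · intro x _ y _ h; exact ZMod.val_injective p h
    · intro t ht
      rw [Finset.mem_coe, mem_range] at ht
      exact ⟨(t : ZMod p), by simp, ZMod.val_cast_of_lt ht⟩
    · intro x _; rfl
  rw [hsum (fun t => F (r + q * t)), hsum F]
  have hu : IsUnit (q : ZMod p) := (ZMod.isUnit_iff_coprime q p).2 hpq
  obtain ⟨u, hu⟩ := hu
  have e := Equiv.sum_comp ((Units.mulLeft u).trans (Equiv.addLeft (r : ZMod p)))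
    (fun y : ZMod p => F (y.val : ℤ))
  rw [← e]
  refine Finset.sum_congr rfl (fun x _ => ?_)
  rw [hval (r + q * (x.val : ℤ))]
  congr 3
  simp [hu]

lemma coprime_sum (p q : ℕ) (hp : 0 < p) (hpq : Nat.Coprime q p) (F G : ℤ → ℝ)
    (hF : ∀ n, F (n + p) = F n) (hG : ∀ n, G (n + q) = G n) (h0 : ∑ b ∈ range p, F b = 0) :
    ∑ n ∈ range (q * p), F n * G n = 0 := by
  rw [sum_range_mul' q p (fun n => F n * G n)]
  apply Finset.sum_eq_zero
  intro r _
  have h1 : ∀ t : ℕ, F ((r:ℤ) + q * t) * G ((r:ℤ) + q * t) = G r * F ((r:ℤ) + q * t) := by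
    intro t
    rw [periodic_mul q G hG r t]; ring
  simp only [h1]
  rw [← Finset.mul_sum, coprime_shift p q hp hpq F hF r, h0, mul_zero]

/-! ### Hermite -/

lemma hermite0 (m : ℕ) (hm : 0 < m) (y : ℤ) : ∑ t ∈ range m, (y + t) / (m:ℤ) = y := by
  have hm' : (m:ℤ) ≠ 0 := by exact_mod_cast hm.ne'
  have step : ∀ z : ℤ, ∑ t ∈ range m, (z + 1 + t) / (m:ℤ) = ∑ t ∈ range m, (z + t) / (m:ℤ) + 1 := by
    intro z
    have h1 : ∑ t ∈ range (m+1), (z + t) / (m:ℤ) = ∑ t ∈ range m, (z + t) / (m:ℤ) + (z + m)/(m:ℤ) :=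
      Finset.sum_range_succ _ _
    have h2 : ∑ t ∈ range (m+1), (z + t) / (m:ℤ) =
        ∑ t ∈ range m, (z + (t+1 : ℕ)) / (m:ℤ) + (z + (0:ℕ))/(m:ℤ) :=
      Finset.sum_range_succ' (fun t : ℕ => (z + t) / (m:ℤ)) _
    have h3 : ∀ t : ℕ, (z + (t+1 : ℕ)) = z + 1 + t := by intro t; push_cast; ring
    simp only [h3] at h2
    rw [Int.add_ediv_of_dvd_right (dvd_refl _), Int.ediv_self hm'] at h1
    simp only [Nat.cast_zero, add_zero] at h2
    linarith
  induction y using Int.induction_on with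
  | zero =>
    apply Finset.sum_eq_zero
    intro t ht
    rw [mem_range] at ht
    rw [zero_add]
    exact Int.ediv_eq_zero_of_lt (by positivity) (by exact_mod_cast ht)
  | succ i ih => rw [step, ih]
  | pred i ih =>
    have := step (-(i:ℤ) - 1)
    have e : -(i:ℤ) - 1 + 1 = -i := by ring
    rw [e, ih] at this
    linarith

lemma hermite (p m : ℕ) (hp : 0 < p) (hm : 0 < m) (x : ℤ) :
    ∑ t ∈ range m, (x + p * t) / ((p * m : ℕ):ℤ) = x / p := by
  have hp' : (p:ℤ) ≠ 0 := by exact_mod_cast hp.ne'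
  rw [← hermite0 m hm (x / p)]
  refine Finset.sum_congr rfl (fun t _ => ?_)
  push_cast
  rw [← Int.ediv_ediv_of_nonneg (by positivity)]
  congr 1
  rw [Int.add_mul_ediv_left _ _ hp']

lemma E_hermite (k p m : ℕ) (hp : 0 < p) (hm : 0 < m) (r : ℤ) :
    ∑ t ∈ range m, E k (p * m) (r + p * t) = E k p r := by
  unfold E
  simp only [Finset.sum_add_distrib, Finset.sum_sub_distrib, ← Finset.mul_sum]
  have h1 : ∀ t : ℕ, r + p * t + (k:ℤ) = (r + k) + p * t := fun t => by ring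
  have h2 : ∀ t : ℕ, r + p * t - (k:ℤ) = (r - k) + p * t := fun t => by ring
  simp only [h1, h2, hermite p m hp hm]

end Pool.Agent.H9.LcmBlocks
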