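import Mathlib
import Pool.Agent.H9.LcmDefs
import Pool.Agent.H9.LcmE

set_option autoImplicit false

open Finset

namespace Pool.Agent.H9.LcmBlocks

/-- real version -/
noncomputable def e (k q : ℕ) (n : ℤ) : ℝ := (E k q n : ℝ)

/-- variance -/
noncomputable def v (k p : ℕ) : ℝ := (∑ r ∈ range p, (e k p r)^2) / p

lemma v_nonneg (k p : ℕ) : 0 ≤ v k p := by unfold v; positivity

lemma e_per (k q : ℕ) (hq : 0 < q) (n : ℤ) : e k q (n + q) = e k q n := by
  unfold e; rw [E_periodic k q hq]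

lemma e_odd (k q : ℕ) (hq : 0 < q) (n : ℤ) : e k q (-1 - n) = - e k q n := by
  unfold e; rw [E_odd k q hq]; push_cast; ring

lemma e_abs (k q : ℕ) (hq : 0 < q) (n : ℤ) : |e k q n| ≤ 1 := by
  unfold e; have := E_abs k q hq n; exact_mod_cast this

lemma e_sum (k q : ℕ) (hq : 0 < q) : ∑ b ∈ range q, e k q b = 0 :=
  odd_sum q (e k q) (e_per k q hq) (e_odd k q hq)

lemma e_per_mul (k q m : ℕ) (hq : 0 < q) (n : ℤ) : e k q (n + (q*m : ℕ)) = e k q n := by
  push_cast
  exact periodic_mul q (e k q) (e_per k q hq) n m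

/-- Lemma D -/
lemma corr (k p m : ℕ) (hp : 0 < p) (hm : 0 < m) :
    ∑ n ∈ range (p*m), e k p n * e k (p*m) n = p * v k p := by
  rw [sum_range_mul' p m (fun n => e k p n * e k (p*m) n)]
  have hp' : (p:ℝ) ≠ 0 := by positivity
  unfold v
  rw [mul_div_cancel₀ _ hp']
  refine Finset.sum_congr rfl (fun r _ => ?_)
  have h1 : ∀ t : ℕ, e k p ((r:ℤ) + p * t) * e k (p*m) ((r:ℤ) + p * t) =
      e k p r * e k (p*m) ((r:ℤ) + p * t) := by
    intro t
    rw [periodic_mul p (e k p) (e_per k p hp)]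
  simp only [h1]
  rw [← Finset.mul_sum]
  have h2 : ∑ t ∈ range m, e k (p*m) ((r:ℤ) + p * t) = e k p r := by
    have := E_hermite k p m hp hm r
    unfold e
    rw [← this]
    push_cast
    rfl
  rw [h2]; ring

lemma e_sq_le (k p : ℕ) (hp : 0 < p) (n : ℤ) : (e k p n)^2 ≤ 1 := by
  have := e_abs k p hp n
  rw [← sq_abs]
  have h0 := abs_nonneg (e k p n)
  nlinarith

lemma v_le (k p : ℕ) (hp : 0 < p) : v k p ≤ 1 := by
  unfold v
  rw [div_le_one (by positivity)]
  calc ∑ r ∈ range p, (e k p r)^2 ≤ ∑ _r ∈ range p, (1:ℝ) :=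
        Finset.sum_le_sum (fun r _ => e_sq_le k p hp r)
    _ = p := by simp

/-- AA of a periodic function with mean `μ` -/
lemma AA_mean (N : ℤ) (H Q : ℕ) (hQ : 0 < Q) (F : ℤ → ℝ) (hF : ∀ n, F (n + Q) = F n)
    (hc : ∀ n, |F n| ≤ 1) (μ : ℝ) (h0 : ∑ b ∈ range Q, F b = Q * μ) :
    |AA N H F - μ * H^2| ≤ 2 * Q^2 := by
  have hQ' : (0:ℝ) < Q := by exact_mod_cast hQ
  have hμ : |μ| ≤ 1 := by
    have h1 : |(Q:ℝ) * μ| ≤ Q := by
      rw [← h0]
      calc |∑ b ∈ range Q, F b| ≤ ∑ b ∈ range Q, |F b| := Finset.abs_sum_le_sum_abs _ _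
        _ ≤ ∑ _b ∈ range Q, (1:ℝ) := Finset.sum_le_sum (fun b _ => hc b)
        _ = Q := by simp
    rw [abs_mul, abs_of_pos hQ'] at h1
    by_contra h
    push Not at h
    nlinarith
  have h2 := AA_bound N H Q hQ (fun n => F n + (-μ)) 2 (fun n => by simp only [hF])
    (fun n => by
      calc |F n + (-μ)| ≤ |F n| + |-μ| := abs_add_le _ _
        _ ≤ 2 := by rw [abs_neg]; linarith [hc n])
    (by rw [Finset.sum_add_distrib, h0]; simp)
  rw [AA_add, AA_const] at h2
  have e1 : AA N H F - μ * H^2 = AA N H F + -μ * H^2 := by ring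
  rw [e1]
  have : AA N H F = AA N H (fun n => F n) := rfl
  rw [this]; exact h2

/-! ### averaging over `k` -/

lemma e_per_k (k q : ℕ) (hq : 0 < q) (n : ℤ) : e (k + q) q n = e k q n := by
  unfold e; rw [E_periodic_k k q hq]

lemma v_per (k p : ℕ) (hp : 0 < p) : v (k + p) p = v k p := by
  unfold v; simp only [e_per_k k p hp]

lemma v_lower (k p : ℕ) (hp : 0 < p) (hk : k ≤ p) : (k:ℝ) * (p - k) / p / p ≤ v k p := by
  have hp' : (0:ℝ) < p := by exact_mod_cast hp
  unfold v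
  apply div_le_div_of_nonneg_right _ hp'.le
  have hkp : (k:ℝ) ≤ p := by exact_mod_cast hk
  have hk0 : (0:ℝ) ≤ k := by positivity
  have h1 : (k:ℝ) * (p - k) / p ≤ (min k (p - k) : ℕ) := by
    rw [div_le_iff₀ hp', Nat.cast_min, Nat.cast_sub hk]
    rcases le_total (k:ℝ) (p - k) with h | h
    · rw [min_eq_left h]; nlinarith
    · rw [min_eq_right h]; nlinarith
  refine h1.trans ?_
  calc ((min k (p-k) : ℕ):ℝ) = ∑ _r ∈ range (min k (p-k)), (1:ℝ) := by simp
    _ = ∑ r ∈ range (min k (p-k)), (e k p r)^2 := by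
      refine Finset.sum_congr rfl (fun r hr => ?_)
      rw [mem_range, lt_min_iff] at hr
      have hE : E k p r = -1 := by
        unfold E
        rw [ediv_eq_of p hp ((r:ℤ) + k) 0 (by positivity) (by omega),
          ediv_eq_of p hp (r:ℤ) 0 (by positivity) (by omega),
          ediv_eq_of p hp ((r:ℤ) - k) (-1) (by omega) (by omega)]
        norm_num
      unfold e
      rw [hE]; norm_num
    _ ≤ ∑ r ∈ range p, (e k p r)^2 := by
      apply Finset.sum_le_sum_of_subset_of_nonneg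
      · intro r hr
        rw [mem_range] at hr ⊢
        exact lt_of_lt_of_le hr ((min_le_left _ _).trans hk)
      · intro i _ _; positivity

lemma sum_k (p : ℕ) : ∑ k ∈ range p, (k:ℝ) * (p - k) = p * (p^2 - 1) / 6 := by
  have h1 : ∀ n : ℕ, ∑ k ∈ range n, (k:ℝ) = n * (n - 1) / 2 := by
    intro n
    induction n with
    | zero => simp
    | succ n ih => rw [Finset.sum_range_succ, ih]; push_cast; ring
  have h2 : ∀ n : ℕ, ∑ k ∈ range n, (k:ℝ)^2 = n * (n - 1) * (2 * n - 1) / 6 := by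
    intro n
    induction n with
    | zero => simp
    | succ n ih => rw [Finset.sum_range_succ, ih]; push_cast; ring
  have h3 : ∑ k ∈ range p, (k:ℝ) * (p - k) = p * ∑ k ∈ range p, (k:ℝ) - ∑ k ∈ range p, (k:ℝ)^2 := by
    rw [Finset.mul_sum, ← Finset.sum_sub_distrib]
    exact Finset.sum_congr rfl (fun k _ => by ring)
  rw [h3, h1, h2]; ring

lemma sum_v (p : ℕ) (hp : 2 ≤ p) : (p:ℝ)/8 ≤ ∑ k ∈ range p, v k p := by
  have hp' : (2:ℝ) ≤ p := by exact_mod_cast hp
  have hp0 : (0:ℝ) < p := by linarith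
  calc (p:ℝ)/8 ≤ (p * (p^2 - 1) / 6) / p / p := by
        rw [div_div, le_div_iff₀ (by positivity)]
        have : 0 ≤ (p:ℝ) * (p^2 - 4) := by
          apply mul_nonneg hp0.le; nlinarith
        nlinarith
    _ = ∑ k ∈ range p, (k:ℝ) * (p - k) / p / p := by
      rw [← Finset.sum_div, ← Finset.sum_div, sum_k]
    _ ≤ ∑ k ∈ range p, v k p := by
      refine Finset.sum_le_sum (fun k hk => ?_)
      rw [mem_range] at hk
      exact v_lower k p (by omega) hk.le

lemma window_nat (p : ℕ) (f : ℕ → ℝ) (hf : ∀ n, f (n + p) = f n) (x : ℕ) :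
    ∑ b ∈ range p, f (x + b) = ∑ b ∈ range p, f b := by
  induction x with
  | zero => simp
  | succ y ih =>
    rw [← ih]
    have h1 : ∑ b ∈ range (p+1), f (y + b) = ∑ b ∈ range p, f (y + b) + f (y + p) :=
      Finset.sum_range_succ _ _
    have h2 : ∑ b ∈ range (p+1), f (y + b) = ∑ b ∈ range p, f (y + (b+1)) + f (y + 0) :=
      Finset.sum_range_succ' _ _
    have h3 : ∀ b : ℕ, f (y + (b+1)) = f (y + 1 + b) := by
      intro b; congr 1; ring
    simp only [h3] at h2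
    rw [hf] at h1
    simp only [add_zero] at h2
    linarith

lemma periods_nat (p : ℕ) (f : ℕ → ℝ) (hf : ∀ n, f (n + p) = f n) (x m : ℕ) :
    ∑ b ∈ range (p*m), f (x + b) = m * ∑ b ∈ range p, f b := by
  induction m with
  | zero => simp
  | succ m ih =>
    rw [Nat.mul_succ, Finset.sum_range_add, ih]
    have : ∀ b : ℕ, f (x + (p*m + b)) = f (x + p*m + b) := fun b => by congr 1; ring
    simp only [this]
    rw [window_nat p f hf]
    push_cast; ring

lemma sum_v_window (p K : ℕ) (hp : 2 ≤ p) (hK : 2 * p ≤ K) :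
    (K:ℝ)/16 ≤ ∑ b ∈ range K, v (K + b) p := by
  have hp' : (2:ℝ) ≤ p := by exact_mod_cast hp
  have h1 := periods_nat p (fun k => v k p) (fun n => v_per n p (by omega)) K (K/p)
  have h2 : ∑ b ∈ range (p*(K/p)), v (K + b) p ≤ ∑ b ∈ range K, v (K + b) p := by
    apply Finset.sum_le_sum_of_subset_of_nonneg
    · intro r hr
      rw [mem_range] at hr ⊢
      exact lt_of_lt_of_le hr (Nat.mul_div_le K p)
    · intro i _ _; exact v_nonneg _ _
  refine le_trans ?_ h2
  rw [h1]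
  have h3 := sum_v p hp
  have h4 : (K:ℝ) ≤ p * ((K/p : ℕ):ℝ) + p := by
    have : K < p * (K/p) + p := by
      have := Nat.lt_div_mul_add (a := K) (b := p) (by omega)
      linarith [mul_comm p (K/p)]
    exact_mod_cast this.le
  have h5 : (2:ℝ) * p ≤ K := by exact_mod_cast hK
  have h6 : ((K/p : ℕ):ℝ) * ((p:ℝ)/8) ≤ ((K/p : ℕ):ℝ) * ∑ b ∈ range p, v b p :=
    mul_le_mul_of_nonneg_left h3 (by positivity)
  nlinarith

lemma exists_k (S : Finset ℕ) (P K : ℕ) (hS : ∀ p ∈ S, 2 ≤ p ∧ p ≤ P) (hK : 2 * P ≤ K) (hK0 : 0 < K) :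
    ∃ k, K ≤ k ∧ k < 2 * K ∧ (#S : ℝ)/16 ≤ ∑ p ∈ S, v k p := by
  by_contra hcon
  push Not at hcon
  have h1 : ∑ b ∈ range K, ∑ p ∈ S, v (K + b) p < ∑ _b ∈ range K, (#S:ℝ)/16 := by
    apply Finset.sum_lt_sum_of_nonempty (by rw [Finset.nonempty_range_iff]; omega)
    intro b hb
    rw [mem_range] at hb
    exact hcon (K+b) (by omega) (by omega)
  rw [Finset.sum_comm] at h1
  have h2 : ∑ _p ∈ S, (K:ℝ)/16 ≤ ∑ p ∈ S, ∑ b ∈ range K, v (K + b) p := by
    refine Finset.sum_le_sum (fun p hp => ?_)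
    obtain ⟨a, b⟩ := hS p hp
    exact sum_v_window p K a (by omega)
  simp only [Finset.sum_const, card_range, nsmul_eq_mul] at h1 h2
  nlinarith

end Pool.Agent.H9.LcmBlocks
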