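import Mathlib
import Pool.Agent.H9.LcmDefs
import Pool.Agent.H9.LcmV

set_option autoImplicit false

open Finset
open scoped ArithmeticFunction.vonMangoldt

namespace Pool.Agent.H9.LcmBlocks

lemma AA_e (k q : ℕ) (hq : 0 < q) (N : ℤ) (H : ℕ) : |AA N H (e k q)| ≤ (q:ℝ)^2 := by
  have := AA_bound N H q hq (e k q) 1 (e_per k q hq) (e_abs k q hq) (e_sum k q hq)
  linarith

lemma abs_mul_le_one {a b : ℝ} (ha : |a| ≤ 1) (hb : |b| ≤ 1) : |a * b| ≤ 1 := by
  rw [abs_mul]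
  have := abs_nonneg a
  have := abs_nonneg b
  nlinarith

lemma AA_ee_coprime (k p q : ℕ) (hp : 0 < p) (hq : 0 < q) (h : Nat.Coprime q p) (N : ℤ) (H : ℕ) :
    |AA N H (fun n => e k p n * e k q n)| ≤ ((q * p : ℕ):ℝ)^2 := by
  have := AA_bound N H (q*p) (by positivity) (fun n => e k p n * e k q n) 1
    (fun n => by
      have h1 := e_per_mul k q p hq n
      have h2 := e_per_mul k p q hp n
      rw [mul_comm p q] at h2
      simp only [h1, h2])
    (fun n => abs_mul_le_one (e_abs k p hp n) (e_abs k q hq n))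
    (coprime_sum p q hp h (e k p) (e k q) (e_per k p hp) (e_per k q hq) (e_sum k p hp))
  linarith

lemma AA_ee_dvd (k p m : ℕ) (hp : 0 < p) (hm : 0 < m) (N : ℤ) (H : ℕ) :
    |AA N H (fun n => e k p n * e k (p*m) n) - v k p / m * H^2| ≤ 2 * ((p * m : ℕ):ℝ)^2 := by
  have hm' : (m:ℝ) ≠ 0 := by positivity
  apply AA_mean N H (p*m) (by positivity)
  · intro n
    have h1 := e_per_mul k p m hp n
    have h2 := e_per k (p*m) (by positivity) n
    simp only [h1, h2]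
  · exact fun n => abs_mul_le_one (e_abs k p hp n) (e_abs k _ (by positivity) n)
  · rw [corr k p m hp hm]
    push_cast
    field_simp

lemma AA_eee (k p p' q : ℕ) (hp : 0 < p) (hp' : 0 < p') (hq : 0 < q) (N : ℤ) (H : ℕ) :
    |AA N H (fun n => e k p n * e k p' n * e k q n)| ≤ ((p * p' * q : ℕ):ℝ)^2 := by
  have hper : ∀ n : ℤ, e k p (n + (p*p'*q : ℕ)) * e k p' (n + (p*p'*q : ℕ)) *
      e k q (n + (p*p'*q : ℕ)) = e k p n * e k p' n * e k q n := by
    intro n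
    have h1 := e_per_mul k p (p'*q) hp n
    have h2 := e_per_mul k p' (p*q) hp' n
    have h3 := e_per_mul k q (p*p') hq n
    rw [show p * (p'*q) = p*p'*q by ring] at h1
    rw [show p' * (p*q) = p*p'*q by ring] at h2
    rw [show q * (p*p') = p*p'*q by ring] at h3
    rw [h1, h2, h3]
  have := AA_bound N H (p*p'*q) (by positivity) (fun n => e k p n * e k p' n * e k q n) 1
    hper
    (fun n => abs_mul_le_one (abs_mul_le_one (e_abs k p hp n) (e_abs k p' hp' n)) (e_abs k q hq n))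
    (odd_sum _ (fun n => e k p n * e k p' n * e k q n) hper (fun n => by
      simp only [e_odd k p hp, e_odd k p' hp', e_odd k q hq]; ring))
  linarith

/-- lower bound for the correlation with a small prime -/
lemma AA_pq (k p q P : ℕ) (hp : p.Prime) (hpP : p ≤ P) (hP : 2 ≤ P) (hq : 0 < q) (hqk : q ≤ k)
    (N : ℤ) (H : ℕ) :
    (if q = p then v k p * H^2 else 0) - (P:ℝ)^2 * (k:ℝ)^2 ≤
      AA N H (fun n => e k p n * e k q n) := by
  have hqk' : (q:ℝ) ≤ k := by exact_mod_cast hqk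
  have hpP' : (p:ℝ) ≤ P := by exact_mod_cast hpP
  have hP' : (2:ℝ) ≤ P := by exact_mod_cast hP
  have hq0 : (0:ℝ) ≤ q := by positivity
  have hq2 : (q:ℝ)^2 ≤ (k:ℝ)^2 := by gcongr
  have hP2 : (2:ℝ) ≤ (P:ℝ)^2 := by nlinarith
  by_cases hd : p ∣ q
  · obtain ⟨m, rfl⟩ := hd
    have hm : 0 < m := Nat.pos_of_mul_pos_left hq |> fun h => by
      rcases Nat.eq_zero_or_pos m with h0 | h0
      · subst h0; simp at hq
      · exact h0
    have h1 := AA_ee_dvd k p m hp.pos hm N H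
    rw [abs_le] at h1
    have h3 : 2 * ((p * m : ℕ):ℝ)^2 ≤ (P:ℝ)^2 * (k:ℝ)^2 := by
      calc 2 * ((p * m : ℕ):ℝ)^2 ≤ 2 * (k:ℝ)^2 := by linarith
        _ ≤ (P:ℝ)^2 * (k:ℝ)^2 := by gcongr
    have h4 : (if p * m = p then v k p * (H:ℝ)^2 else 0) ≤ v k p / m * H^2 := by
      split_ifs with h
      · have : m = 1 := by
          have := hp.pos
          exact (Nat.mul_eq_left (by omega)).1 h
        subst this; simp
      · have := v_nonneg k p
        positivity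
    linarith
  · have hcop : Nat.Coprime q p := ((Nat.Prime.coprime_iff_not_dvd hp).2 hd).symm
    have h1 := AA_ee_coprime k p q hp.pos hq hcop N H
    rw [abs_le] at h1
    have hne : q ≠ p := by rintro rfl; exact hd (dvd_refl _)
    rw [if_neg hne]
    have h3 : ((q * p : ℕ):ℝ)^2 ≤ (P:ℝ)^2 * (k:ℝ)^2 := by
      push_cast
      rw [mul_pow, mul_comm]
      gcongr
    linarith

/-- upper bound for the second moment -/
lemma AA_pp (k p p' P : ℕ) (hp : p.Prime) (hp' : p'.Prime) (hpP : p ≤ P) (hpP' : p' ≤ P)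
    (hP : 2 ≤ P) (N : ℤ) (H : ℕ) :
    AA N H (fun n => e k p n * e k p' n) ≤ (if p' = p then v k p * H^2 else 0) + (P:ℝ)^4 := by
  have h1 : (p:ℝ) ≤ P := by exact_mod_cast hpP
  have h2 : (p':ℝ) ≤ P := by exact_mod_cast hpP'
  have hP' : (2:ℝ) ≤ P := by exact_mod_cast hP
  have hP2 : (2:ℝ) ≤ (P:ℝ)^2 := by nlinarith
  split_ifs with h
  · subst h
    have h3 := AA_ee_dvd k p' 1 hp'.pos one_pos N H
    rw [abs_le] at h3
    rw [Nat.mul_one] at h3
    simp only [Nat.cast_one, div_one] at h3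
    have h4 : 2 * (p':ℝ)^2 ≤ (P:ℝ)^4 := by
      calc 2 * (p':ℝ)^2 ≤ (P:ℝ)^2 * (P:ℝ)^2 := by gcongr
        _ = (P:ℝ)^4 := by ring
    linarith
  · have h3 := AA_ee_coprime k p p' hp.pos hp'.pos ((Nat.coprime_primes hp' hp).2 h) N H
    rw [abs_le] at h3
    have h4 : ((p' * p : ℕ):ℝ)^2 ≤ (P:ℝ)^4 := by
      push_cast
      calc ((p':ℝ) * p)^2 ≤ ((P:ℝ) * P)^2 := by gcongr
        _ = (P:ℝ)^4 := by ring
    linarith

noncomputable def X (k : ℕ) (n : ℤ) : ℝ := ∑ q ∈ Icc 1 k, Λ q * e k q n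

lemma main_ineq (k P : ℕ) (S : Finset ℕ) (hS : ∀ p ∈ S, p.Prime ∧ p ≤ P) (hP : 2 ≤ P) (hPk : P ≤ k)
    (lam κ : ℝ) (hlam : 0 ≤ lam) (hκ : 0 ≤ κ) (N : ℤ) (H : ℕ)
    (hX : ∀ n : ℤ, N ≤ n → n < N + 2 * H → X k n ≤ κ) :
    2 * lam * H^2 * ∑ p ∈ S, Λ p * v k p -
      (∑ q ∈ Icc 1 k, Λ q) * (k:ℝ)^2 * (lam^2 + 2 * lam * #S * (P:ℝ)^2 + (#S:ℝ)^2 * (P:ℝ)^4) ≤
    κ * (H^2 * (lam^2 + ∑ p ∈ S, v k p) + 2 * lam * #S * (P:ℝ)^2 + (#S:ℝ)^2 * (P:ℝ)^4) := by
  set W : ℤ → ℝ := fun n => (lam + ∑ p ∈ S, e k p n)^2 with hW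
  have hmono : AA N H (fun n => W n * X k n) ≤ AA N H (fun n => κ * W n) := by
    apply AA_mono
    intro n h1 h2
    have := hX n h1 h2
    have hw : 0 ≤ W n := by positivity
    nlinarith
  rw [AA_mul] at hmono
  -- upper bound for AA W
  have hWexp : W = fun n => (lam^2 + ∑ p ∈ S, 2 * lam * e k p n) +
      ∑ p ∈ S, ∑ p' ∈ S, e k p n * e k p' n := by
    ext n
    rw [hW]
    simp only
    rw [← Finset.mul_sum, ← Finset.sum_mul_sum]
    ring
  have hWu : AA N H W ≤ H^2 * (lam^2 + ∑ p ∈ S, v k p) + 2 * lam * #S * (P:ℝ)^2 +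
      (#S:ℝ)^2 * (P:ℝ)^4 := by
    rw [hWexp, AA_add, AA_add, AA_const, AA_sum, AA_sum]
    have h1 : ∑ p ∈ S, AA N H (fun n => 2 * lam * e k p n) ≤ ∑ _p ∈ S, 2 * lam * (P:ℝ)^2 := by
      refine Finset.sum_le_sum (fun p hp => ?_)
      rw [AA_mul]
      apply mul_le_mul_of_nonneg_left _ (by positivity)
      obtain ⟨h1, h2⟩ := hS p hp
      have h3 := AA_e k p h1.pos N H
      have h4 : (p:ℝ) ≤ P := by exact_mod_cast h2
      calc AA N H (fun n => e k p n) ≤ |AA N H (e k p)| := le_abs_self _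
        _ ≤ (p:ℝ)^2 := h3
        _ ≤ (P:ℝ)^2 := by gcongr
    have h2 : ∑ p ∈ S, AA N H (fun n => ∑ p' ∈ S, e k p n * e k p' n) ≤
        ∑ p ∈ S, (v k p * H^2 + #S * (P:ℝ)^4) := by
      refine Finset.sum_le_sum (fun p hp => ?_)
      rw [AA_sum]
      calc ∑ p' ∈ S, AA N H (fun n => e k p n * e k p' n)
          ≤ ∑ p' ∈ S, ((if p' = p then v k p * H^2 else 0) + (P:ℝ)^4) := by
            refine Finset.sum_le_sum (fun p' hp' => ?_)
            exact AA_pp k p p' P (hS p hp).1 (hS p' hp').1 (hS p hp).2 (hS p' hp').2 hP N H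
        _ = v k p * H^2 + #S * (P:ℝ)^4 := by
            rw [Finset.sum_add_distrib, Finset.sum_ite_eq' S p, if_pos hp]
            simp
    rw [Finset.sum_add_distrib, ← Finset.sum_mul] at h2
    simp only [Finset.sum_const, nsmul_eq_mul] at h1 h2
    nlinarith
  -- lower bound
  have hWX : (fun n => W n * X k n) = fun n => ∑ q ∈ Icc 1 k, Λ q * (lam^2 * e k q n +
      (∑ p ∈ S, 2 * lam * (e k p n * e k q n) + ∑ p ∈ S, ∑ p' ∈ S, e k p n * e k p' n * e k q n)) := by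
    ext n
    rw [hWexp]
    unfold X
    simp only
    rw [Finset.mul_sum]
    refine Finset.sum_congr rfl (fun q _ => ?_)
    have e1 : ∑ p ∈ S, 2 * lam * (e k p n * e k q n) = (∑ p ∈ S, 2 * lam * e k p n) * e k q n := by
      rw [Finset.sum_mul]; exact Finset.sum_congr rfl (fun p _ => by ring)
    have e2 : ∑ p ∈ S, ∑ p' ∈ S, e k p n * e k p' n * e k q n =
        (∑ p ∈ S, ∑ p' ∈ S, e k p n * e k p' n) * e k q n := by
      rw [Finset.sum_mul]; exact Finset.sum_congr rfl (fun p _ => by rw [Finset.sum_mul])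
    rw [e1, e2]; ring
  have hq : ∀ q ∈ Icc 1 k, Λ q * (∑ p ∈ S, (if q = p then 2 * lam * H^2 * v k p else 0)) -
      Λ q * ((k:ℝ)^2 * (lam^2 + 2 * lam * #S * (P:ℝ)^2 + (#S:ℝ)^2 * (P:ℝ)^4)) ≤
      AA N H (fun n => Λ q * (lam^2 * e k q n +
      (∑ p ∈ S, 2 * lam * (e k p n * e k q n) + ∑ p ∈ S, ∑ p' ∈ S, e k p n * e k p' n * e k q n))) := by
    intro q hq
    rw [mem_Icc] at hq
    rw [AA_mul, ← mul_sub]
    apply mul_le_mul_of_nonneg_left _ ArithmeticFunction.vonMangoldt_nonneg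
    rw [AA_add, AA_add, AA_mul, AA_sum, AA_sum]
    have hqk' : (q:ℝ) ≤ k := by exact_mod_cast hq.2
    have h1 : -(lam^2 * (k:ℝ)^2) ≤ lam^2 * AA N H (fun n => e k q n) := by
      have h3 := AA_e k q (by omega) N H
      rw [abs_le] at h3
      have h4 : (q:ℝ)^2 ≤ (k:ℝ)^2 := by gcongr
      have h5 : AA N H (fun n => e k q n) = AA N H (e k q) := rfl
      rw [h5]
      have : -(k:ℝ)^2 ≤ AA N H (e k q) := by linarith
      nlinarith [sq_nonneg lam]
    have h2 : ∑ p ∈ S, ((if q = p then 2 * lam * H^2 * v k p else 0) - 2 * lam * ((P:ℝ)^2 * (k:ℝ)^2)) ≤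
        ∑ p ∈ S, AA N H (fun n => 2 * lam * (e k p n * e k q n)) := by
      refine Finset.sum_le_sum (fun p hp => ?_)
      rw [AA_mul]
      have h3 := AA_pq k p q P (hS p hp).1 (hS p hp).2 hP (by omega) hq.2 N H
      have h4 := mul_le_mul_of_nonneg_left h3 (show 0 ≤ 2 * lam by positivity)
      refine le_trans (le_of_eq ?_) h4
      split_ifs <;> ring
    have h3 : ∑ _p ∈ S, ∑ _p' ∈ S, (-((P:ℝ)^4 * (k:ℝ)^2)) ≤
        ∑ p ∈ S, AA N H (fun n => ∑ p' ∈ S, e k p n * e k p' n * e k q n) := by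
      refine Finset.sum_le_sum (fun p hp => ?_)
      rw [AA_sum]
      refine Finset.sum_le_sum (fun p' hp' => ?_)
      have h3 := AA_eee k p p' q (hS p hp).1.pos (hS p' hp').1.pos (by omega) N H
      rw [abs_le] at h3
      have a1 : (p:ℝ) ≤ P := by exact_mod_cast (hS p hp).2
      have a2 : (p':ℝ) ≤ P := by exact_mod_cast (hS p' hp').2
      have h4 : ((p * p' * q : ℕ):ℝ)^2 ≤ (P:ℝ)^4 * (k:ℝ)^2 := by
        push_cast
        calc ((p:ℝ) * p' * q)^2 ≤ ((P:ℝ) * P * k)^2 := by gcongr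
          _ = (P:ℝ)^4 * (k:ℝ)^2 := by ring
      linarith
    rw [Finset.sum_sub_distrib] at h2
    simp only [Finset.sum_const, nsmul_eq_mul] at h2 h3
    nlinarith
  have hlow : 2 * lam * H^2 * ∑ p ∈ S, Λ p * v k p -
      (∑ q ∈ Icc 1 k, Λ q) * (k:ℝ)^2 * (lam^2 + 2 * lam * #S * (P:ℝ)^2 + (#S:ℝ)^2 * (P:ℝ)^4) ≤
      AA N H (fun n => W n * X k n) := by
    rw [hWX, AA_sum]
    refine le_trans (le_of_eq ?_) (Finset.sum_le_sum hq)
    rw [Finset.sum_sub_distrib, ← Finset.sum_mul]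
    congr 1
    · have : ∀ q ∈ Icc 1 k, Λ q * (∑ p ∈ S, (if q = p then 2 * lam * H^2 * v k p else 0)) =
          ∑ p ∈ S, (if q = p then Λ p * (2 * lam * H^2 * v k p) else 0) := by
        intro q _
        rw [Finset.mul_sum]
        refine Finset.sum_congr rfl (fun p _ => ?_)
        split_ifs with h
        · rw [h]
        · ring
      rw [Finset.sum_congr rfl this, Finset.sum_comm, Finset.mul_sum]
      refine Finset.sum_congr rfl (fun p hp => ?_)
      rw [Finset.sum_ite_eq' (Icc 1 k) p, if_pos]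
      · ring
      · rw [mem_Icc]; exact ⟨(hS p hp).1.pos, (hS p hp).2.trans hPk⟩
    · ring
  calc _ ≤ AA N H (fun n => W n * X k n) := hlow
    _ ≤ κ * AA N H (fun n => W n) := hmono
    _ ≤ _ := mul_le_mul_of_nonneg_left hWu hκ

end Pool.Agent.H9.LcmBlocks
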