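import Mathlib
import Pool.Agent.H9.LcmDefs
import Pool.Agent.H9.LcmE

set_option autoImplicit false

open Finset
open scoped ArithmeticFunction.vonMangoldt

namespace Pool.Agent.H9.LcmBlocks

lemma pp_dvd_lcm (p a : ℕ) (hp : p.Prime) (ha : 0 < a) (s : Finset ℕ) (hs : ∀ j ∈ s, j ≠ 0) :
    p^a ∣ s.lcm id ↔ ∃ j ∈ s, p^a ∣ j := by
  induction s using Finset.induction_on with
  | empty =>
    simp only [Finset.lcm_empty, Nat.dvd_one, Finset.notMem_empty, false_and, exists_false, iff_false]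
    intro h
    rw [Nat.pow_eq_one] at h
    rcases h with h | h
    · exact hp.one_lt.ne' h
    · exact ha.ne' h
  | insert b s hb ih =>
    have hb0 : b ≠ 0 := hs b (Finset.mem_insert_self _ _)
    have hs' : ∀ j ∈ s, j ≠ 0 := fun j hj => hs j (Finset.mem_insert_of_mem hj)
    have hL : s.lcm id ≠ 0 := by
      rw [Ne, Finset.lcm_eq_zero_iff]
      rintro ⟨j, hj, h0⟩
      exact hs' j hj h0
    rw [Finset.lcm_insert]
    have h1 : p^a ∣ GCDMonoid.lcm (id b) (s.lcm id) ↔ p^a ∣ b ∨ p^a ∣ s.lcm id := by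
      have hne : Nat.lcm b (s.lcm id) ≠ 0 := Nat.lcm_ne_zero hb0 hL
      show p^a ∣ Nat.lcm b (s.lcm id) ↔ _
      rw [hp.pow_dvd_iff_le_factorization hne, hp.pow_dvd_iff_le_factorization hb0,
        hp.pow_dvd_iff_le_factorization hL, Nat.factorization_lcm hb0 hL, Finsupp.sup_apply]
      exact le_sup_iff
    rw [h1, ih hs']
    simp

lemma Icc_pos (n k : ℕ) : ∀ j ∈ Icc (n+1) (n+k), j ≠ 0 := by
  intro j hj; rw [mem_Icc] at hj; omega

lemma Lc_ne_zero (n k : ℕ) : Lc n k ≠ 0 := by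
  unfold Lc
  rw [Ne, Finset.lcm_eq_zero_iff]
  rintro ⟨j, hj, h0⟩
  exact Icc_pos n k j hj h0

/-- number of multiples of `q` in `(n, n+k]` -/
def cnt (q n k : ℕ) : ℕ := #{j ∈ Icc (n+1) (n+k) | q ∣ j}

lemma cnt_eq (q n k : ℕ) : cnt q n k + n / q = (n + k) / q := by
  have h1 : #{j ∈ Ioc 0 (n+k) | q ∣ j} = (n+k)/q := Nat.Ioc_filter_dvd_card_eq_div _ _
  have h2 : #{j ∈ Ioc 0 n | q ∣ j} = n/q := Nat.Ioc_filter_dvd_card_eq_div _ _
  rw [← h1, ← h2, cnt, ← Finset.card_union_of_disjoint]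
  · congr 1
    ext j
    simp only [mem_union, mem_filter, mem_Icc, mem_Ioc]
    constructor
    · rintro (⟨h, hd⟩ | ⟨h, hd⟩)
      · exact ⟨by omega, hd⟩
      · exact ⟨by omega, hd⟩
    · rintro ⟨h, hd⟩
      by_cases h3 : j ≤ n
      · right; exact ⟨by omega, hd⟩
      · left; exact ⟨by omega, hd⟩
  · rw [Finset.disjoint_left]
    intro j hj hj'
    simp only [mem_filter, mem_Icc, mem_Ioc] at hj hj'
    omega

lemma log_eq_sum (B n : ℕ) (hn : n ≠ 0) (hB : ∀ q, Λ q ≠ 0 → q ∣ n → q ≤ B) :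
    Real.log n = ∑ q ∈ Icc 1 B, Λ q * (if q ∣ n then 1 else 0) := by
  rw [← ArithmeticFunction.vonMangoldt_sum]
  have h1 : ∑ q ∈ Icc 1 B, Λ q * (if q ∣ n then (1:ℝ) else 0) =
      ∑ q ∈ (Icc 1 B).filter (fun q => q ∣ n), Λ q := by
    rw [Finset.sum_filter]
    refine Finset.sum_congr rfl (fun q _ => ?_)
    split_ifs <;> simp
  rw [h1]
  symm
  apply Finset.sum_subset
  · intro q hq
    rw [mem_filter, mem_Icc] at hq
    rw [Nat.mem_divisors]
    exact ⟨hq.2, hn⟩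
  · intro q hq hq'
    by_contra hne
    apply hq'
    rw [Nat.mem_divisors] at hq
    rw [mem_filter, mem_Icc]
    have hq0 : 0 < q := Nat.pos_of_dvd_of_pos hq.1 (Nat.pos_of_ne_zero hn)
    exact ⟨⟨hq0, hB q hne hq.1⟩, hq.1⟩

lemma log_Lc (n k : ℕ) : Real.log (Lc n k) =
    ∑ q ∈ Icc 1 (n+k), Λ q * (if 1 ≤ cnt q n k then 1 else 0) := by
  have key : ∀ q, Λ q ≠ 0 → (q ∣ Lc n k ↔ 1 ≤ cnt q n k) := by
    intro q hq
    rw [ArithmeticFunction.vonMangoldt_ne_zero_iff, isPrimePow_nat_iff] at hq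
    obtain ⟨p, a, hp, ha, rfl⟩ := hq
    unfold Lc
    rw [pp_dvd_lcm p a hp ha _ (Icc_pos n k)]
    unfold cnt
    rw [Nat.one_le_iff_ne_zero, Ne, Finset.card_eq_zero, ← Ne, ← Finset.nonempty_iff_ne_empty]
    constructor
    · rintro ⟨j, hj, hd⟩; exact ⟨j, mem_filter.2 ⟨hj, hd⟩⟩
    · rintro ⟨j, hj⟩; rw [mem_filter] at hj; exact ⟨j, hj.1, hj.2⟩
  rw [log_eq_sum (n+k) (Lc n k) (Lc_ne_zero n k)]
  · refine Finset.sum_congr rfl (fun q _ => ?_)
    by_cases h : Λ q = 0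
    · rw [h]; ring
    · have := key q h
      by_cases h2 : q ∣ Lc n k
      · rw [if_pos h2, if_pos (this.1 h2)]
      · rw [if_neg h2, if_neg (fun h3 => h2 (this.2 h3))]
  · intro q hq hd
    rw [key q hq, cnt, Nat.one_le_iff_ne_zero, Ne, Finset.card_eq_zero, ← Ne,
      ← Finset.nonempty_iff_ne_empty] at hd
    obtain ⟨j, hj⟩ := hd
    rw [mem_filter, mem_Icc] at hj
    exact (Nat.le_of_dvd (by omega) hj.2).trans hj.1.2

lemma sum_log (n k : ℕ) : ∑ j ∈ Icc (n+1) (n+k), Real.log j =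
    ∑ q ∈ Icc 1 (n+k), Λ q * (cnt q n k : ℝ) := by
  have h1 : ∀ j ∈ Icc (n+1) (n+k), Real.log j =
      ∑ q ∈ Icc 1 (n+k), Λ q * (if q ∣ j then 1 else 0) := by
    intro j hj
    rw [mem_Icc] at hj
    apply log_eq_sum
    · omega
    · intro q _ hd
      exact (Nat.le_of_dvd (by omega) hd).trans hj.2
  rw [Finset.sum_congr rfl h1, Finset.sum_comm]
  refine Finset.sum_congr rfl (fun q _ => ?_)
  rw [← Finset.mul_sum, cnt, Finset.card_filter]
  push_cast
  rfl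

lemma log_Lc' (n k : ℕ) : Real.log (Lc n k) = ∑ j ∈ Icc (n+1) (n+k), Real.log j -
    ∑ q ∈ Icc 1 k, Λ q * ((cnt q n k : ℝ) - 1) := by
  rw [log_Lc, sum_log]
  have h1 : ∑ q ∈ Icc 1 k, Λ q * ((cnt q n k : ℝ) - 1) =
      ∑ q ∈ Icc 1 (n+k), Λ q * ((cnt q n k : ℝ) - (if 1 ≤ cnt q n k then 1 else 0)) := by
    apply Finset.sum_subset_zero_on_sdiff
    · intro q hq; rw [mem_Icc] at hq ⊢; omega
    · intro q hq
      rw [mem_sdiff, mem_Icc, mem_Icc] at hq
      have hkq : k < q := by omega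
      have h2 := cnt_eq q n k
      have h3 : (n+k)/q ≤ n/q + 1 := by
        calc (n+k)/q ≤ (n+q)/q := Nat.div_le_div_right (by omega)
          _ = n/q + 1 := Nat.add_div_right n (by omega)
      have h4 : cnt q n k ≤ 1 := by omega
      by_cases h5 : 1 ≤ cnt q n k
      · have : cnt q n k = 1 := by omega
        rw [if_pos h5, this]; simp
      · have : cnt q n k = 0 := by omega
        rw [if_neg h5, this]; simp
    · intro q hq
      rw [mem_Icc] at hq
      have h2 := cnt_eq q n k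
      have h3 : n/q + 1 ≤ (n+k)/q := by
        calc n/q + 1 = (n+q)/q := (Nat.add_div_right n (by omega)).symm
          _ ≤ (n+k)/q := Nat.div_le_div_right (by omega)
      rw [if_pos (by omega)]
  rw [h1, ← Finset.sum_sub_distrib]
  refine Finset.sum_congr rfl (fun q _ => by ring)

lemma cnt_diff (q n k : ℕ) (hk : k ≤ n) :
    (cnt q n k : ℝ) - cnt q (n-k) k = (E k q n : ℝ) := by
  have h1 := cnt_eq q n k
  have h2 := cnt_eq q (n-k) k
  rw [Nat.sub_add_cancel hk] at h2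
  have h3 : (cnt q n k : ℤ) - cnt q (n-k) k = E k q n := by
    unfold E
    have e1 : ((n:ℤ) + k) / (q:ℤ) = (((n+k)/q : ℕ) : ℤ) := by push_cast; rfl
    have e2 : (n:ℤ) / (q:ℤ) = ((n/q : ℕ) : ℤ) := by push_cast; rfl
    have e3 : ((n:ℤ) - k) / (q:ℤ) = (((n-k)/q : ℕ) : ℤ) := by
      push_cast [Nat.cast_sub hk]; rfl
    rw [e1, e2, e3]
    omega
  exact_mod_cast h3

lemma diff_log (n k : ℕ) (hk : k < n) :
    Real.log (Lc n k) - Real.log (Lc (n-k) k) ≤
      (k:ℝ)^2/((n:ℝ)-k) - ∑ q ∈ Icc 1 k, Λ q * (E k q n : ℝ) := by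
  rw [log_Lc', log_Lc']
  have hs : ∑ q ∈ Icc 1 k, Λ q * (E k q n : ℝ) = ∑ q ∈ Icc 1 k, Λ q * ((cnt q n k : ℝ) - 1) -
      ∑ q ∈ Icc 1 k, Λ q * ((cnt q (n-k) k : ℝ) - 1) := by
    rw [← Finset.sum_sub_distrib]
    refine Finset.sum_congr rfl (fun q _ => ?_)
    rw [← cnt_diff q n k hk.le]; ring
  have hd : (0:ℝ) < (n:ℝ) - k := by
    have : (k:ℝ) < n := by exact_mod_cast hk
    linarith
  have hlog : ∑ j ∈ Icc (n+1) (n+k), Real.log j - ∑ j ∈ Icc (n-k+1) (n-k+k), Real.log j ≤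
      (k:ℝ)^2/((n:ℝ)-k) := by
    have e1 : ∑ j ∈ Icc (n-k+1) (n-k+k), Real.log j =
        ∑ j ∈ Icc (n+1) (n+k), Real.log ((j:ℝ) - k) := by
      symm
      apply Finset.sum_nbij (fun j => j - k)
      · intro j hj; rw [mem_Icc] at hj ⊢; omega
      · intro a ha b hb hab
        rw [Finset.mem_coe, mem_Icc] at ha hb
        simp only at hab
        omega
      · intro j hj
        rw [Finset.mem_coe, mem_Icc] at hj
        refine ⟨j + k, ?_, ?_⟩
        · rw [Finset.mem_coe, mem_Icc]; omega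
        · simp
      · intro j hj
        rw [mem_Icc] at hj
        rw [Nat.cast_sub (by omega)]
    rw [e1, ← Finset.sum_sub_distrib]
    have : ∀ j ∈ Icc (n+1) (n+k), Real.log j - Real.log ((j:ℝ) - k) ≤ k/((n:ℝ)-k) := by
      intro j hj
      rw [mem_Icc] at hj
      have hj1 : (n:ℝ) + 1 ≤ j := by exact_mod_cast hj.1
      have hk1 : (0:ℝ) ≤ k := by positivity
      have hjk : 0 < (j:ℝ) - k := by linarith
      have hj0 : (0:ℝ) < j := by linarith
      rw [← Real.log_div hj0.ne' hjk.ne']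
      refine (Real.log_le_sub_one_of_pos (by positivity)).trans ?_
      rw [div_sub_one hjk.ne', sub_sub_cancel]
      apply div_le_div_of_nonneg_left hk1 hd
      linarith
    refine (Finset.sum_le_sum this).trans ?_
    rw [Finset.sum_const, Nat.card_Icc, nsmul_eq_mul]
    have : ((n + k + 1 - (n+1) : ℕ) : ℝ) = k := by
      congr 1; omega
    rw [this]
    apply le_of_eq; ring
  rw [hs]
  linarith

/-- criterion -/
lemma Lc_lt (n k : ℕ) (hk : k < n)
    (h : (k:ℝ)^2/((n:ℝ)-k) < ∑ q ∈ Icc 1 k, Λ q * (E k q n : ℝ)) : Lc n k < Lc (n-k) k := by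
  have h1 := diff_log n k hk
  have h2 : Real.log (Lc n k) < Real.log (Lc (n-k) k) := by linarith
  have h3 : (0:ℝ) < Lc n k := by
    have := Nat.pos_of_ne_zero (Lc_ne_zero n k); exact_mod_cast this
  have h4 : (0:ℝ) < Lc (n-k) k := by
    have := Nat.pos_of_ne_zero (Lc_ne_zero (n-k) k); exact_mod_cast this
  rw [Real.log_lt_log_iff h3 h4] at h2
  exact_mod_cast h2

end Pool.Agent.H9.LcmBlocks
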