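import Mathlib
import Pool.Agent.H9.LcmDefs
import Pool.Agent.H9.LcmLog
import Pool.Agent.H9.LcmIneq

set_option autoImplicit false

open Finset
open scoped ArithmeticFunction.vonMangoldt

namespace Pool.Agent.H9.LcmBlocks

lemma card_primes (P : ℕ) : (#((range (P+1)).filter Nat.Prime) : ℝ) = Nat.primeCounting P := by
  rw [Nat.primeCounting, Nat.primeCounting', Nat.count_eq_card_filter_range]

lemma log_t (t : ℕ) (ht : 1 ≤ t) : Real.log t ≤ t := by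
  have : (1:ℝ) ≤ t := by exact_mod_cast ht
  have := Real.log_le_sub_one_of_pos (show (0:ℝ) < t by linarith)
  linarith

lemma pi_big (t : ℕ) (ht : 100 ≤ t) :
    3200 * (t:ℝ)^8 ≤ #((range (t^12+1)).filter Nat.Prime) := by
  rw [card_primes]
  refine le_trans ?_ (Chebyshev.pi_ge (t^12))
  have ht' : (100:ℝ) ≤ t := by exact_mod_cast ht
  have hlt : 0 < Real.log t := Real.log_pos (by linarith)
  push_cast
  rw [Real.log_pow, le_div_iff₀ (by positivity)]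
  have h1 : Real.log ((t:ℝ)^12 + 1) ≤ (t:ℝ)^12 * (1/10) := by
    have a1 : Real.log ((t:ℝ)^12 + 1) ≤ Real.log ((t:ℝ)^13) := by
      apply Real.log_le_log (by positivity)
      have : (1:ℝ) ≤ (t:ℝ)^12 := one_le_pow₀ (by linarith)
      calc (t:ℝ)^12 + 1 ≤ (t:ℝ)^12 + (t:ℝ)^12 := by linarith
        _ ≤ (t:ℝ)^12 * t := by nlinarith
        _ = (t:ℝ)^13 := by ring
    rw [Real.log_pow] at a1
    have a2 := log_t t (by omega)
    push_cast at a1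
    have a3 : (t:ℝ) * 1 ≤ (t:ℝ) * (t:ℝ)^11 := by
      apply mul_le_mul_of_nonneg_left _ (by linarith)
      exact one_le_pow₀ (by linarith)
    have a4 : (130:ℝ) * t ≤ (t:ℝ)^12 := by
      have : (100:ℝ)^11 ≤ (t:ℝ)^11 := by gcongr
      calc (130:ℝ) * t ≤ (t:ℝ)^11 * t := by
            apply mul_le_mul_of_nonneg_right _ (by linarith)
            refine le_trans ?_ this
            norm_num
        _ = (t:ℝ)^12 := by ring
    linarith
  have h2 : (0.69:ℝ) ≤ Real.log 2 := by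
    have := Real.log_two_gt_d9; linarith
  -- 3200 t^8 * 12 log t ≤ 0.5 t^12
  have h3 : Real.log t ≤ 5 * Real.sqrt t := by
    have := Real.log_le_rpow_div (x := (t:ℝ)) (by linarith) (show (0:ℝ) < 1/2 by norm_num)
    rw [← Real.sqrt_eq_rpow] at this
    have h0 := Real.sqrt_nonneg (t:ℝ)
    linarith
  have h4 : 3200 * (t:ℝ)^8 * (12 * Real.log t) ≤ (t:ℝ)^12 * (1/2) := by
    have b1 : Real.log t ≤ t / 20 := by
      -- log t ≤ log 100 + (t-100)/100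
      have c1 : Real.log t = Real.log 100 + Real.log (t/100) := by
        rw [← Real.log_mul (by norm_num) (by positivity)]; congr 1; ring
      have c2 : Real.log (t/100) ≤ t/100 - 1 := Real.log_le_sub_one_of_pos (by positivity)
      have c3 : Real.log 100 ≤ 5 := by
        have d1 : Real.log 100 ≤ Real.log (2^7) := Real.log_le_log (by norm_num) (by norm_num)
        rw [Real.log_pow] at d1
        have := Real.log_two_lt_d9
        push_cast at d1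
        linarith
      linarith
    have b2 : 3200 * (t:ℝ)^8 * (12 * Real.log t) ≤ 3200 * (t:ℝ)^8 * (12 * (t/20)) := by
      gcongr
    have b3 : 3200 * (t:ℝ)^8 * (12 * (t/20)) = 1920 * (t:ℝ)^9 := by ring
    have b4 : (100:ℝ)^3 ≤ (t:ℝ)^3 := by gcongr
    have b5 : (t:ℝ)^12 = (t:ℝ)^9 * (t:ℝ)^3 := by ring
    have b6 : (0:ℝ) ≤ (t:ℝ)^9 := by positivity
    rw [b3] at b2
    rw [b5]
    nlinarith
  have h5 : (t:ℝ)^12 * 0.69 ≤ (t:ℝ)^12 * Real.log 2 := by gcongr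
  have h6 : (0:ℝ) ≤ (t:ℝ)^12 := by positivity
  push_cast
  linarith

lemma final_arith (t V : ℝ) (ht : 100 ≤ t) (hV : 200 * t^8 ≤ V)
    (hfin : 22.08 * t^316 * V ≤ 8 * t^4 * (t^312 * (256 * t^8 + V) + 2 * t^72) + 3888 * t^313) :
    False := by
  have ht1 : (1:ℝ) ≤ t := by linarith
  have hpow : ∀ a b : ℕ, a ≤ b → t^a ≤ t^b := fun a b h => pow_le_pow_right₀ ht1 h
  have hfin2 : 8 * t^4 * (t^312 * (256 * t^8 + V) + 2 * t^72) =
      2048 * t^324 + 8 * (t^316 * V) + 16 * t^76 := by ring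
  rw [hfin2] at hfin
  have hVV : t^316 * (200 * t^8) ≤ t^316 * V := by gcongr
  have hVV2 : t^316 * (200 * t^8) = 200 * t^324 := by ring
  have hs1 : 16 * t^76 ≤ t^324 := by
    have b1 : t^77 ≤ t^324 := hpow _ _ (by norm_num)
    have b2 : t^77 = t * t^76 := by ring
    have b3 : (0:ℝ) ≤ t^76 := by positivity
    have b4 : 100 * t^76 ≤ t * t^76 := by gcongr
    linarith
  have hs2 : 3888 * t^313 ≤ t^324 := by
    have b1 : t^315 ≤ t^324 := hpow _ _ (by norm_num)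
    have b2 : t^315 = (t^2) * t^313 := by ring
    have b3 : (0:ℝ) ≤ t^313 := by positivity
    have b4 : (3888:ℝ) ≤ t^2 := by nlinarith
    have b5 : 3888 * t^313 ≤ t^2 * t^313 := by gcongr
    linarith
  have hpos : (0:ℝ) < t^324 := by positivity
  have e1 : 22.08 * t^316 * V = 22.08 * (t^316 * V) := by ring
  rw [e1] at hfin
  linarith

/-- the key existence statement -/
lemma exists_large (t : ℕ) (ht : 100 ≤ t) : ∃ n k : ℕ, t^156 ≤ n ∧ n < 3 * t^156 ∧ t^80 ≤ k ∧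
    k < 2 * t^80 ∧ 8 * (t:ℝ)^4 < ∑ q ∈ Icc 1 k, Λ q * (E k q n : ℝ) := by
  have ht' : (100:ℝ) ≤ t := by exact_mod_cast ht
  have ht0 : (0:ℝ) < t := by linarith
  have ht1 : (1:ℝ) ≤ t := by linarith
  set S := (range (t^12+1)).filter Nat.Prime with hSdef
  have hS : ∀ p ∈ S, p.Prime ∧ p ≤ t^12 := by
    intro p hp
    rw [hSdef, mem_filter, mem_range] at hp
    exact ⟨hp.2, by omega⟩
  have hcard : (3200:ℝ) * t^8 ≤ #S := pi_big t ht
  have hcard2 : (#S:ℝ) ≤ t^12 := by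
    have h1 : #S ≤ t^12 := by
      have : S ⊆ Icc 1 (t^12) := by
        intro p hp
        obtain ⟨h1, h2⟩ := hS p hp
        rw [mem_Icc]; exact ⟨h1.pos, h2⟩
      have := Finset.card_le_card this
      rwa [Nat.card_Icc, Nat.add_sub_cancel] at this
    exact_mod_cast h1
  have hP2 : 2 ≤ t^12 := by
    calc 2 ≤ t := by omega
      _ ≤ t^12 := Nat.le_self_pow (by norm_num) t
  have hPK : 2 * t^12 ≤ t^80 := by
    calc 2 * t^12 ≤ t * t^12 := Nat.mul_le_mul_right _ (by omega)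
      _ = t^13 := by ring
      _ ≤ t^80 := Nat.pow_le_pow_right (by omega) (by norm_num)
  obtain ⟨k, hk1, hk2, hV⟩ := exists_k S (t^12) (t^80) (fun p hp => ⟨(hS p hp).1.two_le, (hS p hp).2⟩)
    hPK (by positivity)
  by_contra hcon
  push Not at hcon
  have hX : ∀ n : ℤ, ((t^156 : ℕ):ℤ) ≤ n → n < ((t^156 : ℕ):ℤ) + 2 * ((t^156 : ℕ):ℤ) →
      X k n ≤ 8 * (t:ℝ)^4 := by
    intro n h1 h2
    obtain ⟨m, rfl⟩ := Int.eq_ofNat_of_zero_le (show 0 ≤ n by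
      have : (0:ℤ) ≤ ((t^156 : ℕ):ℤ) := by positivity
      linarith)
    have h1' : t^156 ≤ m := by exact_mod_cast h1
    have h2' : m < 3 * t^156 := by
      have : (m:ℤ) < ((3 * t^156 : ℕ) : ℤ) := by push_cast; push_cast at h2; linarith
      exact_mod_cast this
    exact hcon m k h1' h2' hk1 hk2
  have key := main_ineq k (t^12) S hS hP2 (by omega) (16 * (t:ℝ)^4) (8 * (t:ℝ)^4) (by positivity)
    (by positivity) _ (t^156) hX
  set V := ∑ p ∈ S, v k p with hVdef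
  have hV200 : 200 * (t:ℝ)^8 ≤ V := by linarith
  -- weights
  have hΛ : (0.69:ℝ) * V ≤ ∑ p ∈ S, Λ p * v k p := by
    rw [hVdef, Finset.mul_sum]
    refine Finset.sum_le_sum (fun p hp => ?_)
    apply mul_le_mul_of_nonneg_right _ (v_nonneg k p)
    rw [ArithmeticFunction.vonMangoldt_apply_prime (hS p hp).1]
    have h1 : Real.log 2 ≤ Real.log p := by
      apply Real.log_le_log (by norm_num)
      exact_mod_cast (hS p hp).1.two_le
    have := Real.log_two_gt_d9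
    linarith
  have hk2' : (k:ℝ) ≤ 2 * (t:ℝ)^80 := by exact_mod_cast hk2.le
  have hk0 : (0:ℝ) < k := by
    have : 0 < t^80 := by positivity
    have : 0 < k := by omega
    exact_mod_cast this
  have hsumΛ : ∑ q ∈ Icc 1 k, Λ q ≤ 2 * (t:ℝ)^80 * (81 * t) := by
    calc ∑ q ∈ Icc 1 k, Λ q ≤ ∑ _q ∈ Icc 1 k, (81 * (t:ℝ)) := by
          refine Finset.sum_le_sum (fun q hq => ?_)
          rw [mem_Icc] at hq
          have hq0 : (0:ℝ) < q := by exact_mod_cast hq.1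
          have hqk : (q:ℝ) ≤ k := by exact_mod_cast hq.2
          calc Λ q ≤ Real.log q := ArithmeticFunction.vonMangoldt_le_log
            _ ≤ Real.log (2 * (t:ℝ)^80) := Real.log_le_log hq0 (hqk.trans hk2')
            _ = Real.log 2 + 80 * Real.log t := by
              rw [Real.log_mul (by norm_num) (by positivity), Real.log_pow]; push_cast; ring
            _ ≤ 81 * (t:ℝ) := by
              have h1 := log_t t (by omega)
              have h2 := Real.log_two_lt_d9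
              linarith
      _ = k * (81 * (t:ℝ)) := by
          rw [Finset.sum_const, Nat.card_Icc, nsmul_eq_mul, Nat.add_sub_cancel]
      _ ≤ 2 * (t:ℝ)^80 * (81 * t) := by gcongr
  -- error terms
  have hS0 : (0:ℝ) ≤ #S := by positivity
  have e0 : (1:ℝ) ≤ (t:ℝ)^32 := one_le_pow₀ ht1
  have hpow : ∀ a b : ℕ, a ≤ b → (t:ℝ)^a ≤ (t:ℝ)^b := fun a b h => pow_le_pow_right₀ ht1 h
  have err1 : 2 * (16 * (t:ℝ)^4) * #S * (((t^12 : ℕ):ℝ))^2 + (#S:ℝ)^2 * (((t^12 : ℕ):ℝ))^4 ≤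
      2 * (t:ℝ)^72 := by
    push_cast
    have a1 : 2 * (16 * (t:ℝ)^4) * #S * ((t:ℝ)^12)^2 ≤ 2 * (16 * (t:ℝ)^4) * (t:ℝ)^12 * ((t:ℝ)^12)^2 := by
      gcongr
    have a2 : (#S:ℝ)^2 * ((t:ℝ)^12)^4 ≤ ((t:ℝ)^12)^2 * ((t:ℝ)^12)^4 := by gcongr
    have a3 : 2 * (16 * (t:ℝ)^4) * (t:ℝ)^12 * ((t:ℝ)^12)^2 = 32 * (t:ℝ)^40 := by ring
    have a4 : ((t:ℝ)^12)^2 * ((t:ℝ)^12)^4 = (t:ℝ)^72 := by ring
    have a5 : (32:ℝ) * (t:ℝ)^40 ≤ (t:ℝ)^72 := by
      have b1 : (t:ℝ)^41 ≤ (t:ℝ)^72 := hpow _ _ (by norm_num)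
      have b2 : (t:ℝ)^41 = t * (t:ℝ)^40 := by ring
      have b3 : (0:ℝ) ≤ (t:ℝ)^40 := by positivity
      nlinarith
    linarith
  have err2 : (16 * (t:ℝ)^4)^2 + 2 * (16 * (t:ℝ)^4) * #S * (((t^12 : ℕ):ℝ))^2 +
      (#S:ℝ)^2 * (((t^12 : ℕ):ℝ))^4 ≤ 6 * (t:ℝ)^72 := by
    have a1 : (16 * (t:ℝ)^4)^2 = 256 * (t:ℝ)^8 := by ring
    have a2 : (256:ℝ) * (t:ℝ)^8 ≤ 4 * (t:ℝ)^72 := by
      have b1 : (t:ℝ)^9 ≤ (t:ℝ)^72 := hpow _ _ (by norm_num)
      have b2 : (t:ℝ)^9 = t * (t:ℝ)^8 := by ring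
      have b3 : (0:ℝ) ≤ (t:ℝ)^8 := by positivity
      nlinarith
    linarith
  have err3 : (∑ q ∈ Icc 1 k, Λ q) * (k:ℝ)^2 * ((16 * (t:ℝ)^4)^2 +
      2 * (16 * (t:ℝ)^4) * #S * (((t^12 : ℕ):ℝ))^2 + (#S:ℝ)^2 * (((t^12 : ℕ):ℝ))^4) ≤
      3888 * (t:ℝ)^313 := by
    have hs0 : 0 ≤ ∑ q ∈ Icc 1 k, Λ q := Finset.sum_nonneg (fun _ _ => ArithmeticFunction.vonMangoldt_nonneg)
    calc _ ≤ (2 * (t:ℝ)^80 * (81 * t)) * (2 * (t:ℝ)^80)^2 * (6 * (t:ℝ)^72) := by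
          gcongr
      _ = 3888 * (t:ℝ)^313 := by ring
  set R1 := 2 * (16 * (t:ℝ)^4) * #S * (((t^12 : ℕ):ℝ))^2 + (#S:ℝ)^2 * (((t^12 : ℕ):ℝ))^4 with hR1
  have hR : (8 * (t:ℝ)^4) * (((t^156:ℕ):ℝ)^2 * ((16 * (t:ℝ)^4)^2 + V) +
      2 * (16 * (t:ℝ)^4) * #S * (((t^12 : ℕ):ℝ))^2 + (#S:ℝ)^2 * (((t^12 : ℕ):ℝ))^4) ≤
      8 * (t:ℝ)^4 * ((t:ℝ)^312 * (256 * (t:ℝ)^8 + V) + 2 * (t:ℝ)^72) := by
    apply mul_le_mul_of_nonneg_left _ (by positivity)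
    have : ((t^156:ℕ):ℝ)^2 * ((16 * (t:ℝ)^4)^2 + V) = (t:ℝ)^312 * (256 * (t:ℝ)^8 + V) := by
      push_cast; ring
    rw [this]; linarith
  have hL : 2 * (16 * (t:ℝ)^4) * ((t^156:ℕ):ℝ)^2 * ((0.69:ℝ) * V) ≤
      2 * (16 * (t:ℝ)^4) * ((t^156:ℕ):ℝ)^2 * ∑ p ∈ S, Λ p * v k p := by
    gcongr
  have hL2 : 2 * (16 * (t:ℝ)^4) * ((t^156:ℕ):ℝ)^2 * ((0.69:ℝ) * V) = 22.08 * (t:ℝ)^316 * V := by
    push_cast; ring
  have hfin : 22.08 * (t:ℝ)^316 * V ≤ 8 * (t:ℝ)^4 * ((t:ℝ)^312 * (256 * (t:ℝ)^8 + V) + 2 * (t:ℝ)^72) +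
      3888 * (t:ℝ)^313 := by linarith
  exact final_arith t V ht' hV200 hfin

theorem kk_large (t : ℕ) (ht : 100 ≤ t) : ∃ n : ℕ, t^156 ≤ n ∧ n < 3 * t^156 ∧ t^80 ≤ kk n := by
  obtain ⟨n, k, h1, h2, h3, h4, h5⟩ := exists_large t ht
  refine ⟨n, h1, h2, h3.trans ?_⟩
  have ht' : (100:ℝ) ≤ t := by exact_mod_cast ht
  have hkn : k < n := by
    calc k < 2 * t^80 := h4
      _ ≤ t * t^80 := Nat.mul_le_mul_right _ (by omega)
      _ = t^81 := by ring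
      _ ≤ t^156 := Nat.pow_le_pow_right (by omega) (by norm_num)
      _ ≤ n := h1
  have hcrit : (k:ℝ)^2/((n:ℝ)-k) ≤ 8 * (t:ℝ)^4 := by
    have hkn' : (k:ℝ) < n := by exact_mod_cast hkn
    have h1' : (t:ℝ)^156 ≤ n := by exact_mod_cast h1
    have h4' : (k:ℝ) ≤ 2 * (t:ℝ)^80 := by exact_mod_cast h4.le
    rw [div_le_iff₀ (by linarith)]
    have a1 : (k:ℝ)^2 ≤ 4 * (t:ℝ)^160 := by
      calc (k:ℝ)^2 ≤ (2 * (t:ℝ)^80)^2 := by gcongr
        _ = 4 * (t:ℝ)^160 := by ring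
    have a2 : (t:ℝ)^156 / 2 ≤ (n:ℝ) - k := by
      have b1 : (t:ℝ)^81 ≤ (t:ℝ)^156 := pow_le_pow_right₀ (by linarith) (by norm_num)
      have b2 : (t:ℝ)^81 = t * (t:ℝ)^80 := by ring
      have b3 : (0:ℝ) ≤ (t:ℝ)^80 := by positivity
      nlinarith
    calc (k:ℝ)^2 ≤ 4 * (t:ℝ)^160 := a1
      _ = 8 * (t:ℝ)^4 * ((t:ℝ)^156 / 2) := by ring
      _ ≤ 8 * (t:ℝ)^4 * ((n:ℝ) - k) := by gcongr
  have hlt := Lc_lt n k hkn (lt_of_le_of_lt hcrit h5)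
  unfold kk
  apply le_csSup
  · exact ⟨n, fun k hk => hk.2.1.le⟩
  · refine ⟨?_, hkn, hlt⟩
    have : 0 < t^80 := by positivity
    omega

theorem kk_pow (n0 : ℕ) : ∃ n : ℕ, n0 < n ∧ (n:ℝ)^((51:ℝ)/100) ≤ kk n := by
  set t := 100 + n0 with ht
  obtain ⟨n, h1, h2, h3⟩ := kk_large t (by omega)
  have hle : t ≤ t^156 := Nat.le_self_pow (by norm_num) t
  refine ⟨n, by omega, ?_⟩
  have hn51 : n^51 ≤ (t^80)^100 := by
    calc n^51 ≤ (3 * t^156)^51 := Nat.pow_le_pow_left h2.le 51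
      _ = 3^51 * t^(156*51) := by rw [Nat.mul_pow, ← Nat.pow_mul]
      _ ≤ t^44 * t^(156*51) := by
        apply Nat.mul_le_mul_right
        calc 3^51 ≤ 100^44 := by norm_num
          _ ≤ t^44 := Nat.pow_le_pow_left (by omega) 44
      _ = (t^80)^100 := by rw [← Nat.pow_add, ← Nat.pow_mul]
  have h4 : ((n:ℝ)^((51:ℝ)/100)) ≤ (t^80 : ℕ) := by
    have a1 : (n:ℝ)^((51:ℝ)/100) = ((n:ℝ)^51)^((1:ℝ)/100) := by
      rw [← Real.rpow_natCast (n:ℝ) 51, ← Real.rpow_mul (by positivity)]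
      norm_num
    have a2 : (((t^80 : ℕ):ℝ)^100)^((1:ℝ)/100) = ((t^80 : ℕ):ℝ) := by
      rw [← Real.rpow_natCast _ 100, ← Real.rpow_mul (by positivity)]
      norm_num
    rw [a1, ← a2]
    apply Real.rpow_le_rpow (by positivity) _ (by norm_num)
    exact_mod_cast hn51
  refine h4.trans ?_
  exact_mod_cast h3

theorem main : (¬ ∀ ε : ℝ, 0 < ε → ∃ n₀ : ℕ, ∀ n : ℕ, n₀ < n → (kk n : ℝ) < (n:ℝ)^(1/2 + ε)) ∧
    ∀ n₀ : ℕ, ∃ n : ℕ, n₀ < n ∧ (n:ℝ)^((51:ℝ)/100) ≤ kk n := by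
  refine ⟨fun h => ?_, kk_pow⟩
  obtain ⟨n₀, hn⟩ := h (1/100) (by norm_num)
  obtain ⟨n, h1, h2⟩ := kk_pow n₀
  have h3 := hn n h1
  have : (1/2 + 1/100 : ℝ) = 51/100 := by norm_num
  rw [this] at h3
  linarith

end Pool.Agent.H9.LcmBlocks
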