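import Mathlib
import Pool.Agent.H9.LcmDefs
import Pool.Agent.H9.LcmFinal

set_option autoImplicit false

namespace Pool.Agent.H9.LcmBlocks

theorem odd_reversed (n : ℕ) (hn : 13 ≤ n) (ho : Odd n) : Lc n 3 < Lc (n - 3) 3 := by
  obtain ⟨m, rfl⟩ := ho
  have hm : 6 ≤ m := by omega
  obtain ⟨j, rfl⟩ : ∃ j, m = j + 6 := ⟨m - 6, by omega⟩
  -- upper bound
  have h1 : Lc (2 * (j + 6) + 1) 3 ≤ (2 * j + 14) * (2 * j + 15) * (j + 8) := by
    apply Nat.le_of_dvd (by positivity)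
    unfold Lc
    apply Finset.lcm_dvd
    intro b hb
    rw [Finset.mem_Icc] at hb
    have hb' : b = 2 * j + 14 ∨ b = 2 * j + 15 ∨ b = 2 * j + 16 := by omega
    rcases hb' with h | h | h
    · rw [id, h, mul_assoc]; exact Dvd.intro _ rfl
    · rw [id, h]; exact ⟨(2 * j + 14) * (j + 8), by ring⟩
    · rw [id, h]; exact ⟨(j + 7) * (2 * j + 15), by ring⟩
  -- lower bound
  have h2 : (2 * j + 11) * (2 * j + 12) * (2 * j + 13) ≤ Lc (2 * (j + 6) + 1 - 3) 3 := by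
    have hpos : 0 < Lc (2 * (j + 6) + 1 - 3) 3 := by
      apply Nat.pos_of_ne_zero
      unfold Lc
      rw [Ne, Finset.lcm_eq_zero_iff]
      simp
    have hd : ∀ b, 2 * j + 11 ≤ b → b ≤ 2 * j + 13 → b ∣ Lc (2 * (j + 6) + 1 - 3) 3 := by
      intro b hb1 hb2
      unfold Lc
      have : b ∈ Finset.Icc (2 * (j + 6) + 1 - 3 + 1) (2 * (j + 6) + 1 - 3 + 3) := by
        rw [Finset.mem_Icc]; omega
      exact Finset.dvd_lcm this
    apply Nat.le_of_dvd hpos
    have c1 : Nat.Coprime (2 * j + 11) (2 * j + 12) := by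
      have : 2 * j + 12 = (2 * j + 11) + 1 := by ring
      rw [this]; simp
    have c2 : Nat.Coprime (2 * j + 12) (2 * j + 13) := by
      have : 2 * j + 13 = (2 * j + 12) + 1 := by ring
      rw [this]; simp
    have c3 : Nat.Coprime (2 * j + 11) (2 * j + 13) := by
      have : 2 * j + 13 = (2 * j + 11) + 2 := by ring
      rw [this, Nat.coprime_self_add_right]
      rw [Nat.coprime_two_right]
      exact ⟨j + 5, by ring⟩
    refine Nat.Coprime.mul_dvd_of_dvd_of_dvd (Nat.Coprime.mul_left c3 c2) ?_ (hd _ (by omega) le_rfl)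
    exact Nat.Coprime.mul_dvd_of_dvd_of_dvd c1 (hd _ le_rfl (by omega)) (hd _ (by omega) (by omega))
  refine lt_of_le_of_lt h1 (lt_of_lt_of_le ?_ h2)
  ring_nf
  nlinarith [sq_nonneg j]

theorem large_reversed (n₀ : ℕ) : ∃ n k : ℕ, n₀ < n ∧ 1 ≤ k ∧ k < n ∧
    (n:ℝ)^((51:ℝ)/100) ≤ k ∧ Lc n k < Lc (n - k) k := by
  obtain ⟨n, h1, h2⟩ := kk_pow n₀
  set A : Set ℕ := {k : ℕ | 1 ≤ k ∧ k < n ∧ Lc n k < Lc (n - k) k} with hA
  have hkkpos : 0 < kk n := by
    have h3 : (0:ℝ) < (n:ℝ)^((51:ℝ)/100) := by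
      apply Real.rpow_pos_of_pos
      have : 0 < n := by omega
      exact_mod_cast this
    have h4 : (0:ℝ) < kk n := lt_of_lt_of_le h3 h2
    exact_mod_cast h4
  have hkk : kk n = sSup A := rfl
  have hAne : A.Nonempty := by
    by_contra h
    rw [Set.not_nonempty_iff_eq_empty] at h
    rw [hkk, h] at hkkpos
    simp at hkkpos
  have hAb : BddAbove A := ⟨n, fun k hk => hk.2.1.le⟩
  have hmem : kk n ∈ A := Nat.sSup_mem hAne hAb
  exact ⟨n, kk n, h1, hmem.1, hmem.2.1, h2, hmem.2.2⟩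

end Pool.Agent.H9.LcmBlocks
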