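import Mathlib

/-! Definitions for MP_61cfb3_pr: search on the line with geometric detection probability. -/

namespace LineSearch

/-- The times at which a trajectory `S : [0,∞) → ℝ` is at the point `H`. -/
def timesAt (S : ℝ → ℝ) (H : ℝ) : Set ℝ := {s | 0 ≤ s ∧ S s = H}

/-- The visit times of `H`: the left endpoints (least elements) of the connected components of
`S⁻¹(H) ⊆ [0,∞)`. -/
def visitTimes (S : ℝ → ℝ) (H : ℝ) : Set ℝ :=
  {t | t ∈ timesAt S H ∧ ∀ s ∈ connectedComponentIn (timesAt S H) t, t ≤ s}

/-- The visit times of `H` in increasing order; `nthVisit S H n` is the time of the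
`(n+1)`-st visit. -/
noncomputable def nthVisit (S : ℝ → ℝ) (H : ℝ) : ℕ → ℝ
  | 0 => sInf (visitTimes S H)
  | n + 1 => sInf (visitTimes S H ∩ Set.Ioi (nthVisit S H n))

/-- An admitted trajectory: starts at `0`, has speed at most one, and for every possible position
`H ≠ 0` of the hider each bounded time interval meets finitely many components of `S⁻¹(H)`. -/
structure IsTrajectory (S : ℝ → ℝ) : Prop where
  zero : S 0 = 0
  speed : ∀ t t', 0 ≤ t → 0 ≤ t' → |S t - S t'| ≤ |t - t'|
  finite : ∀ H, H ≠ 0 → ∀ T : ℝ,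
    {C : Set ℝ | ∃ t ∈ timesAt S H, t ≤ T ∧ C = connectedComponentIn (timesAt S H) t}.Finite

open Classical in
/-- The expected capture time when the hider is at `H` and each visit detects it with
probability `p`: `∑ p (1-p)^(i-1) t_i(H)`, and `+∞` if `H` is visited only finitely often. -/
noncomputable def expTime (p : ℝ) (S : ℝ → ℝ) (H : ℝ) : ENNReal :=
  if (visitTimes S H).Infinite then
    ∑' n : ℕ, ENNReal.ofReal (p * (1 - p) ^ n * nthVisit S H n)
  else ⊤

/-- The guaranteed cost `v(S) = sup_{H ≠ 0} E[T(S,H)] / |H|`. -/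
noncomputable def guaranteedCost (p : ℝ) (S : ℝ → ℝ) : ENNReal :=
  ⨆ (H : ℝ) (_ : H ≠ 0), expTime p S H / ENNReal.ofReal |H|

end LineSearch
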