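import Mathlib
import Pool.Agent.H9.LineSearchDefs

namespace LineSearch

/-- the shape of one excursion -/
noncomputable def shp (y e s : ℝ) : ℝ := min s (min (max (2*y - s) (s - 2*e)) (2 + 2*e - s))

theorem shp_lip (y e s t : ℝ) : |shp y e s - shp y e t| ≤ |s - t| := by
  unfold shp
  have h1 : |(2*y - s) - (2*y - t)| ≤ |s - t| := by
    rw [abs_sub_comm s t]; apply le_of_eq; congr 1; ring
  have h2 : |(s - 2*e) - (t - 2*e)| ≤ |s - t| := by
    apply le_of_eq; congr 1; ring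
  have h3 : |(2 + 2*e - s) - (2 + 2*e - t)| ≤ |s - t| := by
    rw [abs_sub_comm s t]; apply le_of_eq; congr 1; ring
  have h4 := (abs_max_sub_max_le_max (2*y - s) (s - 2*e) (2*y - t) (t - 2*e)).trans (max_le h1 h2)
  have h5 := (abs_min_sub_min_le_max (max (2*y - s) (s - 2*e)) (2 + 2*e - s)
    (max (2*y - t) (t - 2*e)) (2 + 2*e - t)).trans (max_le h4 h3)
  exact (abs_min_sub_min_le_max s _ t _).trans (max_le le_rfl h5)

theorem shp_cases (y e s : ℝ) : shp y e s = s ∨ shp y e s = 2*y - s ∨ shp y e s = s - 2*e ∨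
    shp y e s = 2 + 2*e - s := by
  unfold shp
  rcases min_choice s (min (max (2*y - s) (s - 2*e)) (2 + 2*e - s)) with h | h
  · left; exact h
  · rw [h]
    rcases min_choice (max (2*y - s) (s - 2*e)) (2 + 2*e - s) with h | h
    · rw [h]
      rcases max_choice (2*y - s) (s - 2*e) with h | h
      · rw [h]; tauto
      · rw [h]; tauto
    · rw [h]; tauto

theorem shp_le (y e s : ℝ) : shp y e s ≤ s := min_le_left _ _
theorem shp_le' (y e s : ℝ) : shp y e s ≤ 2 + 2*e - s :=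
  (min_le_right _ _).trans (min_le_right _ _)

theorem shp_nonneg {y e s : ℝ} (_he : 0 ≤ e) (hy : e ≤ y) (h0 : 0 ≤ s) (h1 : s ≤ 2 + 2*e) :
    0 ≤ shp y e s := by
  unfold shp
  refine le_min h0 (le_min ?_ (by linarith))
  rcases le_total s (2*e) with h | h
  · exact le_max_of_le_left (by linarith)
  · exact le_max_of_le_right (by linarith)

theorem shp_out {y e s : ℝ} (he : 0 ≤ e) (hy : y ≤ 1) (h : s ≤ y) : shp y e s = s := by
  unfold shp
  apply min_eq_left
  exact le_min (le_max_of_le_left (by linarith)) (by linarith)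

theorem shp_ret {y e h : ℝ} (he : 0 ≤ e) (h1 : h ≤ 1) : shp y e (2 + 2*e - h) = h := by
  unfold shp
  have : min (max (2*y - (2 + 2*e - h)) (2 + 2*e - h - 2*e)) (2 + 2*e - (2 + 2*e - h)) = h := by
    rw [show 2 + 2*e - (2 + 2*e - h) = h by ring]
    apply min_eq_right
    exact le_max_of_le_right (by linarith)
  rw [this]
  apply min_eq_right
  linarith

theorem shp_mid {y e h : ℝ} (he : 0 ≤ e) (h0 : y - e ≤ h) (h1 : h ≤ 1) :
    shp y e (h + 2*e) = h := by
  unfold shp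
  rw [show h + 2*e - 2*e = h by ring, show 2 + 2*e - (h + 2*e) = 2 - h by ring,
    max_eq_right (show 2*y - (h + 2*e) ≤ h by linarith),
    min_eq_left (show h ≤ 2 - h by linarith), min_eq_right (by linarith)]

/-! The trajectory. -/
section traj

variable (a τ y e : ℝ)

noncomputable def idx (t : ℝ) : ℤ := ⌊Real.logb a (t / τ)⌋

noncomputable def traj (t : ℝ) : ℝ :=
  if 0 < t then
    (-a) ^ (idx a τ t) * shp y e ((t - a ^ (idx a τ t) * τ) / a ^ (idx a τ t))
  else 0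

variable {a τ y e}

theorem idx_eq (ha : 1 < a) (hτ : 0 < τ) {n : ℤ} {t : ℝ} (h1 : a ^ n * τ ≤ t)
    (h2 : t < a ^ (n+1) * τ) : idx a τ t = n := by
  have ha0 : 0 < a := by linarith
  have hn : 0 < a ^ n := zpow_pos ha0 n
  have ht : 0 < t := lt_of_lt_of_le (by positivity) h1
  unfold idx
  rw [Int.floor_eq_iff]
  constructor
  · rw [Real.le_logb_iff_rpow_le ha (by positivity), Real.rpow_intCast, le_div_iff₀ hτ]
    exact h1
  · rw [Real.logb_lt_iff_lt_rpow ha (by positivity)]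
    have : (a:ℝ) ^ ((n:ℝ) + 1) = a ^ (n+1) := by
      rw [← Real.rpow_intCast]; push_cast; rfl
    rw [this, div_lt_iff₀ hτ]
    exact h2

theorem exists_idx (ha : 1 < a) (hτ : 0 < τ) {t : ℝ} (ht : 0 < t) :
    ∃ n : ℤ, a ^ n * τ ≤ t ∧ t < a ^ (n+1) * τ := by
  obtain ⟨n, h1, h2⟩ := exists_mem_Ico_zpow (div_pos ht hτ) ha
  rw [le_div_iff₀ hτ] at h1
  rw [div_lt_iff₀ hτ] at h2
  exact ⟨n, h1, h2⟩

theorem traj_eq (ha : 1 < a) (hτ : 0 < τ) {n : ℤ} {t : ℝ} (h1 : a ^ n * τ ≤ t)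
    (h2 : t < a ^ (n+1) * τ) :
    traj a τ y e t = (-a) ^ n * shp y e ((t - a ^ n * τ) / a ^ n) := by
  have hn : 0 < a ^ n := zpow_pos (by linarith) n
  have ht : 0 < t := lt_of_lt_of_le (by positivity) h1
  unfold traj
  rw [if_pos ht, idx_eq ha hτ h1 h2]

theorem traj_zero : traj a τ y e 0 = 0 := by simp [traj]

/-- scaling relation -/
theorem traj_scale (ha : 1 < a) (hτ : 0 < τ) (j : ℤ) {t : ℝ} (ht : 0 < t) :
    traj a τ y e (a ^ j * t) = (-a) ^ j * traj a τ y e t := by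
  have ha0 : 0 < a := by linarith
  obtain ⟨n, h1, h2⟩ := exists_idx ha hτ ht
  have hj : 0 < a ^ j := zpow_pos ha0 j
  have hn : 0 < a ^ n := zpow_pos ha0 n
  have e1 : a ^ (n + j) = a ^ n * a ^ j := zpow_add₀ ha0.ne' _ _
  have e2 : a ^ (n + j + 1) = a ^ (n+1) * a ^ j := by
    rw [show n + j + 1 = (n + 1) + j by ring, zpow_add₀ ha0.ne']
  rw [traj_eq ha hτ h1 h2, traj_eq (n := n + j) ha hτ (by rw [e1]; nlinarith)
    (by rw [e2]; nlinarith), e1, zpow_add₀ (by linarith : (-a) ≠ 0)]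
  rw [show (a ^ j * t - a ^ n * a ^ j * τ) / (a ^ n * a ^ j) = (t - a ^ n * τ) / a ^ n by
    field_simp]
  ring

theorem abs_neg_zpow (ha : 0 < a) (n : ℤ) : |(-a) ^ n| = a ^ n := by
  rw [abs_zpow, abs_neg, abs_of_pos ha]

/-- bounds of one excursion -/
theorem traj_bd (ha : 1 < a) (hτ : 0 < τ) (he : 0 ≤ e) (hy : e ≤ y)
    (hL : (a - 1) * τ = 2 + 2*e) {n : ℤ} {t : ℝ}
    (h1 : a ^ n * τ ≤ t) (h2 : t < a ^ (n+1) * τ) :
    |traj a τ y e t| ≤ t - a ^ n * τ ∧ |traj a τ y e t| ≤ a ^ (n+1) * τ - t := by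
  have ha0 : 0 < a := by linarith
  have hn : 0 < a ^ n := zpow_pos ha0 n
  have e1 : a ^ (n+1) = a ^ n * a := zpow_add_one₀ ha0.ne' n
  rw [traj_eq ha hτ h1 h2, abs_mul, abs_neg_zpow ha0]
  have hs0 : 0 ≤ (t - a ^ n * τ) / a ^ n := div_nonneg (by linarith) hn.le
  have hs1 : (t - a ^ n * τ) / a ^ n ≤ 2 + 2*e := by
    rw [div_le_iff₀ hn, ← hL]
    rw [e1] at h2
    linarith
  rw [abs_of_nonneg (shp_nonneg he hy hs0 hs1)]
  constructor
  · calc a ^ n * shp y e ((t - a ^ n * τ) / a ^ n) ≤ a ^ n * ((t - a ^ n * τ) / a ^ n) :=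
          mul_le_mul_of_nonneg_left (shp_le _ _ _) hn.le
      _ = t - a ^ n * τ := by field_simp
  · calc a ^ n * shp y e ((t - a ^ n * τ) / a ^ n)
          ≤ a ^ n * (2 + 2*e - (t - a ^ n * τ) / a ^ n) :=
          mul_le_mul_of_nonneg_left (shp_le' _ _ _) hn.le
      _ = a ^ (n+1) * τ - t := by rw [← hL, e1]; field_simp; ring

theorem traj_abs_le (ha : 1 < a) (hτ : 0 < τ) (he : 0 ≤ e) (hy : e ≤ y)
    (hL : (a - 1) * τ = 2 + 2*e) {t : ℝ} (ht : 0 ≤ t) : |traj a τ y e t| ≤ t := by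
  rcases ht.eq_or_lt with h | h
  · rw [← h, traj_zero]; simp
  · obtain ⟨n, h1, h2⟩ := exists_idx ha hτ h
    have := (traj_bd ha hτ he hy hL h1 h2).1
    have hn : 0 < a ^ n * τ := mul_pos (zpow_pos (by linarith) n) hτ
    linarith

theorem traj_lip (ha : 1 < a) (hτ : 0 < τ) (he : 0 ≤ e) (hy : e ≤ y)
    (hL : (a - 1) * τ = 2 + 2*e) {s t : ℝ} (hs : 0 ≤ s) (hst : s ≤ t) :
    |traj a τ y e s - traj a τ y e t| ≤ t - s := by
  have ha0 : 0 < a := by linarith
  rcases hs.eq_or_lt with h | h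
  · rw [← h, traj_zero, zero_sub, abs_neg, sub_zero]
    exact traj_abs_le ha hτ he hy hL (hs.trans hst)
  · obtain ⟨m, hm1, hm2⟩ := exists_idx ha hτ h
    obtain ⟨n, hn1, hn2⟩ := exists_idx ha hτ (lt_of_lt_of_le h hst)
    have hmn : m < n + 1 := by
      have : a ^ m * τ < a ^ (n+1) * τ := lt_of_le_of_lt (hm1.trans hst) hn2
      have := lt_of_mul_lt_mul_right this hτ.le
      exact (zpow_lt_zpow_iff_right₀ ha).mp this
    rcases (show m = n ∨ m + 1 ≤ n by omega) with h' | h'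
    · subst h'
      have hm : 0 < a ^ m := zpow_pos ha0 m
      rw [traj_eq ha hτ hm1 hm2, traj_eq ha hτ hn1 hn2, ← mul_sub, abs_mul, abs_neg_zpow ha0]
      calc a ^ m * |shp y e ((s - a ^ m * τ) / a ^ m) - shp y e ((t - a ^ m * τ) / a ^ m)|
          ≤ a ^ m * |(s - a ^ m * τ) / a ^ m - (t - a ^ m * τ) / a ^ m| :=
            mul_le_mul_of_nonneg_left (shp_lip _ _ _ _) hm.le
        _ = t - s := by
            rw [← sub_div, abs_div, abs_of_pos hm, mul_div_cancel₀ _ hm.ne',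
              show s - a ^ m * τ - (t - a ^ m * τ) = s - t by ring, abs_of_nonpos (by linarith)]
            ring
    · have b1 := (traj_bd ha hτ he hy hL hm1 hm2).2
      have b2 := (traj_bd ha hτ he hy hL hn1 hn2).1
      have b3 : a ^ (m+1) * τ ≤ a ^ n * τ :=
        mul_le_mul_of_nonneg_right ((zpow_le_zpow_iff_right₀ ha).mpr h') hτ.le
      calc _ ≤ |traj a τ y e s| + |traj a τ y e t| := abs_sub _ _
        _ ≤ t - s := by linarith

theorem timesAt_finite (ha : 1 < a) (hτ : 0 < τ) (he : 0 ≤ e) (hy : e ≤ y)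
    (hL : (a - 1) * τ = 2 + 2*e) {H : ℝ} (hH : H ≠ 0) (T : ℝ) :
    (timesAt (traj a τ y e) H ∩ Set.Iic T).Finite := by
  have ha0 : 0 < a := by linarith
  rcases le_or_gt T 0 with hT | hT
  · apply Set.Finite.subset (Set.finite_singleton (0:ℝ))
    rintro t ⟨⟨h1, h2⟩, h3⟩
    exact le_antisymm (le_trans h3 hT) h1
  obtain ⟨m1, hm1, _⟩ := exists_mem_Ico_zpow (div_pos (abs_pos.mpr hH) hτ) ha
  obtain ⟨m2, _, hm2⟩ := exists_mem_Ico_zpow (div_pos hT hτ) ha
  set F : ℤ → Set ℝ := fun n =>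
    {a ^ n * τ + a ^ n * (H / (-a)^n), a ^ n * τ + a ^ n * (2*y - H / (-a)^n),
      a ^ n * τ + a ^ n * (H / (-a)^n + 2*e), a ^ n * τ + a ^ n * (2 + 2*e - H / (-a)^n)} with hF
  have hfin : (⋃ n ∈ Finset.Icc m1 m2, F n).Finite := by
    apply Set.Finite.biUnion (Finset.finite_toSet _)
    intro n _
    rw [hF]
    exact Set.toFinite _
  apply hfin.subset
  rintro t ⟨⟨h1, h2⟩, h3⟩
  have h3' : t ≤ T := h3
  have htpos : 0 < t := by
    have := traj_abs_le ha hτ he hy hL h1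
    rw [h2] at this
    exact lt_of_lt_of_le (abs_pos.mpr hH) this
  obtain ⟨n, hn1, hn2⟩ := exists_idx ha hτ htpos
  have hn : 0 < a ^ n := zpow_pos ha0 n
  have hna : (-a) ^ n ≠ 0 := zpow_ne_zero _ (by linarith)
  rw [Set.mem_iUnion₂]
  refine ⟨n, ?_, ?_⟩
  · rw [Finset.mem_Icc]
    constructor
    · have k1 : |H| ≤ t := by rw [← h2]; exact traj_abs_le ha hτ he hy hL h1
      have k2 : a ^ m1 < a ^ (n+1) := by
        rw [le_div_iff₀ hτ] at hm1
        have : a ^ m1 * τ < a ^ (n+1) * τ := by linarith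
        exact lt_of_mul_lt_mul_right this hτ.le
      have := (zpow_lt_zpow_iff_right₀ ha).mp k2
      omega
    · have k2 : a ^ n < a ^ (m2+1) := by
        rw [div_lt_iff₀ hτ] at hm2
        have : a ^ n * τ < a ^ (m2+1) * τ := by linarith
        exact lt_of_mul_lt_mul_right this hτ.le
      have := (zpow_lt_zpow_iff_right₀ ha).mp k2
      omega
  · rw [traj_eq ha hτ hn1 hn2] at h2
    have h4 : shp y e ((t - a ^ n * τ) / a ^ n) = H / (-a)^n := by
      rw [← h2]; field_simp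
    have h5 : t = a ^ n * τ + a ^ n * ((t - a ^ n * τ) / a ^ n) := by field_simp; ring
    rw [hF]
    simp only [Set.mem_insert_iff, Set.mem_singleton_iff]
    rcases shp_cases y e ((t - a ^ n * τ) / a ^ n) with h | h | h | h
    · left; rw [← h4, h]; exact h5
    · right; left; rw [← h4, h]; rw [show 2*y - (2*y - (t - a ^ n * τ) / a ^ n) =
        (t - a ^ n * τ) / a ^ n by ring]; exact h5
    · right; right; left; rw [← h4, h]; rw [sub_add_cancel]; exact h5
    · right; right; right; rw [← h4, h]; rw [sub_sub_cancel]; exact h5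

end traj

/-- If `timesAt S H` is locally finite, all its points are visit times. -/
theorem visit_eq {S : ℝ → ℝ} {H : ℝ} (h : ∀ T, (timesAt S H ∩ Set.Iic T).Finite) :
    visitTimes S H = timesAt S H := by
  apply Set.Subset.antisymm
  · intro t ht; exact ht.1
  · intro t ht
    refine ⟨ht, ?_⟩
    intro s hs
    by_contra hlt
    push Not at hlt
    have hconn : IsPreconnected (connectedComponentIn (timesAt S H) t) :=
      isPreconnected_connectedComponentIn
    have hsub : Set.Icc s t ⊆ timesAt S H ∩ Set.Iic t := by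
      intro r hr
      exact ⟨connectedComponentIn_subset (timesAt S H) t
        (hconn.Icc_subset hs (mem_connectedComponentIn ht) hr), hr.2⟩
    exact (Set.Icc_infinite hlt) ((h t).subset hsub)

theorem comps_finite {S : ℝ → ℝ} {H : ℝ} (h : ∀ T, (timesAt S H ∩ Set.Iic T).Finite) (T : ℝ) :
    {C : Set ℝ | ∃ t ∈ timesAt S H, t ≤ T ∧ C = connectedComponentIn (timesAt S H) t}.Finite := by
  apply ((h T).image (fun t => connectedComponentIn (timesAt S H) t)).subset
  rintro C ⟨t, ht, htT, rfl⟩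
  exact ⟨t, ⟨ht, htT⟩, rfl⟩

/-- Any strictly increasing sequence of visit times bounds the visit times from above. -/
theorem nthVisit_le {S : ℝ → ℝ} {H : ℝ} (w : ℕ → ℝ) (hw : StrictMono w)
    (hmem : ∀ n, w n ∈ visitTimes S H) (n : ℕ) : nthVisit S H n ≤ w n := by
  have hbdd : BddBelow (visitTimes S H) := ⟨0, fun t ht => ht.1.1⟩
  induction n with
  | zero => exact csInf_le hbdd (hmem 0)
  | succ n ih =>
    apply csInf_le (hbdd.mono Set.inter_subset_left)
    exact ⟨hmem (n+1), lt_of_le_of_lt ih (hw (Nat.lt_succ_self n))⟩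

theorem expTime_le {p : ℝ} (hp0 : 0 < p) (hp1 : p < 1) {S : ℝ → ℝ} {H : ℝ} (w : ℕ → ℝ)
    (hw : StrictMono w) (hw0 : 0 ≤ w 0) (hmem : ∀ n, w n ∈ visitTimes S H) {s : ℝ}
    (hs : HasSum (fun n => p * (1 - p)^n * w n) s) : expTime p S H ≤ ENNReal.ofReal s := by
  have hinf : (visitTimes S H).Infinite :=
    (Set.infinite_range_of_injective hw.injective).mono (by rintro _ ⟨n, rfl⟩; exact hmem n)
  unfold expTime
  rw [if_pos hinf]
  have hq : 0 < 1 - p := by linarith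
  have hnn : ∀ n, 0 ≤ p * (1 - p)^n * w n := fun n =>
    mul_nonneg (by positivity) (hw0.trans (hw.monotone (Nat.zero_le n)))
  calc ∑' n : ℕ, ENNReal.ofReal (p * (1 - p) ^ n * nthVisit S H n)
      ≤ ∑' n : ℕ, ENNReal.ofReal (p * (1 - p) ^ n * w n) := by
        apply ENNReal.tsum_le_tsum
        intro n
        apply ENNReal.ofReal_le_ofReal
        exact mul_le_mul_of_nonneg_left (nthVisit_le w hw hmem n) (by positivity)
    _ = ENNReal.ofReal (∑' n : ℕ, p * (1 - p) ^ n * w n) :=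
        (ENNReal.ofReal_tsum_of_nonneg hnn hs.summable).symm
    _ = ENNReal.ofReal s := by rw [hs.tsum_eq]

/-! The sums. -/

theorem hs_congr {f g : ℕ → ℝ} {s : ℝ} (h : ∀ n, f n = g n) (hg : HasSum g s) : HasSum f s := by
  rwa [show f = g from funext h]

section sums

variable {q a τ y e H : ℝ}

/-- basic sequence of visit times (two per excursion) -/
noncomputable def bas (a τ H : ℝ) (k : ℕ) : ℝ :=
  if Even k then τ * a ^ k + H else τ * a ^ k - H

theorem bas_even (m : ℕ) : bas a τ H (2*m) = τ * a ^ (2*m) + H := by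
  unfold bas; rw [if_pos (by simp)]

theorem bas_odd (m : ℕ) : bas a τ H (2*m+1) = τ * a ^ (2*m+1) - H := by
  unfold bas; rw [if_neg (by simp)]

/-- The basic sum `B(H)`. -/
theorem bas_sum (hq0 : 0 < q) (hq1 : q < 1) (ha : a = 2 / (1 + q))
    (hL : (a - 1) * τ = 2 + 2*e) :
    HasSum (fun n => (1 - q) * q ^ n * bas a τ H n)
      ((2 + 2*e) * (1 + q)^2 / (1 - q) + (1 - q) / (1 + q) * H) := by
  have h1q : (0:ℝ) < 1 + q := by linarith
  have h1q' : (0:ℝ) < 1 - q := by linarith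
  have hτ : τ = (2 + 2*e) * (1 + q) / (1 - q) := by
    rw [ha] at hL
    rw [eq_div_iff h1q'.ne']
    field_simp at hL
    linarith
  have hqa0 : 0 ≤ q^2 * a^2 := by positivity
  have hqa1 : q^2 * a^2 < 1 := by
    rw [ha, ← mul_pow, show q * (2 / (1+q)) = 2*q/(1+q) by ring, div_pow, div_lt_one (by positivity)]
    nlinarith
  have hq2 : q^2 < 1 := by nlinarith
  have g1 := hasSum_geometric_of_lt_one hqa0 hqa1
  have g2 := hasSum_geometric_of_lt_one (by positivity : 0 ≤ q^2) hq2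
  have ev : HasSum (fun m => (1 - q) * q ^ (2*m) * bas a τ H (2*m))
      ((1 - q) * τ * (1 - q^2 * a^2)⁻¹ + (1 - q) * H * (1 - q^2)⁻¹) := by
    refine hs_congr (fun m => ?_)
      ((g1.mul_left ((1 - q) * τ)).add (g2.mul_left ((1 - q) * H)))
    rw [bas_even, mul_pow, ← pow_mul, ← pow_mul]
    ring
  have od : HasSum (fun m => (1 - q) * q ^ (2*m+1) * bas a τ H (2*m+1))
      ((1 - q) * q * (τ * a) * (1 - q^2 * a^2)⁻¹ + (-(1 - q) * q * H) * (1 - q^2)⁻¹) := by
    refine hs_congr (fun m => ?_)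
      ((g1.mul_left ((1 - q) * q * (τ * a))).add (g2.mul_left (-(1 - q) * q * H)))
    rw [bas_odd, mul_pow, ← pow_mul, ← pow_mul]
    ring
  have tot := HasSum.even_add_odd (f := fun n => (1 - q) * q ^ n * bas a τ H n) ev od
  have h13 : (0:ℝ) < 1 + 3*q := by linarith
  have e1 : (1 - q) * (1 + q * a) * (1 - q^2 * a^2)⁻¹ = 1 + q := by
    have e0 : (1 - q) * (1 + q * a) = (1 + q) * (1 - q^2 * a^2) := by
      rw [ha]; field_simp; ring
    rw [e0, mul_assoc, mul_inv_cancel₀ (by linarith), mul_one]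
  have e2 : (1 - q) * (1 - q^2)⁻¹ = 1 / (1 + q) := by
    rw [show 1 - q^2 = (1 - q) * (1 + q) by ring, mul_inv, ← mul_assoc,
      mul_inv_cancel₀ h1q'.ne', one_mul, one_div]
  have e4 : τ * (1 + q) = (2 + 2*e) * (1 + q)^2 / (1 - q) := by
    rw [hτ]; ring
  have e3 : (1 - q) * τ * (1 - q^2 * a^2)⁻¹ + (1 - q) * H * (1 - q^2)⁻¹ +
      ((1 - q) * q * (τ * a) * (1 - q^2 * a^2)⁻¹ + (-(1 - q) * q * H) * (1 - q^2)⁻¹) =
      (2 + 2*e) * (1 + q)^2 / (1 - q) + (1 - q) / (1 + q) * H := by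
    calc _ = τ * ((1 - q) * (1 + q * a) * (1 - q^2 * a^2)⁻¹) +
        H * (1 - q) * ((1 - q) * (1 - q^2)⁻¹) := by ring
      _ = _ := by rw [e1, e2, e4]; ring
  rw [e3] at tot
  exact tot

/-- first visit sequence, for `H` just above the previous turning point (`H ≤ y`) -/
noncomputable def wA (a τ e H : ℝ) (k : ℕ) : ℝ :=
  match k with
  | 0 => τ + H
  | 1 => τ + 2*e + H
  | (k+2) => bas a τ H (k+1)

/-- second visit sequence -/
noncomputable def wB (a τ e H : ℝ) (k : ℕ) : ℝ :=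
  match k with
  | 0 => τ + 2*e + H
  | (k+1) => bas a τ H (k+1)

theorem wB_sum (hq0 : 0 < q) (hq1 : q < 1) (ha : a = 2 / (1 + q))
    (hL : (a - 1) * τ = 2 + 2*e) :
    HasSum (fun n => (1 - q) * q ^ n * wB a τ e H n)
      ((2 + 2*e) * (1 + q)^2 / (1 - q) + (1 - q) / (1 + q) * H + (1 - q) * (2*e)) := by
  have h1 := bas_sum (H := H) hq0 hq1 ha hL
  have h2 : HasSum (fun n : ℕ => if n = 0 then (1 - q) * (2*e) else 0) ((1 - q) * (2*e)) :=
    hasSum_ite_eq 0 _
  refine hs_congr (fun n => ?_) (h1.add h2)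
  rcases n with _ | n
  · have : bas a τ H 0 = τ + H := by have := bas_even (a := a) (τ := τ) (H := H) 0; simpa using this
    rw [this]
    simp only [wB, pow_zero, if_true]
    ring
  · simp only [wB, Nat.succ_ne_zero, if_false, add_zero]

theorem wA_sum (hq0 : 0 < q) (hq1 : q < 1) (ha : a = 2 / (1 + q))
    (hL : (a - 1) * τ = 2 + 2*e) :
    HasSum (fun n => (1 - q) * q ^ n * wA a τ e H n)
      ((1 - q) * (τ + H) + q * ((2 + 2*e) * (1 + q)^2 / (1 - q) + (1 - q) / (1 + q) * H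
        + (1 - q) * (2*e))) := by
  have h1 := (wB_sum (H := H) hq0 hq1 ha hL).mul_left q
  have h2 : HasSum (fun n => (1 - q) * q ^ (n+1) * wA a τ e H (n+1))
      (q * ((2 + 2*e) * (1 + q)^2 / (1 - q) + (1 - q) / (1 + q) * H + (1 - q) * (2*e))) := by
    refine hs_congr (fun n => ?_) h1
    have h0 : wA a τ e H (n+1) = wB a τ e H n := by
      rcases n with _ | n <;> rfl
    rw [h0]
    ring
  have h3 := (hasSum_nat_add_iff (f := fun n => (1 - q) * q ^ n * wA a τ e H n) 1).mp h2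
  simp only [Finset.range_one, Finset.sum_singleton, pow_zero, mul_one] at h3
  have h4 : wA a τ e H 0 = τ + H := rfl
  rw [h4, add_comm] at h3
  exact h3

end sums

/-! Membership. -/
section mem

variable {a τ y e H : ℝ}

theorem mem_out (ha : 1 < a) (hτ : 0 < τ) (he : 0 ≤ e) (hy1 : y ≤ 1)
    (hL : (a - 1) * τ = 2 + 2*e) (hH0 : 0 < H) (hH1 : H < 1) (m : ℕ) (hm : H / a ^ (2*m) ≤ y) :
    traj a τ y e (τ * a ^ (2*m) + H) = H := by
  have ha0 : 0 < a := by linarith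
  have hn : 0 < a ^ (2*m) := by positivity
  have hn1 : 1 ≤ a ^ (2*m) := one_le_pow₀ ha.le
  have e1 : a ^ (((2*m : ℕ) : ℤ)) = a ^ (2*m) := zpow_natCast a (2*m)
  have e2 : a ^ (((2*m : ℕ) : ℤ) + 1) = a ^ (2*m) * a := by rw [zpow_add_one₀ ha0.ne', e1]
  have e3 : (-a) ^ (((2*m : ℕ) : ℤ)) = a ^ (2*m) := by
    rw [zpow_natCast, Even.neg_pow (even_two_mul m)]
  rw [traj_eq (n := ((2*m : ℕ) : ℤ)) ha hτ (by rw [e1]; linarith) (by rw [e2]; nlinarith), e3, e1]
  rw [show (τ * a ^ (2*m) + H - a ^ (2*m) * τ) / a ^ (2*m) = H / a ^ (2*m) by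
    congr 1; ring, shp_out he hy1 hm]
  field_simp

theorem mem_ret (ha : 1 < a) (hτ : 0 < τ) (he : 0 ≤ e)
    (hL : (a - 1) * τ = 2 + 2*e) (hH0 : 0 < H) (hH1 : H < 1) (m : ℕ) :
    traj a τ y e (τ * a ^ (2*m+1) - H) = H := by
  have ha0 : 0 < a := by linarith
  have hn : 0 < a ^ (2*m) := by positivity
  have hn1 : 1 ≤ a ^ (2*m) := one_le_pow₀ ha.le
  have e0 : a ^ (2*m+1) = a ^ (2*m) * a := pow_succ a (2*m)
  have e1 : a ^ (((2*m : ℕ) : ℤ)) = a ^ (2*m) := zpow_natCast a (2*m)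
  have e2 : a ^ (((2*m : ℕ) : ℤ) + 1) = a ^ (2*m) * a := by rw [zpow_add_one₀ ha0.ne', e1]
  have e3 : (-a) ^ (((2*m : ℕ) : ℤ)) = a ^ (2*m) := by
    rw [zpow_natCast, Even.neg_pow (even_two_mul m)]
  rw [traj_eq (n := ((2*m : ℕ) : ℤ)) ha hτ (by rw [e1, e0]; nlinarith)
    (by rw [e2, e0]; nlinarith), e3, e1]
  have hh : H / a ^ (2*m) ≤ 1 := by rw [div_le_one hn]; linarith
  rw [show (τ * a ^ (2*m+1) - H - a ^ (2*m) * τ) / a ^ (2*m) = 2 + 2*e - H / a ^ (2*m) by
    rw [← hL, e0]; field_simp; ring, shp_ret he hh]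
  field_simp

theorem mem_mid (ha : 1 < a) (hτ : 0 < τ) (he : 0 ≤ e)
    (hL : (a - 1) * τ = 2 + 2*e) (hH0 : 0 < H) (hH1 : H < 1) (hz : y - e ≤ H) :
    traj a τ y e (τ + 2*e + H) = H := by
  have ha0 : 0 < a := by linarith
  rw [traj_eq (n := 0) ha hτ (by simp; linarith) (by simp; linarith)]
  rw [zpow_zero, zpow_zero, one_mul, one_mul, div_one,
    show τ + 2*e + H - τ = H + 2*e by ring, shp_mid he hz hH1.le]

theorem bas_mem (ha : 1 < a) (hτ : 0 < τ) (he : 0 ≤ e) (hy1 : y ≤ 1)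
    (hL : (a - 1) * τ = 2 + 2*e) (hH0 : 0 < H) (hH1 : H < 1) (hyz : (a^2)⁻¹ ≤ y) (k : ℕ) :
    traj a τ y e (bas a τ H (k+1)) = H := by
  have ha0 : 0 < a := by linarith
  rcases Nat.even_or_odd' (k+1) with ⟨m, hm | hm⟩
  · rw [hm, bas_even]
    apply mem_out ha hτ he hy1 hL hH0 hH1
    refine le_trans ?_ hyz
    rw [div_le_iff₀ (by positivity)]
    have h1 : a^2 ≤ a^(2*m) := pow_le_pow_right₀ ha.le (by omega)
    have h2 : (a^2)⁻¹ * a^2 = 1 := inv_mul_cancel₀ (by positivity)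
    have h3 : (a^2)⁻¹ * a^2 ≤ (a^2)⁻¹ * a^(2*m) :=
      mul_le_mul_of_nonneg_left h1 (by positivity)
    linarith
  · rw [hm, bas_odd]
    exact mem_ret ha hτ he hL hH0 hH1 m

theorem bas_nonneg_mono (ha : 1 < a) (hτ : 0 < τ) (he : 0 ≤ e)
    (hL : (a - 1) * τ = 2 + 2*e) (hH0 : 0 < H) (hH1 : H < 1) (k : ℕ) :
    bas a τ H k < bas a τ H (k+1) := by
  have ha0 : 0 < a := by linarith
  have hn1 : 1 ≤ a ^ k := one_le_pow₀ ha.le
  rcases Nat.even_or_odd' k with ⟨m, hm | hm⟩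
  · rw [hm, bas_even, bas_odd, pow_succ]
    rw [hm] at hn1
    nlinarith
  · rw [hm, bas_odd, show 2*m+1+1 = 2*(m+1) by ring, bas_even,
      show 2*(m+1) = 2*m+1+1 by ring, pow_succ a (2*m+1)]
    rw [hm] at hn1
    nlinarith

theorem wB_mono (ha : 1 < a) (hτ : 0 < τ) (he : 0 ≤ e)
    (hL : (a - 1) * τ = 2 + 2*e) (hH0 : 0 < H) (hH1 : H < 1) : StrictMono (wB a τ e H) := by
  apply strictMono_nat_of_lt_succ
  intro n
  rcases n with _ | n
  · have h1 : bas a τ H 1 = τ * a - H := by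
      have := bas_odd (a := a) (τ := τ) (H := H) 0
      simpa using this
    show τ + 2*e + H < bas a τ H 1
    rw [h1]
    nlinarith
  · exact bas_nonneg_mono ha hτ he hL hH0 hH1 (n+1)

theorem wA_mono (ha : 1 < a) (hτ : 0 < τ) (he : 0 < e)
    (hL : (a - 1) * τ = 2 + 2*e) (hH0 : 0 < H) (hH1 : H < 1) : StrictMono (wA a τ e H) := by
  apply strictMono_nat_of_lt_succ
  intro n
  rcases n with _ | n
  · show τ + H < τ + 2*e + H
    linarith
  · have h0 : wA a τ e H (n+1) = wB a τ e H n := by rcases n with _ | n <;> rfl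
    have h1 : wA a τ e H (n+1+1) = wB a τ e H (n+1) := rfl
    rw [h0, h1]
    exact wB_mono ha hτ he.le hL hH0 hH1 (Nat.lt_succ_self n)

end mem

/-! The two numerical inequalities. -/

theorem ineqB {q e : ℝ} (hq0 : 0 < q) (hq1 : q < 1) (he : 0 < e) :
    ((2 + 2*e) * (1 + q)^2 / (1 - q) + (1 - q) * (2*e)) / ((1 + q)^2/4 + e) < 8 / (1 - q) := by
  have h1q : (0:ℝ) < 1 - q := by linarith
  rw [div_lt_iff₀ (by positivity)]
  have e1 : (2 + 2*e) * (1 + q)^2 / (1 - q) + (1 - q) * (2*e) =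
    ((2 + 2*e) * (1 + q)^2 + (1 - q)^2 * (2*e)) / (1 - q) := by field_simp
  rw [e1, div_mul_eq_mul_div, div_lt_div_iff_of_pos_right h1q]
  have h2 : 0 < e * (1 - q^2) := mul_pos he (by nlinarith)
  nlinarith

theorem ineqA {q e τ : ℝ} (hq0 : 0 < q) (hq1 : q < 1) (he : e = q * (1 - q) / 16)
    (hτ : (1 - q) * τ = (2 + 2*e) * (1 + q)) :
    ((1 - q) * τ + q * ((2 + 2*e) * (1 + q)^2 / (1 - q)) + q * ((1 - q) * (2*e))) /
      ((1 + q)^2/4) + (1 - q) + q * ((1 - q) / (1 + q)) < 8 / (1 - q) + (1 - q) / (1 + q) := by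
  have h1q : (0:ℝ) < 1 - q := by linarith
  have h1q' : (0:ℝ) < 1 + q := by linarith
  rw [hτ]
  have key : 8 / (1 - q) + (1 - q) / (1 + q) -
      (((2 + 2*e) * (1 + q) + q * ((2 + 2*e) * (1 + q)^2 / (1 - q)) + q * ((1 - q) * (2*e))) /
      ((1 + q)^2/4) + (1 - q) + q * ((1 - q) / (1 + q))) =
      (q * (1 + q) * (1 - q) * (3 + q) / 2 -
        e * (2 * (1 + q) * (1 - q) + 2 * q * (1 + q)^2 + 2 * q * (1 - q)^2)) * 4 /
        ((1 - q) * (1 + q)^2) := by
    field_simp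
    ring
  have pos : 0 < q * (1 + q) * (1 - q) * (3 + q) / 2 -
        e * (2 * (1 + q) * (1 - q) + 2 * q * (1 + q)^2 + 2 * q * (1 - q)^2) := by
    rw [he]
    have h2 : 0 < q * (1 - q) := mul_pos hq0 h1q
    have h3 : 0 < (1 + q) * (3 + q) / 2 -
        (2 * (1 + q) * (1 - q) + 2 * q * (1 + q)^2 + 2 * q * (1 - q)^2) / 16 := by
      nlinarith [mul_pos hq0 h1q, mul_pos hq0 hq0, mul_pos (mul_pos hq0 hq0) h1q,
        mul_pos (mul_pos hq0 h1q) h1q]
    nlinarith [mul_pos h2 h3]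
  have : 0 < (q * (1 + q) * (1 - q) * (3 + q) / 2 -
        e * (2 * (1 + q) * (1 - q) + 2 * q * (1 + q)^2 + 2 * q * (1 - q)^2)) * 4 /
        ((1 - q) * (1 + q)^2) := by positivity
  linarith

/-- Decomposition of the hider position. -/
theorem exists_decomp {a H : ℝ} (ha : 1 < a) (hH : H ≠ 0) :
    ∃ (j : ℤ) (h : ℝ), (a^2)⁻¹ ≤ h ∧ h < 1 ∧ H = (-a) ^ j * h := by
  have ha0 : 0 < a := by linarith
  have ha2 : 1 < a^2 := by nlinarith
  have hna : (-a) ≠ 0 := by linarith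
  rcases lt_or_gt_of_ne hH with hneg | hpos
  · obtain ⟨n, h1, h2⟩ := exists_mem_Ico_zpow (div_pos (neg_pos.mpr hneg) ha0) ha2
    have hz : (0:ℝ) < (a^2)^(n+1) := zpow_pos (by positivity) _
    refine ⟨2*(n+1)+1, (-H/a) / (a^2)^(n+1), ?_, ?_, ?_⟩
    · rw [le_div_iff₀ hz, zpow_add_one₀ (by positivity), mul_comm ((a^2)^n), ← mul_assoc,
        inv_mul_cancel₀ (by positivity), one_mul]
      exact h1
    · rw [div_lt_one hz]; exact h2
    · rw [zpow_add_one₀ hna, zpow_mul, show (-a) ^ (2:ℤ) = a^2 by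
        rw [show (2:ℤ) = ((2:ℕ):ℤ) by rfl, zpow_natCast]; ring]
      field_simp
  · obtain ⟨n, h1, h2⟩ := exists_mem_Ico_zpow hpos ha2
    have hz : (0:ℝ) < (a^2)^(n+1) := zpow_pos (by positivity) _
    refine ⟨2*(n+1), H / (a^2)^(n+1), ?_, ?_, ?_⟩
    · rw [le_div_iff₀ hz, zpow_add_one₀ (by positivity), mul_comm ((a^2)^n), ← mul_assoc,
        inv_mul_cancel₀ (by positivity), one_mul]
      exact h1
    · rw [div_lt_one hz]; exact h2
    · rw [zpow_mul, show (-a) ^ (2:ℤ) = a^2 by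
        rw [show (2:ℤ) = ((2:ℕ):ℤ) by rfl, zpow_natCast]; ring]
      field_simp

theorem main (p : ℝ) (hp0 : 0 < p) (hp1 : p < 1) :
    ∃ S : ℝ → ℝ, IsTrajectory S ∧ guaranteedCost p S < ENNReal.ofReal (p / (2 - p) + 8 / p) := by
  set q : ℝ := 1 - p with hq
  have hpq : p = 1 - q := by rw [hq]; ring
  have hq0 : 0 < q := by rw [hq]; linarith
  have hq1 : q < 1 := by rw [hq]; linarith
  have h1q : (0:ℝ) < 1 - q := by linarith
  have h1q' : (0:ℝ) < 1 + q := by linarith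
  set e : ℝ := q * (1 - q) / 16 with he
  have he0 : 0 < e := by rw [he]; positivity
  set a : ℝ := 2 / (1 + q) with ha
  have ha1 : 1 < a := by rw [ha, lt_div_iff₀ h1q']; linarith
  have ha0 : 0 < a := by linarith
  set z : ℝ := (1 + q)^2/4 with hz
  have hz0 : 0 < z := by rw [hz]; positivity
  have hza : (a^2)⁻¹ = z := by rw [ha, hz, div_pow, inv_div]; norm_num
  set y : ℝ := z + e with hy
  have hy1 : y ≤ 1 := by
    rw [hy, hz, he]
    nlinarith [mul_pos hq0 h1q]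
  set τ : ℝ := (2 + 2*e) * (1 + q) / (1 - q) with hτ
  have hτ0 : 0 < τ := by rw [hτ]; positivity
  have hτ' : (1 - q) * τ = (2 + 2*e) * (1 + q) := by rw [hτ]; field_simp
  have hL : (a - 1) * τ = 2 + 2*e := by
    rw [hτ, ha]; field_simp; ring
  have hey : e ≤ y := by rw [hy]; linarith
  set S : ℝ → ℝ := traj a τ y e with hS
  have hfin : ∀ H, H ≠ 0 → ∀ T, (timesAt S H ∩ Set.Iic T).Finite :=
    fun H hH T => timesAt_finite ha1 hτ0 he0.le hey hL hH T
  have htraj : IsTrajectory S := by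
    refine ⟨traj_zero, ?_, fun H hH T => comps_finite (hfin H hH) T⟩
    intro s t hs ht
    rcases le_total s t with h | h
    · rw [abs_sub_comm s t, abs_of_nonneg (by linarith : 0 ≤ t - s)]
      exact traj_lip ha1 hτ0 he0.le hey hL hs h
    · rw [abs_sub_comm, abs_of_nonneg (by linarith : 0 ≤ s - t)]
      exact traj_lip ha1 hτ0 he0.le hey hL ht h
  -- the two constants
  set c1 : ℝ := ((1 - q) * τ + q * ((2 + 2*e) * (1 + q)^2 / (1 - q)) + q * ((1 - q) * (2*e))) /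
      ((1 + q)^2/4) + (1 - q) + q * ((1 - q) / (1 + q)) with hc1
  set c2 : ℝ := ((2 + 2*e) * (1 + q)^2 / (1 - q) + (1 - q) * (2*e)) / ((1 + q)^2/4 + e) +
      (1 - q) / (1 + q) with hc2
  have i1 : c1 < 8 / (1 - q) + (1 - q) / (1 + q) := ineqA hq0 hq1 he hτ'
  have i2 : c2 < 8 / (1 - q) + (1 - q) / (1 + q) := by
    have := ineqB hq0 hq1 he0
    rw [hc2]; linarith
  -- bound for normalised positions
  have norm : ∀ h : ℝ, z ≤ h → h < 1 → ∃ (w : ℕ → ℝ) (s : ℝ), StrictMono w ∧ 0 < w 0 ∧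
      (∀ n, S (w n) = h) ∧ HasSum (fun n => p * (1 - p)^n * w n) s ∧ s ≤ max c1 c2 * h := by
    intro h hzh hh1
    have hh0 : 0 < h := lt_of_lt_of_le hz0 hzh
    have hp1q : 1 - p = q := by rw [hq]
    rw [hp1q, hpq]
    rcases le_or_gt h y with hhy | hhy
    · refine ⟨wA a τ e h, _, wA_mono ha1 hτ0 he0 hL hh0 hh1, ?_, ?_, wA_sum hq0 hq1 ha hL, ?_⟩
      · show 0 < τ + h
        positivity
      · intro n
        rcases n with _ | _ | n
        · show traj a τ y e (τ + h) = h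
          have := mem_out (a := a) (y := y) ha1 hτ0 he0.le hy1 hL hh0 hh1 0 (by simpa using hhy)
          simpa using this
        · exact mem_mid ha1 hτ0 he0.le hL hh0 hh1 (by rw [hy]; linarith)
        · exact bas_mem ha1 hτ0 he0.le hy1 hL hh0 hh1 (by rw [hza, hy]; linarith) n
      · have hN : 0 ≤ (1 - q) * τ + q * ((2 + 2*e) * (1 + q)^2 / (1 - q)) +
            q * ((1 - q) * (2*e)) := by positivity
        have k1 : ((1 - q) * τ + q * ((2 + 2*e) * (1 + q)^2 / (1 - q)) +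
            q * ((1 - q) * (2*e))) ≤ ((1 - q) * τ + q * ((2 + 2*e) * (1 + q)^2 / (1 - q)) +
            q * ((1 - q) * (2*e))) / z * h := by
          rw [div_mul_eq_mul_div, le_div_iff₀ hz0]
          exact mul_le_mul_of_nonneg_left hzh hN
        calc _ = ((1 - q) * τ + q * ((2 + 2*e) * (1 + q)^2 / (1 - q)) +
            q * ((1 - q) * (2*e))) + ((1 - q) + q * ((1 - q) / (1 + q))) * h := by ring
          _ ≤ ((1 - q) * τ + q * ((2 + 2*e) * (1 + q)^2 / (1 - q)) +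
            q * ((1 - q) * (2*e))) / z * h + ((1 - q) + q * ((1 - q) / (1 + q))) * h := by
              linarith
          _ = c1 * h := by rw [hc1]; ring
          _ ≤ max c1 c2 * h := mul_le_mul_of_nonneg_right (le_max_left _ _) hh0.le
    · refine ⟨wB a τ e h, _, wB_mono ha1 hτ0 he0.le hL hh0 hh1, ?_, ?_, wB_sum hq0 hq1 ha hL, ?_⟩
      · show 0 < τ + 2*e + h
        positivity
      · intro n
        rcases n with _ | n
        · exact mem_mid ha1 hτ0 he0.le hL hh0 hh1 (by rw [hy]; linarith)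
        · exact bas_mem ha1 hτ0 he0.le hy1 hL hh0 hh1 (by rw [hza, hy]; linarith) n
      · have hN : 0 ≤ (2 + 2*e) * (1 + q)^2 / (1 - q) + (1 - q) * (2*e) := by positivity
        have hy0 : 0 < y := by positivity
        have k1 : (2 + 2*e) * (1 + q)^2 / (1 - q) + (1 - q) * (2*e) ≤
            ((2 + 2*e) * (1 + q)^2 / (1 - q) + (1 - q) * (2*e)) / y * h := by
          rw [div_mul_eq_mul_div, le_div_iff₀ hy0]
          exact mul_le_mul_of_nonneg_left hhy.le hN
        calc _ = ((2 + 2*e) * (1 + q)^2 / (1 - q) + (1 - q) * (2*e)) +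
              (1 - q) / (1 + q) * h := by ring
          _ ≤ ((2 + 2*e) * (1 + q)^2 / (1 - q) + (1 - q) * (2*e)) / y * h +
              (1 - q) / (1 + q) * h := by linarith
          _ = c2 * h := by rw [hc2, hy, hz]; ring
          _ ≤ max c1 c2 * h := mul_le_mul_of_nonneg_right (le_max_right _ _) hh0.le
  refine ⟨S, htraj, ?_⟩
  have hV : max c1 c2 < p / (2 - p) + 8 / p := by
    have : p / (2 - p) + 8 / p = 8 / (1 - q) + (1 - q) / (1 + q) := by
      rw [hpq, show 2 - (1 - q) = 1 + q by ring]; ring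
    rw [this]
    exact max_lt i1 i2
  have hV0 : 0 < p / (2 - p) + 8 / p := by
    have : 0 < 2 - p := by linarith
    positivity
  refine lt_of_le_of_lt ?_ ((ENNReal.ofReal_lt_ofReal_iff hV0).mpr hV)
  unfold guaranteedCost
  refine iSup₂_le ?_
  intro H hH
  obtain ⟨j, h, hh1, hh2, rfl⟩ := exists_decomp ha1 hH
  rw [hza] at hh1
  have hh0 : 0 < h := lt_of_lt_of_le hz0 hh1
  obtain ⟨w, s, hw, hw0, hwS, hws, hsc⟩ := norm h hh1 hh2
  have haj : 0 < a ^ j := zpow_pos ha0 j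
  have hbound : expTime p S ((-a)^j * h) ≤ ENNReal.ofReal (a^j * s) := by
    apply expTime_le hp0 hp1 (fun n => a^j * w n)
    · intro m n hmn
      exact mul_lt_mul_of_pos_left (hw hmn) haj
    · positivity
    · intro n
      have hwn : 0 < w n := lt_of_lt_of_le hw0 (hw.monotone (Nat.zero_le n))
      rw [visit_eq (hfin _ hH)]
      refine ⟨by positivity, ?_⟩
      rw [hS, traj_scale ha1 hτ0 j hwn]
      congr 1
      exact hwS n
    · refine hs_congr (fun n => ?_) (hws.mul_left (a^j))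
      ring
  have habs : |(-a)^j * h| = a^j * h := by
    rw [abs_mul, abs_neg_zpow ha0, abs_of_pos hh0]
  rw [habs]
  apply ENNReal.div_le_of_le_mul
  refine hbound.trans ?_
  rw [← ENNReal.ofReal_mul' (by positivity)]
  apply ENNReal.ofReal_le_ofReal
  nlinarith

end LineSearch
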