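import Mathlib

set_option autoImplicit false

namespace Pool.Agent.H9.MP082b65

open MeasureTheory Matrix

/-- The squared Euclidean norm of a vector. -/
def sqn {m : ℕ} (x : Fin m → ℝ) : ℝ := ∑ i, x i ^ 2

/-- The Frobenius norm. -/
noncomputable def frob {m p : ℕ} (M : Matrix (Fin m) (Fin p) ℝ) : ℝ :=
  Real.sqrt (∑ i, ∑ j, M i j ^ 2)

/-- The random `d × k` matrix `Om` (defined on the space `S` with measure `μ`) is an oblivious
subspace injection of dimension `r` with injectivity `α` and failure probability `δ`. -/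
structure IsOSI {S : Type} [MeasurableSpace S] (μ : Measure S) {d k : ℕ}
    (Om : S → Matrix (Fin d) (Fin k) ℝ) (r : ℕ) (α δ : ℝ) : Prop where
  measurable : ∀ i j, Measurable fun s => Om s i j
  integrable : ∀ x : Fin d → ℝ, Integrable (fun s => sqn ((Om s)ᵀ *ᵥ x)) μ
  isotropy : ∀ x : Fin d → ℝ, ∫ s, sqn ((Om s)ᵀ *ᵥ x) ∂μ = sqn x
  injectivity : ∀ V : Submodule ℝ (Fin d → ℝ), Module.finrank ℝ V = r →
    ENNReal.ofReal (1 - δ) ≤ μ {s | ∀ x ∈ V, α * sqn x ≤ sqn ((Om s)ᵀ *ᵥ x)}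

/-- `P` is the Moore-Penrose pseudoinverse of `M` (the four Penrose conditions). -/
def IsPinv {m d : ℕ} (M : Matrix (Fin m) (Fin d) ℝ) (P : Matrix (Fin d) (Fin m) ℝ) : Prop :=
  M * P * M = M ∧ P * M * P = P ∧ (M * P)ᵀ = M * P ∧ (P * M)ᵀ = P * M

/-- The error `‖A - A_r‖_F` of a best approximation of `A` by matrices of rank at most `r`. -/
noncomputable def bestErr {n d : ℕ} (A : Matrix (Fin n) (Fin d) ℝ) (r : ℕ) : ℝ :=
  sInf {t : ℝ | ∃ B : Matrix (Fin n) (Fin d) ℝ, B.rank ≤ r ∧ t = frob (A - B)}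

end Pool.Agent.H9.MP082b65
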