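import Mathlib
import Pool.Agent.H9.MP082b65Defs

set_option autoImplicit false

namespace Pool.Agent.H9.MP082b65

open MeasureTheory Matrix

/-! ### random signs -/

abbrev Z (m : ℕ) := Fin m → Bool

def e (b : Bool) : ℝ := if b then 1 else -1

lemma e_sq (b : Bool) : e b ^ 2 = 1 := by cases b <;> simp [e]
lemma sum_e : ∑ b : Bool, e b = 0 := by simp [e]

/-- signed sum -/
def RR {m : ℕ} (β : Fin m → ℝ) (z : Z m) : ℝ := ∑ i, β i * e (z i)

lemma sum_cons {α : Type} [Fintype α] (m : ℕ) (F : (Fin (m+1) → α) → ℝ) :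
    ∑ z, F z = ∑ a : α, ∑ z' : Fin m → α, F (Fin.cons a z') := by
  rw [← Fintype.sum_prod_type']
  exact (Fintype.sum_equiv (Fin.consEquiv (fun _ => α)) _ _ (fun x => rfl)).symm

lemma RR_cons {m : ℕ} (β : Fin (m+1) → ℝ) (b : Bool) (z : Z m) :
    RR β (Fin.cons b z : Z (m+1)) = β 0 * e b + RR (fun i => β i.succ) z := by
  simp [RR, Fin.sum_univ_succ]

lemma card_Z (m : ℕ) : (Fintype.card (Z m) : ℝ) = 2^m := by simp [Z]

lemma sum_RR (m : ℕ) : ∀ β : Fin m → ℝ, ∑ z : Z m, RR β z = 0 := by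
  induction m with
  | zero => intro β; simp [RR]
  | succ m ih =>
    intro β
    rw [sum_cons]
    simp only [RR_cons, Finset.sum_add_distrib, ih]
    simp [e]

lemma sum_RR2 (m : ℕ) : ∀ β : Fin m → ℝ, ∑ z : Z m, RR β z ^ 2 = 2^m * ∑ i, β i ^ 2 := by
  induction m with
  | zero => intro β; simp [RR]
  | succ m ih =>
    intro β
    rw [sum_cons]
    simp only [RR_cons]
    have h : ∀ b : Bool, ∑ z : Z m, (β 0 * e b + RR (fun i => β i.succ) z)^2 =
        2^m * β 0 ^ 2 + 2^m * ∑ i : Fin m, β i.succ ^ 2 := by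
      intro b
      have : ∀ z : Z m, (β 0 * e b + RR (fun i => β i.succ) z)^2 =
          β 0 ^ 2 + 2 * β 0 * e b * RR (fun i => β i.succ) z + RR (fun i => β i.succ) z ^ 2 := by
        intro z
        have := e_sq b
        calc (β 0 * e b + RR (fun i => β i.succ) z)^2
            = β 0 ^ 2 * (e b ^ 2) + 2 * β 0 * e b * RR (fun i => β i.succ) z
              + RR (fun i => β i.succ) z ^ 2 := by ring
          _ = _ := by rw [this]; ring
      simp only [this, Finset.sum_add_distrib, ← Finset.mul_sum, sum_RR, ih]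
      simp
    simp only [h]
    rw [Fin.sum_univ_succ]
    simp
    ring

lemma sum_RR3odd (m : ℕ) : ∀ β : Fin m → ℝ, ∑ z : Z m, RR β z ^ 3 = 0 := by
  induction m with
  | zero => intro β; simp [RR]
  | succ m ih =>
    intro β
    rw [sum_cons]
    simp only [RR_cons]
    have h : ∀ b : Bool, ∑ z : Z m, (β 0 * e b + RR (fun i => β i.succ) z)^3 =
        e b * (2^m * β 0 ^ 3 + 3 * β 0 * (2^m * ∑ i : Fin m, β i.succ ^ 2)) := by
      intro b
      have : ∀ z : Z m, (β 0 * e b + RR (fun i => β i.succ) z)^3 =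
          e b * β 0 ^ 3 + 3 * β 0 ^ 2 * RR (fun i => β i.succ) z +
          3 * β 0 * e b * RR (fun i => β i.succ) z ^ 2 + RR (fun i => β i.succ) z ^ 3 := by
        intro z
        have := e_sq b
        calc (β 0 * e b + RR (fun i => β i.succ) z)^3
            = (e b ^ 2) * e b * β 0 ^ 3 + 3 * β 0 ^ 2 * (e b ^ 2) * RR (fun i => β i.succ) z +
          3 * β 0 * e b * RR (fun i => β i.succ) z ^ 2 + RR (fun i => β i.succ) z ^ 3 := by ring
          _ = _ := by rw [this]; ring
      simp only [this, Finset.sum_add_distrib, ← Finset.mul_sum, sum_RR, sum_RR2, ih]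
      simp
      ring
    simp only [h]
    simp [e]

lemma sum_RR4 (m : ℕ) : ∀ β : Fin m → ℝ,
    ∑ z : Z m, RR β z ^ 4 ≤ 3 * 2^m * (∑ i, β i ^ 2)^2 := by
  induction m with
  | zero => intro β; simp [RR]
  | succ m ih =>
    intro β
    rw [sum_cons]
    simp only [RR_cons]
    have h : ∀ b : Bool, ∑ z : Z m, (β 0 * e b + RR (fun i => β i.succ) z)^4 =
        2^m * β 0 ^ 4 + 6 * β 0 ^ 2 * (2^m * ∑ i : Fin m, β i.succ ^ 2) +
        ∑ z : Z m, RR (fun i => β i.succ) z ^ 4 := by
      intro b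
      have : ∀ z : Z m, (β 0 * e b + RR (fun i => β i.succ) z)^4 =
          β 0 ^ 4 + 4 * β 0 ^ 3 * e b * RR (fun i => β i.succ) z +
          6 * β 0 ^ 2 * RR (fun i => β i.succ) z ^ 2 +
          4 * β 0 * e b * RR (fun i => β i.succ) z ^ 3 + RR (fun i => β i.succ) z ^ 4 := by
        intro z
        have := e_sq b
        calc (β 0 * e b + RR (fun i => β i.succ) z)^4
            = (e b ^ 2) * (e b ^ 2) * β 0 ^ 4 +
              4 * β 0 ^ 3 * (e b ^ 2) * e b * RR (fun i => β i.succ) z +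
          6 * β 0 ^ 2 * (e b ^ 2) * RR (fun i => β i.succ) z ^ 2 +
          4 * β 0 * e b * RR (fun i => β i.succ) z ^ 3 + RR (fun i => β i.succ) z ^ 4 := by ring
          _ = _ := by rw [this]; ring
      simp only [this, Finset.sum_add_distrib, ← Finset.mul_sum, sum_RR, sum_RR2, sum_RR3odd]
      simp
    simp only [h]
    rw [Fin.sum_univ_succ]
    have h2 := ih (fun i => β i.succ)
    simp only [Fintype.sum_bool]
    have hp : (0:ℝ) < 2^m := by positivity
    set B := ∑ i : Fin m, β i.succ ^ 2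
    have hB : 0 ≤ B := Finset.sum_nonneg (fun i _ => sq_nonneg _)
    have hpow : (2:ℝ)^(m+1) = 2^m * 2 := pow_succ _ _
    rw [hpow]
    have h5 : 0 ≤ (2:ℝ)^m * β 0 ^ 4 := by positivity
    have h6 : 3 * ((2:ℝ)^m * 2) * (β 0 ^ 2 + B)^2 =
      6 * (2^m * β 0 ^ 4) + 12 * (β 0 ^ 2 * (2^m * B)) + 2 * (3 * 2^m * B^2) := by ring
    rw [h6]
    linarith

/-- variance of a sum of independent copies -/
lemma var_sum {α : Type} [Fintype α] (f : α → ℝ) (hf : ∑ a, f a = 0) (K : ℕ) :
    (∑ z : Fin K → α, ∑ j, f (z j)) = 0 ∧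
    (Fintype.card α : ℝ) * ∑ z : Fin K → α, (∑ j, f (z j))^2 =
      K * (Fintype.card α : ℝ)^K * ∑ a, f a ^ 2 := by
  induction K with
  | zero => simp
  | succ K ih =>
    obtain ⟨h1, h2⟩ := ih
    have hc : ∀ (a : α) (z : Fin K → α),
        ∑ j : Fin (K+1), f ((Fin.cons a z : Fin (K+1) → α) j) = f a + ∑ j, f (z j) := by
      intro a z; simp [Fin.sum_univ_succ]
    constructor
    · rw [sum_cons]
      simp only [hc, Finset.sum_add_distrib, h1]
      simp only [Finset.sum_const, Finset.card_univ, nsmul_eq_mul, ← Finset.mul_sum, hf]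
      simp
    · rw [sum_cons]
      simp only [hc]
      have : ∀ a : α, ∑ z : Fin K → α, (f a + ∑ j, f (z j))^2 =
          (Fintype.card α : ℝ)^K * f a ^ 2 + ∑ z : Fin K → α, (∑ j, f (z j))^2 := by
        intro a
        have : ∀ z : Fin K → α, (f a + ∑ j, f (z j))^2 =
            f a ^ 2 + 2 * f a * (∑ j, f (z j)) + (∑ j, f (z j))^2 := fun z => by ring
        simp only [this, Finset.sum_add_distrib, ← Finset.mul_sum, h1]
        simp
      simp only [this, Finset.sum_add_distrib, ← Finset.mul_sum]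
      rw [Finset.sum_const, Finset.card_univ, nsmul_eq_mul, mul_add, h2]
      push_cast
      ring

/-- inner product of two sign vectors -/
def dot {m : ℕ} (u v : Z m) : ℝ := ∑ i, e (u i) * e (v i)

lemma dot_comm {m : ℕ} (u v : Z m) : dot u v = dot v u := by
  simp [dot, mul_comm]

lemma dot_self {m : ℕ} (u : Z m) : dot u u = m := by
  have : ∀ i, e (u i) * e (u i) = 1 := fun i => by rw [← pow_two, e_sq]
  simp [dot, this]

lemma sum_dot2 {m : ℕ} (v : Z m) : ∑ u : Z m, dot u v ^ 2 = 2^m * m := by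
  have : ∀ u : Z m, dot u v = RR (fun i => e (v i)) u := by
    intro u; simp [dot, RR, mul_comm]
  simp only [this, sum_RR2, e_sq]
  simp

/-- off diagonal energy -/
def WW {m K : ℕ} (z : Fin K → Z m) : ℝ := ∑ j, ∑ l, if j = l then 0 else dot (z j) (z l) ^ 2

lemma WW_cons {m K : ℕ} (u : Z m) (z : Fin K → Z m) :
    WW (Fin.cons u z : Fin (K+1) → Z m) = WW z + 2 * ∑ j, dot u (z j) ^ 2 := by
  simp only [WW, Fin.sum_univ_succ, Fin.cons_zero, Fin.cons_succ, if_true,
    Fin.succ_ne_zero, if_false, (Fin.succ_ne_zero _).symm, Fin.succ_inj]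
  simp only [Finset.sum_add_distrib]
  have : ∀ j : Fin K, dot (z j) u ^ 2 = dot u (z j) ^ 2 := fun j => by rw [dot_comm]
  simp only [this]
  ring

lemma sum_WW (m K : ℕ) : ∑ z : Fin K → Z m, WW z = K * (K - 1) * m * (2^m)^K := by
  induction K with
  | zero => simp [WW]
  | succ K ih =>
    rw [sum_cons]
    simp only [WW_cons, Finset.sum_add_distrib, ← Finset.mul_sum, ih]
    have h2 : ∑ u : Z m, ∑ z : Fin K → Z m, ∑ j, dot u (z j) ^ 2 = (2^m)^K * (K * (2^m * m)) := by
      rw [Finset.sum_comm]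
      have : ∀ z : Fin K → Z m, ∑ u : Z m, ∑ j, dot u (z j) ^ 2 = K * (2^m * m) := by
        intro z
        rw [Finset.sum_comm]
        simp only [sum_dot2]
        simp
      simp only [this]
      simp
    rw [h2]
    simp
    ring

lemma energy {m K : ℕ} (z : Fin K → Z m) (hm : 0 < m) (hW : WW z ≤ (m:ℝ)^2/4) (a : Fin K → ℝ) :
    (m:ℝ)/2 * ∑ j, a j ^ 2 ≤ ∑ i : Fin m, (∑ j, a j * e (z j i))^2 := by
  have h1 : ∑ i : Fin m, (∑ j, a j * e (z j i))^2 =
      ∑ j, ∑ l, a j * a l * dot (z j) (z l) := by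
    have : ∀ i, (∑ j, a j * e (z j i))^2 = ∑ j, ∑ l, a j * a l * (e (z j i) * e (z l i)) := by
      intro i
      rw [pow_two, Finset.sum_mul_sum]
      refine Finset.sum_congr rfl (fun j _ => Finset.sum_congr rfl (fun l _ => by ring))
    simp only [this, dot, Finset.mul_sum]
    rw [Finset.sum_comm]
    refine Finset.sum_congr rfl (fun j _ => ?_)
    rw [Finset.sum_comm]
  set off := ∑ j, ∑ l, if j = l then 0 else a j * a l * dot (z j) (z l) with hoff
  have h2 : ∑ j, ∑ l, a j * a l * dot (z j) (z l) = m * ∑ j, a j ^ 2 + off := by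
    rw [hoff, Finset.mul_sum, ← Finset.sum_add_distrib]
    refine Finset.sum_congr rfl (fun j _ => ?_)
    have : ∀ l, a j * a l * dot (z j) (z l) = (if j = l then (m:ℝ) * a j ^ 2 else 0) +
        if j = l then 0 else a j * a l * dot (z j) (z l) := by
      intro l
      by_cases h : j = l
      · subst h; rw [if_pos rfl, if_pos rfl, dot_self]; ring
      · rw [if_neg h, if_neg h]; ring
    conv_lhs => rw [Finset.sum_congr rfl (fun l _ => this l)]
    rw [Finset.sum_add_distrib, Finset.sum_ite_eq]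
    simp
  have h3 : off ^ 2 ≤ ((∑ j, a j ^ 2) * ((m:ℝ)/2))^2 := by
    have e1 : off = ∑ p : Fin K × Fin K, (a p.1 * a p.2) *
        (if p.1 = p.2 then 0 else dot (z p.1) (z p.2)) := by
      rw [hoff, Fintype.sum_prod_type]
      refine Finset.sum_congr rfl (fun j _ => Finset.sum_congr rfl (fun l _ => ?_))
      split_ifs <;> simp
    have e2 : ∑ p : Fin K × Fin K, (a p.1 * a p.2)^2 = (∑ j, a j ^ 2)^2 := by
      rw [Fintype.sum_prod_type, pow_two, Finset.sum_mul_sum]
      refine Finset.sum_congr rfl (fun j _ => Finset.sum_congr rfl (fun l _ => by ring))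
    have e3 : ∑ p : Fin K × Fin K, (if p.1 = p.2 then (0:ℝ) else dot (z p.1) (z p.2))^2 = WW z := by
      rw [Fintype.sum_prod_type, WW]
      refine Finset.sum_congr rfl (fun j _ => Finset.sum_congr rfl (fun l _ => ?_))
      split_ifs <;> simp
    have cs := Finset.sum_mul_sq_le_sq_mul_sq Finset.univ (fun p : Fin K × Fin K => a p.1 * a p.2)
      (fun p => if p.1 = p.2 then (0:ℝ) else dot (z p.1) (z p.2))
    rw [← e1, e2, e3] at cs
    refine cs.trans ?_
    rw [mul_pow]
    apply mul_le_mul_of_nonneg_left _ (sq_nonneg _)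
    rw [div_pow]; norm_num; linarith
  have hA : 0 ≤ ∑ j, a j ^ 2 := Finset.sum_nonneg (fun j _ => sq_nonneg _)
  have h4 : -((∑ j, a j ^ 2) * ((m:ℝ)/2)) ≤ off := by
    have := abs_le_of_sq_le_sq h3 (by positivity)
    exact (abs_le.1 this).1
  rw [h1, h2]
  linarith

end Pool.Agent.H9.MP082b65
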