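import Mathlib
import Pool.Agent.H9.MP082b65A

set_option autoImplicit false

namespace Pool.Agent.H9.MP082b65

open MeasureTheory Matrix

/-! ### the random matrix -/

noncomputable def cc (τ : ℝ) (K : ℕ) (j : Fin (K+1)) : ℝ :=
  if j = 0 then τ else Real.sqrt ((1 - τ^2) / K)

/-- unscaled sketch -/
noncomputable def Om0 (τ : ℝ) {m K : ℕ} (z : Fin (K+1) → Z m) :
    Matrix (Fin (m+1)) (Fin (K+1)) ℝ :=
  Matrix.of fun i j => Fin.cases (if j = 0 then (1:ℝ) else 0) (fun i' => cc τ K j * e (z j i')) i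

lemma Om0_zero (τ : ℝ) {m K : ℕ} (z : Fin (K+1) → Z m) (j : Fin (K+1)) :
    Om0 τ z 0 j = if j = 0 then (1:ℝ) else 0 := rfl

lemma Om0_succ (τ : ℝ) {m K : ℕ} (z : Fin (K+1) → Z m) (i : Fin m) (j : Fin (K+1)) :
    Om0 τ z i.succ j = cc τ K j * e (z j i) := rfl

/-- data matrix entries -/
noncomputable def aa (m : ℕ) (i : Fin (m+1)) : ℝ := if i = 0 then 1 else 1 / Real.sqrt m

noncomputable def AA (m : ℕ) : Matrix (Fin (m+1)) (Fin (m+1)) ℝ := Matrix.diagonal (aa m)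

lemma aa_succ (m : ℕ) (i : Fin m) : aa m i.succ ^ 2 = 1 / m := by
  unfold aa
  rw [if_neg (Fin.succ_ne_zero i), div_pow, Real.sq_sqrt (by positivity), one_pow]

lemma frob_sq {n d : ℕ} (M : Matrix (Fin n) (Fin d) ℝ) : frob M ^ 2 = ∑ i, ∑ j, M i j ^ 2 := by
  unfold frob
  rw [Real.sq_sqrt]
  exact Finset.sum_nonneg (fun i _ => Finset.sum_nonneg (fun j _ => sq_nonneg _))

lemma frob_nonneg {n d : ℕ} (M : Matrix (Fin n) (Fin d) ℝ) : 0 ≤ frob M := Real.sqrt_nonneg _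

/-- squared norm of `A Ω g` -/
lemma energy_M {m K : ℕ} (τ θ : ℝ) (z : Fin (K+1) → Z m) (hm : 0 < m)
    (hW : WW z ≤ (m:ℝ)^2/4) (g : Fin (K+1) → ℝ) (x : ℝ) :
    (x - θ * g 0)^2 + 1/2 * ∑ j, (cc τ K j * (θ * g j))^2 ≤
      (x - ∑ j, (AA m * (θ • Om0 τ z)) 0 j * g j)^2 +
      ∑ i : Fin m, (∑ j, (AA m * (θ • Om0 τ z)) i.succ j * g j)^2 := by
  have hmr : (0:ℝ) < m := by exact_mod_cast hm
  have h0 : ∑ j, (AA m * (θ • Om0 τ z)) 0 j * g j = θ * g 0 := by
    simp only [AA, Matrix.diagonal_mul, Matrix.smul_apply, Om0_zero, smul_eq_mul, aa, if_true]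
    simp
  have h1 : ∀ i : Fin m, (∑ j, (AA m * (θ • Om0 τ z)) i.succ j * g j)^2 =
      1/m * (∑ j, (cc τ K j * (θ * g j)) * e (z j i))^2 := by
    intro i
    have : ∑ j, (AA m * (θ • Om0 τ z)) i.succ j * g j =
        aa m i.succ * ∑ j, (cc τ K j * (θ * g j)) * e (z j i) := by
      rw [Finset.mul_sum]
      refine Finset.sum_congr rfl (fun j _ => ?_)
      simp only [AA, Matrix.diagonal_mul, Matrix.smul_apply, Om0_succ, smul_eq_mul]
      ring
    rw [this, mul_pow, aa_succ]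
  rw [h0]
  simp only [h1]
  rw [← Finset.mul_sum]
  have h2 := energy z hm hW (fun j => cc τ K j * (θ * g j))
  have h3 : 1/2 * ∑ j, (cc τ K j * (θ * g j))^2 ≤
      1/m * ∑ i : Fin m, (∑ j, (cc τ K j * (θ * g j)) * e (z j i))^2 := by
    rw [one_div, one_div, ← div_eq_inv_mul, ← div_eq_inv_mul, div_le_div_iff₀ (by norm_num) hmr]
    linarith
  linarith

lemma cc_pos (τ : ℝ) (K : ℕ) (hτ : 0 < τ) (hτ1 : τ < 1) (hK : 0 < K) (j : Fin (K+1)) :
    0 < cc τ K j := by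
  unfold cc
  split_ifs
  · exact hτ
  · apply Real.sqrt_pos.2
    apply div_pos
    · nlinarith
    · exact_mod_cast hK

/-- existence of the pseudoinverse -/
lemma exists_pinv {m K : ℕ} (τ θ : ℝ) (hτ : 0 < τ) (hτ1 : τ < 1) (hK : 0 < K) (hθ : 0 < θ)
    (z : Fin (K+1) → Z m) (hm : 0 < m) (hW : WW z ≤ (m:ℝ)^2/4) :
    ∃ P, IsPinv (AA m * (θ • Om0 τ z)) P := by
  set M := AA m * (θ • Om0 τ z) with hM
  have hinj : Function.Injective (Mᵀ * M).mulVec := by
    rw [← Matrix.coe_mulVecLin, injective_iff_map_eq_zero]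
    intro g hg
    rw [Matrix.coe_mulVecLin] at hg
    have h1 : M *ᵥ g = 0 := by
      have h2 : (M *ᵥ g) ⬝ᵥ (M *ᵥ g) = 0 := by
        have : (M *ᵥ g) ⬝ᵥ (M *ᵥ g) = g ⬝ᵥ ((Mᵀ * M) *ᵥ g) := by
          rw [← Matrix.mulVec_mulVec g Mᵀ M, Matrix.dotProduct_mulVec g Mᵀ, Matrix.vecMul_transpose]
        rw [this, hg, dotProduct_zero]
      exact dotProduct_self_eq_zero.1 h2
    have h3 := energy_M τ θ z hm hW g 0
    rw [← hM] at h3
    have h4 : ∀ i, ∑ j, M i j * g j = 0 := by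
      intro i
      have := congrFun h1 i
      simpa [Matrix.mulVec, dotProduct] using this
    simp only [h4] at h3
    simp only [sub_zero, zero_sub, neg_sq, ne_eq, OfNat.ofNat_ne_zero, not_false_eq_true, zero_pow,
      Finset.sum_const_zero, add_zero] at h3
    have h5 : ∑ j, (cc τ K j * (θ * g j))^2 ≤ 0 := by nlinarith [sq_nonneg (θ * g 0)]
    have h6 : ∑ j, (cc τ K j * (θ * g j))^2 = 0 :=
      le_antisymm h5 (Finset.sum_nonneg (fun j _ => sq_nonneg _))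
    rw [Finset.sum_eq_zero_iff_of_nonneg (fun j _ => sq_nonneg _)] at h6
    ext j
    have h7 := h6 j (Finset.mem_univ j)
    have h8 := cc_pos τ K hτ hτ1 hK j
    have h9 : cc τ K j * (θ * g j) = 0 := by
      rwa [pow_eq_zero_iff (by norm_num)] at h7
    rcases mul_eq_zero.1 h9 with h | h
    · exact absurd h h8.ne'
    · rcases mul_eq_zero.1 h with h | h
      · exact absurd h hθ.ne'
      · exact h
  have hu : IsUnit (Mᵀ * M) := Matrix.mulVec_injective_iff_isUnit.1 hinj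
  have hdet : IsUnit (Mᵀ * M).det := (Matrix.isUnit_iff_isUnit_det _).1 hu
  have hPM : (Mᵀ * M)⁻¹ * Mᵀ * M = 1 := by
    rw [Matrix.mul_assoc]; exact Matrix.nonsing_inv_mul _ hdet
  refine ⟨(Mᵀ * M)⁻¹ * Mᵀ, ?_, ?_, ?_, ?_⟩
  · rw [Matrix.mul_assoc M, hPM, Matrix.mul_one]
  · rw [hPM, Matrix.one_mul]
  · rw [Matrix.transpose_mul, Matrix.transpose_mul, Matrix.transpose_transpose,
      Matrix.transpose_nonsing_inv, Matrix.transpose_mul, Matrix.transpose_transpose,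
      Matrix.mul_assoc]
  · rw [hPM, Matrix.transpose_one]

/-- diagonal entries of a symmetric idempotent -/
lemma proj_diag {n : ℕ} (Q : Matrix (Fin n) (Fin n) ℝ) (h1 : Q * Q = Q) (h2 : Qᵀ = Q) (i : Fin n) :
    Q i i = ∑ j, Q j i ^ 2 := by
  conv_lhs => rw [← h1]
  rw [Matrix.mul_apply]
  refine Finset.sum_congr rfl (fun j _ => ?_)
  have : Q i j = Q j i := by
    conv_lhs => rw [← h2]
    rfl
  rw [this, pow_two]

lemma proj_diag_le {n : ℕ} (Q : Matrix (Fin n) (Fin n) ℝ) (h1 : Q * Q = Q) (h2 : Qᵀ = Q)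
    (i : Fin n) : 0 ≤ Q i i ∧ Q i i ≤ 1 := by
  have h3 := proj_diag Q h1 h2 i
  have h4 : 0 ≤ Q i i := by rw [h3]; exact Finset.sum_nonneg (fun j _ => sq_nonneg _)
  refine ⟨h4, ?_⟩
  have h5 : Q i i ^ 2 ≤ Q i i := by
    conv_rhs => rw [h3]
    exact Finset.single_le_sum (f := fun j => Q j i ^ 2) (fun j _ => sq_nonneg _) (Finset.mem_univ i)
  by_contra hc
  push Not at hc
  nlinarith

lemma err_lower {m K : ℕ} (τ θ : ℝ) (hτ : 0 < τ) (hτ1 : τ < 1)
    (z : Fin (K+1) → Z m) (hm : 0 < m) (hW : WW z ≤ (m:ℝ)^2/4)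
    (P : Matrix (Fin (K+1)) (Fin (m+1)) ℝ) (hP : IsPinv (AA m * (θ • Om0 τ z)) P) :
    1 + τ^2/4 - (K+1)/m ≤ frob (AA m - AA m * (θ • Om0 τ z) * P * AA m) ^ 2 := by
  set M := AA m * (θ • Om0 τ z) with hM
  obtain ⟨p1, p2, p3, p4⟩ := hP
  have hmr : (0:ℝ) < m := by exact_mod_cast hm
  set Q := M * P with hQ
  have q1 : Q * Q = Q := by rw [hQ, ← Matrix.mul_assoc, p1]
  have q2 : Qᵀ = Q := p3
  set Q' : Matrix (Fin (m+1)) (Fin (m+1)) ℝ := 1 - Q with hQ'
  have q1' : Q' * Q' = Q' := by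
    rw [hQ', Matrix.sub_mul, Matrix.mul_sub, Matrix.mul_sub, q1]; simp
  have q2' : Q'ᵀ = Q' := by rw [hQ', Matrix.transpose_sub, q2, Matrix.transpose_one]
  have hdiag := proj_diag Q' q1' q2'
  -- frobenius norm
  have hfr : frob (AA m - M * P * AA m) ^ 2 = ∑ j, aa m j ^ 2 * Q' j j := by
    rw [frob_sq, Finset.sum_comm]
    refine Finset.sum_congr rfl (fun j _ => ?_)
    rw [hdiag j, Finset.mul_sum]
    refine Finset.sum_congr rfl (fun i _ => ?_)
    have : AA m - M * P * AA m = Q' * AA m := by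
      rw [hQ', Matrix.sub_mul, Matrix.one_mul]
    rw [this]
    simp only [AA, Matrix.mul_diagonal]
    ring
  -- trace bound
  have r1 : (P * M) * (P * M) = P * M := by rw [← Matrix.mul_assoc, p2]
  have htr : ∑ j, Q j j ≤ K + 1 := by
    have h1 : Q.trace = (P * M).trace := by rw [hQ]; exact Matrix.trace_mul_comm _ _
    have h2 : (P * M).trace ≤ ∑ _j : Fin (K+1), (1:ℝ) := by
      rw [Matrix.trace]
      exact Finset.sum_le_sum (fun j _ => (proj_diag_le _ r1 p4 j).2)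
    rw [← h1, Matrix.trace] at h2
    simpa using h2
  have hQ00 : 0 ≤ Q 0 0 := (proj_diag_le Q q1 q2 0).1
  have hsum : ∑ j, aa m j ^ 2 * Q' j j = Q' 0 0 + 1/m * ∑ j : Fin m, Q' j.succ j.succ := by
    rw [Fin.sum_univ_succ, Finset.mul_sum]
    congr 1
    · simp [aa]
    · refine Finset.sum_congr rfl (fun j _ => by rw [aa_succ])
  have hsum2 : ∑ j : Fin m, Q' j.succ j.succ = m - ∑ j : Fin m, Q j.succ j.succ := by
    simp [hQ', Matrix.sub_apply, Finset.sum_sub_distrib]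
  have hsum3 : ∑ j : Fin m, Q j.succ j.succ ≤ K + 1 := by
    rw [Fin.sum_univ_succ] at htr
    linarith
  -- the entry Q' 0 0
  have h00 : τ^2/4 ≤ Q' 0 0 := by
    rw [hdiag 0, Fin.sum_univ_succ]
    have hg := energy_M τ θ z hm hW (fun j => P j 0) 1
    rw [← hM] at hg
    have e0 : Q' 0 0 = 1 - ∑ j, M 0 j * P j 0 := by
      simp [hQ', hQ, Matrix.sub_apply, Matrix.mul_apply]
    have e1 : ∀ i : Fin m, Q' i.succ 0 ^ 2 = (∑ j, M i.succ j * P j 0)^2 := by
      intro i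
      have : Q' i.succ 0 = - ∑ j, M i.succ j * P j 0 := by
        simp [hQ', hQ, Matrix.sub_apply, Matrix.mul_apply]
      rw [this, neg_sq]
    rw [e0]
    simp only [e1]
    refine le_trans ?_ hg
    have h1 : (τ * (θ * P 0 0))^2 ≤ ∑ j, (cc τ K j * (θ * P j 0))^2 := by
      have := Finset.single_le_sum (f := fun j => (cc τ K j * (θ * P j 0))^2)
        (fun j _ => sq_nonneg _) (Finset.mem_univ (0 : Fin (K+1)))
      simpa [cc] using this
    set t := θ * P 0 0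
    have h2 : τ^2/4 ≤ (1 - t)^2 + 1/2 * (τ * t)^2 := by
      have hτ2 : τ^2 < 1 := by nlinarith
      have hτ3 : 0 < τ^2 := by positivity
      have key : (1 + τ^2/2) * ((1 - t)^2 + 1/2 * (τ * t)^2) =
          τ^2/2 + ((1 + τ^2/2) * t - 1)^2 := by ring
      nlinarith [sq_nonneg ((1 + τ^2/2) * t - 1)]
    linarith
  rw [hfr, hsum, hsum2]
  have h5 : 1/(m:ℝ) * (m - ∑ j : Fin m, Q j.succ j.succ) =
      1 - (∑ j : Fin m, Q j.succ j.succ)/m := by field_simp
  rw [h5]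
  have h6 : (∑ j : Fin m, Q j.succ j.succ)/m ≤ (K+1)/m :=
    div_le_div_of_nonneg_right hsum3 hmr.le
  linarith

lemma bestErr_le (m : ℕ) (hm : 0 < m) : bestErr (AA m) 1 ≤ 1 := by
  have hmr : (0:ℝ) < m := by exact_mod_cast hm
  unfold bestErr
  apply csInf_le
  · refine ⟨0, ?_⟩
    rintro _ ⟨B, _, rfl⟩
    exact Real.sqrt_nonneg _
  · set E : Matrix (Fin (m+1)) (Fin (m+1)) ℝ := Matrix.vecMulVec (Pi.single 0 1) (Pi.single 0 1)
      with hE
    refine ⟨E, Matrix.rank_vecMulVec_le _ _, ?_⟩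
    symm
    unfold frob
    rw [Real.sqrt_eq_one]
    have h : ∀ i j : Fin (m+1), (AA m - E) i j ^ 2 =
        if i = j then (if i = 0 then 0 else (1:ℝ)/m) else 0 := by
      intro i j
      rw [Matrix.sub_apply, hE, Matrix.vecMulVec_apply, AA]
      by_cases hij : i = j
      · subst hij
        rw [Matrix.diagonal_apply_eq, if_pos rfl]
        refine Fin.cases ?_ (fun i' => ?_) i
        · simp [aa]
        · rw [if_neg (Fin.succ_ne_zero i')]
          rw [Pi.single_eq_of_ne (Fin.succ_ne_zero i'), mul_zero, sub_zero, aa_succ]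
      · rw [Matrix.diagonal_apply_ne _ hij, if_neg hij]
        by_cases hi : i = 0
        · subst hi
          rw [Pi.single_eq_of_ne (Ne.symm hij), mul_zero]; simp
        · rw [Pi.single_eq_of_ne hi, zero_mul]; simp
    simp only [h]
    simp only [Finset.sum_ite_eq, Finset.mem_univ, if_true]
    rw [Fin.sum_univ_succ]
    simp only [if_true, Fin.succ_ne_zero, if_false, Finset.sum_const, Finset.card_univ,
      Fintype.card_fin, nsmul_eq_mul]
    field_simp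
    ring

lemma bestErr_nonneg (m : ℕ) : 0 ≤ bestErr (AA m) 1 := by
  unfold bestErr
  apply Real.sInf_nonneg
  rintro _ ⟨B, _, rfl⟩
  exact Real.sqrt_nonneg _

end Pool.Agent.H9.MP082b65
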