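import Mathlib
import Pool.Agent.H9.MP082b65B

set_option autoImplicit false

namespace Pool.Agent.H9.MP082b65

open MeasureTheory Matrix

section wm
variable {S : Type} [Fintype S] [MeasurableSpace S] [MeasurableSingletonClass S]

noncomputable def wmu (w : S → ℝ) : Measure S := ∑ s, ENNReal.ofReal (w s) • Measure.dirac s

lemma wmu_apply (w : S → ℝ) (hw : ∀ s, 0 ≤ w s) (T : Set S) :
    wmu w T = ENNReal.ofReal (∑ s, T.indicator w s) := by
  unfold wmu
  rw [Measure.finsetSum_apply, ENNReal.ofReal_sum_of_nonneg]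
  · refine Finset.sum_congr rfl (fun s _ => ?_)
    rw [Measure.smul_apply, Measure.dirac_apply' _ (Set.toFinite T).measurableSet, smul_eq_mul]
    by_cases h : s ∈ T
    · rw [Set.indicator_of_mem h, Set.indicator_of_mem h]; simp
    · rw [Set.indicator_of_notMem h, Set.indicator_of_notMem h]; simp
  · intro s _
    exact Set.indicator_nonneg (fun s _ => hw s) s

lemma wmu_univ (w : S → ℝ) (hw : ∀ s, 0 ≤ w s) (h1 : ∑ s, w s = 1) : wmu w Set.univ = 1 := by
  rw [wmu_apply w hw]; simp [h1]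

lemma wmu_markov (w : S → ℝ) (hw : ∀ s, 0 ≤ w s) (h1 : ∑ s, w s = 1) (G : S → ℝ)
    (hG : ∀ s, 0 ≤ G s) (T : Set S) (hT : ∀ s, G s < 1 → s ∈ T) (δ : ℝ)
    (hδ : ∑ s, w s * G s ≤ δ) : ENNReal.ofReal (1 - δ) ≤ wmu w T := by
  rw [wmu_apply w hw]
  apply ENNReal.ofReal_le_ofReal
  have h2 : ∑ s, (w s - w s * G s) ≤ ∑ s, T.indicator w s := by
    apply Finset.sum_le_sum
    intro s _
    by_cases h : s ∈ T
    · rw [Set.indicator_of_mem h]
      have := mul_nonneg (hw s) (hG s); linarith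
    · rw [Set.indicator_of_notMem h]
      have : 1 ≤ G s := by
        by_contra hc
        exact h (hT s (not_le.1 hc))
      nlinarith [hw s]
  rw [Finset.sum_sub_distrib, h1] at h2
  linarith

lemma integral_wmu (w : S → ℝ) (hw : ∀ s, 0 ≤ w s) (h1 : ∑ s, w s = 1) (f : S → ℝ) :
    ∫ s, f s ∂(wmu w) = ∑ s, w s * f s := by
  have : IsFiniteMeasure (wmu w) := ⟨by rw [wmu_univ w hw h1]; exact ENNReal.one_lt_top⟩
  rw [integral_fintype (Integrable.of_finite)]
  refine Finset.sum_congr rfl (fun s _ => ?_)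
  rw [smul_eq_mul]
  congr 1
  unfold Measure.real
  rw [wmu_apply w hw, ENNReal.toReal_ofReal]
  · rw [Finset.sum_eq_single s]
    · simp
    · intro b _ hb; simp [hb]
    · intro h; exact absurd (Finset.mem_univ s) h
  · exact Finset.sum_nonneg (fun s _ => Set.indicator_nonneg (fun s _ => hw s) s)

end wm

abbrev Sp (m K : ℕ) := Bool × (Fin (K+1) → Z m)

noncomputable def wt (q : ℝ) (m K : ℕ) (s : Sp m K) : ℝ :=
  (if s.1 then 1 - q else q) / (2^m)^(K+1)

noncomputable def th (q : ℝ) (b : Bool) : ℝ :=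
  if b then Real.sqrt ((1 - q/2)/(1-q)) else Real.sqrt (1/2)

noncomputable def Om (τ q : ℝ) {m K : ℕ} (s : Sp m K) : Matrix (Fin (m+1)) (Fin (K+1)) ℝ :=
  th q s.1 • Om0 τ s.2

lemma wt_nonneg (q : ℝ) (h0 : 0 < q) (h1 : q < 1) (m K : ℕ) (s : Sp m K) : 0 ≤ wt q m K s := by
  unfold wt
  apply div_nonneg _ (by positivity)
  split_ifs <;> linarith

lemma sum_wt (q : ℝ) (m K : ℕ) (F : Bool → ℝ) (G : (Fin (K+1) → Z m) → ℝ) :
    ∑ s : Sp m K, wt q m K s * (F s.1 * G s.2) =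
      ((1-q) * F true + q * F false) * ((∑ z, G z) / (2^m)^(K+1)) := by
  rw [Fintype.sum_prod_type, Fintype.sum_bool]
  simp only [wt, if_true, Bool.false_eq_true, if_false]
  rw [add_mul, Finset.sum_div, Finset.mul_sum, Finset.mul_sum]
  congr 1
  · refine Finset.sum_congr rfl (fun z _ => by ring)
  · refine Finset.sum_congr rfl (fun z _ => by ring)

lemma card_zz (m K : ℕ) : (∑ _z : Fin (K+1) → Z m, (1:ℝ)) = (2^m)^(K+1) := by
  simp

lemma sum_wt_one (q : ℝ) (m K : ℕ) : ∑ s : Sp m K, wt q m K s = 1 := by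
  have := sum_wt q m K (fun _ => 1) (fun _ => 1)
  rw [card_zz, div_self (by positivity)] at this
  simpa using this

noncomputable def NN (τ : ℝ) {m K : ℕ} (x : Fin (m+1) → ℝ) (z : Fin (K+1) → Z m) : ℝ :=
  (x 0 + τ * RR (fun i => x i.succ) (z 0))^2 +
    ((1 - τ^2)/K) * ∑ j : Fin K, RR (fun i => x i.succ) (z j.succ) ^ 2

lemma sqn_Om (τ q : ℝ) (hτ : 0 < τ) (hτ1 : τ < 1) {m K : ℕ} (s : Sp m K) (x : Fin (m+1) → ℝ) :
    sqn ((Om τ q s)ᵀ *ᵥ x) = th q s.1 ^ 2 * NN τ x s.2 := by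
  have hj : ∀ j, ((Om τ q s)ᵀ *ᵥ x) j = th q s.1 * ((if j = 0 then x 0 else 0) +
      cc τ K j * RR (fun i => x i.succ) (s.2 j)) := by
    intro j
    simp only [Matrix.mulVec, dotProduct, Matrix.transpose_apply, Om, Matrix.smul_apply, smul_eq_mul]
    rw [Fin.sum_univ_succ, Om0_zero]
    simp only [Om0_succ, RR]
    rw [mul_add, Finset.mul_sum, Finset.mul_sum]
    congr 1
    · split_ifs <;> simp
    · refine Finset.sum_congr rfl (fun i _ => by ring)
  unfold sqn NN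
  simp only [hj]
  rw [Fin.sum_univ_succ]
  simp only [if_true, Fin.succ_ne_zero, if_false, zero_add, cc]
  have hsq : ∀ r : ℝ, (th q s.1 * (Real.sqrt ((1 - τ^2)/K) * r))^2 =
      th q s.1 ^ 2 * (((1 - τ^2)/K) * r^2) := by
    intro r
    rw [mul_pow, mul_pow, Real.sq_sqrt]
    apply div_nonneg
    · nlinarith
    · positivity
  simp only [hsq]
  rw [← Finset.mul_sum, ← Finset.mul_sum]
  ring

lemma sum_NN (τ : ℝ) {m K : ℕ} (hK : 0 < K) (x : Fin (m+1) → ℝ) :
    ∑ z : Fin (K+1) → Z m, NN τ x z = (2^m)^(K+1) * sqn x := by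
  have hKr : (0:ℝ) < K := by exact_mod_cast hK
  set β : Fin m → ℝ := fun i => x i.succ with hβ
  set B := ∑ i, β i ^ 2 with hB
  rw [sum_cons]
  have hc : ∀ (u : Z m) (z : Fin K → Z m), NN τ x (Fin.cons u z : Fin (K+1) → Z m) =
      (x 0 ^ 2 + 2 * x 0 * τ * RR β u + τ^2 * RR β u ^ 2) +
        ((1 - τ^2)/K) * ∑ j : Fin K, RR β (z j) ^ 2 := by
    intro u z
    simp only [NN, Fin.cons_zero, Fin.cons_succ, ← hβ]
    ring
  have hf : ∑ u : Z m, (RR β u ^ 2 - B) = 0 := by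
    rw [Finset.sum_sub_distrib, sum_RR2, ← hB]
    simp
  have hv := (var_sum (fun u : Z m => RR β u ^ 2 - B) hf K).1
  have hs : ∑ z : Fin K → Z m, ∑ j, RR β (z j) ^ 2 = K * B * (2^m)^K := by
    simp only [Finset.sum_sub_distrib] at hv
    simp only [Finset.sum_const, Finset.card_univ, nsmul_eq_mul, Fintype.card_fin] at hv
    have hcard : (Fintype.card (Fin K → Z m) : ℝ) = (2^m)^K := by simp
    rw [hcard] at hv
    linarith
  simp only [hc]
  have h1 : ∀ u : Z m, ∑ z : Fin K → Z m, ((x 0 ^ 2 + 2 * x 0 * τ * RR β u + τ^2 * RR β u ^ 2) +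
        ((1 - τ^2)/K) * ∑ j : Fin K, RR β (z j) ^ 2) =
      (2^m)^K * (x 0 ^ 2 + 2 * x 0 * τ * RR β u + τ^2 * RR β u ^ 2) +
        (1 - τ^2) * B * (2^m)^K := by
    intro u
    rw [Finset.sum_add_distrib, ← Finset.mul_sum, hs]
    simp only [Finset.sum_const, Finset.card_univ, nsmul_eq_mul]
    have hcard : (Fintype.card (Fin K → Z m) : ℝ) = (2^m)^K := by simp
    rw [hcard]
    field_simp
  simp only [h1]
  rw [Finset.sum_add_distrib, ← Finset.mul_sum]
  simp only [Finset.sum_add_distrib, ← Finset.mul_sum, sum_RR, sum_RR2]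
  simp only [Finset.sum_const, Finset.card_univ, nsmul_eq_mul, card_Z]
  have hsqn : sqn x = x 0 ^ 2 + B := by
    unfold sqn; rw [Fin.sum_univ_succ]
  rw [hsqn, pow_succ, ← hB]
  ring

lemma th_sq (q : ℝ) (h0 : 0 < q) (h1 : q < 1) :
    (1 - q) * th q true ^ 2 + q * th q false ^ 2 = 1 := by
  have h2 : th q true ^ 2 = (1 - q/2)/(1-q) := by
    unfold th; rw [if_pos rfl, Real.sq_sqrt]; apply div_nonneg <;> linarith
  have h3 : th q false ^ 2 = 1/2 := by
    unfold th; rw [if_neg (by simp), Real.sq_sqrt]; norm_num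
  have : 1 - q ≠ 0 := by linarith
  rw [h2, h3]; field_simp; ring

lemma th_pos (q : ℝ) (h0 : 0 < q) (h1 : q < 1) (b : Bool) : 0 < th q b := by
  unfold th
  split_ifs
  · apply Real.sqrt_pos.2; apply div_pos <;> linarith
  · apply Real.sqrt_pos.2; norm_num

/-- Markov function for injectivity -/
noncomputable def GG (δ ε : ℝ) {m K : ℕ} (x : Fin (m+1) → ℝ) (s : Sp m K) : ℝ :=
  (if s.1 then 0 else 1) +
  RR (fun i => x i.succ) (s.2 0) ^ 2 * (δ / (4 * ∑ i : Fin m, x i.succ ^ 2)) +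
  (∑ j : Fin K, (RR (fun i => x i.succ) (s.2 j.succ) ^ 2 - ∑ i : Fin m, x i.succ ^ 2))^2 /
    (K * (ε/2) * ∑ i : Fin m, x i.succ ^ 2)^2

lemma GG_nonneg (δ ε : ℝ) (hδ : 0 < δ) {m K : ℕ} (x : Fin (m+1) → ℝ) (s : Sp m K) :
    0 ≤ GG δ ε x s := by
  unfold GG
  have : 0 ≤ ∑ i : Fin m, x i.succ ^ 2 := Finset.sum_nonneg (fun i _ => sq_nonneg _)
  positivity

lemma sum_GG (δ ε : ℝ) (hδ : 0 < δ) (hδ1 : δ < 1) (hε : 0 < ε) {m K : ℕ} (hK : 0 < K)
    (hKε : 32 ≤ K * (δ * ε^2)) (x : Fin (m+1) → ℝ) :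
    ∑ s : Sp m K, wt (δ/2) m K s * GG δ ε x s ≤ δ := by
  have hKr : (0:ℝ) < K := by exact_mod_cast hK
  set β : Fin m → ℝ := fun i => x i.succ with hβ
  set B := ∑ i, β i ^ 2 with hB
  have hB0 : 0 ≤ B := Finset.sum_nonneg (fun i _ => sq_nonneg _)
  have hcard : (Fintype.card (Fin K → Z m) : ℝ) = (2^m)^K := by simp
  have h1 : ∑ s : Sp m K, wt (δ/2) m K s * (if s.1 then (0:ℝ) else 1) = δ/2 := by
    have := sum_wt (δ/2) m K (fun b => if b then (0:ℝ) else 1) (fun _ => 1)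
    rw [card_zz, div_self (by positivity)] at this
    simpa using this
  have h2 : ∑ s : Sp m K, wt (δ/2) m K s * (RR β (s.2 0) ^ 2 * (δ / (4*B))) ≤ δ/4 := by
    have := sum_wt (δ/2) m K (fun _ => 1) (fun z => RR β (z 0) ^ 2 * (δ / (4*B)))
    simp only [one_mul, mul_one] at this
    rw [this]
    have h3 : ∑ z : Fin (K+1) → Z m, RR β (z 0) ^ 2 * (δ/(4*B)) =
        (2^m)^(K+1) * (B * (δ/(4*B))) := by
      rw [← Finset.sum_mul, sum_cons]
      simp only [Fin.cons_zero, Finset.sum_const, Finset.card_univ, nsmul_eq_mul]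
      rw [← Finset.mul_sum, sum_RR2, hcard, pow_succ]
      ring
    rw [h3, mul_div_assoc, mul_comm ((2^m:ℝ)^(K+1)), div_mul_cancel₀ _ (by positivity)]
    have h4 : B * (δ/(4*B)) ≤ δ/4 := by
      rcases hB0.eq_or_lt with h | h
      · rw [← h]; simp; positivity
      · have : B * (δ/(4*B)) = δ/4 := by field_simp
        rw [this]
    have e : (1 - δ/2 + δ/2) = (1:ℝ) := by ring
    rw [e, one_mul]; exact h4
  have h3 : ∑ s : Sp m K, wt (δ/2) m K s * ((∑ j : Fin K, (RR β (s.2 j.succ) ^ 2 - B))^2 /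
      (K * (ε/2) * B)^2) ≤ δ/4 := by
    have := sum_wt (δ/2) m K (fun _ => 1) (fun z => (∑ j : Fin K, (RR β (z j.succ) ^ 2 - B))^2 /
      (K * (ε/2) * B)^2)
    simp only [one_mul, mul_one] at this
    rw [this]
    have e : (1 - δ/2 + δ/2) = (1:ℝ) := by ring
    rw [e, one_mul]
    have hf : ∑ u : Z m, (RR β u ^ 2 - B) = 0 := by
      rw [Finset.sum_sub_distrib, sum_RR2, ← hB]
      simp
    have hv := (var_sum (fun u : Z m => RR β u ^ 2 - B) hf K).2
    rw [card_Z] at hv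
    have h4 : ∑ u : Z m, (RR β u ^ 2 - B)^2 ≤ 2 * 2^m * B^2 := by
      have e1 : ∀ u : Z m, (RR β u ^ 2 - B)^2 = RR β u ^ 4 - 2 * B * RR β u ^ 2 + B^2 := by
        intro u; ring
      simp only [e1, Finset.sum_add_distrib, Finset.sum_sub_distrib, ← Finset.mul_sum, sum_RR2]
      have := sum_RR4 m β
      simp only [Finset.sum_const, Finset.card_univ, nsmul_eq_mul, card_Z]
      rw [← hB] at this ⊢
      nlinarith
    have h5 : ∑ z : Fin (K+1) → Z m, (∑ j : Fin K, (RR β (z j.succ) ^ 2 - B))^2 ≤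
        (2^m)^(K+1) * (2 * K * B^2) := by
      rw [sum_cons]
      simp only [Fin.cons_succ, Finset.sum_const, Finset.card_univ, nsmul_eq_mul, card_Z]
      rw [hv, pow_succ]
      have h6 : (K:ℝ) * (2^m)^K * ∑ u : Z m, (RR β u ^ 2 - B)^2 ≤
          K * (2^m)^K * (2 * 2^m * B^2) := mul_le_mul_of_nonneg_left h4 (by positivity)
      refine h6.trans (le_of_eq ?_)
      ring
    rcases hB0.eq_or_lt with h | h
    · rw [← h]; simp; positivity
    · rw [← Finset.sum_div, div_div, div_le_iff₀ (by positivity)]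
      refine h5.trans ?_
      have h8 : (2^m:ℝ)^(K+1) * (2 * K * B^2) ≤ (2^m)^(K+1) * (δ/4 * (K * (ε/2) * B)^2) := by
        apply mul_le_mul_of_nonneg_left _ (by positivity)
        have h9 : δ/4 * (K * (ε/2) * B)^2 = (K * (δ * ε^2)) * (K * B^2) / 16 := by ring
        rw [h9]
        have h10 : 32 * (K * B^2) ≤ (K * (δ * ε^2)) * (K * B^2) :=
          mul_le_mul_of_nonneg_right hKε (by positivity)
        linarith
      refine h8.trans (le_of_eq ?_)
      ring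
  have h4 : ∀ s : Sp m K, wt (δ/2) m K s * GG δ ε x s =
      wt (δ/2) m K s * (if s.1 then (0:ℝ) else 1) +
      wt (δ/2) m K s * (RR β (s.2 0) ^ 2 * (δ / (4*B))) +
      wt (δ/2) m K s * ((∑ j : Fin K, (RR β (s.2 j.succ) ^ 2 - B))^2 / (K * (ε/2) * B)^2) := by
    intro s; unfold GG; ring
  simp only [h4, Finset.sum_add_distrib]
  linarith

end Pool.Agent.H9.MP082b65
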