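import Mathlib
import Pool.Agent.H9.MP082b65C

set_option autoImplicit false

namespace Pool.Agent.H9.MP082b65

open MeasureTheory Matrix

lemma NN_lower (δ ε τ : ℝ) (hδ : 0 < δ) (hδ1 : δ < 1) (hε : 0 < ε) (hε1 : ε < 1)
    (hτ : τ = δ^2/64) {m K : ℕ} (hK : 0 < K) (x : Fin (m+1) → ℝ) (s : Sp m K)
    (hG : GG δ ε x s < 1) :
    s.1 = true ∧ (1 - δ/16 - ε/2) * sqn x ≤ NN τ x s.2 := by
  have hKr : (0:ℝ) < K := by exact_mod_cast hK
  set β : Fin m → ℝ := fun i => x i.succ with hβ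
  set B := ∑ i, β i ^ 2 with hB
  have hB0 : 0 ≤ B := Finset.sum_nonneg (fun i _ => sq_nonneg _)
  have hsqn : sqn x = x 0 ^ 2 + B := by unfold sqn; rw [Fin.sum_univ_succ]
  unfold GG at hG
  rw [← hβ, ← hB] at hG
  have p2 : 0 ≤ RR β (s.2 0) ^ 2 * (δ / (4 * B)) := by positivity
  have p3 : 0 ≤ (∑ j : Fin K, (RR β (s.2 j.succ) ^ 2 - B))^2 / (K * (ε/2) * B)^2 := by positivity
  have hs : s.1 = true := by
    by_contra h
    rw [if_neg h] at hG
    linarith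
  refine ⟨hs, ?_⟩
  rw [if_pos hs] at hG
  unfold NN
  rw [← hβ, hsqn]
  have hτ0 : 0 < τ := by rw [hτ]; positivity
  have hτ1 : τ < 1 := by rw [hτ]; nlinarith
  rcases hB0.eq_or_lt with h | h
  · -- B = 0
    have hβ0 : ∀ i, β i = 0 := by
      intro i
      have h0 : ∑ i, β i ^ 2 = 0 := by rw [← hB, ← h]
      rw [Finset.sum_eq_zero_iff_of_nonneg (fun j _ => sq_nonneg _)] at h0
      have := h0 i (Finset.mem_univ i)
      rwa [pow_eq_zero_iff (by norm_num)] at this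
    have hR : ∀ z : Z m, RR β z = 0 := by
      intro z; unfold RR; apply Finset.sum_eq_zero; intro i _; rw [hβ0]; ring
    rw [← h]
    simp only [hR]
    simp
    nlinarith [sq_nonneg (x 0)]
  · -- B > 0
    have h1 : RR β (s.2 0) ^ 2 * (δ / (4 * B)) < 1 := by linarith
    have h2 : (∑ j : Fin K, (RR β (s.2 j.succ) ^ 2 - B))^2 / (K * (ε/2) * B)^2 < 1 := by linarith
    have h1' : RR β (s.2 0) ^ 2 * δ < 4 * B := by
      rw [mul_div_assoc', div_lt_one (by positivity)] at h1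
      exact h1
    rw [div_lt_one (by positivity)] at h2
    have h3 := abs_lt_of_sq_lt_sq h2 (by positivity)
    have h4 := (abs_lt.1 h3).1
    rw [Finset.sum_sub_distrib] at h4
    simp only [Finset.sum_const, Finset.card_univ, nsmul_eq_mul, Fintype.card_fin] at h4
    have h5 : (1 - ε/2) * B ≤ (1/K) * ∑ j : Fin K, RR β (s.2 j.succ) ^ 2 := by
      rw [one_div, ← div_eq_inv_mul, le_div_iff₀ hKr]
      nlinarith
    have h6 : (1 - τ^2)/K * ∑ j : Fin K, RR β (s.2 j.succ) ^ 2 =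
      (1 - τ^2) * ((1/K) * ∑ j : Fin K, RR β (s.2 j.succ) ^ 2) := by ring
    rw [h6]
    have hτ2 : τ^2 ≤ δ/32 := by
      rw [hτ]
      have e1 : (δ^2/64)^2 = δ * (δ^3/4096) := by ring
      have e2 : δ^3 ≤ 1 := pow_le_one₀ hδ.le hδ1.le
      rw [e1]; nlinarith
    have h7 : (1 - τ^2) * ((1 - ε/2) * B) ≤
        (1 - τ^2) * ((1/K) * ∑ j : Fin K, RR β (s.2 j.succ) ^ 2) := by
      apply mul_le_mul_of_nonneg_left h5
      linarith
    set r := RR β (s.2 0) with hr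
    -- (x0 + τ r)^2 ≥ x0^2 - (δ/32) (x0^2 + B)
    have h8 : τ^2 * r^2 ≤ (δ/32)^2 * B := by
      have e1 : τ^2 * r^2 = (δ^3/4096) * (r^2 * δ) := by rw [hτ]; ring
      rw [e1]
      have e2 : (δ^3/4096) * (r^2 * δ) ≤ (δ^3/4096) * (4 * B) :=
        mul_le_mul_of_nonneg_left h1'.le (by positivity)
      have e3 : δ^3 ≤ δ^2 := by nlinarith [sq_nonneg δ]
      have e4 : (δ^3/4096) * (4 * B) ≤ (δ^2/1024) * B := by
        have := mul_le_mul_of_nonneg_right e3 h.le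
        linarith
      have e5 : (δ/32)^2 * B = (δ^2/1024) * B := by ring
      linarith
    have h9 : x 0 ^ 2 - (δ/32) * (x 0 ^ 2 + B) ≤ (x 0 + τ * r)^2 := by
      have e1 : 0 ≤ (δ/32) * (x 0 + (32/δ) * (τ * r))^2 := by positivity
      have e2 : (δ/32) * (x 0 + (32/δ) * (τ * r))^2 =
          (δ/32) * x 0 ^2 + 2 * x 0 * (τ * r) + (32/δ) * (τ^2 * r^2) := by
        field_simp; ring
      have e3 : (32/δ) * (τ^2 * r^2) ≤ (δ/32) * B := by
        have := mul_le_mul_of_nonneg_left h8 (by positivity : 0 ≤ 32/δ)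
        refine this.trans (le_of_eq ?_)
        field_simp
      have e4 : (x 0 + τ * r)^2 = x 0 ^ 2 + 2 * x 0 * (τ * r) + (τ * r)^2 := by ring
      have e5 := sq_nonneg (τ * r)
      rw [e2] at e1
      rw [e4]
      linarith
    have h10 : (1 - δ/32 - ε/2) * B ≤ (1 - τ^2) * ((1 - ε/2) * B) := by
      have e1 : 0 ≤ τ^2 * (ε/2) := by positivity
      have e2 : 1 - δ/32 - ε/2 ≤ (1 - τ^2) * (1 - ε/2) := by
        have : (1 - τ^2) * (1 - ε/2) = 1 - ε/2 - τ^2 + τ^2 * (ε/2) := by ring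
        rw [this]; linarith
      rw [← mul_assoc]
      exact mul_le_mul_of_nonneg_right e2 h.le
    have hx0 : 0 ≤ x 0 ^ 2 := sq_nonneg _
    have f1 : 0 ≤ ε * x 0 ^ 2 := mul_nonneg hε.le hx0
    have f2 : 0 ≤ δ * x 0 ^ 2 := mul_nonneg hδ.le hx0
    have f3 : (1 - δ/16 - ε/2) * (x 0 ^ 2 + B) = x 0 ^ 2 - (δ * x 0 ^ 2)/16 - (ε * x 0 ^ 2)/2 +
      ((1 - δ/32 - ε/2) * B) - δ/32 * B := by ring
    rw [f3]
    linarith

lemma sqn_lower (δ ε τ : ℝ) (hδ : 0 < δ) (hδ1 : δ < 1) (hε : 0 < ε) (hε1 : ε < 1)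
    (hτ : τ = δ^2/64) {m K : ℕ} (hK : 0 < K) (x : Fin (m+1) → ℝ) (s : Sp m K)
    (hG : GG δ ε x s < 1) :
    (1 - ε) * sqn x ≤ sqn ((Om τ (δ/2) s)ᵀ *ᵥ x) := by
  obtain ⟨hs, h1⟩ := NN_lower δ ε τ hδ hδ1 hε hε1 hτ hK x s hG
  have hτ0 : 0 < τ := by rw [hτ]; positivity
  have hτ1 : τ < 1 := by rw [hτ]; nlinarith
  rw [sqn_Om τ (δ/2) hτ0 hτ1, hs]
  have hx : 0 ≤ sqn x := Finset.sum_nonneg (fun i _ => sq_nonneg _)
  have h2 : th (δ/2) true ^ 2 = (1 - (δ/2)/2)/(1-(δ/2)) := by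
    unfold th; rw [if_pos rfl, Real.sq_sqrt]; apply div_nonneg <;> linarith
  have h3 : 1 + δ/4 ≤ th (δ/2) true ^ 2 := by
    rw [h2, le_div_iff₀ (by linarith)]; nlinarith
  have h4 : (1 + δ/4) * ((1 - δ/16 - ε/2) * sqn x) ≤ th (δ/2) true ^ 2 * NN τ x s.2 := by
    rcases le_or_gt 0 (1 - δ/16 - ε/2) with h | h
    · apply mul_le_mul h3 h1 (mul_nonneg h hx) (by positivity)
    · exfalso; linarith
  refine le_trans ?_ h4
  rw [← mul_assoc]
  apply mul_le_mul_of_nonneg_right _ hx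
  nlinarith

lemma isOSI_Om (δ ε τ : ℝ) (hδ : 0 < δ) (hδ1 : δ < 1) (hε : 0 < ε) (hε1 : ε < 1)
    (hτ : τ = δ^2/64) {m K : ℕ} (hK : 0 < K) (hKε : 32 ≤ K * (δ * ε^2)) :
    IsOSI (wmu (wt (δ/2) m K)) (fun s => Om (m := m) (K := K) τ (δ/2) s) 1 (1-ε) δ := by
  have hw : ∀ s : Sp m K, 0 ≤ wt (δ/2) m K s := wt_nonneg _ (by linarith) (by linarith) m K
  have h1 := sum_wt_one (δ/2) m K
  have hτ0 : 0 < τ := by rw [hτ]; positivity
  have hτ1 : τ < 1 := by rw [hτ]; nlinarith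
  have hfin : IsFiniteMeasure (wmu (wt (δ/2) m K)) :=
    ⟨by rw [wmu_univ _ hw h1]; exact ENNReal.one_lt_top⟩
  refine ⟨fun i j => measurable_of_finite _, fun x => Integrable.of_finite, fun x => ?_,
    fun V hV => ?_⟩
  · rw [integral_wmu _ hw h1]
    simp only [sqn_Om τ (δ/2) hτ0 hτ1]
    rw [sum_wt (δ/2) m K (fun b => th (δ/2) b ^ 2) (fun z => NN τ x z), sum_NN τ hK x,
      th_sq (δ/2) (by linarith) (by linarith), one_mul, mul_comm, mul_div_assoc,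
      div_self (by positivity), mul_one]
  · obtain ⟨v, hv0, hv⟩ := finrank_eq_one_iff'.1 hV
    refine wmu_markov _ hw h1 (GG δ ε (v : Fin (m+1) → ℝ)) (GG_nonneg δ ε hδ _) _ ?_ δ
      (sum_GG δ ε hδ hδ1 hε hK hKε _)
    intro s hs y hy
    have h2 := sqn_lower δ ε τ hδ hδ1 hε hε1 hτ hK (v : Fin (m+1) → ℝ) s hs
    obtain ⟨c, hc⟩ := hv ⟨y, hy⟩
    have hy' : y = c • (v : Fin (m+1) → ℝ) := by
      have := congrArg (Subtype.val) hc
      simpa using this.symm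
    rw [hy', Matrix.mulVec_smul]
    have hsm : ∀ {n : ℕ} (u : Fin n → ℝ), sqn (c • u) = c^2 * sqn u := by
      intro n u; simp [sqn, mul_pow, Finset.mul_sum]
    rw [hsm, hsm]
    nlinarith [sq_nonneg c]

theorem main (δ : ℝ) (hδ : 0 < δ) (hδ1 : δ < 1) (C c₀ : ℝ) (hc₀ : 0 < c₀) :
    ∃ (n d k : ℕ) (ε : ℝ) (A : Matrix (Fin n) (Fin d) ℝ)
      (S : Type) (_ : MeasurableSpace S) (μ : Measure S) (Om : S → Matrix (Fin d) (Fin k) ℝ),
      0 < n ∧ 0 < d ∧ 0 < k ∧ 0 < ε ∧ ε < 1 ∧ IsProbabilityMeasure μ ∧ IsOSI μ Om 1 (1 - ε) δ ∧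
      ENNReal.ofReal (1 - c₀) ≤ μ {s | ∃ P : Matrix (Fin k) (Fin n) ℝ, IsPinv (A * Om s) P ∧
        (1 + C * ε) * bestErr A 1 < frob (A - (A * Om s) * P * A)} := by
  set τ := δ^2/64 with hτ
  have hτ0 : 0 < τ := by rw [hτ]; positivity
  have hτ1 : τ < 1 := by rw [hτ]; nlinarith
  have hτ2 : τ^2 < 1 := by nlinarith
  set ε := τ^2/(32 * (|C|+1)) with hεd
  have hC := abs_nonneg C
  have hε : 0 < ε := by positivity
  have hεC : (|C| + 1) * ε = τ^2/32 := by rw [hεd]; field_simp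
  have hε1 : ε < 1 := by nlinarith
  obtain ⟨K, hK⟩ := exists_nat_gt (32/(δ * ε^2))
  have hKr : (0:ℝ) < K := lt_trans (by positivity) hK
  have hK0 : 0 < K := by exact_mod_cast hKr
  have hKε : 32 ≤ K * (δ * ε^2) := by
    rw [div_lt_iff₀ (by positivity)] at hK; exact hK.le
  obtain ⟨m, hm⟩ := exists_nat_gt (max ((K+1)/(τ^2/8)) (4*(K+1)*K/c₀))
  have hm1 : (K+1)/(τ^2/8) < m := lt_of_le_of_lt (le_max_left _ _) hm
  have hm2 : 4*(K+1)*K/c₀ < m := lt_of_le_of_lt (le_max_right _ _) hm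
  have hmr : (0:ℝ) < m := lt_of_le_of_lt (by positivity) hm1
  have hm0 : 0 < m := by exact_mod_cast hmr
  have hw : ∀ s : Sp m K, 0 ≤ wt (δ/2) m K s := wt_nonneg _ (by linarith) (by linarith) m K
  have h1 := sum_wt_one (δ/2) m K
  refine ⟨m+1, m+1, K+1, ε, AA m, Sp m K, inferInstance, wmu (wt (δ/2) m K),
    fun s => Om τ (δ/2) s, by omega, by omega, by omega, hε, hε1, ⟨wmu_univ _ hw h1⟩,
    isOSI_Om δ ε τ hδ hδ1 hε hε1 hτ hK0 hKε, ?_⟩
  refine wmu_markov _ hw h1 (fun s => WW s.2 / ((m:ℝ)^2/4)) (fun s => ?_) _ ?_ c₀ ?_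
  · apply div_nonneg _ (by positivity)
    unfold WW
    exact Finset.sum_nonneg (fun j _ => Finset.sum_nonneg (fun l _ => by split_ifs <;> positivity))
  · intro s hs
    have hW : WW s.2 ≤ (m:ℝ)^2/4 := by
      rw [div_lt_one (by positivity)] at hs; exact hs.le
    obtain ⟨P, hP⟩ := exists_pinv τ (th (δ/2) s.1) hτ0 hτ1 hK0
      (th_pos (δ/2) (by linarith) (by linarith) s.1) s.2 hm0 hW
    refine ⟨P, hP, ?_⟩
    have h2 := err_lower τ (th (δ/2) s.1) hτ0 hτ1 s.2 hm0 hW P hP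
    have h3 : (K+1)/(m:ℝ) < τ^2/8 := by
      rw [div_lt_iff₀ (by positivity)] at hm1
      rw [div_lt_iff₀ hmr]; linarith
    have h4 : 1 + τ^2/8 < frob (AA m - AA m * (th (δ/2) s.1 • Om0 τ s.2) * P * AA m) ^ 2 := by
      linarith
    have h5 : (1 + C * ε) * bestErr (AA m) 1 ≤ 1 + τ^2/32 := by
      have b1 := bestErr_le m hm0
      have b2 := bestErr_nonneg m
      have b3 : 1 + C * ε ≤ 1 + τ^2/32 := by
        have : C * ε ≤ (|C| + 1) * ε := mul_le_mul_of_nonneg_right (by linarith [le_abs_self C]) hε.le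
        linarith
      have b4 : 0 ≤ 1 + τ^2/32 := by positivity
      nlinarith
    have h6 : (1 + τ^2/32)^2 < 1 + τ^2/8 := by nlinarith [sq_nonneg τ]
    have h7 := frob_nonneg (AA m - AA m * (th (δ/2) s.1 • Om0 τ s.2) * P * AA m)
    show (1 + C * ε) * bestErr (AA m) 1 < frob (AA m - AA m * (th (δ/2) s.1 • Om0 τ s.2) * P * AA m)
    by_contra hc
    push Not at hc
    have h8 : frob (AA m - AA m * (th (δ/2) s.1 • Om0 τ s.2) * P * AA m) ≤ 1 + τ^2/32 := hc.trans h5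
    have h9 := pow_le_pow_left₀ h7 h8 2
    linarith
  · have h2 := sum_wt (δ/2) m K (fun _ => 1) (fun z => WW z / ((m:ℝ)^2/4))
    simp only [one_mul, mul_one] at h2
    rw [h2, ← Finset.sum_div, sum_WW]
    have e : (1 - δ/2 + δ/2) = (1:ℝ) := by ring
    rw [e, one_mul]
    have h3 : ((K+1 : ℕ):ℝ) * (((K+1 : ℕ):ℝ) - 1) * m * (2^m)^(K+1) / ((m:ℝ)^2/4) / (2^m)^(K+1) =
        4*(K+1)*K/m := by
      push_cast; field_simp; ring
    rw [h3, div_le_iff₀ hmr]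
    rw [div_lt_iff₀ hc₀] at hm2
    linarith

end Pool.Agent.H9.MP082b65
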