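import Mathlib

set_option autoImplicit false

namespace Pool.Agent.H9.MP4ec73f

/-- A Boolean algebra of sets of reals: contains `∅` and `ℝ` and is closed under finite unions
and complements relative to `ℝ`. -/
structure IsAlgebraOfSets (B : Set (Set ℝ)) : Prop where
  empty_mem : ∅ ∈ B
  univ_mem : Set.univ ∈ B
  union_mem : ∀ s ∈ B, ∀ t ∈ B, s ∪ t ∈ B
  compl_mem : ∀ s ∈ B, sᶜ ∈ B

/-- Isomorphism as abstract Boolean algebras: a bijection from `B` onto `C` preserving unions,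
intersections and complements. -/
def Isomorphic (B C : Set (Set ℝ)) : Prop :=
  ∃ f : Set ℝ → Set ℝ, Set.BijOn f B C ∧ (∀ s ∈ B, ∀ t ∈ B, f (s ∪ t) = f s ∪ f t) ∧
    (∀ s ∈ B, ∀ t ∈ B, f (s ∩ t) = f s ∩ f t) ∧ ∀ s ∈ B, f sᶜ = (f s)ᶜ

end Pool.Agent.H9.MP4ec73f
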