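import Mathlib
import Pool.Agent.H9.MP4ec73fDefs

set_option autoImplicit false

namespace Pool.Agent.H9.MP4ec73f

open Set Cardinal

open scoped Classical in
/-- Hausdorff's independent family on `Finset ℝ × Finset (Finset ℝ)` -/
noncomputable def H (A : Set ℝ) : Set (Finset ℝ × Finset (Finset ℝ)) :=
  {x | x.1.filter (fun r => r ∈ A) ∈ x.2}

theorem exists_equiv : Nonempty (ℝ ≃ Finset ℝ × Finset (Finset ℝ)) := by
  apply Cardinal.eq.1
  rw [Cardinal.mk_prod, Cardinal.lift_id, Cardinal.lift_id, Cardinal.mk_finset_of_infinite,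
    Cardinal.mk_finset_of_infinite, Cardinal.mk_finset_of_infinite]
  exact (Cardinal.mul_eq_self (Cardinal.aleph0_le_mk ℝ)).symm

noncomputable def e : ℝ ≃ Finset ℝ × Finset (Finset ℝ) := exists_equiv.some

noncomputable def X (A : Set ℝ) : Set ℝ := e ⁻¹' (H A)

/-- the algebra attached to a family `T` of sets of reals -/
def Alg (T : Set (Set ℝ)) : Set (Set ℝ) :=
  {D | ∃ T0 : Set (Set ℝ), T0.Finite ∧ T0 ⊆ T ∧ ∃ E : Set ℝ, E.Finite ∧
    ∀ x, x ∉ E → ∀ y, y ∉ E → (∀ A ∈ T0, x ∈ X A ↔ y ∈ X A) → (x ∈ D ↔ y ∈ D)}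

theorem alg_isAlg (T : Set (Set ℝ)) : IsAlgebraOfSets (Alg T) where
  empty_mem := ⟨∅, finite_empty, empty_subset _, ∅, finite_empty, fun _ _ _ _ _ => Iff.rfl⟩
  univ_mem := ⟨∅, finite_empty, empty_subset _, ∅, finite_empty, fun x _ y _ _ => by simp⟩
  union_mem := by
    rintro s ⟨T0, hT0, hT0s, E, hE, h⟩ t ⟨T1, hT1, hT1s, E', hE', h'⟩
    refine ⟨T0 ∪ T1, hT0.union hT1, union_subset hT0s hT1s, E ∪ E', hE.union hE', ?_⟩
    intro x hx y hy hxy
    have h1 := h x (fun hh => hx (Or.inl hh)) y (fun hh => hy (Or.inl hh))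
      (fun A hA => hxy A (Or.inl hA))
    have h2 := h' x (fun hh => hx (Or.inr hh)) y (fun hh => hy (Or.inr hh))
      (fun A hA => hxy A (Or.inr hA))
    rw [mem_union, mem_union, h1, h2]
  compl_mem := by
    rintro s ⟨T0, hT0, hT0s, E, hE, h⟩
    refine ⟨T0, hT0, hT0s, E, hE, ?_⟩
    intro x hx y hy hxy
    rw [mem_compl_iff, mem_compl_iff, h x hx y hy hxy]

theorem singleton_mem (T : Set (Set ℝ)) (x : ℝ) : {x} ∈ Alg T := by
  refine ⟨∅, finite_empty, empty_subset _, {x}, finite_singleton _, ?_⟩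
  intro y hy z hz _
  exact ⟨fun h => absurd h hy, fun h => absurd h hz⟩

theorem X_mem (T : Set (Set ℝ)) (A : Set ℝ) (hA : A ∈ T) : X A ∈ Alg T := by
  refine ⟨{A}, finite_singleton _, singleton_subset_iff.2 hA, ∅, finite_empty, ?_⟩
  intro x _ y _ h
  exact h A (mem_singleton A)

open scoped Classical in
theorem X_notMem (T : Set (Set ℝ)) (A : Set ℝ) (hA : A ∉ T) : X A ∉ Alg T := by
  rintro ⟨T0, hT0, hT0s, E, hE, h⟩
  -- a finite set distinguishing `A` from the members of `T0`
  have hdist : ∀ B ∈ T0, ∃ r : ℝ, ¬ (r ∈ A ↔ r ∈ B) := by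
    intro B hB
    by_contra hcon
    push Not at hcon
    exact hA ((Set.ext hcon) ▸ hT0s hB)
  choose! r hr using hdist
  have hrfin : (r '' T0).Finite := hT0.image r
  set F0 : Finset ℝ := hrfin.toFinset with hF0
  -- infinitely many finite sets containing `F0`
  have hE' : (Prod.fst '' (e '' E)).Finite := (hE.image e).image _
  have hinf : ({F : Finset ℝ | F0 ⊆ F}).Infinite := by
    intro hfin
    have h1 : (Set.range (fun s : ℝ => insert s F0)).Finite := by
      apply hfin.subset
      rintro _ ⟨s, rfl⟩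
      exact Finset.subset_insert _ _
    have h2 : ({s : ℝ | s ∉ F0}).Finite := by
      apply Set.Finite.of_finite_image (f := fun s : ℝ => insert s F0)
      · exact h1.subset (image_subset_range _ _)
      · intro s hs t ht hst
        have hs' : s ∈ insert t F0 := by
          have : s ∈ insert s F0 := Finset.mem_insert_self _ _
          have hst' : insert s F0 = insert t F0 := hst
          rwa [hst'] at this
        rcases Finset.mem_insert.1 hs' with h | h
        · exact h
        · exact absurd h hs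
    have h3 : (univ : Set ℝ).Finite := by
      have : (univ : Set ℝ) = {s : ℝ | s ∉ F0} ∪ ↑F0 := by
        ext s; simp [em']
      rw [this]
      exact h2.union F0.finite_toSet
    exact Set.infinite_univ h3
  obtain ⟨F, hF, hFE⟩ := hinf.exists_notMem_finite hE'
  have hnot : ∀ 𝒜 : Finset (Finset ℝ), e.symm (F, 𝒜) ∉ E := by
    intro 𝒜 hmem
    apply hFE
    exact ⟨(F, 𝒜), ⟨e.symm (F, 𝒜), hmem, by simp⟩, rfl⟩
  have hxA : ∀ (B : Set ℝ) (𝒜 : Finset (Finset ℝ)),
      e.symm (F, 𝒜) ∈ X B ↔ F.filter (fun s => s ∈ B) ∈ 𝒜 := by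
    intro B 𝒜
    simp [X, H]
  have h4 := h (e.symm (F, {F.filter (fun s => s ∈ A)})) (hnot _) (e.symm (F, ∅)) (hnot _) (by
    intro B hB
    rw [hxA, hxA, Finset.mem_singleton]
    constructor
    · intro hh
      exfalso
      have hrB : r B ∈ F := hF (by
        rw [hF0, Set.Finite.mem_toFinset]
        exact mem_image_of_mem r hB)
      have := hr B hB
      apply this
      have h5 : r B ∈ F.filter (fun s => s ∈ B) ↔ r B ∈ F.filter (fun s => s ∈ A) := by
        rw [hh]
      rw [Finset.mem_filter, Finset.mem_filter] at h5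
      simp only [hrB, true_and] at h5
      exact h5.symm
    · intro hh
      exact absurd hh (Finset.notMem_empty _))
  rw [hxA, hxA] at h4
  have := h4.1 (Finset.mem_singleton_self _)
  exact Finset.notMem_empty _ this

theorem alg_injective : Function.Injective Alg := by
  intro T U h
  ext A
  constructor
  · intro hA
    by_contra hU
    exact X_notMem U A hU (h ▸ X_mem T A hA)
  · intro hA
    by_contra hT
    exact X_notMem T A hT (h.symm ▸ X_mem U A hA)

/-- isomorphisms are induced by permutations -/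
theorem iso_perm (T U : Set (Set ℝ)) (h : Isomorphic (Alg T) (Alg U)) :
    ∃ π : Equiv.Perm ℝ, Alg U = Set.image (Set.image π) (Alg T) := by
  obtain ⟨f, hbij, hun, hint, hcompl⟩ := h
  have hemp : f ∅ = ∅ := by
    have h1 := hint ∅ (alg_isAlg T).empty_mem _ ((alg_isAlg T).compl_mem _ (alg_isAlg T).empty_mem)
    rw [hcompl _ (alg_isAlg T).empty_mem] at h1
    simpa using h1
  have hne : ∀ s ∈ Alg T, s.Nonempty → (f s).Nonempty := by
    intro s hs hsne
    rw [nonempty_iff_ne_empty]
    intro h0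
    rw [← hemp] at h0
    have := hbij.injOn hs (alg_isAlg T).empty_mem h0
    exact hsne.ne_empty this
  have hinter : ∀ s ∈ Alg T, ∀ t ∈ Alg T, s ∩ t ∈ Alg T := by
    intro s hs t ht
    have h1 := (alg_isAlg T).compl_mem _ ((alg_isAlg T).union_mem _
      ((alg_isAlg T).compl_mem _ hs) _ ((alg_isAlg T).compl_mem _ ht))
    rwa [compl_union, compl_compl, compl_compl] at h1
  have hsing : ∀ x : ℝ, ∃ y : ℝ, f {x} = {y} := by
    intro x
    obtain ⟨y, hy⟩ := hne _ (singleton_mem T x) (singleton_nonempty x)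
    refine ⟨y, ?_⟩
    obtain ⟨t, ht, hft⟩ := hbij.surjOn (singleton_mem U y)
    have h1 := hint t ht _ (singleton_mem T x)
    rw [hft, inter_eq_left.2 (singleton_subset_iff.2 hy), ← hft] at h1
    have h2 := hbij.injOn (hinter t ht _ (singleton_mem T x)) ht h1
    have h3 : t ⊆ {x} := inter_eq_left.1 h2
    rcases subset_singleton_iff_eq.1 h3 with h4 | h4
    · rw [h4, hemp] at hft
      exact absurd hft.symm (singleton_nonempty y).ne_empty
    · rw [← h4, hft]
  choose π hπ using hsing
  have hπinj : Function.Injective π := by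
    intro x y hxy
    have h1 : f {x} = f {y} := by rw [hπ, hπ, hxy]
    have h2 := hbij.injOn (singleton_mem T x) (singleton_mem T y) h1
    exact singleton_injective h2
  have hπsurj : Function.Surjective π := by
    intro y
    obtain ⟨t, ht, hft⟩ := hbij.surjOn (singleton_mem U y)
    have htne : t.Nonempty := by
      rw [nonempty_iff_ne_empty]
      intro h0
      rw [h0, hemp] at hft
      exact (singleton_nonempty y).ne_empty hft.symm
    obtain ⟨x, hx⟩ := htne
    refine ⟨x, ?_⟩
    have h1 := hint _ (singleton_mem T x) t ht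
    rw [inter_eq_left.2 (singleton_subset_iff.2 hx), hft, hπ] at h1
    have h2 : ({π x} : Set ℝ) ⊆ {y} := by
      have := inter_eq_left.1 h1.symm
      exact this
    exact singleton_subset_singleton.1 h2
  have himg : ∀ D ∈ Alg T, f D = π '' D := by
    intro D hD
    have h1 : ∀ x, π x ∈ f D ↔ x ∈ D := by
      intro x
      have h2 := hint D hD _ (singleton_mem T x)
      rw [hπ] at h2
      constructor
      · intro hx
        by_contra hxD
        have h3 : D ∩ {x} = ∅ := by
          ext z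
          simp only [mem_inter_iff, mem_singleton_iff, mem_empty_iff_false, iff_false, not_and]
          rintro hz rfl
          exact hxD hz
        rw [h3, hemp] at h2
        have : π x ∈ f D ∩ {π x} := ⟨hx, rfl⟩
        rw [← h2] at this
        exact this
      · intro hx
        have h3 : D ∩ {x} = {x} := inter_eq_right.2 (singleton_subset_iff.2 hx)
        rw [h3, hπ] at h2
        have : π x ∈ ({π x} : Set ℝ) := rfl
        rw [h2] at this
        exact this.1
    ext y
    obtain ⟨x, rfl⟩ := hπsurj y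
    rw [h1, hπinj.mem_set_image]
  refine ⟨Equiv.ofBijective π ⟨hπinj, hπsurj⟩, ?_⟩
  ext D
  constructor
  · intro hD
    obtain ⟨t, ht, hft⟩ := hbij.surjOn hD
    refine ⟨t, ht, ?_⟩
    rw [← hft, himg t ht]
    rfl
  · rintro ⟨t, ht, rfl⟩
    have h1 := hbij.mapsTo ht
    rw [himg t ht] at h1
    exact h1

/-- families of sets whose algebras differ by a permutation of the line -/
def permSetoid : Setoid (Set (Set ℝ)) where
  r T U := ∃ π : Equiv.Perm ℝ, Alg U = Set.image (Set.image π) (Alg T)
  iseqv := by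
    constructor
    · intro T
      refine ⟨1, ?_⟩
      simp
    · rintro T U ⟨π, h⟩
      refine ⟨π⁻¹, ?_⟩
      rw [h, image_image]
      simp [image_image]
    · rintro T U W ⟨π, h⟩ ⟨ρ, h'⟩
      refine ⟨ρ * π, ?_⟩
      rw [h', h, image_image]
      simp [image_image]

theorem main : ∃ 𝓕 : Set (Set (Set ℝ)), #𝓕 = (2 : Cardinal) ^ ((2 : Cardinal) ^ 𝔠) ∧ (∀ B ∈ 𝓕, IsAlgebraOfSets B) ∧
    ∀ B ∈ 𝓕, ∀ C ∈ 𝓕, B ≠ C → ¬ Isomorphic B C := by
  have hJ : #(Set (Set ℝ)) = (2 : Cardinal) ^ ((2 : Cardinal) ^ 𝔠) := by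
    rw [Cardinal.mk_set, Cardinal.mk_set, Cardinal.mk_real]
  set Qt := Quotient permSetoid with hQt
  -- choose permutations
  have hch : ∀ T : Set (Set ℝ), ∃ π : Equiv.Perm ℝ,
      Alg T = Set.image (Set.image π) (Alg (Quotient.out (Quotient.mk permSetoid T))) := by
    intro T
    exact Quotient.exact (Quotient.out_eq (Quotient.mk permSetoid T))
  choose π hπ using hch
  have hinj : Function.Injective (fun T : Set (Set ℝ) => ((Quotient.mk permSetoid T : Qt), π T)) := by
    intro T U h
    have h1 : Quotient.mk permSetoid T = Quotient.mk permSetoid U := congrArg Prod.fst h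
    have h2 : π T = π U := congrArg Prod.snd h
    apply alg_injective
    rw [hπ T, hπ U, h1, h2]
  have hle := Cardinal.mk_le_of_injective hinj
  rw [hJ, Cardinal.mk_prod, Cardinal.lift_id, Cardinal.lift_id] at hle
  have hperm : #(Equiv.Perm ℝ) = (2 : Cardinal) ^ 𝔠 := by
    rw [Cardinal.mk_perm_eq_two_power, Cardinal.mk_real]
  rw [hperm] at hle
  have hcl : (2 : Cardinal) ^ 𝔠 < (2 : Cardinal) ^ ((2 : Cardinal) ^ 𝔠) := Cardinal.cantor _
  have hQ : (2 : Cardinal) ^ ((2 : Cardinal) ^ 𝔠) ≤ #Qt := by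
    by_contra hlt
    push Not at hlt
    have h1 : (ℵ₀ : Cardinal) ≤ (2 : Cardinal) ^ ((2 : Cardinal) ^ 𝔠) := by
      refine le_trans ?_ (Cardinal.cantor _).le
      exact le_trans Cardinal.aleph0_le_continuum (Cardinal.cantor _).le
    have h2 := Cardinal.mul_lt_of_lt h1 hlt hcl
    exact absurd hle (not_le.2 h2)
  have hinj2 : Function.Injective (fun q : Qt => Alg (Quotient.out q)) := by
    intro p q h
    have h1 := alg_injective h
    rw [← Quotient.out_eq p, ← Quotient.out_eq q]
    exact congrArg _ h1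
  refine ⟨Set.range (fun q : Qt => Alg (Quotient.out q)), ?_, ?_, ?_⟩
  · rw [Cardinal.mk_range_eq _ hinj2]
    apply le_antisymm _ hQ
    rw [← hJ]
    exact Cardinal.mk_quotient_le
  · rintro _ ⟨q, rfl⟩
    exact alg_isAlg _
  · rintro _ ⟨p, rfl⟩ _ ⟨q, rfl⟩ hne hiso
    apply hne
    have h1 := iso_perm _ _ hiso
    have h2 : Quotient.mk permSetoid (Quotient.out p) = Quotient.mk permSetoid (Quotient.out q) :=
      Quotient.sound h1
    rw [Quotient.out_eq, Quotient.out_eq] at h2
    rw [h2]

end Pool.Agent.H9.MP4ec73f
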