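import Mathlib

set_option autoImplicit false

namespace Pool.Agent.H9.MP76760e

/-- Positivity in the C*-algebra of square matrices over `A`: being of the form `B* B`. -/
def IsPos {A : Type*} [NonUnitalRing A] [StarRing A] {ι : Type*} [Fintype ι]
    (M : Matrix ι ι A) : Prop :=
  ∃ B : Matrix ι ι A, M = B.conjTranspose * B

/-- The multilevel Toeplitz matrix `[a_{i-j}]` indexed by a finite set of `ℤ²`. -/
def toep {A : Type*} (S : Finset (ℤ × ℤ)) (a : ℤ × ℤ → A) : Matrix S S A :=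
  Matrix.of fun i j => a (i.1 - j.1)

/-- The `A`-extension property of a finite subset of `ℤ²`. -/
def HasExt (A : Type*) [NonUnitalRing A] [StarRing A] (S : Finset (ℤ × ℤ)) : Prop :=
  ∀ a : ℤ × ℤ → A, IsPos (toep S a) → ∀ K : Finset (ℤ × ℤ), S ⊆ K →
    ∃ b : ℤ × ℤ → A, (∀ i ∈ S, ∀ j ∈ S, b (i - j) = a (i - j)) ∧ IsPos (toep K b)

end Pool.Agent.H9.MP76760e
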