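import Mathlib
import Pool.Agent.H9.MP76760eDefs

set_option autoImplicit false
open Matrix ComplexConjugate
open scoped ComplexOrder MatrixOrder

namespace Pool.Agent.H9.MP76760e

/-- real three-vector solution of two linear equations, normalised -/
theorem solve_two (a1 b1 c1 a2 b2 c2 : ℝ) : ∃ n3 : ℝ, ∃ z : ℂ, 0 ≤ n3 ∧ n3 ^ 2 + ‖z‖ ^ 2 = 1 ∧
    n3 * a1 + (z * (⟨b1, c1⟩ : ℂ)).re = 0 ∧ n3 * a2 + (z * (⟨b2, c2⟩ : ℂ)).re = 0 := by
  have hdet : (!![a1, b1, -c1; a2, b2, -c2; 0, 0, 0] : Matrix (Fin 3) (Fin 3) ℝ).det = 0 := by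
    rw [Matrix.det_fin_three]
    simp
  obtain ⟨v, hv, hv0⟩ := Matrix.exists_mulVec_eq_zero_iff.2 hdet
  have h1 := congrFun hv0 0
  have h2 := congrFun hv0 1
  simp [Matrix.mulVec, dotProduct, Fin.sum_univ_three] at h1 h2
  set N := Real.sqrt (v 0 ^ 2 + v 1 ^ 2 + v 2 ^ 2) with hN
  have hpos : 0 < v 0 ^ 2 + v 1 ^ 2 + v 2 ^ 2 := by
    by_contra hle
    push Not at hle
    have q0 : v 0 = 0 := by nlinarith [sq_nonneg (v 0), sq_nonneg (v 1), sq_nonneg (v 2)]
    have q1 : v 1 = 0 := by nlinarith [sq_nonneg (v 0), sq_nonneg (v 1), sq_nonneg (v 2)]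
    have q2 : v 2 = 0 := by nlinarith [sq_nonneg (v 0), sq_nonneg (v 1), sq_nonneg (v 2)]
    apply hv
    funext i
    fin_cases i
    · exact q0
    · exact q1
    · exact q2
  have hNpos : 0 < N := Real.sqrt_pos.2 hpos
  have hN2 : N ^ 2 = v 0 ^ 2 + v 1 ^ 2 + v 2 ^ 2 := Real.sq_sqrt hpos.le
  obtain ⟨ε, hε, hε0⟩ : ∃ ε : ℝ, ε ^ 2 = 1 ∧ 0 ≤ ε * v 0 := by
    rcases le_total 0 (v 0) with h | h
    · exact ⟨1, by norm_num, by linarith⟩
    · exact ⟨-1, by norm_num, by linarith⟩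
  refine ⟨ε * v 0 / N, ⟨ε * v 1 / N, ε * v 2 / N⟩, by positivity, ?_, ?_, ?_⟩
  · rw [← Complex.normSq_eq_norm_sq, Complex.normSq_mk]
    field_simp
    rw [hN2, hε]
    ring
  · simp only [Complex.mul_re]
    field_simp
    linear_combination ε * h1
  · simp only [Complex.mul_re]
    field_simp
    linear_combination ε * h2

theorem bloch (x y : Fin 3 → ℂ) (ρ : ℝ) (h : ∀ i, ‖x i‖ ^ 2 + ‖y i‖ ^ 2 = ρ) :
    ∃ X Y : Fin 3 → ℂ, (∀ i j, x i * conj (x j) + y i * conj (y j)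
      = X i * conj (X j) + Y i * conj (Y j)) ∧ (∀ i, ‖X i‖ = ‖X 0‖) ∧ (∀ i, ‖Y i‖ = ‖Y 0‖) := by
  set A : Fin 3 → ℝ := fun i => (‖x i‖ ^ 2 - ‖y i‖ ^ 2) / 2 with hA
  set Z : Fin 3 → ℂ := fun i => x i * conj (y i) with hZ
  obtain ⟨n3, z, hn3, hnorm, e1, e2⟩ := solve_two (A 1 - A 0) ((Z 1 - Z 0).re) ((Z 1 - Z 0).im)
    (A 2 - A 0) ((Z 2 - Z 0).re) ((Z 2 - Z 0).im)
  rw [Complex.eta] at e1 e2
  set c := Real.sqrt ((1 + n3) / 2) with hc
  have hc2 : c ^ 2 = (1 + n3) / 2 := Real.sq_sqrt (by linarith)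
  have hcpos : 0 < c := Real.sqrt_pos.2 (by linarith)
  set s : ℂ := conj z / (2 * c) with hs
  have hcC : (c : ℂ) ≠ 0 := by exact_mod_cast hcpos.ne'
  have hs2 : ‖s‖ ^ 2 = (1 - n3) / 2 := by
    rw [hs, norm_div, RCLike.norm_conj, norm_mul, Complex.norm_real, div_pow, mul_pow]
    simp only [Real.norm_eq_abs, sq_abs]
    rw [hc2, show ‖z‖ ^ 2 = 1 - n3 ^ 2 by linarith]
    have : (1 : ℝ) + n3 ≠ 0 := by linarith
    norm_num
    field_simp
    ring
  have hss : s * conj s = (((1 - n3) / 2 : ℝ) : ℂ) := by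
    rw [Complex.mul_conj, Complex.normSq_eq_norm_sq, hs2]
  have hcc : (c : ℂ) * c = (((1 + n3) / 2 : ℝ) : ℂ) := by
    rw [← Complex.ofReal_mul, ← sq, hc2]
  have hX : ∀ i, ‖(c : ℂ) * x i + s * y i‖ ^ 2 = ρ / 2 + (n3 * A i + (z * Z i).re) := by
    intro i
    have h1 : ‖(c : ℂ) * x i + s * y i‖ ^ 2 = c ^ 2 * ‖x i‖ ^ 2 + ‖s‖ ^ 2 * ‖y i‖ ^ 2
        + 2 * c * (conj s * (x i * conj (y i))).re := by
      rw [← Complex.normSq_eq_norm_sq, Complex.normSq_add, Complex.normSq_mul, Complex.normSq_mul,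
        Complex.normSq_eq_norm_sq, Complex.normSq_eq_norm_sq, Complex.normSq_eq_norm_sq,
        Complex.normSq_eq_norm_sq, Complex.norm_real, Real.norm_eq_abs, sq_abs, map_mul]
      have : ((c : ℂ) * x i * (conj s * conj (y i))).re = c * (conj s * (x i * conj (y i))).re := by
        rw [← Complex.re_ofReal_mul]
        ring_nf
      rw [this]
      ring
    have h2 : 2 * c * (conj s * (x i * conj (y i))).re = (z * Z i).re := by
      have : (z * Z i) = ((2 * c : ℝ) : ℂ) * (conj s * (x i * conj (y i))) := by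
        rw [hs, hZ, map_div₀, Complex.conj_conj]
        simp only [map_mul, Complex.conj_ofReal]
        push_cast
        rw [show (starRingEnd ℂ) 2 = 2 from Complex.conj_ofNat 2]
        field_simp
      rw [this, Complex.re_ofReal_mul]
    rw [h1, h2, hc2, hs2, ← h i]
    simp only [hA]
    ring
  have hsub1 : n3 * A 1 + (z * Z 1).re = n3 * A 0 + (z * Z 0).re := by
    rw [mul_sub, mul_sub, Complex.sub_re] at e1
    linarith
  have hsub2 : n3 * A 2 + (z * Z 2).re = n3 * A 0 + (z * Z 0).re := by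
    rw [mul_sub, mul_sub, Complex.sub_re] at e2
    linarith
  have hXX : ∀ i, ‖(c : ℂ) * x i + s * y i‖ ^ 2 = ‖(c : ℂ) * x 0 + s * y 0‖ ^ 2 := by
    intro i
    rw [hX, hX]
    fin_cases i
    · rfl
    · simp only [Fin.mk_one, Fin.isValue]
      rw [hsub1]
    · simp only [Fin.reduceFinMk, Fin.isValue]
      rw [hsub2]
  have hid : ∀ i j, x i * conj (x j) + y i * conj (y j)
      = ((c : ℂ) * x i + s * y i) * conj ((c : ℂ) * x j + s * y j) +
        (-conj s * x i + c * y i) * conj (-conj s * x j + c * y j) := by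
    intro i j
    simp only [map_add, map_mul, map_neg, Complex.conj_conj, Complex.conj_ofReal]
    have h1 : (c : ℂ) * c + s * conj s = 1 := by
      rw [hcc, hss]
      push_cast
      ring
    linear_combination (-(x i * conj (x j) + y i * conj (y j))) * h1
  refine ⟨fun i => (c : ℂ) * x i + s * y i, fun i => -conj s * x i + c * y i, hid, ?_, ?_⟩
  · intro i
    exact (sq_eq_sq₀ (norm_nonneg _) (norm_nonneg _)).1 (hXX i)
  · have hY : ∀ i, ‖-conj s * x i + c * y i‖ ^ 2 = ρ - ‖(c : ℂ) * x i + s * y i‖ ^ 2 := by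
      intro i
      have h1 := hid i i
      rw [Complex.mul_conj, Complex.mul_conj, Complex.mul_conj, Complex.mul_conj] at h1
      have h2 : Complex.normSq (x i) + Complex.normSq (y i) =
        Complex.normSq ((c : ℂ) * x i + s * y i) + Complex.normSq (-conj s * x i + c * y i) := by
        exact_mod_cast h1
      simp only [Complex.normSq_eq_norm_sq] at h2
      rw [h i] at h2
      linarith
    intro i
    apply (sq_eq_sq₀ (norm_nonneg _) (norm_nonneg _)).1
    rw [hY, hY, hXX i]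

theorem unim (X : Fin 3 → ℂ) (h : ∀ i, ‖X i‖ = ‖X 0‖) : ∃ ξ : Fin 3 → ℂ, (∀ i, ‖ξ i‖ = 1) ∧
    ∀ i j, X i * conj (X j) = ((‖X 0‖ ^ 2 : ℝ) : ℂ) * (ξ i * conj (ξ j)) := by
  by_cases h0 : ‖X 0‖ = 0
  · refine ⟨fun _ => 1, fun _ => by simp, fun i j => ?_⟩
    have : X i = 0 := by
      rw [← norm_eq_zero, h i, h0]
    rw [this, h0]
    simp
  · refine ⟨fun i => X i / (‖X 0‖ : ℂ), fun i => ?_, fun i j => ?_⟩
    · rw [norm_div, h i, Complex.norm_real, norm_norm, div_self h0]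
    · have h0' : (‖X 0‖ : ℂ) ≠ 0 := by exact_mod_cast h0
      rw [map_div₀, Complex.conj_ofReal]
      push_cast
      field_simp


theorem spec3 (M : Matrix (Fin 3) (Fin 3) ℂ) (hM : M.PosSemidef) :
    ∃ (l : ℝ) (x y : Fin 3 → ℂ), 0 ≤ l ∧ ∀ i j, M i j = (if i = j then (l : ℂ) else 0)
      + (x i * conj (x j) + y i * conj (y j)) := by
  have hH := hM.isHermitian
  set U : Matrix (Fin 3) (Fin 3) ℂ := (hH.eigenvectorUnitary : Matrix (Fin 3) (Fin 3) ℂ) with hU
  set lam : Fin 3 → ℝ := hH.eigenvalues with hlam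
  have hUU : U * star U = 1 := Unitary.coe_mul_star_self hH.eigenvectorUnitary
  have hspec : M = U * Matrix.diagonal (RCLike.ofReal ∘ lam) * star U := by
    have := hH.spectral_theorem
    rwa [Unitary.conjStarAlgAut_apply] at this
  have hMij : ∀ i j, M i j = ∑ k, (lam k : ℂ) * (U i k * conj (U j k)) := by
    intro i j
    conv_lhs => rw [hspec]
    rw [Matrix.mul_apply]
    apply Finset.sum_congr rfl
    intro k _
    rw [Matrix.mul_diagonal, Matrix.star_apply]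
    simp only [Function.comp_apply]
    have : star (U j k) = conj (U j k) := rfl
    rw [this]
    have : (RCLike.ofReal (lam k) : ℂ) = (lam k : ℂ) := rfl
    rw [this]
    ring
  have hId : ∀ i j, (∑ k, (U i k * conj (U j k))) = if i = j then 1 else 0 := by
    intro i j
    have h1 := congrFun (congrFun hUU i) j
    rw [Matrix.mul_apply, Matrix.one_apply] at h1
    exact h1
  obtain ⟨k0, -, hk0⟩ := Finset.exists_min_image Finset.univ lam ⟨0, Finset.mem_univ _⟩
  obtain ⟨k1, k2, hk⟩ : ∃ k1 k2 : Fin 3, ∀ f : Fin 3 → ℂ, ∑ k, f k = f k0 + (f k1 + f k2) := by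
    fin_cases k0
    · exact ⟨1, 2, fun f => by simp [Fin.sum_univ_three]; ring⟩
    · exact ⟨0, 2, fun f => by simp [Fin.sum_univ_three]; ring⟩
    · exact ⟨0, 1, fun f => by simp [Fin.sum_univ_three]; ring⟩
  have hsq : ∀ k, ((Real.sqrt (lam k - lam k0) : ℝ) : ℂ) * ((Real.sqrt (lam k - lam k0) : ℝ) : ℂ)
      = (lam k : ℂ) - (lam k0 : ℂ) := by
    intro k
    rw [← Complex.ofReal_mul, Real.mul_self_sqrt (by linarith [hk0 k (Finset.mem_univ _)])]
    push_cast
    ring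
  refine ⟨lam k0, fun i => (Real.sqrt (lam k1 - lam k0) : ℂ) * U i k1,
    fun i => (Real.sqrt (lam k2 - lam k0) : ℂ) * U i k2, hM.eigenvalues_nonneg k0, ?_⟩
  intro i j
  have h1 := hMij i j
  rw [hk] at h1
  have h2 := hId i j
  rw [hk] at h2
  have h3 : (if i = j then (lam k0 : ℂ) else 0) = (lam k0 : ℂ) * (if i = j then 1 else 0) := by
    split_ifs <;> simp
  rw [h3, ← h2, h1]
  simp only [map_mul, Complex.conj_ofReal]
  have e1 := hsq k1
  have e2 := hsq k2
  linear_combination (-(U i k1 * conj (U j k1))) * e1 - (U i k2 * conj (U j k2)) * e2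

/-- the character attached to three unimodular numbers -/
noncomputable def chi (ξ : Fin 3 → ℂ) (l : ℤ × ℤ) : ℂ :=
  (ξ 1 * conj (ξ 0)) ^ l.1 * (ξ 2 * conj (ξ 0)) ^ l.2

theorem unit_ne {z : ℂ} (h : ‖z‖ = 1) : z ≠ 0 := by
  intro h0
  rw [h0, norm_zero] at h
  exact zero_ne_one h

theorem unit_conj {z : ℂ} (h : ‖z‖ = 1) : z * conj z = 1 := by
  rw [Complex.mul_conj, Complex.normSq_eq_norm_sq, h]
  norm_num

theorem unit_conj' {z : ℂ} (h : ‖z‖ = 1) : conj z = z⁻¹ :=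
  eq_inv_of_mul_eq_one_right (unit_conj h)

theorem chi_sub (ξ : Fin 3 → ℂ) (h : ∀ i, ‖ξ i‖ = 1) (i j : ℤ × ℤ) :
    chi ξ (i - j) = chi ξ i * conj (chi ξ j) := by
  have h1 : ‖ξ 1 * conj (ξ 0)‖ = 1 := by rw [norm_mul, RCLike.norm_conj, h, h, mul_one]
  have h2 : ‖ξ 2 * conj (ξ 0)‖ = 1 := by rw [norm_mul, RCLike.norm_conj, h, h, mul_one]
  unfold chi
  rw [map_mul, map_zpow₀, map_zpow₀, unit_conj' h1, unit_conj' h2, Prod.fst_sub, Prod.snd_sub,
    zpow_sub₀ (unit_ne h1), zpow_sub₀ (unit_ne h2), _root_.inv_zpow, _root_.inv_zpow]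
  ring

/-- the three base points -/
def pt : Fin 3 → ℤ × ℤ := ![(0, 0), (1, 0), (0, 1)]

theorem chi_pt (ξ : Fin 3 → ℂ) (h : ∀ i, ‖ξ i‖ = 1) (i j : Fin 3) :
    chi ξ (pt i - pt j) = ξ i * conj (ξ j) := by
  rw [chi_sub ξ h]
  have h0 := unit_conj (h 0)
  have hp : ∀ i, chi ξ (pt i) = ξ i * conj (ξ 0) := by
    intro i
    fin_cases i
    · simp [chi, pt, h0]
    · simp [chi, pt]
    · simp [chi, pt]
  rw [hp, hp, map_mul, Complex.conj_conj]
  linear_combination (ξ i * conj (ξ j)) * h0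

/-- the base set -/
def LL : Finset (ℤ × ℤ) := {(0, 0), (1, 0), (0, 1)}

theorem isPos_iff {ι : Type*} [Fintype ι] [DecidableEq ι] (M : Matrix ι ι ℂ) :
    IsPos M ↔ M.PosSemidef := by
  constructor
  · rintro ⟨B, rfl⟩
    exact Matrix.posSemidef_conjTranspose_mul_self B
  · intro h
    obtain ⟨B, hB⟩ := CStarAlgebra.nonneg_iff_eq_star_mul_self.mp h.nonneg
    exact ⟨B, hB⟩

theorem chi_psd (ξ : Fin 3 → ℂ) (h : ∀ i, ‖ξ i‖ = 1) (K : Finset (ℤ × ℤ)) (c : ℝ) (hc : 0 ≤ c) :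
    (Matrix.of fun i j : K => (c : ℂ) * chi ξ (i.1 - j.1)).PosSemidef := by
  have h1 := Matrix.posSemidef_vecMulVec_self_star (fun i : K => chi ξ i.1)
  have h2 : (Matrix.of fun i j : K => (c : ℂ) * chi ξ (i.1 - j.1))
      = (c : ℂ) • Matrix.vecMulVec (fun i : K => chi ξ i.1) (star fun i : K => chi ξ i.1) := by
    ext i j
    rw [Matrix.smul_apply, Matrix.vecMulVec_apply, Matrix.of_apply, chi_sub ξ h]
    rfl
  rw [h2]
  exact h1.smul (by exact_mod_cast hc)

theorem hasExt_complex : HasExt ℂ LL := by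
  intro a ha K hK
  rw [isPos_iff] at ha
  -- the 3 x 3 matrix
  have hmem : ∀ i, pt i ∈ LL := by decide
  have hM : (Matrix.of fun i j : Fin 3 => a (pt i - pt j)).PosSemidef := by
    have := ha.submatrix (fun i : Fin 3 => (⟨pt i, hmem i⟩ : LL))
    exact this
  obtain ⟨l, x, y, hl, hxy⟩ := spec3 _ hM
  have hdiag : ∀ i, ‖x i‖ ^ 2 + ‖y i‖ ^ 2 = (a 0).re - l := by
    intro i
    have h1 := hxy i i
    rw [Matrix.of_apply, sub_self, if_pos rfl, Complex.mul_conj, Complex.mul_conj] at h1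
    have h2 := congrArg Complex.re h1
    simp only [Complex.add_re, Complex.ofReal_re, Complex.normSq_eq_norm_sq] at h2
    linarith
  obtain ⟨X, Y, hXY, hX, hY⟩ := bloch x y _ hdiag
  obtain ⟨ξ, hξ, hξ2⟩ := unim X hX
  obtain ⟨η, hη, hη2⟩ := unim Y hY
  refine ⟨fun p => (if p = 0 then (l : ℂ) else 0) + (((‖X 0‖ ^ 2 : ℝ) : ℂ) * chi ξ p
    + ((‖Y 0‖ ^ 2 : ℝ) : ℂ) * chi η p), ?_, ?_⟩
  · have key : ∀ i j : Fin 3, ((if pt i - pt j = 0 then (l : ℂ) else 0) +
        (((‖X 0‖ ^ 2 : ℝ) : ℂ) * chi ξ (pt i - pt j)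
        + ((‖Y 0‖ ^ 2 : ℝ) : ℂ) * chi η (pt i - pt j))) = a (pt i - pt j) := by
      intro i j
      have h1 := hxy i j
      rw [Matrix.of_apply, hXY, hξ2, hη2] at h1
      rw [chi_pt ξ hξ, chi_pt η hη, h1]
      have h2 : ∀ i j : Fin 3, pt i - pt j = 0 ↔ i = j := by decide
      simp only [h2 i j]
    have hsurj : ∀ p ∈ LL, ∃ i, pt i = p := by decide
    intro i hi j hj
    obtain ⟨i', rfl⟩ := hsurj i hi
    obtain ⟨j', rfl⟩ := hsurj j hj
    exact key i' j'
  · rw [isPos_iff]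
    have h1 : (Matrix.diagonal fun _ : K => (l : ℂ)).PosSemidef :=
      Matrix.PosSemidef.diagonal (fun _ => by
        show (0 : ℂ) ≤ (l : ℂ)
        exact_mod_cast hl)
    have h2 := chi_psd ξ hξ K (‖X 0‖ ^ 2) (by positivity)
    have h3 := chi_psd η hη K (‖Y 0‖ ^ 2) (by positivity)
    have h4 := h1.add (h2.add h3)
    convert h4 using 1
    ext i j
    rw [Matrix.add_apply, Matrix.diagonal_apply, Matrix.add_apply]
    have h6 : i.1 - j.1 = 0 ↔ i = j := by
      rw [sub_eq_zero]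
      exact Subtype.coe_injective.eq_iff
    show (if i.1 - j.1 = 0 then (l : ℂ) else 0) + _ = _
    simp only [h6]
    rfl


/-- the interval `[-1,1]` -/
abbrev XX : Type := Set.Icc (-1 : ℝ) 1

/-- `c(t) = sqrt (1 - t²)` -/
noncomputable def cM : C(XX, ℂ) :=
  ⟨fun t => ((Real.sqrt (1 - (t : ℝ) ^ 2) : ℝ) : ℂ), by fun_prop⟩

/-- `s(t) = t` for `t ≥ 0` and `s(t) = i t` for `t ≤ 0`. -/
noncomputable def sM : C(XX, ℂ) :=
  ⟨fun t => ((max (t : ℝ) 0 : ℝ) : ℂ) + Complex.I * ((min (t : ℝ) 0 : ℝ) : ℂ), by fun_prop⟩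

theorem cs_id (t : XX) : cM t * cM t + sM t * conj (sM t) = 1 := by
  have h1 : (0 : ℝ) ≤ 1 - (t : ℝ) ^ 2 := by
    have := t.2
    nlinarith [this.1, this.2]
  have hs : sM t * conj (sM t) = (((t : ℝ) ^ 2 : ℝ) : ℂ) := by
    show (((max (t : ℝ) 0 : ℝ) : ℂ) + Complex.I * ((min (t : ℝ) 0 : ℝ) : ℂ)) *
      conj (((max (t : ℝ) 0 : ℝ) : ℂ) + Complex.I * ((min (t : ℝ) 0 : ℝ) : ℂ)) = _
    rcases le_total 0 (t : ℝ) with h | h
    · rw [max_eq_left h, min_eq_right h]
      simp [sq]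
    · rw [max_eq_right h, min_eq_left h]
      simp only [Complex.ofReal_zero, zero_add, map_mul, Complex.conj_I, Complex.conj_ofReal]
      push_cast
      linear_combination (-(t : ℂ) ^ 2) * Complex.I_mul_I
  rw [hs]
  show ((Real.sqrt (1 - (t : ℝ) ^ 2) : ℝ) : ℂ) * ((Real.sqrt (1 - (t : ℝ) ^ 2) : ℝ) : ℂ) + _ = 1
  rw [← Complex.ofReal_mul, Real.mul_self_sqrt h1, ← Complex.ofReal_add]
  norm_num

/-- the data -/
noncomputable def dat (l : ℤ × ℤ) : C(XX, ℂ) :=
  if l = 0 then 1 else if l = (1, 0) then cM else if l = (-1, 0) then cM else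
  if l = (1, -1) then sM else if l = (-1, 1) then star sM else 0

/-- the factor -/
noncomputable def fac (k j : ℤ × ℤ) : C(XX, ℂ) :=
  if k = (0, 0) then (if j = (0, 0) then 1 else if j = (1, 0) then cM else 0)
  else if k = (1, 0) then (if j = (1, 0) then star sM else if j = (0, 1) then 1 else 0)
  else 0

theorem star_cM : star cM = cM := by
  ext t
  show conj ((Real.sqrt (1 - (t : ℝ) ^ 2) : ℝ) : ℂ) = _
  rw [Complex.conj_ofReal]
  rfl

theorem cs_id' : cM * cM + sM * star sM = 1 := by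
  ext t
  exact cs_id t

theorem dat_pos : IsPos (toep LL dat) := by
  refine ⟨Matrix.of fun k j : LL => fac k.1 j.1, ?_⟩
  apply Matrix.ext
  intro i j
  rw [Matrix.mul_apply]
  have h1 : ∀ i j : LL, (∑ k : LL, (Matrix.of fun k j : LL => fac k.1 j.1).conjTranspose i k *
      (Matrix.of fun k j : LL => fac k.1 j.1) k j)
      = ∑ k ∈ LL, star (fac k i.1) * fac k j.1 := by
    intro i j
    exact Finset.sum_coe_sort LL (fun k => star (fac k i.1) * fac k j.1)
  rw [h1]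
  have h2 : ∀ p ∈ LL, ∀ q ∈ LL, dat (p - q) = ∑ k ∈ LL, star (fac k p) * fac k q := by
    intro p hp q hq
    simp only [LL, Finset.mem_insert, Finset.mem_singleton] at hp hq
    have e := cs_id'
    rcases hp with rfl | rfl | rfl <;> rcases hq with rfl | rfl | rfl <;>
      simp [LL, dat, fac, star_cM, e, mul_comm]
  exact h2 i.1 i.2 j.1 j.2

/-- the larger set -/
def KK : Finset (ℤ × ℤ) := {(0, 0), (1, 0), (0, 1), (1, 1), (0, 2)}

/-- its enumeration -/
def qq : Fin 5 → ℤ × ℤ := ![(0, 0), (1, 0), (0, 1), (1, 1), (0, 2)]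

theorem forced (b : ℤ × ℤ → C(XX, ℂ)) (hb : ∀ i ∈ LL, ∀ j ∈ LL, b (i - j) = dat (i - j))
    (hpos : IsPos (toep KK b)) (t : XX) (hc : cM t ≠ 0) :
    sM t * b (0, 2) t = - conj (sM t) := by
  obtain ⟨B, hB⟩ := hpos
  have hq : ∀ i, qq i ∈ KK := by decide
  set β : ℤ × ℤ → ℂ := fun l => b l t with hβ
  have hM : (Matrix.of fun i j : Fin 5 => β (qq i - qq j)).PosSemidef := by
    have h1 := Matrix.posSemidef_conjTranspose_mul_self (Matrix.of fun i j : KK => B i j t)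
    have h2 := h1.submatrix (fun i : Fin 5 => (⟨qq i, hq i⟩ : KK))
    convert h2 using 1
    ext i j
    have h4 := congrFun (congrFun hB ⟨qq i, hq i⟩) ⟨qq j, hq j⟩
    have h5 : toep KK b ⟨qq i, hq i⟩ ⟨qq j, hq j⟩ = b (qq i - qq j) := rfl
    rw [h5] at h4
    rw [Matrix.of_apply, Matrix.submatrix_apply, Matrix.mul_apply]
    simp only [hβ]
    rw [h4, Matrix.mul_apply, ContinuousMap.sum_apply]
    rfl
  have v00 : β 0 = 1 := by
    have := hb (0, 0) (by decide) (0, 0) (by decide)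
    simp only [hβ]
    rw [show (0 : ℤ × ℤ) = (0, 0) - (0, 0) by decide, this]
    simp [dat]
  have v10 : β (1, 0) = cM t := by
    have := hb (1, 0) (by decide) (0, 0) (by decide)
    simp only [hβ]
    rw [show ((1 : ℤ), (0 : ℤ)) = (1, 0) - (0, 0) by decide, this]
    simp [dat]
  have v10' : β (-1, 0) = cM t := by
    have := hb (0, 0) (by decide) (1, 0) (by decide)
    simp only [hβ]
    rw [show ((-1 : ℤ), (0 : ℤ)) = (0, 0) - (1, 0) by decide, this]
    simp [dat]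
  have v01 : β (0, 1) = 0 := by
    have := hb (0, 1) (by decide) (0, 0) (by decide)
    simp only [hβ]
    rw [show ((0 : ℤ), (1 : ℤ)) = (0, 1) - (0, 0) by decide, this]
    simp [dat]
  have v01' : β (0, -1) = 0 := by
    have := hb (0, 0) (by decide) (0, 1) (by decide)
    simp only [hβ]
    rw [show ((0 : ℤ), (-1 : ℤ)) = (0, 0) - (0, 1) by decide, this]
    simp [dat]
  have v11 : β (1, -1) = sM t := by
    have := hb (1, 0) (by decide) (0, 1) (by decide)
    simp only [hβ]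
    rw [show ((1 : ℤ), (-1 : ℤ)) = (1, 0) - (0, 1) by decide, this]
    simp [dat]
  have v11' : β (-1, 1) = conj (sM t) := by
    have := hb (0, 1) (by decide) (1, 0) (by decide)
    simp only [hβ]
    rw [show ((-1 : ℤ), (1 : ℤ)) = (0, 1) - (1, 0) by decide, this]
    simp [dat]
  have hid := cs_id t
  set c := cM t with hcdef
  set s := sM t with hsdef
  set M : Matrix (Fin 5) (Fin 5) ℂ := Matrix.of fun i j : Fin 5 => β (qq i - qq j) with hMdef
  have hMM : M = !![1, c, 0, β (-1, -1), β (0, -2); c, 1, s, 0, β (1, -2); 0, conj s, 1, c, 0;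
      β (1, 1), 0, c, 1, s; β (0, 2), β (-1, 2), 0, conj s, 1] := by
    ext i j
    fin_cases i <;> fin_cases j <;> simp [hMdef, qq, v00, v10, v10', v01, v01', v11, v11']
  have hherm := hM.isHermitian
  have n1 : M *ᵥ ![-c, 1, -conj s, 0, 0] = 0 := by
    rw [← hM.dotProduct_mulVec_zero_iff, hMM]
    simp [Matrix.mulVec, dotProduct, Fin.sum_univ_five]
    linear_combination (-1 : ℂ) * hid
  have n2 : M *ᵥ ![0, 0, -c, 1, -conj s] = 0 := by
    rw [← hM.dotProduct_mulVec_zero_iff, hMM]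
    simp [Matrix.mulVec, dotProduct, Fin.sum_univ_five]
    linear_combination (-1 : ℂ) * hid
  have r1 := congrFun n1 4
  have r2 := congrFun n2 1
  rw [hMM] at r1 r2
  simp [Matrix.mulVec, dotProduct, Fin.sum_univ_five] at r1 r2
  have h14 : conj (M 1 4) = M 4 1 := by
    have := congrFun (congrFun hherm 4) 1
    exact this
  have e14 : M 1 4 = β (1, -2) := by rw [hMM]; rfl
  have e41 : M 4 1 = β (-1, 2) := by rw [hMM]; rfl
  rw [e14, e41] at h14
  -- r1 : -c β(0,2) + β(-1,2) = 0 ; r2 : -s c - β(1,-2) conj s = 0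
  have r2' := congrArg conj r2
  have hcr : conj c = c := congrFun (congrArg DFunLike.coe star_cM) t
  simp only [map_add, map_mul, map_neg, map_zero, Complex.conj_conj, hcr] at r2'
  rw [h14] at r2'
  have hfin : c * (s * β (0, 2) + conj s) = 0 := by
    linear_combination (-s) * r1 - r2'
  rcases mul_eq_zero.1 hfin with h | h
  · exact absurd h hc
  · have : b (0, 2) t = β (0, 2) := rfl
    rw [this]
    linear_combination h

/-- the points `± 1/(n+2)` of the interval -/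
noncomputable def up (n : ℕ) : XX :=
  ⟨1 / ((n : ℝ) + 2), by
    have h : (0 : ℝ) < (n : ℝ) + 2 := by positivity
    constructor
    · have : 0 < 1 / ((n : ℝ) + 2) := by positivity
      linarith
    · rw [div_le_one h]
      linarith [(Nat.cast_nonneg n : (0 : ℝ) ≤ n)]⟩

/-- the points `- 1/(n+2)` of the interval -/
noncomputable def um (n : ℕ) : XX :=
  ⟨-(1 / ((n : ℝ) + 2)), by
    have h := (up n).2
    have h' : ((up n : XX) : ℝ) = 1 / ((n : ℝ) + 2) := rfl
    rw [h'] at h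
    constructor
    · linarith [h.2]
    · have h3 : (0 : ℝ) < (n : ℝ) + 2 := by positivity
      have : 0 < 1 / ((n : ℝ) + 2) := by positivity
      linarith⟩

theorem zero_mem' : (0 : ℝ) ∈ Set.Icc (-1 : ℝ) 1 := by constructor <;> norm_num

theorem lim_base : Filter.Tendsto (fun n : ℕ => 1 / ((n : ℝ) + 2)) Filter.atTop (nhds 0) := by
  have h1 := (Filter.tendsto_add_atTop_iff_nat 1).2
    (tendsto_one_div_add_atTop_nhds_zero_nat (𝕜 := ℝ))
  refine h1.congr fun n => ?_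
  push_cast
  ring_nf

theorem lim_up : Filter.Tendsto up Filter.atTop (nhds ⟨0, zero_mem'⟩) := by
  rw [tendsto_subtype_rng]
  exact lim_base

theorem lim_um : Filter.Tendsto um Filter.atTop (nhds ⟨0, zero_mem'⟩) := by
  rw [tendsto_subtype_rng]
  have := lim_base.neg
  rw [neg_zero] at this
  exact this

theorem not_hasExt : ¬ HasExt C(XX, ℂ) LL := by
  intro h
  obtain ⟨b, hb, hpos⟩ := h dat dat_pos KK (by decide)
  have hx : ∀ n : ℕ, 0 < 1 / ((n : ℝ) + 2) ∧ 1 / ((n : ℝ) + 2) < 1 := by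
    intro n
    have h3 : (0 : ℝ) < (n : ℝ) + 2 := by positivity
    refine ⟨by positivity, ?_⟩
    rw [div_lt_one h3]
    linarith [(Nat.cast_nonneg n : (0 : ℝ) ≤ n)]
  have hp : ∀ n, b (0, 2) (up n) = -1 := by
    intro n
    obtain ⟨h1, h2⟩ := hx n
    have hs : sM (up n) = ((1 / ((n : ℝ) + 2) : ℝ) : ℂ) := by
      show ((max (1 / ((n : ℝ) + 2)) 0 : ℝ) : ℂ) + Complex.I * ((min (1 / ((n : ℝ) + 2)) 0 : ℝ) : ℂ)
        = _
      rw [max_eq_left h1.le, min_eq_right h1.le]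
      simp
    have hs0 : sM (up n) ≠ 0 := by
      rw [hs]
      exact_mod_cast h1.ne'
    have hc0 : cM (up n) ≠ 0 := by
      show ((Real.sqrt (1 - (1 / ((n : ℝ) + 2)) ^ 2) : ℝ) : ℂ) ≠ 0
      have : 0 < Real.sqrt (1 - (1 / ((n : ℝ) + 2)) ^ 2) := Real.sqrt_pos.2 (by nlinarith)
      exact_mod_cast this.ne'
    have hf := forced b hb hpos (up n) hc0
    rw [hs, Complex.conj_ofReal, ← hs] at hf
    have : sM (up n) * (b (0, 2) (up n) + 1) = 0 := by linear_combination hf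
    rcases mul_eq_zero.1 this with h4 | h4
    · exact absurd h4 hs0
    · linear_combination h4
  have hm : ∀ n, b (0, 2) (um n) = 1 := by
    intro n
    obtain ⟨h1, h2⟩ := hx n
    have hs : sM (um n) = Complex.I * ((-(1 / ((n : ℝ) + 2)) : ℝ) : ℂ) := by
      show ((max (-(1 / ((n : ℝ) + 2))) 0 : ℝ) : ℂ) +
        Complex.I * ((min (-(1 / ((n : ℝ) + 2))) 0 : ℝ) : ℂ) = _
      rw [max_eq_right (by linarith), min_eq_left (by linarith)]
      simp
    have hs0 : sM (um n) ≠ 0 := by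
      rw [hs]
      have : (((-(1 / ((n : ℝ) + 2)) : ℝ)) : ℂ) ≠ 0 := by
        have h5 : (-(1 / ((n : ℝ) + 2)) : ℝ) ≠ 0 := by linarith
        exact_mod_cast h5
      exact mul_ne_zero Complex.I_ne_zero this
    have hc0 : cM (um n) ≠ 0 := by
      show ((Real.sqrt (1 - (-(1 / ((n : ℝ) + 2))) ^ 2) : ℝ) : ℂ) ≠ 0
      have : 0 < Real.sqrt (1 - (-(1 / ((n : ℝ) + 2))) ^ 2) := Real.sqrt_pos.2 (by nlinarith)
      exact_mod_cast this.ne'
    have hf := forced b hb hpos (um n) hc0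
    have hconj : conj (sM (um n)) = - sM (um n) := by
      rw [hs, map_mul, Complex.conj_ofReal, Complex.conj_I]
      ring
    rw [hconj] at hf
    have : sM (um n) * (b (0, 2) (um n) - 1) = 0 := by linear_combination hf
    rcases mul_eq_zero.1 this with h4 | h4
    · exact absurd h4 hs0
    · linear_combination h4
  have l1 := ((b (0, 2)).continuous.tendsto ⟨0, zero_mem'⟩).comp lim_up
  have l2 := ((b (0, 2)).continuous.tendsto ⟨0, zero_mem'⟩).comp lim_um
  have l1' : Filter.Tendsto (fun _ : ℕ => (-1 : ℂ)) Filter.atTop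
      (nhds (b (0, 2) ⟨0, zero_mem'⟩)) := l1.congr hp
  have l2' : Filter.Tendsto (fun _ : ℕ => (1 : ℂ)) Filter.atTop
      (nhds (b (0, 2) ⟨0, zero_mem'⟩)) := l2.congr hm
  have e1 := tendsto_nhds_unique l1' tendsto_const_nhds
  have e2 := tendsto_nhds_unique l2' tendsto_const_nhds
  rw [e1] at e2
  norm_num at e2

end Pool.Agent.H9.MP76760e
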