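import Mathlib

set_option autoImplicit false

namespace Pool.Agent.H9.MPf1eca3

open Finset

/-- greedy balancing of positive integers -/
theorem greedy {ι : Type*} [DecidableEq ι] (h : ι → ℕ) : ∀ (k : ℕ) (I : Finset ι) (s : ℤ),
    I.card = k → (∀ i ∈ I, 1 ≤ h i) →
    (∀ t, 1 ≤ t → t ≤ k → t ≤ (I.filter (fun i => h i ≤ t)).card) → |s| ≤ k + 1 →
    ∃ ε : ι → ℤ, (∀ i, ε i = 1 ∨ ε i = -1) ∧ |s + ∑ i ∈ I, ε i * h i| ≤ 1 := by
  intro k
  induction k with
  | zero =>
    intro I s hI _ _ hs
    have : I = ∅ := card_eq_zero.1 hI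
    subst this
    exact ⟨fun _ => 1, fun _ => Or.inl rfl, by simpa using hs⟩
  | succ k ih =>
    intro I s hI hpos hcount hs
    have hne : I.Nonempty := card_pos.1 (by omega)
    obtain ⟨i0, hi0, hmax⟩ := exists_max_image I h hne
    have hall : ∀ i ∈ I, h i ≤ k + 1 := by
      have h1 := hcount (k+1) (by omega) le_rfl
      have h2 : I.filter (fun i => h i ≤ k+1) = I := by
        apply eq_of_subset_of_card_le (filter_subset _ _)
        omega
      intro i hi
      rw [← h2] at hi
      exact (mem_filter.1 hi).2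
    have hs'b : |(if 0 ≤ s then s - h i0 else s + h i0 : ℤ)| ≤ k + 1 := by
      have h1 := hall i0 hi0
      have h2 := hpos i0 hi0
      push_cast at hs
      rw [abs_le] at hs ⊢
      split_ifs with h0
      · constructor
        · omega
        · omega
      · constructor
        · omega
        · omega
    obtain ⟨ε, hε, hb⟩ := ih (I.erase i0) _ (by rw [card_erase_of_mem hi0]; omega)
      (fun i hi => hpos i (mem_of_mem_erase hi)) (by
      intro t ht1 htk
      by_cases hc : h i0 ≤ t
      · have : (I.erase i0).filter (fun i => h i ≤ t) = I.erase i0 := by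
          apply filter_true_of_mem
          intro i hi
          exact (hmax i (mem_of_mem_erase hi)).trans hc
        rw [this, card_erase_of_mem hi0]; omega
      · have : (I.erase i0).filter (fun i => h i ≤ t) = I.filter (fun i => h i ≤ t) := by
          ext i; simp only [mem_filter, mem_erase]; constructor
          · rintro ⟨⟨_, h1⟩, h2⟩; exact ⟨h1, h2⟩
          · rintro ⟨h1, h2⟩; refine ⟨⟨?_, h1⟩, h2⟩; rintro rfl; exact hc h2
        rw [this]; exact hcount t ht1 (by omega)) hs'b
    refine ⟨Function.update ε i0 (if 0 ≤ s then -1 else 1), ?_, ?_⟩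
    · intro i
      by_cases hi : i = i0
      · subst hi; simp only [Function.update_self]; split_ifs
        · exact Or.inr rfl
        · exact Or.inl rfl
      · rw [Function.update_of_ne hi]; exact hε i
    · have h3 : ∑ i ∈ I, Function.update ε i0 (if 0 ≤ s then -1 else 1) i * (h i : ℤ)
          = (if 0 ≤ s then -1 else 1) * (h i0 : ℤ) + ∑ i ∈ I.erase i0, ε i * h i := by
        rw [← add_sum_erase I _ hi0]
        congr 1
        · rw [Function.update_self]
        · apply sum_congr rfl
          intro i hi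
          rw [Function.update_of_ne (ne_of_mem_erase hi)]
      rw [h3]
      have h4 : s + ((if 0 ≤ s then -1 else 1) * (h i0 : ℤ) + ∑ i ∈ I.erase i0, ε i * h i)
          = (if 0 ≤ s then s - h i0 else s + h i0 : ℤ) + ∑ i ∈ I.erase i0, ε i * h i := by
        split_ifs <;> ring
      rw [h4]
      exact hb

variable {n : ℕ}

/-- column signs given by a set -/
def csgn (S : Finset (Fin n)) (j : Fin n) : ℤ := if j ∈ S then -1 else 1

theorem csgn_or (S : Finset (Fin n)) (j : Fin n) : csgn S j = 1 ∨ csgn S j = -1 := by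
  unfold csgn; split_ifs
  · exact Or.inr rfl
  · exact Or.inl rfl

/-- row sum -/
theorem rowsum (a : Fin n → ℤ) (ha : ∀ j, a j = 1 ∨ a j = -1) (S : Finset (Fin n)) :
    ∑ j, csgn S j * a j = (n : ℤ) - 2 * ((symmDiff S (univ.filter (fun j => a j = -1))).card : ℤ) := by
  have h1 : ∀ j, csgn S j * a j
      = 1 - 2 * (if j ∈ symmDiff S (univ.filter (fun j => a j = -1)) then 1 else 0) := by
    intro j
    simp only [mem_symmDiff, mem_filter, mem_univ, true_and, csgn]
    by_cases hj : j ∈ S
    · rcases ha j with h | h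
      · simp [hj, h]
      · simp [hj, h]
    · rcases ha j with h | h
      · simp [hj, h]
      · simp [hj, h]
  rw [sum_congr rfl (fun j _ => h1 j), sum_sub_distrib, ← mul_sum, sum_boole]
  simp

theorem sum_symmDiff (B : Finset (Fin n)) (f : ℕ → ℚ) :
    ∑ S : Finset (Fin n), f (symmDiff S B).card = ∑ j ∈ range (n + 1), (n.choose j : ℚ) * f j := by
  have h1 : ∑ S : Finset (Fin n), f (symmDiff S B).card = ∑ S : Finset (Fin n), f S.card := by
    have hinv : Function.Involutive (fun S : Finset (Fin n) => symmDiff S B) := by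
      intro S
      simp only [symmDiff_symmDiff_cancel_right]
    exact Equiv.sum_comp hinv.toPerm (fun S => f S.card)
  rw [h1]
  have h2 := Finset.sum_powerset_apply_card f (x := (univ : Finset (Fin n)))
  rw [powerset_univ, card_univ, Fintype.card_fin] at h2
  rw [h2]
  apply sum_congr rfl
  intro j _
  rw [nsmul_eq_mul]

/-- the averaging step for odd `n = 2m+1` -/
theorem odd_avg (m : ℕ) (B : Fin (2 * m + 1) → Finset (Fin (2 * m + 1))) :
    ∃ S : Finset (Fin (2 * m + 1)), ∑ i, ((if (symmDiff S (B i)).card < m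
        then (1 : ℚ) / ((symmDiff S (B i)).card + 1) else 0)
      + (if 2 * m + 1 - (symmDiff S (B i)).card < m
        then (1 : ℚ) / ((2 * m + 1 - (symmDiff S (B i)).card : ℕ) + 1) else 0)) < 2 := by
  by_contra hcon
  push Not at hcon
  set a : ℕ → ℚ := fun j => if j < m then (1 : ℚ) / (j + 1) else 0 with ha
  have h1 : ∑ S : Finset (Fin (2 * m + 1)), ∑ i, (a (symmDiff S (B i)).card
      + a (2 * m + 1 - (symmDiff S (B i)).card))
      = (2 * m + 1) * (2 * ∑ j ∈ range (2 * m + 1 + 1), ((2 * m + 1).choose j : ℚ) * a j) := by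
    rw [sum_comm]
    have h2 : ∀ i : Fin (2 * m + 1), ∑ S : Finset (Fin (2 * m + 1)), (a (symmDiff S (B i)).card
      + a (2 * m + 1 - (symmDiff S (B i)).card))
      = 2 * ∑ j ∈ range (2 * m + 1 + 1), ((2 * m + 1).choose j : ℚ) * a j := by
      intro i
      rw [sum_symmDiff (B i) (fun d => a d + a (2 * m + 1 - d))]
      simp only [mul_add, sum_add_distrib]
      have h3 : ∑ j ∈ range (2 * m + 1 + 1), ((2 * m + 1).choose j : ℚ) * a (2 * m + 1 - j)
          = ∑ j ∈ range (2 * m + 1 + 1), ((2 * m + 1).choose j : ℚ) * a j := by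
        rw [← sum_range_reflect]
        apply sum_congr rfl
        intro j hj
        have hj' : j ≤ 2 * m + 1 := by have := mem_range.1 hj; omega
        have e1 : 2 * m + 1 + 1 - 1 - j = 2 * m + 1 - j := by omega
        rw [e1, Nat.choose_symm hj']
        congr 2
        omega
      rw [h3]; ring
    rw [sum_congr rfl (fun i _ => h2 i), sum_const, card_univ, Fintype.card_fin, nsmul_eq_mul]
    push_cast
    ring
  have h4 : (2 : ℚ) ^ (2 * m + 1) * 2 ≤ ∑ S : Finset (Fin (2 * m + 1)), ∑ i,
      (a (symmDiff S (B i)).card + a (2 * m + 1 - (symmDiff S (B i)).card)) := by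
    have h5 : ∑ S : Finset (Fin (2 * m + 1)), (2 : ℚ) = (2 : ℚ) ^ (2 * m + 1) * 2 := by
      rw [sum_const, card_univ, Fintype.card_finset, Fintype.card_fin, nsmul_eq_mul]
      push_cast
      ring
    rw [← h5]
    apply sum_le_sum
    intro S _
    exact hcon S
  rw [h1] at h4
  -- the binomial sum
  have h6 : (2 * m + 2 : ℚ) * ∑ j ∈ range (2 * m + 1 + 1), ((2 * m + 1).choose j : ℚ) * a j
      = ∑ j ∈ range m, (((2 * m + 2).choose (j + 1) : ℕ) : ℚ) := by
    rw [mul_sum]
    have h7 : ∀ j ∈ range (2 * m + 1 + 1), (2 * m + 2 : ℚ) * (((2 * m + 1).choose j : ℚ) * a j)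
        = if j < m then (((2 * m + 2).choose (j + 1) : ℕ) : ℚ) else 0 := by
      intro j _
      simp only [ha]
      split_ifs with hj
      · have h8 := Nat.add_one_mul_choose_eq (2 * m + 1) j
        have h9 : ((2 * m + 2 : ℕ) : ℚ) * ((2 * m + 1).choose j : ℚ)
            = ((2 * m + 2).choose (j + 1) : ℚ) * ((j + 1 : ℕ) : ℚ) := by
          exact_mod_cast h8
        have h10 : ((j : ℚ) + 1) ≠ 0 := by positivity
        push_cast at h9
        field_simp
        linarith
      · simp
    rw [sum_congr rfl h7, ← sum_filter]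
    apply sum_congr
    · ext j; simp only [mem_filter, mem_range]; omega
    · intros; rfl
  have h11 : ∑ j ∈ range m, (2 * m + 2).choose (j + 1) < 2 * 4 ^ m := by
    have h12 := Nat.sum_range_choose_halfway m
    have h13 : ∑ j ∈ range m, (2 * m + 2).choose (j + 1)
        = ∑ j ∈ range m, (2 * m + 1).choose j + ∑ j ∈ range m, (2 * m + 1).choose (j + 1) := by
      rw [← sum_add_distrib]
      apply sum_congr rfl
      intro j _
      rw [show 2 * m + 2 = (2 * m + 1) + 1 by ring, Nat.choose_succ_succ]
    have h14 : ∑ j ∈ range m, (2 * m + 1).choose (j + 1) + 1 = 4 ^ m := by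
      rw [← h12, sum_range_succ']
      simp
    have h15 : ∑ j ∈ range m, (2 * m + 1).choose j ≤ 4 ^ m := by
      rw [← h12, sum_range_succ]
      omega
    omega
  have h16 : ∑ j ∈ range m, (((2 * m + 2).choose (j + 1) : ℕ) : ℚ) < 2 * 4 ^ m := by
    exact_mod_cast h11
  rw [← h6] at h16
  have h17 : (2 : ℚ) ^ (2 * m + 1) = 2 * 4 ^ m := by
    rw [pow_succ, pow_mul]; norm_num; ring
  rw [h17] at h4
  set X := ∑ j ∈ range (2 * m + 1 + 1), ((2 * m + 1).choose j : ℚ) * a j with hX
  have hX0 : 0 ≤ X := by
    apply sum_nonneg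
    intro j _
    apply mul_nonneg (by positivity)
    simp only [ha]
    split_ifs <;> positivity
  have hm : (0 : ℚ) ≤ m := by positivity
  have h18 : (0 : ℚ) < 4 ^ m := by positivity
  nlinarith

theorem odd_counts (m : ℕ) (B : Fin (2 * m + 1) → Finset (Fin (2 * m + 1))) :
    ∃ S : Finset (Fin (2 * m + 1)), ∀ t, 1 ≤ t → t ≤ 2 * m + 1 →
      t ≤ (univ.filter (fun i => ((2 * m + 1 : ℤ) - 2 * ((symmDiff S (B i)).card : ℤ)).natAbs
        ≤ t)).card := by
  obtain ⟨S, hS⟩ := odd_avg m B
  refine ⟨S, ?_⟩
  set d : Fin (2 * m + 1) → ℕ := fun i => (symmDiff S (B i)).card with hd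
  have hdle : ∀ i, d i ≤ 2 * m + 1 := by
    intro i
    have := card_le_univ (symmDiff S (B i))
    simpa using this
  -- key: for `b < m`, few rows have `min d (n-d) ≤ b`
  have key : ∀ b, b < m → (univ.filter (fun i => d i ≤ b ∨ 2 * m + 1 - d i ≤ b)).card ≤ 2 * b + 1 := by
    intro b hb
    by_contra hc
    push Not at hc
    have h1 : ∑ i ∈ univ.filter (fun i => d i ≤ b ∨ 2 * m + 1 - d i ≤ b), (1 : ℚ) / (b + 1)
        ≤ ∑ i, ((if d i < m then (1 : ℚ) / (d i + 1) else 0)
      + (if 2 * m + 1 - d i < m then (1 : ℚ) / ((2 * m + 1 - d i : ℕ) + 1) else 0)) := by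
      have h2 : ∑ i ∈ univ.filter (fun i => d i ≤ b ∨ 2 * m + 1 - d i ≤ b), (1 : ℚ) / (b + 1)
          ≤ ∑ i ∈ univ.filter (fun i => d i ≤ b ∨ 2 * m + 1 - d i ≤ b),
            ((if d i < m then (1 : ℚ) / (d i + 1) else 0)
      + (if 2 * m + 1 - d i < m then (1 : ℚ) / ((2 * m + 1 - d i : ℕ) + 1) else 0)) := by
        apply sum_le_sum
        intro i hi
        rcases (mem_filter.1 hi).2 with h | h
        · rw [if_pos (by omega : d i < m)]
          have h3 : (1 : ℚ) / (b + 1) ≤ 1 / (d i + 1) := by
            apply one_div_le_one_div_of_le (by positivity)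
            have : (d i : ℚ) ≤ b := by exact_mod_cast h
            linarith
          have h4 : (0 : ℚ) ≤ if 2 * m + 1 - d i < m then
              (1 : ℚ) / ((2 * m + 1 - d i : ℕ) + 1) else 0 := by
            split_ifs <;> positivity
          linarith
        · rw [if_pos (by omega : 2 * m + 1 - d i < m)]
          have h3 : (1 : ℚ) / (b + 1) ≤ 1 / ((2 * m + 1 - d i : ℕ) + 1) := by
            apply one_div_le_one_div_of_le (by positivity)
            have : ((2 * m + 1 - d i : ℕ) : ℚ) ≤ b := by exact_mod_cast h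
            linarith
          have h4 : (0 : ℚ) ≤ if d i < m then (1 : ℚ) / (d i + 1) else 0 := by
            split_ifs <;> positivity
          linarith
      refine h2.trans ?_
      apply sum_le_sum_of_subset_of_nonneg (filter_subset _ _)
      intro i _ _
      apply add_nonneg
      · split_ifs <;> positivity
      · split_ifs <;> positivity
    rw [sum_const, nsmul_eq_mul] at h1
    have h5 : (2 * b + 2 : ℚ) ≤ (univ.filter (fun i => d i ≤ b ∨ 2 * m + 1 - d i ≤ b)).card := by
      exact_mod_cast hc
    have h6 : (2 : ℚ) ≤ ((univ.filter (fun i => d i ≤ b ∨ 2 * m + 1 - d i ≤ b)).card : ℚ)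
        * (1 / (b + 1)) := by
      rw [mul_one_div, le_div_iff₀ (by positivity)]
      linarith
    have := h6.trans h1
    linarith
  have compl : ∀ b, b < m → 2 * m - 2 * b ≤
      (univ.filter (fun i => ((2 * m + 1 : ℤ) - 2 * (d i : ℤ)).natAbs ≤ 2 * m - 1 - 2 * b)).card := by
    intro b hb
    have h1 := key b hb
    have h2 := card_filter_add_card_filter_not (s := (univ : Finset (Fin (2 * m + 1))))
      (fun i => d i ≤ b ∨ 2 * m + 1 - d i ≤ b)
    rw [card_univ, Fintype.card_fin] at h2
    have h3 : (univ.filter (fun i => ¬ (d i ≤ b ∨ 2 * m + 1 - d i ≤ b))).card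
        ≤ (univ.filter (fun i => ((2 * m + 1 : ℤ) - 2 * (d i : ℤ)).natAbs ≤ 2 * m - 1 - 2 * b)).card := by
      apply card_le_card
      intro i hi
      simp only [mem_filter, mem_univ, true_and] at hi ⊢
      have := hdle i
      omega
    omega
  intro t ht1 ht2
  rcases Nat.even_or_odd' t with ⟨u, hu | hu⟩
  · -- t = 2u, use b = m - u
    have h1 := compl (m - u) (by omega)
    refine le_trans ?_ (h1.trans ?_)
    · omega
    · apply card_le_card
      intro i hi
      simp only [mem_filter, mem_univ, true_and] at hi ⊢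
      have hdi : d i = (symmDiff S (B i)).card := rfl
      omega
  · rcases Nat.lt_or_ge u m with hum | hum
    · have h1 := compl (m - u - 1) (by omega)
      refine le_trans ?_ (h1.trans ?_)
      · omega
      · apply card_le_card
        intro i hi
        simp only [mem_filter, mem_univ, true_and] at hi ⊢
        have hdi : d i = (symmDiff S (B i)).card := rfl
        omega
    · have h2 : univ.filter (fun i => ((2 * m + 1 : ℤ) - 2 * (d i : ℤ)).natAbs ≤ t) = univ := by
        apply filter_true_of_mem
        intro i _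
        have := hdle i
        omega
      rw [h2, card_univ, Fintype.card_fin]
      exact ht2

theorem card_flip {n : ℕ} (D : Finset (Fin n)) (j : Fin n) :
    (symmDiff D {j}).card = if j ∈ D then D.card - 1 else D.card + 1 := by
  split_ifs with h
  · have : symmDiff D {j} = D.erase j := by
      ext i
      simp only [mem_symmDiff, mem_singleton, mem_erase]
      constructor
      · rintro (⟨h1, h2⟩ | ⟨h1, h2⟩)
        · exact ⟨h2, h1⟩
        · subst h1; exact absurd h h2
      · rintro ⟨h1, h2⟩
        exact Or.inl ⟨h2, h1⟩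
    rw [this, card_erase_of_mem h]
  · have : symmDiff D {j} = insert j D := by
      ext i
      simp only [mem_symmDiff, mem_singleton, mem_insert]
      constructor
      · rintro (⟨h1, h2⟩ | ⟨h1, h2⟩)
        · exact Or.inr h1
        · exact Or.inl h1
      · rintro (h1 | h1)
        · subst h1; exact Or.inr ⟨rfl, h⟩
        · refine Or.inl ⟨h1, ?_⟩
          rintro rfl
          exact h h1
    rw [this, card_insert_of_notMem h]

theorem sum_flip {n : ℕ} (D : Finset (Fin n)) (ψ : ℕ → ℤ) :
    ∑ j, ψ (symmDiff D {j}).card = (D.card : ℤ) * ψ (D.card - 1)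
      + ((n : ℤ) - D.card) * ψ (D.card + 1) := by
  have h1 : ∀ j, ψ (symmDiff D {j}).card = if j ∈ D then ψ (D.card - 1) else ψ (D.card + 1) := by
    intro j
    rw [card_flip]
    split_ifs <;> rfl
  rw [sum_congr rfl (fun j _ => h1 j), sum_ite, sum_const, sum_const]
  have h2 : univ.filter (fun j => j ∈ D) = D := by ext; simp
  have h3 := card_filter_add_card_filter_not (s := (univ : Finset (Fin n))) (fun j => j ∈ D)
  rw [h2, card_univ, Fintype.card_fin] at h3
  rw [h2, nsmul_eq_mul, nsmul_eq_mul]
  have h4 : ((univ.filter (fun j => ¬ j ∈ D)).card : ℤ) = (n : ℤ) - D.card := by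
    omega
  rw [h4]

theorem even_min (m : ℕ) (B : Fin (2 * m) → Finset (Fin (2 * m))) :
    ∃ S : Finset (Fin (2 * m)), 0 ≤ ∑ i,
      (2 * ((m : ℤ) + 1) * (if ((m : ℤ) - (symmDiff S (B i)).card).natAbs = 1 then 1 else 0)
        - 2 * m * (if ((m : ℤ) - (symmDiff S (B i)).card).natAbs = 0 then 1 else 0)
        - 2 * (((m : ℤ) - (symmDiff S (B i)).card).natAbs : ℤ)) := by
  set ψ : ℕ → ℤ := fun d => |(m : ℤ) - d| + 2 * (if d = m then 1 else 0) with hψ
  obtain ⟨S, _, hS⟩ := exists_min_image (univ : Finset (Finset (Fin (2 * m))))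
    (fun S => ∑ i, ψ (symmDiff S (B i)).card) ⟨∅, mem_univ _⟩
  refine ⟨S, ?_⟩
  have h1 : ∑ j : Fin (2 * m), ∑ i, ψ (symmDiff S (B i)).card
      ≤ ∑ j : Fin (2 * m), ∑ i, ψ (symmDiff (symmDiff S {j}) (B i)).card :=
    sum_le_sum (fun j _ => hS _ (mem_univ _))
  rw [sum_const, card_univ, Fintype.card_fin, nsmul_eq_mul, mul_sum, sum_comm] at h1
  have h2 : ∀ i, ∑ j, ψ (symmDiff (symmDiff S {j}) (B i)).card
      = ((symmDiff S (B i)).card : ℤ) * ψ ((symmDiff S (B i)).card - 1)
      + (((2 * m : ℕ) : ℤ) - (symmDiff S (B i)).card) * ψ ((symmDiff S (B i)).card + 1) := by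
    intro i
    rw [← sum_flip]
    apply sum_congr rfl
    intro j _
    rw [symmDiff_right_comm]
  rw [sum_congr rfl (fun i _ => h2 i)] at h1
  have h3 := sub_nonneg.2 h1
  rw [← sum_sub_distrib] at h3
  refine h3.trans (sum_le_sum ?_)
  intro i _
  set d := (symmDiff S (B i)).card with hd
  have hdle : d ≤ 2 * m := by
    have := card_le_univ (symmDiff S (B i))
    simpa using this
  simp only [hψ]
  rcases lt_trichotomy d m with h | h | h
  · -- d < m
    rcases Nat.lt_or_ge (d + 1) m with h' | h'
    · rw [if_neg (by omega), if_neg (by omega), if_neg (by omega), if_neg (by omega),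
        if_neg (by omega)]
      rcases Nat.eq_zero_or_pos d with h0 | h0
      · rw [h0]
        have e1 : |(m : ℤ) - ((0 + 1 : ℕ) : ℤ)| = m - 1 := by
          rw [abs_of_nonneg] <;> push_cast <;> omega
        have e2 : |(m : ℤ) - ((0 : ℕ) : ℤ)| = m := by
          rw [abs_of_nonneg] <;> push_cast <;> omega
        rw [e1, e2]
        have e3 : (((m : ℤ) - ((0 : ℕ) : ℤ)).natAbs : ℤ) = m := by
          omega
        rw [e3]
        push_cast
        nlinarith
      · have e0 : |(m : ℤ) - ((d - 1 : ℕ) : ℤ)| = m - d + 1 := by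
          rw [abs_of_nonneg] <;> omega
        have e1 : |(m : ℤ) - ((d + 1 : ℕ) : ℤ)| = m - d - 1 := by
          rw [abs_of_nonneg] <;> omega
        have e2 : |(m : ℤ) - (d : ℤ)| = m - d := by
          rw [abs_of_nonneg]; omega
        have e3 : (((m : ℤ) - (d : ℤ)).natAbs : ℤ) = m - d := by
          omega
        rw [e0, e1, e2, e3]
        push_cast
        nlinarith
    · -- d + 1 = m
      have hm : m = d + 1 := by omega
      rw [if_neg (by omega), if_pos (by omega), if_neg (by omega), if_pos (by omega),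
        if_neg (by omega)]
      have e1 : |(m : ℤ) - ((d + 1 : ℕ) : ℤ)| = 0 := by
        rw [hm]; simp
      have e2 : |(m : ℤ) - (d : ℤ)| = 1 := by
        rw [hm]; simp
      have e3 : (((m : ℤ) - (d : ℤ)).natAbs : ℤ) = 1 := by
        omega
      rcases Nat.eq_zero_or_pos d with h0 | h0
      · rw [e1, e2, e3, hm, h0]; simp
      · have e0 : |(m : ℤ) - ((d - 1 : ℕ) : ℤ)| = 2 := by
          rw [abs_of_nonneg] <;> omega
        rw [e0, e1, e2, e3, hm]
        push_cast
        nlinarith
  · -- d = m
    rcases Nat.eq_zero_or_pos m with h0 | h0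
    · rw [h, h0]; simp
    · rw [h]
      rw [if_neg (by omega), if_neg (by omega), if_pos (by omega), if_neg (by omega),
        if_pos (by omega)]
      have e0 : |(m : ℤ) - ((m - 1 : ℕ) : ℤ)| = 1 := by
        rw [abs_of_nonneg] <;> omega
      have e1 : |(m : ℤ) - ((m + 1 : ℕ) : ℤ)| = 1 := by
        rw [abs_of_nonpos] <;> push_cast <;> omega
      have e2 : |(m : ℤ) - (m : ℤ)| = 0 := by simp
      rw [e0, e1, e2]
      simp
      nlinarith
  · -- d > m
    have e1 : |(m : ℤ) - ((d + 1 : ℕ) : ℤ)| = d - m + 1 := by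
      rw [abs_of_nonpos] <;> push_cast <;> omega
    have e2 : |(m : ℤ) - (d : ℤ)| = d - m := by
      rw [abs_of_nonpos] <;> omega
    have e0 : |(m : ℤ) - ((d - 1 : ℕ) : ℤ)| = d - m - 1 := by
      rw [abs_of_nonpos] <;> omega
    have e3 : (((m : ℤ) - (d : ℤ)).natAbs : ℤ) = d - m := by
      omega
    rw [e0, e1, e2, e3]
    rcases Nat.lt_or_ge (m + 1) d with h' | h'
    · rw [if_neg (by omega), if_neg (by omega), if_neg (by omega), if_neg (by omega),
        if_neg (by omega)]
      push_cast
      nlinarith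
    · rw [if_pos (by omega), if_neg (by omega), if_neg (by omega), if_pos (by omega),
        if_neg (by omega)]
      have hm : d = m + 1 := by omega
      rw [hm]
      push_cast
      nlinarith

/-- counting consequences in the even case -/
theorem even_counts (m : ℕ) (g : Fin (2 * m) → ℕ) (hgm : ∀ i, g i ≤ m)
    (hg : 0 ≤ ∑ i, (2 * ((m : ℤ) + 1) * (if g i = 1 then 1 else 0)
        - 2 * m * (if g i = 0 then 1 else 0) - 2 * (g i : ℤ))) :
    ∀ t, 1 ≤ t → t ≤ (univ.filter (fun i => 1 ≤ g i)).card →
      t ≤ ((univ.filter (fun i => 1 ≤ g i)).filter (fun i => g i ≤ t)).card := by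
  intro t ht1 ht2
  by_contra hc
  push Not at hc
  set M := ((univ.filter (fun i => 1 ≤ g i)).filter (fun i => g i ≤ t)).card with hM
  set Q := (univ.filter (fun i => t + 1 ≤ g i)).card with hQ
  set z := (univ.filter (fun i => g i = 0)).card with hz
  set N := (univ.filter (fun i => g i = 1)).card with hN
  have hM' : M = (univ.filter (fun i => 1 ≤ g i ∧ g i ≤ t)).card := by
    rw [hM, filter_filter]
  -- partition
  have hsum : z + M + Q = 2 * m := by
    have h1 := card_filter_add_card_filter_not (s := (univ : Finset (Fin (2 * m))))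
      (fun i => g i = 0)
    have h2 := card_filter_add_card_filter_not
      (s := (univ : Finset (Fin (2 * m))).filter (fun i => ¬ g i = 0)) (fun i => g i ≤ t)
    rw [card_univ, Fintype.card_fin] at h1
    rw [filter_filter, filter_filter] at h2
    have h3 : (univ.filter (fun i => ¬ g i = 0 ∧ g i ≤ t)).card = M := by
      rw [hM']
      congr 1
      ext i; simp only [mem_filter, mem_univ, true_and]; omega
    have h4 : (univ.filter (fun i => ¬ g i = 0 ∧ ¬ g i ≤ t)).card = Q := by
      rw [hQ]
      congr 1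
      ext i; simp only [mem_filter, mem_univ, true_and]; omega
    rw [h3, h4] at h2
    omega
  have hpos : (univ.filter (fun i => 1 ≤ g i)).card = M + Q := by
    have h1 := card_filter_add_card_filter_not (s := (univ : Finset (Fin (2 * m))))
      (fun i => g i = 0)
    rw [card_univ, Fintype.card_fin] at h1
    have h2 : (univ.filter (fun i => ¬ g i = 0)).card = (univ.filter (fun i => 1 ≤ g i)).card := by
      congr 1
      ext i; simp only [mem_filter, mem_univ, true_and]; omega
    omega
  rw [hpos] at ht2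
  have hQ1 : 1 ≤ Q := by omega
  have htm : t + 1 ≤ m := by
    obtain ⟨i, hi⟩ := card_pos.1 hQ1
    exact (mem_filter.1 hi).2.trans (hgm i)
  have hNM : N ≤ M := by
    rw [hM', hN]
    apply card_le_card
    intro i hi
    simp only [mem_filter, mem_univ, true_and] at hi ⊢
    omega
  -- lower bound for the sum of g
  have hlow : M + (t + 1) * Q ≤ ∑ i, g i := by
    have h1 : ∑ i : Fin (2 * m), ((if 1 ≤ g i ∧ g i ≤ t then 1 else 0)
        + (t + 1) * (if t + 1 ≤ g i then 1 else 0)) ≤ ∑ i, g i := by
      apply sum_le_sum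
      intro i _
      split_ifs <;> omega
    rw [sum_add_distrib, ← mul_sum, sum_boole, sum_boole] at h1
    rw [hM', hQ]
    exact_mod_cast h1
  rw [sum_sub_distrib, sum_sub_distrib, ← mul_sum, ← mul_sum, ← mul_sum, sum_boole, sum_boole] at hg
  have hg' : (0 : ℤ) ≤ 2 * (m + 1) * N - 2 * m * z - 2 * (∑ i, g i : ℕ) := by
    push_cast
    exact hg
  have hlow' : (M : ℤ) + (t + 1) * Q ≤ (∑ i, g i : ℕ) := by exact_mod_cast hlow
  have h5 : ((m : ℤ) + 1) * N ≤ (m + 1) * M := by
    have : (N : ℤ) ≤ M := by exact_mod_cast hNM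
    nlinarith
  have hsum' : (z : ℤ) + M + Q = 2 * m := by exact_mod_cast hsum
  have h6 : ((t : ℤ) + 1) * Q + m * z ≤ m * M := by linarith
  have htm' : (t : ℤ) + 1 ≤ m := by exact_mod_cast htm
  have hz0 : (0 : ℤ) ≤ z := by positivity
  have h7 : ((t : ℤ) + 1) * (2 * m - M) ≤ m * M := by
    have h9 := mul_nonneg (sub_nonneg.2 htm') hz0
    have h10 : (2 * m - M : ℤ) = z + Q := by linarith
    rw [h10]
    linarith
  have hMt : (M : ℤ) ≤ t - 1 := by omega
  have hM0 : (0 : ℤ) ≤ M := by positivity
  have ht0 : (1 : ℤ) ≤ t := by exact_mod_cast ht1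
  -- (t+1)(2m) ≤ (m+t+1) M ≤ (2m) M ≤ 2m(t-1)
  have h8 : ((t : ℤ) + 1) * (2 * m) ≤ 2 * m * M := by
    have h9 := mul_nonneg (sub_nonneg.2 htm') hM0
    linarith
  have hm0 : (0 : ℤ) ≤ m := by positivity
  have h10 := mul_nonneg hm0 (sub_nonneg.2 hMt)
  linarith

/-- Main theorem. -/
theorem main (n : ℕ) (A : Fin n → Fin n → ℤ) (hA : ∀ i j, A i j = 1 ∨ A i j = -1) :
    ∃ r c : Fin n → ℤ, (∀ i, r i = 1 ∨ r i = -1) ∧ (∀ j, c j = 1 ∨ c j = -1) ∧
      |∑ i, ∑ j, r i * c j * A i j| ≤ 2 := by
  rcases Nat.even_or_odd' n with ⟨m, rfl | rfl⟩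
  · -- even
    obtain ⟨S, hS⟩ := even_min m (fun i => univ.filter (fun j => A i j = -1))
    set g : Fin (2 * m) → ℕ := fun i =>
      ((m : ℤ) - (symmDiff S (univ.filter (fun j => A i j = -1))).card).natAbs with hg
    have hgm : ∀ i, g i ≤ m := by
      intro i
      have := card_le_univ (symmDiff S (univ.filter (fun j => A i j = -1)))
      rw [Fintype.card_fin] at this
      simp only [hg]
      omega
    have hcount := even_counts m g hgm hS
    obtain ⟨ε, hε, hb⟩ := greedy g _ (univ.filter (fun i => 1 ≤ g i)) 0 rfl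
      (fun i hi => (mem_filter.1 hi).2) hcount (by simp; positivity)
    refine ⟨fun i => ε i * (if 0 ≤ (m : ℤ)
        - (symmDiff S (univ.filter (fun j => A i j = -1))).card then 1 else -1), csgn S, ?_,
        csgn_or S, ?_⟩
    · intro i
      rcases hε i with h | h <;> · simp only [h]; split_ifs <;> simp
    · have h1 : ∀ i, ∑ j, (ε i * (if 0 ≤ (m : ℤ)
        - (symmDiff S (univ.filter (fun j => A i j = -1))).card then 1 else -1)) * csgn S j * A i j
          = 2 * (ε i * g i) := by
        intro i
        have h2 := rowsum (A i) (hA i) S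
        have h3 : ∀ j, (ε i * (if 0 ≤ (m : ℤ)
          - (symmDiff S (univ.filter (fun j => A i j = -1))).card then 1 else -1)) * csgn S j * A i j
            = (ε i * (if 0 ≤ (m : ℤ)
          - (symmDiff S (univ.filter (fun j => A i j = -1))).card then 1 else -1))
            * (csgn S j * A i j) := fun j => by ring
        rw [sum_congr rfl (fun j _ => h3 j), ← mul_sum, h2]
        simp only [hg]
        push_cast
        split_ifs with h4
        · rw [abs_of_nonneg h4]; ring
        · rw [abs_of_neg (not_le.1 h4)]; ring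
      rw [sum_congr rfl (fun i _ => h1 i), ← mul_sum, abs_mul]
      have h5 : ∑ i, ε i * (g i : ℤ) = ∑ i ∈ univ.filter (fun i => 1 ≤ g i), ε i * (g i : ℤ) := by
        symm
        apply sum_subset (filter_subset _ _)
        intro i _ hi
        have : g i = 0 := by
          simp only [mem_filter, mem_univ, true_and] at hi
          omega
        rw [this]; simp
      rw [h5]
      rw [zero_add] at hb
      have h6 : |(2 : ℤ)| = 2 := rfl
      rw [h6]
      linarith
  · -- odd
    obtain ⟨S, hS⟩ := odd_counts m (fun i => univ.filter (fun j => A i j = -1))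
    set h : Fin (2 * m + 1) → ℕ := fun i =>
      ((2 * m + 1 : ℤ) - 2 * ((symmDiff S (univ.filter (fun j => A i j = -1))).card : ℤ)).natAbs
      with hh
    obtain ⟨ε, hε, hb⟩ := greedy h _ univ 0 rfl (fun i _ => by simp only [hh]; omega)
      (by
        intro t ht1 ht2
        rw [card_univ, Fintype.card_fin] at ht2
        exact hS t ht1 ht2) (by simp; positivity)
    refine ⟨fun i => ε i * (if 0 ≤ (2 * m + 1 : ℤ)
        - 2 * ((symmDiff S (univ.filter (fun j => A i j = -1))).card : ℤ) then 1 else -1),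
        csgn S, ?_, csgn_or S, ?_⟩
    · intro i
      rcases hε i with h | h <;> · simp only [h]; split_ifs <;> simp
    · have h1 : ∀ i, ∑ j, (ε i * (if 0 ≤ (2 * m + 1 : ℤ)
        - 2 * ((symmDiff S (univ.filter (fun j => A i j = -1))).card : ℤ) then 1 else -1))
          * csgn S j * A i j = ε i * h i := by
        intro i
        have h2 := rowsum (A i) (hA i) S
        have h3 : ∀ j, (ε i * (if 0 ≤ (2 * m + 1 : ℤ)
          - 2 * ((symmDiff S (univ.filter (fun j => A i j = -1))).card : ℤ) then 1 else -1))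
            * csgn S j * A i j
            = (ε i * (if 0 ≤ (2 * m + 1 : ℤ)
          - 2 * ((symmDiff S (univ.filter (fun j => A i j = -1))).card : ℤ) then 1 else -1))
            * (csgn S j * A i j) := fun j => by ring
        rw [sum_congr rfl (fun j _ => h3 j), ← mul_sum, h2]
        simp only [hh]
        push_cast
        split_ifs with h4
        · rw [abs_of_nonneg h4]; ring
        · rw [abs_of_neg (not_le.1 h4)]; ring
      rw [sum_congr rfl (fun i _ => h1 i)]
      rw [zero_add] at hb
      linarith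

end Pool.Agent.H9.MPf1eca3
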