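import Mathlib

set_option autoImplicit false

namespace Pool.Agent.H9.MPf3b8e9

open TopologicalSpace

/-- The space `A(Ω)` of analytic functions on the open set `Ω`, as a linear subspace of the
continuous functions on `Ω` with the compact-open topology (uniform convergence on compact
subsets). -/
def AA (Ω : Opens ℂ) : Submodule ℂ C(Ω, ℂ) where
  carrier := {f | ∃ F : ℂ → ℂ, DifferentiableOn ℂ F (Ω : Set ℂ) ∧ ∀ z : Ω, f z = F z}
  add_mem' := by
    rintro f g ⟨F, hF, hf⟩ ⟨G, hG, hg⟩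
    exact ⟨fun z => F z + G z, hF.add hG, fun z => by simp [hf, hg]⟩
  zero_mem' := ⟨fun _ => 0, differentiableOn_const 0, fun _ => rfl⟩
  smul_mem' := by
    rintro c f ⟨F, hF, hf⟩
    exact ⟨fun z => c * F z, hF.const_mul c, fun z => by simp [hf]⟩

/-- The function `f` on `Ω`, extended by zero outside of `Ω`. -/
noncomputable def extz {Ω : Opens ℂ} (f : AA Ω) : ℂ → ℂ := by
  classical
  exact fun z => if h : z ∈ Ω then f.1 ⟨z, h⟩ else 0

theorem extz_apply {Ω : Opens ℂ} (f : AA Ω) (z : Ω) : extz f z = f.1 z := by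
  unfold extz
  rw [dif_pos z.2]

theorem extz_diff {Ω : Opens ℂ} (f : AA Ω) : DifferentiableOn ℂ (extz f) (Ω : Set ℂ) := by
  obtain ⟨F, hF, hf⟩ := f.2
  refine hF.congr fun z hz => ?_
  rw [extz_apply f ⟨z, hz⟩]
  exact hf ⟨z, hz⟩

/-- The differential expression `F⁽ⁿ⁾ + a_{n-2} F⁽ⁿ⁻²⁾ + ... + a_0 F`. -/
noncomputable def ellFun {n : ℕ} (a : Fin (n - 1) → ℂ → ℂ) (F : ℂ → ℂ) (z : ℂ) : ℂ :=
  iteratedDeriv n F z + ∑ k : Fin (n - 1), a k z * iteratedDeriv k F z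

theorem iter_diff {Ω : Opens ℂ} {F : ℂ → ℂ} (hF : DifferentiableOn ℂ F (Ω : Set ℂ)) (k : ℕ) :
    DifferentiableOn ℂ (iteratedDeriv k F) (Ω : Set ℂ) := by
  induction k with
  | zero => simpa using hF
  | succ k ih =>
    rw [iteratedDeriv_succ]
    exact ih.deriv Ω.isOpen

theorem ellFun_diff {Ω : Opens ℂ} {n : ℕ} (a : Fin (n - 1) → AA Ω) (f : AA Ω) :
    DifferentiableOn ℂ (ellFun (fun k => extz (a k)) (extz f)) (Ω : Set ℂ) := by
  unfold ellFun
  refine (iter_diff (extz_diff f) n).add ?_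
  refine DifferentiableOn.fun_sum fun k _ => ?_
  exact (extz_diff (a k)).mul (iter_diff (extz_diff f) k)

/-- The operator `f ↦ ℓ f` on `A(Ω)`. -/
noncomputable def ell {Ω : Opens ℂ} {n : ℕ} (a : Fin (n - 1) → AA Ω) (f : AA Ω) : AA Ω :=
  ⟨⟨fun z => ellFun (fun k => extz (a k)) (extz f) z,
    continuousOn_iff_continuous_domRestrict.1 (ellFun_diff a f).continuousOn⟩,
    _, ellFun_diff a f, fun _ => rfl⟩

/-- `Δ` does not vanish identically: for some `lam` the solutions `y_k` of `ℓ y = lam y` with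
`y_k⁽ᵖ⁾(0) = δ_{k,p+1}` have nonzero determinant of the functional values. -/
def DeltaNeZero {Ω : Opens ℂ} {n : ℕ} (a : Fin (n - 1) → AA Ω)
    (φ : Fin n → (AA Ω →L[ℂ] ℂ)) : Prop :=
  ∃ (lam : ℂ) (y : Fin n → AA Ω),
    (∀ k, ell a (y k) = lam • y k) ∧
    (∀ k p : Fin n, iteratedDeriv p (extz (y k)) 0 = if k = p then 1 else 0) ∧
    (Matrix.of fun k j => φ j (y k)).det ≠ 0

/-- Root vectors of the operator. -/
def IsRootVector {Ω : Opens ℂ} {n : ℕ} (a : Fin (n - 1) → AA Ω)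
    (φ : Fin n → (AA Ω →L[ℂ] ℂ)) (f : AA Ω) : Prop :=
  f ≠ 0 ∧ ∃ (lam : ℂ) (m : ℕ), 1 ≤ m ∧ (∀ q < m, ∀ j, φ j ((ell a)^[q] f) = 0) ∧
    (fun g => ell a g - lam • g)^[m] f = 0

/-- The closure of the linear span of the root vectors. -/
def Cl {Ω : Opens ℂ} {n : ℕ} (a : Fin (n - 1) → AA Ω) (φ : Fin n → (AA Ω →L[ℂ] ℂ)) :
    Set (AA Ω) :=
  closure (Submodule.span ℂ {f | IsRootVector a φ f} : Set (AA Ω))

/-- The common domain of all powers of the operator. -/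
def Dinf {Ω : Opens ℂ} {n : ℕ} (a : Fin (n - 1) → AA Ω) (φ : Fin n → (AA Ω →L[ℂ] ℂ)) :
    Set (AA Ω) :=
  {f | ∀ (q : ℕ) (j : Fin n), φ j ((ell a)^[q] f) = 0}

end Pool.Agent.H9.MPf3b8e9
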