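import Mathlib

set_option autoImplicit false

namespace Pool.Agent.H9.MPf3b8e9F

/-- `φ` is a continuous linear functional on the space `A(Ω)` of functions analytic on `Ω` (with
uniform convergence on compact subsets). An element of `A(Ω)` is given by a function `F : ℂ → ℂ`
that is differentiable on the open set `Ω`; only its values on `Ω` matter. -/
structure IsFunctional (Ω : Set ℂ) (φ : (ℂ → ℂ) → ℂ) : Prop where
  add : ∀ F G : ℂ → ℂ, DifferentiableOn ℂ F Ω → DifferentiableOn ℂ G Ω → φ (F + G) = φ F + φ G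
  smul : ∀ (c : ℂ) (F : ℂ → ℂ), DifferentiableOn ℂ F Ω → φ (c • F) = c * φ F
  bound : ∃ K ⊆ Ω, IsCompact K ∧ ∃ C : ℝ, ∀ F : ℂ → ℂ, DifferentiableOn ℂ F Ω →
    ∀ B : ℝ, (∀ z ∈ K, ‖F z‖ ≤ B) → ‖φ F‖ ≤ C * B

/-- The differential expression `ℓ F = F⁽ⁿ⁾ + a_{n-2} F⁽ⁿ⁻²⁾ + ... + a_0 F`. -/
noncomputable def ell {n : ℕ} (a : Fin (n - 1) → ℂ → ℂ) (F : ℂ → ℂ) : ℂ → ℂ :=
  fun z => iteratedDeriv n F z + ∑ k : Fin (n - 1), a k z * iteratedDeriv k F z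

/-- `Δ` does not vanish identically: for some `lam` the solutions `y_k ∈ A(Ω)` of `ℓ y = lam y`
with `y_k⁽ᵖ⁾(0) = δ_{k,p+1}` have nonzero determinant of the functional values. -/
def DeltaNeZero (Ω : Set ℂ) {n : ℕ} (a : Fin (n - 1) → ℂ → ℂ) (φ : Fin n → (ℂ → ℂ) → ℂ) : Prop :=
  ∃ (lam : ℂ) (y : Fin n → ℂ → ℂ), (∀ k, DifferentiableOn ℂ (y k) Ω) ∧
    (∀ k, ∀ z ∈ Ω, ell a (y k) z = lam * y k z) ∧
    (∀ k p : Fin n, iteratedDeriv p (y k) 0 = if k = p then 1 else 0) ∧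
    (Matrix.of fun k j => φ j (y k)).det ≠ 0

/-- Root vectors of the operator `L : f ↦ ℓ f` with domain given by the conditions `φ_j f = 0`. -/
def IsRootVector (Ω : Set ℂ) {n : ℕ} (a : Fin (n - 1) → ℂ → ℂ) (φ : Fin n → (ℂ → ℂ) → ℂ)
    (F : ℂ → ℂ) : Prop :=
  DifferentiableOn ℂ F Ω ∧ (∃ z ∈ Ω, F z ≠ 0) ∧ ∃ (lam : ℂ) (m : ℕ), 1 ≤ m ∧
    (∀ q < m, ∀ j, φ j ((ell a)^[q] F) = 0) ∧ ∀ z ∈ Ω, (fun G => ell a G - lam • G)^[m] F z = 0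

/-- `F` lies in the closure in `A(Ω)` of the linear span of the root vectors. -/
def InCl (Ω : Set ℂ) {n : ℕ} (a : Fin (n - 1) → ℂ → ℂ) (φ : Fin n → (ℂ → ℂ) → ℂ)
    (F : ℂ → ℂ) : Prop :=
  DifferentiableOn ℂ F Ω ∧ ∀ K ⊆ Ω, IsCompact K → ∀ ε : ℝ, 0 < ε →
    ∃ G ∈ Submodule.span ℂ {G | IsRootVector Ω a φ G}, ∀ z ∈ K, ‖F z - G z‖ < ε

/-- `F` lies in the common domain of all powers of the operator. -/
def InDinf (Ω : Set ℂ) {n : ℕ} (a : Fin (n - 1) → ℂ → ℂ) (φ : Fin n → (ℂ → ℂ) → ℂ)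
    (F : ℂ → ℂ) : Prop :=
  DifferentiableOn ℂ F Ω ∧ ∀ (q : ℕ) (j : Fin n), φ j ((ell a)^[q] F) = 0

end Pool.Agent.H9.MPf3b8e9F
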