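import Mathlib
import Pool.Agent.H9.MPf3b8e9Defs

set_option autoImplicit false

namespace Pool.Agent.H9.MPf3b8e9

open TopologicalSpace

variable {Ω : Opens ℂ}

/-- The derivative of an analytic function on `Ω`. -/
noncomputable def der {Ω : Opens ℂ} (f : AA Ω) : AA Ω :=
  ⟨⟨fun z => deriv (extz f) z,
    continuousOn_iff_continuous_domRestrict.1 (((extz_diff f).deriv Ω.isOpen).continuousOn)⟩,
    deriv (extz f), (extz_diff f).deriv Ω.isOpen, fun _ => rfl⟩

/-- `F` represents `f`. -/
def Rep (f : AA Ω) (F : ℂ → ℂ) : Prop :=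
  DifferentiableOn ℂ F (Ω : Set ℂ) ∧ ∀ z : Ω, f.1 z = F z

theorem Rep.eq {f g : AA Ω} {F : ℂ → ℂ} (hf : Rep f F) (hg : Rep g F) : f = g := by
  apply Subtype.ext
  ext z
  rw [hf.2, hg.2]

theorem Rep.der {f : AA Ω} {F : ℂ → ℂ} (hf : Rep f F) : Rep (der f) (deriv F) := by
  refine ⟨hf.1.deriv Ω.isOpen, fun z => ?_⟩
  show deriv (extz f) z = deriv F z
  apply Filter.EventuallyEq.deriv_eq
  filter_upwards [Ω.isOpen.mem_nhds z.2] with w hw
  rw [extz_apply f ⟨w, hw⟩]
  exact hf.2 ⟨w, hw⟩

theorem Rep.iter {f : AA Ω} {F : ℂ → ℂ} (hf : Rep f F) (k : ℕ) :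
    Rep (MPf3b8e9.der^[k] f) (iteratedDeriv k F) := by
  induction k with
  | zero => simpa using hf
  | succ k ih =>
    rw [Function.iterate_succ_apply', iteratedDeriv_succ]
    exact ih.der

theorem Rep.sub {f g : AA Ω} {F G : ℂ → ℂ} (hf : Rep f F) (hg : Rep g G) :
    Rep (f - g) (fun z => F z - G z) := by
  refine ⟨hf.1.sub hg.1, fun z => ?_⟩
  show f.1 z - g.1 z = _
  rw [hf.2, hg.2]

theorem Rep.add {f g : AA Ω} {F G : ℂ → ℂ} (hf : Rep f F) (hg : Rep g G) :
    Rep (f + g) (fun z => F z + G z) := by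
  refine ⟨hf.1.add hg.1, fun z => ?_⟩
  show f.1 z + g.1 z = _
  rw [hf.2, hg.2]

theorem Rep.smul {f : AA Ω} {F : ℂ → ℂ} (hf : Rep f F) (c : ℂ) :
    Rep (c • f) (fun z => c * F z) := by
  refine ⟨hf.1.const_mul c, fun z => ?_⟩
  show c * f.1 z = _
  rw [hf.2]

theorem Rep.ext {f : AA Ω} : Rep f (extz f) := ⟨extz_diff f, fun z => (extz_apply f z).symm⟩

theorem Rep.congr {f : AA Ω} {F G : ℂ → ℂ} (hf : Rep f F) (h : ∀ z ∈ Ω, F z = G z) : Rep f G := by
  refine ⟨hf.1.congr fun z hz => (h z hz).symm, fun z => ?_⟩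
  rw [hf.2, h z z.2]

/-- existence of a member with given representative -/
theorem exists_rep (F : ℂ → ℂ) (hF : DifferentiableOn ℂ F (Ω : Set ℂ)) : ∃ f : AA Ω, Rep f F :=
  ⟨⟨⟨fun z => F z, continuousOn_iff_continuous_domRestrict.1 hF.continuousOn⟩, F, hF,
    fun _ => rfl⟩, hF, fun _ => rfl⟩

theorem ext_step (hconn : IsPreconnected (Ω : Set ℂ)) (h0 : (0 : ℂ) ∈ Ω) (f : AA Ω) (μ : ℂ)
    (H : ℂ → ℂ) (hH : Differentiable ℂ H) (hrep : Rep (der f - μ • f) H) :
    ∃ F : ℂ → ℂ, Differentiable ℂ F ∧ Rep f F := by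
  have hE : Differentiable ℂ (fun z : ℂ => Complex.exp (-μ * z)) := by fun_prop
  obtain ⟨P, hP⟩ := (Differentiable.isExactOn_univ (f := fun z => Complex.exp (-μ * z) * H z)
    (hE.mul hH))
  have hPd : ∀ z, HasDerivAt P (Complex.exp (-μ * z) * H z) z := fun z => hP z (Set.mem_univ z)
  set k : ℂ → ℂ := fun z => Complex.exp (-μ * z) * extz f z - P z with hk
  have hkd : ∀ z ∈ Ω, HasDerivAt k 0 z := by
    intro z hz
    have h1 : HasDerivAt (extz f) (deriv (extz f) z) z :=
      ((extz_diff f).differentiableAt (Ω.isOpen.mem_nhds hz)).hasDerivAt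
    have h2 : HasDerivAt (fun z : ℂ => Complex.exp (-μ * z)) (Complex.exp (-μ * z) * (-μ)) z := by
      have := ((hasDerivAt_id z).const_mul (-μ)).cexp
      simpa using this
    have h3 := (h2.mul h1).sub (hPd z)
    have h4 : H z = deriv (extz f) z - μ * extz f z := by
      have h5 := hrep.2 ⟨z, hz⟩
      have h6 : (der f - μ • f).1 ⟨z, hz⟩ = deriv (extz f) z - μ * f.1 ⟨z, hz⟩ := rfl
      rw [h6, ← extz_apply f ⟨z, hz⟩] at h5
      exact h5.symm
    have h5 : Complex.exp (-μ * z) * -μ * extz f z + Complex.exp (-μ * z) * deriv (extz f) z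
        - Complex.exp (-μ * z) * H z = 0 := by
      rw [h4]
      ring
    rw [h5] at h3
    exact h3
  have hconst : ∀ z ∈ Ω, k z = k 0 := fun z hz =>
    Ω.isOpen.is_const_of_deriv_eq_zero hconn
      (fun w hw => ((hkd w hw).differentiableAt).differentiableWithinAt)
      (fun w hw => (hkd w hw).deriv) hz h0
  refine ⟨fun z => Complex.exp (μ * z) * (P z + k 0), ?_, ?_⟩
  · have hPdiff : Differentiable ℂ P := fun z => (hPd z).differentiableAt
    fun_prop
  · refine Rep.ext.congr fun z hz => ?_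
    rw [← hconst z hz, hk]
    simp only [neg_mul]
    rw [add_sub_cancel, ← mul_assoc, ← Complex.exp_add, add_neg_cancel, Complex.exp_zero, one_mul]

/-- the operator for `n = 2`, zero potential -/
theorem extz_zero : extz (0 : AA Ω) = 0 := by
  funext z
  unfold extz
  split_ifs <;> rfl

theorem ell_zero (f : AA Ω) : ell (n := 2) (fun _ => (0 : AA Ω)) f = der (der f) := by
  have h1 : Rep (ell (n := 2) (fun _ => (0 : AA Ω)) f) (deriv (deriv (extz f))) := by
    refine ⟨((extz_diff f).deriv Ω.isOpen).deriv Ω.isOpen, fun z => ?_⟩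
    show ellFun (n := 2) (fun _ => extz (0 : AA Ω)) (extz f) z = _
    unfold ellFun
    rw [extz_zero]
    simp [iteratedDeriv_succ]
  exact h1.eq (Rep.ext.der.der)

theorem ext_root (hconn : IsPreconnected (Ω : Set ℂ)) (h0 : (0 : ℂ) ∈ Ω) (lam : ℂ) (m : ℕ) :
    ∀ f : AA Ω, (fun g => ell (n := 2) (fun _ => (0 : AA Ω)) g - lam • g)^[m] f = 0 →
      ∃ F : ℂ → ℂ, Differentiable ℂ F ∧ Rep f F := by
  obtain ⟨μ, hμ⟩ : ∃ μ : ℂ, μ * μ = lam := by
    obtain ⟨μ, hμ⟩ := IsAlgClosed.exists_pow_nat_eq lam (n := 2) (by norm_num)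
    exact ⟨μ, by rw [← hμ]; ring⟩
  induction m with
  | zero =>
    intro f hf
    refine ⟨fun _ => 0, differentiable_const _, ?_⟩
    simp only [Function.iterate_zero, id_eq] at hf
    rw [hf]
    exact ⟨differentiableOn_const _, fun z => rfl⟩
  | succ m ih =>
    intro f hf
    rw [Function.iterate_succ_apply] at hf
    obtain ⟨H, hH, hHr⟩ := ih _ hf
    rw [ell_zero] at hHr
    -- (D - μ) (D + μ) f
    have e1 : der (der f) - lam • f = der (der f - (-μ) • f) - μ • (der f - (-μ) • f) := by
      have hr := Rep.ext (f := f)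
      have r1 := (hr.der.der.sub (hr.smul lam))
      have r2 := (hr.der.sub (hr.smul (-μ))).der.sub ((hr.der.sub (hr.smul (-μ))).smul μ)
      refine r1.eq (r2.congr fun z hz => ?_)
      have hd1 : DifferentiableAt ℂ (extz f) z :=
        (extz_diff f).differentiableAt (Ω.isOpen.mem_nhds hz)
      have hd2 : DifferentiableAt ℂ (deriv (extz f)) z :=
        ((extz_diff f).deriv Ω.isOpen).differentiableAt (Ω.isOpen.mem_nhds hz)
      have h3 : deriv (fun z => deriv (extz f) z - -μ * extz f z) z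
          = deriv (deriv (extz f)) z - -μ * deriv (extz f) z :=
        (hd2.hasDerivAt.sub (hd1.hasDerivAt.const_mul (-μ))).deriv
      rw [h3, ← hμ]
      ring
    rw [e1] at hHr
    obtain ⟨G, hG, hGr⟩ := ext_step hconn h0 _ μ H hH hHr
    exact ext_step hconn h0 f (-μ) G hG hGr

/-- reflection principle through Taylor coefficients -/
theorem odd_about (F : ℂ → ℂ) (hF : Differentiable ℂ F) (c : ℂ)
    (h : ∀ q : ℕ, iteratedDeriv (2 * q) F c = 0) (w : ℂ) : F (c + w) = - F (c - w) := by
  have h1 : Differentiable ℂ (fun w => F (c + w) + F (c - w)) := by fun_prop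
  have h2 : ∀ n, iteratedDeriv n (fun w => F (c + w) + F (c - w)) 0 = 0 := by
    intro n
    have e1 : iteratedDeriv n (fun w => F (c + w) + F (c - w)) 0
        = iteratedDeriv n (fun w => F (c + w)) 0 + iteratedDeriv n (fun w => F (c - w)) 0 := by
      have c1 : ContDiffAt ℂ n (fun w => F (c + w)) 0 := by
        have : Differentiable ℂ (fun w => F (c + w)) := by fun_prop
        exact this.contDiff.contDiffAt
      have c2 : ContDiffAt ℂ n (fun w => F (c - w)) 0 := by
        have : Differentiable ℂ (fun w => F (c - w)) := by fun_prop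
        exact this.contDiff.contDiffAt
      exact iteratedDeriv_fun_add c1 c2
    rw [e1, iteratedDeriv_comp_const_add, iteratedDeriv_comp_const_sub]
    simp only [add_zero, sub_zero, smul_eq_mul]
    rcases Nat.even_or_odd' n with ⟨q, rfl | rfl⟩
    · rw [h q]
      simp
    · have : (-1 : ℂ) ^ (2 * q + 1) = -1 := by
        rw [pow_succ, pow_mul]
        norm_num
      rw [this]
      ring
  have h3 := Complex.taylorSeries_eq_of_entire' (c := 0) w h1
  simp only [h2, mul_zero, zero_mul, tsum_zero] at h3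
  exact eq_neg_of_add_eq_zero_left h3.symm

theorem periodic_entire (F : ℂ → ℂ) (hF : Differentiable ℂ F)
    (h : ∀ q : ℕ, iteratedDeriv (2 * q) F 0 = 0) (h' : ∀ q : ℕ, iteratedDeriv (2 * q) F 1 = 0)
    (z : ℂ) : F (z + 2) = F z := by
  have h1 := odd_about F hF 1 h' (1 + z)
  have h2 := odd_about F hF 0 h z
  rw [show (1 : ℂ) + (1 + z) = z + 2 by ring, show (1 : ℂ) - (1 + z) = 0 - z by ring] at h1
  rw [zero_add] at h2
  rw [h1, h2]


/-- centre of the disc -/
noncomputable def z0 : ℂ := ⟨1 / 2, 19 / 10⟩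

/-- the disc -/
noncomputable def DD : Opens ℂ := ⟨Metric.ball z0 2, Metric.isOpen_ball⟩

theorem mem_DD (z : ℂ) : z ∈ DD ↔ (z.re - 1 / 2) ^ 2 + (z.im - 19 / 10) ^ 2 < 4 := by
  show z ∈ Metric.ball z0 2 ↔ _
  rw [Metric.mem_ball, dist_eq_norm, ← abs_norm, ← sq_lt_sq₀ (abs_nonneg _) (by norm_num), sq_abs,
    ← Complex.normSq_eq_norm_sq, Complex.normSq_apply]
  simp only [z0, Complex.sub_re, Complex.sub_im]
  constructor <;> intro h <;> nlinarith

/-- `E = exp (π / 8)` -/
noncomputable def EE : ℝ := Real.exp (Real.pi / 8)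

theorem EE_pos : 0 < EE := Real.exp_pos _

/-- the denominator -/
noncomputable def den (z : ℂ) : ℂ := Complex.cos (Real.pi * z) - Complex.I * ((EE - EE⁻¹) / 2 : ℝ)

/-- the exponential variable -/
noncomputable def ze (z : ℂ) : ℂ := Complex.exp (Complex.I * (Real.pi * z))

theorem ze_norm (z : ℂ) : ‖ze z‖ = Real.exp (-(Real.pi * z.im)) := by
  unfold ze
  rw [Complex.norm_exp]
  simp

theorem ze_ne (z : ℂ) : ze z ≠ 0 := Complex.exp_ne_zero _

theorem den_eq (z : ℂ) : 2 * ze z * den z
    = (ze z - Complex.I * EE) * (ze z + Complex.I * (EE⁻¹ : ℝ)) := by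
  have h1 : Complex.cos (Real.pi * z) = (ze z + (ze z)⁻¹) / 2 := by
    unfold ze
    rw [← Complex.exp_neg, Complex.cos]
    congr 2
    · ring_nf
    · ring_nf
  have h2 := ze_ne z
  have h3 : (EE : ℂ) ≠ 0 := by exact_mod_cast EE_pos.ne'
  unfold den
  rw [h1]
  push_cast
  field_simp
  ring_nf
  rw [Complex.I_sq]
  ring

theorem den_ne (z : ℂ) (hz : z ∈ DD) : den z ≠ 0 := by
  intro h0
  rw [mem_DD] at hz
  have h1 := den_eq z
  rw [h0, mul_zero] at h1
  have hpi := Real.pi_pos
  rcases mul_eq_zero.1 h1.symm with h | h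
  · have h2 : ze z = Complex.I * EE := by linear_combination h
    have h3 := congrArg norm h2
    rw [ze_norm, norm_mul, Complex.norm_I, one_mul, Complex.norm_real, Real.norm_eq_abs,
      abs_of_pos EE_pos] at h3
    unfold EE at h3
    have h4 := Real.exp_injective h3
    have h5 : z.im = - (1 / 8) := by
      have : Real.pi * (z.im + 1 / 8) = 0 := by linarith
      rcases mul_eq_zero.1 this with h | h
      · exact absurd h hpi.ne'
      · linarith
    rw [h5] at hz
    nlinarith [sq_nonneg (z.re - 1 / 2)]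
  · have h2 : ze z = - Complex.I * (EE⁻¹ : ℝ) := by linear_combination h
    have h3 := congrArg norm h2
    rw [ze_norm, norm_mul, norm_neg, Complex.norm_I, one_mul, Complex.norm_real, Real.norm_eq_abs,
      abs_of_pos (inv_pos.2 EE_pos)] at h3
    unfold EE at h3
    rw [← Real.exp_neg] at h3
    have h4 := Real.exp_injective h3
    have h5 : z.im = 1 / 8 := by
      have : Real.pi * (z.im - 1 / 8) = 0 := by linarith
      rcases mul_eq_zero.1 this with h | h
      · exact absurd h hpi.ne'
      · linarith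
    rw [h5] at hz
    have h6 : (z.re - 1 / 2) ^ 2 < (24 / 25) ^ 2 := by nlinarith
    have h7 := abs_lt_of_sq_lt_sq' h6 (by norm_num)
    have h8 := congrArg Complex.im h2
    have h9 : (ze z).im = EE⁻¹ * Real.sin (Real.pi * z.re) := by
      unfold ze
      rw [Complex.exp_im]
      simp only [Complex.mul_re, Complex.mul_im, Complex.I_re, Complex.I_im, Complex.ofReal_re,
        Complex.ofReal_im, zero_mul, one_mul, sub_zero, zero_sub, add_zero, zero_add]
      rw [h5]
      unfold EE
      rw [← Real.exp_neg]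
      congr 2
      ring
    rw [h9] at h8
    have h10 : Real.sin (Real.pi * z.re) = -1 := by
      have hE := inv_pos.2 EE_pos
      simp at h8
      have : EE⁻¹ * (Real.sin (Real.pi * z.re) + 1) = 0 := by linarith
      rcases mul_eq_zero.1 this with h | h
      · exact absurd h hE.ne'
      · linarith
    obtain ⟨n, hn⟩ := Real.sin_eq_neg_one_iff.1 h10
    have h11 : z.re = - (1 / 2) + 2 * n := by
      have : Real.pi * (z.re - (- (1 / 2) + 2 * n)) = 0 := by linarith
      rcases mul_eq_zero.1 this with h | h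
      · exact absurd h hpi.ne'
      · linarith
    rw [h11] at h7
    have h12 : (0 : ℝ) < n := by linarith [h7.1]
    have h13 : (n : ℝ) < 1 := by linarith [h7.2]
    have h14 : (0 : ℤ) < n := by exact_mod_cast h12
    have h15 : n < (1 : ℤ) := by exact_mod_cast h13
    omega

/-- the even periodic function -/
noncomputable def gg (z : ℂ) : ℂ := (den z)⁻¹

theorem den_diff : Differentiable ℂ den := by
  unfold den
  fun_prop

theorem gg_diff : DifferentiableOn ℂ gg (DD : Set ℂ) :=
  den_diff.differentiableOn.inv den_ne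

theorem gg_neg (z : ℂ) : gg (-z) = gg z := by
  unfold gg den
  rw [mul_neg, Complex.cos_neg]

theorem gg_per (z : ℂ) : gg (z + 2) = gg z := by
  unfold gg den
  rw [mul_add, show (Real.pi : ℂ) * 2 = 2 * Real.pi by ring, Complex.cos_add_two_pi]

theorem gg_odd0 (q : ℕ) : iteratedDeriv (2 * q + 1) gg 0 = 0 := by
  have h1 := iteratedDeriv_comp_neg (2 * q + 1) gg (0 : ℂ)
  have h2 : (fun x => gg (-x)) = gg := funext gg_neg
  rw [h2, neg_zero] at h1
  have : (-1 : ℂ) ^ (2 * q + 1) = -1 := by
    rw [pow_succ, pow_mul]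
    norm_num
  rw [this, smul_eq_mul] at h1
  have h3 : 2 * iteratedDeriv (2 * q + 1) gg 0 = 0 := by linear_combination h1
  simpa using h3

theorem gg_odd1 (q : ℕ) : iteratedDeriv (2 * q + 1) gg 1 = 0 := by
  have h1 := congrFun (iteratedDeriv_comp_const_sub (2 * q + 1) gg (2 : ℂ)) 1
  have h2 : (fun x => gg (2 - x)) = gg := by
    funext x
    rw [← gg_neg, neg_sub, ← gg_per, sub_add_cancel]
  rw [h2] at h1
  have : (-1 : ℂ) ^ (2 * q + 1) = -1 := by
    rw [pow_succ, pow_mul]
    norm_num
  simp only [this, smul_eq_mul] at h1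
  rw [show (2 : ℂ) - 1 = 1 by norm_num] at h1
  have h3 : 2 * iteratedDeriv (2 * q + 1) gg 1 = 0 := by linear_combination h1
  simpa using h3

/-- a primitive of `gg` on the disc -/
theorem exists_prim : ∃ F : ℂ → ℂ, ∀ z ∈ DD, HasDerivAt F (gg z) z :=
  DifferentiableOn.isExactOn_ball (f := gg) (c := z0) (r := 2) gg_diff

theorem zero_mem : (0 : ℂ) ∈ DD := by
  rw [mem_DD]
  norm_num

theorem one_mem : (1 : ℂ) ∈ DD := by
  rw [mem_DD]
  norm_num

theorem DD_convex : Convex ℝ (DD : Set ℂ) := convex_ball z0 2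

theorem DD_preconn : IsPreconnected (DD : Set ℂ) := DD_convex.isPreconnected

theorem real_mem (t : ℝ) (h0 : 0 ≤ t) (h1 : t ≤ 1) : (t : ℂ) ∈ DD := by
  rw [mem_DD]
  simp only [Complex.ofReal_re, Complex.ofReal_im]
  nlinarith

theorem gg_im_pos (t : ℝ) : 0 < (gg t).im := by
  have hb : 0 < (EE - EE⁻¹) / 2 := by
    have h1 : 1 < EE := by
      unfold EE
      rw [Real.one_lt_exp_iff]
      positivity
    have h2 : EE⁻¹ < 1 := inv_lt_one_of_one_lt₀ h1
    linarith
  have hden : den t = ⟨Real.cos (Real.pi * t), -((EE - EE⁻¹) / 2)⟩ := by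
    have e : Complex.cos (Real.pi * t) = ((Real.cos (Real.pi * t) : ℝ) : ℂ) := by
      rw [Complex.ofReal_cos, Complex.ofReal_mul]
    unfold den
    rw [e, mul_comm Complex.I, sub_eq_add_neg, ← neg_mul, ← Complex.ofReal_neg]
    exact (Complex.mk_eq_add_mul_I _ _).symm
  unfold gg
  rw [hden, Complex.inv_im]
  have hns : 0 < Complex.normSq ⟨Real.cos (Real.pi * t), -((EE - EE⁻¹) / 2)⟩ := by
    rw [Complex.normSq_mk]
    nlinarith [mul_self_nonneg (Real.cos (Real.pi * t))]
  simp only [neg_neg]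
  positivity

theorem prim_ne (F : ℂ → ℂ) (hF : ∀ z ∈ DD, HasDerivAt F (gg z) z) : F 1 ≠ F 0 := by
  have hmono : StrictMonoOn (fun t : ℝ => (F t).im) (Set.Icc 0 1) := by
    apply strictMonoOn_of_deriv_pos (convex_Icc 0 1)
    · intro t ht
      have h1 := hF t (real_mem t ht.1 ht.2)
      have h2 : ContinuousAt (fun t : ℝ => F t) t :=
        ContinuousAt.comp (f := fun t : ℝ => (t : ℂ)) (g := F) h1.continuousAt
          Complex.continuous_ofReal.continuousAt
      exact (Complex.continuous_im.continuousAt.comp h2).continuousWithinAt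
    · intro t ht
      rw [interior_Icc] at ht
      have h1 := hF t (real_mem t ht.1.le ht.2.le)
      have h2 : HasDerivAt (fun t : ℝ => (F t).im) (gg t).im t := by
        have h3 : HasDerivAt (fun t : ℝ => F t) (gg t) t := h1.comp_ofReal
        exact (Complex.imCLM.hasFDerivAt.comp_hasDerivAt t h3)
      rw [h2.deriv]
      exact gg_im_pos t
  intro h
  have h1 := hmono (Set.left_mem_Icc.2 zero_le_one) (Set.right_mem_Icc.2 zero_le_one) zero_lt_one
  simp only [Complex.ofReal_one, Complex.ofReal_zero] at h1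
  rw [h] at h1
  exact lt_irrefl _ h1


/-- the upper region -/
def UU : Set ℂ := {z | z ∈ DD ∧ 1 / 8 < z.im}

theorem UU_open : IsOpen UU :=
  DD.isOpen.inter (isOpen_lt continuous_const Complex.continuous_im)

theorem UU_preconn : IsPreconnected UU := by
  have h1 : Convex ℝ UU := DD_convex.inter (convex_halfSpace_im_gt (1 / 8))
  exact h1.isPreconnected

/-- the quotient in the exponential variable -/
noncomputable def psi (w : ℂ) : ℂ :=
  2 / (Complex.I * Real.pi * ((w - Complex.I * EE) * (w + Complex.I * (EE⁻¹ : ℝ))))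

theorem psi_ne (w : ℂ) (hw : w ∈ Metric.ball (0 : ℂ) EE⁻¹) :
    (w - Complex.I * EE) * (w + Complex.I * (EE⁻¹ : ℝ)) ≠ 0 := by
  rw [mem_ball_zero_iff] at hw
  have hE : EE⁻¹ < EE := by
    have h1 : 1 < EE := by
      unfold EE
      rw [Real.one_lt_exp_iff]
      positivity
    exact (inv_lt_one_of_one_lt₀ h1).trans h1
  apply mul_ne_zero
  · intro h
    have h2 : w = Complex.I * EE := by linear_combination h
    rw [h2, norm_mul, Complex.norm_I, one_mul, Complex.norm_real, Real.norm_eq_abs,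
      abs_of_pos EE_pos] at hw
    linarith
  · intro h
    have h2 : w = - Complex.I * (EE⁻¹ : ℝ) := by linear_combination h
    rw [h2, norm_mul, norm_neg, Complex.norm_I, one_mul, Complex.norm_real, Real.norm_eq_abs,
      abs_of_pos (inv_pos.2 EE_pos)] at hw
    exact lt_irrefl _ hw

theorem exists_upper : ∃ G : ℂ → ℂ, (∀ z ∈ UU, HasDerivAt G (gg z) z) ∧
    ∀ z, G (z + 2) = G z := by
  have hpiC : (Real.pi : ℂ) ≠ 0 := by exact_mod_cast Real.pi_ne_zero
  have hpsi : DifferentiableOn ℂ psi (Metric.ball (0 : ℂ) EE⁻¹) := by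
    intro w hw
    have h1 := psi_ne w hw
    have h2 : Complex.I * Real.pi * ((w - Complex.I * EE) * (w + Complex.I * (EE⁻¹ : ℝ))) ≠ 0 :=
      mul_ne_zero (mul_ne_zero Complex.I_ne_zero hpiC) h1
    have h3 : DifferentiableAt ℂ (fun w : ℂ => Complex.I * Real.pi *
        ((w - Complex.I * EE) * (w + Complex.I * (EE⁻¹ : ℝ)))) w := by fun_prop
    exact ((differentiableAt_const (2 : ℂ)).div h3 h2).differentiableWithinAt
  obtain ⟨Ψ, hΨ⟩ := DifferentiableOn.isExactOn_ball hpsi
  refine ⟨fun z => Ψ (ze z), ?_, ?_⟩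
  · intro z hz
    have h1 : ze z ∈ Metric.ball (0 : ℂ) EE⁻¹ := by
      rw [mem_ball_zero_iff, ze_norm]
      unfold EE
      rw [← Real.exp_neg, Real.exp_lt_exp]
      have := hz.2
      nlinarith [Real.pi_pos]
    have h2 : HasDerivAt ze (ze z * (Complex.I * Real.pi)) z := by
      have h3 : HasDerivAt (fun z : ℂ => Complex.I * (Real.pi * z)) (Complex.I * (Real.pi * 1)) z :=
        ((hasDerivAt_id z).const_mul (Real.pi : ℂ)).const_mul Complex.I
      have h4 := h3.cexp
      rw [mul_one] at h4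
      exact h4
    have h5 := (hΨ _ h1).comp z h2
    have h6 : psi (ze z) * (ze z * (Complex.I * Real.pi)) = gg z := by
      have h7 := den_eq z
      have h8 := psi_ne _ h1
      have h9 := den_ne z hz.1
      unfold psi gg
      rw [← h7]
      have h10 := ze_ne z
      field_simp
    rw [h6] at h5
    exact h5
  · intro z
    have h1 : ze (z + 2) = ze z := by
      unfold ze
      rw [show Complex.I * (Real.pi * (z + 2)) = Complex.I * (Real.pi * z) + 2 * Real.pi * Complex.I
        by ring, Complex.exp_periodic]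
    simp only [h1]

/-- evaluation functionals -/
noncomputable def ev (w : DD) : AA DD →L[ℂ] ℂ :=
  (ContinuousMap.evalCLM ℂ w).comp (AA DD).subtypeL

theorem ev_apply (w : DD) (f : AA DD) : ev w f = f.1 w := rfl

/-- the two boundary functionals -/
noncomputable def phi : Fin 2 → (AA DD →L[ℂ] ℂ) := ![ev ⟨0, zero_mem⟩, ev ⟨1, one_mem⟩]

/-- the zero coefficient -/
noncomputable def co : Fin (2 - 1) → AA DD := fun _ => 0

theorem iter_rep {f : AA DD} {F : ℂ → ℂ} (hf : Rep f F) (q : ℕ) :
    Rep ((ell (n := 2) co)^[q] f) (iteratedDeriv (2 * q) F) := by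
  induction q with
  | zero => simpa using hf
  | succ q ih =>
    rw [Function.iterate_succ_apply', show 2 * (q + 1) = 2 * q + 1 + 1 by ring,
      iteratedDeriv_succ, iteratedDeriv_succ]
    have := ell_zero ((ell (n := 2) co)^[q] f)
    rw [show ell (n := 2) co = ell (n := 2) (fun _ => (0 : AA DD)) from rfl] at *
    rw [this]
    exact ih.der.der

theorem delta_ne : DeltaNeZero (n := 2) co phi := by
  obtain ⟨y0, hy0⟩ := exists_rep (Ω := DD) (fun _ => 1) (differentiableOn_const 1)
  obtain ⟨y1, hy1⟩ := exists_rep (Ω := DD) (fun z => z) differentiableOn_id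
  have d0 : Rep (der y0) (fun _ => 0) := by
    have := hy0.der
    simpa using this
  have d1 : Rep (der y1) (fun _ => 1) := by
    have := hy1.der
    simpa using this
  have dd0 : Rep (der (der y0)) (fun _ => 0) := by
    have := d0.der
    simpa using this
  have dd1 : Rep (der (der y1)) (fun _ => 0) := by
    have := d1.der
    simpa using this
  have z0 : Rep (0 : AA DD) (fun _ => 0) := ⟨differentiableOn_const _, fun z => rfl⟩
  refine ⟨0, ![y0, y1], ?_, ?_, ?_⟩
  · intro k
    have h1 : ∀ f : AA DD, ell (n := 2) co f = der (der f) := ell_zero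
    rw [h1, zero_smul]
    fin_cases k
    · exact dd0.eq z0
    · exact dd1.eq z0
  · have e0 : extz y0 0 = 1 := by
      rw [extz_apply y0 ⟨0, zero_mem⟩]
      exact hy0.2 ⟨0, zero_mem⟩
    have e1 : extz y1 0 = 0 := by
      rw [extz_apply y1 ⟨0, zero_mem⟩]
      exact hy1.2 ⟨0, zero_mem⟩
    have e2 : deriv (extz y0) 0 = 0 := d0.2 ⟨0, zero_mem⟩
    have e3 : deriv (extz y1) 0 = 1 := d1.2 ⟨0, zero_mem⟩
    intro k p
    fin_cases k <;> fin_cases p <;> simp [e0, e1, e2, e3]
  · rw [Matrix.det_fin_two]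
    simp only [Matrix.of_apply, phi, Matrix.cons_val_zero, Matrix.cons_val_one, ev_apply]
    rw [hy0.2, hy1.2, hy0.2, hy1.2]
    norm_num

/-- two points of the disc at distance 2 -/
theorem pa_mem : (⟨-(1 / 2), 19 / 10⟩ : ℂ) ∈ DD := by
  rw [mem_DD]
  norm_num

theorem pb_mem : (⟨-(1 / 2), 19 / 10⟩ + 2 : ℂ) ∈ DD := by
  rw [mem_DD]
  simp only [Complex.add_re, Complex.add_im, Complex.re_ofNat, Complex.im_ofNat]
  norm_num

/-- functional separating -/
noncomputable def sep (f : AA DD) : ℂ := f.1 ⟨_, pb_mem⟩ - f.1 ⟨_, pa_mem⟩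

/-- every root vector satisfies all boundary conditions -/
theorem root_all (f : AA DD) (lam : ℂ) (m : ℕ)
    (hb : ∀ q < m, ∀ j, phi j ((ell (n := 2) co)^[q] f) = 0)
    (hf : (fun g => ell (n := 2) co g - lam • g)^[m] f = 0) :
    ∀ q, ∀ j, phi j ((ell (n := 2) co)^[q] f) = 0 := by
  -- the operator as a linear map
  have hadd : ∀ f g : AA DD, der (f + g) = der f + der g := by
    intro f g
    have r1 := (Rep.ext (f := f)).add (Rep.ext (f := g))
    have r2 := r1.der
    have r3 := (Rep.ext (f := f)).der.add (Rep.ext (f := g)).der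
    refine r2.eq (r3.congr fun z hz => ?_)
    have hd1 : DifferentiableAt ℂ (extz f) z :=
      (extz_diff f).differentiableAt (DD.isOpen.mem_nhds hz)
    have hd2 : DifferentiableAt ℂ (extz g) z :=
      (extz_diff g).differentiableAt (DD.isOpen.mem_nhds hz)
    exact (hd1.hasDerivAt.add hd2.hasDerivAt).deriv.symm
  have hsmul : ∀ (c : ℂ) (f : AA DD), der (c • f) = c • der f := by
    intro c f
    have r2 := ((Rep.ext (f := f)).smul c).der
    have r3 := (Rep.ext (f := f)).der.smul c
    refine r2.eq (r3.congr fun z hz => ?_)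
    have hd1 : DifferentiableAt ℂ (extz f) z :=
      (extz_diff f).differentiableAt (DD.isOpen.mem_nhds hz)
    exact (hd1.hasDerivAt.const_mul c).deriv.symm
  have hell : ∀ f : AA DD, ell (n := 2) co f = der (der f) := ell_zero
  let L : Module.End ℂ (AA DD) :=
    { toFun := ell (n := 2) co
      map_add' := fun f g => by rw [hell, hell, hell, hadd, hadd]
      map_smul' := fun c f => by rw [hell, hell, hsmul, hsmul]; rfl }
  have hLq : ∀ q (g : AA DD), (L ^ q) g = (ell (n := 2) co)^[q] g := by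
    intro q g
    rw [Module.End.pow_apply]
    rfl
  have hLm : ((L + (-lam) • (1 : Module.End ℂ (AA DD))) ^ m) f = 0 := by
    rw [Module.End.pow_apply]
    have h1 : ((L + (-lam) • (1 : Module.End ℂ (AA DD)) : Module.End ℂ (AA DD)) : AA DD → AA DD)
        = fun g => ell (n := 2) co g - lam • g := by
      funext g
      apply Subtype.ext
      ext z
      show (ell (n := 2) co g).1 z + (-lam) * g.1 z = (ell (n := 2) co g).1 z - lam * g.1 z
      ring
    rw [h1]
    exact hf
  intro q j
  rw [← hLq]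
  set P : Polynomial ℂ := (Polynomial.X + Polynomial.C (-lam)) ^ m with hP
  have hPm : P.Monic := (Polynomial.monic_X_add_C (-lam)).pow m
  have hdiv := Polynomial.modByMonic_add_div (Polynomial.X ^ q) P
  have h1 : Polynomial.aeval L (Polynomial.X ^ q : Polynomial ℂ) f
      = Polynomial.aeval L ((Polynomial.X ^ q : Polynomial ℂ) %ₘ P) f := by
    conv_lhs => rw [← hdiv]
    rw [map_add, LinearMap.add_apply, mul_comm, map_mul, Module.End.mul_apply]
    have h2 : Polynomial.aeval L P f = 0 := by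
      rw [hP, map_pow, map_add, Polynomial.aeval_X, Polynomial.aeval_C,
        Algebra.algebraMap_eq_smul_one]
      exact hLm
    rw [h2, map_zero, add_zero]
  rw [map_pow, Polynomial.aeval_X] at h1
  rw [h1, Polynomial.aeval_eq_sum_range, LinearMap.sum_apply, map_sum]
  apply Finset.sum_eq_zero
  intro i hi
  rw [LinearMap.smul_apply, map_smul, hLq]
  by_cases him : i < m
  · rw [hb i him j, smul_zero]
  · have hdeg : ((Polynomial.X ^ q : Polynomial ℂ) %ₘ P).coeff i = 0 := by
      apply Polynomial.coeff_eq_zero_of_degree_lt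
      refine lt_of_lt_of_le (Polynomial.degree_modByMonic_lt _ hPm) ?_
      rw [hP, Polynomial.degree_pow, Polynomial.degree_X_add_C, nsmul_one]
      exact_mod_cast (not_lt.1 him)
    rw [hdeg, zero_smul]

theorem sep_root (f : AA DD) (hf : IsRootVector (n := 2) co phi f) : sep f = 0 := by
  obtain ⟨-, lam, m, -, hb, hm⟩ := hf
  have hall := root_all f lam m hb hm
  obtain ⟨F, hF, hFr⟩ := ext_root DD_preconn zero_mem lam m f hm
  have h0 : ∀ q : ℕ, iteratedDeriv (2 * q) F 0 = 0 := by
    intro q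
    have h1 := hall q 0
    have h2 := (iter_rep hFr q).2 ⟨0, zero_mem⟩
    have h3 : phi 0 ((ell (n := 2) co)^[q] f) = ((ell (n := 2) co)^[q] f).1 ⟨0, zero_mem⟩ := rfl
    rw [h3, h2] at h1
    exact h1
  have h1 : ∀ q : ℕ, iteratedDeriv (2 * q) F 1 = 0 := by
    intro q
    have h1 := hall q 1
    have h2 := (iter_rep hFr q).2 ⟨1, one_mem⟩
    have h3 : phi 1 ((ell (n := 2) co)^[q] f) = ((ell (n := 2) co)^[q] f).1 ⟨1, one_mem⟩ := rfl
    rw [h3, h2] at h1
    exact h1
  show f.1 ⟨_, pb_mem⟩ - f.1 ⟨_, pa_mem⟩ = 0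
  rw [hFr.2, hFr.2, sub_eq_zero]
  exact periodic_entire F hF h0 h1 _

theorem sep_cl (f : AA DD) (hf : f ∈ Cl (n := 2) co phi) : sep f = 0 := by
  have hcont : Continuous sep := (ev ⟨_, pb_mem⟩).continuous.sub (ev ⟨_, pa_mem⟩).continuous
  have hcl : IsClosed {f : AA DD | sep f = 0} := isClosed_eq hcont continuous_const
  have hsub : (Submodule.span ℂ {f | IsRootVector (n := 2) co phi f} : Set (AA DD))
      ⊆ {f : AA DD | sep f = 0} := by
    intro g hg
    induction hg using Submodule.span_induction with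
    | mem x hx => exact sep_root x hx
    | zero => simp [sep]
    | add x y _ _ hx hy =>
      have hx' : sep x = 0 := hx
      have hy' : sep y = 0 := hy
      have : sep (x + y) = sep x + sep y := by
        show (x.1 + y.1) _ - (x.1 + y.1) _ = _
        unfold sep
        rw [ContinuousMap.add_apply, ContinuousMap.add_apply]
        ring
      show sep (x + y) = 0
      rw [this, hx', hy', add_zero]
    | smul a x _ hx =>
      have hx' : sep x = 0 := hx
      have : sep (a • x) = a * sep x := by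
        show (a • x.1) _ - (a • x.1) _ = _
        unfold sep
        rw [ContinuousMap.smul_apply, ContinuousMap.smul_apply, smul_eq_mul, smul_eq_mul]
        ring
      show sep (a • x) = 0
      rw [this, hx', mul_zero]
  exact closure_minimal hsub hcl hf

theorem exists_bad : ∃ f : AA DD, f ∈ Dinf (n := 2) co phi ∧ sep f ≠ 0 := by
  obtain ⟨F, hF⟩ := exists_prim
  set c : ℂ := F 1 - F 0 with hc
  have hc0 : c ≠ 0 := sub_ne_zero.2 (prim_ne F hF)
  have hFd : DifferentiableOn ℂ F (DD : Set ℂ) := fun z hz =>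
    (hF z hz).differentiableAt.differentiableWithinAt
  obtain ⟨f, hf⟩ := exists_rep (Ω := DD) (fun z => F z - F 0 - c * z)
    ((hFd.sub (differentiableOn_const _)).sub (differentiableOn_id.const_mul c))
  refine ⟨f, ?_, ?_⟩
  · -- boundary conditions
    have hd : Rep (der f) (fun z => gg z - c) := by
      refine hf.der.congr fun z hz => ?_
      have h1 := ((hF z hz).sub_const (F 0)).sub ((hasDerivAt_id z).const_mul c)
      rw [mul_one] at h1
      exact h1.deriv
    have hdd : Rep (der (der f)) (deriv gg) := by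
      refine hd.der.congr fun z hz => ?_
      exact deriv_sub_const ..
    have hq : ∀ q, Rep ((ell (n := 2) co)^[q + 1] f) (iteratedDeriv (2 * q + 1) gg) := by
      intro q
      have h1 := iter_rep hdd q
      rw [Function.iterate_succ_apply]
      have h2 : ell (n := 2) co f = der (der f) := ell_zero f
      rw [h2, iteratedDeriv_succ']
      exact h1
    intro q j
    rcases q with _ | q
    · fin_cases j
      · show f.1 ⟨0, zero_mem⟩ = 0
        rw [hf.2]
        simp
      · show f.1 ⟨1, one_mem⟩ = 0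
        rw [hf.2]
        simp [hc]
    · fin_cases j
      · show ((ell (n := 2) co)^[q + 1] f).1 ⟨0, zero_mem⟩ = 0
        rw [(hq q).2]
        exact gg_odd0 q
      · show ((ell (n := 2) co)^[q + 1] f).1 ⟨1, one_mem⟩ = 0
        rw [(hq q).2]
        exact gg_odd1 q
  · obtain ⟨G, hG, hGp⟩ := exists_upper
    have hk : ∀ z ∈ UU, HasDerivAt (fun z => F z - G z) 0 z := by
      intro z hz
      have := (hF z hz.1).sub (hG z hz)
      rw [sub_self] at this
      exact this
    have ha : (⟨-(1 / 2), 19 / 10⟩ : ℂ) ∈ UU := ⟨pa_mem, by norm_num⟩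
    have hb : (⟨-(1 / 2), 19 / 10⟩ + 2 : ℂ) ∈ UU := ⟨pb_mem, by
      simp only [Complex.add_im, Complex.im_ofNat]
      norm_num⟩
    have hconst := UU_open.is_const_of_deriv_eq_zero UU_preconn
      (fun w hw => (hk w hw).differentiableAt.differentiableWithinAt)
      (fun w hw => (hk w hw).deriv) ha hb
    rw [hGp] at hconst
    have hFF : F (⟨-(1 / 2), 19 / 10⟩ + 2) = F ⟨-(1 / 2), 19 / 10⟩ := by
      linear_combination -hconst
    show f.1 ⟨_, pb_mem⟩ - f.1 ⟨_, pa_mem⟩ ≠ 0
    rw [hf.2, hf.2]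
    simp only [hFF]
    intro h
    apply hc0
    have : c * 2 = 0 := by linear_combination -h
    rcases mul_eq_zero.1 this with h | h
    · exact h
    · norm_num at h

theorem cl_ne : Cl (n := 2) co phi ≠ Dinf (n := 2) co phi := by
  obtain ⟨f, hf, hs⟩ := exists_bad
  intro h
  exact hs (sep_cl f (h ▸ hf))

end Pool.Agent.H9.MPf3b8e9
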