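import Mathlib
import Pool.Agent.H9.MPf3b8e9Defs
import Pool.Agent.H9.MPf3b8e9Proof
import Pool.Agent.H9.MPf3b8e9FDefs

set_option autoImplicit false

namespace Pool.Agent.H9.MPf3b8e9F

open Pool.Agent.H9 (MPf3b8e9.Rep)
open Pool.Agent.H9.MPf3b8e9 (Rep DD AA)

/-- zero coefficient -/
noncomputable def coF : Fin (2 - 1) → ℂ → ℂ := fun _ _ => 0

/-- the functionals -/
noncomputable def phF : Fin 2 → (ℂ → ℂ) → ℂ := ![fun F => F 0, fun F => F 1]

theorem ell_co (F : ℂ → ℂ) : ell (n := 2) coF F = deriv (deriv F) := by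
  funext z
  simp [ell, coF, iteratedDeriv_succ]

theorem ell_rep {f : AA DD} {F : ℂ → ℂ} (hf : Rep f F) :
    Rep (MPf3b8e9.ell (n := 2) MPf3b8e9.co f) (ell (n := 2) coF F) := by
  have h1 : MPf3b8e9.ell (n := 2) MPf3b8e9.co f = MPf3b8e9.der (MPf3b8e9.der f) :=
    MPf3b8e9.ell_zero f
  rw [h1, ell_co]
  exact hf.der.der

theorem iter_rep {f : AA DD} {F : ℂ → ℂ} (hf : Rep f F) (q : ℕ) :
    Rep ((MPf3b8e9.ell (n := 2) MPf3b8e9.co)^[q] f) ((ell (n := 2) coF)^[q] F) := by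
  induction q with
  | zero => simpa using hf
  | succ q ih =>
    rw [Function.iterate_succ_apply', Function.iterate_succ_apply']
    exact ell_rep ih

theorem iter_rep2 {f : AA DD} {F : ℂ → ℂ} (hf : Rep f F) (lam : ℂ) (q : ℕ) :
    Rep ((fun g => MPf3b8e9.ell (n := 2) MPf3b8e9.co g - lam • g)^[q] f)
      ((fun G => ell (n := 2) coF G - lam • G)^[q] F) := by
  induction q with
  | zero => simpa using hf
  | succ q ih =>
    rw [Function.iterate_succ_apply', Function.iterate_succ_apply']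
    exact (ell_rep ih).sub (ih.smul lam)

theorem root_sep (F : ℂ → ℂ) (hF : IsRootVector (n := 2) (DD : Set ℂ) coF phF F) :
    F (⟨-(1 / 2), 19 / 10⟩ + 2) = F ⟨-(1 / 2), 19 / 10⟩ := by
  obtain ⟨hd, ⟨z, hz, hne⟩, lam, m, hm, hb, hr⟩ := hF
  obtain ⟨f, hf⟩ := MPf3b8e9.exists_rep F hd
  have hroot : MPf3b8e9.IsRootVector (n := 2) MPf3b8e9.co MPf3b8e9.phi f := by
    refine ⟨?_, lam, m, hm, ?_, ?_⟩
    · rintro rfl
      exact hne (hf.2 ⟨z, hz⟩).symm
    · intro q hq j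
      have h1 := hb q hq j
      have h2 := (iter_rep hf q).2
      fin_cases j
      · exact (h2 ⟨0, MPf3b8e9.zero_mem⟩).trans h1
      · exact (h2 ⟨1, MPf3b8e9.one_mem⟩).trans h1
    · apply Subtype.ext
      ext w
      rw [(iter_rep2 hf lam m).2 w]
      exact hr w w.2
  have h := MPf3b8e9.sep_root f hroot
  have h1 := hf.2 ⟨_, MPf3b8e9.pb_mem⟩
  have h2 := hf.2 ⟨_, MPf3b8e9.pa_mem⟩
  unfold MPf3b8e9.sep at h
  rw [h1, h2] at h
  exact sub_eq_zero.1 h

theorem span_sep (G : ℂ → ℂ)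
    (hG : G ∈ Submodule.span ℂ {G | IsRootVector (n := 2) (DD : Set ℂ) coF phF G}) :
    G (⟨-(1 / 2), 19 / 10⟩ + 2) = G ⟨-(1 / 2), 19 / 10⟩ := by
  induction hG using Submodule.span_induction with
  | mem x hx => exact root_sep x hx
  | zero => rfl
  | add x y _ _ hx hy => rw [Pi.add_apply, Pi.add_apply, hx, hy]
  | smul a x _ hx => rw [Pi.smul_apply, Pi.smul_apply, hx]

theorem isFunctional_eval (Ω : Set ℂ) (w : ℂ) (hw : w ∈ Ω) : IsFunctional Ω (fun F => F w) where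
  add F G _ _ := rfl
  smul c F _ := rfl
  bound := ⟨{w}, by simpa using hw, isCompact_singleton, 1, fun F _ B h => by
    rw [one_mul]
    exact h w rfl⟩

theorem main_result :
    ∃ (Ω : Set ℂ) (n : ℕ) (a : Fin (n - 1) → ℂ → ℂ) (φ : Fin n → (ℂ → ℂ) → ℂ),
      IsOpen Ω ∧ Convex ℝ Ω ∧ (0 : ℂ) ∈ Ω ∧ 1 ≤ n ∧ (∀ k, DifferentiableOn ℂ (a k) Ω) ∧
      (∀ j, IsFunctional Ω (φ j)) ∧ DeltaNeZero Ω a φ ∧
      ∃ F : ℂ → ℂ, InDinf Ω a φ F ∧ ¬ InCl Ω a φ F := by
  refine ⟨DD, 2, coF, phF, DD.isOpen, MPf3b8e9.DD_convex, MPf3b8e9.zero_mem, by norm_num,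
    fun k => differentiableOn_const 0, ?_, ?_, ?_⟩
  · intro j
    fin_cases j
    · exact isFunctional_eval _ 0 MPf3b8e9.zero_mem
    · exact isFunctional_eval _ 1 MPf3b8e9.one_mem
  · refine ⟨0, ![fun _ => 1, fun z => z], ?_, ?_, ?_, ?_⟩
    · intro k
      fin_cases k
      · exact differentiableOn_const 1
      · exact differentiableOn_id
    · intro k z _
      rw [ell_co, zero_mul]
      fin_cases k
      · simp
      · simp
    · intro k p
      fin_cases k <;> fin_cases p <;> simp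
    · rw [Matrix.det_fin_two]
      simp [phF]
  · obtain ⟨f, hf, hs⟩ := MPf3b8e9.exists_bad
    have hr : Rep f (MPf3b8e9.extz f) := Rep.ext
    refine ⟨MPf3b8e9.extz f, ⟨MPf3b8e9.extz_diff f, ?_⟩, ?_⟩
    · intro q j
      have h1 := hf q j
      have h2 := (iter_rep hr q).2
      fin_cases j
      · exact (h2 ⟨0, MPf3b8e9.zero_mem⟩).symm.trans h1
      · exact (h2 ⟨1, MPf3b8e9.one_mem⟩).symm.trans h1
    · rintro ⟨-, hcl⟩
      set pa : ℂ := ⟨-(1 / 2), 19 / 10⟩ with hpa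
      have e1 : MPf3b8e9.sep f = MPf3b8e9.extz f (pa + 2) - MPf3b8e9.extz f pa := by
        rw [MPf3b8e9.extz_apply f ⟨pa + 2, MPf3b8e9.pb_mem⟩,
          MPf3b8e9.extz_apply f ⟨pa, MPf3b8e9.pa_mem⟩]
        rfl
      have hpos : 0 < ‖MPf3b8e9.sep f‖ := norm_pos_iff.2 hs
      obtain ⟨G, hG, hGK⟩ := hcl {pa + 2, pa} (by
        intro z hz
        rcases hz with rfl | rfl
        · exact MPf3b8e9.pb_mem
        · exact MPf3b8e9.pa_mem) ((Set.toFinite _).isCompact) (‖MPf3b8e9.sep f‖ / 2) (by positivity)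
      have h1 := hGK (pa + 2) (by simp)
      have h2 := hGK pa (by simp)
      have h3 := span_sep G hG
      rw [← hpa] at h3
      have h4 : MPf3b8e9.sep f = (MPf3b8e9.extz f (pa + 2) - G (pa + 2))
          - (MPf3b8e9.extz f pa - G pa) := by
        rw [e1, h3]
        ring
      have h5 := norm_sub_le (MPf3b8e9.extz f (pa + 2) - G (pa + 2)) (MPf3b8e9.extz f pa - G pa)
      rw [← h4] at h5
      linarith

end Pool.Agent.H9.MPf3b8e9F
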