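import Mathlib

/-! Piecewise linear paths on the circle of circumference one, and their basic properties. -/

namespace Rdv

open MeasureTheory NNReal ENNReal Finset

/-- The circle of circumference `1` (with its arc-length metric). -/
abbrev Circ : Type := AddCircle (1 : ℝ)

/-- Pure strategies: maps `s : [0,∞) → C` of speed at most one with `s 0 = 0`. -/
def PureStrat : Type := {s : C(ℝ≥0, Circ) // s 0 = 0 ∧ LipschitzWith 1 s}

/-- The compact-open topology. -/
instance : TopologicalSpace PureStrat :=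
  inferInstanceAs (TopologicalSpace {s : C(ℝ≥0, Circ) // s 0 = 0 ∧ LipschitzWith 1 s})

instance : MeasurableSpace PureStrat := borel PureStrat

instance : BorelSpace PureStrat := ⟨rfl⟩

instance : T2Space PureStrat :=
  inferInstanceAs (T2Space {s : C(ℝ≥0, Circ) // s 0 = 0 ∧ LipschitzWith 1 s})

/-- The sign (direction) attached to a coin. -/
noncomputable def sg (b : Bool) : ℝ := if b then 1 else -1

/-- The time spent in the `i`-th interval `[ih, (i+1)h]` before time `t`. -/
noncomputable def clamp (h : ℝ) (i : ℕ) (t : ℝ) : ℝ := max 0 (min h (t - i * h))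

/-- The (lifted) position at time `t` of the path which, on the `i`-th time interval
`[ih, (i+1)h]`, moves at unit speed in the direction `sg (e i)`. -/
noncomputable def walk (h : ℝ) (e : ℕ → Bool) (t : ℝ) : ℝ :=
  ∑ i ∈ range (⌊t / h⌋₊ + 1), sg (e i) * clamp h i t

theorem abs_sg (b : Bool) : |sg b| = 1 := by cases b <;> simp [sg]

theorem clamp_zero {h : ℝ} {i : ℕ} {t : ℝ} (ht : t ≤ i * h) : clamp h i t = 0 := by
  unfold clamp
  exact max_eq_left (min_le_of_right_le (by linarith))

theorem clamp_full {h : ℝ} (hh : 0 < h) {i : ℕ} {t : ℝ} (ht : (i + 1) * h ≤ t) :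
    clamp h i t = h := by
  unfold clamp
  rw [min_eq_left (by linarith), max_eq_right hh.le]

theorem clamp_mono (h : ℝ) (i : ℕ) {s t : ℝ} (hst : s ≤ t) : clamp h i s ≤ clamp h i t := by
  unfold clamp
  exact max_le_max le_rfl (min_le_min le_rfl (by linarith))

theorem sum_clamp_stable {h : ℝ} (hh : 0 < h) (c : ℕ → ℝ) {t : ℝ} {N : ℕ} (hN : t ≤ N * h)
    (d : ℕ) : ∑ i ∈ range (N + d), c i * clamp h i t = ∑ i ∈ range N, c i * clamp h i t := by
  induction d with
  | zero => rfl
  | succ d ih =>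
    rw [← add_assoc, sum_range_succ, ih, clamp_zero, mul_zero, add_zero]
    push_cast
    nlinarith [Nat.cast_nonneg (α := ℝ) d]

theorem walk_eq {h : ℝ} (hh : 0 < h) (e : ℕ → Bool) {t : ℝ} {N : ℕ} (hN : t ≤ N * h) :
    walk h e t = ∑ i ∈ range N, sg (e i) * clamp h i t := by
  unfold walk
  have h1 : t ≤ ((⌊t / h⌋₊ + 1 : ℕ) : ℝ) * h := by
    have := Nat.lt_floor_add_one (t / h)
    rw [div_lt_iff₀ hh] at this
    push_cast
    exact this.le
  rw [← sum_clamp_stable hh _ h1 N, ← sum_clamp_stable hh _ hN (⌊t / h⌋₊ + 1), add_comm]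

theorem walk_at {h : ℝ} (hh : 0 < h) (e : ℕ → Bool) (j : ℕ) {τ : ℝ} (h0 : 0 ≤ τ) (h1 : τ ≤ h) :
    walk h e (j * h + τ) = h * ∑ i ∈ range j, sg (e i) + τ * sg (e j) := by
  rw [walk_eq (N := j + 1) hh e (by push_cast; linarith), sum_range_succ]
  congr 1
  · rw [mul_sum]
    apply sum_congr rfl
    intro i hi
    have : ((i + 1 : ℕ) : ℝ) ≤ j := by exact_mod_cast mem_range.mp hi
    push_cast at this
    rw [clamp_full hh (by nlinarith), mul_comm]
  · have : clamp h j (j * h + τ) = τ := by
      unfold clamp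
      rw [add_sub_cancel_left, min_eq_right h1, max_eq_right h0]
    rw [this, mul_comm]

theorem sum_clamp {h : ℝ} (hh : 0 < h) {t : ℝ} (ht : 0 ≤ t) (N : ℕ) :
    ∑ i ∈ range N, clamp h i t = min t (N * h) := by
  induction N with
  | zero => simp [ht]
  | succ N ih =>
    rw [sum_range_succ, ih]
    unfold clamp
    push_cast
    rcases le_total t (N * h) with h1 | h1
    · rw [min_eq_left h1, max_eq_left (min_le_of_right_le (by linarith)), add_zero,
        min_eq_left (by linarith)]
    · rw [min_eq_right h1]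
      rcases le_total t ((N + 1) * h) with h2 | h2
      · rw [min_eq_left h2, min_eq_right (show t - N * h ≤ h by linarith),
          max_eq_right (by linarith)]
        ring
      · rw [min_eq_right h2, min_eq_left (show h ≤ t - N * h by linarith), max_eq_right hh.le]
        ring

theorem walk_lip {h : ℝ} (hh : 0 < h) (e : ℕ → Bool) {s t : ℝ} (hs : 0 ≤ s) (hst : s ≤ t) :
    |walk h e s - walk h e t| ≤ t - s := by
  obtain ⟨N, hN⟩ := exists_nat_ge (t / h)
  rw [div_le_iff₀ hh] at hN
  rw [walk_eq hh e hN, walk_eq hh e (hst.trans hN), ← sum_sub_distrib]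
  calc |∑ i ∈ range N, (sg (e i) * clamp h i s - sg (e i) * clamp h i t)|
      ≤ ∑ i ∈ range N, |sg (e i) * clamp h i s - sg (e i) * clamp h i t| :=
        abs_sum_le_sum_abs _ _
    _ = ∑ i ∈ range N, (clamp h i t - clamp h i s) := by
        apply sum_congr rfl
        intro i _
        rw [← mul_sub, abs_mul, abs_sg, one_mul, abs_sub_comm,
          abs_of_nonneg (sub_nonneg.mpr (clamp_mono h i hst))]
    _ = t - s := by
        rw [sum_sub_distrib, sum_clamp hh (hs.trans hst), sum_clamp hh hs, min_eq_left hN,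
          min_eq_left (hst.trans hN)]

theorem walk_zero (h : ℝ) (hh : 0 < h) (e : ℕ → Bool) : walk h e 0 = 0 := by
  rw [walk_eq (N := 0) hh e (by simp)]
  simp

theorem coe_dist_le (x y : ℝ) : dist (x : Circ) (y : Circ) ≤ |x - y| := by
  rw [dist_eq_norm, ← AddCircle.coe_sub, ← Real.norm_eq_abs]
  exact QuotientAddGroup.norm_mk_le_norm

theorem path_lip {h : ℝ} (hh : 0 < h) (e : ℕ → Bool) :
    LipschitzWith 1 (fun t : ℝ≥0 => ((walk h e (t : ℝ) : ℝ) : Circ)) := by
  apply LipschitzWith.of_dist_le_mul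
  intro s t
  rw [NNReal.coe_one, one_mul]
  refine (coe_dist_le _ _).trans ?_
  rw [NNReal.dist_eq]
  rcases le_total (s:ℝ) t with h1 | h1
  · rw [abs_sub_comm (s:ℝ) t, abs_of_nonneg (by linarith : 0 ≤ (t:ℝ) - s)]
    exact walk_lip hh e s.2 h1
  · rw [abs_sub_comm, abs_of_nonneg (by linarith : 0 ≤ (s:ℝ) - t)]
    exact walk_lip hh e t.2 h1

/-- The pure strategy moving at unit speed in direction `sg (e i)` on `[ih, (i+1)h]`. -/
noncomputable def walkPath (h : ℝ) (hh : 0 < h) (e : ℕ → Bool) : PureStrat :=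
  ⟨⟨fun t : ℝ≥0 => ((walk h e (t : ℝ) : ℝ) : Circ), (path_lip hh e).continuous⟩,
    by simp [walk_zero h hh e], path_lip hh e⟩

theorem continuous_walk {h : ℝ} (hh : 0 < h) :
    Continuous (fun p : (ℕ → Bool) × ℝ≥0 => walk h p.1 (p.2 : ℝ)) := by
  rw [continuous_iff_continuousAt]
  rintro ⟨e0, t0⟩
  obtain ⟨N, hN⟩ := exists_nat_ge (((t0 : ℝ) + 1) / h)
  rw [div_le_iff₀ hh] at hN
  have hc : Continuous (fun p : (ℕ → Bool) × ℝ≥0 =>
      ∑ i ∈ range N, sg (p.1 i) * clamp h i (p.2 : ℝ)) := by
    refine continuous_finsetSum _ fun i _ => Continuous.mul ?_ ?_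
    · exact (continuous_of_discreteTopology (f := sg)).comp
        ((continuous_apply i).comp continuous_fst)
    · unfold clamp
      fun_prop
  refine hc.continuousAt.congr ?_
  have hev : ∀ᶠ p : (ℕ → Bool) × ℝ≥0 in nhds (e0, t0), (p.2 : ℝ) < t0 + 1 := by
    have : Continuous (fun p : (ℕ → Bool) × ℝ≥0 => (p.2 : ℝ)) := by fun_prop
    exact this.continuousAt.eventually_lt continuousAt_const (by simp)
  filter_upwards [hev] with p hp
  rw [walk_eq (N := N) hh p.1 (by linarith)]

theorem continuous_walkPath {h : ℝ} (hh : 0 < h) : Continuous (walkPath h hh) := by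
  apply Continuous.subtype_mk
  apply ContinuousMap.continuous_of_continuous_uncurry
  exact (AddCircle.continuous_mk' (1:ℝ)).comp (continuous_walk hh)

end Rdv
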