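import Mathlib
import Pool.Agent.H9.RdvWalk

/-! Definitions for MP_925b40_pr: symmetric rendezvous on the circle and the coin half tour. -/

namespace Rdv

open MeasureTheory NNReal ENNReal

/-- Meeting time of two paths on the circle: `inf {t ≥ 0 : p₁ t = p₂ t}` (`∞` if they never
meet). -/
noncomputable def meetTime (p₁ p₂ : ℝ≥0 → Circ) : ℝ≥0∞ :=
  ⨅ (t : ℝ≥0) (_ : p₁ t = p₂ t), (t : ℝ≥0∞)

/-- Expected meeting time of two pure strategies on the directed circle (group `G₂`):
`∫₀¹ T(ρ_a ∘ s₁, s₂) da`. -/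
noncomputable def That2 (s₁ s₂ : PureStrat) : ℝ≥0∞ :=
  ∫⁻ a in Set.Ico (0 : ℝ) 1, meetTime (fun t => (a : Circ) + s₁.1 t) (fun t => s₂.1 t)

/-- Expected meeting time of two pure strategies on the undirected circle (group `G₃`):
`½ ∫₀¹ [T(ρ_a ∘ s₁, s₂) + T(ρ_a ∘ s₁, σ ∘ s₂)] da`. -/
noncomputable def That3 (s₁ s₂ : PureStrat) : ℝ≥0∞ :=
  ∫⁻ a in Set.Ico (0 : ℝ) 1,
    (meetTime (fun t => (a : Circ) + s₁.1 t) (fun t => s₂.1 t) +
      meetTime (fun t => (a : Circ) + s₁.1 t) (fun t => -s₂.1 t)) / 2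

/-- Expected meeting time when both players use the mixed strategy `μ`, where `T` is `That2` or
`That3`. -/
noncomputable def mixedTime (T : PureStrat → PureStrat → ℝ≥0∞) (μ : Measure PureStrat) : ℝ≥0∞ :=
  ∫⁻ s₁, ∫⁻ s₂, T s₁ s₂ ∂μ ∂μ

/-- The symmetric rendezvous value `R^s`: infimum over all mixed strategies. -/
noncomputable def value (T : PureStrat → PureStrat → ℝ≥0∞) : ℝ≥0∞ :=
  ⨅ (μ : Measure PureStrat) (_ : IsProbabilityMeasure μ), mixedTime T μ

/-- Infinitely many independent fair coins. -/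
noncomputable def coinMeasure : Measure (ℕ → Bool) :=
  Measure.infinitePi fun _ => (PMF.uniformOfFintype Bool).toMeasure

/-- CO-HA-TO: on each interval `[k/2, (k+1)/2]` travel half of the circle at unit speed in the
direction given by the `k`-th fair coin. -/
noncomputable def cohato : Measure PureStrat :=
  coinMeasure.map (walkPath (1 / 2) (by norm_num))

end Rdv
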