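import Mathlib
import Pool.Agent.H9.RdvWalk
import Pool.Agent.H9.RdvDefs

namespace Rdv

open MeasureTheory NNReal ENNReal Finset

/-! ### coins -/

theorem fair_singleton (b : Bool) : (PMF.uniformOfFintype Bool).toMeasure {b} = 2⁻¹ := by
  rw [PMF.toMeasure_apply_singleton _ _ (measurableSet_singleton b), PMF.uniformOfFintype_apply]
  simp

instance : IsProbabilityMeasure coinMeasure := by
  unfold coinMeasure
  infer_instance

theorem coin_cyl (w : ℕ → Bool) (k : ℕ) :
    coinMeasure {ω | ∀ i < k, ω i = w i} = (2⁻¹ : ℝ≥0∞) ^ k := by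
  have h1 : {ω : ℕ → Bool | ∀ i < k, ω i = w i} = Set.pi (range k) (fun i => {w i}) := by
    ext ω; simp
  rw [h1]
  unfold coinMeasure
  rw [Measure.infinitePi_pi]
  · simp only [fair_singleton, prod_const, card_range]
  · intro i _; exact measurableSet_singleton _

theorem coin_one (k : ℕ) (b : Bool) : coinMeasure {ω | ω k = b} = 2⁻¹ := by
  have h1 : {ω : ℕ → Bool | ω k = b} = Set.pi ({k} : Finset ℕ) (fun _ => {b}) := by
    ext ω; simp
  rw [h1]
  unfold coinMeasure
  rw [Measure.infinitePi_pi]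
  · simp
  · intro i _; exact measurableSet_singleton _

theorem meas_cyl (w : ℕ → Bool) (k : ℕ) : MeasurableSet {ω : ℕ → Bool | ∀ i < k, ω i = w i} := by
  have h1 : {ω : ℕ → Bool | ∀ i < k, ω i = w i} = ⋂ i ∈ range k, {ω | ω i = w i} := by
    ext ω; simp
  rw [h1]
  refine Finset.measurableSet_biInter _ fun i _ => ?_
  exact (measurable_pi_apply i : Measurable fun ω : ℕ → Bool => ω i)
    (measurableSet_singleton (w i))

/-! ### walks -/

theorem walk_flip {h : ℝ} (_hh : 0 < h) (e : ℕ → Bool) {t : ℝ} (_ht : 0 ≤ t) :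
    walk h (fun i => !(e i)) t = - walk h e t := by
  unfold walk
  rw [← sum_neg_distrib]
  apply sum_congr rfl
  intro i _
  have : sg (!(e i)) = - sg (e i) := by cases e i <;> simp [sg]
  rw [this]; ring

/-- flip by `φ` -/
def fl (φ : Bool) (e : ℕ → Bool) (i : ℕ) : Bool := xor φ (e i)

theorem walk_agree {h : ℝ} (hh : 0 < h) {e f : ℕ → Bool} {k : ℕ} (hk : ∀ i < k, e i = f i)
    {t : ℝ} (ht : t ≤ k * h) : walk h e t = walk h f t := by
  rw [walk_eq hh e ht, walk_eq hh f ht]
  apply sum_congr rfl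
  intro i hi
  rw [hk i (mem_range.mp hi)]

theorem walk_step {h : ℝ} (hh : 0 < h) {e f : ℕ → Bool} {k : ℕ} (hk : ∀ i < k, e i = f i)
    {τ : ℝ} (h0 : 0 ≤ τ) (h1 : τ ≤ h) :
    walk h e (k * h + τ) - walk h f (k * h + τ) = τ * (sg (e k) - sg (f k)) := by
  rw [walk_at hh e k h0 h1, walk_at hh f k h0 h1]
  have : ∑ i ∈ range k, sg (e i) = ∑ i ∈ range k, sg (f i) := by
    apply sum_congr rfl
    intro i hi
    rw [hk i (mem_range.mp hi)]
  rw [this]; ring

/-- meeting in the lift -/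
theorem coe_eq_iff (a x y : ℝ) : (a : Circ) + (x : Circ) = (y : Circ) ↔ ∃ n : ℤ, (n : ℝ) = a + x - y := by
  rw [← AddCircle.coe_add, ← sub_eq_zero, ← AddCircle.coe_sub, AddCircle.coe_eq_zero_iff]
  simp

theorem no_int {x : ℝ} (h0 : 0 < x) (h1 : x < 1) : ¬ ∃ n : ℤ, (n : ℝ) = x := by
  rintro ⟨n, hn⟩
  have a1 : (0 : ℝ) < n := by rw [hn]; exact h0
  have a2 : (n : ℝ) < 1 := by rw [hn]; exact h1
  have b1 : 0 < n := by exact_mod_cast a1
  have b2 : n < 1 := by exact_mod_cast a2
  omega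

theorem meet_ge {e f : ℕ → Bool} {k : ℕ} (hk : ∀ i < k, e i = f i) (hne : e k ≠ f k)
    {a : ℝ} (ha0 : 0 < a) (ha1 : a < 1) :
    ENNReal.ofReal (k / 2 + (if e k then (1 - a) / 2 else a / 2)) ≤
      meetTime (fun t => (a : Circ) + ((walk (1/2) e t : ℝ) : Circ))
        (fun t => ((walk (1/2) f t : ℝ) : Circ)) := by
  have hh : (0:ℝ) < 1/2 := by norm_num
  unfold meetTime
  refine le_iInf₂ fun t ht => ?_
  rw [coe_eq_iff] at ht
  by_contra hlt
  push Not at hlt
  have hlt' : (t : ℝ) < k / 2 + (if e k then (1 - a) / 2 else a / 2) := by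
    rw [ENNReal.coe_nnreal_eq] at hlt
    exact (ENNReal.ofReal_lt_ofReal_iff_of_nonneg t.2).mp hlt
  rcases le_total (t : ℝ) (k * (1/2)) with h1 | h1
  · rw [walk_agree hh hk h1, add_sub_cancel_right] at ht
    exact no_int ha0 ha1 ht
  · set τ : ℝ := t - k * (1/2) with hτ
    have hτ0 : 0 ≤ τ := by rw [hτ]; linarith
    have hτt : (t : ℝ) = k * (1/2) + τ := by rw [hτ]; ring
    have hτ1 : τ < (if e k then (1 - a) / 2 else a / 2) := by rw [hτ]; linarith
    have hτ2 : τ ≤ 1/2 := by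
      split_ifs at hτ1 <;> linarith
    rw [hτt] at ht
    have hs := walk_step hh hk hτ0 hτ2
    rw [show a + walk (1/2) e (k * (1/2) + τ) - walk (1/2) f (k * (1/2) + τ) =
      a + (walk (1/2) e (k * (1/2) + τ) - walk (1/2) f (k * (1/2) + τ)) by ring, hs] at ht
    cases hek : e k <;> cases hfk : f k
    · exact hne (by rw [hek, hfk])
    · rw [hek, hfk] at ht
      rw [hek] at hτ1
      simp only [Bool.false_eq_true, if_false] at hτ1
      simp only [sg, Bool.false_eq_true, if_false, if_true] at ht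
      exact no_int (by linarith) (by linarith) ht
    · rw [hek, hfk] at ht
      rw [hek] at hτ1
      simp only [if_true] at hτ1
      simp only [sg, Bool.false_eq_true, if_false, if_true] at ht
      exact no_int (by linarith) (by linarith) ht
    · exact hne (by rw [hek, hfk])

theorem meet_top {e f : ℕ → Bool} (hk : ∀ i, e i = f i) {a : ℝ} (ha0 : 0 < a) (ha1 : a < 1) :
      meetTime (fun t => (a : Circ) + ((walk (1/2) e t : ℝ) : Circ))
        (fun t => ((walk (1/2) f t : ℝ) : Circ)) = ⊤ := by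
  have : e = f := funext hk
  subst this
  unfold meetTime
  rw [iInf₂_eq_top]
  intro t ht
  rw [coe_eq_iff, add_sub_cancel_right] at ht
  exact absurd ht (no_int ha0 ha1)

/-- lower bound function -/
noncomputable def Lsum (e f : ℕ → Bool) : ℝ≥0∞ :=
  4⁻¹ + ∑' k : ℕ, 2⁻¹ * (if ∀ i < k + 1, e i = f i then 1 else 0)

theorem lint_lin (l r α β : ℝ) (hlr : l ≤ r) (hnn : ∀ a ∈ Set.Icc l r, 0 ≤ α + β * a) :
    ∫⁻ a in Set.Ioo l r, ENNReal.ofReal (α + β * a) =
      ENNReal.ofReal (α * (r - l) + β * (r^2 - l^2) / 2) := by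
  have hint : IntervalIntegrable (fun a : ℝ => α + β * a) volume l r :=
    (by fun_prop : Continuous fun a : ℝ => α + β * a).intervalIntegrable _ _
  rw [← ofReal_integral_eq_lintegral_ofReal]
  · congr 1
    rw [← integral_Ioc_eq_integral_Ioo, ← intervalIntegral.integral_of_le hlr,
      intervalIntegral.integral_add (by simp) (by
        exact (by fun_prop : Continuous fun a : ℝ => β * a).intervalIntegrable _ _),
      intervalIntegral.integral_const_mul, integral_id]
    simp
    ring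
  · rw [intervalIntegrable_iff_integrableOn_Ioo_of_le hlr] at hint
    exact hint
  · rw [Filter.EventuallyLE, ae_restrict_iff' measurableSet_Ioo]
    exact Filter.Eventually.of_forall fun a ha => hnn a ⟨ha.1.le, ha.2.le⟩

theorem lb_exists (e f : ℕ → Bool) : ∃ g : ℝ → ℝ≥0∞, Measurable g ∧
    (∀ a ∈ Set.Ioo (0:ℝ) 1, g a ≤
      meetTime (fun t => (a : Circ) + ((walk (1/2) e t : ℝ) : Circ))
        (fun t => ((walk (1/2) f t : ℝ) : Circ))) ∧
    Lsum e f ≤ ∫⁻ a in Set.Ioo (0:ℝ) 1, g a := by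
  by_cases hex : ∃ k, e k ≠ f k
  · classical
    set k := Nat.find hex with hkdef
    have hne : e k ≠ f k := Nat.find_spec hex
    have hk : ∀ i < k, e i = f i := fun i hi => by
      have := Nat.find_min hex hi
      push Not at this
      exact this
    refine ⟨fun a => ENNReal.ofReal (k / 2 + (if e k then (1 - a) / 2 else a / 2)), ?_,
      fun a ha => meet_ge hk hne ha.1 ha.2, ?_⟩
    · cases e k <;> simp only [Bool.false_eq_true, if_false, if_true] <;> fun_prop
    · have hL : Lsum e f = 4⁻¹ + k * 2⁻¹ := by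
        unfold Lsum
        congr 1
        rw [tsum_eq_sum (s := range k)]
        · have : ∀ j ∈ range k, (2⁻¹ : ℝ≥0∞) * (if ∀ i < j + 1, e i = f i then 1 else 0) = 2⁻¹ := by
            intro j hj
            rw [if_pos, mul_one]
            intro i hi
            exact hk i (by have := mem_range.mp hj; omega)
          rw [sum_congr rfl this, sum_const, card_range, nsmul_eq_mul]
        · intro j hj
          rw [if_neg, mul_zero]
          intro hall
          have hj' : ¬ j < k := fun h => hj (mem_range.mpr h)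
          exact hne (hall k (by omega))
      have hI : ∫⁻ a in Set.Ioo (0:ℝ) 1,
          ENNReal.ofReal (k / 2 + (if e k then (1 - a) / 2 else a / 2)) =
          ENNReal.ofReal (k / 2 + 1 / 4) := by
        cases e k
        · simp only [Bool.false_eq_true, if_false]
          have := lint_lin 0 1 (k/2) (1/2) (by norm_num) (fun a ha => by
            have := ha.1; positivity)
          calc _ = ∫⁻ a in Set.Ioo (0:ℝ) 1, ENNReal.ofReal (k/2 + 1/2 * a) := by
                congr 1; ext a; congr 1; ring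
            _ = _ := by rw [this]; congr 1; ring
        · simp only [if_true]
          have := lint_lin 0 1 (k/2 + 1/2) (-1/2) (by norm_num) (fun a ha => by
            have h1 := ha.1
            have h2 := ha.2
            have h3 : (0:ℝ) ≤ k := by positivity
            linarith)
          calc _ = ∫⁻ a in Set.Ioo (0:ℝ) 1, ENNReal.ofReal (k/2 + 1/2 + -1/2 * a) := by
                congr 1; ext a; congr 1; ring
            _ = _ := by rw [this]; congr 1; ring
      rw [hI, hL, ENNReal.ofReal_add (by positivity) (by norm_num), add_comm]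
      apply le_of_eq
      congr 1
      · rw [ENNReal.ofReal_div_of_pos (by norm_num), ENNReal.ofReal_natCast, div_eq_mul_inv]
        simp
      · rw [one_div, ENNReal.ofReal_inv_of_pos (by norm_num)]
        simp
  · push Not at hex
    refine ⟨fun _ => ⊤, measurable_const, fun a ha => ?_, ?_⟩
    · rw [meet_top hex ha.1 ha.2]
    · simp

/-! ### integrating over the coins -/

theorem tsum_pow_succ : ∑' k : ℕ, (2⁻¹ : ℝ≥0∞) * (2⁻¹) ^ (k+1) = 2⁻¹ := by
  have h1 : ∑' k : ℕ, (2⁻¹ : ℝ≥0∞) ^ (k+1) = 1 := by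
    simp only [pow_succ, ENNReal.tsum_mul_right, ENNReal.tsum_geometric]
    rw [ENNReal.one_sub_inv_two, inv_inv]
    exact ENNReal.mul_inv_cancel (by norm_num) (by norm_num)
  rw [ENNReal.tsum_mul_left, h1, mul_one]

theorem agree_eq (φ : Bool) (ω₁ : ℕ → Bool) (k : ℕ) :
    {ω₂ : ℕ → Bool | ∀ i < k, ω₁ i = fl φ ω₂ i} = {ω₂ | ∀ i < k, ω₂ i = fl φ ω₁ i} := by
  ext ω₂
  simp only [Set.mem_ofPred_eq, fl]
  constructor
  · intro h i hi
    have := h i hi
    cases φ <;> cases h1 : ω₁ i <;> cases h2 : ω₂ i <;> simp_all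
  · intro h i hi
    have := h i hi
    cases φ <;> cases h1 : ω₁ i <;> cases h2 : ω₂ i <;> simp_all

theorem lint_Lsum (φ : Bool) (ω₁ : ℕ → Bool) :
    ∫⁻ ω₂, Lsum ω₁ (fl φ ω₂) ∂coinMeasure = 4⁻¹ + 2⁻¹ := by
  have hm : ∀ k : ℕ, MeasurableSet {ω₂ : ℕ → Bool | ∀ i < k + 1, ω₁ i = fl φ ω₂ i} := by
    intro k
    rw [agree_eq]
    exact meas_cyl _ _
  have hf : ∀ k : ℕ, (fun ω₂ : ℕ → Bool => (2⁻¹ : ℝ≥0∞) *
      (if ∀ i < k + 1, ω₁ i = fl φ ω₂ i then 1 else 0)) =
      fun ω₂ => 2⁻¹ * ({ω₂ : ℕ → Bool | ∀ i < k + 1, ω₁ i = fl φ ω₂ i}.indicator 1 ω₂) := by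
    intro k
    funext ω₂
    congr 1
    simp only [Set.indicator_apply, Set.mem_ofPred_eq, Pi.one_apply]
  unfold Lsum
  rw [lintegral_add_left measurable_const, lintegral_const, measure_univ, mul_one,
    lintegral_tsum]
  · congr 1
    have hs : ∀ k : ℕ, ∫⁻ ω₂ : ℕ → Bool, (2⁻¹ : ℝ≥0∞) *
        (if ∀ i < k + 1, ω₁ i = fl φ ω₂ i then 1 else 0) ∂coinMeasure = 2⁻¹ * 2⁻¹ ^ (k + 1) := by
      intro k
      rw [hf k, lintegral_const_mul _ (measurable_one.indicator (hm k)),
        lintegral_indicator_one (hm k), agree_eq, coin_cyl]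
    rw [tsum_congr hs, tsum_pow_succ]
  · intro k
    rw [hf k]
    exact ((measurable_one.indicator (hm k)).const_mul _).aemeasurable

theorem lint_lint_Lsum (φ : Bool) :
    ∫⁻ ω₁, ∫⁻ ω₂, Lsum ω₁ (fl φ ω₂) ∂coinMeasure ∂coinMeasure = 4⁻¹ + 2⁻¹ := by
  simp only [lint_Lsum, lintegral_const, measure_univ, mul_one]

/-! ### the path map is an embedding -/

theorem walkPath_injective : Function.Injective (walkPath (1/2) (by norm_num)) := by
  intro e f hef
  by_contra hne
  have hex : ∃ k, e k ≠ f k := by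
    by_contra hcon
    push Not at hcon
    exact hne (funext hcon)
  classical
  set k := Nat.find hex with hkdef
  have hk1 : e k ≠ f k := Nat.find_spec hex
  have hk : ∀ i < k, e i = f i := fun i hi => by
    have := Nat.find_min hex hi
    push Not at this
    exact this
  have hh : (0:ℝ) < 1/2 := by norm_num
  have hτ : (0:ℝ) ≤ k * (1/2) + 1/4 := by positivity
  have h1 := congrArg (fun s : PureStrat => s.1 (⟨k * (1/2) + 1/4, hτ⟩ : ℝ≥0)) hef
  have h2 : ((walk (1/2) e (k * (1/2) + 1/4) : ℝ) : Circ) =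
    ((walk (1/2) f (k * (1/2) + 1/4) : ℝ) : Circ) := h1
  have h3 := (coe_eq_iff 0 (walk (1/2) e (k * (1/2) + 1/4)) (walk (1/2) f (k * (1/2) + 1/4))).mp
    (by rw [h2]; simp)
  have h4 := walk_step hh hk (τ := 1/4) (by norm_num) (by norm_num)
  rw [zero_add, h4] at h3
  obtain ⟨n, hn⟩ := h3
  cases hek : e k <;> cases hfk : f k
  · exact hk1 (by rw [hek, hfk])
  · rw [hek, hfk] at hn
    simp only [sg, Bool.false_eq_true, if_false, if_true] at hn
    have : (2 * n : ℝ) = ((-1 : ℤ) : ℝ) := by push_cast; linarith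
    have : 2 * n = -1 := by exact_mod_cast this
    omega
  · rw [hek, hfk] at hn
    simp only [sg, Bool.false_eq_true, if_false, if_true] at hn
    have : (2 * n : ℝ) = ((1 : ℤ) : ℝ) := by push_cast; linarith
    have : 2 * n = 1 := by exact_mod_cast this
    omega
  · exact hk1 (by rw [hek, hfk])

theorem walkPath_me : MeasurableEmbedding (walkPath (1/2) (by norm_num)) :=
  ((continuous_walkPath _).isClosedEmbedding walkPath_injective).measurableEmbedding

instance : IsProbabilityMeasure cohato :=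
  Measure.isProbabilityMeasure_map (continuous_walkPath _).measurable.aemeasurable

theorem mixed_cohato (T : PureStrat → PureStrat → ℝ≥0∞) :
    mixedTime T cohato = ∫⁻ ω₁, ∫⁻ ω₂, T (walkPath (1/2) (by norm_num) ω₁)
      (walkPath (1/2) (by norm_num) ω₂) ∂coinMeasure ∂coinMeasure := by
  unfold mixedTime cohato
  rw [walkPath_me.lintegral_map]
  simp only [walkPath_me.lintegral_map]

theorem That2_ge (ω₁ ω₂ : ℕ → Bool) : Lsum ω₁ (fl false ω₂) ≤
    That2 (walkPath (1/2) (by norm_num) ω₁) (walkPath (1/2) (by norm_num) ω₂) := by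
  have e0 : fl false ω₂ = ω₂ := by funext i; simp [fl]
  rw [e0]
  obtain ⟨g, hg, h1, h2⟩ := lb_exists ω₁ ω₂
  refine h2.trans ?_
  unfold That2
  calc ∫⁻ a in Set.Ioo (0:ℝ) 1, g a ≤ ∫⁻ a in Set.Ioo (0:ℝ) 1,
        meetTime (fun t => (a : Circ) + (walkPath (1/2) (by norm_num) ω₁).1 t)
          (fun t => (walkPath (1/2) (by norm_num) ω₂).1 t) :=
        setLIntegral_mono' measurableSet_Ioo h1
    _ ≤ _ := lintegral_mono_set Set.Ioo_subset_Ico_self

theorem That3_ge (ω₁ ω₂ : ℕ → Bool) :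
    (Lsum ω₁ (fl false ω₂) + Lsum ω₁ (fl true ω₂)) / 2 ≤
    That3 (walkPath (1/2) (by norm_num) ω₁) (walkPath (1/2) (by norm_num) ω₂) := by
  have e0 : fl false ω₂ = ω₂ := by funext i; simp [fl]
  have e1 : fl true ω₂ = fun i => !(ω₂ i) := by funext i; simp [fl]
  rw [e0, e1]
  obtain ⟨g, hg, h1, h2⟩ := lb_exists ω₁ ω₂
  obtain ⟨g', hg', h1', h2'⟩ := lb_exists ω₁ (fun i => !(ω₂ i))
  unfold That3
  calc (Lsum ω₁ ω₂ + Lsum ω₁ (fun i => !(ω₂ i))) / 2
      ≤ ((∫⁻ a in Set.Ioo (0:ℝ) 1, g a) + (∫⁻ a in Set.Ioo (0:ℝ) 1, g' a)) / 2 :=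
        ENNReal.div_le_div_right (add_le_add h2 h2') 2
    _ = ∫⁻ a in Set.Ioo (0:ℝ) 1, (g a + g' a) / 2 := by
        rw [← lintegral_add_left hg]
        have h3 := lintegral_mul_const (μ := volume.restrict (Set.Ioo (0:ℝ) 1))
          (2⁻¹ : ℝ≥0∞) (hg.add hg')
        simp only [div_eq_mul_inv]
        exact h3.symm
    _ ≤ ∫⁻ a in Set.Ioo (0:ℝ) 1,
        (meetTime (fun t => (a : Circ) + (walkPath (1/2) (by norm_num) ω₁).1 t)
          (fun t => (walkPath (1/2) (by norm_num) ω₂).1 t) +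
         meetTime (fun t => (a : Circ) + (walkPath (1/2) (by norm_num) ω₁).1 t)
          (fun t => -(walkPath (1/2) (by norm_num) ω₂).1 t)) / 2 := by
        apply setLIntegral_mono' measurableSet_Ioo
        intro a ha
        apply ENNReal.div_le_div_right
        apply add_le_add (h1 a ha)
        have : (fun t : ℝ≥0 => -(walkPath (1/2) (by norm_num) ω₂).1 t) =
            fun t : ℝ≥0 => ((walk (1/2) (fun i => !(ω₂ i)) t : ℝ) : Circ) := by
          funext t
          show -((walk (1/2) ω₂ t : ℝ) : Circ) = _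
          have hw : walk (1/2) (fun i => !(ω₂ i)) (t : ℝ) = - walk (1/2) ω₂ (t : ℝ) :=
            walk_flip (by norm_num) ω₂ t.2
          rw [hw, AddCircle.coe_neg]
        rw [this]
        exact h1' a ha
    _ ≤ _ := lintegral_mono_set Set.Ioo_subset_Ico_self

theorem cohato2 : 4⁻¹ + 2⁻¹ ≤ mixedTime That2 cohato := by
  rw [mixed_cohato, ← lint_lint_Lsum false]
  exact lintegral_mono fun ω₁ => lintegral_mono fun ω₂ => That2_ge ω₁ ω₂

theorem cohato3 : 4⁻¹ + 2⁻¹ ≤ mixedTime That3 cohato := by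
  have meas : ∀ φ ω₁, Measurable fun ω₂ : ℕ → Bool => Lsum ω₁ (fl φ ω₂) := by
    intro φ ω₁
    unfold Lsum
    refine measurable_const.add (Measurable.ennreal_tsum fun k => ?_)
    refine Measurable.const_mul (Measurable.ite ?_ measurable_const measurable_const) _
    show MeasurableSet {ω₂ : ℕ → Bool | ∀ i < k + 1, ω₁ i = fl φ ω₂ i}
    rw [agree_eq]
    exact meas_cyl _ _
  rw [mixed_cohato]
  calc (4⁻¹ + 2⁻¹ : ℝ≥0∞) = ∫⁻ _ω₁ : ℕ → Bool, (4⁻¹ + 2⁻¹) ∂coinMeasure := by simp
    _ ≤ _ := by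
      refine lintegral_mono fun ω₁ => ?_
      calc (4⁻¹ + 2⁻¹ : ℝ≥0∞) = ((4⁻¹ + 2⁻¹) + (4⁻¹ + 2⁻¹)) / 2 := by
            rw [ENNReal.add_div, ENNReal.add_halves]
        _ = ∫⁻ ω₂, (Lsum ω₁ (fl false ω₂) + Lsum ω₁ (fl true ω₂)) / 2 ∂coinMeasure := by
            have hm2 := (meas false ω₁).add (meas true ω₁)
            have h3 := lintegral_mul_const (μ := coinMeasure) (2⁻¹ : ℝ≥0∞) hm2
            simp only [div_eq_mul_inv]
            refine Eq.trans ?_ h3.symm
            simp only [Pi.add_apply]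
            rw [lintegral_add_left (meas _ _), lint_Lsum, lint_Lsum]
        _ ≤ _ := lintegral_mono fun ω₂ => That3_ge ω₁ ω₂

end Rdv
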