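import Mathlib
import Pool.Agent.H9.RdvWalk
import Pool.Agent.H9.RdvDefs
import Pool.Agent.H9.RdvLower

namespace Rdv

open MeasureTheory NNReal ENNReal Finset

/-! The upper bound `3/4` for CO-HA-TO (so that its expected meeting time is exactly `3/4`). -/

theorem meet_le_half {e f : ℕ → Bool} {k : ℕ} (hk : ∀ i < k, e i = f i) (hne : e k ≠ f k)
    {a : ℝ} (ha0 : 0 ≤ a) (ha1 : a < 1) :
      meetTime (fun t => (a : Circ) + ((walk (1/2) e t : ℝ) : Circ))
        (fun t => ((walk (1/2) f t : ℝ) : Circ)) ≤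
    ENNReal.ofReal (k / 2 + (if e k then (1 - a) / 2 else a / 2)) := by
  have hh : (0:ℝ) < 1/2 := by norm_num
  have key : ∀ τ : ℝ, 0 ≤ τ → τ ≤ 1/2 → (∃ n : ℤ, (n:ℝ) = a + τ * (sg (e k) - sg (f k))) →
      meetTime (fun t => (a : Circ) + ((walk (1/2) e t : ℝ) : Circ))
        (fun t => ((walk (1/2) f t : ℝ) : Circ)) ≤ ENNReal.ofReal (k/2 + τ) := by
    intro τ h0 h1 hn
    have hnn : (0:ℝ) ≤ k * (1/2) + τ := by positivity
    unfold meetTime
    refine (iInf₂_le (Real.toNNReal (k * (1/2) + τ)) ?_).trans ?_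
    · rw [coe_eq_iff, Real.coe_toNNReal _ hnn]
      obtain ⟨n, hn⟩ := hn
      refine ⟨n, ?_⟩
      have := walk_step hh hk h0 h1
      linarith
    · change ENNReal.ofReal (k * (1/2) + τ) ≤ _
      apply ENNReal.ofReal_le_ofReal
      apply le_of_eq
      ring
  cases hek : e k <;> cases hfk : f k
  · exact absurd (hek.trans hfk.symm) hne
  · simp only [Bool.false_eq_true, if_false]
    refine key (a/2) (by linarith) (by linarith) ⟨0, ?_⟩
    rw [hek, hfk]
    simp [sg]; ring
  · simp only [if_true]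
    refine key ((1-a)/2) (by linarith) (by linarith) ⟨1, ?_⟩
    rw [hek, hfk]
    simp [sg]; ring
  · exact absurd (hek.trans hfk.symm) hne

theorem ubh_exists (e f : ℕ → Bool) : ∃ g : ℝ → ℝ≥0∞, Measurable g ∧
    (∀ a ∈ Set.Ico (0:ℝ) 1,
      meetTime (fun t => (a : Circ) + ((walk (1/2) e t : ℝ) : Circ))
        (fun t => ((walk (1/2) f t : ℝ) : Circ)) ≤ g a) ∧
    ∫⁻ a in Set.Ico (0:ℝ) 1, g a ≤ Lsum e f := by
  by_cases hex : ∃ k, e k ≠ f k
  · classical
    set k := Nat.find hex with hkdef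
    have hne : e k ≠ f k := Nat.find_spec hex
    have hk : ∀ i < k, e i = f i := fun i hi => by
      have := Nat.find_min hex hi
      push Not at this
      exact this
    refine ⟨fun a => ENNReal.ofReal (k / 2 + (if e k then (1 - a) / 2 else a / 2)), ?_,
      fun a ha => meet_le_half hk hne ha.1 ha.2, ?_⟩
    · cases e k <;> simp only [Bool.false_eq_true, if_false, if_true] <;> fun_prop
    · have hL : Lsum e f = 4⁻¹ + k * 2⁻¹ := by
        unfold Lsum
        congr 1
        rw [tsum_eq_sum (s := range k)]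
        · have : ∀ j ∈ range k, (2⁻¹ : ℝ≥0∞) * (if ∀ i < j + 1, e i = f i then 1 else 0) = 2⁻¹ := by
            intro j hj
            rw [if_pos, mul_one]
            intro i hi
            exact hk i (by have := mem_range.mp hj; omega)
          rw [sum_congr rfl this, sum_const, card_range, nsmul_eq_mul]
        · intro j hj
          rw [if_neg, mul_zero]
          intro hall
          have hj' : ¬ j < k := fun h => hj (mem_range.mpr h)
          exact hne (hall k (by omega))
      have hI : ∫⁻ a in Set.Ico (0:ℝ) 1,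
          ENNReal.ofReal (k / 2 + (if e k then (1 - a) / 2 else a / 2)) =
          ENNReal.ofReal (k / 2 + 1 / 4) := by
        rw [setLIntegral_congr Ioo_ae_eq_Ico.symm]
        cases e k
        · simp only [Bool.false_eq_true, if_false]
          have := lint_lin 0 1 (k/2) (1/2) (by norm_num) (fun a ha => by
            have := ha.1; positivity)
          calc _ = ∫⁻ a in Set.Ioo (0:ℝ) 1, ENNReal.ofReal (k/2 + 1/2 * a) := by
                congr 1; ext a; congr 1; ring
            _ = _ := by rw [this]; congr 1; ring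
        · simp only [if_true]
          have := lint_lin 0 1 (k/2 + 1/2) (-1/2) (by norm_num) (fun a ha => by
            have h1 := ha.1
            have h2 := ha.2
            have h3 : (0:ℝ) ≤ k := by positivity
            linarith)
          calc _ = ∫⁻ a in Set.Ioo (0:ℝ) 1, ENNReal.ofReal (k/2 + 1/2 + -1/2 * a) := by
                congr 1; ext a; congr 1; ring
            _ = _ := by rw [this]; congr 1; ring
      rw [hI, hL, ENNReal.ofReal_add (by positivity) (by norm_num), add_comm]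
      apply le_of_eq
      congr 1
      · rw [one_div, ENNReal.ofReal_inv_of_pos (by norm_num)]
        simp
      · rw [ENNReal.ofReal_div_of_pos (by norm_num), ENNReal.ofReal_natCast, div_eq_mul_inv]
        simp
  · push Not at hex
    refine ⟨fun _ => ⊤, measurable_const, fun a ha => le_top, ?_⟩
    have hL : Lsum e f = ⊤ := by
      unfold Lsum
      have : ∀ k : ℕ, (2⁻¹ : ℝ≥0∞) * (if ∀ i < k + 1, e i = f i then 1 else 0) = 2⁻¹ := by
        intro k
        rw [if_pos fun i _ => hex i, mul_one]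
      simp only [this]
      rw [ENNReal.tsum_const_eq_top_of_ne_zero (by simp), add_top]
    rw [hL]
    exact le_top

theorem That2_le' (ω₁ ω₂ : ℕ → Bool) :
    That2 (walkPath (1/2) (by norm_num) ω₁) (walkPath (1/2) (by norm_num) ω₂) ≤
      Lsum ω₁ (fl false ω₂) := by
  have e0 : fl false ω₂ = ω₂ := by funext i; simp [fl]
  rw [e0]
  obtain ⟨g, hg, h1, h2⟩ := ubh_exists ω₁ ω₂
  refine le_trans ?_ h2
  unfold That2
  exact setLIntegral_mono' measurableSet_Ico h1

theorem That3_le' (ω₁ ω₂ : ℕ → Bool) :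
    That3 (walkPath (1/2) (by norm_num) ω₁) (walkPath (1/2) (by norm_num) ω₂) ≤
      (Lsum ω₁ (fl false ω₂) + Lsum ω₁ (fl true ω₂)) / 2 := by
  have e0 : fl false ω₂ = ω₂ := by funext i; simp [fl]
  have e1 : fl true ω₂ = fun i => !(ω₂ i) := by funext i; simp [fl]
  rw [e0, e1]
  obtain ⟨g, hg, h1, h2⟩ := ubh_exists ω₁ ω₂
  obtain ⟨g', hg', h1', h2'⟩ := ubh_exists ω₁ (fun i => !(ω₂ i))
  unfold That3
  calc ∫⁻ a in Set.Ico (0:ℝ) 1,
        (meetTime (fun t => (a : Circ) + (walkPath (1/2) (by norm_num) ω₁).1 t)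
          (fun t => (walkPath (1/2) (by norm_num) ω₂).1 t) +
         meetTime (fun t => (a : Circ) + (walkPath (1/2) (by norm_num) ω₁).1 t)
          (fun t => -(walkPath (1/2) (by norm_num) ω₂).1 t)) / 2
      ≤ ∫⁻ a in Set.Ico (0:ℝ) 1, (g a + g' a) / 2 := by
        apply setLIntegral_mono' measurableSet_Ico
        intro a ha
        apply ENNReal.div_le_div_right
        apply add_le_add (h1 a ha)
        have : (fun t : ℝ≥0 => -(walkPath (1/2) (by norm_num) ω₂).1 t) =
            fun t : ℝ≥0 => ((walk (1/2) (fun i => !(ω₂ i)) t : ℝ) : Circ) := by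
          funext t
          show -((walk (1/2) ω₂ t : ℝ) : Circ) = _
          have hw : walk (1/2) (fun i => !(ω₂ i)) (t : ℝ) = - walk (1/2) ω₂ (t : ℝ) :=
            walk_flip (by norm_num) ω₂ t.2
          rw [hw, AddCircle.coe_neg]
        rw [this]
        exact h1' a ha
    _ = ((∫⁻ a in Set.Ico (0:ℝ) 1, g a) + (∫⁻ a in Set.Ico (0:ℝ) 1, g' a)) / 2 := by
        rw [← lintegral_add_left hg]
        have h3 := lintegral_mul_const (μ := volume.restrict (Set.Ico (0:ℝ) 1))
          (2⁻¹ : ℝ≥0∞) (hg.add hg')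
        simp only [div_eq_mul_inv]
        exact h3
    _ ≤ _ := ENNReal.div_le_div_right (add_le_add h2 h2') 2

theorem cohato2' : mixedTime That2 cohato ≤ 4⁻¹ + 2⁻¹ := by
  rw [mixed_cohato, ← lint_lint_Lsum false]
  exact lintegral_mono fun ω₁ => lintegral_mono fun ω₂ => That2_le' ω₁ ω₂

theorem cohato3' : mixedTime That3 cohato ≤ 4⁻¹ + 2⁻¹ := by
  have meas : ∀ φ ω₁, Measurable fun ω₂ : ℕ → Bool => Lsum ω₁ (fl φ ω₂) := by
    intro φ ω₁
    unfold Lsum
    refine measurable_const.add (Measurable.tsum fun k => ?_)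
    refine Measurable.const_mul (Measurable.ite ?_ measurable_const measurable_const) _
    show MeasurableSet {ω₂ : ℕ → Bool | ∀ i < k + 1, ω₁ i = fl φ ω₂ i}
    rw [agree_eq]
    exact meas_cyl _ _
  rw [mixed_cohato]
  calc _ ≤ ∫⁻ _ω₁ : ℕ → Bool, (4⁻¹ + 2⁻¹ : ℝ≥0∞) ∂coinMeasure := by
        refine lintegral_mono fun ω₁ => ?_
        calc _ ≤ ∫⁻ ω₂, (Lsum ω₁ (fl false ω₂) + Lsum ω₁ (fl true ω₂)) / 2 ∂coinMeasure :=
              lintegral_mono fun ω₂ => That3_le' ω₁ ω₂
          _ = ((4⁻¹ + 2⁻¹) + (4⁻¹ + 2⁻¹)) / 2 := by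
            have hm2 := (meas false ω₁).add (meas true ω₁)
            have h3 := lintegral_mul_const (μ := coinMeasure) (2⁻¹ : ℝ≥0∞) hm2
            simp only [div_eq_mul_inv]
            refine Eq.trans h3 ?_
            simp only [Pi.add_apply]
            rw [lintegral_add_left (meas _ _), lint_Lsum, lint_Lsum]
          _ = _ := by rw [ENNReal.add_div, ENNReal.add_halves]
    _ = _ := by simp

theorem three_quarters : (3 / 4 : ℝ≥0∞) = 4⁻¹ + 2⁻¹ := by
  rw [← ENNReal.toReal_eq_toReal_iff' (by finiteness) (by finiteness)]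
  have hf1 : (4⁻¹ : ℝ≥0∞) ≠ ⊤ := by finiteness
  have hf2 : (2⁻¹ : ℝ≥0∞) ≠ ⊤ := by finiteness
  simp only [ENNReal.toReal_add hf1 hf2, ENNReal.toReal_inv, ENNReal.toReal_div,
    ENNReal.toReal_ofNat]
  norm_num

theorem cohato_eq2 : mixedTime That2 cohato = 3 / 4 := by
  rw [three_quarters]
  exact le_antisymm cohato2' cohato2

theorem cohato_eq3 : mixedTime That3 cohato = 3 / 4 := by
  rw [three_quarters]
  exact le_antisymm cohato3' cohato3

end Rdv
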