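import Mathlib
import Pool.Agent.H9.RdvWalk
import Pool.Agent.H9.RdvDefs
import Pool.Agent.H9.RdvLower

namespace Rdv

open MeasureTheory NNReal ENNReal Finset

/-! ### combinatorics of hits for quarter-step walks -/

/-- parity state before step `j` -/
def par (b : Bool) (e f : ℕ → Bool) : ℕ → Bool
  | 0 => b
  | j + 1 => xor (par b e f j) (xor (e j) (f j))

/-- hit during step `j` -/
def hit (b : Bool) (e f : ℕ → Bool) (j : ℕ) : Bool :=
  (e j == par b e f j) && (f j != e j)

theorem par_congr {b : Bool} {e f e' f' : ℕ → Bool} (j : ℕ)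
    (he : ∀ i < j, e i = e' i) (hf : ∀ i < j, f i = f' i) : par b e f j = par b e' f' j := by
  induction j with
  | zero => rfl
  | succ j ih =>
    simp only [par]
    rw [ih (fun i hi => he i (by omega)) (fun i hi => hf i (by omega)), he j (by omega),
      hf j (by omega)]

theorem hit_congr {b : Bool} {e f e' f' : ℕ → Bool} (j : ℕ)
    (he : ∀ i ≤ j, e i = e' i) (hf : ∀ i ≤ j, f i = f' i) : hit b e f j = hit b e' f' j := by
  simp only [hit]
  rw [par_congr j (fun i hi => he i (by omega)) (fun i hi => hf i (by omega)), he j le_rfl,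
    hf j le_rfl]

/-- real value of a bit -/
noncomputable def bv (b : Bool) : ℝ := cond b 1 0

theorem bv_false : bv false = 0 := rfl
theorem bv_true : bv true = 1 := rfl

theorem bv_nonneg (b : Bool) : 0 ≤ bv b := by cases b <;> simp [bv]

theorem par_real (b : Bool) (e f : ℕ → Bool) (j : ℕ) :
    ∃ m : ℤ, bv b + (1/2) * ∑ i ∈ range j, (sg (e i) - sg (f i)) =
      2 * m + bv (par b e f j) := by
  induction j with
  | zero => exact ⟨0, by simp [par]⟩
  | succ j ih =>
    obtain ⟨m, hm⟩ := ih
    rw [sum_range_succ, mul_add, ← add_assoc, hm]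
    simp only [par]
    generalize par b e f j = pp
    generalize e j = ee
    generalize f j = ff
    cases pp <;> cases ee <;> cases ff
    · exact ⟨m, by simp [sg]⟩
    · exact ⟨m - 1, by simp [sg, bv]; ring⟩
    · exact ⟨m, by simp [sg, bv]; ring⟩
    · exact ⟨m, by simp [sg]⟩
    · exact ⟨m, by simp [sg]⟩
    · exact ⟨m, by simp [sg, bv]; ring⟩
    · exact ⟨m + 1, by simp [sg, bv]; ring⟩
    · exact ⟨m, by simp [sg]⟩

theorem meet_le {b : Bool} {e f : ℕ → Bool} {j : ℕ} (hj : hit b e f j = true) {a : ℝ}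
    (ha0 : bv b / 2 ≤ a) (ha1 : a < bv b / 2 + 1/2) :
    meetTime (fun t => (a : Circ) + ((walk (1/4) e t : ℝ) : Circ))
        (fun t => ((walk (1/4) f t : ℝ) : Circ)) ≤
    ENNReal.ofReal ((j/4 + 1/4 * bv (par b e f j) + (2 * bv (par b e f j) - 1) * bv b / 4) +
      (1/2 - bv (par b e f j)) * a) := by
  obtain ⟨m, hm⟩ := par_real b e f j
  have hh : (0:ℝ) < 1/4 := by norm_num
  set c : ℝ := a - bv b / 2 with hc
  have hc0 : 0 ≤ c := by rw [hc]; linarith
  have hc1 : c < 1/2 := by rw [hc]; linarith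
  have hac : a = c + bv b / 2 := by rw [hc]; ring
  simp only [hit, Bool.and_eq_true, beq_iff_eq, bne_iff_ne, ne_eq] at hj
  obtain ⟨hj1, hj2⟩ := hj
  -- the time
  have key : ∀ τ : ℝ, 0 ≤ τ → τ ≤ 1/4 → (∃ n : ℤ, (n:ℝ) = c + m + bv (par b e f j) / 2
      + τ * (sg (e j) - sg (f j))) →
      meetTime (fun t => (a : Circ) + ((walk (1/4) e t : ℝ) : Circ))
        (fun t => ((walk (1/4) f t : ℝ) : Circ)) ≤ ENNReal.ofReal (j/4 + τ) := by
    intro τ h0 h1 hn
    have hnn : (0:ℝ) ≤ j * (1/4) + τ := by positivity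
    unfold meetTime
    refine (iInf₂_le (Real.toNNReal (j * (1/4) + τ)) ?_).trans ?_
    · rw [coe_eq_iff, Real.coe_toNNReal _ hnn]
      obtain ⟨n, hn⟩ := hn
      refine ⟨n, ?_⟩
      rw [hn, walk_at hh e j h0 h1, walk_at hh f j h0 h1, hac]
      rw [sum_sub_distrib] at hm
      linarith
    · change ENNReal.ofReal (j * (1/4) + τ) ≤ _
      apply ENNReal.ofReal_le_ofReal
      apply le_of_eq
      ring
  revert key hj1 hj2 hm
  generalize par b e f j = pp
  generalize e j = ee
  generalize f j = ff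
  intro hm hj1 hj2 key
  cases pp
  · have hf1 : ff = true := by
      cases hf : ff
      · exact absurd (hf.trans hj1.symm) hj2
      · rfl
    refine (key (c/2) (by linarith) (by linarith) ⟨m, ?_⟩).trans ?_
    · rw [hj1, hf1]
      simp [sg, bv]; ring
    · apply ENNReal.ofReal_le_ofReal
      rw [hac, bv_false]
      apply le_of_eq
      ring
  · have hf1 : ff = false := by
      cases hf : ff
      · rfl
      · exact absurd (hf.trans hj1.symm) hj2
    refine (key (1/4 - c/2) (by linarith) (by linarith) ⟨m + 1, ?_⟩).trans ?_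
    · rw [hj1, hf1]
      simp [sg, bv]; ring
    · apply ENNReal.ofReal_le_ofReal
      rw [hac, bv_true]
      apply le_of_eq
      ring

/-- number of steps before the first hit -/
noncomputable def NN (b : Bool) (e f : ℕ → Bool) : ℝ≥0∞ :=
  ∑' j : ℕ, if ∀ i ≤ j, hit b e f i = false then 1 else 0

theorem half_exists (b : Bool) (e f : ℕ → Bool) : ∃ g : ℝ → ℝ≥0∞, Measurable g ∧
    (∀ a ∈ Set.Ico (bv b / 2) (bv b / 2 + 1/2),
      meetTime (fun t => (a : Circ) + ((walk (1/4) e t : ℝ) : Circ))
        (fun t => ((walk (1/4) f t : ℝ) : Circ)) ≤ g a) ∧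
    ∫⁻ a in Set.Ico (bv b / 2) (bv b / 2 + 1/2), g a ≤
      16⁻¹ + 8⁻¹ * NN b e f := by
  by_cases hex : ∃ j, hit b e f j = true
  · classical
    set j := Nat.find hex with hjdef
    have hj : hit b e f j = true := Nat.find_spec hex
    have hlt : ∀ i < j, hit b e f i = false := fun i hi => by
      have := Nat.find_min hex hi
      simpa using this
    refine ⟨fun a => ENNReal.ofReal ((j/4 + 1/4 * bv (par b e f j) +
      (2 * bv (par b e f j) - 1) * bv b / 4) + (1/2 - bv (par b e f j)) * a),
      by fun_prop, fun a ha => ?_, ?_⟩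
    · exact meet_le hj ha.1 ha.2
    · have hN : NN b e f = j := by
        unfold NN
        rw [tsum_eq_sum (s := range j)]
        · have : ∀ k ∈ range j, (if ∀ i ≤ k, hit b e f i = false then (1:ℝ≥0∞) else 0) = 1 := by
            intro k hk
            rw [if_pos]
            intro i hi
            exact hlt i (by have := mem_range.mp hk; omega)
          rw [sum_congr rfl this, sum_const, card_range, nsmul_eq_mul, mul_one]
        · intro k hk
          rw [if_neg]
          intro hall
          have hk' : ¬ k < j := fun h => hk (mem_range.mpr h)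
          rw [hall j (by omega)] at hj
          exact Bool.noConfusion hj
      have h16 : (16⁻¹ : ℝ≥0∞) + 8⁻¹ * (j : ℝ≥0∞) = ENNReal.ofReal (j/8 + 1/16) := by
        rw [ENNReal.ofReal_add (by positivity) (by norm_num), add_comm]
        congr 1
        · rw [ENNReal.ofReal_div_of_pos (by norm_num), ENNReal.ofReal_natCast, div_eq_mul_inv,
            mul_comm]
          simp
        · rw [one_div, ENNReal.ofReal_inv_of_pos (by norm_num)]
          simp
      rw [hN, h16, setLIntegral_congr Ioo_ae_eq_Ico.symm]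
      have hj0 : (0:ℝ) ≤ j := by positivity
      have hb0 := bv_nonneg b
      apply le_of_eq
      cases hp : par b e f j
      · rw [bv_false, lint_lin _ _ _ _ (by linarith)]
        · congr 1
          ring
        · intro a ha
          have := ha.1
          linarith
      · rw [bv_true, lint_lin _ _ _ _ (by linarith)]
        · congr 1
          ring
        · intro a ha
          have := ha.2
          linarith
  · push Not at hex
    refine ⟨fun _ => ⊤, measurable_const, fun a _ => le_top, ?_⟩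
    have hN : NN b e f = ⊤ := by
      unfold NN
      have : ∀ j, (if ∀ i ≤ j, hit b e f i = false then (1:ℝ≥0∞) else 0) = 1 := by
        intro j
        rw [if_pos]
        intro i _
        simpa using hex i
      simp only [this]
      exact ENNReal.tsum_const_eq_top_of_ne_zero one_ne_zero
    rw [hN, ENNReal.mul_top (by norm_num), add_top]
    exact le_top

theorem ub_exists (e f : ℕ → Bool) : ∃ g : ℝ → ℝ≥0∞, Measurable g ∧
    (∀ a ∈ Set.Ico (0:ℝ) 1,
      meetTime (fun t => (a : Circ) + ((walk (1/4) e t : ℝ) : Circ))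
        (fun t => ((walk (1/4) f t : ℝ) : Circ)) ≤ g a) ∧
    ∫⁻ a in Set.Ico (0:ℝ) 1, g a ≤ 8⁻¹ + 8⁻¹ * (NN false e f + NN true e f) := by
  obtain ⟨g0, m0, h0, i0⟩ := half_exists false e f
  obtain ⟨g1, m1, h1, i1⟩ := half_exists true e f
  simp only [bv_false, bv_true, zero_add, zero_div] at h0 i0 h1 i1
  rw [show (1/2 + 1/2 : ℝ) = 1 by norm_num] at h1 i1
  refine ⟨fun a => if a < 1/2 then g0 a else g1 a,
    Measurable.ite (measurableSet_Iio (a := (1/2 : ℝ))) m0 m1, fun a ha => ?_, ?_⟩
  · by_cases hlt : a < 1/2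
    · simp only [if_pos hlt]
      exact h0 a ⟨ha.1, hlt⟩
    · simp only [if_neg hlt]
      exact h1 a ⟨not_lt.mp hlt, ha.2⟩
  · have hU : Set.Ico (0:ℝ) 1 = Set.Ico 0 (1/2) ∪ Set.Ico (1/2) 1 :=
      (Set.Ico_union_Ico_eq_Ico (by norm_num) (by norm_num)).symm
    have hd : Disjoint (Set.Ico (0:ℝ) (1/2)) (Set.Ico (1/2) 1) := by
      rw [Set.disjoint_left]
      intro x hx hx'
      exact absurd hx.2 (not_lt.mpr hx'.1)
    rw [hU, lintegral_union measurableSet_Ico hd]
    have e0 : ∫⁻ a in Set.Ico (0:ℝ) (1/2), (if a < 1/2 then g0 a else g1 a) =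
        ∫⁻ a in Set.Ico (0:ℝ) (1/2), g0 a :=
      setLIntegral_congr_fun measurableSet_Ico fun a ha => if_pos ha.2
    have e1 : ∫⁻ a in Set.Ico (1/2:ℝ) 1, (if a < 1/2 then g0 a else g1 a) =
        ∫⁻ a in Set.Ico (1/2:ℝ) 1, g1 a :=
      setLIntegral_congr_fun measurableSet_Ico fun a ha => if_neg (not_lt.mpr ha.1)
    rw [e0, e1]
    refine (add_le_add i0 i1).trans (le_of_eq ?_)
    have h8 : (8⁻¹ : ℝ≥0∞) = 16⁻¹ + 16⁻¹ := by
      rw [← two_mul, show (16 : ℝ≥0∞) = 2 * 8 by norm_num,
        ENNReal.mul_inv (by norm_num) (by norm_num), ← mul_assoc,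
        ENNReal.mul_inv_cancel (by norm_num) (by norm_num), one_mul]
    have h9 : (16⁻¹ + 8⁻¹ * NN false e f + (16⁻¹ + 8⁻¹ * NN true e f) : ℝ≥0∞) =
        (16⁻¹ + 16⁻¹) + 8⁻¹ * (NN false e f + NN true e f) := by ring
    rw [h9, ← h8]

end Rdv
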