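import Mathlib
import Pool.Agent.H9.RdvWalk
import Pool.Agent.H9.RdvDefs
import Pool.Agent.H9.RdvLower
import Pool.Agent.H9.RdvUpper

namespace Rdv

open MeasureTheory NNReal ENNReal Finset

/-! ### the mixture -/

/-- The sixteen patterns of six quarter-steps, as bit masks. -/
def mask : Fin 16 → ℕ := ![0, 0, 7, 11, 12, 12, 18, 30, 33, 45, 51, 51, 52, 56, 63, 63]

def pat (p : Fin 16) (i : ℕ) : Bool := (mask p).testBit i

/-- follow pattern `p` for six quarter-steps, then toss a coin every two quarter-steps -/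
def seqn (p : Fin 16) (ω : ℕ → Bool) (i : ℕ) : Bool :=
  if i < 6 then pat p i else ω ((i - 6) / 2)

/-- agreement indicator -/
noncomputable def Ag (φ : Bool) (ω₁ ω₂ : ℕ → Bool) (k : ℕ) : ℝ≥0∞ :=
  if ∀ i < k, ω₁ i = fl φ ω₂ i then 1 else 0

/-- tail -/
noncomputable def tl (g φ : Bool) (ω₁ ω₂ : ℕ → Bool) : ℝ≥0∞ :=
  ∑' k : ℕ, ((if ω₁ k = g then Ag φ ω₁ ω₂ (k+1) else Ag φ ω₁ ω₂ k) + Ag φ ω₁ ω₂ (k+1))

/-- no hit before step `j` -/
def alive (b : Bool) (e f : ℕ → Bool) : ℕ → Bool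
  | 0 => true
  | j + 1 => alive b e f j && !(hit b e f j)

theorem alive_iff (b : Bool) (e f : ℕ → Bool) (j : ℕ) :
    alive b e f j = true ↔ ∀ i < j, hit b e f i = false := by
  induction j with
  | zero => simp [alive]
  | succ j ih =>
    simp only [alive, Bool.and_eq_true, ih, Bool.not_eq_true']
    constructor
    · rintro ⟨h1, h2⟩ i hi
      rcases Nat.lt_succ_iff_lt_or_eq.mp hi with h | h
      · exact h1 i h
      · rw [h]; exact h2
    · intro h
      exact ⟨fun i hi => h i (by omega), h j (by omega)⟩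

def cnt (b φ : Bool) (p q : Fin 16) : ℕ :=
  ∑ j ∈ range 6, if alive b (pat p) (fl φ (pat q)) (j+1) = true then 1 else 0

def nohit (b φ : Bool) (p q : Fin 16) : Prop :=
  alive b (pat p) (fl φ (pat q)) 6 = true

instance (b φ : Bool) (p q : Fin 16) : Decidable (nohit b φ p q) := by
  unfold nohit; infer_instance

theorem seqn_small (p : Fin 16) (ω : ℕ → Bool) {i : ℕ} (hi : i < 6) : seqn p ω i = pat p i := by
  simp [seqn, hi]

theorem seqn_even (p : Fin 16) (ω : ℕ → Bool) (k : ℕ) : seqn p ω (2 * k + 6) = ω k := by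
  unfold seqn
  rw [if_neg (by omega)]
  congr 1
  omega

theorem seqn_odd (p : Fin 16) (ω : ℕ → Bool) (k : ℕ) : seqn p ω (2 * k + 1 + 6) = ω k := by
  unfold seqn
  rw [if_neg (by omega)]
  congr 1
  omega

theorem state_lemma (b φ : Bool) (p q : Fin 16) (ω₁ ω₂ : ℕ → Bool) (k : ℕ)
    (h : ∀ i < 2 * k + 6, hit b (seqn p ω₁) (fl φ (seqn q ω₂)) i = false) :
    (∀ i < k, ω₁ i = fl φ ω₂ i) ∧
    par b (seqn p ω₁) (fl φ (seqn q ω₂)) (2 * k + 6) =
      par b (seqn p ω₁) (fl φ (seqn q ω₂)) 6 := by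
  induction k with
  | zero => exact ⟨fun i hi => by omega, rfl⟩
  | succ k ih =>
    obtain ⟨h1, h2⟩ := ih fun i hi => h i (by omega)
    have ha := h (2 * k + 6) (by omega)
    have hb := h (2 * k + 1 + 6) (by omega)
    have e1 : par b (seqn p ω₁) (fl φ (seqn q ω₂)) (2 * k + 1 + 6) =
      xor (par b (seqn p ω₁) (fl φ (seqn q ω₂)) (2 * k + 6)) (xor (ω₁ k) (fl φ ω₂ k)) := by
      show par b _ _ ((2 * k + 6) + 1) = _
      simp only [par, fl, seqn_even]
    have e2 : par b (seqn p ω₁) (fl φ (seqn q ω₂)) (2 * (k + 1) + 6) =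
      xor (par b (seqn p ω₁) (fl φ (seqn q ω₂)) (2 * k + 1 + 6)) (xor (ω₁ k) (fl φ ω₂ k)) := by
      show par b _ _ ((2 * k + 1 + 6) + 1) = _
      simp only [par, fl, seqn_odd]
    have f1 : fl φ (seqn q ω₂) (2 * k + 6) = fl φ ω₂ k := by simp only [fl, seqn_even]
    have f2 : fl φ (seqn q ω₂) (2 * k + 1 + 6) = fl φ ω₂ k := by simp only [fl, seqn_odd]
    simp only [hit, seqn_even, f1] at ha
    simp only [hit, seqn_odd, f2, e1] at hb
    rw [e2, e1, ← h2]
    revert ha hb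
    have hag : (∀ i < k + 1, ω₁ i = fl φ ω₂ i) ↔ (ω₁ k = fl φ ω₂ k) := by
      constructor
      · intro hh; exact hh k (by omega)
      · intro hh i hi
        rcases Nat.lt_succ_iff_lt_or_eq.mp hi with h3 | h3
        · exact h1 i h3
        · rw [h3]; exact hh
    rw [hag]
    generalize par b (seqn p ω₁) (fl φ (seqn q ω₂)) (2 * k + 6) = pp
    generalize ω₁ k = x
    generalize fl φ ω₂ k = y
    cases pp <;> cases x <;> cases y <;> simp

theorem NN_le (b φ : Bool) (p q : Fin 16) (ω₁ ω₂ : ℕ → Bool) :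
    NN b (seqn p ω₁) (fl φ (seqn q ω₂)) ≤
      cnt b φ p q + (if nohit b φ p q then
        tl (par b (pat p) (fl φ (pat q)) 6) φ ω₁ ω₂ else 0) := by
  unfold NN
  rw [← Summable.sum_add_tsum_nat_add' (k := 6) ENNReal.summable]
  have hcongr : ∀ i < 6, hit b (seqn p ω₁) (fl φ (seqn q ω₂)) i =
      hit b (pat p) (fl φ (pat q)) i := by
    intro i hi
    apply hit_congr
    · intro i' hi'
      exact seqn_small p ω₁ (by omega)
    · intro i' hi'
      simp only [fl]
      rw [seqn_small q ω₂ (by omega)]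
  have hpar : par b (seqn p ω₁) (fl φ (seqn q ω₂)) 6 = par b (pat p) (fl φ (pat q)) 6 := by
    apply par_congr
    · intro i' hi'
      exact seqn_small p ω₁ (by omega)
    · intro i' hi'
      simp only [fl]
      rw [seqn_small q ω₂ (by omega)]
  apply add_le_add
  · unfold cnt
    rw [Nat.cast_sum]
    apply le_of_eq
    apply sum_congr rfl
    intro j hj
    have hj' := mem_range.mp hj
    have : (∀ i ≤ j, hit b (seqn p ω₁) (fl φ (seqn q ω₂)) i = false) ↔
        alive b (pat p) (fl φ (pat q)) (j+1) = true := by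
      rw [alive_iff]
      constructor
      · intro h i hi
        rw [← hcongr i (by omega)]
        exact h i (by omega)
      · intro h i hi
        rw [hcongr i (by omega)]
        exact h i (by omega)
    by_cases hh : ∀ i ≤ j, hit b (seqn p ω₁) (fl φ (seqn q ω₂)) i = false
    · rw [if_pos hh, if_pos (this.mp hh)]; simp
    · rw [if_neg hh, if_neg (fun h => hh (this.mpr h))]; simp
  · by_cases hn : nohit b φ p q
    · rw [if_pos hn]
      unfold tl
      rw [← tsum_even_add_odd ENNReal.summable ENNReal.summable, ← ENNReal.tsum_add]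
      refine ENNReal.tsum_le_tsum fun k => add_le_add ?_ ?_
      · by_cases hh : ∀ i ≤ 2 * k + 6, hit b (seqn p ω₁) (fl φ (seqn q ω₂)) i = false
        · rw [if_pos hh]
          obtain ⟨s1, s2⟩ := state_lemma b φ p q ω₁ ω₂ k fun i hi => hh i (by omega)
          have h3 := hh (2 * k + 6) le_rfl
          have f1 : fl φ (seqn q ω₂) (2 * k + 6) = fl φ ω₂ k := by simp only [fl, seqn_even]
          simp only [hit, seqn_even, f1] at h3
          rw [s2, hpar] at h3
          by_cases hg : ω₁ k = par b (pat p) (fl φ (pat q)) 6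
          · rw [if_pos hg]
            unfold Ag
            rw [if_pos]
            intro i hi
            rcases Nat.lt_succ_iff_lt_or_eq.mp hi with h4 | h4
            · exact s1 i h4
            · rw [h4]
              revert h3
              rw [← hg]
              generalize ω₁ k = x
              generalize fl φ ω₂ k = y
              cases x <;> cases y <;> simp
          · rw [if_neg hg]
            unfold Ag
            rw [if_pos s1]
        · rw [if_neg hh]; exact zero_le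
      · by_cases hh : ∀ i ≤ 2 * k + 1 + 6, hit b (seqn p ω₁) (fl φ (seqn q ω₂)) i = false
        · rw [if_pos hh]
          obtain ⟨s1, s2⟩ := state_lemma b φ p q ω₁ ω₂ (k + 1) fun i hi => hh i (by omega)
          unfold Ag
          rw [if_pos s1]
        · rw [if_neg hh]; exact zero_le
    · rw [if_neg hn]
      apply le_of_eq
      rw [ENNReal.tsum_eq_zero]
      intro k
      rw [if_neg]
      intro hh
      apply hn
      unfold nohit
      rw [alive_iff]
      intro i hi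
      rw [← hcongr i hi]
      exact hh i (by omega)

/-! ### integration of the tail -/

theorem meas_Ag (φ : Bool) (ω₁ : ℕ → Bool) (k : ℕ) : Measurable fun ω₂ => Ag φ ω₁ ω₂ k := by
  unfold Ag
  refine Measurable.ite ?_ measurable_const measurable_const
  show MeasurableSet {ω₂ : ℕ → Bool | ∀ i < k, ω₁ i = fl φ ω₂ i}
  rw [agree_eq]
  exact meas_cyl _ _

theorem lint_Ag (φ : Bool) (ω₁ : ℕ → Bool) (k : ℕ) :
    ∫⁻ ω₂, Ag φ ω₁ ω₂ k ∂coinMeasure = 2⁻¹ ^ k := by
  have hm : MeasurableSet {ω₂ : ℕ → Bool | ∀ i < k, ω₁ i = fl φ ω₂ i} := by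
    rw [agree_eq]
    exact meas_cyl _ _
  have : (fun ω₂ => Ag φ ω₁ ω₂ k) =
      {ω₂ : ℕ → Bool | ∀ i < k, ω₁ i = fl φ ω₂ i}.indicator 1 := by
    funext ω₂
    simp only [Ag, Set.indicator_apply, Set.mem_ofPred_eq, Pi.one_apply]
  rw [this, lintegral_indicator_one hm, agree_eq, coin_cyl]

theorem meas_tl_term (g φ : Bool) (ω₁ : ℕ → Bool) (k : ℕ) : Measurable fun ω₂ =>
    ((if ω₁ k = g then Ag φ ω₁ ω₂ (k+1) else Ag φ ω₁ ω₂ k) + Ag φ ω₁ ω₂ (k+1)) := by
  refine Measurable.add ?_ (meas_Ag φ ω₁ (k+1))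
  by_cases h : ω₁ k = g
  · simp only [if_pos h]; exact meas_Ag φ ω₁ (k+1)
  · simp only [if_neg h]; exact meas_Ag φ ω₁ k

theorem meas_tl (g φ : Bool) (ω₁ : ℕ → Bool) : Measurable fun ω₂ => tl g φ ω₁ ω₂ := by
  unfold tl
  exact Measurable.tsum fun k => meas_tl_term g φ ω₁ k

theorem lint_tl (g φ : Bool) (ω₁ : ℕ → Bool) :
    ∫⁻ ω₂, tl g φ ω₁ ω₂ ∂coinMeasure =
      ∑' k : ℕ, ((if ω₁ k = g then 2⁻¹ ^ (k+1) else 2⁻¹ ^ k) + 2⁻¹ ^ (k+1)) := by
  unfold tl
  rw [lintegral_tsum fun k => (meas_tl_term g φ ω₁ k).aemeasurable]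
  refine tsum_congr fun k => ?_
  rw [lintegral_add_right _ (meas_Ag φ ω₁ (k+1)), lint_Ag]
  by_cases h : ω₁ k = g
  · simp only [if_pos h, lint_Ag]
  · simp only [if_neg h, lint_Ag]

theorem meas_bit (g : Bool) (k : ℕ) : MeasurableSet {ω : ℕ → Bool | ω k = g} :=
  (measurable_pi_apply k : Measurable fun ω : ℕ → Bool => ω k) (measurableSet_singleton g)

theorem lint_ite (g : Bool) (k : ℕ) (x y : ℝ≥0∞) :
    ∫⁻ ω : ℕ → Bool, (if ω k = g then x else y) ∂coinMeasure = 2⁻¹ * x + 2⁻¹ * y := by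
  have h1 : (fun ω : ℕ → Bool => if ω k = g then x else y) = fun ω =>
      {ω : ℕ → Bool | ω k = g}.indicator (fun _ => x) ω +
      {ω : ℕ → Bool | ω k = !g}.indicator (fun _ => y) ω := by
    funext ω
    simp only [Set.indicator_apply, Set.mem_ofPred_eq]
    have key : ∀ z : Bool, (if z = g then x else y) =
        (if z = g then x else 0) + (if z = !g then y else 0) := by
      intro z
      cases z <;> cases g <;> simp
    exact key (ω k)
  rw [h1, lintegral_add_left (measurable_const.indicator (meas_bit g k)),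
    lintegral_indicator_const (meas_bit g k), lintegral_indicator_const (meas_bit (!g) k),
    coin_one, coin_one, mul_comm x, mul_comm y]

theorem meas_tl2 (g : Bool) : Measurable fun ω₁ : ℕ → Bool =>
    ∑' k : ℕ, ((if ω₁ k = g then (2⁻¹ : ℝ≥0∞) ^ (k+1) else 2⁻¹ ^ k) + 2⁻¹ ^ (k+1)) := by
  refine Measurable.tsum fun k => Measurable.add_const ?_ _
  exact Measurable.ite (meas_bit g k) measurable_const measurable_const

theorem lint_lint_tl (g φ : Bool) :
    ∫⁻ ω₁, ∫⁻ ω₂, tl g φ ω₁ ω₂ ∂coinMeasure ∂coinMeasure = 5 * 2⁻¹ := by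
  simp only [lint_tl]
  rw [lintegral_tsum fun k => (Measurable.add_const
    (Measurable.ite (meas_bit g k) measurable_const measurable_const) _).aemeasurable]
  have : ∀ k : ℕ, ∫⁻ ω₁ : ℕ → Bool, ((if ω₁ k = g then (2⁻¹ : ℝ≥0∞) ^ (k+1) else 2⁻¹ ^ k) +
      2⁻¹ ^ (k+1)) ∂coinMeasure = (5 * 2⁻¹ * 2⁻¹) * 2⁻¹ ^ k := by
    intro k
    rw [lintegral_add_right _ measurable_const, lint_ite, lintegral_const, measure_univ, mul_one]
    have h1 : (1 : ℝ≥0∞) = 2⁻¹ + 2⁻¹ := (ENNReal.inv_two_add_inv_two).symm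
    have h2 : (2⁻¹ : ℝ≥0∞) = 2⁻¹ * 2⁻¹ + 2⁻¹ * 2⁻¹ := by
      rw [← mul_add, ← h1, mul_one]
    calc (2⁻¹ : ℝ≥0∞) * 2⁻¹ ^ (k+1) + 2⁻¹ * 2⁻¹ ^ k + 2⁻¹ ^ (k+1)
        = (2⁻¹ * 2⁻¹ + 2⁻¹ + 2⁻¹) * 2⁻¹ ^ k := by ring
      _ = (2⁻¹ * 2⁻¹ + (2⁻¹ * 2⁻¹ + 2⁻¹ * 2⁻¹) + (2⁻¹ * 2⁻¹ + 2⁻¹ * 2⁻¹)) * 2⁻¹ ^ k := by
          rw [← h2]
      _ = (5 * 2⁻¹ * 2⁻¹) * 2⁻¹ ^ k := by ring
  rw [tsum_congr this, ENNReal.tsum_mul_left, ENNReal.tsum_geometric, ENNReal.one_sub_inv_two,
    inv_inv, mul_assoc, mul_assoc, ENNReal.inv_mul_cancel (by norm_num) (by norm_num), mul_one]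

/-! ### the measure -/

theorem continuous_seqn (p : Fin 16) : Continuous (seqn p) := by
  rw [continuous_pi_iff]
  intro i
  unfold seqn
  by_cases h : i < 6
  · simp only [if_pos h]; exact continuous_const
  · simp only [if_neg h]; exact continuous_apply _

theorem q4 : (0:ℝ) < 1/4 := by norm_num

/-- the path of pattern `p` followed by CO-HA-TO from time `3/2` on -/
noncomputable def wp (p : Fin 16) (ω : ℕ → Bool) : PureStrat := walkPath (1/4) q4 (seqn p ω)

theorem meas_wp (p : Fin 16) : Measurable (wp p) :=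
  ((continuous_walkPath q4).comp (continuous_seqn p)).measurable

/-- The improved mixed strategy. -/
noncomputable def muStar : Measure PureStrat :=
  ∑ p : Fin 16, (16⁻¹ : ℝ≥0∞) • coinMeasure.map (wp p)

instance : IsProbabilityMeasure muStar := by
  constructor
  unfold muStar
  rw [Measure.finsetSum_apply]
  have : ∀ p : Fin 16, ((16⁻¹ : ℝ≥0∞) • coinMeasure.map (wp p)) Set.univ = 16⁻¹ := by
    intro p
    rw [Measure.smul_apply, Measure.map_apply (meas_wp p) MeasurableSet.univ, Set.preimage_univ,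
      measure_univ, smul_eq_mul, mul_one]
  simp only [this, sum_const, card_univ, Fintype.card_fin, nsmul_eq_mul]
  exact ENNReal.mul_inv_cancel (by norm_num) (by norm_num)

theorem mixed_muStar_le (T : PureStrat → PureStrat → ℝ≥0∞) :
    mixedTime T muStar ≤ ∑ p : Fin 16, 16⁻¹ * ∫⁻ ω₁, ∑ q : Fin 16, 16⁻¹ *
      ∫⁻ ω₂, T (wp p ω₁) (wp q ω₂) ∂coinMeasure ∂coinMeasure := by
  unfold mixedTime muStar
  rw [lintegral_finsetSum_measure]
  refine sum_le_sum fun p _ => ?_
  rw [lintegral_smul_measure, smul_eq_mul]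
  refine mul_le_mul_right ?_ _
  refine (lintegral_map_le _ _).trans ?_
  refine lintegral_mono fun ω₁ => ?_
  rw [lintegral_finsetSum_measure]
  refine sum_le_sum fun q _ => ?_
  rw [lintegral_smul_measure, smul_eq_mul]
  refine mul_le_mul_right ?_ _
  exact lintegral_map_le _ _

/-- bound per pair -/
noncomputable def UB (φ : Bool) (p q : Fin 16) (ω₁ ω₂ : ℕ → Bool) : ℝ≥0∞ :=
  8⁻¹ + 8⁻¹ * ((cnt false φ p q + (if nohit false φ p q then
        tl (par false (pat p) (fl φ (pat q)) 6) φ ω₁ ω₂ else 0)) +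
      (cnt true φ p q + (if nohit true φ p q then
        tl (par true (pat p) (fl φ (pat q)) 6) φ ω₁ ω₂ else 0)))

def E2 (φ : Bool) (p q : Fin 16) : ℕ :=
  (2 * cnt false φ p q + (if nohit false φ p q then 5 else 0)) +
  (2 * cnt true φ p q + (if nohit true φ p q then 5 else 0))

theorem E2_sum (φ : Bool) : ∑ p : Fin 16, ∑ q : Fin 16, E2 φ p q = 2512 := by
  cases φ
  · decide +kernel
  · decide +kernel

theorem meas_part (b φ : Bool) (p q : Fin 16) (ω₁ : ℕ → Bool) :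
    Measurable fun ω₂ => ((cnt b φ p q : ℝ≥0∞) + (if nohit b φ p q then
        tl (par b (pat p) (fl φ (pat q)) 6) φ ω₁ ω₂ else 0)) := by
  refine Measurable.const_add ?_ _
  by_cases h : nohit b φ p q
  · simp only [if_pos h]; exact meas_tl _ _ _
  · simp only [if_neg h]; exact measurable_const

theorem meas_UB (φ : Bool) (p q : Fin 16) (ω₁ : ℕ → Bool) :
    Measurable fun ω₂ => UB φ p q ω₁ ω₂ := by
  unfold UB
  exact Measurable.const_add
    (((meas_part false φ p q ω₁).add (meas_part true φ p q ω₁)).const_mul _) _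

theorem lint_part (b φ : Bool) (p q : Fin 16) (ω₁ : ℕ → Bool) :
    ∫⁻ ω₂, ((cnt b φ p q : ℝ≥0∞) + (if nohit b φ p q then
        tl (par b (pat p) (fl φ (pat q)) 6) φ ω₁ ω₂ else 0)) ∂coinMeasure =
    (cnt b φ p q : ℝ≥0∞) + (if nohit b φ p q then
        ∫⁻ ω₂, tl (par b (pat p) (fl φ (pat q)) 6) φ ω₁ ω₂ ∂coinMeasure else 0) := by
  rw [lintegral_add_left measurable_const, lintegral_const, measure_univ, mul_one]
  by_cases h : nohit b φ p q
  · simp only [if_pos h]
  · simp only [if_neg h, lintegral_zero]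

theorem lint_part2 (b φ : Bool) (p q : Fin 16) :
    ∫⁻ ω₁, ((cnt b φ p q : ℝ≥0∞) + (if nohit b φ p q then
        ∫⁻ ω₂, tl (par b (pat p) (fl φ (pat q)) 6) φ ω₁ ω₂ ∂coinMeasure else 0)) ∂coinMeasure =
    ((2 * cnt b φ p q + (if nohit b φ p q then 5 else 0) : ℕ) : ℝ≥0∞) * 2⁻¹ := by
  rw [lintegral_add_left measurable_const, lintegral_const, measure_univ, mul_one]
  have h2 : (2 * 2⁻¹ : ℝ≥0∞) = 1 := ENNReal.mul_inv_cancel (by norm_num) (by norm_num)
  by_cases h : nohit b φ p q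
  · simp only [if_pos h]
    rw [lint_lint_tl]
    push_cast
    rw [add_mul, mul_right_comm, h2, one_mul]
  · simp only [if_neg h, lintegral_zero]
    push_cast
    rw [add_zero, add_zero, mul_right_comm, h2, one_mul]

theorem meas_part2 (b φ : Bool) (p q : Fin 16) : Measurable fun ω₁ =>
    ((cnt b φ p q : ℝ≥0∞) + (if nohit b φ p q then
        ∫⁻ ω₂, tl (par b (pat p) (fl φ (pat q)) 6) φ ω₁ ω₂ ∂coinMeasure else 0)) := by
  refine Measurable.const_add ?_ _
  by_cases h : nohit b φ p q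
  · simp only [if_pos h, lint_tl]; exact meas_tl2 _
  · simp only [if_neg h]; exact measurable_const

theorem lint_UB (φ : Bool) (p q : Fin 16) (ω₁ : ℕ → Bool) :
    ∫⁻ ω₂, UB φ p q ω₁ ω₂ ∂coinMeasure =
      8⁻¹ + 8⁻¹ * (((cnt false φ p q : ℝ≥0∞) + (if nohit false φ p q then
        ∫⁻ ω₂, tl (par false (pat p) (fl φ (pat q)) 6) φ ω₁ ω₂ ∂coinMeasure else 0)) +
        ((cnt true φ p q : ℝ≥0∞) + (if nohit true φ p q then
        ∫⁻ ω₂, tl (par true (pat p) (fl φ (pat q)) 6) φ ω₁ ω₂ ∂coinMeasure else 0))) := by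
  unfold UB
  rw [lintegral_add_left measurable_const, lintegral_const, measure_univ, mul_one]
  congr 1
  refine (lintegral_const_mul (8⁻¹ : ℝ≥0∞)
    ((meas_part false φ p q ω₁).add (meas_part true φ p q ω₁))).trans ?_
  simp only [Pi.add_apply]
  rw [lintegral_add_left (meas_part false φ p q ω₁), lint_part, lint_part]

theorem lint_lint_UB (φ : Bool) (p q : Fin 16) :
    ∫⁻ ω₁, ∫⁻ ω₂, UB φ p q ω₁ ω₂ ∂coinMeasure ∂coinMeasure =
      8⁻¹ + 8⁻¹ * ((E2 φ p q : ℝ≥0∞) * 2⁻¹) := by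
  simp only [lint_UB]
  rw [lintegral_add_left measurable_const, lintegral_const, measure_univ, mul_one]
  congr 1
  refine (lintegral_const_mul (8⁻¹ : ℝ≥0∞)
    ((meas_part2 false φ p q).add (meas_part2 true φ p q))).trans ?_
  simp only [Pi.add_apply]
  rw [lintegral_add_left (meas_part2 false φ p q), lint_part2, lint_part2, ← add_mul,
    ← Nat.cast_add]
  rfl

theorem meas_UB2 (φ : Bool) (p q : Fin 16) :
    Measurable fun ω₁ => ∫⁻ ω₂, UB φ p q ω₁ ω₂ ∂coinMeasure := by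
  simp only [lint_UB]
  exact Measurable.const_add
    (((meas_part2 false φ p q).add (meas_part2 true φ p q)).const_mul _) _

theorem total (φ : Bool) : ∑ p : Fin 16, 16⁻¹ * ∫⁻ ω₁, ∑ q : Fin 16, 16⁻¹ *
      ∫⁻ ω₂, UB φ p q ω₁ ω₂ ∂coinMeasure ∂coinMeasure = 189 / 256 := by
  have h1 : ∀ p : Fin 16, ∫⁻ ω₁, ∑ q : Fin 16, 16⁻¹ *
      ∫⁻ ω₂, UB φ p q ω₁ ω₂ ∂coinMeasure ∂coinMeasure =
      ∑ q : Fin 16, 16⁻¹ * (8⁻¹ + 8⁻¹ * ((E2 φ p q : ℝ≥0∞) * 2⁻¹)) := by
    intro p
    rw [lintegral_finsetSum _ fun q _ => (meas_UB2 φ p q).const_mul _]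
    refine sum_congr rfl fun q _ => ?_
    rw [lintegral_const_mul _ (meas_UB2 φ p q), lint_lint_UB]
  simp only [h1]
  simp only [← mul_sum, sum_add_distrib, sum_const, card_univ, Fintype.card_fin,
    nsmul_eq_mul, ← sum_mul]
  have h2 : ∑ p : Fin 16, ∑ q : Fin 16, (E2 φ p q : ℝ≥0∞) = ((2512 : ℕ) : ℝ≥0∞) := by
    rw [← E2_sum φ]
    push_cast
    rfl
  rw [h2]
  rw [← ENNReal.toReal_eq_toReal_iff' (by finiteness) (by finiteness)]
  have hf1 : (16 * (16 * 8⁻¹) : ℝ≥0∞) ≠ ⊤ := by finiteness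
  have hf2 : (8⁻¹ * (((2512 : ℕ) : ℝ≥0∞) * 2⁻¹) : ℝ≥0∞) ≠ ⊤ := by finiteness
  simp only [Nat.cast_ofNat] at *
  simp only [ENNReal.toReal_mul, ENNReal.toReal_add hf1 hf2, ENNReal.toReal_inv,
    ENNReal.toReal_div, ENNReal.toReal_ofNat]
  norm_num

end Rdv
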