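import Mathlib
import Pool.Agent.H9.RdvWalk
import Pool.Agent.H9.RdvDefs
import Pool.Agent.H9.RdvLower
import Pool.Agent.H9.RdvUpper
import Pool.Agent.H9.RdvMix
import Pool.Agent.H9.RdvCohato

namespace Rdv

open MeasureTheory NNReal ENNReal Finset

theorem UB_ge (φ : Bool) (p q : Fin 16) (ω₁ ω₂ : ℕ → Bool) :
    ∃ g : ℝ → ℝ≥0∞, Measurable g ∧
    (∀ a ∈ Set.Ico (0:ℝ) 1,
      meetTime (fun t => (a : Circ) + (wp p ω₁).1 t)
        (fun t => ((walk (1/4) (fl φ (seqn q ω₂)) t : ℝ) : Circ)) ≤ g a) ∧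
    ∫⁻ a in Set.Ico (0:ℝ) 1, g a ≤ UB φ p q ω₁ ω₂ := by
  obtain ⟨g, h1, h2, h3⟩ := ub_exists (seqn p ω₁) (fl φ (seqn q ω₂))
  refine ⟨g, h1, h2, h3.trans ?_⟩
  unfold UB
  refine add_le_add le_rfl (mul_le_mul_right (add_le_add ?_ ?_) _)
  · exact NN_le false φ p q ω₁ ω₂
  · exact NN_le true φ p q ω₁ ω₂

theorem wp_false (q : Fin 16) (ω₂ : ℕ → Bool) :
    (fun t : ℝ≥0 => (wp q ω₂).1 t) =
      fun t : ℝ≥0 => ((walk (1/4) (fl false (seqn q ω₂)) t : ℝ) : Circ) := by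
  have e0 : fl false (seqn q ω₂) = seqn q ω₂ := by funext i; simp [fl]
  rw [e0]
  rfl

theorem wp_true (q : Fin 16) (ω₂ : ℕ → Bool) :
    (fun t : ℝ≥0 => -(wp q ω₂).1 t) =
      fun t : ℝ≥0 => ((walk (1/4) (fl true (seqn q ω₂)) t : ℝ) : Circ) := by
  have e1 : fl true (seqn q ω₂) = fun i => !(seqn q ω₂ i) := by funext i; simp [fl]
  rw [e1]
  funext t
  have hw : walk (1/4) (fun i => !(seqn q ω₂ i)) (t : ℝ) = - walk (1/4) (seqn q ω₂) (t : ℝ) :=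
    walk_flip (by norm_num) _ t.2
  rw [hw, AddCircle.coe_neg]
  rfl

theorem That2_le (p q : Fin 16) (ω₁ ω₂ : ℕ → Bool) :
    That2 (wp p ω₁) (wp q ω₂) ≤ UB false p q ω₁ ω₂ := by
  obtain ⟨g, h1, h2, h3⟩ := UB_ge false p q ω₁ ω₂
  refine le_trans ?_ h3
  unfold That2
  refine setLIntegral_mono' measurableSet_Ico fun a ha => ?_
  rw [wp_false q ω₂]
  exact h2 a ha

theorem That3_le (p q : Fin 16) (ω₁ ω₂ : ℕ → Bool) :
    That3 (wp p ω₁) (wp q ω₂) ≤ (UB false p q ω₁ ω₂ + UB true p q ω₁ ω₂) * 2⁻¹ := by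
  obtain ⟨g, h1, h2, h3⟩ := UB_ge false p q ω₁ ω₂
  obtain ⟨g', h1', h2', h3'⟩ := UB_ge true p q ω₁ ω₂
  refine le_trans ?_ (mul_le_mul_left (add_le_add h3 h3') _)
  rw [← lintegral_add_left h1]
  have h4 := lintegral_mul_const (μ := volume.restrict (Set.Ico (0:ℝ) 1)) (2⁻¹ : ℝ≥0∞)
    (h1.add h1')
  refine le_trans ?_ (le_of_eq h4)
  unfold That3
  refine setLIntegral_mono' measurableSet_Ico fun a ha => ?_
  rw [wp_false q ω₂, wp_true q ω₂, div_eq_mul_inv]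
  exact mul_le_mul_left (add_le_add (h2 a ha) (h2' a ha)) _

theorem muStar2 : mixedTime That2 muStar ≤ 189 / 256 := by
  refine (mixed_muStar_le That2).trans ?_
  rw [← total false]
  refine sum_le_sum fun p _ => mul_le_mul_right (lintegral_mono fun ω₁ => ?_) _
  refine sum_le_sum fun q _ => mul_le_mul_right (lintegral_mono fun ω₂ => ?_) _
  exact That2_le p q ω₁ ω₂

theorem muStar3 : mixedTime That3 muStar ≤ 189 / 256 := by
  refine (mixed_muStar_le That3).trans ?_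
  have h1 : ∑ p : Fin 16, 16⁻¹ * ∫⁻ ω₁, ∑ q : Fin 16, 16⁻¹ *
      ∫⁻ ω₂, That3 (wp p ω₁) (wp q ω₂) ∂coinMeasure ∂coinMeasure ≤
      ∑ p : Fin 16, 16⁻¹ * ∫⁻ ω₁, ∑ q : Fin 16, 16⁻¹ *
      ∫⁻ ω₂, (UB false p q ω₁ ω₂ + UB true p q ω₁ ω₂) * 2⁻¹ ∂coinMeasure ∂coinMeasure := by
    refine sum_le_sum fun p _ => mul_le_mul_right (lintegral_mono fun ω₁ => ?_) _
    refine sum_le_sum fun q _ => mul_le_mul_right (lintegral_mono fun ω₂ => ?_) _
    exact That3_le p q ω₁ ω₂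
  refine h1.trans (le_of_eq ?_)
  have h2 : ∀ (p q : Fin 16) (ω₁ : ℕ → Bool),
      ∫⁻ ω₂, (UB false p q ω₁ ω₂ + UB true p q ω₁ ω₂) * 2⁻¹ ∂coinMeasure =
      (∫⁻ ω₂, UB false p q ω₁ ω₂ ∂coinMeasure + ∫⁻ ω₂, UB true p q ω₁ ω₂ ∂coinMeasure) * 2⁻¹ := by
    intro p q ω₁
    refine (lintegral_mul_const (2⁻¹ : ℝ≥0∞)
      ((meas_UB false p q ω₁).add (meas_UB true p q ω₁))).trans ?_
    simp only [Pi.add_apply]
    rw [lintegral_add_left (meas_UB false p q ω₁)]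
  simp only [h2]
  have h3 : ∀ p : Fin 16, ∫⁻ ω₁, ∑ q : Fin 16, 16⁻¹ *
      ((∫⁻ ω₂, UB false p q ω₁ ω₂ ∂coinMeasure + ∫⁻ ω₂, UB true p q ω₁ ω₂ ∂coinMeasure) * 2⁻¹)
        ∂coinMeasure = (∫⁻ ω₁, ∑ q : Fin 16, 16⁻¹ *
        ∫⁻ ω₂, UB false p q ω₁ ω₂ ∂coinMeasure ∂coinMeasure +
        ∫⁻ ω₁, ∑ q : Fin 16, 16⁻¹ *
        ∫⁻ ω₂, UB true p q ω₁ ω₂ ∂coinMeasure ∂coinMeasure) * 2⁻¹ := by
    intro p
    have m : ∀ φ : Bool, Measurable fun ω₁ : ℕ → Bool => ∑ q : Fin 16, (16⁻¹ : ℝ≥0∞) *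
        ∫⁻ ω₂, UB φ p q ω₁ ω₂ ∂coinMeasure := by
      intro φ
      exact Finset.measurable_fun_sum _ fun q _ => (meas_UB2 φ p q).const_mul _
    rw [← lintegral_add_left (m false)]
    refine Eq.trans ?_ (lintegral_mul_const (2⁻¹ : ℝ≥0∞) ((m false).add (m true)))
    congr 1
    funext ω₁
    rw [← sum_add_distrib, sum_mul]
    refine sum_congr rfl fun q _ => ?_
    ring
  simp only [h3]
  have h4 : ∀ A B : Fin 16 → ℝ≥0∞, ∑ p, 16⁻¹ * ((A p + B p) * 2⁻¹) =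
      (∑ p, 16⁻¹ * A p + ∑ p, 16⁻¹ * B p) * 2⁻¹ := by
    intro A B
    rw [← sum_add_distrib, sum_mul]
    refine sum_congr rfl fun q _ => ?_
    ring
  rw [h4, total false, total true, ← two_mul, mul_right_comm,
    ENNReal.mul_inv_cancel (by norm_num) (by norm_num), one_mul]

theorem num_lt : (189 / 256 : ℝ≥0∞) < 3 / 4 := by
  rw [← ENNReal.toReal_lt_toReal (by finiteness) (by finiteness)]
  simp only [ENNReal.toReal_div, ENNReal.toReal_ofNat]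
  norm_num

theorem main :
    IsProbabilityMeasure cohato ∧
    mixedTime That2 cohato = 3 / 4 ∧
    mixedTime That3 cohato = 3 / 4 ∧
    (∃ μ : Measure PureStrat, IsProbabilityMeasure μ ∧
      mixedTime That2 μ ≤ 189 / 256 ∧ mixedTime That3 μ ≤ 189 / 256) ∧
    value That2 < mixedTime That2 cohato ∧
    value That3 < mixedTime That3 cohato := by
  have v2 : value That2 ≤ 189 / 256 := by
    unfold value
    exact iInf_le_of_le muStar (iInf_le_of_le inferInstance muStar2)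
  have v3 : value That3 ≤ 189 / 256 := by
    unfold value
    exact iInf_le_of_le muStar (iInf_le_of_le inferInstance muStar3)
  refine ⟨inferInstance, cohato_eq2, cohato_eq3, ⟨muStar, inferInstance, muStar2, muStar3⟩,
    ?_, ?_⟩
  · rw [cohato_eq2]; exact v2.trans_lt num_lt
  · rw [cohato_eq3]; exact v3.trans_lt num_lt

end Rdv
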