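import Mathlib

set_option autoImplicit false

namespace Pool.Agent.H9.Sq

/-- `SL₂(ℝ)` -/
abbrev SL2 := Matrix.SpecialLinearGroup (Fin 2) ℝ

/-- the image of a set under the linear map `v ↦ g v` -/
def act (g : SL2) (A : Set (Fin 2 → ℝ)) : Set (Fin 2 → ℝ) := (fun v => g.1.mulVec v) '' A

/-- `E ⊆ ℝ²` is `G`-paradoxical, for a subgroup `G` of `SL₂(ℝ)` acting by `v ↦ Mv` -/
def IsParadoxical (G : Subgroup SL2) (E : Set (Fin 2 → ℝ)) : Prop :=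
  ∃ (n m : ℕ) (A : Fin n → Set (Fin 2 → ℝ)) (B : Fin m → Set (Fin 2 → ℝ))
    (g : Fin n → SL2) (h : Fin m → SL2), 0 < n ∧ 0 < m ∧
    (∀ i, g i ∈ G) ∧ (∀ j, h j ∈ G) ∧ (∀ i, A i ⊆ E) ∧ (∀ j, B j ⊆ E) ∧
    (∀ i i', i ≠ i' → Disjoint (A i) (A i')) ∧ (∀ j j', j ≠ j' → Disjoint (B j) (B j')) ∧
    (∀ i j, Disjoint (A i) (B j)) ∧
    E = ⋃ i, act (g i) (A i) ∧ E = ⋃ j, act (h j) (B j)

/-- the open unit square `(0,1) × (0,1)` -/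
def Q : Set (Fin 2 → ℝ) := {v | 0 < v 0 ∧ v 0 < 1 ∧ 0 < v 1 ∧ v 1 < 1}

/-- `a = (1 2; 0 1)` -/
def a : SL2 := ⟨!![1, 2; 0, 1], by simp [Matrix.det_fin_two]⟩

/-- `b = (1 0; 2 1)` -/
def b : SL2 := ⟨!![1, 0; 2, 1], by simp [Matrix.det_fin_two]⟩

/-- the group generated by `a` and `b` -/
def F : Subgroup SL2 := Subgroup.closure {a, b}

end Pool.Agent.H9.Sq
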