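import Mathlib
import Pool.Agent.H9.SqDefs

set_option autoImplicit false

open Matrix Polynomial

namespace Pool.Agent.H9.Sq

abbrev Let := Fin 6 × Bool

/-- images of the idempotents -/
def U : Let → Fin 2 → ℚ
  | (0, true) => ![1, -2]
  | (0, false) => ![1, 3]
  | (1, true) => ![1, -3]
  | (1, false) => ![1, 4]
  | (2, true) => ![1, -4]
  | (2, false) => ![1, 5]
  | (3, true) => ![-2, 1]
  | (3, false) => ![3, 1]
  | (4, true) => ![-3, 1]
  | (4, false) => ![4, 1]
  | (5, true) => ![-4, 1]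
  | (5, false) => ![5, 1]

/-- functionals -/
def Ph : Let → Fin 2 → ℚ
  | (0, true) => ![3/5, -1/5]
  | (0, false) => ![2/5, 1/5]
  | (1, true) => ![4/7, -1/7]
  | (1, false) => ![3/7, 1/7]
  | (2, true) => ![5/9, -1/9]
  | (2, false) => ![4/9, 1/9]
  | (3, true) => ![-1/5, 3/5]
  | (3, false) => ![1/5, 2/5]
  | (4, true) => ![-1/7, 4/7]
  | (4, false) => ![1/7, 3/7]
  | (5, true) => ![-1/9, 5/9]
  | (5, false) => ![1/9, 4/9]

/-- inverse letter -/
def iv (l : Let) : Let := (l.1, !l.2)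

/-- the idempotents -/
def P (l : Let) : Matrix (Fin 2) (Fin 2) ℚ := vecMulVec (U l) (Ph l)

lemma pair_ne (l l' : Let) (h : l.1 = l'.1 → l.2 = l'.2) : Ph l ⬝ᵥ U l' ≠ 0 := by
  have key : ∀ l l' : Let, (l.1 = l'.1 → l.2 = l'.2) →
      Ph l 0 * U l' 0 + Ph l 1 * U l' 1 ≠ 0 := by decide +kernel
  rw [dotProduct, Fin.sum_univ_two]
  exact key l l' h

lemma P_add (l : Let) : P l + P (iv l) = 1 := by
  have key : ∀ (l : Let) (i j : Fin 2), U l i * Ph l j + U (iv l) i * Ph (iv l) j =
      if i = j then 1 else 0 := by decide +kernel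
  ext i j
  rw [Matrix.add_apply, P, P, vecMulVec_apply, vecMulVec_apply, key, Matrix.one_apply]

lemma P_mul_self (l : Let) : P l * P l = P l := by
  have key : ∀ (l : Let) (i j : Fin 2), (U l i * Ph l 0) * (U l 0 * Ph l j) +
      (U l i * Ph l 1) * (U l 1 * Ph l j) = U l i * Ph l j := by decide +kernel
  ext i j
  rw [Matrix.mul_apply, Fin.sum_univ_two]
  simp only [P, vecMulVec_apply]
  exact key l i j

lemma P_mul_iv (l : Let) : P l * P (iv l) = 0 := by
  have h := P_add l
  have h2 : P (iv l) = 1 - P l := by rw [← h]; abel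
  rw [h2, mul_sub, mul_one, P_mul_self, sub_self]

lemma iv_iv (l : Let) : iv (iv l) = l := by
  unfold iv; simp

/-- real version of the idempotent -/
noncomputable def PR (l : Let) : Matrix (Fin 2) (Fin 2) ℝ := (P l).map (algebraMap ℚ ℝ)

lemma PR_add (l : Let) : PR l + PR (iv l) = 1 := by
  have := congrArg (fun M => (algebraMap ℚ ℝ).mapMatrix M) (P_add l)
  simp only [map_add, map_one] at this
  exact this

lemma PR_mul_self (l : Let) : PR l * PR l = PR l := by
  have := congrArg (fun M => (algebraMap ℚ ℝ).mapMatrix M) (P_mul_self l)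
  simpa [PR] using this

lemma PR_mul_iv (l : Let) : PR l * PR (iv l) = 0 := by
  have := congrArg (fun M => (algebraMap ℚ ℝ).mapMatrix M) (P_mul_iv l)
  simpa [PR] using this

lemma PR_iv_mul (l : Let) : PR (iv l) * PR l = 0 := by
  have := PR_mul_iv (iv l)
  rwa [iv_iv] at this

/-- the matrices -/
noncomputable def sm (t : ℝ) (l : Let) : Matrix (Fin 2) (Fin 2) ℝ := t⁻¹ • PR (iv l) + t • PR l

lemma sm_mul_iv (t : ℝ) (ht : t ≠ 0) (l : Let) : sm t l * sm t (iv l) = 1 := by
  unfold sm
  rw [iv_iv, add_mul, mul_add, mul_add]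
  simp only [smul_mul_smul_comm, PR_mul_self, PR_mul_iv, PR_iv_mul, smul_zero, add_zero, zero_add]
  rw [inv_mul_cancel₀ ht, mul_inv_cancel₀ ht, one_smul, one_smul, add_comm, PR_add]

lemma sm_det (t : ℝ) (ht : t ≠ 0) (l : Let) : (sm t l).det = 1 := by
  have key : ∀ l : Let, (U l 0 * Ph l 0) * (U (iv l) 1 * Ph (iv l) 1) +
      (U (iv l) 0 * Ph (iv l) 0) * (U l 1 * Ph l 1) -
      (U l 0 * Ph l 1) * (U (iv l) 1 * Ph (iv l) 0) -
      (U (iv l) 0 * Ph (iv l) 1) * (U l 1 * Ph l 0) = 1 := by decide +kernel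
  have h := key l
  have hr : ((U l 0:ℝ) * Ph l 0) * (U (iv l) 1 * Ph (iv l) 1) +
      (U (iv l) 0 * Ph (iv l) 0) * (U l 1 * Ph l 1) -
      (U l 0 * Ph l 1) * (U (iv l) 1 * Ph (iv l) 0) -
      (U (iv l) 0 * Ph (iv l) 1) * (U l 1 * Ph l 0) = 1 := by exact_mod_cast h
  rw [Matrix.det_fin_two]
  simp only [sm, Matrix.add_apply, Matrix.smul_apply, smul_eq_mul, PR, P, Matrix.map_apply,
    vecMulVec_apply]
  simp only [eq_ratCast]
  push_cast
  field_simp
  linear_combination (t^2) * hr

/-- the generators -/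
noncomputable def Sg (t : ℝ) (ht : t ≠ 0) (j : Fin 6) : SL2 := ⟨sm t (j, true), sm_det t ht _⟩

lemma Sg_inv (t : ℝ) (ht : t ≠ 0) (j : Fin 6) :
    (Sg t ht j)⁻¹ = (⟨sm t (j, false), sm_det t ht _⟩ : SL2) := by
  apply inv_eq_of_mul_eq_one_right
  apply Subtype.ext
  show sm t (j, true) * sm t (j, false) = 1
  exact sm_mul_iv t ht (j, true)

/-- the representation of the free group -/
noncomputable def rho (t : ℝ) (ht : t ≠ 0) : FreeGroup (Fin 6) →* SL2 := FreeGroup.lift (Sg t ht)

lemma rho_mk (t : ℝ) (ht : t ≠ 0) (w : List Let) :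
    (rho t ht (FreeGroup.mk w)).1 = (w.map (sm t)).prod := by
  induction w with
  | nil => simp [rho, ← FreeGroup.one_eq_mk]
  | cons l w ih =>
    have h1 : FreeGroup.mk (l :: w) = FreeGroup.mk [l] * FreeGroup.mk w := by
      rw [FreeGroup.mul_mk]; rfl
    rw [h1, map_mul, Matrix.SpecialLinearGroup.coe_mul, List.map_cons, List.prod_cons]
    have h2 : (rho t ht (FreeGroup.mk [l])).1 = sm t l := by
      obtain ⟨j, b⟩ := l
      cases b
      · have : FreeGroup.mk [(j, false)] = (FreeGroup.of j)⁻¹ := by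
          rw [FreeGroup.of, FreeGroup.inv_mk]; rfl
        rw [this, map_inv, rho, FreeGroup.lift_apply_of, Sg_inv]
      · show (rho t ht (FreeGroup.of j)).1 = _
        rw [rho, FreeGroup.lift_apply_of]; rfl
    have h3 : (rho t ht (FreeGroup.mk w)) = ((rho t ht (FreeGroup.mk w)) : SL2) := rfl
    rw [show ((rho t ht (FreeGroup.mk [l])) : Matrix (Fin 2) (Fin 2) ℝ) = sm t l from h2]
    rw [show ((rho t ht (FreeGroup.mk w)) : Matrix (Fin 2) (Fin 2) ℝ) = (w.map (sm t)).prod from ih]

/-! ### polynomial version -/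

noncomputable def MP (l : Let) : Matrix (Fin 2) (Fin 2) ℚ[X] :=
  (P (iv l)).map C + (X^2 : ℚ[X]) • (P l).map C

lemma MP_eval (t : ℝ) (ht : t ≠ 0) (l : Let) :
    (aeval t : ℚ[X] →ₐ[ℚ] ℝ).mapMatrix (MP l) = t • sm t l := by
  ext i j
  simp only [MP, sm, AlgHom.mapMatrix_apply, Matrix.map_apply, Matrix.add_apply, Matrix.smul_apply,
    smul_eq_mul, map_add, map_mul, map_pow, aeval_X, aeval_C, PR]
  field_simp

lemma MPprod_eval (t : ℝ) (ht : t ≠ 0) (w : List Let) :
    (aeval t : ℚ[X] →ₐ[ℚ] ℝ).mapMatrix (w.map MP).prod = t^w.length • (w.map (sm t)).prod := by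
  induction w with
  | nil => simp
  | cons l w ih =>
    rw [List.map_cons, List.prod_cons, map_mul, ih, MP_eval t ht, List.map_cons, List.prod_cons,
      smul_mul_smul_comm, List.length_cons, pow_succ']

lemma MP_deg (l : Let) (i j : Fin 2) : (MP l i j).natDegree ≤ 2 := by
  simp only [MP, Matrix.add_apply, Matrix.smul_apply, Matrix.map_apply, smul_eq_mul]
  compute_degree

lemma MP_coeff (l : Let) (i j : Fin 2) : (MP l i j).coeff 2 = P l i j := by
  simp only [MP, Matrix.add_apply, Matrix.smul_apply, Matrix.map_apply, smul_eq_mul, coeff_add,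
    coeff_C]
  rw [mul_comm, coeff_C_mul, coeff_X_pow]
  simp

lemma MPprod_deg (w : List Let) : ∀ i j : Fin 2,
    ((w.map MP).prod i j).natDegree ≤ 2 * w.length ∧
    ((w.map MP).prod i j).coeff (2 * w.length) = (w.map P).prod i j := by
  induction w with
  | nil =>
    intro i j
    simp only [List.map_nil, List.prod_nil, Matrix.one_apply, List.length_nil, mul_zero]
    split_ifs <;> simp
  | cons l w ih =>
    intro i j
    simp only [List.map_cons, List.prod_cons, Matrix.mul_apply, Fin.sum_univ_two, List.length_cons]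
    have e : 2 * (w.length + 1) = 2 + 2 * w.length := by ring
    rw [e]
    refine ⟨?_, ?_⟩
    · refine (natDegree_add_le _ _).trans (max_le ?_ ?_)
      · exact natDegree_mul_le_of_le (MP_deg l i 0) (ih 0 j).1
      · exact natDegree_mul_le_of_le (MP_deg l i 1) (ih 1 j).1
    · rw [coeff_add, coeff_mul_add_eq_of_natDegree_le (MP_deg l i 0) (ih 0 j).1,
        coeff_mul_add_eq_of_natDegree_le (MP_deg l i 1) (ih 1 j).1, MP_coeff, MP_coeff,
        (ih 0 j).2, (ih 1 j).2]

/-- the product of the idempotents along a reduced word -/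
lemma prod_P (l : Let) (w : List Let) (h : FreeGroup.IsReduced (l :: w)) :
    ∃ c : ℚ, c ≠ 0 ∧ ((l :: w).map P).prod =
      c • vecMulVec (U l) (Ph ((l :: w).getLast (List.cons_ne_nil _ _))) := by
  induction w generalizing l with
  | nil => exact ⟨1, one_ne_zero, by simp [P]⟩
  | cons l' w ih =>
    have h' : FreeGroup.IsReduced (l' :: w) := by
      unfold FreeGroup.IsReduced at h ⊢
      exact (List.isChain_cons_cons.1 h).2
    have hll : l.1 = l'.1 → l.2 = l'.2 := by
      unfold FreeGroup.IsReduced at h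
      exact (List.isChain_cons_cons.1 h).1
    obtain ⟨c, hc, hp⟩ := ih l' h'
    refine ⟨c * (Ph l ⬝ᵥ U l'), mul_ne_zero hc (pair_ne l l' hll), ?_⟩
    rw [List.map_cons, List.prod_cons, hp, List.getLast_cons (List.cons_ne_nil _ _)]
    unfold P
    rw [mul_smul_comm, vecMulVec_mul_vecMulVec]
    ext i j
    simp only [Matrix.smul_apply, vecMulVec_apply, smul_eq_mul, Pi.smul_apply]
    ring

lemma trace_ne (w : List Let) (hw : w ≠ []) (h : FreeGroup.IsCyclicallyReduced w) :
    ((w.map P).prod).trace ≠ 0 := by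
  obtain ⟨l, w, rfl⟩ := List.exists_cons_of_ne_nil hw
  obtain ⟨c, hc, hp⟩ := prod_P l w h.1
  rw [hp, Matrix.trace_smul, Matrix.trace_vecMulVec, smul_eq_mul]
  apply mul_ne_zero hc
  rw [dotProduct_comm]
  apply pair_ne
  exact h.2 _ (List.getLast?_eq_getLast_of_ne_nil _) l rfl

/-- words do not have trace two -/
lemma trace_rho_ne (t : ℝ) (ht : t ≠ 0) (htr : Transcendental ℚ t) (w : List Let) (hw : w ≠ [])
    (h : FreeGroup.IsCyclicallyReduced w) : ((w.map (sm t)).prod).trace ≠ 2 := by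
  intro h2
  set q : ℚ[X] := ((w.map MP).prod).trace - C 2 * X^w.length with hq
  have hq0 : aeval t q = 0 := by
    have h1 : aeval t ((w.map MP).prod).trace = t^w.length * 2 := by
      have e1 : aeval t ((w.map MP).prod).trace =
          ((aeval t : ℚ[X] →ₐ[ℚ] ℝ).mapMatrix (w.map MP).prod).trace := by
        simp [Matrix.trace, Fin.sum_univ_two]
      rw [e1, MPprod_eval t ht, Matrix.trace_smul, h2, smul_eq_mul]
    rw [hq, map_sub, h1]
    simp; ring
  have hqz : q = 0 := by
    by_contra hne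
    exact htr ⟨q, hne, hq0⟩
  have hlen : 0 < w.length := List.length_pos_iff.2 hw
  have hc : q.coeff (2 * w.length) = ((w.map P).prod).trace := by
    rw [hq, coeff_sub, coeff_C_mul, coeff_X_pow, if_neg (by omega)]
    simp only [Matrix.trace, Matrix.diag_apply, Fin.sum_univ_two, coeff_add]
    rw [(MPprod_deg w 0 0).2, (MPprod_deg w 1 1).2]
    simp
  rw [hqz, coeff_zero] at hc
  exact trace_ne w hw h hc.symm

lemma trace_two_of_fixed (M : SL2) (x : Fin 2 → ℝ) (hx : x ≠ 0) (h : M.1.mulVec x = x) :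
    M.1.trace = 2 := by
  have hdet : (M.1 - 1).det = 0 := by
    rw [← Matrix.exists_mulVec_eq_zero_iff]
    exact ⟨x, hx, by rw [Matrix.sub_mulVec, h, Matrix.one_mulVec, sub_self]⟩
  have h1 := M.2
  rw [Matrix.det_fin_two] at hdet h1
  simp only [Matrix.sub_apply, Matrix.one_apply_eq, ne_eq, zero_ne_one, not_false_eq_true,
    Matrix.one_apply_ne, one_ne_zero, sub_zero] at hdet
  rw [Matrix.trace_fin_two]
  linarith

/-- the action is free on nonzero vectors -/
theorem free (t : ℝ) (ht : t ≠ 0) (htr : Transcendental ℚ t) (g : FreeGroup (Fin 6))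
    (x : Fin 2 → ℝ) (hx : x ≠ 0) (h : (rho t ht g).1.mulVec x = x) : g = 1 := by
  have htr2 := trace_two_of_fixed _ x hx h
  set w := g.toWord with hw
  have hred : FreeGroup.IsReduced w := FreeGroup.isReduced_toWord
  set c := FreeGroup.reduceCyclically w with hc
  set k := FreeGroup.reduceCyclically.conjugator w with hk
  have hconj : k ++ c ++ FreeGroup.invRev k = w :=
    FreeGroup.reduceCyclically.conj_conjugator_reduceCyclically w
  have hg : g = FreeGroup.mk k * FreeGroup.mk c * (FreeGroup.mk k)⁻¹ := by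
    rw [FreeGroup.inv_mk, FreeGroup.mul_mk, FreeGroup.mul_mk, hconj, hw, FreeGroup.mk_toWord]
  by_cases hcn : c = []
  · rw [hg, hcn]
    have : (FreeGroup.mk ([] : List Let)) = 1 := rfl
    rw [this]; group
  · exfalso
    have hcyc : FreeGroup.IsCyclicallyReduced c :=
      FreeGroup.reduceCyclically.isCyclicallyReduced hred
    apply trace_rho_ne t ht htr c hcn hcyc
    rw [← rho_mk t ht c, ← htr2, hg, map_mul, map_mul, map_inv, Matrix.SpecialLinearGroup.coe_mul,
      Matrix.trace_mul_comm, ← Matrix.SpecialLinearGroup.coe_mul, ← mul_assoc, inv_mul_cancel, one_mul]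

end Pool.Agent.H9.Sq
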