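import Mathlib
import Pool.Agent.H9.SqDefs
import Pool.Agent.H9.SqFree

set_option autoImplicit false

open Matrix

namespace Pool.Agent.H9.Sq

/-- which block of three generators -/
def lt3 (hi : Bool) (i : Fin 3) : Fin 6 := if hi then ![3, 4, 5] i else ![0, 1, 2] i

/-- good letters at a point -/
noncomputable def good (x : Fin 2 → ℝ) (i : Fin 3) : Let :=
  if 8 * x 1 ≤ x 0 then (lt3 false i, false)
  else if x 1 ≤ x 0 then (lt3 true i, true)
  else if 8 * x 0 ≤ x 1 then (lt3 true i, false)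
  else (lt3 false i, true)

lemma good_fst_inj (x : Fin 2 → ℝ) (i i' : Fin 3) (h : i ≠ i') : (good x i).1 ≠ (good x i').1 := by
  unfold good
  split_ifs <;> fin_cases i <;> fin_cases i' <;> simp [lt3] at h ⊢

lemma sm_apply0 (t : ℝ) (l : Let) (x : Fin 2 → ℝ) : (sm t l).mulVec x 0 =
    (U (iv l) 0 : ℝ) * Ph (iv l) 0 * (t⁻¹ * x 0) + (U (iv l) 0 : ℝ) * Ph (iv l) 1 * (t⁻¹ * x 1) +
    ((U l 0 : ℝ) * Ph l 0 * (t * x 0) + (U l 0 : ℝ) * Ph l 1 * (t * x 1)) := by
  rw [Matrix.mulVec, dotProduct, Fin.sum_univ_two]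
  simp only [sm, Matrix.add_apply, Matrix.smul_apply, smul_eq_mul, PR, P, Matrix.map_apply,
    vecMulVec_apply, eq_ratCast]
  push_cast
  ring

lemma sm_apply1 (t : ℝ) (l : Let) (x : Fin 2 → ℝ) : (sm t l).mulVec x 1 =
    (U (iv l) 1 : ℝ) * Ph (iv l) 0 * (t⁻¹ * x 0) + (U (iv l) 1 : ℝ) * Ph (iv l) 1 * (t⁻¹ * x 1) +
    ((U l 1 : ℝ) * Ph l 0 * (t * x 0) + (U l 1 : ℝ) * Ph l 1 * (t * x 1)) := by
  rw [Matrix.mulVec, dotProduct, Fin.sum_univ_two]
  simp only [sm, Matrix.add_apply, Matrix.smul_apply, smul_eq_mul, PR, P, Matrix.map_apply,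
    vecMulVec_apply, eq_ratCast]
  push_cast
  ring

lemma move (t : ℝ) (ht1 : 1 < t) (ht2 : t < 11/10) (x : Fin 2 → ℝ) (hx : x ∈ Q) (i : Fin 3) :
    (sm t (good x i)).mulVec x ∈ Q := by
  obtain ⟨h1, h2, h3, h4⟩ := hx
  set η := t - 1 with hη
  have hη0 : 0 < η := by linarith
  have hη1 : η < 1/10 := by linarith
  have ht0 : 0 < t := by linarith
  -- bounds for the inverse
  have hi1 : 1 - η ≤ t⁻¹ := by
    rw [← one_div, le_div_iff₀ ht0, hη]; nlinarith
  have hi2 : t⁻¹ ≤ 1 - (10/11) * η := by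
    rw [← one_div, div_le_iff₀ ht0]
    have : t = 1 + η := by rw [hη]; ring
    rw [this]; nlinarith
  set x0 := x 0 with hx0
  set x1 := x 1 with hx1
  have a1 : x0 - η * x0 ≤ t⁻¹ * x0 := by nlinarith
  have a2 : t⁻¹ * x0 ≤ x0 - (10/11) * (η * x0) := by nlinarith
  have b1 : x1 - η * x1 ≤ t⁻¹ * x1 := by nlinarith
  have b2 : t⁻¹ * x1 ≤ x1 - (10/11) * (η * x1) := by nlinarith
  have c0 : t * x0 = x0 + η * x0 := by rw [hη]; ring
  have c1 : t * x1 = x1 + η * x1 := by rw [hη]; ring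
  have d0 : 0 < η * x0 := mul_pos hη0 h1
  have d1 : 0 < η * x1 := mul_pos hη0 h3
  have e0 : η * x0 < (1/10) * x0 := by nlinarith
  have e1 : η * x1 < (1/10) * x1 := by nlinarith
  have hmul : ∀ u v : ℝ, u ≤ v → η * u ≤ η * v := fun u v h => mul_le_mul_of_nonneg_left h hη0.le
  unfold Q
  rw [Set.mem_ofPred_eq]
  rw [sm_apply0, sm_apply1, ← hx0, ← hx1, c0, c1]
  generalize t⁻¹ * x0 = p0 at *
  generalize t⁻¹ * x1 = p1 at *
  unfold good
  rw [← hx0, ← hx1]
  split_ifs with g1 g2 g3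
  · have f := hmul _ _ g1
    have f' : 8 * (η * x1) ≤ η * x0 := by linarith
    generalize η * x0 = q0 at *
    generalize η * x1 = q1 at *
    fin_cases i <;> simp [lt3, iv, U, Ph] <;> refine ⟨?_, ?_, ?_, ?_⟩ <;> linarith
  · have f := hmul _ _ g2
    have f2 := hmul _ _ (not_le.1 g1).le
    have f' : η * x0 ≤ 8 * (η * x1) := by linarith
    generalize η * x0 = q0 at *
    generalize η * x1 = q1 at *
    push Not at g1
    fin_cases i <;> simp [lt3, iv, U, Ph] <;> refine ⟨?_, ?_, ?_, ?_⟩ <;> linarith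
  · have f := hmul _ _ g3
    have f' : 8 * (η * x0) ≤ η * x1 := by linarith
    generalize η * x0 = q0 at *
    generalize η * x1 = q1 at *
    fin_cases i <;> simp [lt3, iv, U, Ph] <;> refine ⟨?_, ?_, ?_, ?_⟩ <;> linarith
  · have f := hmul _ _ (not_le.1 g2).le
    have f2 := hmul _ _ (not_le.1 g3).le
    have f' : η * x1 ≤ 8 * (η * x0) := by linarith
    generalize η * x0 = q0 at *
    generalize η * x1 = q1 at *
    push Not at g3 g2
    fin_cases i <;> simp [lt3, iv, U, Ph] <;> refine ⟨?_, ?_, ?_, ?_⟩ <;> linarith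

end Pool.Agent.H9.Sq
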