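import Mathlib
import Pool.Agent.H9.SqDefs

set_option autoImplicit false

open Matrix

namespace Pool.Agent.H9.Sq

lemma F_int (g : SL2) (hg : g ∈ F) : ∀ i j, ∃ z : ℤ, g.1 i j = z := by
  unfold F at hg
  induction hg using Subgroup.closure_induction with
  | mem x hx =>
    rcases hx with rfl | rfl
    · intro i j
      fin_cases i <;> fin_cases j
      · exact ⟨1, by simp [a]⟩
      · exact ⟨2, by simp [a]⟩
      · exact ⟨0, by simp [a]⟩
      · exact ⟨1, by simp [a]⟩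
    · intro i j
      fin_cases i <;> fin_cases j
      · exact ⟨1, by simp [b]⟩
      · exact ⟨0, by simp [b]⟩
      · exact ⟨2, by simp [b]⟩
      · exact ⟨1, by simp [b]⟩
  | one =>
    intro i j
    by_cases h : i = j
    · exact ⟨1, by simp [h]⟩
    · exact ⟨0, by simp [h]⟩
  | mul x y _ _ hx hy =>
    intro i j
    obtain ⟨a1, h1⟩ := hx i 0
    obtain ⟨a2, h2⟩ := hx i 1
    obtain ⟨b1, g1⟩ := hy 0 j
    obtain ⟨b2, g2⟩ := hy 1 j
    refine ⟨a1 * b1 + a2 * b2, ?_⟩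
    rw [Matrix.SpecialLinearGroup.coe_mul, Matrix.mul_apply, Fin.sum_univ_two, h1, h2, g1, g2]
    push_cast; ring
  | inv x _ hx =>
    intro i j
    rw [Matrix.SpecialLinearGroup.coe_inv, Matrix.adjugate_fin_two]
    fin_cases i <;> fin_cases j
    · obtain ⟨z, hz⟩ := hx 1 1
      exact ⟨z, by simpa using hz⟩
    · obtain ⟨z, hz⟩ := hx 0 1
      exact ⟨-z, by simpa using hz⟩
    · obtain ⟨z, hz⟩ := hx 1 0
      exact ⟨-z, by simpa using hz⟩
    · obtain ⟨z, hz⟩ := hx 0 0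
      exact ⟨z, by simpa using hz⟩

lemma half_unique (g : SL2) (hg : g ∈ F) (y : Fin 2 → ℝ) (hy : y ∈ Q)
    (h : g.1.mulVec y = fun _ => 1/2) : y = fun _ => 1/2 := by
  have hy2 : y = (g⁻¹).1.mulVec (fun _ => 1/2) := by
    rw [← h, Matrix.mulVec_mulVec, ← Matrix.SpecialLinearGroup.coe_mul, inv_mul_cancel]
    simp
  have hint := F_int g⁻¹ (F.inv_mem hg)
  have key : ∀ i, 0 < y i → y i < 1 → y i = 1/2 := by
    intro i h0 h1
    obtain ⟨z1, hz1⟩ := hint i 0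
    obtain ⟨z2, hz2⟩ := hint i 1
    have e1 : y i = ((z1 + z2 : ℤ) : ℝ) / 2 := by
      rw [hy2, Matrix.mulVec, dotProduct, Fin.sum_univ_two, hz1, hz2]
      push_cast; ring
    rw [e1] at h0 h1
    have h2 : (0:ℝ) < ((z1 + z2 : ℤ) : ℝ) := by linarith
    have h3 : ((z1 + z2 : ℤ) : ℝ) < ((2:ℤ):ℝ) := by push_cast; push_cast at h1; linarith
    have h4 : 0 < z1 + z2 := by exact_mod_cast h2
    have h5 : z1 + z2 < 2 := by exact_mod_cast h3
    have h6 : z1 + z2 = 1 := by omega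
    rw [e1, h6]; norm_num
  obtain ⟨h1, h2, h3, h4⟩ := hy
  funext i
  fin_cases i
  · exact key 0 h1 h2
  · exact key 1 h3 h4

theorem not_F : ¬ IsParadoxical F Q := by
  rintro ⟨n, m, A, B, g, h, _, _, hg, hh, hA, hB, _, _, hAB, hE1, hE2⟩
  have hx : (fun _ => 1/2 : Fin 2 → ℝ) ∈ Q := by
    refine ⟨?_, ?_, ?_, ?_⟩ <;> norm_num
  have h1 := hx
  rw [hE1, Set.mem_iUnion] at h1
  obtain ⟨i, y, hy, hy2⟩ := h1
  have h2 := hx
  rw [hE2, Set.mem_iUnion] at h2
  obtain ⟨j, z, hz, hz2⟩ := h2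
  have e1 := half_unique (g i) (hg i) y (hA i hy) hy2
  have e2 := half_unique (h j) (hh j) z (hB j hz) hz2
  rw [e1] at hy
  rw [e2] at hz
  exact Set.disjoint_left.1 (hAB i j) hy hz

end Pool.Agent.H9.Sq
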