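import Mathlib
import Pool.Agent.H9.SqDefs
import Pool.Agent.H9.SqFree
import Pool.Agent.H9.SqMove
import Pool.Agent.H9.SqNo

set_option autoImplicit false

open Matrix

namespace Pool.Agent.H9.Sq

lemma two_of_three (L : Fin 3 → Let) (hL : ∀ i i', i ≠ i' → (L i).1 ≠ (L i').1) (w : List Let)
    (hw : FreeGroup.reduce w = w) :
    ∃ i i', i ≠ i' ∧ FreeGroup.reduce (L i :: w) = L i :: w ∧
      FreeGroup.reduce (L i' :: w) = L i' :: w := by
  cases w with
  | nil => exact ⟨0, 1, by decide, by simp, by simp⟩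
  | cons hd tl =>
    have key : ∀ l : Let, l.1 ≠ hd.1 → FreeGroup.reduce (l :: hd :: tl) = l :: hd :: tl := by
      intro l hl
      rw [FreeGroup.reduce.cons, hw]
      simp [hl]
    by_cases h0 : (L 0).1 = hd.1
    · refine ⟨1, 2, by decide, key _ ?_, key _ ?_⟩
      · rw [← h0]; exact hL 1 0 (by decide)
      · rw [← h0]; exact hL 2 0 (by decide)
    · by_cases h1 : (L 1).1 = hd.1
      · refine ⟨0, 2, by decide, key _ h0, key _ ?_⟩
        rw [← h1]; exact hL 2 1 (by decide)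
      · exact ⟨0, 1, by decide, key _ h0, key _ h1⟩

section
variable (t : ℝ) (ht : t ≠ 0)

lemma rho_mulVec_mul (g g' : FreeGroup (Fin 6)) (x : Fin 2 → ℝ) :
    (rho t ht (g * g')).1.mulVec x = (rho t ht g).1.mulVec ((rho t ht g').1.mulVec x) := by
  rw [map_mul, Matrix.SpecialLinearGroup.coe_mul, Matrix.mulVec_mulVec]

lemma rho_one (x : Fin 2 → ℝ) : (rho t ht 1).1.mulVec x = x := by
  rw [map_one, Matrix.SpecialLinearGroup.coe_one, Matrix.one_mulVec]

/-- orbit relation -/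
def orel : Setoid (Fin 2 → ℝ) where
  r x y := ∃ g, (rho t ht g).1.mulVec x = y
  iseqv := by
    refine ⟨fun x => ⟨1, rho_one t ht x⟩, ?_, ?_⟩
    · rintro x y ⟨g, rfl⟩
      exact ⟨g⁻¹, by rw [← rho_mulVec_mul, inv_mul_cancel, rho_one]⟩
    · rintro x y z ⟨g, rfl⟩ ⟨g', rfl⟩
      exact ⟨g' * g, rho_mulVec_mul t ht g' g x⟩

/-- base point of the orbit -/
noncomputable def base (x : Fin 2 → ℝ) : Fin 2 → ℝ :=
  (Quotient.mk (orel t ht) x).out

lemma base_spec (x : Fin 2 → ℝ) : ∃ g, (rho t ht g).1.mulVec (base t ht x) = x :=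
  Quotient.mk_out (s := orel t ht) x

lemma base_eq (g : FreeGroup (Fin 6)) (x : Fin 2 → ℝ) :
    base t ht ((rho t ht g).1.mulVec x) = base t ht x := by
  unfold base
  have h : Quotient.mk (orel t ht) ((rho t ht g).1.mulVec x) = Quotient.mk (orel t ht) x := by
    apply Quotient.sound
    exact ⟨g⁻¹, by rw [← rho_mulVec_mul, inv_mul_cancel, rho_one]⟩
  rw [h]

/-- the group element taking the base point to `x` -/
noncomputable def gg (x : Fin 2 → ℝ) : FreeGroup (Fin 6) := (base_spec t ht x).choose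

lemma gg_spec (x : Fin 2 → ℝ) : (rho t ht (gg t ht x)).1.mulVec (base t ht x) = x :=
  (base_spec t ht x).choose_spec

lemma base_ne (x : Fin 2 → ℝ) (hx : x ≠ 0) : base t ht x ≠ 0 := by
  intro h
  apply hx
  rw [← gg_spec t ht x, h, Matrix.mulVec_zero]

lemma gg_unique (htr : Transcendental ℚ t) (x : Fin 2 → ℝ) (hx : x ≠ 0) (g : FreeGroup (Fin 6))
    (h : (rho t ht g).1.mulVec (base t ht x) = x) : gg t ht x = g := by
  have h1 : (rho t ht (g⁻¹ * gg t ht x)).1.mulVec (base t ht x) = base t ht x := by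
    rw [rho_mulVec_mul, gg_spec]
    conv_lhs => rw [← h]
    rw [← rho_mulVec_mul, inv_mul_cancel, rho_one]
  have h2 := free t ht htr _ _ (base_ne t ht x hx) h1
  rw [inv_mul_eq_one] at h2
  exact h2.symm

/-- word of a point -/
noncomputable def W (x : Fin 2 → ℝ) : List Let := (gg t ht x).toWord

lemma sm_eq_rho (l : Let) : sm t l = (rho t ht (FreeGroup.mk [l])).1 := by
  rw [rho_mk]; simp

lemma W_step (htr : Transcendental ℚ t) (x : Fin 2 → ℝ) (hx : x ≠ 0) (l : Let)
    (hl : FreeGroup.reduce (l :: W t ht x) = l :: W t ht x) :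
    W t ht ((sm t l).mulVec x) = l :: W t ht x ∧ base t ht ((sm t l).mulVec x) = base t ht x := by
  have hb : base t ht ((sm t l).mulVec x) = base t ht x := by
    rw [sm_eq_rho t ht, base_eq]
  refine ⟨?_, hb⟩
  have hne : (sm t l).mulVec x ≠ 0 := by
    intro h
    apply hx
    have := congrArg (fun v => (rho t ht (FreeGroup.mk [l])⁻¹).1.mulVec v) h
    simp only [sm_eq_rho t ht] at this
    rw [← rho_mulVec_mul, inv_mul_cancel, rho_one, Matrix.mulVec_zero] at this
    exact this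
  have hg : gg t ht ((sm t l).mulVec x) = FreeGroup.mk [l] * gg t ht x := by
    apply gg_unique t ht htr _ hne
    rw [hb, rho_mulVec_mul, gg_spec, ← sm_eq_rho]
  unfold W
  rw [hg, FreeGroup.toWord_mul, FreeGroup.toWord_mk, FreeGroup.reduce_singleton]
  exact hl

end

lemma Q_ne (x : Fin 2 → ℝ) (hx : x ∈ Q) : x ≠ 0 := by
  rintro rfl
  have := hx.1
  simp at this

theorem yes_SL2 : IsParadoxical ⊤ Q := by
  -- a transcendental parameter
  obtain ⟨t, htI, htr⟩ : ∃ t : ℝ, t ∈ Set.Ioo (1:ℝ) (11/10) ∧ Transcendental ℚ t := by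
    have hc : {x : ℝ | IsAlgebraic ℚ x}.Countable := Algebraic.countable ℚ ℝ
    have hd : Dense ({x : ℝ | IsAlgebraic ℚ x}ᶜ) := hc.dense_compl ℝ
    obtain ⟨t, ht, ht'⟩ := hd.exists_mem_open isOpen_Ioo (Set.nonempty_Ioo.2 (by norm_num : (1:ℝ) < 11/10))
    exact ⟨t, ht', ht⟩
  have ht : t ≠ 0 := by linarith [htI.1]
  -- the two children
  have hch : ∀ x : Fin 2 → ℝ, ∃ l l' : Let, x ∈ Q → l ≠ l' ∧
      (sm t l).mulVec x ∈ Q ∧ (sm t l').mulVec x ∈ Q ∧
      W t ht ((sm t l).mulVec x) = l :: W t ht x ∧ base t ht ((sm t l).mulVec x) = base t ht x ∧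
      W t ht ((sm t l').mulVec x) = l' :: W t ht x ∧ base t ht ((sm t l').mulVec x) = base t ht x := by
    intro x
    obtain ⟨i, i', hii, h1, h2⟩ := two_of_three (good x) (good_fst_inj x) (W t ht x)
      (FreeGroup.reduce_toWord _)
    refine ⟨good x i, good x i', fun hx => ?_⟩
    have s1 := W_step t ht htr x (Q_ne x hx) _ h1
    have s2 := W_step t ht htr x (Q_ne x hx) _ h2
    exact ⟨fun h => good_fst_inj x i i' hii (congrArg Prod.fst h), move t htI.1 htI.2 x hx i,
      move t htI.1 htI.2 x hx i', s1.1, s1.2, s2.1, s2.2⟩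
  choose l1 l2 hl using hch
  -- a point is determined by its word and base point
  have hdet : ∀ x y : Fin 2 → ℝ, W t ht x = W t ht y → base t ht x = base t ht y → x = y := by
    intro x y h1 h2
    rw [← gg_spec t ht x, ← gg_spec t ht y, h2, FreeGroup.toWord_injective h1]
  set e : Fin (Fintype.card Let) ≃ Let := (Fintype.equivFin Let).symm with he
  refine ⟨Fintype.card Let, Fintype.card Let,
    fun i => {y | ∃ x ∈ Q, l1 x = e i ∧ (sm t (e i)).mulVec x = y},
    fun i => {y | ∃ x ∈ Q, l2 x = e i ∧ (sm t (e i)).mulVec x = y},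
    fun i => (rho t ht (FreeGroup.mk [e i]))⁻¹, fun i => (rho t ht (FreeGroup.mk [e i]))⁻¹,
    by simp, by simp, fun i => Subgroup.mem_top _, fun i => Subgroup.mem_top _, ?_, ?_, ?_, ?_, ?_, ?_, ?_⟩
  · rintro i y ⟨x, hx, h1, rfl⟩
    rw [← h1]; exact (hl x hx).2.1
  · rintro i y ⟨x, hx, h1, rfl⟩
    rw [← h1]; exact (hl x hx).2.2.1
  · intro i i' hii
    rw [Set.disjoint_left]
    rintro y ⟨x, hx, h1, rfl⟩ ⟨x', hx', h1', h2⟩
    apply hii
    apply e.injective
    rw [← h1, ← h1'] at *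
    have e1 := (hl x hx).2.2.2.1
    have e2 := (hl x' hx').2.2.2.1
    rw [h2, e1] at e2
    exact (List.cons.inj e2).1
  · intro i i' hii
    rw [Set.disjoint_left]
    rintro y ⟨x, hx, h1, rfl⟩ ⟨x', hx', h1', h2⟩
    apply hii
    apply e.injective
    rw [← h1, ← h1'] at *
    have e1 := (hl x hx).2.2.2.2.2.1
    have e2 := (hl x' hx').2.2.2.2.2.1
    rw [h2, e1] at e2
    exact (List.cons.inj e2).1
  · intro i i'
    rw [Set.disjoint_left]
    rintro y ⟨x, hx, h1, rfl⟩ ⟨x', hx', h1', h2⟩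
    have e1 := (hl x hx).2.2.2.1
    have e2 := (hl x' hx').2.2.2.2.2.1
    have b1 := (hl x hx).2.2.2.2.1
    have b2 := (hl x' hx').2.2.2.2.2.2
    rw [← h1, ← h1'] at h2
    rw [h2, e1] at e2
    rw [h2, b1] at b2
    have hxx : x = x' := hdet x x' (List.cons.inj e2).2 b2
    subst hxx
    exact (hl x hx).1 (List.cons.inj e2).1
  · ext x
    rw [Set.mem_iUnion]
    constructor
    · intro hx
      refine ⟨e.symm (l1 x), (sm t (l1 x)).mulVec x, ⟨x, hx, by simp, by simp⟩, ?_⟩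
      simp only [Equiv.apply_symm_apply]
      rw [sm_eq_rho t ht, ← map_inv, ← rho_mulVec_mul, inv_mul_cancel, rho_one]
    · rintro ⟨i, y, ⟨x', hx', h1, rfl⟩, rfl⟩
      simp only
      rw [sm_eq_rho t ht, ← map_inv, ← rho_mulVec_mul, inv_mul_cancel, rho_one]
      exact hx'
  · ext x
    rw [Set.mem_iUnion]
    constructor
    · intro hx
      refine ⟨e.symm (l2 x), (sm t (l2 x)).mulVec x, ⟨x, hx, by simp, by simp⟩, ?_⟩
      simp only [Equiv.apply_symm_apply]
      rw [sm_eq_rho t ht, ← map_inv, ← rho_mulVec_mul, inv_mul_cancel, rho_one]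
    · rintro ⟨i, y, ⟨x', hx', h1, rfl⟩, rfl⟩
      simp only
      rw [sm_eq_rho t ht, ← map_inv, ← rho_mulVec_mul, inv_mul_cancel, rho_one]
      exact hx'

theorem main : IsParadoxical ⊤ Q ∧ ¬ IsParadoxical F Q := ⟨yes_SL2, not_F⟩

end Pool.Agent.H9.Sq
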