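import Mathlib

set_option autoImplicit false

namespace Pool.Agent.H9.Strip

open MeasureTheory Filter Topology

def NN (n : ℕ) : ℕ := 2 ^ (n * n)

theorem NN_pos (n : ℕ) : (0 : ℝ) < NN n := by
  unfold NN; positivity

noncomputable def tr (n : ℕ) (a : ℝ) : ℝ := (⌊a * NN n⌋₊ : ℝ) / NN n

theorem tr_le {n : ℕ} {a : ℝ} (ha : 0 ≤ a) : tr n a ≤ a := by
  unfold tr
  rw [div_le_iff₀ (NN_pos n)]
  exact Nat.floor_le (mul_nonneg ha (NN_pos n).le)

theorem lt_tr (n : ℕ) (a : ℝ) : a < tr n a + 1 / NN n := by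
  unfold tr
  rw [← add_div, lt_div_iff₀ (NN_pos n)]
  exact Nat.lt_floor_add_one _

theorem tr_nonneg (n : ℕ) (a : ℝ) : 0 ≤ tr n a := by
  unfold tr; positivity

theorem tr_tr {m n : ℕ} (h : m ≤ n) (a : ℝ) : tr m (tr n a) = tr m a := by
  obtain ⟨K, hK⟩ : ∃ K : ℕ, NN n = K * NN m := by
    refine ⟨2 ^ (n * n - m * m), ?_⟩
    unfold NN
    rw [← pow_add]
    congr 1
    have := Nat.mul_le_mul h h
    omega
  have hK0 : (K : ℝ) ≠ 0 := by
    intro h0
    have := NN_pos n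
    rw [hK] at this
    push_cast at this
    rw [h0, zero_mul] at this
    exact lt_irrefl _ this
  have hm := (NN_pos m).ne'
  have hn : (NN n : ℝ) = K * NN m := by rw [hK]; push_cast; ring
  unfold tr
  congr 2
  have h1 : (⌊a * NN n⌋₊ : ℝ) / NN n * NN m = (⌊a * NN n⌋₊ : ℝ) / K := by
    rw [hn]; field_simp
  rw [h1, Nat.floor_div_natCast, Nat.floor_natCast, ← Nat.floor_div_natCast]
  congr 1
  rw [hn]; field_simp

theorem tr_mono {m n : ℕ} (h : m ≤ n) (a : ℝ) : tr m a ≤ tr n a := by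
  rw [← tr_tr h]
  exact tr_le (tr_nonneg n a)

noncomputable def xs (n : ℕ) : ℝ := max 0 (min 1 (TopologicalSpace.denseSeq ℝ n.unpair.1))

theorem xs_mem (n : ℕ) : xs n ∈ Set.Icc (0 : ℝ) 1 :=
  ⟨le_max_left _ _, max_le zero_le_one (min_le_left _ _)⟩

theorem xs_dense (x : ℝ) (hx : x ∈ Set.Icc (0 : ℝ) 1) (η : ℝ) (hη : 0 < η) (k : ℕ) :
    ∃ n, k ≤ n ∧ |x - xs n| < η := by
  obtain ⟨i, hi⟩ := (TopologicalSpace.denseRange_denseSeq ℝ).exists_dist_lt x hη
  refine ⟨Nat.pair i k, Nat.right_le_pair i k, ?_⟩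
  unfold xs
  rw [Nat.unpair_pair]
  rw [Real.dist_eq] at hi
  refine lt_of_le_of_lt ?_ hi
  obtain ⟨h0, h1⟩ := hx
  show |x - max 0 (min 1 (TopologicalSpace.denseSeq ℝ i))| ≤ _
  generalize TopologicalSpace.denseSeq ℝ i = y
  rcases le_total y 1 with h | h
  · rw [min_eq_right h]
    rcases le_total 0 y with h' | h'
    · rw [max_eq_right h']
    · rw [max_eq_left h', abs_of_nonneg (by linarith), abs_of_nonneg (by linarith)]
      linarith
  · rw [min_eq_left h, max_eq_right zero_le_one, abs_of_nonpos (by linarith),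
      abs_of_nonpos (by linarith)]
    linarith

noncomputable def bb (n : ℕ) (a : ℝ) : ℝ :=
  - ∑ m ∈ Finset.range n, xs m * (tr (m + 1) a - tr m a)

theorem bb_succ (n : ℕ) (a : ℝ) : bb (n + 1) a = bb n a - xs n * (tr (n + 1) a - tr n a) := by
  unfold bb
  rw [Finset.sum_range_succ]
  ring

theorem bb_tr (n : ℕ) (a : ℝ) : bb n (tr n a) = bb n a := by
  unfold bb
  congr 1
  refine Finset.sum_congr rfl ?_
  intro m hm
  rw [Finset.mem_range] at hm
  rw [tr_tr (by omega), tr_tr (by omega)]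

theorem step (x : ℝ) (hx : x ∈ Set.Icc (0 : ℝ) 1) (a : ℝ) (n M : ℕ) (h : n ≤ M) :
    |(x * tr M a + bb M a) - (x * tr n a + bb n a)| ≤ tr M a - tr n a := by
  induction M, h using Nat.le_induction with
  | base => simp
  | succ M hM ih =>
    have h1 : (x * tr (M + 1) a + bb (M + 1) a) - (x * tr n a + bb n a) =
        ((x * tr M a + bb M a) - (x * tr n a + bb n a)) +
          (x - xs M) * (tr (M + 1) a - tr M a) := by
      rw [bb_succ]; ring
    have h2 : 0 ≤ tr (M + 1) a - tr M a := sub_nonneg.mpr (tr_mono (Nat.le_succ M) a)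
    have h3 : |x - xs M| ≤ 1 := by
      obtain ⟨h4, h5⟩ := xs_mem M
      obtain ⟨h6, h7⟩ := hx
      rw [abs_le]; constructor <;> linarith
    rw [h1]
    calc _ ≤ |(x * tr M a + bb M a) - (x * tr n a + bb n a)| +
          |(x - xs M) * (tr (M + 1) a - tr M a)| := abs_add_le _ _
      _ ≤ (tr M a - tr n a) + 1 * (tr (M + 1) a - tr M a) := by
          rw [abs_mul, abs_of_nonneg h2]
          exact add_le_add ih (mul_le_mul_of_nonneg_right h3 h2)
      _ = _ := by ring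

theorem step2 (x : ℝ) (hx : x ∈ Set.Icc (0 : ℝ) 1) (a : ℝ) (ha : 0 ≤ a) (n M : ℕ)
    (h : n + 1 ≤ M) :
    |(x * tr M a + bb M a) - (x * tr n a + bb n a)| ≤ |x - xs n| / NN n + 1 / NN (n + 1) := by
  have h1 := step x hx a (n + 1) M h
  have h2 : (x * tr (n + 1) a + bb (n + 1) a) - (x * tr n a + bb n a) =
      (x - xs n) * (tr (n + 1) a - tr n a) := by
    rw [bb_succ]; ring
  have h3 : 0 ≤ tr (n + 1) a - tr n a := sub_nonneg.mpr (tr_mono (Nat.le_succ n) a)
  have h4 : tr (n + 1) a - tr n a ≤ 1 / NN n := by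
    have := tr_le (n := n + 1) ha
    have := lt_tr n a
    linarith
  have h5 : tr M a - tr (n + 1) a ≤ 1 / NN (n + 1) := by
    have := tr_le (n := M) ha
    have := lt_tr (n + 1) a
    linarith
  have h6 : (x * tr M a + bb M a) - (x * tr n a + bb n a) =
      ((x * tr M a + bb M a) - (x * tr (n + 1) a + bb (n + 1) a)) +
      ((x * tr (n + 1) a + bb (n + 1) a) - (x * tr n a + bb n a)) := by ring
  rw [h6]
  refine le_trans (abs_add_le _ _) ?_
  rw [h2, abs_mul, abs_of_nonneg h3]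
  have h7 : |x - xs n| * (tr (n + 1) a - tr n a) ≤ |x - xs n| * (1 / NN n) :=
    mul_le_mul_of_nonneg_left h4 (abs_nonneg _)
  have h8 : |x - xs n| * (1 / NN n) = |x - xs n| / NN n := by ring
  linarith

theorem NN_tendsto : Tendsto (fun n => 1 / (NN n : ℝ)) atTop (𝓝 0) := by
  refine squeeze_zero (fun n => (one_div_pos.mpr (NN_pos n)).le) (g := fun n : ℕ => (1 / 2 : ℝ) ^ n) ?_
    (tendsto_pow_atTop_nhds_zero_of_lt_one (by norm_num) (by norm_num))
  intro n
  unfold NN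
  push_cast
  rw [one_div_pow]
  apply one_div_le_one_div_of_le (by positivity)
  apply pow_le_pow_right₀ (by norm_num)
  rcases Nat.eq_zero_or_pos n with h | h
  · simp [h]
  · exact Nat.le_mul_of_pos_right n h

theorem exists_b (a : ℝ) (ha : 0 ≤ a) : ∃ b : ℝ, ∀ x ∈ Set.Icc (0 : ℝ) 1, ∀ n,
    |(a * x + b) - (x * tr n a + bb n a)| ≤ |x - xs n| / NN n + 1 / NN (n + 1) := by
  have htr : Tendsto (fun n => tr n a) atTop (𝓝 a) := by
    have h1 : Tendsto (fun n => a - 1 / (NN n : ℝ)) atTop (𝓝 (a - 0)) := NN_tendsto.const_sub a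
    rw [sub_zero] at h1
    refine tendsto_of_tendsto_of_tendsto_of_le_of_le h1 tendsto_const_nhds ?_ ?_
    · intro n
      have := lt_tr n a
      show a - 1 / (NN n : ℝ) ≤ tr n a
      linarith
    · intro n
      exact tr_le ha
  have hc : CauchySeq (fun n => bb n a) := by
    apply cauchySeq_of_le_tendsto_0 (fun n => 2 * (1 / (NN n : ℝ)))
    · intro n m N hn hm
      have h0 : (0 : ℝ) ∈ Set.Icc (0 : ℝ) 1 := ⟨le_rfl, zero_le_one⟩
      have h1 := step 0 h0 a N n hn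
      have h2 := step 0 h0 a N m hm
      have h3 := tr_le (n := n) ha
      have h4 := tr_le (n := m) ha
      have h5 := lt_tr N a
      rw [Real.dist_eq]
      rw [abs_le] at h1 h2 ⊢
      constructor <;> linarith [h1.1, h1.2, h2.1, h2.2]
    · have := NN_tendsto.const_mul 2
      rwa [mul_zero] at this
  obtain ⟨b, hb⟩ := cauchySeq_tendsto_of_complete hc
  refine ⟨b, fun x hx n => ?_⟩
  have h1 : Tendsto (fun M => |(x * tr M a + bb M a) - (x * tr n a + bb n a)|) atTop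
      (𝓝 |(x * a + b) - (x * tr n a + bb n a)|) :=
    (((htr.const_mul x).add hb).sub_const _).abs
  have h2 := le_of_tendsto h1 (eventually_atTop.mpr ⟨n + 1, fun M hM => step2 x hx a ha n M hM⟩)
  rw [mul_comm a x]
  exact h2

noncomputable def piece (n j : ℕ) : Set (ℝ × ℝ) :=
  {z | z.1 ∈ Set.Icc (0 : ℝ) 1 ∧ |z.2 - (z.1 * ((j : ℝ) / NN n) + bb n ((j : ℝ) / NN n))| ≤
    |z.1 - xs n| / NN n + 1 / NN (n + 1)}

noncomputable def TT (n : ℕ) : Set (ℝ × ℝ) := ⋃ j ∈ Finset.range (NN n + 1), piece n j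

theorem meas_piece (n j : ℕ) : MeasurableSet (piece n j) := by
  apply MeasurableSet.inter
  · exact measurable_fst measurableSet_Icc
  · exact (isClosed_le (f := fun z : ℝ × ℝ =>
      |z.2 - (z.1 * ((j : ℝ) / NN n) + bb n ((j : ℝ) / NN n))|)
      (g := fun z : ℝ × ℝ => |z.1 - xs n| / NN n + 1 / NN (n + 1))
      (by fun_prop) (by fun_prop)).measurableSet

theorem meas_TT (n : ℕ) : MeasurableSet (TT n) :=
  Finset.measurableSet_biUnion _ (fun j _ => meas_piece n j)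

theorem slice (x : ℝ) (hx : x ∈ Set.Icc (0 : ℝ) 1) (n : ℕ) :
    volume (Prod.mk x ⁻¹' TT n) ≤ ENNReal.ofReal (4 * (|x - xs n| + 1 / 2 ^ n)) := by
  have hsub : Prod.mk x ⁻¹' TT n ⊆ ⋃ j ∈ Finset.range (NN n + 1),
      Metric.closedBall (x * ((j : ℝ) / NN n) + bb n ((j : ℝ) / NN n))
        (|x - xs n| / NN n + 1 / NN (n + 1)) := by
    intro y hy
    simp only [TT, Set.mem_preimage, Set.mem_iUnion] at hy ⊢
    obtain ⟨j, hj, hy⟩ := hy
    refine ⟨j, hj, ?_⟩
    rw [Metric.mem_closedBall, Real.dist_eq]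
    exact hy.2
  refine le_trans (measure_mono hsub) (le_trans (measure_biUnion_finset_le _ _) ?_)
  simp only [Real.volume_closedBall]
  rw [Finset.sum_const, Finset.card_range, nsmul_eq_mul]
  rw [← ENNReal.ofReal_natCast, ← ENNReal.ofReal_mul (Nat.cast_nonneg _)]
  apply ENNReal.ofReal_le_ofReal
  have hN := NN_pos n
  have hN1 : (1 : ℝ) ≤ NN n := by
    have : 0 < NN n := by exact_mod_cast hN
    exact_mod_cast this
  have h1 : (NN n : ℝ) / NN (n + 1) ≤ 1 / 2 ^ n := by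
    rw [div_le_div_iff₀ (NN_pos _) (by positivity), one_mul]
    unfold NN
    push_cast
    rw [← pow_add]
    apply pow_le_pow_right₀ (by norm_num)
    nlinarith
  push_cast
  have h2 : ((NN n : ℝ) + 1) ≤ 2 * NN n := by linarith
  have h3 : 0 ≤ 2 * (|x - xs n| / NN n + 1 / NN (n + 1)) := by positivity
  calc ((NN n : ℝ) + 1) * (2 * (|x - xs n| / NN n + 1 / NN (n + 1)))
      ≤ (2 * NN n) * (2 * (|x - xs n| / NN n + 1 / NN (n + 1))) :=
        mul_le_mul_of_nonneg_right h2 h3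
    _ = 4 * (|x - xs n| + (NN n : ℝ) / NN (n + 1)) := by field_simp; ring
    _ ≤ _ := by linarith

theorem exists_line_set : ∃ E : Set (ℝ × ℝ), Bornology.IsBounded E ∧ volume E = 0 ∧
    ∀ a ∈ Set.Icc (0:ℝ) 1, ∃ b : ℝ, ∀ x ∈ Set.Icc (0:ℝ) 1, (x, a * x + b) ∈ E := by
  have hTT : ∀ a ∈ Set.Icc (0:ℝ) 1, ∃ b : ℝ, ∀ x ∈ Set.Icc (0:ℝ) 1, ∀ n,
      (x, a * x + b) ∈ TT n := by
    intro a ha
    obtain ⟨b, hb⟩ := exists_b a ha.1
    refine ⟨b, fun x hx n => ?_⟩
    simp only [TT, Set.mem_iUnion]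
    refine ⟨⌊a * NN n⌋₊, ?_, hx, ?_⟩
    · rw [Finset.mem_range, Nat.lt_succ_iff]
      apply Nat.floor_le_of_le
      have := mul_le_mul_of_nonneg_right ha.2 (NN_pos n).le
      linarith
    · have h1 := hb x hx n
      rw [← bb_tr n a] at h1
      exact h1
  refine ⟨⋂ n, TT n, ?_, ?_, ?_⟩
  · refine (isCompact_Icc (a := ((0, -5) : ℝ × ℝ)) (b := ((1, 5) : ℝ × ℝ))).isBounded.subset ?_
    intro z hz
    have h0 := Set.mem_iInter.mp hz 0
    simp only [TT, Set.mem_iUnion] at h0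
    obtain ⟨j, hj, hx, hy⟩ := h0
    have hN0 : NN 0 = 1 := rfl
    have hN1 : (1 : ℝ) ≤ NN (0 + 1) := by norm_num [NN]
    rw [hN0, Finset.mem_range] at hj
    have hj1 : (j : ℝ) ≤ 1 := by exact_mod_cast Nat.lt_succ_iff.mp hj
    have hj0 : (0 : ℝ) ≤ j := Nat.cast_nonneg j
    have hb0 : bb 0 ((j : ℝ) / NN 0) = 0 := by simp [bb]
    rw [hb0, hN0] at hy
    have h4 := xs_mem 0
    have h5 : |z.1 - xs 0| ≤ 1 := by
      rw [abs_le]; constructor <;> linarith [hx.1, hx.2, h4.1, h4.2]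
    have h6 : (1 : ℝ) / NN (0 + 1) ≤ 1 := by
      rw [div_le_one (by linarith)]; exact hN1
    have h7 : 0 ≤ z.1 * j := mul_nonneg hx.1 hj0
    have h8 : z.1 * j ≤ 1 := by nlinarith [hx.1, hx.2]
    simp only [Nat.cast_one, div_one, add_zero] at hy
    rw [abs_le] at hy
    refine ⟨⟨hx.1, ?_⟩, ⟨hx.2, ?_⟩⟩
    · show (-5 : ℝ) ≤ z.2
      linarith [hy.1]
    · show z.2 ≤ (5 : ℝ)
      linarith [hy.2]
  · have hm : MeasurableSet (⋂ n, TT n) := MeasurableSet.iInter meas_TT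
    rw [Measure.volume_eq_prod, Measure.measure_prod_null hm]
    refine Eventually.of_forall (fun x => ?_)
    show volume (Prod.mk x ⁻¹' ⋂ n, TT n) = 0
    by_cases hx : x ∈ Set.Icc (0 : ℝ) 1
    · rw [← nonpos_iff_eq_zero]
      apply le_of_forall_pos_le_add
      intro ε hε
      rw [zero_add]
      by_cases hεt : ε = ⊤
      · rw [hεt]; exact le_top
      have hε' : 0 < ε.toReal := ENNReal.toReal_pos hε.ne' hεt
      obtain ⟨k, hk⟩ := exists_pow_lt_of_lt_one (show (0:ℝ) < ε.toReal / 8 by positivity)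
        (show (1/2 : ℝ) < 1 by norm_num)
      obtain ⟨n, hn, hxn⟩ := xs_dense x hx (ε.toReal / 8) (by positivity) k
      calc volume (Prod.mk x ⁻¹' ⋂ n, TT n) ≤ volume (Prod.mk x ⁻¹' TT n) :=
            measure_mono (Set.preimage_mono (Set.iInter_subset _ n))
        _ ≤ ENNReal.ofReal (4 * (|x - xs n| + 1 / 2 ^ n)) := slice x hx n
        _ ≤ ENNReal.ofReal ε.toReal := by
            apply ENNReal.ofReal_le_ofReal
            have h1 : (1 / 2 ^ n : ℝ) ≤ (1 / 2) ^ k := by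
              rw [one_div_pow]
              apply one_div_le_one_div_of_le (by positivity)
              exact pow_le_pow_right₀ (by norm_num) hn
            linarith
        _ = ε := ENNReal.ofReal_toReal hεt
    · have : Prod.mk x ⁻¹' ⋂ n, TT n = ∅ := by
        ext y
        simp only [Set.mem_preimage, Set.mem_iInter, Set.mem_empty_iff_false, iff_false, not_forall]
        refine ⟨0, fun h0 => ?_⟩
        simp only [TT, Set.mem_iUnion] at h0
        obtain ⟨j, hj, hx', hy⟩ := h0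
        exact hx hx'
      rw [this, measure_empty]
  · intro a ha
    obtain ⟨b, hb⟩ := hTT a ha
    exact ⟨b, fun x hx => Set.mem_iInter.mpr (fun n => hb x hx n)⟩

end Pool.Agent.H9.Strip
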