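import Mathlib

set_option autoImplicit false

namespace Pool.Agent.H9.Strip

open MeasureTheory

theorem strips_null (K : ℕ → ℕ) (c : ℕ → ℕ → ℝ → ℝ) (hc : ∀ n k, Continuous (c n k))
    (r : ℕ → ℝ → ℝ) (hr : ∀ n, Continuous (r n))
    (h0 : ∀ x ∈ Set.Icc (0 : ℝ) 1, ∀ ε > 0, ∃ n, (K n : ℝ) * r n x < ε) :
    volume {z : ℝ × ℝ | z.1 ∈ Set.Icc (0 : ℝ) 1 ∧ ∀ n, ∃ k < K n, |z.2 - c n k z.1| ≤ r n z.1}
      = 0 := by
  have hclosed : IsClosed {z : ℝ × ℝ | z.1 ∈ Set.Icc (0 : ℝ) 1 ∧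
      ∀ n, ∃ k < K n, |z.2 - c n k z.1| ≤ r n z.1} := by
    have e : {z : ℝ × ℝ | z.1 ∈ Set.Icc (0 : ℝ) 1 ∧
        ∀ n, ∃ k < K n, |z.2 - c n k z.1| ≤ r n z.1} =
        (Prod.fst ⁻¹' Set.Icc (0 : ℝ) 1) ∩
          ⋂ n, ⋃ k ∈ Finset.range (K n), {z : ℝ × ℝ | |z.2 - c n k z.1| ≤ r n z.1} := by
      ext z
      simp only [Set.mem_inter_iff, Set.mem_iInter, Set.mem_iUnion, Finset.mem_range,
        Set.mem_preimage, exists_prop]
      rfl
    rw [e]
    refine (isClosed_Icc.preimage continuous_fst).inter (isClosed_iInter fun n => ?_)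
    refine isClosed_biUnion_finset fun k _ => ?_
    exact isClosed_le ((continuous_snd.sub ((hc n k).comp continuous_fst)).abs)
      ((hr n).comp continuous_fst)
  rw [Measure.volume_eq_prod, Measure.prod_apply hclosed.measurableSet]
  refine (lintegral_congr fun x => ?_).trans lintegral_zero
  by_cases hx : x ∈ Set.Icc (0 : ℝ) 1
  · refine le_antisymm ?_ bot_le
    refine ENNReal.le_of_forall_pos_le_add fun ε hε _ => ?_
    obtain ⟨n, hn⟩ := h0 x hx (ε / 2) (by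
      have : (0 : ℝ) < ε := hε
      positivity)
    rw [zero_add]
    have hsub : Prod.mk x ⁻¹' {z : ℝ × ℝ | z.1 ∈ Set.Icc (0 : ℝ) 1 ∧
        ∀ n, ∃ k < K n, |z.2 - c n k z.1| ≤ r n z.1} ⊆
        ⋃ k ∈ Finset.range (K n), Metric.closedBall (c n k x) (r n x) := by
      rintro y ⟨-, hy⟩
      obtain ⟨k, hk, hky⟩ := hy n
      rw [Set.mem_iUnion₂]
      exact ⟨k, Finset.mem_range.2 hk, by rw [Metric.mem_closedBall, Real.dist_eq]; exact hky⟩
    calc volume (Prod.mk x ⁻¹' {z : ℝ × ℝ | z.1 ∈ Set.Icc (0 : ℝ) 1 ∧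
        ∀ n, ∃ k < K n, |z.2 - c n k z.1| ≤ r n z.1})
        ≤ volume (⋃ k ∈ Finset.range (K n), Metric.closedBall (c n k x) (r n x)) :=
          measure_mono hsub
      _ ≤ ∑ k ∈ Finset.range (K n), volume (Metric.closedBall (c n k x) (r n x)) :=
          measure_biUnion_finset_le _ _
      _ = (K n : ENNReal) * ENNReal.ofReal (2 * r n x) := by
          rw [Finset.sum_congr rfl fun k _ => Real.volume_closedBall (c n k x) (r n x),
            Finset.sum_const, Finset.card_range, nsmul_eq_mul]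
      _ = ENNReal.ofReal (2 * (K n * r n x)) := by
          rw [← ENNReal.ofReal_natCast, ← ENNReal.ofReal_mul (Nat.cast_nonneg _)]
          congr 1
          ring
      _ ≤ ENNReal.ofReal ε := ENNReal.ofReal_le_ofReal (by linarith)
      _ = ε := ENNReal.ofReal_coe_nnreal
  · have : Prod.mk x ⁻¹' {z : ℝ × ℝ | z.1 ∈ Set.Icc (0 : ℝ) 1 ∧
        ∀ n, ∃ k < K n, |z.2 - c n k z.1| ≤ r n z.1} = ∅ := by
      ext y
      simp only [Set.mem_empty_iff_false, iff_false]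
      exact fun h => hx h.1
    rw [this, measure_empty]

end Pool.Agent.H9.Strip
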