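import Mathlib

/-! Definitions for MP_6b55e5_an: Besicovitch sets and coverings by strips. The plane is `ℝ × ℝ`
with coordinates, all Euclidean notions are written out. -/

set_option autoImplicit false

namespace Pool.Agent.H9.Strip

open MeasureTheory

/-- A Besicovitch set: bounded, of two-dimensional Lebesgue measure zero, and containing a closed
segment of length one in every direction `(p, q)`, `p² + q² = 1`. -/
def IsBesicovitch (E : Set (ℝ × ℝ)) : Prop :=
  Bornology.IsBounded E ∧ volume E = 0 ∧
    ∀ p q : ℝ, p ^ 2 + q ^ 2 = 1 → ∃ x y : ℝ, ∀ t ∈ Set.Icc (0 : ℝ) 1, (x + t * p, y + t * q) ∈ E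

/-- The closed strip of width `w` with unit normal vector `(p, q)`. -/
def strip (p q c w : ℝ) : Set (ℝ × ℝ) := {z | |p * z.1 + q * z.2 - c| ≤ w / 2}

/-- The strips with unit normals `(p i, q i)`, positions `c i` and widths `w i`, `i` in a finite or
countably infinite index set, cover `E`. -/
structure IsStripCover (E : Set (ℝ × ℝ)) {ι : Type} (p q c w : ι → ℝ) : Prop where
  countable : Countable ι
  unit : ∀ i, p i ^ 2 + q i ^ 2 = 1
  width : ∀ i, 0 < w i
  cover : E ⊆ ⋃ i, strip (p i) (q i) (c i) (w i)

end Pool.Agent.H9.Strip
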