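import Mathlib
import Pool.Agent.H9.StripDefs

set_option autoImplicit false

namespace Pool.Agent.H9.Strip

open MeasureTheory

theorem exists_besicovitch (h : ∃ E : Set (ℝ × ℝ), Bornology.IsBounded E ∧ volume E = 0 ∧
    ∀ a ∈ Set.Icc (0 : ℝ) 1, ∃ b : ℝ, ∀ x ∈ Set.Icc (0 : ℝ) 1, (x, a * x + b) ∈ E) :
    ∃ E, IsBesicovitch E := by
  obtain ⟨E, hbd, hvol, hE⟩ := h
  have hneg : MeasurePreserving (fun z : ℝ × ℝ => (z.1, -z.2)) volume volume := by
    have := (MeasurePreserving.id (volume : Measure ℝ)).prod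
      (Measure.measurePreserving_neg (volume : Measure ℝ))
    exact this
  have hswap : MeasurePreserving (Prod.swap : ℝ × ℝ → ℝ × ℝ) volume volume :=
    Measure.measurePreserving_swap
  set F : Set (ℝ × ℝ) := E ∪ (fun z : ℝ × ℝ => (z.1, -z.2)) ⁻¹' E with hF
  have hFvol : volume F = 0 :=
    measure_union_null hvol (hneg.quasiMeasurePreserving.preimage_null hvol)
  -- segments in `E`
  have s1 : ∀ p q : ℝ, p ^ 2 + q ^ 2 = 1 → 0 ≤ q → q ≤ p →
      ∃ x y : ℝ, ∀ t ∈ Set.Icc (0 : ℝ) 1, (x + t * p, y + t * q) ∈ E := by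
    intro p q hpq hq0 hqp
    have hp0 : 0 < p := by
      rcases (hq0.trans hqp).lt_or_eq with h | h
      · exact h
      · exfalso
        rw [← h] at hqp hpq
        have : q = 0 := le_antisymm hqp hq0
        rw [this] at hpq
        norm_num at hpq
    have hp1 : p ≤ 1 := by nlinarith [sq_nonneg q]
    obtain ⟨b, hb⟩ := hE (q / p) ⟨by positivity, (div_le_one hp0).2 hqp⟩
    refine ⟨0, b, fun t ht => ?_⟩
    have h1 := hb (t * p) ⟨mul_nonneg ht.1 hp0.le, mul_le_one₀ ht.2 hp0.le hp1⟩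
    have h2 : q / p * (t * p) + b = b + t * q := by
      field_simp
      ring
    rw [h2] at h1
    rw [zero_add]
    exact h1
  -- segments in `F` for `|q| ≤ p`
  have s2 : ∀ p q : ℝ, p ^ 2 + q ^ 2 = 1 → |q| ≤ p →
      ∃ x y : ℝ, ∀ t ∈ Set.Icc (0 : ℝ) 1, (x + t * p, y + t * q) ∈ F := by
    intro p q hpq hqp
    rcases le_total 0 q with hq | hq
    · rw [abs_of_nonneg hq] at hqp
      obtain ⟨x, y, hxy⟩ := s1 p q hpq hq hqp
      exact ⟨x, y, fun t ht => Or.inl (hxy t ht)⟩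
    · rw [abs_of_nonpos hq] at hqp
      obtain ⟨x, y, hxy⟩ := s1 p (-q) (by rw [neg_sq]; exact hpq) (by linarith) hqp
      refine ⟨x, -y, fun t ht => Or.inr ?_⟩
      have h1 := hxy t ht
      have h2 : y + t * -q = -(-y + t * q) := by ring
      rw [h2] at h1
      exact h1
  -- segments in `F` for `|q| ≤ |p|`
  have s3 : ∀ p q : ℝ, p ^ 2 + q ^ 2 = 1 → |q| ≤ |p| →
      ∃ x y : ℝ, ∀ t ∈ Set.Icc (0 : ℝ) 1, (x + t * p, y + t * q) ∈ F := by
    intro p q hpq hqp
    rcases le_total 0 p with hp | hp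
    · exact s2 p q hpq (by rwa [abs_of_nonneg hp] at hqp)
    · rw [abs_of_nonpos hp] at hqp
      obtain ⟨x, y, hxy⟩ := s2 (-p) (-q) (by rw [neg_sq, neg_sq]; exact hpq) (by rwa [abs_neg])
      refine ⟨x - p, y - q, fun t ht => ?_⟩
      have h1 := hxy (1 - t) ⟨by linarith [ht.2], by linarith [ht.1]⟩
      have h2 : x + (1 - t) * -p = x - p + t * p := by ring
      have h3 : y + (1 - t) * -q = y - q + t * q := by ring
      rw [h2, h3] at h1
      exact h1
  refine ⟨F ∪ Prod.swap ⁻¹' F, ?_, ?_, ?_⟩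
  · rw [isBounded_iff_forall_norm_le] at hbd ⊢
    obtain ⟨C, hC⟩ := hbd
    have hFC : ∀ z ∈ F, ‖z‖ ≤ C := by
      rintro z (hz | hz)
      · exact hC z hz
      · have h1 : ‖((z.1, -z.2) : ℝ × ℝ)‖ ≤ C := hC _ hz
        rw [Prod.norm_def, norm_neg] at h1
        rw [Prod.norm_def]
        exact h1
    refine ⟨C, ?_⟩
    rintro z (hz | hz)
    · exact hFC z hz
    · have := hFC _ hz
      rwa [Prod.norm_def, Prod.fst_swap, Prod.snd_swap, max_comm, ← Prod.norm_def] at this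
  · exact measure_union_null hFvol (hswap.quasiMeasurePreserving.preimage_null hFvol)
  · intro p q hpq
    rcases le_total |q| |p| with h | h
    · obtain ⟨x, y, hxy⟩ := s3 p q hpq h
      exact ⟨x, y, fun t ht => Or.inl (hxy t ht)⟩
    · obtain ⟨x, y, hxy⟩ := s3 q p (by rw [add_comm]; exact hpq) h
      exact ⟨y, x, fun t ht => Or.inr (hxy t ht)⟩

end Pool.Agent.H9.Strip
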