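import Pool.Agent.H9.StripZ

set_option autoImplicit false

namespace Pool.Agent.H9.Strip

open MeasureTheory Filter Topology Set

/-- parameter set of the part of `ZZ` in a strip, at height parameter `s` -/
def sl (p q c w s : ℝ) : Set ℝ :=
  {x | x ∈ Icc (-1:ℝ) 1 ∧ |p * x + q * (x ^ 2 + ph s) - c| ≤ w / 2}

theorem sl_steep {p q : ℝ} (h : p ^ 2 + q ^ 2 = 1) (hs : 3 * |q| ≤ |p|) (c w s : ℝ) (hw : 0 < w) :
    volume (sl p q c w s) ≤ ENNReal.ofReal (4 * w) := by
  have hp : 9 / 10 ≤ |p| := by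
    have h1 : p ^ 2 = |p| ^ 2 := (sq_abs p).symm
    have h2 : q ^ 2 = |q| ^ 2 := (sq_abs q).symm
    have h3 := abs_nonneg q
    have h4 := abs_nonneg p
    rw [h1, h2] at h
    by_contra hc
    push Not at hc
    nlinarith
  have hd : ∀ x ∈ sl p q c w s, ∀ y ∈ sl p q c w s, |x - y| ≤ 4 * w := by
    rintro x ⟨⟨hx1, hx2⟩, hx⟩ y ⟨⟨hy1, hy2⟩, hy⟩
    have h1 : |(x - y) * (p + q * (x + y))| ≤ w := by
      have e : (x - y) * (p + q * (x + y)) = (p * x + q * (x ^ 2 + ph s) - c)
          - (p * y + q * (y ^ 2 + ph s) - c) := by ring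
      rw [e]
      refine (abs_sub _ _).trans ?_
      linarith
    have h2 : 3 / 10 ≤ |p + q * (x + y)| := by
      have h3 : |q * (x + y)| ≤ |q| * 2 := by
        rw [abs_mul]
        refine mul_le_mul_of_nonneg_left ?_ (abs_nonneg _)
        rw [abs_le]; constructor <;> linarith
      have h4 : |p| - |q * (x + y)| ≤ |p + q * (x + y)| := by
        have := abs_sub_abs_le_abs_sub p (-(q * (x + y)))
        rwa [abs_neg, sub_neg_eq_add] at this
      have h5 := abs_nonneg q
      linarith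
    rw [abs_mul] at h1
    have h6 := abs_nonneg (x - y)
    nlinarith
  rcases (sl p q c w s).eq_empty_or_nonempty with he | ⟨x0, hx0⟩
  · rw [he]; simp
  refine (Real.volume_le_diam _).trans ?_
  refine EMetric.diam_le fun x hx y hy => ?_
  rw [edist_dist, Real.dist_eq]
  exact ENNReal.ofReal_le_ofReal (hd x hx y hy)

/-- the parabola slices -/
theorem par_slice (m R v : ℝ) (hv : 0 < v) (hR : 0 < R) :
    volume {x : ℝ | (x + m) ^ 2 ≤ R ∧ R - 2 * v ≤ (x + m) ^ 2} ≤
      ENNReal.ofReal (4 * v / Real.sqrt R) := by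
  set a := Real.sqrt R with ha
  set b := Real.sqrt (R - 2 * v) with hb
  have ha0 : 0 < a := Real.sqrt_pos.2 hR
  have hb0 : 0 ≤ b := Real.sqrt_nonneg _
  have ha2 : a ^ 2 = R := Real.sq_sqrt hR.le
  have hba : b ≤ a := Real.sqrt_le_sqrt (by linarith)
  have hkey : (a - b) * a ≤ 2 * v := by
    rcases le_total 0 (R - 2 * v) with h | h
    · have hb2 : b ^ 2 = R - 2 * v := Real.sq_sqrt h
      nlinarith
    · have : b = 0 := Real.sqrt_eq_zero_of_nonpos h
      rw [this]; nlinarith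
  have hsub : {x : ℝ | (x + m) ^ 2 ≤ R ∧ R - 2 * v ≤ (x + m) ^ 2} ⊆
      Icc (-m + b) (-m + a) ∪ Icc (-m - a) (-m - b) := by
    rintro x ⟨h1, h2⟩
    have h3 : |x + m| ≤ a := Real.abs_le_sqrt h1
    have h4 : b ≤ |x + m| := Real.sqrt_le_iff.2 ⟨abs_nonneg _, by rwa [sq_abs]⟩
    rcases le_total 0 (x + m) with h | h
    · rw [abs_of_nonneg h] at h3 h4
      left; constructor <;> linarith
    · rw [abs_of_nonpos h] at h3 h4
      right; constructor <;> linarith
  refine (measure_mono hsub).trans ((measure_union_le _ _).trans ?_)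
  rw [Real.volume_Icc, Real.volume_Icc, ← ENNReal.ofReal_add (by linarith) (by linarith)]
  refine ENNReal.ofReal_le_ofReal ?_
  rw [le_div_iff₀ ha0]
  nlinarith

theorem sl_flat {p q : ℝ} (hq : q ≠ 0) (c w s : ℝ) :
    sl p q c w s ⊆ {x : ℝ | (x + p / (2 * q)) ^ 2 ≤
        (w / (2 * |q|) + (p / (2 * q)) ^ 2 + c / q) - ph s ∧
      ((w / (2 * |q|) + (p / (2 * q)) ^ 2 + c / q) - ph s) - 2 * (w / (2 * |q|)) ≤
        (x + p / (2 * q)) ^ 2} := by
  rintro x ⟨-, hx⟩
  have h1 : |(x + p / (2 * q)) ^ 2 - (p / (2 * q)) ^ 2 + ph s - c / q| ≤ w / (2 * |q|) := by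
    have e : (x + p / (2 * q)) ^ 2 - (p / (2 * q)) ^ 2 + ph s - c / q
        = (p * x + q * (x ^ 2 + ph s) - c) / q := by
      field_simp
      ring
    rw [e, abs_div, div_le_div_iff₀ (abs_pos.2 hq) (by have := abs_pos.2 hq; positivity)]
    have := abs_pos.2 hq
    nlinarith
  obtain ⟨h2, h3⟩ := abs_le.1 h1
  constructor <;> linarith

theorem flat_bound {p q : ℝ} (hq : q ≠ 0) (c w : ℝ) (hw : 0 < w) :
    ∫⁻ s in Ico (0:ℝ) 1, volume (sl p q c w s) ≤ ENNReal.ofReal (18 * (w / (2 * |q|))) := by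
  set v := w / (2 * |q|) with hv
  have hv0 : 0 < v := by have := abs_pos.2 hq; positivity
  set m := p / (2 * q) with hm
  set τ := v + m ^ 2 + c / q with hτ
  have hsl : ∀ s, volume (sl p q c w s) ≤
      volume {x : ℝ | (x + m) ^ 2 ≤ τ - ph s ∧ (τ - ph s) - 2 * v ≤ (x + m) ^ 2} :=
    fun s => measure_mono (sl_flat hq c w s)
  have hzero : ∀ s, τ ≤ ph s → volume (sl p q c w s) = 0 := by
    intro s hs
    refine le_antisymm ((hsl s).trans ?_) bot_le
    have : {x : ℝ | (x + m) ^ 2 ≤ τ - ph s ∧ (τ - ph s) - 2 * v ≤ (x + m) ^ 2} ⊆ {-m} := by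
      rintro x ⟨h1, -⟩
      have h2 : (x + m) ^ 2 = 0 := le_antisymm (by linarith) (sq_nonneg _)
      have h3 : x + m = 0 := pow_eq_zero_iff (two_ne_zero) |>.1 h2
      simp only [mem_singleton_iff]
      linarith
    refine (measure_mono this).trans (le_of_eq ?_)
    simp
  set T := {s : ℝ | s ∈ Ico (0:ℝ) 1 ∧ ph s < τ} with hT
  rcases T.eq_empty_or_nonempty with he | hne
  · have : ∀ s ∈ Ico (0:ℝ) 1, volume (sl p q c w s) = 0 := by
      intro s hs
      refine hzero s ?_
      by_contra hc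
      have : s ∈ T := ⟨hs, not_le.1 hc⟩
      rw [he] at this
      exact this.elim
    rw [setLIntegral_congr_fun measurableSet_Ico this]
    simp
  have hTb : BddAbove T := ⟨1, fun s hs => hs.1.2.le⟩
  set s0 := sSup T with hs0
  have hs01 : s0 ≤ 1 := csSup_le hne fun s hs => hs.1.2.le
  -- pointwise bound on the dyadic shells
  have hshell : ∀ s ∈ Ico (0:ℝ) 1, ∀ j : ℕ, (1 / 2 : ℝ) ^ (j + 1) ≤ s0 - s →
      volume (sl p q c w s) ≤ ENNReal.ofReal (9 * v * (3 / 2) ^ j) := by
    intro s hs j hj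
    have hlt : s0 - (1 / 2 : ℝ) ^ (j + 2) < s0 := by
      have : (0:ℝ) < (1 / 2 : ℝ) ^ (j + 2) := by positivity
      linarith
    obtain ⟨s', hs', hs''⟩ := exists_lt_of_lt_csSup hne hlt
    have hg : (1 / 2 : ℝ) ^ (j + 2) ≤ s' - s := by
      have : (1 / 2 : ℝ) ^ (j + 1) = 2 * (1 / 2 : ℝ) ^ (j + 2) := by
        rw [pow_succ _ (j + 1)]; ring
      linarith
    have h1 := ph_gap (j + 2) hg
    have h2 : (4 / 9 : ℝ) ^ (j + 2) ≤ τ - ph s := by
      have := hs'.2
      linarith
    have hR : 0 < τ - ph s := lt_of_lt_of_le (by positivity) h2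
    refine (hsl s).trans ((par_slice m (τ - ph s) v hv0 hR).trans ?_)
    refine ENNReal.ofReal_le_ofReal ?_
    have h3 : (2 / 3 : ℝ) ^ (j + 2) ≤ Real.sqrt (τ - ph s) := by
      refine Real.le_sqrt_of_sq_le ?_
      rw [← pow_mul, mul_comm (j + 2) 2, pow_mul]
      norm_num
      exact h2
    have h4 : (0:ℝ) < (2 / 3 : ℝ) ^ (j + 2) := by positivity
    calc 4 * v / Real.sqrt (τ - ph s) ≤ 4 * v / (2 / 3 : ℝ) ^ (j + 2) :=
          div_le_div_of_nonneg_left (by positivity) h4 h3
      _ = 9 * v * (3 / 2) ^ j := by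
          rw [pow_add, div_eq_iff (by positivity)]
          have : (3 / 2 : ℝ) ^ j * (2 / 3) ^ j = 1 := by rw [← mul_pow]; norm_num
          linear_combination (-(4 * v)) * this
  -- cover
  have hcov : ∀ s ∈ Ico (0:ℝ) 1, s ≠ s0 → volume (sl p q c w s) ≤
      ∑' j : ℕ, (Icc (s0 - (1 / 2 : ℝ) ^ j) (s0 - (1 / 2 : ℝ) ^ (j + 1))).indicator
        (fun _ => ENNReal.ofReal (9 * v * (3 / 2) ^ j)) s := by
    intro s hs hne0
    rcases lt_or_ge s0 s with h | h
    · have : τ ≤ ph s := by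
        by_contra hc
        exact absurd (le_csSup hTb ⟨hs, not_le.1 hc⟩) (not_le.2 h)
      rw [hzero s this]
      exact bot_le
    · have hlt : 0 < s0 - s := by
        have := lt_of_le_of_ne h hne0
        linarith
      have hle : s0 - s ≤ 1 := by have := hs.1; linarith
      obtain ⟨j, hj1, hj2⟩ := exists_nat_pow_near_of_lt_one hlt hle
        (by norm_num : (0:ℝ) < 1 / 2) (by norm_num)
      refine le_trans ?_ (ENNReal.le_tsum j)
      rw [indicator_of_mem]
      · exact hshell s hs j hj1.le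
      · constructor <;> linarith
  calc ∫⁻ s in Ico (0:ℝ) 1, volume (sl p q c w s)
      ≤ ∫⁻ s in Ico (0:ℝ) 1, ∑' j : ℕ, (Icc (s0 - (1 / 2 : ℝ) ^ j)
          (s0 - (1 / 2 : ℝ) ^ (j + 1))).indicator
          (fun _ => ENNReal.ofReal (9 * v * (3 / 2) ^ j)) s := by
        refine lintegral_mono_ae ?_
        have h1 : ∀ᵐ s ∂(volume.restrict (Ico (0:ℝ) 1)), s ≠ s0 := by
          refine ae_restrict_of_ae ?_
          exact (measure_singleton s0 : volume {s0} = 0) |> fun h => by
            rw [ae_iff]; simpa using h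
        filter_upwards [h1, ae_restrict_mem measurableSet_Ico] with s h2 h3
        exact hcov s h3 h2
    _ ≤ ∫⁻ s, ∑' j : ℕ, (Icc (s0 - (1 / 2 : ℝ) ^ j) (s0 - (1 / 2 : ℝ) ^ (j + 1))).indicator
          (fun _ => ENNReal.ofReal (9 * v * (3 / 2) ^ j)) s :=
        setLIntegral_le_lintegral _ _
    _ = ∑' j : ℕ, ENNReal.ofReal (9 / 2 * v * (3 / 4) ^ j) := by
        rw [lintegral_tsum fun j => (measurable_const.indicator measurableSet_Icc).aemeasurable]
        refine tsum_congr fun j => ?_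
        rw [lintegral_indicator measurableSet_Icc, setLIntegral_const, Real.volume_Icc,
          ← ENNReal.ofReal_mul (by positivity)]
        congr 1
        have : s0 - (1 / 2 : ℝ) ^ (j + 1) - (s0 - (1 / 2) ^ j) = (1 / 2) ^ j / 2 := by
          rw [pow_succ]; ring
        rw [this]
        have : (3 / 4 : ℝ) ^ j = (3 / 2) ^ j * (1 / 2) ^ j := by rw [← mul_pow]; norm_num
        rw [this]
        ring
    _ = ENNReal.ofReal (18 * v) := by
        rw [← ENNReal.ofReal_tsum_of_nonneg (fun j => by positivity)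
          ((summable_geometric_of_lt_one (by norm_num) (by norm_num)).mul_left _)]
        congr 1
        rw [tsum_mul_left, tsum_geometric_of_lt_one (by norm_num) (by norm_num)]
        ring

theorem strip_bound {p q : ℝ} (h : p ^ 2 + q ^ 2 = 1) (c w : ℝ) (hw : 0 < w) :
    ∫⁻ s in Ico (0:ℝ) 1, volume (sl p q c w s) ≤ ENNReal.ofReal (30 * w) := by
  rcases le_or_gt (3 * |q|) |p| with hs | hs
  · calc ∫⁻ s in Ico (0:ℝ) 1, volume (sl p q c w s)
        ≤ ∫⁻ s in Ico (0:ℝ) 1, ENNReal.ofReal (4 * w) :=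
          lintegral_mono fun s => sl_steep h hs c w s hw
      _ = ENNReal.ofReal (4 * w) := by
          rw [setLIntegral_const, Real.volume_Ico]; simp
      _ ≤ ENNReal.ofReal (30 * w) := ENNReal.ofReal_le_ofReal (by linarith)
  · have hq0 : 3 / 10 ≤ |q| := by
      have h1 : p ^ 2 = |p| ^ 2 := (sq_abs p).symm
      have h2 : q ^ 2 = |q| ^ 2 := (sq_abs q).symm
      rw [h1, h2] at h
      have h3 := abs_nonneg q
      have h4 := abs_nonneg p
      by_contra hc
      push Not at hc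
      nlinarith
    have hq : q ≠ 0 := by
      intro h0
      rw [h0, abs_zero] at hq0
      norm_num at hq0
    refine (flat_bound hq c w hw).trans (ENNReal.ofReal_le_ofReal ?_)
    rw [← mul_div_assoc, div_le_iff₀ (by linarith)]
    nlinarith

/-- every covering of a set containing `ZZ` has total width at least `1/15` -/
theorem cover_bound {ι : Type} {E : Set (ℝ × ℝ)} (hE : ZZ ⊆ E) {p q c w : ι → ℝ}
    (h : IsStripCover E p q c w) : ENNReal.ofReal (1 / 15) ≤ ∑' i, ENNReal.ofReal (w i) := by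
  haveI := h.countable
  -- for each s the slices cover [-1,1]
  have h1 : ∀ s ∈ Ico (0:ℝ) 1, (2 : ENNReal) ≤ ∑' i, volume (sl (p i) (q i) (c i) (w i) s) := by
    intro s hs
    have hsub : Icc (-1:ℝ) 1 ⊆ ⋃ i, sl (p i) (q i) (c i) (w i) s := by
      intro x hx
      have hz : ((x, x ^ 2 + ph s) : ℝ × ℝ) ∈ ZZ := ⟨hx, s, hs, rfl⟩
      obtain ⟨i, hi⟩ := mem_iUnion.1 (h.cover (hE hz))
      exact mem_iUnion.2 ⟨i, hx, hi⟩
    have h2 := (measure_mono (μ := volume) hsub).trans (measure_iUnion_le _)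
    rw [Real.volume_Icc] at h2
    have : ENNReal.ofReal (1 - -1) = 2 := by norm_num
    rwa [this] at h2
  have h2 : (2 : ENNReal) ≤ ∑' i, ENNReal.ofReal (30 * w i) := by
    calc (2 : ENNReal) = ∫⁻ s in Ico (0:ℝ) 1, 2 := by
          rw [setLIntegral_const, Real.volume_Ico]; simp
      _ ≤ ∫⁻ s in Ico (0:ℝ) 1, ∑' i, volume (sl (p i) (q i) (c i) (w i) s) :=
          setLIntegral_mono' measurableSet_Ico h1
      _ = ∑' i, ∫⁻ s in Ico (0:ℝ) 1, volume (sl (p i) (q i) (c i) (w i) s) := by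
          refine lintegral_tsum fun i => ?_
          have hm : MeasurableSet {z : ℝ × ℝ | z.2 ∈ Icc (-1:ℝ) 1 ∧
              |p i * z.2 + q i * (z.2 ^ 2 + ph z.1) - c i| ≤ w i / 2} := by
            have h0 : Measurable (fun z : ℝ × ℝ => ph z.1) := ph_meas.comp measurable_fst
            have h0' : Measurable (fun z : ℝ × ℝ => z.2) := measurable_snd
            have e : Measurable (fun z : ℝ × ℝ => p i * z.2 + q i * (z.2 ^ 2 + ph z.1) - c i) :=
              ((h0'.const_mul _).add (((h0'.pow_const 2).add h0).const_mul _)).sub_const _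
            have e' : Measurable (fun z : ℝ × ℝ => |p i * z.2 + q i * (z.2 ^ 2 + ph z.1) - c i|) :=
              continuous_abs.measurable.comp e
            exact (h0' measurableSet_Icc).inter (measurableSet_le e' measurable_const)
          exact (measurable_measure_prodMk_left hm).aemeasurable
      _ ≤ ∑' i, ENNReal.ofReal (30 * w i) :=
          ENNReal.tsum_le_tsum fun i => strip_bound (h.unit i) (c i) (w i) (h.width i)
  have h3 : ∑' i, ENNReal.ofReal (30 * w i) = 30 * ∑' i, ENNReal.ofReal (w i) := by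
    rw [← ENNReal.tsum_mul_left]
    refine tsum_congr fun i => ?_
    rw [ENNReal.ofReal_mul (by norm_num)]
    norm_num
  rw [h3] at h2
  by_contra hc
  push Not at hc
  have h4 : 30 * ∑' i, ENNReal.ofReal (w i) < 30 * ENNReal.ofReal (1 / 15) :=
    ENNReal.mul_lt_mul_right (by norm_num) (by norm_num) hc
  have h5 : 30 * ENNReal.ofReal (1 / 15) = 2 := by
    rw [show (30 : ENNReal) = ENNReal.ofReal 30 by norm_num, ← ENNReal.ofReal_mul (by norm_num)]
    norm_num
  rw [h5] at h4
  exact absurd (h2.trans_lt h4) (lt_irrefl _)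

end Pool.Agent.H9.Strip
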