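import Pool.Agent.H9.StripC
import Pool.Agent.H9.StripB1
import Pool.Agent.H9.StripB2

set_option autoImplicit false

namespace Pool.Agent.H9.Strip

open MeasureTheory

theorem bes_union {E : Set (ℝ × ℝ)} (h : IsBesicovitch E) : IsBesicovitch (E ∪ ZZ) := by
  refine ⟨h.1.union ZZ_bdd, measure_union_null h.2.1 ZZ_null, fun p q hpq => ?_⟩
  obtain ⟨x, y, hxy⟩ := h.2.2 p q hpq
  exact ⟨x, y, fun t ht => Or.inl (hxy t ht)⟩

theorem q1 : ∃ E : Set (ℝ × ℝ), IsBesicovitch E ∧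
    ∀ (ι : Type) (p q c w : ι → ℝ), IsStripCover E p q c w →
      ENNReal.ofReal (1 / 15) ≤ ∑' i, ENNReal.ofReal (w i) := by
  obtain ⟨E, hE⟩ := exists_besicovitch exists_line_set
  exact ⟨E ∪ ZZ, bes_union hE, fun ι p q c w h => cover_bound (Set.subset_union_right) h⟩

end Pool.Agent.H9.Strip
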