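import Pool.Agent.H9.StripDefs

/-! Part S2 for MP_6b55e5_an: iterating the stage construction. -/

set_option autoImplicit false

namespace Pool.Agent.H9.Strip

open MeasureTheory Set Filter Topology

/-- number of cells -/
def cells (n : ℕ → ℕ) (k : ℕ) : ℕ := ∏ i ∈ Finset.range k, n i

/-- intercepts -/
noncomputable def icpt (n : ℕ → ℕ) (β : ℕ → ℕ → ℝ) : ℕ → ℕ → ℝ
  | 0, _ => 0
  | k + 1, J => icpt n β k (J / n k) + β k (J % n k) / cells n k

/-- lines -/
noncomputable def lin (n : ℕ → ℕ) (β : ℕ → ℕ → ℝ) (k j : ℕ) (x : ℝ) : ℝ :=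
  ((j : ℝ) / (cells n k : ℝ)) * x + icpt n β k j

theorem cells_succ (n : ℕ → ℕ) (k : ℕ) : cells n (k + 1) = cells n k * n k :=
  Finset.prod_range_succ _ _

theorem cells_pos (n : ℕ → ℕ) (hn : ∀ k, 2 ≤ n k) (k : ℕ) : 0 < cells n k :=
  Finset.prod_pos fun i _ => lt_of_lt_of_le (by norm_num) (hn i)

theorem cells_ge (n : ℕ → ℕ) (hn : ∀ k, 2 ≤ n k) (k : ℕ) : 2 ^ k ≤ cells n k := by
  induction k with
  | zero => simp [cells]
  | succ k ih =>
    rw [cells_succ, pow_succ]
    exact Nat.mul_le_mul ih (hn k)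

theorem lin_succ (n : ℕ → ℕ) (hn : ∀ k, 2 ≤ n k) (β : ℕ → ℕ → ℝ) (k J : ℕ) (x : ℝ) :
    lin n β (k + 1) J x = lin n β k (J / n k) x +
      (((J % n k : ℕ) : ℝ) / (n k : ℝ) * x + β k (J % n k)) / (cells n k : ℝ) := by
  have hM : (cells n k : ℝ) ≠ 0 := by exact_mod_cast (cells_pos n hn k).ne'
  have hN : (n k : ℝ) ≠ 0 := by
    have := hn k
    have : 0 < n k := by omega
    exact_mod_cast this.ne'
  have hJ : (J : ℝ) = (n k : ℝ) * ((J / n k : ℕ) : ℝ) + ((J % n k : ℕ) : ℝ) := by
    exact_mod_cast (Nat.div_add_mod J (n k)).symm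
  unfold lin
  rw [icpt, cells_succ, Nat.cast_mul, hJ]
  have e1 : (n k * (J / n k) + J % n k : ℕ) = J := Nat.div_add_mod J (n k)
  field_simp
  ring

theorem sum_div_aux {α : Type} (l : List α) (f : α → ℝ) (M : ℝ) :
    (l.map fun t => f t / M).sum = (l.map f).sum / M := by
  induction l with
  | nil => simp
  | cons a l ih => rw [List.map_cons, List.map_cons, List.sum_cons, List.sum_cons, ih, add_div]

theorem lines (h : ∀ ε : ℝ, 0 < ε → ∃ (N : ℕ) (β : ℕ → ℝ) (T : List (ℝ × ℝ × ℝ)), 2 ≤ N ∧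
      (∀ t ∈ T, 0 < t.2.2) ∧ (T.map (fun t => 2 * t.2.2)).sum ≤ ε ∧
      (∀ j < N, ∀ x ∈ Icc (0:ℝ) 1, |(j / N : ℝ) * x + β j| + 1 / (N:ℝ) ≤ 1) ∧
      (∀ j < N, ∀ x ∈ Icc (0:ℝ) 1, ∀ y : ℝ, |y - ((j / N : ℝ) * x + β j)| ≤ 1 / (N:ℝ) →
        ∃ t ∈ T, |y - (t.1 * x + t.2.1)| ≤ t.2.2)) :
    ∃ E : Set (ℝ × ℝ), Bornology.IsBounded E ∧ (∀ z ∈ E, z.1 ∈ Icc (0:ℝ) 1) ∧
      (∀ a ∈ Icc (0:ℝ) 1, ∃ b : ℝ, ∀ x ∈ Icc (0:ℝ) 1, (x, a * x + b) ∈ E) ∧
      ∀ ε : ℝ, 0 < ε → ∃ T : List (ℝ × ℝ × ℝ), (∀ t ∈ T, 0 < t.2.2) ∧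
        (T.map (fun t => 2 * t.2.2)).sum ≤ ε ∧
        ∀ z ∈ E, ∃ t ∈ T, |z.2 - (t.1 * z.1 + t.2.1)| ≤ t.2.2 := by
  choose n β T hn hT hsum hin hcov using
    fun k : ℕ => h (1 / ((k : ℝ) + 1)) (by positivity)
  have hMpos : ∀ k, (0 : ℝ) < (cells n k : ℝ) := fun k => by exact_mod_cast cells_pos n hn k
  have hMS : ∀ k, (cells n (k + 1) : ℝ) = (cells n k : ℝ) * (n k : ℝ) := fun k => by
    rw [cells_succ, Nat.cast_mul]
  have hnpos : ∀ k, (0 : ℝ) < (n k : ℝ) := fun k => by
    have := hn k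
    have : 0 < n k := by omega
    exact_mod_cast this
  have hM2 : ∀ k, 1 / (cells n k : ℝ) ≤ 1 * (1 / 2 : ℝ) ^ k := by
    intro k
    rw [one_mul, one_div_pow]
    refine one_div_le_one_div_of_le (by positivity) ?_
    exact_mod_cast cells_ge n hn k
  have hstep : ∀ k J, J < cells n (k + 1) → ∀ x ∈ Icc (0:ℝ) 1,
      |lin n β (k + 1) J x - lin n β k (J / n k) x| ≤
        1 / (cells n k : ℝ) - 1 / (cells n (k + 1) : ℝ) := by
    intro k J hJ x hx
    rw [lin_succ n hn, add_sub_cancel_left, abs_div, abs_of_pos (hMpos k)]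
    have hn0 : 0 < n k := lt_of_lt_of_le (by norm_num) (hn k)
    have h1 := hin k (J % n k) (Nat.mod_lt _ hn0) x hx
    have h2 : 1 / (cells n k : ℝ) - 1 / (cells n (k + 1) : ℝ) =
        (1 - 1 / (n k : ℝ)) / (cells n k : ℝ) := by
      rw [hMS]
      have := (hnpos k).ne'
      have := (hMpos k).ne'
      field_simp
    rw [h2]
    have h3 := hMpos k
    gcongr
    linarith
  refine ⟨{z | z.1 ∈ Icc (0:ℝ) 1 ∧ ∀ k, ∃ j < cells n k,
      |z.2 - lin n β k j z.1| ≤ 1 / (cells n k : ℝ)} ∪ {z | z.1 ∈ Icc (0:ℝ) 1 ∧ z.2 = z.1},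
      ?_, ?_, ?_, ?_⟩
  · refine ((isCompact_Icc (a := (0:ℝ)) (b := 1)).prod
      (isCompact_Icc (a := (-1:ℝ)) (b := 1))).isBounded.subset ?_
    rintro z (⟨hz1, hz2⟩ | ⟨hz1, hz2⟩)
    · obtain ⟨j, hj, hz⟩ := hz2 0
      have hj0 : j = 0 := by
        have : cells n 0 = 1 := by simp [cells]
        omega
      subst hj0
      simp only [lin, icpt, cells, Finset.range_zero, Finset.prod_empty, Nat.cast_zero,
        Nat.cast_one, zero_div, zero_mul, add_zero, sub_zero, div_one] at hz
      exact ⟨hz1, abs_le.1 hz⟩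
    · refine ⟨hz1, ?_⟩
      rw [hz2]
      exact ⟨by linarith [hz1.1], hz1.2⟩
  · rintro z (⟨hz1, _⟩ | ⟨hz1, _⟩) <;> exact hz1
  · intro a ha
    rcases eq_or_lt_of_le ha.2 with rfl | ha1
    · refine ⟨0, fun x hx => Or.inr ⟨hx, ?_⟩⟩
      simp
    · set J : ℕ → ℕ := fun k => ⌊a * (cells n k : ℝ)⌋₊ with hJdef
      have hJlt : ∀ k, J k < cells n k := by
        intro k
        rw [hJdef]
        refine (Nat.floor_lt (mul_nonneg ha.1 (hMpos k).le)).2 ?_
        have := hMpos k
        nlinarith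
      have hJdiv : ∀ k, J (k + 1) / n k = J k := by
        intro k
        rw [hJdef]
        simp only
        rw [← Nat.floor_div_natCast, hMS]
        congr 1
        have := (hnpos k).ne'
        field_simp
      have hJle : ∀ k, |a - (J k : ℝ) / (cells n k : ℝ)| ≤ 1 / (cells n k : ℝ) := by
        intro k
        have h1 := Nat.floor_le (mul_nonneg ha.1 (hMpos k).le)
        have h2 := Nat.lt_floor_add_one (a * (cells n k : ℝ))
        have h3 := hMpos k
        rw [abs_le]
        constructor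
        · have : (J k : ℝ) / (cells n k : ℝ) ≤ a := by
            rw [div_le_iff₀ h3]; exact h1
          have : 0 < 1 / (cells n k : ℝ) := by positivity
          linarith
        · have : a ≤ ((J k : ℝ) + 1) / (cells n k : ℝ) := by
            rw [le_div_iff₀ h3]; exact h2.le
          rw [add_div] at this
          linarith
      have hf : ∀ k, ∀ x ∈ Icc (0:ℝ) 1,
          |lin n β (k + 1) (J (k + 1)) x - lin n β k (J k) x| ≤
            1 / (cells n k : ℝ) - 1 / (cells n (k + 1) : ℝ) := by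
        intro k x hx
        have := hstep k (J (k + 1)) (hJlt (k + 1)) x hx
        rwa [hJdiv] at this
      have htel : ∀ x ∈ Icc (0:ℝ) 1, ∀ k m,
          |lin n β (k + m) (J (k + m)) x - lin n β k (J k) x| ≤
            1 / (cells n k : ℝ) - 1 / (cells n (k + m) : ℝ) := by
        intro x hx k m
        induction m with
        | zero => simp
        | succ m ih =>
          have h1 := hf (k + m) x hx
          have h2 := abs_sub_le (lin n β (k + m + 1) (J (k + m + 1)) x)
            (lin n β (k + m) (J (k + m)) x) (lin n β k (J k) x)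
          rw [← add_assoc]
          linarith
      have hcau : CauchySeq fun k => icpt n β k (J k) := by
        refine cauchySeq_of_le_geometric (1 / 2) 1 (by norm_num) fun k => ?_
        have h1 := hf k 0 ⟨le_rfl, zero_le_one⟩
        simp only [lin, mul_zero, zero_add] at h1
        rw [dist_comm, Real.dist_eq]
        have h2 := hM2 k
        have h3 : 0 < 1 / (cells n (k + 1) : ℝ) := by
          have := hMpos (k + 1)
          positivity
        linarith
      obtain ⟨b, hb⟩ := cauchySeq_tendsto_of_complete hcau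
      have hgeo : Tendsto (fun k : ℕ => 1 * (1 / 2 : ℝ) ^ k) atTop (𝓝 0) := by
        simpa using (tendsto_pow_atTop_nhds_zero_of_lt_one (by norm_num : (0:ℝ) ≤ 1 / 2)
          (by norm_num : (1 / 2 : ℝ) < 1)).const_mul 1
      have hslope : Tendsto (fun k => (J k : ℝ) / (cells n k : ℝ)) atTop (𝓝 a) := by
        rw [tendsto_iff_dist_tendsto_zero]
        refine squeeze_zero (fun _ => dist_nonneg) (fun k => ?_) hgeo
        rw [dist_comm, Real.dist_eq]
        exact (hJle k).trans (hM2 k)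
      refine ⟨b, fun x hx => Or.inl ⟨hx, fun k => ⟨J k, hJlt k, ?_⟩⟩⟩
      have hlim : Tendsto (fun m => |lin n β (m + k) (J (m + k)) x - lin n β k (J k) x|) atTop
          (𝓝 |a * x + b - lin n β k (J k) x|) := by
        have h1 : Tendsto (fun m => lin n β m (J m) x) atTop (𝓝 (a * x + b)) :=
          (hslope.mul_const x).add hb
        exact (((tendsto_add_atTop_iff_nat k).2 h1).sub_const _).abs
      refine le_of_tendsto' hlim fun m => ?_
      have h1 := htel x hx k m
      rw [add_comm k m] at h1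
      have h3 : 0 < 1 / (cells n (m + k) : ℝ) := by
        have := hMpos (m + k)
        positivity
      linarith
  · intro ε hε
    obtain ⟨k, hk⟩ := exists_nat_one_div_lt (half_pos hε)
    set M := cells n k with hM
    refine ⟨(List.range M).flatMap (fun j : ℕ => (T k).map fun t =>
      (t.1 / (M : ℝ) + (j : ℝ) / (M : ℝ), t.2.1 / (M : ℝ) + icpt n β k j, t.2.2 / (M : ℝ))) ++
        [((1 : ℝ), (0 : ℝ), ε / 4)], ?_, ?_, ?_⟩
    · intro t ht
      rw [List.mem_append, List.mem_flatMap, List.mem_singleton] at ht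
      rcases ht with ⟨j, _, hj⟩ | rfl
      · rw [List.mem_map] at hj
        obtain ⟨t', ht', rfl⟩ := hj
        exact div_pos (hT k t' ht') (hMpos k)
      · positivity
    · rw [List.map_append, List.sum_append, List.map_flatMap, List.flatMap, List.sum_flatten]
      have hone : ∀ j : ℕ, (((T k).map fun t =>
          ((t.1 / (M : ℝ) + (j : ℝ) / (M : ℝ), t.2.1 / (M : ℝ) + icpt n β k j,
            t.2.2 / (M : ℝ)) : ℝ × ℝ × ℝ)).map (fun t => 2 * t.2.2)).sum =
          ((T k).map (fun t => 2 * t.2.2)).sum / (M : ℝ) := by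
        intro j
        rw [List.map_map, ← sum_div_aux]
        congr 1
        refine List.map_congr_left fun t _ => ?_
        simp only [Function.comp_apply]
        ring
      rw [List.map_map]
      have hconst : ((List.range M).map (List.sum ∘ fun j : ℕ => (((T k).map fun t =>
          ((t.1 / (M : ℝ) + (j : ℝ) / (M : ℝ), t.2.1 / (M : ℝ) + icpt n β k j,
            t.2.2 / (M : ℝ)) : ℝ × ℝ × ℝ)).map (fun t => 2 * t.2.2)))).sum =
          ((T k).map (fun t => 2 * t.2.2)).sum := by
        have : ((List.range M).map (List.sum ∘ fun j : ℕ => (((T k).map fun t =>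
          ((t.1 / (M : ℝ) + (j : ℝ) / (M : ℝ), t.2.1 / (M : ℝ) + icpt n β k j,
            t.2.2 / (M : ℝ)) : ℝ × ℝ × ℝ)).map (fun t => 2 * t.2.2)))) =
            (List.range M).map (fun _ => ((T k).map (fun t => 2 * t.2.2)).sum / (M : ℝ)) := by
          refine List.map_congr_left fun j _ => ?_
          simp only [Function.comp_apply]
          exact hone j
        rw [this, List.map_const', List.sum_replicate, List.length_range, nsmul_eq_mul]
        have := (hMpos k).ne'
        rw [← hM] at this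
        field_simp
      rw [hconst]
      have h1 := hsum k
      simp only [List.map_cons, List.map_nil, List.sum_cons, List.sum_nil]
      linarith
    · rintro z (⟨hz1, hz2⟩ | ⟨hz1, hz2⟩)
      · obtain ⟨J, hJ, hz⟩ := hz2 (k + 1)
        have hn0 : 0 < n k := lt_of_lt_of_le (by norm_num) (hn k)
        have hjlt : J / n k < M := by
          rw [cells_succ] at hJ
          exact Nat.div_lt_of_lt_mul (by rwa [mul_comm] at hJ)
        have hMp := hMpos k
        rw [← hM] at hMp
        rw [lin_succ n hn] at hz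
        obtain ⟨t, ht, hty⟩ := hcov k (J % n k) (Nat.mod_lt _ hn0) z.1 hz1
          ((M : ℝ) * (z.2 - lin n β k (J / n k) z.1)) (by
            have e1 : (M : ℝ) * (z.2 - lin n β k (J / n k) z.1) -
                (((J % n k : ℕ) : ℝ) / (n k : ℝ) * z.1 + β k (J % n k)) =
                (M : ℝ) * (z.2 - (lin n β k (J / n k) z.1 +
                (((J % n k : ℕ) : ℝ) / (n k : ℝ) * z.1 + β k (J % n k)) / (cells n k : ℝ))) := by
              rw [← hM]
              field_simp
              ring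
            rw [e1, abs_mul, abs_of_pos hMp]
            calc (M : ℝ) * _ ≤ (M : ℝ) * (1 / (cells n (k + 1) : ℝ)) := by gcongr
              _ = 1 / (n k : ℝ) := by
                rw [hMS, ← hM]
                have := (hnpos k).ne'
                field_simp)
        refine ⟨(t.1 / (M : ℝ) + ((J / n k : ℕ) : ℝ) / (M : ℝ),
          t.2.1 / (M : ℝ) + icpt n β k (J / n k), t.2.2 / (M : ℝ)), ?_, ?_⟩
        · rw [List.mem_append, List.mem_flatMap]
          exact Or.inl ⟨J / n k, List.mem_range.2 hjlt, List.mem_map.2 ⟨t, ht, rfl⟩⟩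
        · have e2 : z.2 - ((t.1 / (M : ℝ) + ((J / n k : ℕ) : ℝ) / (M : ℝ)) * z.1 +
              (t.2.1 / (M : ℝ) + icpt n β k (J / n k))) =
              ((M : ℝ) * (z.2 - lin n β k (J / n k) z.1) - (t.1 * z.1 + t.2.1)) / (M : ℝ) := by
            unfold lin
            rw [← hM]
            field_simp
            ring
          simp only
          rw [e2, abs_div, abs_of_pos hMp]
          gcongr
      · refine ⟨((1 : ℝ), (0 : ℝ), ε / 4), ?_, ?_⟩
        · rw [List.mem_append]
          exact Or.inr (List.mem_singleton.2 rfl)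
        · simp only [one_mul, add_zero]
          rw [hz2, sub_self, abs_zero]
          positivity

end Pool.Agent.H9.Strip
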