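import Mathlib
import Pool.Agent.H9.StripDefs

set_option autoImplicit false

namespace Pool.Agent.H9.Strip

open MeasureTheory

/-- the symmetrised set -/
def symm (E : Set (ℝ × ℝ)) : Set (ℝ × ℝ) :=
  (E ∪ (fun z : ℝ × ℝ => (z.1, -z.2)) ⁻¹' E) ∪
    Prod.swap ⁻¹' (E ∪ (fun z : ℝ × ℝ => (z.1, -z.2)) ⁻¹' E)

theorem symm_besicovitch (E : Set (ℝ × ℝ)) (hbd : Bornology.IsBounded E) (hvol : volume E = 0)
    (hE : ∀ a ∈ Set.Icc (0 : ℝ) 1, ∃ b : ℝ, ∀ x ∈ Set.Icc (0 : ℝ) 1, (x, a * x + b) ∈ E) :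
    IsBesicovitch (symm E) := by
  have hneg : MeasurePreserving (fun z : ℝ × ℝ => (z.1, -z.2)) volume volume := by
    have := (MeasurePreserving.id (volume : Measure ℝ)).prod
      (Measure.measurePreserving_neg (volume : Measure ℝ))
    exact this
  have hswap : MeasurePreserving (Prod.swap : ℝ × ℝ → ℝ × ℝ) volume volume :=
    Measure.measurePreserving_swap
  rw [symm]
  set F : Set (ℝ × ℝ) := E ∪ (fun z : ℝ × ℝ => (z.1, -z.2)) ⁻¹' E with hF
  have hFvol : volume F = 0 :=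
    measure_union_null hvol (hneg.quasiMeasurePreserving.preimage_null hvol)
  have s1 : ∀ p q : ℝ, p ^ 2 + q ^ 2 = 1 → 0 ≤ q → q ≤ p →
      ∃ x y : ℝ, ∀ t ∈ Set.Icc (0 : ℝ) 1, (x + t * p, y + t * q) ∈ E := by
    intro p q hpq hq0 hqp
    have hp0 : 0 < p := by
      rcases (hq0.trans hqp).lt_or_eq with h | h
      · exact h
      · exfalso
        rw [← h] at hqp hpq
        have : q = 0 := le_antisymm hqp hq0
        rw [this] at hpq
        norm_num at hpq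
    have hp1 : p ≤ 1 := by nlinarith [sq_nonneg q]
    obtain ⟨b, hb⟩ := hE (q / p) ⟨by positivity, (div_le_one hp0).2 hqp⟩
    refine ⟨0, b, fun t ht => ?_⟩
    have h1 := hb (t * p) ⟨mul_nonneg ht.1 hp0.le, mul_le_one₀ ht.2 hp0.le hp1⟩
    have h2 : q / p * (t * p) + b = b + t * q := by
      field_simp
      ring
    rw [h2] at h1
    rw [zero_add]
    exact h1
  have s2 : ∀ p q : ℝ, p ^ 2 + q ^ 2 = 1 → |q| ≤ p →
      ∃ x y : ℝ, ∀ t ∈ Set.Icc (0 : ℝ) 1, (x + t * p, y + t * q) ∈ F := by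
    intro p q hpq hqp
    rcases le_total 0 q with hq | hq
    · rw [abs_of_nonneg hq] at hqp
      obtain ⟨x, y, hxy⟩ := s1 p q hpq hq hqp
      exact ⟨x, y, fun t ht => Or.inl (hxy t ht)⟩
    · rw [abs_of_nonpos hq] at hqp
      obtain ⟨x, y, hxy⟩ := s1 p (-q) (by rw [neg_sq]; exact hpq) (by linarith) hqp
      refine ⟨x, -y, fun t ht => Or.inr ?_⟩
      have h1 := hxy t ht
      have h2 : y + t * -q = -(-y + t * q) := by ring
      rw [h2] at h1
      exact h1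
  have s3 : ∀ p q : ℝ, p ^ 2 + q ^ 2 = 1 → |q| ≤ |p| →
      ∃ x y : ℝ, ∀ t ∈ Set.Icc (0 : ℝ) 1, (x + t * p, y + t * q) ∈ F := by
    intro p q hpq hqp
    rcases le_total 0 p with hp | hp
    · exact s2 p q hpq (by rwa [abs_of_nonneg hp] at hqp)
    · rw [abs_of_nonpos hp] at hqp
      obtain ⟨x, y, hxy⟩ := s2 (-p) (-q) (by rw [neg_sq, neg_sq]; exact hpq) (by rwa [abs_neg])
      refine ⟨x - p, y - q, fun t ht => ?_⟩
      have h1 := hxy (1 - t) ⟨by linarith [ht.2], by linarith [ht.1]⟩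
      have h2 : x + (1 - t) * -p = x - p + t * p := by ring
      have h3 : y + (1 - t) * -q = y - q + t * q := by ring
      rw [h2, h3] at h1
      exact h1
  refine ⟨?_, ?_, ?_⟩
  · rw [isBounded_iff_forall_norm_le] at hbd ⊢
    obtain ⟨C, hC⟩ := hbd
    have hFC : ∀ z ∈ F, ‖z‖ ≤ C := by
      rintro z (hz | hz)
      · exact hC z hz
      · have h1 : ‖((z.1, -z.2) : ℝ × ℝ)‖ ≤ C := hC _ hz
        rw [Prod.norm_def, norm_neg] at h1
        rw [Prod.norm_def]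
        exact h1
    refine ⟨C, ?_⟩
    rintro z (hz | hz)
    · exact hFC z hz
    · have := hFC _ hz
      rwa [Prod.norm_def, Prod.fst_swap, Prod.snd_swap, max_comm, ← Prod.norm_def] at this
  · exact measure_union_null hFvol (hswap.quasiMeasurePreserving.preimage_null hFvol)
  · intro p q hpq
    rcases le_total |q| |p| with h | h
    · obtain ⟨x, y, hxy⟩ := s3 p q hpq h
      exact ⟨x, y, fun t ht => Or.inl (hxy t ht)⟩
    · obtain ⟨x, y, hxy⟩ := s3 q p (by rw [add_comm]; exact hpq) h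
      exact ⟨y, x, fun t ht => Or.inr (hxy t ht)⟩

theorem band_volume (α β τ : ℝ) :
    volume {z : ℝ × ℝ | z.1 ∈ Set.Icc (0 : ℝ) 1 ∧ |z.2 - (α * z.1 + β)| ≤ τ} ≤
      ENNReal.ofReal (2 * τ) := by
  have hclosed : IsClosed {z : ℝ × ℝ | z.1 ∈ Set.Icc (0 : ℝ) 1 ∧ |z.2 - (α * z.1 + β)| ≤ τ} := by
    refine (isClosed_Icc.preimage continuous_fst).inter ?_
    have hc : Continuous fun z : ℝ × ℝ => |z.2 - (α * z.1 + β)| := by fun_prop
    exact isClosed_le hc continuous_const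
  rw [Measure.volume_eq_prod, Measure.prod_apply hclosed.measurableSet]
  calc ∫⁻ x, volume (Prod.mk x ⁻¹' {z : ℝ × ℝ | z.1 ∈ Set.Icc (0 : ℝ) 1 ∧
        |z.2 - (α * z.1 + β)| ≤ τ})
      ≤ ∫⁻ x, (Set.Icc (0 : ℝ) 1).indicator (fun _ => ENNReal.ofReal (2 * τ)) x := by
        refine lintegral_mono fun x => ?_
        by_cases hx : x ∈ Set.Icc (0 : ℝ) 1
        · rw [Set.indicator_of_mem hx, ← Real.volume_closedBall (α * x + β) τ]
          refine measure_mono ?_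
          rintro y ⟨-, hy⟩
          rw [Metric.mem_closedBall, Real.dist_eq]
          exact hy
        · rw [Set.indicator_of_notMem hx]
          have : Prod.mk x ⁻¹' {z : ℝ × ℝ | z.1 ∈ Set.Icc (0 : ℝ) 1 ∧
              |z.2 - (α * z.1 + β)| ≤ τ} = ∅ := by
            ext y
            simp only [Set.mem_empty_iff_false, iff_false]
            exact fun h => hx h.1
          rw [this, measure_empty]
    _ = ENNReal.ofReal (2 * τ) := by
        rw [lintegral_indicator measurableSet_Icc, setLIntegral_const, Real.volume_Icc]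
        norm_num

/-- PART S3 -/
theorem bes_S (h : ∃ E : Set (ℝ × ℝ), Bornology.IsBounded E ∧
      (∀ z ∈ E, z.1 ∈ Set.Icc (0 : ℝ) 1) ∧
      (∀ a ∈ Set.Icc (0 : ℝ) 1, ∃ b : ℝ, ∀ x ∈ Set.Icc (0 : ℝ) 1, (x, a * x + b) ∈ E) ∧
      ∀ ε : ℝ, 0 < ε → ∃ T : List (ℝ × ℝ × ℝ), (∀ t ∈ T, 0 < t.2.2) ∧
        (T.map (fun t => 2 * t.2.2)).sum ≤ ε ∧
        ∀ z ∈ E, ∃ t ∈ T, |z.2 - (t.1 * z.1 + t.2.1)| ≤ t.2.2) :
    ∃ E : Set (ℝ × ℝ), IsBesicovitch E ∧ ∀ ε : ℝ, 0 < ε →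
      ∃ (ι : Type) (p q c w : ι → ℝ), IsStripCover E p q c w ∧
        ∑' i, ENNReal.ofReal (w i) < ENNReal.ofReal ε := by
  classical
  obtain ⟨E, hbd, hx, hE, hT⟩ := h
  have hG : ∀ ε : ℝ, 0 < ε → ∃ (n : ℕ) (g : Fin n → ℝ × ℝ × ℝ), (∀ i, 0 < (g i).2.2) ∧
      ∑ i, 2 * (g i).2.2 ≤ ε ∧
      ∀ z ∈ E, ∃ i, |z.2 - ((g i).1 * z.1 + (g i).2.1)| ≤ (g i).2.2 := by
    intro ε hε
    obtain ⟨T, hT0, hTs, hTc⟩ := hT ε hε
    refine ⟨T.length, fun i => T[i.val], fun i => hT0 _ (List.getElem_mem i.isLt), ?_, ?_⟩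
    · have := Fin.sum_univ_fun_getElem T (fun t : ℝ × ℝ × ℝ => 2 * t.2.2)
      exact this.le.trans hTs
    · intro z hz
      obtain ⟨t, ht, htz⟩ := hTc z hz
      obtain ⟨i, hi, hti⟩ := List.getElem_of_mem ht
      refine ⟨⟨i, hi⟩, ?_⟩
      rw [← hti] at htz
      exact htz
  have hvol : volume E = 0 := by
    refine le_antisymm ?_ bot_le
    refine ENNReal.le_of_forall_pos_le_add fun ε hε _ => ?_
    rw [zero_add]
    obtain ⟨n, g, hg0, hgs, hgc⟩ := hG ε (by exact_mod_cast hε)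
    have hsub : E ⊆ ⋃ i : Fin n, {z : ℝ × ℝ | z.1 ∈ Set.Icc (0 : ℝ) 1 ∧
        |z.2 - ((g i).1 * z.1 + (g i).2.1)| ≤ (g i).2.2} := by
      intro z hz
      obtain ⟨i, hi⟩ := hgc z hz
      rw [Set.mem_iUnion]
      exact ⟨i, hx z hz, hi⟩
    calc volume E ≤ volume (⋃ i : Fin n, {z : ℝ × ℝ | z.1 ∈ Set.Icc (0 : ℝ) 1 ∧
          |z.2 - ((g i).1 * z.1 + (g i).2.1)| ≤ (g i).2.2}) := measure_mono hsub
      _ ≤ ∑ i : Fin n, volume {z : ℝ × ℝ | z.1 ∈ Set.Icc (0 : ℝ) 1 ∧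
          |z.2 - ((g i).1 * z.1 + (g i).2.1)| ≤ (g i).2.2} :=
          measure_iUnion_fintype_le _ _
      _ ≤ ∑ i : Fin n, ENNReal.ofReal (2 * (g i).2.2) :=
          Finset.sum_le_sum fun i _ => band_volume _ _ _
      _ = ENNReal.ofReal (∑ i : Fin n, 2 * (g i).2.2) := by
          rw [ENNReal.ofReal_sum_of_nonneg]
          intro i _
          have := hg0 i
          positivity
      _ ≤ ENNReal.ofReal ε := ENNReal.ofReal_le_ofReal hgs
      _ = ε := ENNReal.ofReal_coe_nnreal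
  refine ⟨symm E, symm_besicovitch E hbd hvol hE, fun ε hε => ?_⟩
  obtain ⟨n, g, hg0, hgs, hgc⟩ := hG (ε / 8) (by positivity)
  obtain ⟨s, hs⟩ : ∃ s : Fin n → ℝ, ∀ i, s i = Real.sqrt (1 + (g i).1 ^ 2) := ⟨_, fun _ => rfl⟩
  have hs0 : ∀ i, 0 < s i := fun i => by
    rw [hs]
    exact Real.sqrt_pos.2 (by positivity)
  have hs1 : ∀ i, 1 ≤ s i := fun i => by
    rw [hs, Real.one_le_sqrt]
    nlinarith [sq_nonneg (g i).1]
  have hs2 : ∀ i, s i ^ 2 = 1 + (g i).1 ^ 2 := fun i => by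
    rw [hs]
    exact Real.sq_sqrt (by positivity)
  refine ⟨Fin 4 × Fin n,
    fun k => (![-(g k.2).1, -(g k.2).1, 1, -1] : Fin 4 → ℝ) k.1 / s k.2,
    fun k => (![1, -1, -(g k.2).1, -(g k.2).1] : Fin 4 → ℝ) k.1 / s k.2,
    fun k => (g k.2).2.1 / s k.2, fun k => 2 * (g k.2).2.2 / s k.2, ?_, ?_⟩
  · refine ⟨inferInstance, ?_, ?_, ?_⟩
    · rintro ⟨k, i⟩
      have h1 := hs2 i
      have h2 := (hs0 i).ne'
      have h3 : ∀ a b : ℝ, a ^ 2 + b ^ 2 = s i ^ 2 → (a / s i) ^ 2 + (b / s i) ^ 2 = 1 := by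
        intro a b hab
        rw [div_pow, div_pow, ← add_div, hab]
        exact div_self (pow_ne_zero 2 h2)
      refine h3 _ _ ?_
      rw [h1]
      fin_cases k
      · show (-(g i).1) ^ 2 + (1 : ℝ) ^ 2 = _
        ring
      · show (-(g i).1) ^ 2 + (-1 : ℝ) ^ 2 = _
        ring
      · show (1 : ℝ) ^ 2 + (-(g i).1) ^ 2 = _
        ring
      · show (-1 : ℝ) ^ 2 + (-(g i).1) ^ 2 = _
        ring
    · rintro ⟨k, i⟩
      have := hs0 i
      have := hg0 i
      positivity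
    · have key : ∀ (i : Fin n) (a b u : ℝ) (z : ℝ × ℝ), |u| ≤ (g i).2.2 →
          u = a * z.1 + b * z.2 - (g i).2.1 →
          z ∈ strip (a / s i) (b / s i) ((g i).2.1 / s i) (2 * (g i).2.2 / s i) := by
        intro i a b u z hu he
        have h1 : a / s i * z.1 + b / s i * z.2 - (g i).2.1 / s i = u / s i := by
          rw [he]
          ring
        have h2 : |a / s i * z.1 + b / s i * z.2 - (g i).2.1 / s i| ≤
            2 * (g i).2.2 / s i / 2 := by
          rw [h1, abs_div, abs_of_pos (hs0 i)]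
          have : (2 * (g i).2.2 / s i) / 2 = (g i).2.2 / s i := by ring
          rw [this]
          exact div_le_div_of_nonneg_right hu (hs0 i).le
        exact h2
      rintro z ((hz | hz) | (hz | hz))
      · obtain ⟨i, hi⟩ := hgc z hz
        rw [Set.mem_iUnion]
        refine ⟨(0, i), ?_⟩
        exact key i (-(g i).1) 1 _ z hi (by ring)
      · obtain ⟨i, hi⟩ := hgc _ hz
        rw [Set.mem_iUnion]
        refine ⟨(1, i), ?_⟩
        exact key i (-(g i).1) (-1) _ z hi (by simp only; ring)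
      · obtain ⟨i, hi⟩ := hgc _ hz
        rw [Set.mem_iUnion]
        refine ⟨(2, i), ?_⟩
        exact key i 1 (-(g i).1) _ z hi (by simp only [Prod.fst_swap, Prod.snd_swap]; ring)
      · obtain ⟨i, hi⟩ := hgc _ hz
        rw [Set.mem_iUnion]
        refine ⟨(3, i), ?_⟩
        exact key i (-1) (-(g i).1) _ z hi (by simp only [Prod.fst_swap, Prod.snd_swap]; ring)
  · rw [tsum_fintype, Fintype.sum_prod_type]
    have h1 : ∑ i : Fin n, ENNReal.ofReal (2 * (g i).2.2 / s i) ≤ ENNReal.ofReal (ε / 8) := by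
      calc ∑ i : Fin n, ENNReal.ofReal (2 * (g i).2.2 / s i)
          ≤ ∑ i : Fin n, ENNReal.ofReal (2 * (g i).2.2) := by
            refine Finset.sum_le_sum fun i _ => ENNReal.ofReal_le_ofReal ?_
            have := hg0 i
            exact div_le_self (by positivity) (hs1 i)
        _ = ENNReal.ofReal (∑ i : Fin n, 2 * (g i).2.2) := by
            rw [ENNReal.ofReal_sum_of_nonneg]
            intro i _
            have := hg0 i
            positivity
        _ ≤ ENNReal.ofReal (ε / 8) := ENNReal.ofReal_le_ofReal hgs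
    calc ∑ k : Fin 4, ∑ i : Fin n, ENNReal.ofReal (2 * (g i).2.2 / s i)
        ≤ ∑ k : Fin 4, ENNReal.ofReal (ε / 8) := Finset.sum_le_sum fun k _ => h1
      _ = ENNReal.ofReal (ε / 2) := by
          rw [Finset.sum_const, Finset.card_univ, Fintype.card_fin, nsmul_eq_mul,
            ← ENNReal.ofReal_natCast, ← ENNReal.ofReal_mul (Nat.cast_nonneg _)]
          congr 1
          push_cast
          ring
      _ < ENNReal.ofReal ε := by
          rw [ENNReal.ofReal_lt_ofReal_iff hε]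
          linarith

end Pool.Agent.H9.Strip
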