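import Pool.Agent.H9.StripS1
import Pool.Agent.H9.StripS2
import Pool.Agent.H9.StripS3

set_option autoImplicit false

namespace Pool.Agent.H9.Strip

theorem q2 : ∃ E : Set (ℝ × ℝ), IsBesicovitch E ∧ ∀ ε : ℝ, 0 < ε →
    ∃ (ι : Type) (p q c w : ι → ℝ), IsStripCover E p q c w ∧
      ∑' i, ENNReal.ofReal (w i) < ENNReal.ofReal ε :=
  bes_S (lines stage)

end Pool.Agent.H9.Strip
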