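import Mathlib
import Pool.Agent.H9.StripDefs

set_option autoImplicit false

namespace Pool.Agent.H9.Strip

open Set

namespace S1

theorem cost_flat (g : ℕ → List (ℝ × ℝ × ℝ)) (f : ℝ × ℝ × ℝ → ℝ) (k : ℕ) :
    (((List.range k).flatMap g).map f).sum = ∑ i ∈ Finset.range k, ((g i).map f).sum := by
  induction k with
  | zero => simp
  | succ k ih =>
    rw [List.range_succ, List.flatMap_append, List.map_append, List.sum_append, ih,
      Finset.sum_range_succ]
    simp

theorem cost_scale (T : List (ℝ × ℝ × ℝ)) (m : ℝ) (u v : ℝ × ℝ × ℝ → ℝ) :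
    ((T.map (fun t => (u t, v t, t.2.2 / m))).map (fun t : ℝ × ℝ × ℝ => 2 * t.2.2)).sum =
      (T.map (fun t => 2 * t.2.2)).sum / m := by
  induction T with
  | nil => simp
  | cons a T ih =>
    simp only [List.map_cons, List.sum_cons] at ih ⊢
    rw [ih]
    ring

def Good (m n : ℕ) (x0 l A : ℝ) (β : ℕ → ℝ) (T : List (ℝ × ℝ × ℝ)) : Prop :=
  (∀ t ∈ T, 0 < t.2.2) ∧ (T.map (fun t => 2 * t.2.2)).sum ≤ A * (1 - x0) + 4 * l ∧
  ∀ j < m ^ (n + 1), 
    (∀ x ∈ Icc (0:ℝ) 1, |((j : ℝ) / ((m : ℝ) ^ (n + 1))) * x + β j| + 1 / ((m : ℝ) ^ (n + 1)) ≤ 1) ∧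
    (∀ x ∈ Icc (0:ℝ) 1, |((j : ℝ) / ((m : ℝ) ^ (n + 1))) * x + β j| + 1 / ((m : ℝ) ^ (n + 1)) ≤
      |x - x0| + 1 / m) ∧
    (∀ x ∈ Icc x0 1, ∀ y : ℝ, |y - (((j : ℝ) / ((m : ℝ) ^ (n + 1))) * x + β j)| ≤
      1 / ((m : ℝ) ^ (n + 1)) → ∃ t ∈ T, |y - (t.1 * x + t.2.1)| ≤ t.2.2)

theorem base (m n : ℕ) (x0 l A : ℝ) (hl0 : 0 < l) (hA : 0 < A) (hm : 2 ≤ m)
    (hml : 1 / (m : ℝ) ≤ l) (hx0 : x0 ∈ Icc (0:ℝ) 1) (hx : 1 - x0 ≤ l) :
    Good m n x0 l A (fun j => -((j : ℝ) / ((m : ℝ) ^ (n + 1))) * x0) [(0, 0, 2 * l)] := by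
  have hm0 : (0:ℝ) < m := by exact_mod_cast (by omega : 0 < m)
  have hm1 : (1:ℝ) ≤ m := by exact_mod_cast (by omega : 1 ≤ m)
  have hN0 : (0:ℝ) < (m : ℝ) ^ (n + 1) := by positivity
  have hNm : 1 / ((m : ℝ) ^ (n + 1)) ≤ 1 / m := by
    apply one_div_le_one_div_of_le hm0
    rw [pow_succ]
    have : (1:ℝ) ≤ (m:ℝ) ^ n := one_le_pow₀ hm1
    nlinarith
  refine ⟨?_, ?_, ?_⟩
  · intro t ht
    rw [List.mem_singleton] at ht
    subst ht
    show 0 < 2 * l
    linarith
  · simp only [List.map_cons, List.map_nil, List.sum_cons, List.sum_nil]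
    have : 0 ≤ A * (1 - x0) := mul_nonneg hA.le (by linarith [hx0.2])
    linarith
  · intro j hj
    have hj1 : (j : ℝ) + 1 ≤ (m : ℝ) ^ (n + 1) := by exact_mod_cast hj
    have hj0 : (0:ℝ) ≤ (j : ℝ) / ((m : ℝ) ^ (n + 1)) := by positivity
    have hj2 : (j : ℝ) / ((m : ℝ) ^ (n + 1)) + 1 / ((m : ℝ) ^ (n + 1)) ≤ 1 := by
      rw [← add_div, div_le_one hN0]
      exact hj1
    set s : ℝ := (j : ℝ) / ((m : ℝ) ^ (n + 1)) with hs
    set d : ℝ := 1 / ((m : ℝ) ^ (n + 1)) with hd
    have hd0 : 0 < d := by positivity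
    have hL : ∀ x : ℝ, s * x + -s * x0 = s * (x - x0) := fun x => by ring
    have hab : ∀ x : ℝ, |s * x + -s * x0| = s * |x - x0| := fun x => by
      rw [hL, abs_mul, abs_of_nonneg hj0]
    refine ⟨?_, ?_, ?_⟩
    · intro x hx'
      show |s * x + -s * x0| + d ≤ 1
      rw [hab]
      have : |x - x0| ≤ 1 := by
        rw [abs_le]; constructor <;> linarith [hx'.1, hx'.2, hx0.1, hx0.2]
      have := mul_le_mul_of_nonneg_left this hj0
      linarith
    · intro x hx'
      show |s * x + -s * x0| + d ≤ |x - x0| + 1 / m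
      rw [hab]
      have : s * |x - x0| ≤ 1 * |x - x0| := mul_le_mul_of_nonneg_right (by linarith) (abs_nonneg _)
      linarith
    · intro x hx' y hy
      change |y - (s * x + -s * x0)| ≤ d at hy
      refine ⟨(0, 0, 2 * l), List.mem_singleton.mpr rfl, ?_⟩
      show |y - (0 * x + 0)| ≤ 2 * l
      rw [hL] at hy
      have h1 : 0 ≤ s * (x - x0) := mul_nonneg hj0 (by linarith [hx'.1])
      have h2 : s * (x - x0) ≤ 1 * (x - x0) :=
        mul_le_mul_of_nonneg_right (by linarith) (by linarith [hx'.1])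
      rw [abs_le] at hy ⊢
      constructor <;> linarith [hx'.1, hx'.2, hy.1, hy.2]

theorem ind (m : ℕ) (l A : ℝ) (hl0 : 0 < l) (hl1 : l ≤ 1 / 8) (hA : 0 < A) (hm : 2 ≤ m)
    (hml : 1 / (m : ℝ) ≤ l) (hH : 4 ≤ A * ∑ i ∈ Finset.range m, 1 / ((i : ℝ) + 1)) (n : ℕ) :
    ∀ x0 ∈ Icc (0:ℝ) 1, 1 - x0 ≤ l + n * (l / m) → ∃ β T, Good m n x0 l A β T := by
  have hm0 : (0:ℝ) < m := by exact_mod_cast (by omega : 0 < m)
  have hm1 : (1:ℝ) ≤ m := by exact_mod_cast (by omega : 1 ≤ m)
  induction n with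
  | zero =>
    intro x0 hx0 h
    exact ⟨_, _, base m 0 x0 l A hl0 hA hm hml hx0 (by simpa using h)⟩
  | succ n ih =>
    intro x0 hx0 h
    by_cases hx : 1 - x0 ≤ l
    · exact ⟨_, _, base m (n + 1) x0 l A hl0 hA hm hml hx0 hx⟩
    push Not at hx
    have hli : ∀ i : ℕ, 0 < l / ((i : ℝ) + 1) ∧ l / ((i : ℝ) + 1) ≤ l := by
      intro i
      have hi : (1:ℝ) ≤ (i : ℝ) + 1 := by have : (0:ℝ) ≤ i := Nat.cast_nonneg i; linarith
      refine ⟨by positivity, ?_⟩
      rw [div_le_iff₀ (by linarith)]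
      nlinarith
    have hch : ∀ i : ℕ, ∃ β T, i < m → Good m n (x0 + l / ((i : ℝ) + 1)) l A β T := by
      intro i
      by_cases hi : i < m
      · have hi' : (i : ℝ) + 1 ≤ m := by exact_mod_cast hi
        have hlm : l / m ≤ l / ((i : ℝ) + 1) := by
          apply div_le_div_of_nonneg_left hl0.le _ hi'
          positivity
        obtain ⟨β, T, hg⟩ := ih (x0 + l / ((i : ℝ) + 1))
          ⟨by linarith [hx0.1, (hli i).1], by linarith [(hli i).2]⟩ (by
            push_cast at h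
            linarith)
        exact ⟨β, T, fun _ => hg⟩
      · exact ⟨fun _ => 0, [], fun h' => absurd h' hi⟩
    choose β' T' hg using hch
    set N' : ℕ := m ^ (n + 1) with hN'
    have hN'0 : 0 < N' := by positivity
    have hNr : ((m : ℝ) ^ (n + 1)) = (N' : ℝ) := by rw [hN']; push_cast; rfl
    have hN'r : (0:ℝ) < (N' : ℝ) := by exact_mod_cast hN'0
    have hNr2 : ((m : ℝ) ^ (n + 1 + 1)) = m * (N' : ℝ) := by rw [← hNr]; ring
    refine ⟨fun j => -((j / N' : ℕ) : ℝ) / m * x0 + (1 / m) * β' (j / N') (j % N'),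
      (0, 0, 2 * l / m) :: (List.range m).flatMap (fun i => (T' i).map
        (fun t => (t.1 / m + i / m, t.2.1 / m - i * x0 / m, t.2.2 / m))), ?_, ?_, ?_⟩
    · intro t ht
      rw [List.mem_cons] at ht
      rcases ht with rfl | ht
      · show 0 < 2 * l / m
        positivity
      · obtain ⟨i, hi, ht⟩ := List.mem_flatMap.mp ht
        obtain ⟨t', ht', rfl⟩ := List.mem_map.mp ht
        have := (hg i (List.mem_range.mp hi)).1 t' ht'
        show 0 < t'.2.2 / m
        positivity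
    · rw [List.map_cons, List.sum_cons, cost_flat]
      have h1 : ∀ i ∈ Finset.range m, (((T' i).map
          (fun t => ((t.1 / m + i / m, t.2.1 / m - i * x0 / m, t.2.2 / m) : ℝ × ℝ × ℝ))).map
          (fun t : ℝ × ℝ × ℝ => 2 * t.2.2)).sum ≤
          (A * (1 - x0) + 4 * l) / m - (A * l / m) * (1 / ((i : ℝ) + 1)) := by
        intro i hi
        rw [cost_scale]
        have := (hg i (Finset.mem_range.mp hi)).2.1
        rw [div_le_iff₀ hm0]
        refine this.trans (le_of_eq ?_)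
        have hi0 : ((i : ℝ) + 1) ≠ 0 := by positivity
        field_simp
        ring
      have h2 := Finset.sum_le_sum h1
      rw [Finset.sum_sub_distrib, Finset.sum_const, Finset.card_range, ← Finset.mul_sum,
        nsmul_eq_mul, mul_div_cancel₀ _ hm0.ne'] at h2
      have h3 : 2 * (2 * l / m) ≤ A * l / m * ∑ i ∈ Finset.range m, 1 / ((i : ℝ) + 1) := by
        have : A * l / m * ∑ i ∈ Finset.range m, 1 / ((i : ℝ) + 1) =
            (l / m) * (A * ∑ i ∈ Finset.range m, 1 / ((i : ℝ) + 1)) := by ring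
        rw [this]
        have h4 : (l / m) * 4 ≤ (l / m) * (A * ∑ i ∈ Finset.range m, 1 / ((i : ℝ) + 1)) :=
          mul_le_mul_of_nonneg_left hH (by positivity)
        refine le_trans (le_of_eq ?_) h4
        ring
      show 2 * (2 * l / m) + _ ≤ _
      linarith
    · intro j hj
      have hj' : j < N' * m := by rw [hN', ← pow_succ]; exact hj
      have him : j / N' < m := Nat.div_lt_of_lt_mul hj'
      have hjm : j % N' < N' := Nat.mod_lt _ hN'0
      have hjd : (j : ℝ) = N' * ((j / N' : ℕ) : ℝ) + ((j % N' : ℕ) : ℝ) := by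
        exact_mod_cast (Nat.div_add_mod j N').symm
      set i : ℕ := j / N' with hi
      set j' : ℕ := j % N' with hj'd
      obtain ⟨c1, c2, c3⟩ := (hg i him).2.2 j' hjm
      rw [hNr] at c1 c2 c3
      rw [hNr2]
      set xi : ℝ := x0 + l / ((i : ℝ) + 1) with hxi
      have hi1 : (i : ℝ) + 1 ≤ m := by exact_mod_cast him
      have hi0 : (0:ℝ) ≤ (i : ℝ) := Nat.cast_nonneg i
      have hLx : ∀ x : ℝ, (j : ℝ) / (m * (N' : ℝ)) * x + (-(i : ℝ) / m * x0 + (1 / m) * β' i j') =
          (i / m) * (x - x0) + (1 / m) * ((j' : ℝ) / N' * x + β' i j') := by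
        intro x
        rw [hjd]
        field_simp
        ring
      have hd : 1 / ((m : ℝ) * N') = (1 / m) * (1 / N') := by
        rw [one_div_mul_one_div]
      have him0 : (0:ℝ) ≤ (i : ℝ) / m := by positivity
      have h1m : (0:ℝ) < 1 / (m : ℝ) := by positivity
      have him2 : (i : ℝ) / m + 1 / m ≤ 1 := by
        rw [← add_div, div_le_one hm0]; exact hi1
      have habs : ∀ x : ℝ, |(j : ℝ) / (m * (N' : ℝ)) * x + (-(i : ℝ) / m * x0 + (1 / m) * β' i j')|
          + 1 / ((m : ℝ) * N') ≤ (i / m) * |x - x0| +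
            (1 / m) * (|(j' : ℝ) / N' * x + β' i j'| + 1 / N') := by
        intro x
        rw [hLx, hd]
        have e1 := abs_add_le ((i / m : ℝ) * (x - x0)) ((1 / m) * ((j' : ℝ) / N' * x + β' i j'))
        rw [abs_mul, abs_mul, abs_of_nonneg him0, abs_of_nonneg h1m.le] at e1
        linarith
      refine ⟨?_, ?_, ?_⟩
      · intro x hx'
        refine (habs x).trans ?_
        have e1 := c1 x hx'
        have e2 : |x - x0| ≤ 1 := by
          rw [abs_le]; constructor <;> linarith [hx'.1, hx'.2, hx0.1, hx0.2]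
        have e3 := mul_le_mul_of_nonneg_left e2 him0
        have e4 := mul_le_mul_of_nonneg_left e1 h1m.le
        linarith
      · intro x hx'
        refine (habs x).trans ?_
        have e1 := c2 x hx'
        have e2 : |x - xi| ≤ |x - x0| + l := by
          have e5 := abs_sub_le x x0 xi
          have e6 : |x0 - xi| = l / ((i : ℝ) + 1) := by
            rw [hxi, abs_sub_comm, add_sub_cancel_left, abs_of_pos (hli i).1]
          rw [e6] at e5
          linarith [(hli i).2]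
        have e4 : (1 / (m : ℝ)) * (|(j' : ℝ) / N' * x + β' i j'| + 1 / N') ≤
            (1 / m) * (|x - x0| + 1) := by
          apply mul_le_mul_of_nonneg_left _ h1m.le
          linarith
        have e7 : ((i : ℝ) / m + 1 / m) * |x - x0| ≤ 1 * |x - x0| :=
          mul_le_mul_of_nonneg_right him2 (abs_nonneg _)
        linarith
      · intro x hx' y hy
        change |y - ((j : ℝ) / (m * (N' : ℝ)) * x + (-(i : ℝ) / m * x0 + (1 / m) * β' i j'))| ≤
          1 / ((m : ℝ) * N') at hy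
        by_cases hxx : x < xi
        · refine ⟨(0, 0, 2 * l / m), List.mem_cons_self, ?_⟩
          show |y - (0 * x + 0)| ≤ 2 * l / m
          have hx01 : x ∈ Icc (0:ℝ) 1 := ⟨by linarith [hx'.1, hx0.1], hx'.2⟩
          have e1 := habs x
          have e2 := c2 x hx01
          have e3 : |x - x0| = x - x0 := abs_of_nonneg (by linarith [hx'.1])
          have e4 : |x - xi| = xi - x := by rw [abs_sub_comm]; exact abs_of_pos (by linarith)
          rw [e3] at e1
          rw [e4] at e2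
          have e5 : |y| ≤ |y - ((j : ℝ) / (m * (N' : ℝ)) * x + (-(i : ℝ) / m * x0 + (1 / m) * β' i j'))| +
              |(j : ℝ) / (m * (N' : ℝ)) * x + (-(i : ℝ) / m * x0 + (1 / m) * β' i j')| := by
            have := abs_add_le (y - ((j : ℝ) / (m * (N' : ℝ)) * x + (-(i : ℝ) / m * x0 + (1 / m) * β' i j')))
              ((j : ℝ) / (m * (N' : ℝ)) * x + (-(i : ℝ) / m * x0 + (1 / m) * β' i j'))
            rwa [sub_add_cancel] at this
          have e6 := mul_le_mul_of_nonneg_left e2 h1m.le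
          have e7 : x - x0 ≤ l / ((i : ℝ) + 1) := by
            have : x < x0 + l / ((i : ℝ) + 1) := hxx
            linarith
          have e8 : xi - x ≤ l / ((i : ℝ) + 1) := by
            have : xi = x0 + l / ((i : ℝ) + 1) := hxi
            linarith [hx'.1]
          have e9 : (i / m : ℝ) * (x - x0) + (1 / m) * (xi - x + 1 / m) ≤ 2 * l / m := by
            have f1 := mul_le_mul_of_nonneg_left e7 him0
            have f2 : (1 / (m : ℝ)) * (xi - x + 1 / m) ≤ (1 / m) * (l / ((i : ℝ) + 1) + l) :=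
              mul_le_mul_of_nonneg_left (by linarith) h1m.le
            have f3 : (i / m : ℝ) * (l / ((i : ℝ) + 1)) + (1 / m) * (l / ((i : ℝ) + 1) + l) =
                2 * l / m := by
              have : ((i : ℝ) + 1) ≠ 0 := by positivity
              field_simp
              ring
            linarith
          have e10 : y - (0 * x + 0) = y := by ring
          rw [e10]
          linarith
        · push Not at hxx
          have hxI : x ∈ Icc xi 1 := ⟨hxx, hx'.2⟩
          have hsc : ∀ a b : ℝ, |a - b| ≤ (1 / m) * (1 / N') → |m * a - m * b| ≤ 1 / N' := by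
            intro a b hab
            rw [← mul_sub, abs_mul, abs_of_pos hm0]
            have := mul_le_mul_of_nonneg_left hab hm0.le
            have e : (m : ℝ) * ((1 / m) * (1 / N')) = 1 / N' := by field_simp
            rwa [e] at this
          rw [hLx, hd] at hy
          obtain ⟨t, ht, htt⟩ := c3 x hxI (m * (y - (i / m) * (x - x0))) (by
            have h1 := hsc (y - (i / m) * (x - x0)) ((1 / m) * ((j' : ℝ) / N' * x + β' i j')) (by
              have e : y - (i / m : ℝ) * (x - x0) - (1 / m) * ((j' : ℝ) / N' * x + β' i j') =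
                y - ((i / m) * (x - x0) + (1 / m) * ((j' : ℝ) / N' * x + β' i j')) := by ring
              rw [e]; exact hy)
            have e : (m : ℝ) * ((1 / m) * ((j' : ℝ) / N' * x + β' i j')) =
              (j' : ℝ) / N' * x + β' i j' := by
              rw [← mul_assoc, mul_one_div_cancel hm0.ne', one_mul]
            rwa [e] at h1)
          refine ⟨(t.1 / m + i / m, t.2.1 / m - i * x0 / m, t.2.2 / m), ?_, ?_⟩
          · apply List.mem_cons_of_mem
            exact List.mem_flatMap.mpr ⟨i, List.mem_range.mpr him, List.mem_map.mpr ⟨t, ht, rfl⟩⟩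
          · show |y - ((t.1 / m + i / m) * x + (t.2.1 / m - i * x0 / m))| ≤ t.2.2 / m
            have e : y - ((t.1 / m + i / m) * x + (t.2.1 / m - i * x0 / m)) =
              (m * (y - (i / m) * (x - x0)) - (t.1 * x + t.2.1)) / m := by
              field_simp
              ring
            rw [e, abs_div, abs_of_pos hm0]
            exact div_le_div_of_nonneg_right htt hm0.le

end S1

open S1 in
/-- PART S1 -/
theorem stage (ε : ℝ) (hε : 0 < ε) : ∃ (N : ℕ) (β : ℕ → ℝ) (T : List (ℝ × ℝ × ℝ)), 2 ≤ N ∧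
    (∀ t ∈ T, 0 < t.2.2) ∧ (T.map (fun t => 2 * t.2.2)).sum ≤ ε ∧
    (∀ j < N, ∀ x ∈ Icc (0:ℝ) 1, |(j / N : ℝ) * x + β j| + 1 / (N:ℝ) ≤ 1) ∧
    (∀ j < N, ∀ x ∈ Icc (0:ℝ) 1, ∀ y : ℝ, |y - ((j / N : ℝ) * x + β j)| ≤ 1 / (N:ℝ) →
      ∃ t ∈ T, |y - (t.1 * x + t.2.1)| ≤ t.2.2) := by
  set e : ℝ := min ε 1 with he
  have he0 : 0 < e := lt_min hε one_pos
  have he1 : e ≤ 1 := min_le_right _ _
  have hee : e ≤ ε := min_le_left _ _
  set l : ℝ := e / 8 with hl
  set A : ℝ := e / 2 with hA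
  have hl0 : 0 < l := by positivity
  have hA0 : 0 < A := by positivity
  obtain ⟨m, hm2, hml, hH⟩ : ∃ m : ℕ, 2 ≤ m ∧ 1 / (m : ℝ) ≤ l ∧
      4 ≤ A * ∑ i ∈ Finset.range m, 1 / ((i : ℝ) + 1) := by
    have h1 := Real.tendsto_sum_range_one_div_nat_succ_atTop
    have h2 := h1.eventually_ge_atTop (4 / A)
    have h3 : ∀ᶠ m : ℕ in Filter.atTop, 2 ≤ m := Filter.eventually_ge_atTop 2
    have h4 : ∀ᶠ m : ℕ in Filter.atTop, 1 / (m : ℝ) ≤ l :=
      (tendsto_one_div_atTop_nhds_zero_nat.eventually_lt_const hl0).mono fun _ h => h.le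
    obtain ⟨m, a1, a2, a3⟩ := (h2.and (h3.and h4)).exists
    refine ⟨m, a2, a3, ?_⟩
    rw [div_le_iff₀ hA0] at a1
    linarith
  have hm0 : (0:ℝ) < m := by exact_mod_cast (by omega : 0 < m)
  obtain ⟨n, hn⟩ := exists_nat_gt (1 / (l / m))
  rw [div_lt_iff₀ (by positivity)] at hn
  obtain ⟨β, T, g1, g2, g3⟩ := ind m l A hl0 (by rw [hl]; linarith) hA0 hm2 hml hH n 0
    ⟨le_rfl, zero_le_one⟩ (by linarith)
  refine ⟨m ^ (n + 1), β, T, ?_, g1, ?_, ?_, ?_⟩
  · calc 2 ≤ m := hm2
      _ = m ^ 1 := (pow_one m).symm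
      _ ≤ m ^ (n + 1) := Nat.pow_le_pow_right (by omega) (by omega)
  · refine g2.trans ?_
    rw [hl, hA]
    linarith
  · intro j hj x hx
    have := (g3 j hj).1 x hx
    push_cast
    exact this
  · intro j hj x hx y hy
    push_cast at hy
    exact (g3 j hj).2.2 x hx y hy

end Pool.Agent.H9.Strip
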