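import Pool.Agent.H9.StripDefs

set_option autoImplicit false

namespace Pool.Agent.H9.Strip

open MeasureTheory Filter Topology Set

/-- the jump function -/
noncomputable def ph (s : ℝ) : ℝ := ∑' n : ℕ, (4 / 9 : ℝ) ^ n * (⌊2 ^ n * s⌋ : ℝ)

theorem ph_summ (s : ℝ) : Summable (fun n : ℕ => (4 / 9 : ℝ) ^ n * (⌊2 ^ n * s⌋ : ℝ)) := by
  have h1 : Summable (fun n : ℕ => (8 / 9 : ℝ) ^ n * |s| + (4 / 9 : ℝ) ^ n) :=
    ((summable_geometric_of_lt_one (by norm_num) (by norm_num)).mul_right _).add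
      (summable_geometric_of_lt_one (by norm_num) (by norm_num))
  refine Summable.of_norm_bounded h1 (fun n => ?_)
  rw [norm_mul, norm_pow, Real.norm_of_nonneg (by norm_num : (0:ℝ) ≤ 4 / 9), Real.norm_eq_abs]
  have h2 : |(⌊2 ^ n * s⌋ : ℝ)| ≤ 2 ^ n * |s| + 1 := by
    have a := Int.floor_le (2 ^ n * s)
    have b := Int.lt_floor_add_one (2 ^ n * s)
    have c : |2 ^ n * s| = 2 ^ n * |s| := by rw [abs_mul, abs_of_pos (by positivity)]
    have d := neg_abs_le (2 ^ n * s)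
    have e := le_abs_self (2 ^ n * s)
    rw [abs_le]
    constructor <;> linarith
  calc (4 / 9 : ℝ) ^ n * |(⌊2 ^ n * s⌋ : ℝ)| ≤ (4 / 9 : ℝ) ^ n * (2 ^ n * |s| + 1) :=
        mul_le_mul_of_nonneg_left h2 (by positivity)
    _ = (8 / 9 : ℝ) ^ n * |s| + (4 / 9 : ℝ) ^ n := by
        have : (8 / 9 : ℝ) ^ n = (4 / 9) ^ n * 2 ^ n := by rw [← mul_pow]; norm_num
        rw [this]; ring

theorem ph_gap {s s' : ℝ} (n : ℕ) (h : (1 / 2 : ℝ) ^ n ≤ s' - s) : (4 / 9 : ℝ) ^ n ≤ ph s' - ph s := by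
  have hss : s ≤ s' := by
    have : (0:ℝ) ≤ (1 / 2 : ℝ) ^ n := by positivity
    linarith
  unfold ph
  rw [← (ph_summ s').tsum_sub (ph_summ s)]
  have hs := (ph_summ s').sub (ph_summ s)
  refine le_trans ?_ (hs.le_tsum n (fun m _ => ?_))
  · have h2 : (⌊2 ^ n * s⌋ : ℝ) + 1 ≤ (⌊2 ^ n * s'⌋ : ℝ) := by
      have : ⌊2 ^ n * s⌋ + 1 ≤ ⌊2 ^ n * s'⌋ := by
        rw [← Int.floor_add_one]
        refine Int.floor_le_floor ?_
        have h3 : (2:ℝ) ^ n * (1 / 2) ^ n = 1 := by rw [← mul_pow]; norm_num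
        have h4 := mul_le_mul_of_nonneg_left h (by positivity : (0:ℝ) ≤ 2 ^ n)
        rw [h3] at h4
        linarith
      exact_mod_cast this
    have h5 : (0:ℝ) ≤ (4 / 9 : ℝ) ^ n := by positivity
    nlinarith
  · have h3 : (⌊2 ^ m * s⌋ : ℝ) ≤ (⌊2 ^ m * s'⌋ : ℝ) := by
      exact_mod_cast Int.floor_le_floor (mul_le_mul_of_nonneg_left hss (by positivity))
    have h5 : (0:ℝ) ≤ (4 / 9 : ℝ) ^ m := by positivity
    nlinarith

theorem ph_mono {s s' : ℝ} (h : s ≤ s') : ph s ≤ ph s' := by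
  unfold ph
  refine (ph_summ s).tsum_le_tsum (fun m => ?_) (ph_summ s')
  refine mul_le_mul_of_nonneg_left ?_ (by positivity)
  exact_mod_cast Int.floor_le_floor (mul_le_mul_of_nonneg_left h (by positivity))

theorem ph_meas : Measurable ph := by
  have : Monotone ph := fun _ _ h => ph_mono h
  exact this.measurable

theorem ph_cell (N k : ℕ) {s : ℝ} (h1 : (k:ℝ) / 2 ^ N ≤ s) (h2 : s < (k + 1 : ℝ) / 2 ^ N) :
    ph s ≤ ph ((k:ℝ) / 2 ^ N) + 9 * (4 / 9 : ℝ) ^ N := by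
  have hgeo : Summable (fun n : ℕ => (8 / 9 : ℝ) ^ n) :=
    summable_geometric_of_lt_one (by norm_num) (by norm_num)
  have hg9 : ∑' n : ℕ, (8 / 9 : ℝ) ^ n = 9 := by
    rw [tsum_geometric_of_lt_one (by norm_num) (by norm_num)]; norm_num
  unfold ph
  have hterm : ∀ n : ℕ, (4 / 9 : ℝ) ^ n * (⌊2 ^ n * s⌋ : ℝ)
      - (4 / 9 : ℝ) ^ n * (⌊2 ^ n * ((k:ℝ) / 2 ^ N)⌋ : ℝ)
      ≤ if N ≤ n then (4 / 9 : ℝ) ^ N * (8 / 9 : ℝ) ^ (n - N) else 0 := by
    intro n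
    split_ifs with hn
    · obtain ⟨m, rfl⟩ := Nat.exists_eq_add_of_le hn
      have e : (2:ℝ) ^ (N + m) * ((k:ℝ) / 2 ^ N) = ((k * 2 ^ m : ℤ) : ℝ) := by
        push_cast
        rw [pow_add]
        field_simp
      rw [e, Int.floor_intCast]
      have h3 : (⌊2 ^ (N + m) * s⌋ : ℝ) ≤ ((k * 2 ^ m : ℤ) : ℝ) + 2 ^ m := by
        refine (Int.floor_le _).trans ?_
        have h4 : (2:ℝ) ^ (N + m) * s ≤ 2 ^ (N + m) * ((k + 1 : ℝ) / 2 ^ N) :=
          mul_le_mul_of_nonneg_left h2.le (by positivity)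
        refine h4.trans (le_of_eq ?_)
        push_cast
        rw [pow_add]
        field_simp
      have h5 : (4 / 9 : ℝ) ^ N * (8 / 9 : ℝ) ^ (N + m - N) = (4 / 9 : ℝ) ^ (N + m) * 2 ^ m := by
        rw [Nat.add_sub_cancel_left, pow_add, mul_assoc, ← mul_pow]
        norm_num
      rw [h5]
      have h6 : (0:ℝ) ≤ (4 / 9 : ℝ) ^ (N + m) := by positivity
      nlinarith
    · have hn' : n < N := not_le.1 hn
      obtain ⟨m, rfl⟩ := Nat.exists_eq_add_of_lt hn'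
      have h3 : ⌊2 ^ n * s⌋ ≤ ⌊(2:ℝ) ^ n * ((k:ℝ) / 2 ^ (n + m + 1))⌋ := by
        have e1 : (2:ℝ) ^ n * ((k:ℝ) / 2 ^ (n + m + 1)) = (k:ℝ) / ((2 ^ (m + 1) : ℕ) : ℝ) := by
          push_cast
          rw [add_assoc, pow_add]
          field_simp
        have e2 : (2:ℝ) ^ n * s < ((k + 1 : ℕ) : ℝ) / ((2 ^ (m + 1) : ℕ) : ℝ) := by
          have : (2:ℝ) ^ n * s < 2 ^ n * ((k + 1 : ℝ) / 2 ^ (n + m + 1)) :=
            mul_lt_mul_of_pos_left h2 (by positivity)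
          refine this.trans_le (le_of_eq ?_)
          push_cast
          rw [add_assoc, pow_add]
          field_simp
        rw [e1]
        have e3 : ⌊(k:ℝ) / ((2 ^ (m + 1) : ℕ) : ℝ)⌋ = ((k / 2 ^ (m + 1) : ℕ) : ℤ) := by
          rw [← Nat.floor_div_eq_div (K := ℝ) k (2 ^ (m + 1))]
          exact (Int.natCast_floor_eq_floor (by positivity)).symm
        rw [e3]
        have hpos : (0:ℝ) < ((2 ^ (m + 1) : ℕ) : ℝ) := by positivity
        rw [Int.floor_le_iff]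
        refine e2.trans_le ?_
        rw [div_le_iff₀ hpos]
        have : k + 1 ≤ (k / 2 ^ (m + 1) + 1) * 2 ^ (m + 1) := by
          have h7 := Nat.div_add_mod k (2 ^ (m + 1))
          have h8 := Nat.mod_lt k (Nat.two_pow_pos (m + 1))
          nlinarith
        exact_mod_cast this
      have h4 : (⌊2 ^ n * s⌋ : ℝ) ≤ (⌊(2:ℝ) ^ n * ((k:ℝ) / 2 ^ (n + m + 1))⌋ : ℝ) := by
        exact_mod_cast h3
      have h6 : (0:ℝ) ≤ (4 / 9 : ℝ) ^ n := by positivity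
      nlinarith
  have hs1 := ph_summ s
  have hs2 := ph_summ ((k:ℝ) / 2 ^ N)
  have hs3 : Summable (fun n : ℕ => if N ≤ n then (4 / 9 : ℝ) ^ N * (8 / 9 : ℝ) ^ (n - N) else 0) := by
    rw [← summable_nat_add_iff N]
    have : (fun n : ℕ => if N ≤ n + N then (4 / 9 : ℝ) ^ N * (8 / 9 : ℝ) ^ (n + N - N) else 0)
        = fun n : ℕ => (4 / 9 : ℝ) ^ N * (8 / 9 : ℝ) ^ n := by
      funext n
      rw [if_pos (Nat.le_add_left N n), Nat.add_sub_cancel]
    rw [this]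
    exact hgeo.mul_left _
  have h4 := (hs1.sub hs2).tsum_le_tsum hterm hs3
  rw [hs1.tsum_sub hs2] at h4
  have h5 : ∑' n : ℕ, (if N ≤ n then (4 / 9 : ℝ) ^ N * (8 / 9 : ℝ) ^ (n - N) else 0)
      = 9 * (4 / 9 : ℝ) ^ N := by
    rw [← hs3.sum_add_tsum_nat_add N]
    have z : ∑ i ∈ Finset.range N, (if N ≤ i then (4 / 9 : ℝ) ^ N * (8 / 9 : ℝ) ^ (i - N) else 0)
        = 0 := Finset.sum_eq_zero fun i hi => if_neg (not_le.2 (Finset.mem_range.1 hi))
    have : (fun n : ℕ => if N ≤ n + N then (4 / 9 : ℝ) ^ N * (8 / 9 : ℝ) ^ (n + N - N) else 0)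
        = fun n : ℕ => (4 / 9 : ℝ) ^ N * (8 / 9 : ℝ) ^ n := by
      funext n
      rw [if_pos (Nat.le_add_left N n), Nat.add_sub_cancel]
    rw [z, this, tsum_mul_left, hg9]
    ring
  rw [h5] at h4
  linarith

theorem ph_null : volume (ph '' Ico (0:ℝ) 1) = 0 := by
  have hN : ∀ N : ℕ, volume (ph '' Ico (0:ℝ) 1) ≤ ENNReal.ofReal (9 * (8 / 9 : ℝ) ^ N) := by
    intro N
    have hcov : ph '' Ico (0:ℝ) 1 ⊆ ⋃ k ∈ Finset.range (2 ^ N),
        Icc (ph ((k:ℝ) / 2 ^ N)) (ph ((k:ℝ) / 2 ^ N) + 9 * (4 / 9 : ℝ) ^ N) := by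
      rintro _ ⟨s, ⟨h0, h1⟩, rfl⟩
      have hp : (0:ℝ) < 2 ^ N := by positivity
      have h2 : 0 ≤ 2 ^ N * s := by positivity
      set k := ⌊2 ^ N * s⌋₊ with hk
      have h3 : (k:ℝ) ≤ 2 ^ N * s := Nat.floor_le h2
      have h4 : 2 ^ N * s < k + 1 := Nat.lt_floor_add_one _
      have h5 : k < 2 ^ N := by
        rw [hk, Nat.floor_lt h2]
        push_cast
        nlinarith
      simp only [mem_iUnion, Finset.mem_range]
      have a1 : (k:ℝ) / 2 ^ N ≤ s := by rw [div_le_iff₀ hp]; linarith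
      have a2 : s < (k + 1 : ℝ) / 2 ^ N := by rw [lt_div_iff₀ hp]; linarith
      exact ⟨k, h5, ph_mono a1, ph_cell N k a1 a2⟩
    refine (measure_mono hcov).trans ((measure_biUnion_finset_le _ _).trans ?_)
    simp only [Real.volume_Icc, add_sub_cancel_left]
    rw [Finset.sum_const, Finset.card_range, nsmul_eq_mul]
    rw [show ((2 ^ N : ℕ) : ENNReal) = ENNReal.ofReal (2 ^ N) by
      rw [← ENNReal.ofReal_natCast]; push_cast; rfl]
    rw [← ENNReal.ofReal_mul (by positivity)]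
    refine ENNReal.ofReal_le_ofReal (le_of_eq ?_)
    have : (8 / 9 : ℝ) ^ N = 2 ^ N * (4 / 9) ^ N := by rw [← mul_pow]; norm_num
    rw [this]; ring
  have hlim : Tendsto (fun N : ℕ => ENNReal.ofReal (9 * (8 / 9 : ℝ) ^ N)) atTop (𝓝 0) := by
    have h1 : Tendsto (fun N : ℕ => 9 * (8 / 9 : ℝ) ^ N) atTop (𝓝 (9 * 0)) :=
      (tendsto_pow_atTop_nhds_zero_of_lt_one (by norm_num) (by norm_num)).const_mul 9
    rw [mul_zero] at h1
    have := ENNReal.tendsto_ofReal h1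
    rwa [ENNReal.ofReal_zero] at this
  exact le_antisymm (ge_of_tendsto' hlim hN) bot_le

/-- the null set which is hard to cover by strips -/
def ZZ : Set (ℝ × ℝ) := {z | z.1 ∈ Icc (-1:ℝ) 1 ∧ ∃ s ∈ Ico (0:ℝ) 1, z.2 = z.1 ^ 2 + ph s}

theorem ZZ_null : volume ZZ = 0 := by
  set K := toMeasurable volume (ph '' Ico (0:ℝ) 1) with hK
  have hKm : MeasurableSet K := measurableSet_toMeasurable _ _
  have hK0 : volume K = 0 := by rw [hK, measure_toMeasurable, ph_null]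
  have hsub : ZZ ⊆ {z : ℝ × ℝ | z.2 - z.1 ^ 2 ∈ K} := by
    rintro ⟨x, y⟩ ⟨_, s, hs, h⟩
    refine subset_toMeasurable _ _ ⟨s, hs, ?_⟩
    simp only at h ⊢
    linarith
  refine measure_mono_null hsub ?_
  have hm : MeasurableSet {z : ℝ × ℝ | z.2 - z.1 ^ 2 ∈ K} :=
    (show Measurable (fun z : ℝ × ℝ => z.2 - z.1 ^ 2) by fun_prop) hKm
  rw [Measure.volume_eq_prod, Measure.measure_prod_null hm]
  refine Eventually.of_forall fun x => ?_
  have : Prod.mk x ⁻¹' {z : ℝ × ℝ | z.2 - z.1 ^ 2 ∈ K} = (fun y => y + -(x ^ 2)) ⁻¹' K := by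
    ext y; simp [sub_eq_add_neg]
  show volume (Prod.mk x ⁻¹' {z : ℝ × ℝ | z.2 - z.1 ^ 2 ∈ K}) = 0
  rw [this, measure_preimage_add_right, hK0]

theorem ZZ_bdd : Bornology.IsBounded ZZ := by
  have : ZZ ⊆ Icc (-1:ℝ) 1 ×ˢ Icc (0:ℝ) 20 := by
    rintro ⟨x, y⟩ ⟨hx, s, hs, h⟩
    refine ⟨hx, ?_⟩
    have h1 := ph_mono hs.1
    have h0 : ph 0 = 0 := by unfold ph; simp
    have h2 := ph_cell 0 0 (s := s) (by simpa using hs.1) (by simpa using hs.2)
    simp only [Nat.cast_zero, pow_zero, div_one, mul_one, h0] at h1 h2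
    simp only at h
    have hx2 : x ^ 2 ≤ 1 := by
      have := hx.1; have := hx.2
      simp only at *
      nlinarith
    constructor
    · simp only; rw [h]; nlinarith [sq_nonneg x]
    · simp only; linarith
  exact (Metric.isBounded_Icc _ _).prod (Metric.isBounded_Icc _ _) |>.subset this

end Pool.Agent.H9.Strip
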